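import Pool.Agent.MP_019006_gt.FlowGeo1

set_option autoImplicit false

open MeasureTheory Filter Topology Set Matrix

namespace Pool.Agent.MP_019006_gt

theorem exists_geoFlow {f : EE → ℝ} (hf : Conf f) : ∃ φ M, IsFlow OO (XX f) φ M := by
  refine exists_isFlow isOpen_OO (contDiffOn_XX hf.smooth 2) (FG.VV f) 2
    (fun p hp => (FG.hasFDerivAt_VV hf.smooth (mem_OO.1 hp)).differentiableAt.differentiableWithinAt)
    (fun p hp => ?_) (fun p hp => ?_) (FG.compact_VV hf)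
  · have h1 := FG.log_Dd_nonpos (mem_OO.1 hp)
    have h2 := FG.en_nonneg f (mem_OO.1 hp)
    unfold FG.VV
    linarith
  · have hp1 := mem_OO.1 hp
    have h1 := FG.log_Dd_nonpos hp1
    have h2 := FG.le_en hf hp1
    have h3 := FG.re_al_sq_le hp1 p.2
    have h4 := FG.en_nonneg f hp1
    have e : fderiv ℝ (FG.VV f) p (XX f p) = 2 * (al p.1 p.2).re := by
      rw [(FG.hasFDerivAt_VV hf.smooth hp1).fderiv, _root_.add_apply,
        FG.fderiv_en_XX hf.smooth hp1, FG.al_re]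
      simp [XX]
      ring
    rw [e, abs_le]
    unfold FG.VV
    constructor
    · nlinarith [sq_nonneg ((al p.1 p.2).re + 1)]
    · nlinarith [sq_nonneg ((al p.1 p.2).re - 1)]

theorem isGeodesicFlow {f : EE → ℝ} {φ : ℝ → EE × EE → EE × EE}
    {M : ℝ → EE × EE → (EE × EE) →L[ℝ] (EE × EE)} (hφ : IsFlow OO (XX f) φ M) :
    IsGeodesicFlow Bl (Gam f) φ := fun p hp =>
  ⟨hφ.zero p, fun t => ⟨mem_OO.1 (hφ.mem t p (mem_OO.2 hp)), hφ.deriv t p (mem_OO.2 hp),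
    (hφ.fderiv t p (mem_OO.2 hp)).differentiableAt⟩⟩

theorem flow_det {f : EE → ℝ} (hf : ∀ n : ℕ, ContDiffOn ℝ n f Bl) {φ : ℝ → EE × EE → EE × EE}
    {M : ℝ → EE × EE → (EE × EE) →L[ℝ] (EE × EE)} (hφ : IsFlow OO (XX f) φ M) (t : ℝ)
    {p : EE × EE} (hp : p.1 ∈ Bl) : rho f (φ t p) * (M t p).det = rho f p := by
  refine hφ.det isOpen_OO (contDiffOn_XX hf 1) (rho f)
    (fun q hq => (FG.rho_deriv hf (mem_OO.1 hq)).1.differentiableWithinAt) (fun q hq => ?_) t p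
    (mem_OO.2 hp)
  rw [(FG.rho_deriv hf (mem_OO.1 hq)).2, FG.trace_XX hf (mem_OO.1 hq)]
  ring

theorem flow_measurePreserving {f : EE → ℝ} (hf : ∀ n : ℕ, ContDiffOn ℝ n f Bl)
    {φ : ℝ → EE × EE → EE × EE}
    {M : ℝ → EE × EE → (EE × EE) →L[ℝ] (EE × EE)} (hφ : IsFlow OO (XX f) φ M)
    {S : Set (EE × EE)} (hS : MeasurableSet S) (hSO : S ⊆ OO) (hinv : ∀ t, ∀ p ∈ S, φ t p ∈ S)
    (t : ℝ) : MeasurePreserving (φ t) (liou f S) (liou f S) := by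
  have hm : Measurable (φ t) :=
    (hφ.measurable isOpen_OO).comp (measurable_const.prodMk measurable_id)
  have h1 : ∀ p, φ (-t) (φ t p) = p := fun p => by rw [← hφ.add, neg_add_cancel, hφ.zero]
  have h2 : ∀ p, φ t (φ (-t) p) = p := fun p => by rw [← hφ.add, add_neg_cancel, hφ.zero]
  have : ((volume : Measure EE).prod (volume : Measure EE)).IsAddHaarMeasure :=
    Measure.prod.instIsAddHaarMeasure _ _
  refine measurePreserving_of_det ((volume : Measure EE).prod (volume : Measure EE)) hS (φ t) hm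
    (M t) ⟨fun p hp => hinv t p hp, fun p _ q _ h => ?_, fun p hp => ⟨φ (-t) p, hinv _ p hp, h2 p⟩⟩
    (fun p hp => hφ.fderiv t p (hSO hp)) (rho f)
    (fun p hp => (FG.rho_pos f (mem_OO.1 (hSO hp))).le) fun p hp => ?_
  · rw [← h1 p, h, h1]
  · have hp1 := mem_OO.1 (hSO hp)
    have h3 := flow_det hf hφ t hp1
    have h4 := FG.rho_pos f hp1
    have h5 := FG.rho_pos f (mem_OO.1 (hφ.mem t p (hSO hp)))
    have h6 : 0 < (M t p).det := by
      rw [← h3] at h4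
      exact (mul_pos_iff_of_pos_left h5).1 h4
    rw [abs_of_pos h6, h3]

namespace FG

theorem dx {f : EE → ℝ} {φ : ℝ → EE × EE → EE × EE}
    {M : ℝ → EE × EE → (EE × EE) →L[ℝ] (EE × EE)} (hφ : IsFlow OO (XX f) φ M)
    {p : EE × EE} (hp : p.1 ∈ Bl) (t : ℝ) : HasDerivAt (fun s => (φ s p).1) (φ t p).2 t :=
  (hφ.deriv t p (mem_OO.2 hp)).fst

theorem dv {f : EE → ℝ} {φ : ℝ → EE × EE → EE × EE}
    {M : ℝ → EE × EE → (EE × EE) →L[ℝ] (EE × EE)} (hφ : IsFlow OO (XX f) φ M)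
    {p : EE × EE} (hp : p.1 ∈ Bl) (t : ℝ) :
    HasDerivAt (fun s => (φ s p).2) (-Gam f (φ t p).1 (φ t p).2 (φ t p).2) t :=
  (hφ.deriv t p (mem_OO.2 hp)).snd

theorem memB {f : EE → ℝ} {φ : ℝ → EE × EE → EE × EE}
    {M : ℝ → EE × EE → (EE × EE) →L[ℝ] (EE × EE)} (hφ : IsFlow OO (XX f) φ M)
    {p : EE × EE} (hp : p.1 ∈ Bl) (t : ℝ) : (φ t p).1 ∈ Bl :=
  mem_OO.1 (hφ.mem t p (mem_OO.2 hp))

theorem en_const {f : EE → ℝ} (hf : ∀ n : ℕ, ContDiffOn ℝ n f Bl) {φ : ℝ → EE × EE → EE × EE}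
    {M : ℝ → EE × EE → (EE × EE) →L[ℝ] (EE × EE)} (hφ : IsFlow OO (XX f) φ M)
    {p : EE × EE} (hp : p.1 ∈ Bl) (t : ℝ) : en f (φ t p) = en f p := by
  have h : ∀ s, HasDerivAt (fun s => en f (φ s p)) 0 s := fun s => by
    have h1 := (diff_en hf (memB hφ hp s)).hasFDerivAt.comp_hasDerivAt s
      (hφ.deriv s p (mem_OO.2 hp))
    rw [fderiv_en_XX hf (memB hφ hp s)] at h1
    exact h1
  have h2 := is_const_of_deriv_eq_zero (fun s => (h s).differentiableAt) (fun s => (h s).deriv) t 0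
  rwa [hφ.zero] at h2

theorem en_smul (f : EE → ℝ) (p : EE × EE) (c : ℝ) :
    en f (p.1, c • p.2) = c ^ 2 * en f p := by
  rw [en_eq, en_eq, g0_smul_left, g0_smul_right]
  ring

theorem inner_Gam (f : EE → ℝ) {x : EE} (hx : x ∈ Bl) (v : EE) :
    inner ℝ x (Gam f x v v) = Dd x * (2 * ((al x v).re ^ 2 - (al x v).im ^ 2) +
      2 * fderiv ℝ f x v * (al x v).re - g0 x v v * (al x (NN f x)).re) := by
  have hD := (Dd_pos hx).ne'
  have h1 : inner ℝ x (Gam f x v v) = Dd x * (al x (Gam f x v v)).re := by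
    rw [al_re]
    field_simp
  have h2 : al x (Gam f x v v) = al x v * al x v + al x v * al x v + fderiv ℝ f x v * al x v +
      fderiv ℝ f x v * al x v + ((-g0 x v v : ℝ) : ℂ) * al x (NN f x) := by
    rw [Gam, Gam0, sub_eq_add_neg, ← neg_smul]
    simp only [al_add, al_smul, al_rsmul]
  rw [h1, h2]
  simp only [Complex.add_re, Complex.mul_re, Complex.ofReal_re, Complex.ofReal_im]
  ring

theorem re_al_NN {f : EE → ℝ} (hf : Conf f) {x : EE} (hx : x ∈ Bl) :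
    |(al x (NN f x)).re| ≤ 1 / 100 := by
  have h1 := re_al_sq_le hx (NN f x)
  have h2 := g0_NN f hx (NN f x)
  have h3 := hf.dfb x hx (NN f x)
  have h4 := g0_nonneg hx (NN f x)
  rw [← h2] at h3
  have h5 : g0 x (NN f x) (NN f x) ≤ 1 / 10000 := by nlinarith
  exact abs_le_of_sq_le_sq' (by linarith) (by norm_num) |> abs_le.2

end FG

theorem flow_scale {f : EE → ℝ} {φ : ℝ → EE × EE → EE × EE}
    {M : ℝ → EE × EE → (EE × EE) →L[ℝ] (EE × EE)} (hφ : IsFlow OO (XX f) φ M) (c t : ℝ)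
    {p : EE × EE} (hp : p.1 ∈ Bl) :
    φ t (p.1, c • p.2) = ((φ (c * t) p).1, c • (φ (c * t) p).2) := by
  have h := hφ.uniq (fun s => ((φ (c * s) p).1, c • (φ (c * s) p).2)) (-|t| - 1) (|t| + 1) 0
    ⟨by linarith [abs_nonneg t], by linarith [abs_nonneg t]⟩ (fun s _ => ?_) t
    ⟨by linarith [neg_abs_le t], by linarith [le_abs_self t]⟩
  · simp only [mul_zero, hφ.zero, sub_zero] at h
    exact h.symm
  · refine ⟨mem_OO.2 (FG.memB hφ hp _), ?_⟩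
    have hc : HasDerivAt (fun s : ℝ => c * s) c s := by
      simpa using (hasDerivAt_id s).const_mul c
    have h1 := (FG.dx hφ hp (c * s)).scomp s hc
    have h2 := ((FG.dv hφ hp (c * s)).scomp s hc).const_smul c
    have h3 := h1.prodMk h2
    have e : XX f ((φ (c * s) p).1, c • (φ (c * s) p).2) =
        (c • (φ (c * s) p).2, c • c • -Gam f (φ (c * s) p).1 (φ (c * s) p).2 (φ (c * s) p).2) := by
      simp only [XX, Gam_smul_left, Gam_smul_right, smul_neg]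
    rw [e]
    exact h3

theorem en_nrm {f : EE → ℝ} {p : EE × EE} (hp : p.1 ∈ Bl) (h0 : p.2 ≠ 0) :
    0 < en f p ∧ en f (nrm f p) = 1 := by
  have h1 : 0 < en f p := by
    rw [FG.en_eq]
    have h2 := (g0_bounds hp p.2).1
    have h3 : 0 < ‖p.2‖ ^ 2 := pow_pos (norm_pos_iff.2 h0) 2
    exact mul_pos (Real.exp_pos _) (by linarith)
  refine ⟨h1, ?_⟩
  rw [nrm, FG.en_smul, inv_pow, Real.sq_sqrt h1.le, inv_mul_cancel₀ h1.ne']

theorem flow_nrm {f : EE → ℝ} (hf : ∀ n : ℕ, ContDiffOn ℝ n f Bl) {φ : ℝ → EE × EE → EE × EE}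
    {M : ℝ → EE × EE → (EE × EE) →L[ℝ] (EE × EE)} (hφ : IsFlow OO (XX f) φ M) (t : ℝ)
    {p : EE × EE} (hp : p.1 ∈ Bl) (h0 : p.2 ≠ 0) :
    nrm f (φ t p) = φ (Real.sqrt (en f p) * t) (nrm f p) := by
  have h1 := Real.sqrt_pos.2 (en_nrm (f := f) hp h0).1
  rw [nrm, nrm, flow_scale hφ _ _ hp, FG.en_const hf hφ hp, ← mul_assoc, inv_mul_cancel₀ h1.ne',
    one_mul]

theorem inv_Dd_convex {f : EE → ℝ} (hf : Conf f) {φ : ℝ → EE × EE → EE × EE}
    {M : ℝ → EE × EE → (EE × EE) →L[ℝ] (EE × EE)} (hφ : IsFlow OO (XX f) φ M)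
    {p : EE × EE} (hp : p.1 ∈ Bl) : ∃ u' u'' : ℝ → ℝ, ∀ t,
      HasDerivAt (fun s => (Dd (φ s p).1)⁻¹) (u' t) t ∧ HasDerivAt u' (u'' t) t ∧
      u' t = 2 * (al (φ t p).1 (φ t p).2).re * (Dd (φ t p).1)⁻¹ ∧
      (u' t) ^ 2 ≤ 9 * en f p * ((Dd (φ t p).1)⁻¹) ^ 2 ∧
      en f p * (Dd (φ t p).1)⁻¹ ≤ u'' t := by
  have hu : ∀ t, HasDerivAt (fun s => (Dd (φ s p).1)⁻¹)
      (2 * inner ℝ (φ t p).1 (φ t p).2 * (Dd (φ t p).1)⁻¹ * (Dd (φ t p).1)⁻¹) t := fun t => by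
    have hD := (Dd_pos (FG.memB hφ hp t)).ne'
    have h00 := (FG.hasFDerivAt_Dd (φ t p).1).comp_hasDerivAt t (FG.dx hφ hp t)
    have h0 : HasDerivAt (fun s => Dd (φ s p).1) _ t := h00
    refine (h0.inv hD).congr_deriv ?_
    simp
    field_simp
  refine ⟨fun t => 2 * inner ℝ (φ t p).1 (φ t p).2 * (Dd (φ t p).1)⁻¹ * (Dd (φ t p).1)⁻¹,
    fun t => (Dd (φ t p).1)⁻¹ * (2 * g0 (φ t p).1 (φ t p).2 (φ t p).2 +
      2 * ((al (φ t p).1 (φ t p).2).re ^ 2 + (al (φ t p).1 (φ t p).2).im ^ 2) -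
      4 * fderiv ℝ f (φ t p).1 (φ t p).2 * (al (φ t p).1 (φ t p).2).re +
      2 * g0 (φ t p).1 (φ t p).2 (φ t p).2 * (al (φ t p).1 (NN f (φ t p).1)).re),
    fun t => ?_⟩
  have hB := FG.memB hφ hp t
  have hD := Dd_pos hB
  have ha : inner ℝ (φ t p).1 (φ t p).2 = Dd (φ t p).1 * (al (φ t p).1 (φ t p).2).re := by
    rw [FG.al_re]
    field_simp
  have hen := FG.en_const hf.smooth hφ hp t
  have h1 := FG.le_en hf hB
  have h2 := FG.en_le hf hB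
  have h3 := FG.re_al_sq_le hB (φ t p).2
  have h4 := FG.g0_nonneg hB (φ t p).2
  rw [hen] at h1 h2
  have e' : 2 * inner ℝ (φ t p).1 (φ t p).2 * (Dd (φ t p).1)⁻¹ * (Dd (φ t p).1)⁻¹ =
      2 * (al (φ t p).1 (φ t p).2).re * (Dd (φ t p).1)⁻¹ := by
    rw [ha]
    field_simp
  refine ⟨hu t, ?_, e', ?_, ?_⟩
  · have h5 := ((((FG.dx hφ hp t).inner ℝ (FG.dv hφ hp t)).const_mul 2).mul (hu t)).mul (hu t)
    refine HasDerivAt.congr_deriv h5 ?_
    have h6 := FG.normSq_al_le hB (φ t p).2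
    simp only [Pi.mul_apply]
    rw [inner_neg_right, FG.inner_Gam f hB, real_inner_self_eq_norm_sq, ha]
    have h7 : ‖(φ t p).2‖ ^ 2 = Dd (φ t p).1 * (g0 (φ t p).1 (φ t p).2 (φ t p).2 -
        (al (φ t p).1 (φ t p).2).re ^ 2 - (al (φ t p).1 (φ t p).2).im ^ 2) := by
      rw [← h6]
      field_simp
      ring
    rw [h7]
    field_simp
    ring
  · simp only []
    rw [e', mul_pow]
    exact mul_le_mul_of_nonneg_right (by nlinarith) (sq_nonneg _)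
  · simp only []
    rw [mul_comm]
    refine mul_le_mul_of_nonneg_left ?_ (inv_pos.2 hD).le
    have h5 := abs_le.1 (FG.re_al_NN hf hB)
    have h6 := hf.dfb _ hB (φ t p).2
    nlinarith [sq_nonneg (al (φ t p).1 (φ t p).2).im,
      sq_nonneg (10 * fderiv ℝ f (φ t p).1 (φ t p).2 - (al (φ t p).1 (φ t p).2).re / 5),
      mul_nonneg h4 (sub_nonneg.2 h5.1)]

theorem passage_short {f : EE → ℝ} (hf : Conf f) {φ : ℝ → EE × EE → EE × EE}
    {M : ℝ → EE × EE → (EE × EE) →L[ℝ] (EE × EE)} (hφ : IsFlow OO (XX f) φ M)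
    {p : EE × EE} (hp : p.1 ∈ Bl) (h1 : en f p = 1) {r s t : ℝ} (hr0 : 0 ≤ r) (hr : r ≤ 1 / 20)
    (hst : s ≤ t) (hs : ‖(φ s p).1‖ ≤ 2 * r) (ht : ‖(φ t p).1‖ ≤ 2 * r) : t - s ≤ 6 * r := by
  have _ := hst
  obtain ⟨u', u'', h⟩ := inv_Dd_convex hf hφ hp
  have hge : ∀ τ, 1 ≤ (Dd (φ τ p).1)⁻¹ := fun τ =>
    (one_le_inv₀ (Dd_pos (FG.memB hφ hp τ))).2 (Dd_le_one _)
  have hw : ∀ τ, HasDerivAt (fun τ => (Dd (φ τ p).1)⁻¹ - τ ^ 2 / 2) (u' τ - τ) τ := fun τ => by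
    have h2 := (h τ).1.sub (((hasDerivAt_id τ).pow 2).div_const 2)
    refine HasDerivAt.congr_deriv h2 ?_
    simp
  have hw' : ∀ τ, HasDerivAt (fun τ => u' τ - τ) (u'' τ - 1) τ := fun τ =>
    (h τ).2.1.sub (hasDerivAt_id τ)
  have hmono : Monotone fun τ => u' τ - τ :=
    monotone_of_deriv_nonneg (fun τ => (hw' τ).differentiableAt) fun τ => by
      rw [(hw' τ).deriv]
      have h2 := (h τ).2.2.2.2
      rw [h1, one_mul] at h2
      linarith [hge τ]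
  have hconv : ConvexOn ℝ univ fun τ => (Dd (φ τ p).1)⁻¹ - τ ^ 2 / 2 := by
    refine Monotone.convexOn_univ_of_deriv (fun τ => (hw τ).differentiableAt) ?_
    have e : deriv (fun τ => (Dd (φ τ p).1)⁻¹ - τ ^ 2 / 2) = fun τ => u' τ - τ :=
      funext fun τ => (hw τ).deriv
    rw [e]
    exact hmono
  have h2 := hconv.2 (mem_univ s) (mem_univ t) (show (0 : ℝ) ≤ 1 / 2 by norm_num)
    (show (0 : ℝ) ≤ 1 / 2 by norm_num) (by norm_num)
  simp only [smul_eq_mul] at h2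
  have hle : ∀ τ, ‖(φ τ p).1‖ ≤ 2 * r → (Dd (φ τ p).1)⁻¹ ≤ 1 + 9 / 2 * r ^ 2 := fun τ hτ => by
    have h3 : ‖(φ τ p).1‖ ^ 2 ≤ (2 * r) ^ 2 := pow_le_pow_left₀ (norm_nonneg _) hτ 2
    have h4 : 1 - 4 * r ^ 2 ≤ Dd (φ τ p).1 := by
      unfold Dd
      nlinarith
    have h5 : r ^ 2 ≤ 1 / 400 := by nlinarith
    rw [inv_le_iff_one_le_mul₀ (Dd_pos (FG.memB hφ hp τ))]
    nlinarith [sq_nonneg r, mul_nonneg (sq_nonneg r) (sub_nonneg.2 h5),
      mul_le_mul_of_nonneg_left h4 (show 0 ≤ 1 + 9 / 2 * r ^ 2 by positivity)]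
  have h3 := hge (1 / 2 * s + 1 / 2 * t)
  have h4 := hle s hs
  have h5 := hle t ht
  have h6 : (t - s) ^ 2 ≤ (6 * r) ^ 2 := by nlinarith
  exact (abs_le_of_sq_le_sq' h6 (by positivity)).2

theorem Dd_flow_ge {f : EE → ℝ} (hf : Conf f) {φ : ℝ → EE × EE → EE × EE}
    {M : ℝ → EE × EE → (EE × EE) →L[ℝ] (EE × EE)} (hφ : IsFlow OO (XX f) φ M)
    {p : EE × EE} (hp : p.1 ∈ Bl) (s t : ℝ) :
    Real.exp (-3 * Real.sqrt (en f p) * |t - s|) * Dd (φ s p).1 ≤ Dd (φ t p).1 := by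
  obtain ⟨u', u'', h⟩ := inv_Dd_convex hf hφ hp
  have hD : ∀ τ, 0 < Dd (φ τ p).1 := fun τ => Dd_pos (FG.memB hφ hp τ)
  have hg : ∀ τ, HasDerivAt (fun τ => Real.log (Dd (φ τ p).1)⁻¹) (u' τ / (Dd (φ τ p).1)⁻¹) τ :=
    fun τ => (h τ).1.log (inv_pos.2 (hD τ)).ne'
  have hb : ∀ τ, ‖u' τ / (Dd (φ τ p).1)⁻¹‖ ≤ 3 * Real.sqrt (en f p) := fun τ => by
    have h1 := (h τ).2.2.2.1
    have h2 := inv_pos.2 (hD τ)
    rw [Real.norm_eq_abs]
    refine abs_le.2 (abs_le_of_sq_le_sq' ?_ (by positivity))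
    rw [div_pow, mul_pow, Real.sq_sqrt (FG.en_nonneg f hp), div_le_iff₀ (by positivity)]
    linarith
  have h1 := convex_univ.norm_image_sub_le_of_norm_hasDerivWithin_le
    (fun τ _ => (hg τ).hasDerivWithinAt) (fun τ _ => hb τ) (mem_univ s) (mem_univ t)
  rw [Real.norm_eq_abs, Real.norm_eq_abs, Real.log_inv, Real.log_inv] at h1
  have h2 := (abs_le.1 h1).2
  rw [← Real.exp_log (hD s), ← Real.exp_log (hD t), ← Real.exp_add]
  exact Real.exp_le_exp.2 (by linarith)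

end Pool.Agent.MP_019006_gt
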