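import Pool.Agent.MP_019006_gt.Curv1

set_option autoImplicit false

open MeasureTheory Filter Topology Set Matrix

namespace Pool.Agent.MP_019006_gt

namespace Curv

theorem TT_sub_left (f : EE → ℝ) (x u u' w : EE) :
    TT f x (u - u') w = TT f x u w - TT f x u' w := by
  have h := TT_add_left f x (u - u') u' w
  rw [sub_add_cancel] at h; linarith

theorem TT_add_right {f : EE → ℝ} (hf : ∀ n : ℕ, ContDiffOn ℝ n f Bl) {x : EE} (hx : x ∈ Bl)
    (u w w' : EE) : TT f x u (w + w') = TT f x u w + TT f x u w' := by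
  rw [TT_symm hf hx, TT_add_left, TT_symm hf hx w, TT_symm hf hx w']

theorem TT_sub_right {f : EE → ℝ} (hf : ∀ n : ℕ, ContDiffOn ℝ n f Bl) {x : EE} (hx : x ∈ Bl)
    (u w w' : EE) : TT f x u (w - w') = TT f x u w - TT f x u w' := by
  rw [TT_symm hf hx, TT_sub_left, TT_symm hf hx w, TT_symm hf hx w']

theorem TT_smul_right {f : EE → ℝ} (hf : ∀ n : ℕ, ContDiffOn ℝ n f Bl) {x : EE} (hx : x ∈ Bl)
    (c : ℝ) (u w : EE) : TT f x u (c • w) = c * TT f x u w := by
  rw [TT_symm hf hx, TT_smul_left, TT_symm hf hx w]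

theorem g0_pos {x : EE} (hx : x ∈ Bl) {u : EE} (hu : u ≠ 0) : 0 < g0 x u u := by
  have h := (g0_bounds hx u).1
  have : 0 < ‖u‖ ^ 2 := pow_pos (norm_pos_iff.mpr hu) 2
  linarith

theorem g0_nonneg {x : EE} (hx : x ∈ Bl) (u : EE) : 0 ≤ g0 x u u :=
  (sq_nonneg _).trans (g0_bounds hx u).1

theorem exp_mul (a : ℝ) : Real.exp (2 * a) * Real.exp (-2 * a) = 1 := by
  rw [← Real.exp_add]; simp

theorem g0_of_gg (f : EE → ℝ) (x u w : EE) : g0 x u w = Real.exp (-2 * f x) * gg f x u w := by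
  rw [gg_apply, ← mul_assoc, mul_comm (Real.exp (-2 * f x)), exp_mul, one_mul]

theorem fin3 : ∀ i : Fin 3, i = 0 ∨ i = 1 ∨ i = 2 := by decide

theorem frame_zero (p : EE × EE) : frame p 0 = Complex.I • p.2 := rfl
theorem frame_two (p : EE × EE) : frame p 2 = Complex.I • frame p 1 := rfl

theorem hh_v_frame {p : EE × EE} (hp : p.1 ∈ Bl) (i : Fin 3) :
    hh p.1 p.2 (frame p i) =
      -Complex.I * ((g0 p.1 p.2 p.2 * (1 : M3) i 0 : ℝ) : ℂ) := by
  have h1 : hh p.1 p.2 (frame p 1) = 0 := by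
    rw [← hh_conj, (hh_frame hp).1, map_zero]
  rcases fin3 i with rfl | rfl | rfl
  · rw [frame_zero, hh_smul_right, hh_self]; simp
  · rw [h1]; simp
  · rw [frame_two, hh_smul_right, h1]; simp

theorem g0_frame {p : EE × EE} (hp : p.1 ∈ Bl) (i j : Fin 3) :
    g0 p.1 (frame p i) (frame p j) = g0 p.1 p.2 p.2 * (1 : M3) i j := by
  have h1 : hh p.1 (frame p 1) p.2 = 0 := (hh_frame hp).1
  have h2 : hh p.1 p.2 (frame p 1) = 0 := by
    rw [← hh_conj, h1, map_zero]
  have h3 : hh p.1 (frame p 1) (frame p 1) = (g0 p.1 p.2 p.2 : ℂ) := by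
    rw [(hh_frame hp).2, hh_self]
  have h4 : hh p.1 p.2 p.2 = (g0 p.1 p.2 p.2 : ℂ) := hh_self _ _
  generalize g0 p.1 p.2 p.2 = m at *
  have a00 : g0 p.1 (frame p 0) (frame p 0) = m := by
    rw [g0, frame_zero, hh_smul_left, hh_smul_right, h4]; simp
  have a01 : g0 p.1 (frame p 0) (frame p 1) = 0 := by
    rw [g0, frame_zero, hh_smul_left, h2]; simp
  have a02 : g0 p.1 (frame p 0) (frame p 2) = 0 := by
    rw [g0, frame_zero, frame_two, hh_smul_left, hh_smul_right, h2]; simp
  have a11 : g0 p.1 (frame p 1) (frame p 1) = m := by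
    rw [g0, h3]; simp
  have a12 : g0 p.1 (frame p 1) (frame p 2) = 0 := by
    rw [g0, frame_two, hh_smul_right, h3]; simp
  have a22 : g0 p.1 (frame p 2) (frame p 2) = m := by
    rw [g0, frame_two, hh_smul_left, hh_smul_right, h3]; simp
  have a10 := (g0_symm p.1 (frame p 1) (frame p 0)).trans a01
  have a20 := (g0_symm p.1 (frame p 2) (frame p 0)).trans a02
  have a21 := (g0_symm p.1 (frame p 2) (frame p 1)).trans a12
  fin_cases i <;> fin_cases j <;> simp [a00, a01, a02, a10, a11, a12, a20, a21, a22]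

theorem gg_frame (f : EE → ℝ) {p : EE × EE} (hp : p.1 ∈ Bl) (i j : Fin 3) :
    gg f p.1 (frame p i) (frame p j) = en f p * (1 : M3) i j := by
  rw [en, gg_apply, gg_apply, g0_frame hp, mul_assoc]

end Curv

open Curv

theorem negCurved {f : EE → ℝ} (hf : Conf f) : NegCurved Bl (gg f) (Gam f) := by
  intro x hx u v hli
  have hs := hf.smooth
  have hv : v ≠ 0 := hli.ne_zero 1
  have hm : 0 < g0 x v v := g0_pos hx hv
  set c : ℝ := g0 x u v / g0 x v v with hc
  have hu' : u - c • v ≠ 0 := by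
    intro h
    have := LinearIndependent.pair_iff.mp hli 1 (-c)
      (by rw [one_smul, neg_smul, ← sub_eq_add_neg, h])
    exact one_ne_zero this.1
  have hp : 0 < g0 x (u - c • v) (u - c • v) := g0_pos hx hu'
  have t1 := hf.Tb x hx v
  have t2 := hf.Tb x hx (u - c • v)
  have ha : g0 x u v = c * g0 x v v := by rw [hc]; field_simp
  have e1 : g0 x (u - c • v) (u - c • v) = g0 x u u - c ^ 2 * g0 x v v := by
    simp only [g0_sub_left, g0_sub_right, g0_smul_left, g0_smul_right, g0_symm x v u, ha]; ring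
  have e2 : TT f x (u - c • v) (u - c • v) =
      TT f x u u - 2 * c * TT f x u v + c ^ 2 * TT f x v v := by
    simp only [TT_sub_left, TT_sub_right hs hx, TT_smul_left, TT_smul_right hs hx,
      TT_symm hs hx v u]; ring
  rw [gg_apply, curv_formula hs hx]
  apply mul_neg_of_pos_of_neg (Real.exp_pos _)
  have e3 : (hh x v u * hh x v u - hh x v v * hh x u u + (hh x v u - hh x u v) * hh x v u).re =
      (g0 x u v) ^ 2 - 3 * (hh x u v).im ^ 2 - g0 x v v * g0 x u u := by
    rw [hh_self, hh_self, ← hh_conj x u v]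
    generalize g0 x v v = a
    generalize g0 x u u = b
    simp only [g0, Complex.add_re, Complex.sub_re, Complex.mul_re, Complex.sub_im,
      Complex.conj_re, Complex.conj_im, Complex.ofReal_re, Complex.ofReal_im]
    ring
  rw [e3, TT_symm hs hx v u, g0_symm x v u, ha]
  rw [e1] at hp t2
  rw [e2] at t2
  have t1' := (abs_le.mp t1).1
  have t2' := (abs_le.mp t2).1
  generalize g0 x v v = m at *
  generalize g0 x u u = n at *
  generalize TT f x u u = A at *
  generalize TT f x u v = B at *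
  generalize TT f x v v = C at *
  have k1 := mul_le_mul_of_nonneg_left t1' hp.le
  have k2 := mul_le_mul_of_nonneg_left t2' hm.le
  have k3 := mul_pos hm hp
  have k4 := sq_nonneg (hh x u v).im
  nlinarith

theorem Kmat_eq {f : EE → ℝ} (hf : ∀ n : ℕ, ContDiffOn ℝ n f Bl) {p : EE × EE} (hp : p.1 ∈ Bl)
    (h1 : en f p = 1) (i j : Fin 3) : Kmat f p i j = Real.exp (-2 * f p.1) * K0 i j +
      TT f p.1 p.2 p.2 * (1 : M3) i j + TT f p.1 (frame p j) (frame p i) := by
  have hm : g0 p.1 p.2 p.2 = Real.exp (-2 * f p.1) := by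
    rw [g0_of_gg f]; rw [en] at h1; rw [h1, mul_one]
  have hz : ∀ k, g0 p.1 p.2 (frame p k) = 0 := by
    intro k; rw [g0, hh_v_frame hp]; simp
  have hz' : ∀ k, g0 p.1 (frame p k) p.2 = 0 := fun k => (g0_symm _ _ _).trans (hz k)
  have he := exp_mul (f p.1)
  have hK : K0 i j = (1 : M3) i j + 3 * ((1 : M3) i 0 * (1 : M3) j 0) := by
    rcases fin3 i with rfl | rfl | rfl <;> rcases fin3 j with rfl | rfl | rfl <;> simp [K0]
    norm_num
  have hs : (1 : M3) j i = (1 : M3) i j := by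
    simp only [Matrix.one_apply, eq_comm]
  have e3 : (hh p.1 p.2 (frame p j) * hh p.1 p.2 (frame p i) -
      hh p.1 p.2 p.2 * hh p.1 (frame p j) (frame p i) +
      (hh p.1 p.2 (frame p j) - hh p.1 (frame p j) p.2) * hh p.1 p.2 (frame p i)).re =
      -(Real.exp (-2 * f p.1)) ^ 2 * K0 i j := by
    have g := g0_frame hp j i
    rw [g0] at g
    rw [← hh_conj p.1 p.2 (frame p j), hh_v_frame hp, hh_v_frame hp, hh_self, hK]
    rw [hm] at g ⊢
    rw [hs] at g
    generalize Real.exp (-2 * f p.1) = m at *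
    simp only [Complex.add_re, Complex.sub_re, Complex.mul_re, Complex.sub_im, Complex.mul_im,
      Complex.neg_re, Complex.neg_im, Complex.I_re, Complex.I_im,
      Complex.conj_re, Complex.conj_im, Complex.ofReal_re, Complex.ofReal_im, g]
    ring
  show -gg f p.1 (curv (Gam f) p.1 (frame p j) p.2 p.2) (frame p i) = _
  rw [gg_apply, curv_formula hf hp, e3, hz, hz', g0_frame hp, hm, hs]
  generalize Real.exp (-2 * f p.1) = m at *
  generalize Real.exp (2 * f p.1) = e at *
  linear_combination (m * K0 i j + TT f p.1 p.2 p.2 * (1 : M3) i j +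
    TT f p.1 (frame p j) (frame p i)) * he

theorem Kmat_symm {f : EE → ℝ} (hf : ∀ n : ℕ, ContDiffOn ℝ n f Bl) {p : EE × EE} (hp : p.1 ∈ Bl)
    (h1 : en f p = 1) : (Kmat f p)ᵀ = Kmat f p := by
  ext i j
  rw [Matrix.transpose_apply, Kmat_eq hf hp h1, Kmat_eq hf hp h1,
    TT_symm hf hp (frame p i) (frame p j)]
  have hK : K0 j i = K0 i j := by
    fin_cases i <;> fin_cases j <;> simp [K0]
  have hs : (1 : M3) j i = (1 : M3) i j := by
    simp only [Matrix.one_apply, eq_comm]
  rw [hK, hs]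

theorem Kmat_pinch {f : EE → ℝ} (hf : Conf f) {p : EE × EE} (hp : p.1 ∈ Bl)
    (h1 : en f p = 1) (u : Fin 3 → ℝ) :
    9 / 10 * nsq u ≤ u ⬝ᵥ (Kmat f p *ᵥ u) ∧ u ⬝ᵥ (Kmat f p *ᵥ u) ≤ 5 * nsq u := by
  have hs := hf.smooth
  have hm : g0 p.1 p.2 p.2 = Real.exp (-2 * f p.1) := by
    rw [g0_of_gg f]; rw [en] at h1; rw [h1, mul_one]
  set y : EE := u 0 • frame p 0 + u 1 • frame p 1 + u 2 • frame p 2 with hy
  have e1 : g0 p.1 y y = Real.exp (-2 * f p.1) * nsq u := by
    simp only [hy, g0_add_left, g0_add_right, g0_smul_left, g0_smul_right, g0_frame hp, hm, nsq]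
    simp
    ring
  have e2 : u ⬝ᵥ (Kmat f p *ᵥ u) = Real.exp (-2 * f p.1) * (nsq u + 3 * u 0 ^ 2) +
      TT f p.1 p.2 p.2 * nsq u + TT f p.1 y y := by
    simp only [hy, TT_add_left, TT_add_right hs hp, TT_smul_left, TT_smul_right hs hp, nsq,
      dotProduct, Matrix.mulVec, Fin.sum_univ_three, Kmat_eq hs hp h1]
    simp [K0]
    ring
  have t1 := abs_le.mp (hf.Tb p.1 hp p.2)
  have t2 := abs_le.mp (hf.Tb p.1 hp y)
  have t3 := abs_le.mp (hf.fb p.1 hp)
  rw [hm] at t1
  rw [e1] at t2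
  have m1 : 98 / 100 ≤ Real.exp (-2 * f p.1) := by
    have := Real.add_one_le_exp (-2 * f p.1)
    linarith [t3.2]
  have m2 : Real.exp (-2 * f p.1) ≤ 103 / 100 := by
    have h2 := Real.add_one_le_exp (2 * f p.1)
    have h3 := exp_mul (f p.1)
    have h4 := Real.exp_pos (-2 * f p.1)
    nlinarith [t3.1]
  rw [e2]
  have n0 : 0 ≤ nsq u := by unfold nsq; positivity
  have n1 : u 0 ^ 2 ≤ nsq u := by unfold nsq; nlinarith [sq_nonneg (u 1), sq_nonneg (u 2)]
  have n2 := sq_nonneg (u 0)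
  generalize Real.exp (-2 * f p.1) = m at *
  generalize nsq u = q at *
  generalize u 0 ^ 2 = a at *
  have k1 := mul_le_mul_of_nonneg_right t1.1 n0
  have k2 := mul_le_mul_of_nonneg_right t1.2 n0
  have k3 := mul_le_mul_of_nonneg_right m1 n0
  have k4 := mul_le_mul_of_nonneg_right m2 n0
  have k5 : 0 ≤ m * a := mul_nonneg (by linarith) n2
  have k6 : m * a ≤ m * q := mul_le_mul_of_nonneg_left n1 (by linarith)
  constructor <;> nlinarith [t2.1, t2.2]

theorem Omat_antisymm {f : EE → ℝ} (hf : ∀ n : ℕ, ContDiffOn ℝ n f Bl) {p : EE × EE}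
    (hp : p.1 ∈ Bl) : (Omat f p)ᵀ = -Omat f p := by
  ext i j
  have hO : OO ∈ 𝓝 p := isOpen_OO.mem_nhds (mem_OO.mpr hp)
  have hc : HasDerivAt (fun s : ℝ => p + s • XX f p) (XX f p) 0 := by
    simpa using ((hasDerivAt_id (0 : ℝ)).smul_const (XX f p)).const_add p
  have h0 : p + (0 : ℝ) • XX f p = p := by simp
  have hx : HasDerivAt (fun s : ℝ => (p + s • XX f p).1) p.2 0 := hc.fst
  have hF : ∀ k, HasDerivAt (fun s : ℝ => frame (p + s • XX f p) k)
      (fderiv ℝ (fun q => frame q k) p (XX f p)) 0 := by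
    intro k
    have h1 : HasFDerivAt (fun q => frame q k) (fderiv ℝ (fun q => frame q k) p)
        (p + (0 : ℝ) • XX f p) := by
      rw [h0]
      exact (((contDiffOn_frame k 1).contDiffAt hO).differentiableAt (by simp)).hasFDerivAt
    exact h1.comp_hasDerivAt (0 : ℝ) hc
  have hE : HasDerivAt (fun s : ℝ => en f (p + s • XX f p)) 0 0 := by
    have h1 : HasFDerivAt (en f) (fderiv ℝ (en f) p) (p + (0 : ℝ) • XX f p) := by
      rw [h0]
      exact (((contDiffOn_en hf 1).contDiffAt hO).differentiableAt (by simp)).hasFDerivAt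
    have h2 := h1.comp_hasDerivAt (0 : ℝ) hc
    have h3 : fderiv ℝ (en f) p (XX f p) = 0 := by
      rw [fderiv_en hf hp]; simp [XX]
    rw [h3] at h2
    exact h2
  have hG := hasDerivAt_gg hf (x := fun s : ℝ => (p + s • XX f p).1)
    (a := fun s : ℝ => frame (p + s • XX f p) i) (b := fun s : ℝ => frame (p + s • XX f p) j)
    (t := 0) (by rw [h0]; exact hp) hx (hF i) (hF j)
  have hev : (fun s : ℝ => en f (p + s • XX f p) * (1 : M3) i j) =ᶠ[𝓝 0]
      fun s : ℝ => gg f (p + s • XX f p).1 (frame (p + s • XX f p) i)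
        (frame (p + s • XX f p) j) := by
    have : ∀ᶠ s : ℝ in 𝓝 0, p + s • XX f p ∈ OO :=
      hc.continuousAt.preimage_mem_nhds (by rw [h0]; exact hO)
    filter_upwards [this] with s hs
    rw [gg_frame f (mem_OO.mp hs)]
  have hu := (hE.mul_const ((1 : M3) i j)).unique (hG.congr_of_eventuallyEq hev)
  simp only [h0] at hu
  rw [gg_symm f p.1 (frame p i)] at hu
  show Omat f p j i = -Omat f p i j
  unfold Omat
  linarith

theorem Omat_zero {f : EE → ℝ} (hf : ∀ n : ℕ, ContDiffOn ℝ n f Bl) {p : EE × EE}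
    (hp : p.1 ∈ Bl) (h1 : en f p = 1) : Omat f p 0 0 = 0 ∧
      Omat f p 0 1 = fderiv ℝ f p.1 (frame p 2) ∧ Omat f p 0 2 = -fderiv ℝ f p.1 (frame p 1) := by
  have ha : ∀ i j, Omat f p j i = -Omat f p i j := fun i j =>
    congrFun (congrFun (Omat_antisymm hf hp) i) j
  have hm : g0 p.1 p.2 p.2 = Real.exp (-2 * f p.1) := by
    rw [g0_of_gg f]; rw [en] at h1; rw [h1, mul_one]
  have he := exp_mul (f p.1)
  have hD : fderiv ℝ (fun q => frame q 0) p (XX f p) = Complex.I • (-Gam f p.1 p.2 p.2) := by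
    have h : HasFDerivAt (fun q : EE × EE => Complex.I • q.2)
        (Complex.I • ContinuousLinearMap.snd ℝ EE EE) p := hasFDerivAt_snd.const_smul Complex.I
    have e : (fun q => frame q 0) = fun q : EE × EE => Complex.I • q.2 := rfl
    rw [e, h.fderiv]; rfl
  have hV : fderiv ℝ (fun q => frame q 0) p (XX f p) + Gam f p.1 p.2 (frame p 0) =
      fderiv ℝ f p.1 (Complex.I • p.2) • p.2 - fderiv ℝ f p.1 p.2 • (Complex.I • p.2) +
        g0 p.1 p.2 p.2 • (Complex.I • NN f p.1) := by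
    rw [hD, frame_zero]
    have h0 : g0 p.1 p.2 (Complex.I • p.2) = 0 := (g0_symm _ _ _).trans (g0_I_self _ _)
    simp only [Gam, Gam0, al_smul, h0]
    simp only [rsmul_eq]
    module
  have hz : ∀ k, g0 p.1 p.2 (frame p k) = 0 := by
    intro k; rw [g0, hh_v_frame hp]; simp
  have hk : ∀ k, k ≠ 0 → Omat f p k 0 = g0 p.1 (Complex.I • NN f p.1) (frame p k) := by
    intro k hk
    have h2 := g0_frame hp 0 k
    rw [frame_zero, Matrix.one_apply_ne hk.symm, mul_zero] at h2
    unfold Omat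
    rw [hV, gg_apply, g0_add_left, g0_sub_left, g0_smul_left, g0_smul_left, g0_smul_left, hz, h2,
      hm]
    linear_combination g0 p.1 (Complex.I • NN f p.1) (frame p k) * he
  refine ⟨by linarith [ha 0 0], ?_, ?_⟩
  · rw [ha 1 0, hk 1 (by decide), ← g0_NN f hp, frame_two, g0, g0, hh_smul_left, hh_smul_right]
    simp
  · rw [ha 2 0, hk 2 (by decide), ← g0_NN f hp, frame_two, g0_I_I]

theorem continuousOn_Kmat {f : EE → ℝ} (hf : ∀ n : ℕ, ContDiffOn ℝ n f Bl) :
    ContinuousOn (Kmat f) OO := by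
  refine continuousOn_pi.mpr fun i => continuousOn_pi.mpr fun j => ?_
  have hm : MapsTo (Prod.fst : EE × EE → EE) OO Bl := fun p hp => mem_OO.mp hp
  have cg : ContinuousOn (fun p : EE × EE => gg f p.1) OO :=
    (contDiffOn_gg hf 0).continuousOn.comp continuousOn_fst hm
  have cG : ContinuousOn (fun p : EE × EE => GamL f p.1) OO :=
    (contDiffOn_GamL hf 0).continuousOn.comp continuousOn_fst hm
  have cD := ((contDiffOn_GamL hf 1).continuousOn_fderiv_of_isOpen isOpen_Bl (by simp)).comp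
      continuousOn_fst hm
  have cF : ∀ k, ContinuousOn (fun p : EE × EE => frame p k) OO := fun k =>
    (contDiffOn_frame k 0).continuousOn
  have c2 : ContinuousOn (fun p : EE × EE => p.2) OO := continuousOn_snd
  have a1 := ((cD.clm_apply (cF j)).clm_apply c2).clm_apply c2
  have a2 := ((cD.clm_apply c2).clm_apply (cF j)).clm_apply c2
  have a3 := (cG.clm_apply (cF j)).clm_apply ((cG.clm_apply c2).clm_apply c2)
  have a4 := (cG.clm_apply c2).clm_apply ((cG.clm_apply (cF j)).clm_apply c2)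
  have a5 := ((cg.clm_apply (((a1.sub a2).add a3).sub a4)).clm_apply (cF i)).neg
  refine a5.congr fun p hp => ?_
  show -gg f p.1 (curv (Gam f) p.1 (frame p j) p.2 p.2) (frame p i) = _
  rw [curv_eq hf (mem_OO.mp hp)]
  rfl

theorem continuousOn_Omat {f : EE → ℝ} (hf : ∀ n : ℕ, ContDiffOn ℝ n f Bl) :
    ContinuousOn (Omat f) OO := by
  refine continuousOn_pi.mpr fun i => continuousOn_pi.mpr fun j => ?_
  have hm : MapsTo (Prod.fst : EE × EE → EE) OO Bl := fun p hp => mem_OO.mp hp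
  have cg : ContinuousOn (fun p : EE × EE => gg f p.1) OO :=
    (contDiffOn_gg hf 0).continuousOn.comp continuousOn_fst hm
  have cG : ContinuousOn (fun p : EE × EE => GamL f p.1) OO :=
    (contDiffOn_GamL hf 0).continuousOn.comp continuousOn_fst hm
  have cF : ∀ k, ContinuousOn (fun p : EE × EE => frame p k) OO := fun k =>
    (contDiffOn_frame k 0).continuousOn
  have cD : ContinuousOn (fun p : EE × EE => fderiv ℝ (fun q => frame q j) p) OO :=
    (contDiffOn_frame j 1).continuousOn_fderiv_of_isOpen isOpen_OO (by simp)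
  have cX : ContinuousOn (XX f) OO := (contDiffOn_XX hf 0).continuousOn
  have c2 : ContinuousOn (fun p : EE × EE => p.2) OO := continuousOn_snd
  exact (cg.clm_apply ((cD.clm_apply cX).add ((cG.clm_apply c2).clm_apply (cF j)))).clm_apply
    (cF i)

end Pool.Agent.MP_019006_gt
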