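import Pool.Agent.MP_019006_gt.JobDefs

set_option autoImplicit false

open MeasureTheory Filter Topology Set Matrix

namespace Pool.Agent.MP_019006_gt

lemma fm_det_rows {n : Type} [Fintype n] [DecidableEq n] (Y : Matrix n n ℝ) :
    Y.det = ∑ σ : Equiv.Perm n, ((Equiv.Perm.sign σ : ℤ) : ℝ) * ∏ i, Y i (σ i) := by
  rw [← det_transpose, det_apply']
  rfl

lemma fm_det_updateRow {n : Type} [Fintype n] [DecidableEq n] (Y : Matrix n n ℝ) (i : n)
    (v : n → ℝ) : (Y.updateRow i v).det = ∑ σ : Equiv.Perm n, ((Equiv.Perm.sign σ : ℤ) : ℝ) *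
      ((∏ j ∈ Finset.univ.erase i, Y j (σ j)) * v (σ i)) := by
  rw [fm_det_rows]
  refine Finset.sum_congr rfl fun σ _ => ?_
  rw [← Finset.prod_erase_mul _ _ (Finset.mem_univ i), updateRow_self]
  congr 2
  exact Finset.prod_congr rfl fun j hj => by rw [updateRow_ne (Finset.ne_of_mem_erase hj)]

theorem hasDerivAt_matrix_det {n : Type} [Fintype n] [DecidableEq n] (Y : ℝ → Matrix n n ℝ)
    (A : Matrix n n ℝ) (t : ℝ)
    (h : ∀ i j, HasDerivAt (fun s => Y s i j) ((A * Y t) i j) t) :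
    HasDerivAt (fun s => (Y s).det) (A.trace * (Y t).det) t := by
  have h1 : HasDerivAt (fun s => ∑ σ : Equiv.Perm n, ((Equiv.Perm.sign σ : ℤ) : ℝ) *
      ∏ i, Y s i (σ i)) (∑ σ : Equiv.Perm n, ((Equiv.Perm.sign σ : ℤ) : ℝ) *
        ∑ i, (∏ j ∈ Finset.univ.erase i, Y t j (σ j)) • (A * Y t) i (σ i)) t :=
    HasDerivAt.fun_sum fun σ _ =>
      (HasDerivAt.fun_finsetProd (f := fun i s => Y s i (σ i)) fun i _ => h i (σ i)).const_mul _
  have h2 : (fun s => (Y s).det) = fun s => ∑ σ : Equiv.Perm n,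
      ((Equiv.Perm.sign σ : ℤ) : ℝ) * ∏ i, Y s i (σ i) := funext fun s => fm_det_rows _
  have h3 : ∀ i, ((Y t).updateRow i ((A * Y t) i)).det = A i i * (Y t).det := by
    intro i
    have : (A * Y t) i = ∑ k, A i k • Y t k := by
      ext j
      simp [Matrix.mul_apply]
    rw [this, det_updateRow_sum, smul_eq_mul]
  have h4 : A.trace * (Y t).det = ∑ σ : Equiv.Perm n, ((Equiv.Perm.sign σ : ℤ) : ℝ) *
      ∑ i, (∏ j ∈ Finset.univ.erase i, Y t j (σ j)) • (A * Y t) i (σ i) := by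
    simp only [Finset.mul_sum, smul_eq_mul]
    rw [Finset.sum_comm, Matrix.trace, Finset.sum_mul]
    refine Finset.sum_congr rfl fun i _ => ?_
    rw [← fm_det_updateRow, h3, diag_apply]
  rw [h2, h4]
  exact h1

theorem hasDerivAt_det_comp {F : Type} [NormedAddCommGroup F] [NormedSpace ℝ F]
    [FiniteDimensional ℝ F]
    (M : ℝ → F →L[ℝ] F) (A : F →L[ℝ] F) (t : ℝ) (h : HasDerivAt M (A.comp (M t)) t) :
    HasDerivAt (fun s => (M s).det) (LinearMap.trace ℝ F (A : F →ₗ[ℝ] F) * (M t).det) t := by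
  classical
  let b := Module.finBasis ℝ F
  have h1 := hasDerivAt_matrix_det (fun s => LinearMap.toMatrix b b (M s : F →ₗ[ℝ] F))
    (LinearMap.toMatrix b b (A : F →ₗ[ℝ] F)) t (fun i j => by
      rw [← LinearMap.toMatrix_comp]
      simp only [LinearMap.toMatrix_apply]
      have h2 := (LinearMap.toContinuousLinearMap (b.coord i)).hasFDerivAt.comp_hasDerivAt t
        ((ContinuousLinearMap.apply ℝ F (b j)).hasFDerivAt.comp_hasDerivAt t h)
      exact h2)
  simp only [LinearMap.det_toMatrix] at h1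
  rw [LinearMap.trace_eq_matrix_trace ℝ b]
  exact h1

theorem IsFlow.M_add {F : Type} [NormedAddCommGroup F] [NormedSpace ℝ F]
    {O : Set F} {X : F → F} {φ : ℝ → F → F} {M : ℝ → F → F →L[ℝ] F}
    (h : IsFlow O X φ M) : (∀ p ∈ O, M 0 p = ContinuousLinearMap.id ℝ F) ∧
      ∀ t s, ∀ p ∈ O, M (t + s) p = (M t (φ s p)).comp (M s p) := by
  refine ⟨fun p hp => ?_, fun t s p hp => ?_⟩
  · have h1 := h.fderiv 0 p hp
    have h2 : φ 0 = id := funext h.zero
    rw [h2] at h1
    exact h1.unique (hasFDerivAt_id p)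
  · have h1 := h.fderiv (t + s) p hp
    have h2 : φ (t + s) = φ t ∘ φ s := funext (h.add t s)
    rw [h2] at h1
    exact h1.unique ((h.fderiv t _ (h.mem s p hp)).comp p (h.fderiv s p hp))

theorem IsFlow.det {F : Type} [NormedAddCommGroup F] [NormedSpace ℝ F] [FiniteDimensional ℝ F]
    {O : Set F} (hO : IsOpen O) {X : F → F} (hX : ContDiffOn ℝ 1 X O)
    {φ : ℝ → F → F} {M : ℝ → F → F →L[ℝ] F}
    (h : IsFlow O X φ M) (ρ : F → ℝ) (hρ : DifferentiableOn ℝ ρ O)
    (hdiv : ∀ p ∈ O, _root_.fderiv ℝ ρ p (X p) +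
      ρ p * LinearMap.trace ℝ F (_root_.fderiv ℝ X p : F →L[ℝ] F) = 0) :
    ∀ t, ∀ p ∈ O, ρ (φ t p) * (M t p).det = ρ p := by
  intro t p hp
  have _ := hX
  have key : ∀ s, HasDerivAt (fun s => ρ (φ s p) * (M s p).det) 0 s := by
    intro s
    have hq := h.mem s p hp
    have h1 := ((hρ _ hq).differentiableAt (hO.mem_nhds hq)).hasFDerivAt.comp_hasDerivAt s
      (h.deriv s p hp)
    have h2 := hasDerivAt_det_comp (fun s => M s p) _ s (h.Mderiv s p hp)
    have h3 := h1.mul h2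
    have h4 := hdiv _ hq
    refine h3.congr_deriv ?_
    simp only [Function.comp_apply]
    linear_combination (M s p).det * h4
  have h5 := is_const_of_deriv_eq_zero (fun s => (key s).differentiableAt)
    (fun s => (key s).deriv) t 0
  simp only [h.zero, h.M_add.1 p hp] at h5
  rw [h5]
  simp [ContinuousLinearMap.det]

theorem IsFlow.measurable {F : Type} [NormedAddCommGroup F] [NormedSpace ℝ F]
    [FiniteDimensional ℝ F] [MeasurableSpace F] [BorelSpace F]
    {O : Set F} (hO : IsOpen O) {X : F → F} {φ : ℝ → F → F} {M : ℝ → F → F →L[ℝ] F}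
    (h : IsFlow O X φ M) : Measurable (fun q : ℝ × F => φ q.1 q.2) := by
  classical
  have h1 := h.cont.measurable_piecewise (g := Prod.snd) continuousOn_snd
    (isOpen_univ.prod hO).measurableSet
  have h2 : (fun q : ℝ × F => φ q.1 q.2) =
      (univ ×ˢ O).piecewise (fun q : ℝ × F => φ q.1 q.2) Prod.snd := by
    ext q
    by_cases hq : q ∈ (univ ×ˢ O : Set (ℝ × F))
    · rw [piecewise_eq_of_mem _ _ _ hq]
    · rw [piecewise_eq_of_notMem _ _ _ hq]
      exact h.junk _ _ fun h' => hq ⟨mem_univ _, h'⟩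
  rw [h2]
  exact h1

theorem measurePreserving_of_det {F : Type} [NormedAddCommGroup F] [NormedSpace ℝ F]
    [FiniteDimensional ℝ F] [MeasurableSpace F] [BorelSpace F] (μ : Measure F)
    [μ.IsAddHaarMeasure]
    {S : Set F} (hS : MeasurableSet S) (T : F → F) (hT : Measurable T) (T' : F → F →L[ℝ] F)
    (hbij : BijOn T S S) (hd : ∀ p ∈ S, HasFDerivAt T (T' p) p)
    (ρ : F → ℝ) (hρ0 : ∀ p ∈ S, 0 ≤ ρ p)
    (hdet : ∀ p ∈ S, ρ (T p) * |(T' p).det| = ρ p) :
    MeasurePreserving T ((μ.restrict S).withDensity fun p => ENNReal.ofReal (ρ p))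
      ((μ.restrict S).withDensity fun p => ENNReal.ofReal (ρ p)) := by
  have _ := hρ0
  refine ⟨hT, Measure.ext fun A hA => ?_⟩
  have hB : MeasurableSet (T ⁻¹' A ∩ S) := (hT hA).inter hS
  have h1 : T '' (T ⁻¹' A ∩ S) = A ∩ S := by
    rw [image_preimage_inter, hbij.image_eq]
  rw [Measure.map_apply hT hA, withDensity_apply _ (hT hA), withDensity_apply _ hA,
    Measure.restrict_restrict (hT hA), Measure.restrict_restrict hA, ← h1,
    lintegral_image_eq_lintegral_abs_det_fderiv_mul μ hB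
      (fun x hx => (hd x hx.2).hasFDerivWithinAt) (hbij.injOn.mono inter_subset_right)]
  refine setLIntegral_congr_fun hB fun x hx => ?_
  rw [← ENNReal.ofReal_mul (abs_nonneg _), mul_comm, hdet x hx.2]

end Pool.Agent.MP_019006_gt
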