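import Pool.Agent.MP_019006_gt.Metric
import Pool.Agent.MP_019006_gt.Curv

set_option autoImplicit false

open MeasureTheory Filter Topology Set Matrix

namespace Pool.Agent.MP_019006_gt

namespace Jac

variable {f : EE → ℝ} {φ : ℝ → EE × EE → EE × EE}
  {M : ℝ → EE × EE → (EE × EE) →L[ℝ] (EE × EE)}

theorem memB (hφ : IsFlow OO (XX f) φ M) {p : EE × EE} (hp : p.1 ∈ Bl) (t : ℝ) :
    (φ t p).1 ∈ Bl := mem_OO.1 (hφ.mem t p (mem_OO.2 hp))

theorem dx (hφ : IsFlow OO (XX f) φ M) {p : EE × EE} (hp : p.1 ∈ Bl) (t : ℝ) :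
    HasDerivAt (fun s => (φ s p).1) (φ t p).2 t :=
  (hφ.deriv t p (mem_OO.2 hp)).fst

theorem dv (hφ : IsFlow OO (XX f) φ M) {p : EE × EE} (hp : p.1 ∈ Bl) (t : ℝ) :
    HasDerivAt (fun s => (φ s p).2) (-Gam f (φ t p).1 (φ t p).2 (φ t p).2) t :=
  (hφ.deriv t p (mem_OO.2 hp)).snd

theorem M_zero (hφ : IsFlow OO (XX f) φ M) {p : EE × EE} (hp : p.1 ∈ Bl) (ξ : EE × EE) :
    M 0 p ξ = ξ := by
  have h1 := hφ.fderiv 0 p (mem_OO.2 hp)
  have h2 : φ 0 = id := funext fun q => hφ.zero q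
  rw [h2] at h1
  have h3 := h1.unique (hasFDerivAt_id p)
  rw [h3]; rfl

theorem diff_en (hf : ∀ n : ℕ, ContDiffOn ℝ n f Bl) {p : EE × EE} (hp : p.1 ∈ Bl) :
    DifferentiableAt ℝ (en f) p :=
  ((contDiffOn_en hf 1).differentiableOn (by simp)).differentiableAt
    (isOpen_OO.mem_nhds (mem_OO.2 hp))

theorem diff_GamL (hf : ∀ n : ℕ, ContDiffOn ℝ n f Bl) {x : EE} (hx : x ∈ Bl) :
    DifferentiableAt ℝ (GamL f) x :=
  ((contDiffOn_GamL hf 1).differentiableOn (by simp)).differentiableAt (isOpen_Bl.mem_nhds hx)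

theorem diff_frame (j : Fin 3) {p : EE × EE} (hp : p.1 ∈ Bl) :
    DifferentiableAt ℝ (fun q => frame q j) p :=
  ((contDiffOn_frame j 1).differentiableOn (by simp)).differentiableAt
    (isOpen_OO.mem_nhds (mem_OO.2 hp))

theorem fderiv_Gam (hf : ∀ n : ℕ, ContDiffOn ℝ n f Bl) {x : EE} (hx : x ∈ Bl) (a b u : EE) :
    fderiv ℝ (fun y => Gam f y a b) x u = fderiv ℝ (GamL f) x u a b := by
  have h := (diff_GamL hf hx).hasFDerivAt
  have h1 := (h.clm_apply (hasFDerivAt_const a x)).clm_apply (hasFDerivAt_const b x)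
  have h2 : (fun y => Gam f y a b) = fun y => GamL f y a b := rfl
  rw [h2, h1.fderiv]
  simp

theorem hasDerivAt_Gam (hf : ∀ n : ℕ, ContDiffOn ℝ n f Bl) {x a b : ℝ → EE} {v a' b' : EE}
    {t : ℝ} (hx : x t ∈ Bl) (hdx : HasDerivAt x v t) (da : HasDerivAt a a' t)
    (db : HasDerivAt b b' t) : HasDerivAt (fun s => Gam f (x s) (a s) (b s))
      (fderiv ℝ (fun y => Gam f y (a t) (b t)) (x t) v + Gam f (x t) a' (b t) +
        Gam f (x t) (a t) b') t := by
  have h : HasDerivAt (fun s => GamL f (x s)) (fderiv ℝ (GamL f) (x t) v) t :=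
    HasFDerivAt.comp_hasDerivAt (F := EE) (E := EE →L[ℝ] EE →L[ℝ] EE) (l := GamL f) t
      (diff_GamL hf hx).hasFDerivAt hdx
  have h1 := (h.clm_apply da).clm_apply db
  rw [fderiv_Gam hf hx]
  have h2 : (fun s => Gam f (x s) (a s) (b s)) = fun s => GamL f (x s) (a s) (b s) := rfl
  rw [h2]
  refine h1.congr_deriv ?_
  simp [GamL_apply]

theorem dM (hf : ∀ n : ℕ, ContDiffOn ℝ n f Bl) (hφ : IsFlow OO (XX f) φ M) {p : EE × EE}
    (hp : p.1 ∈ Bl) (ξ : EE × EE) (t : ℝ) :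
    HasDerivAt (fun s => M s p ξ) ((M t p ξ).2,
      -(fderiv ℝ (fun y => Gam f y (φ t p).2 (φ t p).2) (φ t p).1 (M t p ξ).1 +
        Gam f (φ t p).1 (M t p ξ).2 (φ t p).2 + Gam f (φ t p).1 (φ t p).2 (M t p ξ).2)) t := by
  have h := (hφ.Mderiv t p (mem_OO.2 hp)).clm_apply (hasDerivAt_const t ξ)
  rw [← fderiv_XX hf (memB hφ hp t)]
  refine h.congr_deriv ?_
  simp

theorem dJ (hf : ∀ n : ℕ, ContDiffOn ℝ n f Bl) (hφ : IsFlow OO (XX f) φ M) {p : EE × EE}
    (hp : p.1 ∈ Bl) (ξ : EE × EE) (t : ℝ) :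
    HasDerivAt (fun s => (M s p ξ).1) (M t p ξ).2 t := (dM hf hφ hp ξ t).fst

theorem dW (hf : ∀ n : ℕ, ContDiffOn ℝ n f Bl) (hφ : IsFlow OO (XX f) φ M) {p : EE × EE}
    (hp : p.1 ∈ Bl) (ξ : EE × EE) (t : ℝ) :
    HasDerivAt (fun s => (M s p ξ).2)
      (-(fderiv ℝ (fun y => Gam f y (φ t p).2 (φ t p).2) (φ t p).1 (M t p ξ).1 +
        Gam f (φ t p).1 (M t p ξ).2 (φ t p).2 + Gam f (φ t p).1 (φ t p).2 (M t p ξ).2)) t :=
  (dM hf hφ hp ξ t).snd

theorem Gam_neg_left (x u w : EE) : Gam f x (-u) w = -Gam f x u w := by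
  have := Gam_smul_left f x (-1) u w
  simpa using this

theorem dE (hf : ∀ n : ℕ, ContDiffOn ℝ n f Bl) (hφ : IsFlow OO (XX f) φ M) {p : EE × EE}
    (hp : p.1 ∈ Bl) (ξ : EE × EE) (t : ℝ) :
    HasDerivAt (fun s => (M s p ξ).2 + Gam f (φ s p).1 (φ s p).2 (M s p ξ).1)
      (-curv (Gam f) (φ t p).1 (M t p ξ).1 (φ t p).2 (φ t p).2 -
        Gam f (φ t p).1 (φ t p).2
          ((M t p ξ).2 + Gam f (φ t p).1 (φ t p).2 (M t p ξ).1)) t := by
  have h1 := (dW hf hφ hp ξ t).add (hasDerivAt_Gam hf (x := fun s => (φ s p).1) (memB hφ hp t)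
    (dx hφ hp t) (dv hφ hp t) (dJ hf hφ hp ξ t))
  refine h1.congr_deriv ?_
  have e1 : (fun y => Gam f y (M t p ξ).1 (φ t p).2) = fun y => Gam f y (φ t p).2 (M t p ξ).1 :=
    funext fun y => Gam_symm f y _ _
  simp only [curv, e1, Gam_neg_left, Gam_add_right]
  rw [Gam_symm f (φ t p).1 (M t p ξ).2 (φ t p).2, Gam_symm f (φ t p).1 (M t p ξ).1 (φ t p).2,
    Gam_symm f (φ t p).1 (M t p ξ).1 (Gam f (φ t p).1 (φ t p).2 (φ t p).2)]
  abel

theorem dframe (hφ : IsFlow OO (XX f) φ M) {p : EE × EE} (hp : p.1 ∈ Bl) (j : Fin 3) (t : ℝ) :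
    HasDerivAt (fun s => frame (φ s p) j)
      (fderiv ℝ (fun q => frame q j) (φ t p) (XX f (φ t p))) t :=
  HasFDerivAt.comp_hasDerivAt (l := fun q => frame q j) (f := fun s => φ s p) t
    (diff_frame j (memB hφ hp t)).hasFDerivAt (hφ.deriv t p (mem_OO.2 hp))

end Jac

open Jac

theorem en_flow {f : EE → ℝ} (hf : ∀ n : ℕ, ContDiffOn ℝ n f Bl) {φ : ℝ → EE × EE → EE × EE}
    {M : ℝ → EE × EE → (EE × EE) →L[ℝ] (EE × EE)} (hφ : IsFlow OO (XX f) φ M) (t : ℝ)
    (p : EE × EE) : en f (φ t p) = en f p := by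
  by_cases hp : p ∈ OO
  · have hp' : p.1 ∈ Bl := mem_OO.1 hp
    have hd : ∀ s, HasDerivAt (fun s => en f (φ s p)) 0 s := by
      intro s
      have h := (diff_en hf (memB hφ hp' s)).hasFDerivAt.comp_hasDerivAt s (hφ.deriv s p hp)
      refine h.congr_deriv ?_
      rw [fderiv_en hf (memB hφ hp' s)]
      simp [XX]
    have := is_const_of_deriv_eq_zero (f := fun s => en f (φ s p))
      (fun s => (hd s).differentiableAt) (fun s => (hd s).deriv) t 0
    simpa [hφ.zero] using this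
  · rw [hφ.junk t p hp]

namespace Jac

variable {f : EE → ℝ} {φ : ℝ → EE × EE → EE × EE}
  {M : ℝ → EE × EE → (EE × EE) →L[ℝ] (EE × EE)}

theorem tang_E (hf : ∀ n : ℕ, ContDiffOn ℝ n f Bl) (hφ : IsFlow OO (XX f) φ M) {p : EE × EE}
    (hp : p.1 ∈ Bl) (ξ : EE × EE) (t : ℝ) :
    gg f (φ t p).1 ((M t p ξ).2 + Gam f (φ t p).1 (φ t p).2 (M t p ξ).1) (φ t p).2 =
      gg f p.1 (ξ.2 + Gam f p.1 p.2 ξ.1) p.2 := by
  have h1 := (diff_en hf (memB hφ hp t)).hasFDerivAt.comp p (hφ.fderiv t p (mem_OO.2 hp))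
  have h2 : en f ∘ φ t = en f := funext fun q => en_flow hf hφ t q
  rw [h2] at h1
  have h3 := congrArg (fun L => L ξ) h1.fderiv
  simp only [ContinuousLinearMap.comp_apply] at h3
  rw [fderiv_en hf hp, fderiv_en hf (memB hφ hp t)] at h3
  rw [gg_symm, gg_symm f p.1 _ p.2]
  linarith

theorem tang_J (hf : ∀ n : ℕ, ContDiffOn ℝ n f Bl) (hφ : IsFlow OO (XX f) φ M) {p : EE × EE}
    (hp : p.1 ∈ Bl) (ξ : EE × EE) (h0 : gg f p.1 ξ.1 p.2 = 0)
    (h0' : gg f p.1 (ξ.2 + Gam f p.1 p.2 ξ.1) p.2 = 0) (t : ℝ) :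
    gg f (φ t p).1 (M t p ξ).1 (φ t p).2 = 0 := by
  have hd : ∀ s, HasDerivAt (fun s => gg f (φ s p).1 (M s p ξ).1 (φ s p).2) 0 s := by
    intro s
    have h := hasDerivAt_gg hf (x := fun s => (φ s p).1) (memB hφ hp s) (dx hφ hp s)
      (dJ hf hφ hp ξ s) (dv hφ hp s)
    refine h.congr_deriv ?_
    have e := tang_E hf hφ hp ξ s
    rw [h0'] at e
    simp only [neg_add_cancel, map_zero, add_zero]
    exact e
  have := is_const_of_deriv_eq_zero (f := fun s => gg f (φ s p).1 (M s p ξ).1 (φ s p).2)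
    (fun s => (hd s).differentiableAt) (fun s => (hd s).deriv) t 0
  rw [this]
  simp only [hφ.zero, M_zero hφ hp]
  exact h0

theorem gg_comb (hf : ∀ n : ℕ, ContDiffOn ℝ n f Bl) {q : EE × EE} (hq : q.1 ∈ Bl)
    (c : Fin 3 → ℝ) (i : Fin 3) :
    gg f q.1 (∑ j, c j • frame q j)
      (fderiv ℝ (fun q => frame q i) q (XX f q) + Gam f q.1 q.2 (frame q i)) =
      -(Omat f q *ᵥ c) i := by
  have ha := Omat_antisymm hf hq
  have hb : ∀ j, gg f q.1 (frame q j)
      (fderiv ℝ (fun q => frame q i) q (XX f q) + Gam f q.1 q.2 (frame q i)) = -Omat f q i j := by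
    intro j
    have := congrFun (congrFun ha i) j
    rw [Matrix.transpose_apply, Matrix.neg_apply] at this
    rw [← this, gg_symm]
    rfl
  simp only [map_sum, map_smul, _root_.sum_apply, _root_.smul_apply, smul_eq_mul, hb]
  simp only [Matrix.mulVec, dotProduct, Fin.sum_univ_three]
  ring

theorem gg_curv (hf : ∀ n : ℕ, ContDiffOn ℝ n f Bl) {q : EE × EE} (hq : q.1 ∈ Bl)
    (c : Fin 3 → ℝ) (i : Fin 3) :
    gg f q.1 (-curv (Gam f) q.1 (∑ j, c j • frame q j) q.2 q.2) (frame q i) =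
      (Kmat f q *ᵥ c) i := by
  simp only [Fin.sum_univ_three, curv_add_left hf hq, curv_smul_left hf hq, map_neg, map_add,
    map_smul, _root_.add_apply, _root_.smul_apply,
    _root_.neg_apply, smul_eq_mul, Matrix.mulVec, dotProduct, Kmat]
  ring

theorem gg_frame_sum {q : EE × EE} (hq : q.1 ∈ Bl) (h1 : en f q = 1) (c : Fin 3 → ℝ)
    (i : Fin 3) : gg f q.1 (∑ j, c j • frame q j) (frame q i) = c i := by
  simp only [map_sum, map_smul, _root_.sum_apply, _root_.smul_apply,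
    smul_eq_mul, (frame_orth hq h1 _ _).1, Matrix.one_apply]
  simp

theorem gg_frame_tan {q : EE × EE} (hq : q.1 ∈ Bl) (h1 : en f q = 1) (c : Fin 3 → ℝ) :
    gg f q.1 (∑ j, c j • frame q j) q.2 = 0 := by
  simp only [map_sum, map_smul, _root_.sum_apply, _root_.smul_apply,
    smul_eq_mul, (frame_orth hq h1 _ 0).2]
  simp

theorem gg_frame_nsq {q : EE × EE} (hq : q.1 ∈ Bl) (h1 : en f q = 1) (c : Fin 3 → ℝ) :
    gg f q.1 (∑ j, c j • frame q j) (∑ j, c j • frame q j) = nsq c := by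
  rw [map_sum]
  simp only [map_smul, smul_eq_mul, gg_frame_sum hq h1]
  simp only [Fin.sum_univ_three, nsq]
  ring

theorem xi_cov (p : EE × EE) (y : EE) :
    (xi f p y).2 + Gam f p.1 p.2 (xi f p y).1 = y + gg f p.1 y (frame p 0) • frame p 0 := by
  simp [xi, frame]

theorem xi_tan {p : EE × EE} (hp : p.1 ∈ Bl) (h1 : en f p = 1) (y : EE)
    (hy : gg f p.1 y p.2 = 0) :
    gg f p.1 ((xi f p y).2 + Gam f p.1 p.2 (xi f p y).1) p.2 = 0 := by
  rw [xi_cov]
  simp only [map_add, map_smul, _root_.add_apply, _root_.smul_apply,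
    smul_eq_mul, hy, (frame_orth hp h1 0 0).2]
  simp

theorem xi_sum (p : EE × EE) (u : Fin 3 → ℝ) :
    xi f p (∑ j, u j • frame p j) = ∑ j, u j • xi f p (frame p j) := by
  simp only [Fin.sum_univ_three, xi, map_add, map_smul, _root_.add_apply,
    _root_.smul_apply, smul_eq_mul, Gam_add_right, Gam_smul_right]
  refine Prod.ext ?_ ?_
  · simp
  · simp only [Prod.snd_add, Prod.smul_snd]
    module

end Jac

theorem jacobi_eq {f : EE → ℝ} (hf : ∀ n : ℕ, ContDiffOn ℝ n f Bl) {φ : ℝ → EE × EE → EE × EE}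
    {M : ℝ → EE × EE → (EE × EE) →L[ℝ] (EE × EE)} (hφ : IsFlow OO (XX f) φ M)
    {p : EE × EE} (hp : p.1 ∈ Bl) (h1 : en f p = 1) (ξ : EE × EE)
    (h0 : gg f p.1 ξ.1 p.2 = 0) (h0' : gg f p.1 (ξ.2 + Gam f p.1 p.2 ξ.1) p.2 = 0)
    (y η : ℝ → Fin 3 → ℝ)
    (hy : ∀ t i, y t i = gg f (φ t p).1 (M t p ξ).1 (frame (φ t p) i))
    (hη : ∀ t i, η t i = gg f (φ t p).1 ((M t p ξ).2 + Gam f (φ t p).1 (φ t p).2 (M t p ξ).1)
      (frame (φ t p) i)) (t : ℝ) :
    (∀ i, HasDerivAt (fun s => y s i) ((η t - Omat f (φ t p) *ᵥ y t) i) t) ∧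
    (∀ i, HasDerivAt (fun s => η s i) ((Kmat f (φ t p) *ᵥ y t - Omat f (φ t p) *ᵥ η t) i) t) ∧
    (M t p ξ).1 = ∑ i, y t i • frame (φ t p) i ∧
    (M t p ξ).2 + Gam f (φ t p).1 (φ t p).2 (M t p ξ).1 = ∑ i, η t i • frame (φ t p) i := by
  have hq := memB hφ hp t
  have hq1 : en f (φ t p) = 1 := by rw [en_flow hf hφ, h1]
  have eJ : (M t p ξ).1 = ∑ i, y t i • frame (φ t p) i := by
    have := frame_span hq hq1 (M t p ξ).1
    rw [tang_J hf hφ hp ξ h0 h0' t, zero_smul, zero_add] at this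
    simpa only [hy] using this
  have eE : (M t p ξ).2 + Gam f (φ t p).1 (φ t p).2 (M t p ξ).1 =
      ∑ i, η t i • frame (φ t p) i := by
    have := frame_span hq hq1 ((M t p ξ).2 + Gam f (φ t p).1 (φ t p).2 (M t p ξ).1)
    rw [tang_E hf hφ hp ξ t, h0', zero_smul, zero_add] at this
    simpa only [hη] using this
  refine ⟨fun i => ?_, fun i => ?_, eJ, eE⟩
  · have h := hasDerivAt_gg hf (x := fun s => (φ s p).1) hq (dx hφ hp t)
      (dJ hf hφ hp ξ t) (dframe hφ hp i t)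
    have e : (fun s => y s i) = fun s => gg f (φ s p).1 (M s p ξ).1 (frame (φ s p) i) :=
      funext fun s => hy s i
    rw [e]
    refine h.congr_deriv ?_
    have e2 := gg_comb hf hq (y t) i
    rw [← eJ] at e2
    simp only [Pi.sub_apply]
    rw [e2, hη t i]
    ring
  · have h := hasDerivAt_gg hf (x := fun s => (φ s p).1) hq (dx hφ hp t)
      (dE hf hφ hp ξ t) (dframe hφ hp i t)
    have e : (fun s => η s i) = fun s => gg f (φ s p).1
        ((M s p ξ).2 + Gam f (φ s p).1 (φ s p).2 (M s p ξ).1) (frame (φ s p) i) :=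
      funext fun s => hη s i
    rw [e]
    refine h.congr_deriv ?_
    have e2 := gg_comb hf hq (η t) i
    rw [← eE] at e2
    have e3 := gg_curv hf hq (y t) i
    rw [← eJ] at e3
    simp only [Pi.sub_apply, sub_add_cancel]
    rw [e2, e3]
    ring

theorem jacSys {f : EE → ℝ} (hf : ∀ n : ℕ, ContDiffOn ℝ n f Bl) {φ : ℝ → EE × EE → EE × EE}
    {M : ℝ → EE × EE → (EE × EE) →L[ℝ] (EE × EE)} (hφ : IsFlow OO (XX f) φ M)
    {p : EE × EE} (hp : p.1 ∈ Bl) (h1 : en f p = 1) :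
    JacSys (fun t => Kmat f (φ t p)) (fun t => Omat f (φ t p)) (Ymat f φ M p) (Hmat f φ M p) := by
  have hc : Continuous fun t => φ t p :=
    continuous_iff_continuousAt.2 fun t => (hφ.deriv t p (mem_OO.2 hp)).continuousAt
  have hm : ∀ t, φ t p ∈ OO := fun t => hφ.mem t p (mem_OO.2 hp)
  have key := fun (j : Fin 3) (t : ℝ) => jacobi_eq hf hφ hp h1 (xi f p (frame p j))
    (frame_orth hp h1 j 0).2 (xi_tan hp h1 _ (frame_orth hp h1 j 0).2)
    (fun t i => Ymat f φ M p t i j) (fun t i => Hmat f φ M p t i j) (fun _ _ => rfl)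
    (fun _ _ => rfl) t
  refine ⟨(continuousOn_Kmat hf).comp_continuous hc hm,
    (continuousOn_Omat hf).comp_continuous hc hm,
    fun t => Kmat_symm hf (memB hφ hp t) (by rw [en_flow hf hφ, h1]),
    fun t => Omat_antisymm hf (memB hφ hp t), fun t i j => ?_, fun t i j => ?_, ?_, ?_⟩
  · exact (key j t).1 i
  · exact (key j t).2.1 i
  · ext i j
    simp only [Ymat, hφ.zero, M_zero hφ hp]
    have := (frame_orth hp h1 j i).1
    simp only [xi]
    rw [this, Matrix.one_apply, Matrix.one_apply]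
    simp [eq_comm]
  · ext i j
    simp only [Hmat, hφ.zero, M_zero hφ hp]
    rw [xi_cov]
    simp only [map_add, map_smul, _root_.add_apply, _root_.smul_apply,
      smul_eq_mul, (frame_orth hp h1 _ _).1]
    fin_cases i <;> fin_cases j <;> simp [U0, Matrix.one_apply]
    norm_num

theorem isExponent_of {f : EE → ℝ} (hf : ∀ n : ℕ, ContDiffOn ℝ n f Bl)
    {φ : ℝ → EE × EE → EE × EE}
    {M : ℝ → EE × EE → (EE × EE) →L[ℝ] (EE × EE)} (hφ : IsFlow OO (XX f) φ M)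
    {p : EE × EE} (hp : p.1 ∈ Bl) (h1 : en f p = 1) (u : Fin 3 → ℝ) (hu : u ≠ 0) (χ : ℝ)
    (h : Tendsto (fun t : ℝ => Real.log (Real.sqrt (nsq (Ymat f φ M p t *ᵥ u) +
      nsq (Hmat f φ M p t *ᵥ u))) / t) atTop (𝓝 χ)) : IsExponent (gg f) (Gam f) φ p χ := by
  have ht := gg_frame_tan hp h1 u
  have ht' := xi_tan hp h1 _ ht
  refine ⟨xi f p (∑ j, u j • frame p j), fun h0 => hu ?_, ?_, ?_⟩
  · funext i
    have e : (∑ j, u j • frame p j) = 0 := congrArg Prod.fst h0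
    have := gg_frame_sum hp h1 u i
    rw [e] at this
    simpa using this.symm
  · have e : (fun q : EE × EE => gg f q.1 q.2 q.2) = en f := rfl
    rw [e, fderiv_en hf hp, gg_symm, ht', mul_zero]
  · refine h.congr fun t => ?_
    have hq := memB hφ hp t
    have hq1 : en f (φ t p) = 1 := by rw [en_flow hf hφ, h1]
    obtain ⟨-, -, eJ, eE⟩ := jacobi_eq hf hφ hp h1 (xi f p (∑ j, u j • frame p j)) ht ht'
      (fun t => Ymat f φ M p t *ᵥ u) (fun t => Hmat f φ M p t *ᵥ u)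
      (fun t i => by
        rw [xi_sum]
        simp only [Fin.sum_univ_three, map_add, map_smul, Prod.fst_add, Prod.smul_fst,
          _root_.add_apply, _root_.smul_apply, smul_eq_mul,
          Matrix.mulVec, dotProduct, Ymat]
        ring)
      (fun t i => by
        rw [xi_sum]
        simp only [Fin.sum_univ_three, map_add, map_smul, Prod.fst_add, Prod.smul_fst,
          Prod.snd_add, Prod.smul_snd, Gam_add_right, Gam_smul_right,
          _root_.add_apply, _root_.smul_apply, smul_eq_mul,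
          Matrix.mulVec, dotProduct, Hmat]
        ring) t
    rw [(hφ.fderiv t p (mem_OO.2 hp)).fderiv, sasaki, eE, eJ, gg_frame_nsq hq hq1,
      gg_frame_nsq hq hq1]

theorem continuousOn_Ymat {f : EE → ℝ} (hf : ∀ n : ℕ, ContDiffOn ℝ n f Bl)
    {φ : ℝ → EE × EE → EE × EE}
    {M : ℝ → EE × EE → (EE × EE) →L[ℝ] (EE × EE)} (hφ : IsFlow OO (XX f) φ M) :
    ContinuousOn (fun q : ℝ × (EE × EE) => Ymat f φ M q.2 q.1) (univ ×ˢ OO) := by
  have hg : ContinuousOn (gg f) Bl := (contDiffOn_gg hf 0).continuousOn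
  have hG : ContinuousOn (GamL f) Bl := (contDiffOn_GamL hf 0).continuousOn
  have hF : ∀ j, ContinuousOn (fun q => frame q j) OO := fun j =>
    (contDiffOn_frame j 0).continuousOn
  have h1 : ContinuousOn (fun p : EE × EE => gg f p.1) OO :=
    hg.comp continuous_fst.continuousOn fun p hp => mem_OO.1 hp
  have h2 : ContinuousOn (fun p : EE × EE => GamL f p.1) OO :=
    hG.comp continuous_fst.continuousOn fun p hp => mem_OO.1 hp
  have hI : ContinuousOn (fun p : EE × EE => Complex.I • p.2) OO :=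
    (continuous_snd.const_smul Complex.I).continuousOn
  have hxi : ∀ j, ContinuousOn (fun p : EE × EE => xi f p (frame p j)) OO := by
    intro j
    refine (hF j).prodMk ?_
    exact ((hF j).add (((h1.clm_apply (hF j)).clm_apply hI).smul hI)).sub
      ((h2.clm_apply continuous_snd.continuousOn).clm_apply (hF j))
  have hmaps : MapsTo (fun q : ℝ × (EE × EE) => φ q.1 q.2) (univ ×ˢ OO) OO :=
    fun q hq => hφ.mem q.1 q.2 hq.2
  have hsnd : MapsTo (fun q : ℝ × (EE × EE) => q.2) (univ ×ˢ OO) OO := fun q hq => hq.2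
  refine continuousOn_pi.2 fun i => continuousOn_pi.2 fun j => ?_
  exact (((h1.comp hφ.cont hmaps).clm_apply
    (hφ.Mcont.clm_apply ((hxi j).comp continuous_snd.continuousOn hsnd)).fst).clm_apply
      ((hF i).comp hφ.cont hmaps))

end Pool.Agent.MP_019006_gt
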