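import Pool.Agent.MP_019006_gt.Basic

set_option autoImplicit false

open MeasureTheory Filter Topology Set Matrix

namespace Pool.Agent.MP_019006_gt

namespace Mob

open ComplexConjugate

/-- The Hermitian form of signature (2,1). -/
noncomputable def BB (Z W : Fin 3 → ℂ) : ℂ :=
  Z 0 * conj (W 0) + Z 1 * conj (W 1) - Z 2 * conj (W 2)

theorem BB_eq (Z W : Fin 3 → ℂ) : BB Z W = star W ⬝ᵥ (Jm *ᵥ Z) := by
  simp [BB, Jm, dotProduct, Fin.sum_univ_three, Matrix.mulVec_diagonal]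
  ring

theorem BB_inv {A : C3} (hA : IsU21 A) (Z W : Fin 3 → ℂ) : BB (A *ᵥ Z) (A *ᵥ W) = BB Z W := by
  rw [BB_eq, BB_eq, Matrix.star_mulVec, Matrix.mulVec_mulVec, ← Matrix.dotProduct_mulVec,
    Matrix.mulVec_mulVec, ← Matrix.mul_assoc, hA]

theorem BB_smul_left (c : ℂ) (Z W : Fin 3 → ℂ) : BB (c • Z) W = c * BB Z W := by
  simp only [BB, Pi.smul_apply, smul_eq_mul]; ring

theorem BB_smul_right (c : ℂ) (Z W : Fin 3 → ℂ) : BB Z (c • W) = conj c * BB Z W := by
  simp only [BB, Pi.smul_apply, smul_eq_mul, map_mul]; ring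

theorem BB_sub_left (Z Z' W : Fin 3 → ℂ) : BB (Z - Z') W = BB Z W - BB Z' W := by
  simp only [BB, Pi.sub_apply]; ring

theorem BB_sub_right (Z W W' : Fin 3 → ℂ) : BB Z (W - W') = BB Z W - BB Z W' := by
  simp only [BB, Pi.sub_apply, map_sub]; ring

theorem ip_eq (u w : EE) : ip u w = u 0 * conj (w 0) + u 1 * conj (w 1) := by
  simp [ip, PiLp.inner_apply, Fin.sum_univ_two]

theorem normsq_eq (x : EE) : ‖x‖ ^ 2 = ‖x 0‖ ^ 2 + ‖x 1‖ ^ 2 := by
  rw [EuclideanSpace.norm_sq_eq, Fin.sum_univ_two]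

theorem mul_conj' (z : ℂ) : z * conj z = ((‖z‖ ^ 2 : ℝ) : ℂ) := by
  rw [Complex.mul_conj, Complex.normSq_eq_norm_sq]

theorem BB_self (Z : Fin 3 → ℂ) : BB Z Z = (Qf Z : ℂ) := by
  simp only [BB, Qf, mul_conj']; push_cast; ring

theorem Qf_lift1 (x : EE) : Qf (lift1 x) = -Dd x := by
  simp [Qf, lift1, Dd, normsq_eq]

theorem BB11 (x : EE) : BB (lift1 x) (lift1 x) = -(Dd x : ℂ) := by
  rw [BB_self, Qf_lift1]; push_cast; ring

theorem BB01 (u x : EE) : BB (lift0 u) (lift1 x) = ip u x := by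
  simp [BB, lift0, lift1, ip_eq]

theorem BB10 (x u : EE) : BB (lift1 x) (lift0 u) = ip x u := by
  simp [BB, lift0, lift1, ip_eq]

theorem BB00 (u w : EE) : BB (lift0 u) (lift0 w) = ip u w := by
  simp [BB, lift0, ip_eq]

theorem Qf_inv {A : C3} (hA : IsU21 A) (Z : Fin 3 → ℂ) : Qf (A *ᵥ Z) = Qf Z := by
  have h := BB_inv hA Z Z
  rw [BB_self, BB_self] at h
  exact_mod_cast h

theorem mem_Bl {x : EE} : x ∈ Bl ↔ ‖x‖ < 1 := by simp [Bl]

theorem Dd_pos {x : EE} (hx : x ∈ Bl) : 0 < Dd x := by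
  have h := mem_Bl.1 hx
  have h0 := norm_nonneg x
  unfold Dd; nlinarith

theorem mem_of_Dd_pos {x : EE} (hx : 0 < Dd x) : x ∈ Bl := by
  rw [mem_Bl]
  unfold Dd at hx
  have h0 := norm_nonneg x
  nlinarith

theorem Dd_le_one (x : EE) : Dd x ≤ 1 := by
  unfold Dd; nlinarith [sq_nonneg ‖x‖]

theorem isOpen_Bl : IsOpen Bl := Metric.isOpen_ball

theorem isOpen_OO : IsOpen OO := isOpen_Bl.prod isOpen_univ

theorem lift1_mob {A : C3} {x : EE} (hj : jj A x ≠ 0) :
    lift1 (mob A x) = (jj A x)⁻¹ • (A *ᵥ lift1 x) := by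
  funext i
  fin_cases i
  · simp [lift1, mob, div_eq_inv_mul]
  · simp [lift1, mob, div_eq_inv_mul]
  · change (1 : ℂ) = (jj A x)⁻¹ * jj A x
    rw [inv_mul_cancel₀ hj]

theorem mulVec_lift1 {A : C3} {x : EE} (hj : jj A x ≠ 0) :
    A *ᵥ lift1 x = jj A x • lift1 (mob A x) := by
  rw [lift1_mob hj, smul_smul, mul_inv_cancel₀ hj, one_smul]

theorem lift0_dmob (A : C3) (x u : EE) :
    lift0 (dmob A x u) = (jj A x)⁻¹ • (A *ᵥ lift0 u - cc A u • lift1 (mob A x)) := by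
  funext i
  fin_cases i
  · rfl
  · rfl
  · change (0 : ℂ) = (jj A x)⁻¹ * (cc A u - cc A u * 1)
    ring

theorem lift0_inj {u w : EE} (h : lift0 u = lift0 w) : u = w := by
  ext i
  fin_cases i
  · exact congrFun h 0
  · exact congrFun h 1

theorem lift1_inj {u w : EE} (h : lift1 u = lift1 w) : u = w := by
  ext i
  fin_cases i
  · exact congrFun h 0
  · exact congrFun h 1

theorem cc_eq (A : C3) (u : EE) : cc A u = A 2 0 * u 0 + A 2 1 * u 1 := by
  simp [cc, lift0, Matrix.mulVec, dotProduct, Fin.sum_univ_three]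

theorem jj_eq (A : C3) (x : EE) : jj A x = cc A x + A 2 2 := by
  simp [jj, cc, lift0, lift1, Matrix.mulVec, dotProduct, Fin.sum_univ_three]

/-- The upper left block as a complex linear map. -/
noncomputable def top (A : C3) : EE →L[ℂ] EE :=
  LinearMap.toContinuousLinearMap
    { toFun := fun u => !₂[(A *ᵥ lift0 u) 0, (A *ᵥ lift0 u) 1]
      map_add' := fun u w => by
        ext i
        fin_cases i <;> simp [lift0, Matrix.mulVec, dotProduct, Fin.sum_univ_three] <;> ring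
      map_smul' := fun c u => by
        ext i
        fin_cases i <;> simp [lift0, Matrix.mulVec, dotProduct, Fin.sum_univ_three] <;> ring }

theorem top_apply (A : C3) (u : EE) : top A u = !₂[(A *ᵥ lift0 u) 0, (A *ᵥ lift0 u) 1] := rfl

/-- The lower row as a complex linear form. -/
noncomputable def ccL (A : C3) : EE →L[ℂ] ℂ :=
  LinearMap.toContinuousLinearMap
    { toFun := fun u => cc A u
      map_add' := fun u w => by simp only [cc_eq, PiLp.add_apply]; ring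
      map_smul' := fun c u => by
        simp only [cc_eq, PiLp.smul_apply, smul_eq_mul, RingHom.id_apply]; ring }

theorem ccL_apply (A : C3) (u : EE) : ccL A u = cc A u := rfl

/-- The last column. -/
noncomputable def bb (A : C3) : EE := !₂[A 0 2, A 1 2]

theorem mob_eq (A : C3) (x : EE) : mob A x = (jj A x)⁻¹ • (top A x + bb A) := by
  ext i
  fin_cases i <;>
    simp [mob, top_apply, bb, lift0, lift1, Matrix.mulVec, dotProduct, Fin.sum_univ_three,
      div_eq_inv_mul] <;> ring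

theorem dmob_eq (A : C3) (x u : EE) : dmob A x u = (jj A x)⁻¹ • (top A u - ccL A u • mob A x) :=
  rfl

/-- The complex derivative of the action. -/
noncomputable def dC (A : C3) (x : EE) : EE →L[ℂ] EE :=
  (jj A x)⁻¹ • (top A - (ccL A).smulRight (mob A x))

theorem dC_apply (A : C3) (x u : EE) : dC A x u = dmob A x u := rfl

/-- The second derivative of the action. -/
noncomputable def d2C (A : C3) (x w : EE) : EE →L[ℂ] EE :=
  -((jj A x)⁻¹ • ((ccL A).smulRight (dmob A x w) + cc A w • dC A x))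

theorem d2C_apply (A : C3) (x w u : EE) :
    d2C A x w u = -((jj A x)⁻¹ • (cc A u • dmob A x w + cc A w • dmob A x u)) := rfl

theorem hasFDerivAt_jj (A : C3) (x : EE) : HasFDerivAt (jj A) (ccL A) x := by
  have h : jj A = fun y => ccL A y + A 2 2 := funext fun y => jj_eq A y
  rw [h]
  exact (ccL A).hasFDerivAt.add_const _

theorem hasFDerivAt_jinv {A : C3} {x : EE} (hj : jj A x ≠ 0) :
    HasFDerivAt (fun y => (jj A y)⁻¹) (-((jj A x) ^ 2)⁻¹ • ccL A) x :=
  (hasDerivAt_inv hj).comp_hasFDerivAt x (hasFDerivAt_jj A x)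

theorem hasFDerivAt_mobC {A : C3} {x : EE} (hj : jj A x ≠ 0) :
    HasFDerivAt (mob A) (dC A x) x := by
  have h : mob A = fun y => (jj A y)⁻¹ • (top A y + bb A) := funext fun y => mob_eq A y
  have h1 := (hasFDerivAt_jinv hj).fun_smul ((top A).hasFDerivAt.add_const (bb A))
  rw [← h] at h1
  refine h1.congr_fderiv ?_
  ext1 u
  rw [dC_apply, dmob_eq, mob_eq]
  simp only [_root_.add_apply, _root_.smul_apply,
    ContinuousLinearMap.smulRight_apply, smul_eq_mul]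
  rw [sq, mul_inv]
  module

theorem hasFDerivAt_dmobC {A : C3} {p : EE × EE} (hj : jj A p.1 ≠ 0) :
    HasFDerivAt (fun q : EE × EE => dmob A q.1 q.2)
      ((dC A p.1).comp (ContinuousLinearMap.snd ℂ EE EE) +
        (d2C A p.1 p.2).comp (ContinuousLinearMap.fst ℂ EE EE)) p := by
  have h0 := (hasFDerivAt_jinv hj).comp p (hasFDerivAt_fst (𝕜 := ℂ) (p := p))
  have h1 := (top A).hasFDerivAt.comp p (hasFDerivAt_snd (𝕜 := ℂ) (p := p))
  have h2 := (ccL A).hasFDerivAt.comp p (hasFDerivAt_snd (𝕜 := ℂ) (p := p))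
  have h3 := (hasFDerivAt_mobC hj).comp p (hasFDerivAt_fst (𝕜 := ℂ) (p := p))
  have h4 := h0.smul (h1.sub (h2.smul h3))
  refine HasFDerivAt.congr_fderiv h4 ?_
  refine ContinuousLinearMap.ext fun ξ => ?_
  simp only [_root_.add_apply, _root_.smul_apply,
    ContinuousLinearMap.smulRight_apply, smul_eq_mul, ContinuousLinearMap.comp_apply,
    _root_.sub_apply, ContinuousLinearMap.coe_fst', ContinuousLinearMap.coe_snd',
    Function.comp_apply, Pi.sub_apply, Pi.smul_apply', d2C_apply, dC_apply, dmob_eq, ccL_apply]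
  rw [sq, mul_inv]
  module

theorem hasFDerivAt_dmob1C {A : C3} {x : EE} (hj : jj A x ≠ 0) (w : EE) :
    HasFDerivAt (fun y => dmob A y w) (d2C A x w) x := by
  have h0 := hasFDerivAt_dmobC (A := A) (p := (x, w)) hj
  have h1 : HasFDerivAt (fun y : EE => (y, w)) (ContinuousLinearMap.inl ℂ EE EE) x :=
    hasFDerivAt_prodMk_left x w
  have h2 := h0.comp x h1
  refine HasFDerivAt.congr_fderiv h2 ?_
  refine ContinuousLinearMap.ext fun u => ?_
  simp

theorem fderiv_dmob1 {A : C3} {x : EE} (hj : jj A x ≠ 0) (u w : EE) :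
    fderiv ℝ (fun y => dmob A y w) x u =
      -((jj A x)⁻¹ • (cc A u • dmob A x w + cc A w • dmob A x u)) := by
  rw [((hasFDerivAt_dmob1C hj w).restrictScalars ℝ).fderiv]
  rfl

theorem Jm_mul_Jm : Jm * Jm = 1 := by
  rw [Jm, Matrix.diagonal_mul_diagonal, ← Matrix.diagonal_one]
  congr 1
  funext i
  fin_cases i <;> simp

theorem row_eq {A : C3} (hA : IsU21 A) : A * Jm * Aᴴ = Jm := by
  have h1 : (Jm * Aᴴ * Jm) * A = 1 := by
    have : Jm * Aᴴ * Jm * A = Jm * (Aᴴ * Jm * A) := by simp only [Matrix.mul_assoc]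
    rw [this, hA, Jm_mul_Jm]
  have h2 : A * (Jm * Aᴴ * Jm) = 1 := mul_eq_one_comm.1 h1
  have h3 : A * Jm * Aᴴ = A * (Jm * Aᴴ * Jm) * Jm := by
    simp only [Matrix.mul_assoc, Jm_mul_Jm, Matrix.mul_one]
  rw [h3, h2, Matrix.one_mul]

theorem row_norm {A : C3} (hA : IsU21 A) : ‖A 2 0‖ ^ 2 + ‖A 2 1‖ ^ 2 + 1 = ‖A 2 2‖ ^ 2 := by
  have h := congrFun (congrFun (row_eq hA) 2) 2
  simp only [Jm, Matrix.mul_apply, Matrix.diagonal_apply, Matrix.conjTranspose_apply,
    Fin.sum_univ_three] at h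
  simp at h
  have h' : A 2 0 * conj (A 2 0) + A 2 1 * conj (A 2 1) + 1 = A 2 2 * conj (A 2 2) := by
    linear_combination h
  rw [mul_conj', mul_conj', mul_conj'] at h'
  exact_mod_cast h'

theorem norm_cc_le {A : C3} (hA : IsU21 A) (u : EE) : ‖cc A u‖ ≤ ‖A 2 2‖ * ‖u‖ := by
  have h1 : ‖cc A u‖ ≤ ‖A 2 0‖ * ‖u 0‖ + ‖A 2 1‖ * ‖u 1‖ := by
    rw [cc_eq, ← norm_mul, ← norm_mul]; exact norm_add_le _ _
  have h2 := row_norm hA
  have h3 := normsq_eq u
  refine h1.trans (abs_le_of_sq_le_sq' ?_ ?_).2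
  · rw [mul_pow, h3, ← h2]
    nlinarith [sq_nonneg (‖A 2 0‖ * ‖u 1‖ - ‖A 2 1‖ * ‖u 0‖), sq_nonneg ‖u 0‖, sq_nonneg ‖u 1‖]
  · positivity

theorem normSq_det {A : C3} (hA : IsU21 A) : Complex.normSq A.det = 1 := by
  have h := congrArg Matrix.det hA
  rw [Matrix.det_mul, Matrix.det_mul, Matrix.det_conjTranspose] at h
  have hJ : Jm.det = -1 := by
    rw [Jm, Matrix.det_diagonal, Fin.prod_univ_three]; simp
  rw [hJ] at h
  have h' : A.det * conj A.det = 1 := by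
    have : star A.det = conj A.det := rfl
    rw [this] at h
    linear_combination -h
  rw [Complex.mul_conj] at h'
  exact_mod_cast h'

theorem det_dC {A : C3} {x : EE} (hj : jj A x ≠ 0) :
    LinearMap.det (dC A x : EE →ₗ[ℂ] EE) = A.det / jj A x ^ 3 := by
  rw [← LinearMap.det_toMatrix (EuclideanSpace.basisFun (Fin 2) ℂ).toBasis, Matrix.det_fin_two,
    Matrix.det_fin_three]
  have e : ∀ i k : Fin 2, LinearMap.toMatrix (EuclideanSpace.basisFun (Fin 2) ℂ).toBasis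
      (EuclideanSpace.basisFun (Fin 2) ℂ).toBasis (dC A x : EE →ₗ[ℂ] EE) i k =
      dmob A x (EuclideanSpace.single k 1) i := by
    intro i k
    simp [LinearMap.toMatrix_apply, dC_apply]
  have hjj : jj A x = A 2 0 * x 0 + A 2 1 * x 1 + A 2 2 := by rw [jj_eq, cc_eq]
  simp only [e]
  simp [dmob, mob, cc_eq, lift0, lift1, Matrix.mulVec, dotProduct, Fin.sum_univ_three]
  field_simp
  rw [hjj]
  ring

theorem det_block (D S : EE →L[ℝ] EE) :
    ((D.comp (ContinuousLinearMap.fst ℝ EE EE)).prod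
      (D.comp (ContinuousLinearMap.snd ℝ EE EE) + S.comp (ContinuousLinearMap.fst ℝ EE EE))).det =
      D.det * D.det := by
  classical
  let b := Module.finBasis ℝ EE
  unfold ContinuousLinearMap.det
  rw [← LinearMap.det_toMatrix (b.prod b), ← LinearMap.det_toMatrix b,
    ← Matrix.det_fromBlocks_zero₁₂ _ (LinearMap.toMatrix b b (S : EE →ₗ[ℝ] EE))]
  congr 1
  ext (i | i) (k | k) <;> simp [LinearMap.toMatrix_apply]

end Mob

open Mob

theorem IsU21.mul {A B : C3} (hA : IsU21 A) (hB : IsU21 B) : IsU21 (A * B) := by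
  unfold IsU21 at *
  rw [Matrix.conjTranspose_mul]
  have : Bᴴ * Aᴴ * Jm * (A * B) = Bᴴ * (Aᴴ * Jm * A) * B := by simp only [Matrix.mul_assoc]
  rw [this, hA, hB]

theorem jj_ne {A : C3} (hA : IsU21 A) {x : EE} (hx : x ∈ Bl) : jj A x ≠ 0 := by
  intro h
  have h1 := Qf_inv hA (lift1 x)
  rw [Qf_lift1] at h1
  have h2 := Dd_pos hx
  unfold jj at h
  unfold Qf at h1
  rw [h, norm_zero] at h1
  nlinarith [sq_nonneg ‖(A *ᵥ lift1 x) 0‖, sq_nonneg ‖(A *ᵥ lift1 x) 1‖]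

theorem Dd_mob {A : C3} (hA : IsU21 A) {x : EE} (hx : x ∈ Bl) :
    Dd (mob A x) = Dd x / ‖jj A x‖ ^ 2 := by
  have hj := jj_ne hA hx
  have h1 := BB11 (mob A x)
  rw [lift1_mob hj, BB_smul_left, BB_smul_right, BB_inv hA, BB11, ← mul_assoc, mul_conj',
    norm_inv] at h1
  have h2 : (‖jj A x‖⁻¹ ^ 2 * -Dd x : ℝ) = -Dd (mob A x) := by exact_mod_cast h1
  rw [div_eq_inv_mul, ← inv_pow]
  linarith

theorem mob_mem {A : C3} (hA : IsU21 A) {x : EE} (hx : x ∈ Bl) : mob A x ∈ Bl := by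
  apply mem_of_Dd_pos
  rw [Dd_mob hA hx]
  exact div_pos (Dd_pos hx) (pow_pos (norm_pos_iff.2 (jj_ne hA hx)) 2)

theorem mob_one (x : EE) : mob 1 x = x := by
  ext i
  fin_cases i <;> simp [mob, jj, lift1]

theorem dmob_one (x u : EE) : dmob 1 x u = u := by
  apply lift0_inj
  rw [lift0_dmob]
  have h1 : jj 1 x = 1 := by simp [jj, lift1]
  have h2 : cc 1 u = 0 := by simp [cc, lift0]
  rw [h1, h2]
  simp

theorem Mob.jj_mul {A B : C3} (hB : IsU21 B) {x : EE} (hx : x ∈ Bl) :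
    jj (A * B) x = jj B x * jj A (mob B x) := by
  have hj := jj_ne hB hx
  unfold jj at *
  rw [← Matrix.mulVec_mulVec, mulVec_lift1 hj, Matrix.mulVec_smul]
  simp only [Pi.smul_apply, smul_eq_mul]
  congr 1
  change jj B x = jj B x * 1
  rw [mul_one]

theorem mob_mul {A B : C3} (hB : IsU21 B) {x : EE} (hx : x ∈ Bl) :
    mob (A * B) x = mob A (mob B x) := by
  have hj := jj_ne hB hx
  have h : (A * B) *ᵥ lift1 x = jj B x • (A *ᵥ lift1 (mob B x)) := by
    rw [← Matrix.mulVec_mulVec, mulVec_lift1 hj, Matrix.mulVec_smul]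
  unfold mob at *
  rw [jj_mul hB hx, h]
  simp only [Pi.smul_apply, smul_eq_mul, mul_div_mul_left _ _ hj]
  rfl

theorem dmob_mul {A B : C3} (hA : IsU21 A) (hB : IsU21 B) {x : EE} (hx : x ∈ Bl) (u : EE) :
    dmob (A * B) x u = dmob A (mob B x) (dmob B x u) := by
  have hjB := jj_ne hB hx
  have hjA := jj_ne hA (mob_mem hB hx)
  have h1 : A *ᵥ lift0 (dmob B x u) = (jj B x)⁻¹ •
      ((A * B) *ᵥ lift0 u - (cc B u * jj A (mob B x)) • lift1 (mob A (mob B x))) := by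
    rw [lift0_dmob, Matrix.mulVec_smul, Matrix.mulVec_sub, Matrix.mulVec_smul,
      Matrix.mulVec_mulVec, mulVec_lift1 hjA, smul_smul]
  have h2 : cc A (dmob B x u) = (jj B x)⁻¹ * (cc (A * B) u - cc B u * jj A (mob B x)) := by
    change (A *ᵥ lift0 (dmob B x u)) 2 = _
    rw [h1]
    change (jj B x)⁻¹ * (cc (A * B) u - cc B u * jj A (mob B x) * 1) = _
    rw [mul_one]
  apply lift0_inj
  rw [lift0_dmob, lift0_dmob A, h1, h2, mob_mul hB hx, jj_mul hB hx, mul_inv]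
  module

theorem jj_bounds {A : C3} (hA : IsU21 A) {x : EE} (hx : x ∈ Bl) :
    ‖A 2 2‖ * (1 - ‖x‖) ≤ ‖jj A x‖ ∧ ‖jj A x‖ ≤ 2 * ‖A 2 2‖ := by
  have h1 := norm_cc_le hA x
  have h2 := mem_Bl.1 hx
  have h3 := norm_nonneg (A 2 2)
  constructor
  · have h4 : ‖A 2 2‖ ≤ ‖jj A x‖ + ‖cc A x‖ := by
      have : A 2 2 = jj A x - cc A x := by rw [jj_eq]; ring
      conv_lhs => rw [this]
      exact norm_sub_le _ _
    nlinarith
  · have h4 : ‖jj A x‖ ≤ ‖cc A x‖ + ‖A 2 2‖ := by rw [jj_eq]; exact norm_add_le _ _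
    nlinarith

theorem dmob_add (A : C3) (x u w : EE) : dmob A x (u + w) = dmob A x u + dmob A x w :=
  (dC A x).map_add u w

theorem dmob_smul (A : C3) (x : EE) (c : ℂ) (u : EE) : dmob A x (c • u) = c • dmob A x u :=
  (dC A x).map_smul c u

theorem Mob.contDiff_jj (A : C3) (n : ℕ) : ContDiff ℝ n (jj A) := by
  have h : jj A = fun y => (ccL A).restrictScalars ℝ y + A 2 2 := funext fun y => jj_eq A y
  rw [h]
  exact ((ccL A).restrictScalars ℝ).contDiff.add contDiff_const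

theorem contDiffOn_mob {A : C3} (hA : IsU21 A) (n : ℕ) : ContDiffOn ℝ n (mob A) Bl := by
  have h : mob A = fun y => (jj A y)⁻¹ • ((top A).restrictScalars ℝ y + bb A) :=
    funext fun y => mob_eq A y
  rw [h]
  exact ((contDiff_jj A n).contDiffOn.inv fun x hx => jj_ne hA hx).smul
    (((top A).restrictScalars ℝ).contDiff.add contDiff_const).contDiffOn

theorem contDiffOn_mobT {A : C3} (hA : IsU21 A) (n : ℕ) : ContDiffOn ℝ n (mobT A) OO := by
  have hm : ContDiffOn ℝ n (fun p : EE × EE => mob A p.1) OO :=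
    (contDiffOn_mob hA n).comp contDiffOn_fst fun p hp => hp.1
  have hj : ContDiffOn ℝ n (fun p : EE × EE => (jj A p.1)⁻¹) OO :=
    ((contDiff_jj A n).comp contDiff_fst).contDiffOn.inv fun p hp => jj_ne hA hp.1
  have ht : ContDiffOn ℝ n (fun p : EE × EE => top A p.2) OO :=
    (((top A).restrictScalars ℝ).contDiff.comp contDiff_snd).contDiffOn
  have hc : ContDiffOn ℝ n (fun p : EE × EE => ccL A p.2) OO :=
    (((ccL A).restrictScalars ℝ).contDiff.comp contDiff_snd).contDiffOn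
  have hd : ContDiffOn ℝ n (fun p : EE × EE => dmob A p.1 p.2) OO :=
    hj.smul (ht.sub (hc.smul hm))
  refine (hm.prodMk hd).congr fun p hp => ?_
  unfold mobT
  rw [if_pos hp.1]

theorem Mob.fderiv_mob_eq {A : C3} (hA : IsU21 A) {x : EE} (hx : x ∈ Bl) :
    fderiv ℝ (mob A) x = (dC A x).restrictScalars ℝ :=
  ((hasFDerivAt_mobC (jj_ne hA hx)).restrictScalars ℝ).fderiv

theorem fderiv_mob {A : C3} (hA : IsU21 A) {x : EE} (hx : x ∈ Bl) (u : EE) :
    fderiv ℝ (mob A) x u = dmob A x u := by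
  rw [fderiv_mob_eq hA hx]
  rfl

theorem Mob.lift0_dmob' {A : C3} {x : EE} (hj : jj A x ≠ 0) (u : EE) :
    lift0 (dmob A x u) = (jj A x)⁻¹ • (A *ᵥ (lift0 u - (cc A u * (jj A x)⁻¹) • lift1 x)) := by
  rw [lift0_dmob, lift1_mob hj, Matrix.mulVec_sub, Matrix.mulVec_smul, smul_smul]

theorem Mob.Dd_mobC {A : C3} (hA : IsU21 A) {x : EE} (hx : x ∈ Bl) :
    (Dd (mob A x) : ℂ) = (jj A x)⁻¹ * (starRingEnd ℂ) (jj A x)⁻¹ * (Dd x : ℂ) := by
  rw [Dd_mob hA hx, mul_conj', norm_inv]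
  push_cast
  rw [div_eq_inv_mul, inv_pow]

theorem Mob.conj_Dd (x : EE) : (starRingEnd ℂ) (Dd x : ℂ) = Dd x := Complex.conj_ofReal _

theorem hh_mob {A : C3} (hA : IsU21 A) {x : EE} (hx : x ∈ Bl) (u w : EE) :
    hh (mob A x) (dmob A x u) (dmob A x w) = hh x u w := by
  have hj := jj_ne hA hx
  have hD : (Dd x : ℂ) ≠ 0 := by exact_mod_cast (Dd_pos hx).ne'
  unfold hh
  rw [← BB00 (dmob A x u), ← BB01 (dmob A x u), ← BB10 (mob A x), Dd_mobC hA hx,
    lift0_dmob' hj, lift0_dmob' hj, lift1_mob hj]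
  simp only [BB_smul_left, BB_smul_right, BB_inv hA, BB_sub_left, BB_sub_right, BB00, BB01, BB10,
    BB11]
  have hi : (jj A x)⁻¹ ≠ 0 := inv_ne_zero hj
  have hc : (starRingEnd ℂ) (jj A x)⁻¹ ≠ 0 := (map_ne_zero _).2 hi
  generalize (starRingEnd ℂ) (cc A w * (jj A x)⁻¹) = s
  generalize (starRingEnd ℂ) (jj A x)⁻¹ = k' at *
  generalize (jj A x)⁻¹ = k at *
  field_simp
  ring

theorem Mob.al_mob {A : C3} (hA : IsU21 A) {x : EE} (hx : x ∈ Bl) (u : EE) :
    al (mob A x) (dmob A x u) = al x u + cc A u * (jj A x)⁻¹ := by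
  have hj := jj_ne hA hx
  have hD : (Dd x : ℂ) ≠ 0 := by exact_mod_cast (Dd_pos hx).ne'
  unfold al
  rw [← BB01 (dmob A x u), Dd_mobC hA hx, lift0_dmob' hj, lift1_mob hj]
  simp only [BB_smul_left, BB_smul_right, BB_inv hA, BB_sub_left, BB01, BB11]
  have hi : (jj A x)⁻¹ ≠ 0 := inv_ne_zero hj
  have hc : (starRingEnd ℂ) (jj A x)⁻¹ ≠ 0 := (map_ne_zero _).2 hi
  generalize (starRingEnd ℂ) (jj A x)⁻¹ = k' at *
  generalize (jj A x)⁻¹ = k at *
  field_simp
  ring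

theorem fderiv_dmob {A : C3} (hA : IsU21 A) {x : EE} (hx : x ∈ Bl) (u w : EE) :
    fderiv ℝ (fun y => dmob A y w) x u + Gam0 (mob A x) (dmob A x u) (dmob A x w) =
      dmob A x (Gam0 x u w) := by
  rw [fderiv_dmob1 (jj_ne hA hx), Gam0, Gam0, al_mob hA hx, al_mob hA hx, dmob_add, dmob_smul,
    dmob_smul]
  module

theorem Mob.hasFDerivAt_mobT {A : C3} (hA : IsU21 A) {p : EE × EE} (hp : p.1 ∈ Bl) :
    HasFDerivAt (mobT A)
      ((((dC A p.1).restrictScalars ℝ).comp (ContinuousLinearMap.fst ℝ EE EE)).prod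
        (((dC A p.1).restrictScalars ℝ).comp (ContinuousLinearMap.snd ℝ EE EE) +
          ((d2C A p.1 p.2).restrictScalars ℝ).comp (ContinuousLinearMap.fst ℝ EE EE))) p := by
  have hj := jj_ne hA hp
  have h1 := ((hasFDerivAt_mobC hj).restrictScalars ℝ).comp p (hasFDerivAt_fst (𝕜 := ℝ) (p := p))
  have h2 := (hasFDerivAt_dmobC hj).restrictScalars ℝ
  have h3 := h1.prodMk h2
  have h4 : mobT A =ᶠ[𝓝 p] fun q => (mob A q.1, dmob A q.1 q.2) := by
    filter_upwards [isOpen_OO.mem_nhds (show p ∈ OO from ⟨hp, mem_univ _⟩)] with q hq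
    unfold mobT
    rw [if_pos hq.1]
  exact h3.congr_of_eventuallyEq h4

theorem fderiv_mobT {A : C3} (hA : IsU21 A) {p : EE × EE} (hp : p.1 ∈ Bl) (ξ : EE × EE) :
    fderiv ℝ (mobT A) p ξ =
      (dmob A p.1 ξ.1, dmob A p.1 ξ.2 + fderiv ℝ (fun y => dmob A y p.2) p.1 ξ.1) := by
  rw [(hasFDerivAt_mobT hA hp).fderiv, fderiv_dmob1 (jj_ne hA hp)]
  rfl

theorem Mob.det_real {A : C3} (hA : IsU21 A) {x : EE} (hx : x ∈ Bl) :
    ((dC A x).restrictScalars ℝ).det = (Dd (mob A x) / Dd x) ^ 3 := by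
  have hj := jj_ne hA hx
  have h1 : ((dC A x).restrictScalars ℝ).det =
      LinearMap.det ((dC A x : EE →ₗ[ℂ] EE).restrictScalars ℝ) := rfl
  rw [h1, LinearMap.det_restrictScalars, Algebra.norm_complex_apply, det_dC hj, map_div₀, map_pow,
    normSq_det hA, Dd_mob hA hx, Complex.normSq_eq_norm_sq]
  have h2 := (Dd_pos hx).ne'
  have h3 : ‖jj A x‖ ≠ 0 := norm_ne_zero_iff.2 hj
  field_simp

theorem det_mob {A : C3} (hA : IsU21 A) {x : EE} (hx : x ∈ Bl) :
    |(fderiv ℝ (mob A) x).det| = (Dd (mob A x) / Dd x) ^ 3 := by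
  rw [fderiv_mob_eq hA hx, det_real hA hx]
  exact abs_of_pos (pow_pos (div_pos (Dd_pos (mob_mem hA hx)) (Dd_pos hx)) 3)

theorem det_mobT {A : C3} (hA : IsU21 A) {p : EE × EE} (hp : p.1 ∈ Bl) :
    |(fderiv ℝ (mobT A) p).det| = (Dd (mob A p.1) / Dd p.1) ^ 6 := by
  rw [(hasFDerivAt_mobT hA hp).fderiv, det_block, det_real hA hp, ← pow_add]
  exact abs_of_pos (pow_pos (div_pos (Dd_pos (mob_mem hA hp)) (Dd_pos hp)) 6)

theorem measurable_mobT {A : C3} (hA : IsU21 A) : Measurable (mobT A) := by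
  classical
  have h : mobT A = OO.piecewise (mobT A) id := by
    funext p
    by_cases hp : p ∈ OO
    · rw [piecewise_eq_of_mem _ _ _ hp]
    · rw [piecewise_eq_of_notMem _ _ _ hp]
      unfold mobT
      rw [if_neg fun h => hp ⟨h, mem_univ _⟩]
      rfl
  rw [h]
  exact ContinuousOn.measurable_piecewise (contDiffOn_mobT hA 0).continuousOn
    continuous_id.continuousOn isOpen_OO.measurableSet

end Pool.Agent.MP_019006_gt
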