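import Pool.Agent.MP_019006_gt.Metric
import Pool.Agent.MP_019006_gt.Mobius
import Pool.Agent.MP_019006_gt.Curv
import Pool.Agent.MP_019006_gt.Jacobi
import Pool.Agent.MP_019006_gt.FlowMeasure

set_option autoImplicit false

open MeasureTheory Filter Topology Set Matrix

namespace Pool.Agent.MP_019006_gt

namespace Inv

theorem dmob_rsmul (A : C3) (x : EE) (c : ℝ) (u : EE) : dmob A x (c • u) = c • dmob A x u := by
  rw [rsmul_eq, rsmul_eq, dmob_smul]

theorem dmob_sub (A : C3) (x u w : EE) : dmob A x (u - w) = dmob A x u - dmob A x w :=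
  (Mob.dC A x).map_sub u w

theorem dmob_neg (A : C3) (x u : EE) : dmob A x (-u) = -dmob A x u :=
  (Mob.dC A x).map_neg u

theorem g0_mob {A : C3} (hA : IsU21 A) {x : EE} (hx : x ∈ Bl) (u w : EE) :
    g0 (mob A x) (dmob A x u) (dmob A x w) = g0 x u w := by
  rw [g0, g0, hh_mob hA hx]

theorem gg_mob {A : C3} (hA : IsU21 A) {f : EE → ℝ} (hfA : ∀ x ∈ Bl, f (mob A x) = f x)
    {x : EE} (hx : x ∈ Bl) (u w : EE) :
    gg f (mob A x) (dmob A x u) (dmob A x w) = gg f x u w := by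
  rw [gg_apply, gg_apply, hfA x hx, g0_mob hA hx]

theorem eq_zero_of_g0 {x : EE} (hx : x ∈ Bl) {u : EE} (h : g0 x u u = 0) : u = 0 := by
  have h1 := (g0_bounds hx u).1
  rw [h] at h1
  have h2 : ‖u‖ ^ 2 = 0 := le_antisymm h1 (sq_nonneg _)
  exact norm_eq_zero.1 (pow_eq_zero_iff two_ne_zero |>.1 h2)

theorem dmob_surj {A : C3} (hA : IsU21 A) {x : EE} (hx : x ∈ Bl) (z : EE) :
    ∃ y, dmob A x y = z := by
  have hinj : Function.Injective (Mob.dC A x : EE →ₗ[ℂ] EE) := by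
    rw [injective_iff_map_eq_zero]
    intro u hu
    have hu' : dmob A x u = 0 := hu
    apply eq_zero_of_g0 hx
    rw [← g0_mob hA hx, hu']
    simp [g0, hh, ip]
  exact LinearMap.injective_iff_surjective.1 hinj z

theorem diffAt {f : EE → ℝ} (hf : ∀ n : ℕ, ContDiffOn ℝ n f Bl) {x : EE} (hx : x ∈ Bl) :
    DifferentiableAt ℝ f x :=
  ((hf 1).contDiffAt (isOpen_Bl.mem_nhds hx)).differentiableAt (by simp)

theorem diffAt2 {f : EE → ℝ} (hf : ∀ n : ℕ, ContDiffOn ℝ n f Bl) {x : EE} (hx : x ∈ Bl) :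
    DifferentiableAt ℝ (fderiv ℝ f) x :=
  (((hf 2).contDiffAt (isOpen_Bl.mem_nhds hx)).fderiv_right (m := 1)
    (by norm_num)).differentiableAt (by simp)

theorem hasFDerivAt_mob {A : C3} (hA : IsU21 A) {x : EE} (hx : x ∈ Bl) :
    HasFDerivAt (mob A) ((Mob.dC A x).restrictScalars ℝ) x :=
  (Mob.hasFDerivAt_mobC (jj_ne hA hx)).restrictScalars ℝ

theorem mobT_of_mem (A : C3) {p : EE × EE} (hp : p.1 ∈ Bl) :
    mobT A p = (mob A p.1, dmob A p.1 p.2) := by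
  unfold mobT
  rw [if_pos hp]

theorem mobT_of_not_mem (A : C3) {p : EE × EE} (hp : p.1 ∉ Bl) : mobT A p = p := by
  unfold mobT
  rw [if_neg hp]

theorem mobT_mem {A : C3} (hA : IsU21 A) {p : EE × EE} (hp : p.1 ∈ Bl) : (mobT A p).1 ∈ Bl := by
  rw [mobT_of_mem A hp]
  exact mob_mem hA hp

theorem mobT_mul {A B : C3} (hA : IsU21 A) (hB : IsU21 B) {p : EE × EE} (hp : p.1 ∈ Bl) :
    mobT (A * B) p = mobT A (mobT B p) := by
  rw [mobT_of_mem A (mobT_mem hB hp), mobT_of_mem B hp, mobT_of_mem _ hp, mob_mul hB hp,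
    dmob_mul hA hB hp]

theorem mobT_one (p : EE × EE) : mobT 1 p = p := by
  by_cases hp : p.1 ∈ Bl
  · rw [mobT_of_mem _ hp, mob_one, dmob_one]
  · exact mobT_of_not_mem _ hp

theorem hasFDerivAt_mobT {A : C3} (hA : IsU21 A) {p : EE × EE} (hp : p.1 ∈ Bl) :
    HasFDerivAt (mobT A) (fderiv ℝ (mobT A) p) p :=
  (Mob.hasFDerivAt_mobT hA hp).differentiableAt.hasFDerivAt

end Inv

open Inv

theorem fderiv_f_mob {A : C3} (hA : IsU21 A) {f : EE → ℝ} (hf : ∀ n : ℕ, ContDiffOn ℝ n f Bl)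
    (hfA : ∀ x ∈ Bl, f (mob A x) = f x) {x : EE} (hx : x ∈ Bl) (u : EE) :
    fderiv ℝ f (mob A x) (dmob A x u) = fderiv ℝ f x u := by
  have h1 := (diffAt hf (mob_mem hA hx)).hasFDerivAt.comp x (hasFDerivAt_mob hA hx)
  have h2 : f =ᶠ[𝓝 x] f ∘ mob A := by
    filter_upwards [isOpen_Bl.mem_nhds hx] with y hy
    exact (hfA y hy).symm
  rw [(h1.congr_of_eventuallyEq h2).fderiv]
  rfl

theorem Inv.NN_mob {A : C3} (hA : IsU21 A) {f : EE → ℝ} (hf : ∀ n : ℕ, ContDiffOn ℝ n f Bl)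
    (hfA : ∀ x ∈ Bl, f (mob A x) = f x) {x : EE} (hx : x ∈ Bl) :
    NN f (mob A x) = dmob A x (NN f x) := by
  have hx' := mob_mem hA hx
  obtain ⟨y, hy⟩ := dmob_surj hA hx (NN f (mob A x) - dmob A x (NN f x))
  have h1 : g0 (mob A x) (NN f (mob A x)) (dmob A x y) =
      g0 (mob A x) (dmob A x (NN f x)) (dmob A x y) := by
    rw [g0_NN f hx', g0_mob hA hx, g0_NN f hx, fderiv_f_mob hA hf hfA hx]
  have h2 : NN f (mob A x) = dmob A x y + dmob A x (NN f x) := by rw [hy]; abel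
  have h3 : g0 (mob A x) (dmob A x y) (dmob A x y) = 0 := by
    rw [h2, g0_add_left] at h1
    linarith
  rw [h2, eq_zero_of_g0 hx' h3, zero_add]

theorem Inv.Hess_mob {A : C3} (hA : IsU21 A) {f : EE → ℝ} (hf : ∀ n : ℕ, ContDiffOn ℝ n f Bl)
    (hfA : ∀ x ∈ Bl, f (mob A x) = f x) {x : EE} (hx : x ∈ Bl) (u w : EE) :
    Hess f (mob A x) (dmob A x u) (dmob A x w) = Hess f x u w := by
  have hx' := mob_mem hA hx
  have h1 := (diffAt2 hf hx').hasFDerivAt.comp x (hasFDerivAt_mob hA hx)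
  have h2 : HasFDerivAt (fun y => dmob A y w) (fderiv ℝ (fun y => dmob A y w) x) x :=
    ((Mob.hasFDerivAt_dmob1C (jj_ne hA hx) w).restrictScalars ℝ).differentiableAt.hasFDerivAt
  have h3 := h1.clm_apply h2
  have h4 : (fun y => fderiv ℝ f y w) =ᶠ[𝓝 x]
      fun y => (fderiv ℝ f ∘ mob A) y (dmob A y w) := by
    filter_upwards [isOpen_Bl.mem_nhds hx] with y hy
    exact (fderiv_f_mob hA hf hfA hy w).symm
  have h5 : fderiv ℝ (fun y => fderiv ℝ f y w) x u =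
      fderiv ℝ f (mob A x) (fderiv ℝ (fun y => dmob A y w) x u) +
        fderiv ℝ (fderiv ℝ f) (mob A x) (dmob A x u) (dmob A x w) := by
    rw [(h3.congr_of_eventuallyEq h4).fderiv]
    rfl
  have h6 : fderiv ℝ (fun y => fderiv ℝ f y (dmob A x w)) (mob A x) (dmob A x u) =
      fderiv ℝ (fderiv ℝ f) (mob A x) (dmob A x u) (dmob A x w) := by
    rw [((diffAt2 hf hx').hasFDerivAt.clm_apply (hasFDerivAt_const (dmob A x w) _)).fderiv]
    simp
  unfold Hess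
  rw [h5, h6, ← fderiv_f_mob hA hf hfA hx (Gam0 x u w), ← fderiv_dmob hA hx, map_add]
  ring

theorem TT_mob {A : C3} (hA : IsU21 A) {f : EE → ℝ} (hf : ∀ n : ℕ, ContDiffOn ℝ n f Bl)
    (hfA : ∀ x ∈ Bl, f (mob A x) = f x) {x : EE} (hx : x ∈ Bl) (u w : EE) :
    TT f (mob A x) (dmob A x u) (dmob A x w) = TT f x u w := by
  unfold TT
  rw [Hess_mob hA hf hfA hx, NN_mob hA hf hfA hx, g0_mob hA hx]
  simp only [fderiv_f_mob hA hf hfA hx]

theorem Gam_mob {A : C3} (hA : IsU21 A) {f : EE → ℝ} (hf : ∀ n : ℕ, ContDiffOn ℝ n f Bl)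
    (hfA : ∀ x ∈ Bl, f (mob A x) = f x) {x : EE} (hx : x ∈ Bl) (u w : EE) :
    fderiv ℝ (fun y => dmob A y w) x u + Gam f (mob A x) (dmob A x u) (dmob A x w) =
      dmob A x (Gam f x u w) := by
  unfold Gam
  rw [NN_mob hA hf hfA hx, g0_mob hA hx, dmob_sub, dmob_add, dmob_add, dmob_rsmul, dmob_rsmul,
    dmob_rsmul, ← fderiv_dmob hA hx]
  simp only [fderiv_f_mob hA hf hfA hx]
  abel

theorem en_mobT {A : C3} (hA : IsU21 A) {f : EE → ℝ} (hfA : ∀ x ∈ Bl, f (mob A x) = f x)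
    (p : EE × EE) : en f (mobT A p) = en f p := by
  by_cases hp : p.1 ∈ Bl
  · rw [mobT_of_mem A hp]
    exact gg_mob hA hfA hp _ _
  · rw [mobT_of_not_mem A hp]

theorem nrm_mobT {A : C3} (hA : IsU21 A) {f : EE → ℝ} (hfA : ∀ x ∈ Bl, f (mob A x) = f x)
    {p : EE × EE} (hp : p.1 ∈ Bl) : nrm f (mobT A p) = mobT A (nrm f p) := by
  have hp' : (nrm f p).1 ∈ Bl := hp
  rw [mobT_of_mem A hp']
  unfold nrm
  rw [en_mobT hA hfA, mobT_of_mem A hp, dmob_rsmul]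

theorem Inv.fderiv_mobT_XX {A : C3} (hA : IsU21 A) {f : EE → ℝ}
    (hf : ∀ n : ℕ, ContDiffOn ℝ n f Bl) (hfA : ∀ x ∈ Bl, f (mob A x) = f x) {q : EE × EE}
    (hq : q.1 ∈ Bl) : fderiv ℝ (mobT A) q (XX f q) = XX f (mobT A q) := by
  rw [fderiv_mobT hA hq, mobT_of_mem A hq]
  unfold XX
  simp only [dmob_neg, ← Gam_mob hA hf hfA hq]
  congr 1
  abel

theorem flow_mobT {A : C3} (hA : IsU21 A) {f : EE → ℝ} (hf : ∀ n : ℕ, ContDiffOn ℝ n f Bl)
    (hfA : ∀ x ∈ Bl, f (mob A x) = f x) {φ : ℝ → EE × EE → EE × EE}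
    {M : ℝ → EE × EE → (EE × EE) →L[ℝ] (EE × EE)} (hφ : IsFlow OO (XX f) φ M) (t : ℝ)
    (p : EE × EE) : φ t (mobT A p) = mobT A (φ t p) := by
  by_cases hp : p.1 ∈ Bl
  · have hpO : p ∈ OO := mem_OO.2 hp
    have h0 : (0 : ℝ) ∈ Ioo (-(|t| + 1)) (|t| + 1) := by
      constructor <;> linarith [abs_nonneg t]
    have ht : t ∈ Ioo (-(|t| + 1)) (|t| + 1) := by
      constructor <;> linarith [le_abs_self t, neg_abs_le t]
    have h := hφ.uniq (fun s => mobT A (φ s p)) _ _ 0 h0 (fun s _ => by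
      have hq : (φ s p).1 ∈ Bl := mem_OO.1 (hφ.mem s p hpO)
      refine ⟨mem_OO.2 (mobT_mem hA hq), ?_⟩
      rw [← fderiv_mobT_XX hA hf hfA hq]
      exact (hasFDerivAt_mobT hA hq).comp_hasDerivAt s (hφ.deriv s p hpO)) t ht
    simp only [sub_zero, hφ.zero] at h
    exact h.symm
  · have hpO : p ∉ OO := fun h => hp (mem_OO.1 h)
    rw [mobT_of_not_mem A hp, hφ.junk t p hpO, mobT_of_not_mem A hp]

/-- The change of frame matrix. -/
noncomputable def Inv.rot (A : C3) (f : EE → ℝ) (p : EE × EE) : M3 :=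
  fun k j => gg f (mob A p.1) (frame (mobT A p) j) (dmob A p.1 (frame p k))

theorem Inv.frame_mobT {A : C3} (hA : IsU21 A) {f : EE → ℝ}
    (hfA : ∀ x ∈ Bl, f (mob A x) = f x) {p : EE × EE} (hp : p.1 ∈ Bl) (h1 : en f p = 1)
    (j : Fin 3) : frame (mobT A p) j = dmob A p.1 (rot A f p 0 j • frame p 0 +
      rot A f p 1 j • frame p 1 + rot A f p 2 j • frame p 2) := by
  obtain ⟨y, hy⟩ := dmob_surj hA hp (frame (mobT A p) j)
  have h1' : en f (mobT A p) = 1 := by rw [en_mobT hA hfA, h1]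
  have h2 := (frame_orth (mobT_mem hA hp) h1' j j).2
  have h3 : gg f p.1 y p.2 = 0 := by
    rw [← gg_mob hA hfA hp, hy, ← h2, mobT_of_mem A hp]
  have h4 : ∀ k, gg f p.1 y (frame p k) = rot A f p k j := fun k => by
    rw [← gg_mob hA hfA hp, hy]; rfl
  have h5 := frame_span hp h1 y
  rw [h3, zero_smul, zero_add, Fin.sum_univ_three, h4, h4, h4] at h5
  rw [← h5, hy]

theorem Inv.rot_orth {A : C3} (hA : IsU21 A) {f : EE → ℝ}
    (hfA : ∀ x ∈ Bl, f (mob A x) = f x) {p : EE × EE} (hp : p.1 ∈ Bl) (h1 : en f p = 1) :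
    (rot A f p)ᵀ * rot A f p = 1 := by
  ext i j
  have h1' : en f (mobT A p) = 1 := by rw [en_mobT hA hfA, h1]
  have h2 := (frame_orth (mobT_mem hA hp) h1' i j).1
  rw [← h2, frame_mobT hA hfA hp h1 j, dmob_add, dmob_add, dmob_rsmul, dmob_rsmul, dmob_rsmul]
  simp only [map_add, map_smul, smul_eq_mul, Matrix.mul_apply, Matrix.transpose_apply,
    Fin.sum_univ_three]
  have e : (mobT A p).1 = mob A p.1 := by rw [mobT_of_mem A hp]
  rw [e]
  have h4 : ∀ k, gg f (mob A p.1) (frame (mobT A p) i) (dmob A p.1 (frame p k)) = rot A f p k i :=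
    fun k => rfl
  rw [h4, h4, h4]
  ring

theorem Inv.TT_expand {f : EE → ℝ} (hf : ∀ n : ℕ, ContDiffOn ℝ n f Bl) {x : EE} (hx : x ∈ Bl)
    (a b c : ℝ) (u v w : EE) : TT f x (a • u + b • v + c • w) (a • u + b • v + c • w) =
      a * a * TT f x u u + b * b * TT f x v v + c * c * TT f x w w + 2 * (a * b) * TT f x u v +
        2 * (a * c) * TT f x u w + 2 * (b * c) * TT f x v w := by
  have h : ∀ z, TT f x z (a • u + b • v + c • w) =
      a * TT f x u z + b * TT f x v z + c * TT f x w z := fun z => by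
    rw [TT_symm hf hx, TT_add_left, TT_add_left, TT_smul_left, TT_smul_left, TT_smul_left]
  rw [TT_add_left, TT_add_left, TT_smul_left, TT_smul_left, TT_smul_left, h, h, h,
    TT_symm hf hx v u, TT_symm hf hx w u, TT_symm hf hx w v]
  ring

theorem d1_dw_mobT {A : C3} (hA : IsU21 A) {f : EE → ℝ} (hf : ∀ n : ℕ, ContDiffOn ℝ n f Bl)
    (hfA : ∀ x ∈ Bl, f (mob A x) = f x) {p : EE × EE} (hp : p.1 ∈ Bl) (h1 : en f p = 1) :
    d1 f (mobT A p) = d1 f p ∧ dw f (mobT A p) = dw f p := by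
  have h1' : en f (mobT A p) = 1 := by rw [en_mobT hA hfA, h1]
  have hp' := mobT_mem hA hp
  have e1 : (mobT A p).1 = mob A p.1 := by rw [mobT_of_mem A hp]
  have e2 : (mobT A p).2 = dmob A p.1 p.2 := by rw [mobT_of_mem A hp]
  have e0 : frame (mobT A p) 0 = dmob A p.1 (frame p 0) := by
    change Complex.I • (mobT A p).2 = dmob A p.1 (Complex.I • p.2)
    rw [e2, dmob_smul]
  have h0 : TT f (mob A p.1) (frame (mobT A p) 0) (frame (mobT A p) 0) =
      TT f p.1 (frame p 0) (frame p 0) := by rw [e0, TT_mob hA hf hfA hp]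
  have hr : rot A f p * (rot A f p)ᵀ = 1 := mul_eq_one_comm.1 (rot_orth hA hfA hp h1)
  have hs : ∀ k l, rot A f p k 0 * rot A f p l 0 + rot A f p k 1 * rot A f p l 1 +
      rot A f p k 2 * rot A f p l 2 = (1 : M3) k l := fun k l => by
    rw [← hr]
    simp only [Matrix.mul_apply, Matrix.transpose_apply, Fin.sum_univ_three]
  have ht : ∀ j, TT f (mob A p.1) (frame (mobT A p) j) (frame (mobT A p) j) = _ := fun j => by
    rw [frame_mobT hA hfA hp h1 j, TT_mob hA hf hfA hp, TT_expand hf hp]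
  have t0 := ht 0
  have t1 := ht 1
  have t2 := ht 2
  have s00 := hs 0 0
  have s11 := hs 1 1
  have s22 := hs 2 2
  have s01 := hs 0 1
  have s02 := hs 0 2
  have s12 := hs 1 2
  rw [Matrix.one_apply_eq] at s00 s11 s22
  rw [Matrix.one_apply_ne (by decide)] at s01 s02 s12
  unfold d1 dw
  simp only [Kmat_eq hf hp' h1', Kmat_eq hf hp h1, e1, e2, hfA _ hp, TT_mob hA hf hfA hp]
  refine ⟨by rw [h0], ?_⟩
  linear_combination t0 + t1 + t2 - h0 + TT f p.1 (frame p 0) (frame p 0) * s00 +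
    TT f p.1 (frame p 1) (frame p 1) * s11 + TT f p.1 (frame p 2) (frame p 2) * s22 +
    2 * TT f p.1 (frame p 0) (frame p 1) * s01 + 2 * TT f p.1 (frame p 0) (frame p 2) * s02 +
    2 * TT f p.1 (frame p 1) (frame p 2) * s12

theorem Inv.xi_add (f : EE → ℝ) (p : EE × EE) (y z : EE) :
    xi f p (y + z) = xi f p y + xi f p z := by
  unfold xi
  rw [Gam_add_right, map_add, Prod.mk_add_mk]
  congr 1
  rw [_root_.add_apply, add_smul]
  abel

theorem Inv.xi_smul (f : EE → ℝ) (p : EE × EE) (c : ℝ) (y : EE) :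
    xi f p (c • y) = c • xi f p y := by
  unfold xi
  rw [Gam_smul_right, (gg f p.1).map_smul c y, Prod.smul_mk]
  congr 1
  rw [_root_.smul_apply, smul_eq_mul, mul_smul, smul_sub, smul_add]

theorem Inv.fderiv_mobT_xi {A : C3} (hA : IsU21 A) {f : EE → ℝ}
    (hf : ∀ n : ℕ, ContDiffOn ℝ n f Bl) (hfA : ∀ x ∈ Bl, f (mob A x) = f x) {p : EE × EE}
    (hp : p.1 ∈ Bl) (y : EE) :
    fderiv ℝ (mobT A) p (xi f p y) = xi f (mobT A p) (dmob A p.1 y) := by
  rw [fderiv_mobT hA hp, mobT_of_mem A hp]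
  unfold xi
  simp only
  congr 1
  rw [dmob_sub, dmob_add, dmob_rsmul, ← dmob_smul, gg_mob hA hfA hp, Gam_symm f p.1 p.2 y,
    ← Gam_mob hA hf hfA hp, Gam_symm f (mob A p.1) (dmob A p.1 p.2)]
  abel

theorem Inv.M_mobT {A : C3} (hA : IsU21 A) {f : EE → ℝ} (hf : ∀ n : ℕ, ContDiffOn ℝ n f Bl)
    (hfA : ∀ x ∈ Bl, f (mob A x) = f x) {φ : ℝ → EE × EE → EE × EE}
    {M : ℝ → EE × EE → (EE × EE) →L[ℝ] (EE × EE)} (hφ : IsFlow OO (XX f) φ M)
    {p : EE × EE} (hp : p.1 ∈ Bl) (t : ℝ) (ξ : EE × EE) :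
    M t (mobT A p) (fderiv ℝ (mobT A) p ξ) = fderiv ℝ (mobT A) (φ t p) (M t p ξ) := by
  have hpO : p ∈ OO := mem_OO.2 hp
  have hq : (φ t p).1 ∈ Bl := mem_OO.1 (hφ.mem t p hpO)
  have h1 := (hφ.fderiv t _ (mem_OO.2 (mobT_mem hA hp))).comp p (hasFDerivAt_mobT hA hp)
  have h2 := (hasFDerivAt_mobT hA hq).comp p (hφ.fderiv t p hpO)
  have h3 : φ t ∘ mobT A = mobT A ∘ φ t := funext fun q => flow_mobT hA hf hfA hφ t q
  rw [h3] at h1
  exact congrArg (fun L : (EE × EE) →L[ℝ] (EE × EE) => L ξ) (h1.unique h2)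

theorem Ymat_mobT {A : C3} (hA : IsU21 A) {f : EE → ℝ} (hf : ∀ n : ℕ, ContDiffOn ℝ n f Bl)
    (hfA : ∀ x ∈ Bl, f (mob A x) = f x) {φ : ℝ → EE × EE → EE × EE}
    {M : ℝ → EE × EE → (EE × EE) →L[ℝ] (EE × EE)} (hφ : IsFlow OO (XX f) φ M)
    {p : EE × EE} (hp : p.1 ∈ Bl) (h1 : en f p = 1) (t : ℝ) :
    ∃ R S : M3, Rᵀ * R = 1 ∧ Sᵀ * S = 1 ∧ Ymat f φ M (mobT A p) t = R * Ymat f φ M p t * S := by
  have hpO : p ∈ OO := mem_OO.2 hp
  have hq : (φ t p).1 ∈ Bl := mem_OO.1 (hφ.mem t p hpO)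
  have hq1 : en f (φ t p) = 1 := by rw [en_flow hf hφ, h1]
  refine ⟨(rot A f (φ t p))ᵀ, rot A f p, ?_, rot_orth hA hfA hp h1, ?_⟩
  · rw [Matrix.transpose_transpose]
    exact mul_eq_one_comm.1 (rot_orth hA hfA hq hq1)
  ext i j
  have e1 : (mobT A (φ t p)).1 = mob A (φ t p).1 := by rw [mobT_of_mem A hq]
  have h2 : Ymat f φ M (mobT A p) t i j = gg f (φ t p).1
      (M t p (xi f p (rot A f p 0 j • frame p 0 + rot A f p 1 j • frame p 1 +
        rot A f p 2 j • frame p 2))).1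
      (rot A f (φ t p) 0 i • frame (φ t p) 0 + rot A f (φ t p) 1 i • frame (φ t p) 1 +
        rot A f (φ t p) 2 i • frame (φ t p) 2) := by
    unfold Ymat
    rw [frame_mobT hA hfA hp h1 j, ← fderiv_mobT_xi hA hf hfA hp, M_mobT hA hf hfA hφ hp,
      flow_mobT hA hf hfA hφ, frame_mobT hA hfA hq hq1 i, fderiv_mobT hA hq, e1,
      gg_mob hA hfA hq]
  rw [h2]
  simp only [xi_add, xi_smul, map_add, map_smul, Prod.fst_add, Prod.smul_fst, _root_.add_apply,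
    _root_.smul_apply, smul_eq_mul, Matrix.mul_apply, Matrix.transpose_apply, Fin.sum_univ_three,
    Ymat]
  ring

theorem mobT_measurePreserving {A B : C3} (hA : IsU21 A) (hB : IsU21 B) (hAB : A * B = 1)
    {f : EE → ℝ} (hfA : ∀ x ∈ Bl, f (mob A x) = f x)
    {S : Set (EE × EE)} (hS : MeasurableSet S) (hSO : S ⊆ OO) (hinv : ∀ p ∈ S, mobT A p ∈ S)
    (hinv' : ∀ p ∈ S, mobT B p ∈ S) : MeasurePreserving (mobT A) (liou f S) (liou f S) := by
  have hBA : B * A = 1 := mul_eq_one_comm.1 hAB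
  have hm : ∀ p ∈ S, p.1 ∈ Bl := fun p hp => mem_OO.1 (hSO hp)
  have : ((volume : Measure EE).prod (volume : Measure EE)).IsAddHaarMeasure :=
    Measure.prod.instIsAddHaarMeasure _ _
  refine measurePreserving_of_det ((volume : Measure EE).prod (volume : Measure EE)) hS (mobT A)
    (measurable_mobT hA) (fderiv ℝ (mobT A))
    ⟨hinv, fun p hp q hq h => ?_, fun p hp => ⟨mobT B p, hinv' p hp, ?_⟩⟩
    (fun p hp => hasFDerivAt_mobT hA (hm p hp)) (rho f) (fun p _ => ?_) fun p hp => ?_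
  · rw [← mobT_one p, ← mobT_one q, ← hBA, mobT_mul hB hA (hm p hp), mobT_mul hB hA (hm q hq), h]
  · rw [← mobT_mul hA hB (hm p hp), hAB, mobT_one]
  · unfold rho
    positivity
  · have h1 := (Dd_pos (hm p hp)).ne'
    have h2 := (Dd_pos (mob_mem hA (hm p hp))).ne'
    rw [det_mobT hA (hm p hp), mobT_of_mem A (hm p hp)]
    unfold rho
    simp only [hfA _ (hm p hp)]
    field_simp

end Pool.Agent.MP_019006_gt
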