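import Pool.Agent.MP_019006_gt.Mobius

set_option autoImplicit false

open MeasureTheory Filter Topology Set Matrix

namespace Pool.Agent.MP_019006_gt

open Mob

theorem lattice_fin {Λ : ℝ} {G : Type} [Group G] {ρ : G →* C3} (hρ : IsLattice Λ G ρ)
    (c : ℝ) (hc : 0 < c) : {a : G | ∃ x ∈ Bl, c ≤ Dd x ∧ c ≤ Dd (mob (ρ a) x)}.Finite := by
  refine (hρ.fin (2 / c * (1 + 1 / c))).subset ?_
  rintro a ⟨x, hx, h1, h2⟩
  have hA : IsU21 (ρ a) := hρ.unit a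
  have hj : 0 < ‖jj (ρ a) x‖ := norm_pos_iff.2 (jj_ne hA hx)
  rw [Dd_mob hA hx, le_div_iff₀ (pow_pos hj 2)] at h2
  have h3 := Dd_le_one x
  have h4 : ‖jj (ρ a) x‖ ^ 2 ≤ 1 / c := by
    rw [le_div_iff₀ hc]; linarith
  have h5 : ‖jj (ρ a) x‖ ≤ 1 + 1 / c := by nlinarith [sq_nonneg (‖jj (ρ a) x‖ - 1)]
  have h6 := (jj_bounds hA hx).1
  have h7 : c / 2 ≤ 1 - ‖x‖ := by
    unfold Dd at h1
    nlinarith [sq_nonneg (1 - ‖x‖)]
  have h8 : ‖ρ a 2 2‖ * (c / 2) ≤ 1 + 1 / c :=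
    (mul_le_mul_of_nonneg_left h7 (norm_nonneg _)).trans (h6.trans h5)
  change ‖ρ a 2 2‖ ≤ _
  have h9 : ‖ρ a 2 2‖ = 2 / c * (‖ρ a 2 2‖ * (c / 2)) := by field_simp
  rw [h9]
  exact mul_le_mul_of_nonneg_left h8 (by positivity)

theorem lattice_cocpt {Λ : ℝ} {G : Type} [Group G] {ρ : G →* C3} (hρ : IsLattice Λ G ρ) :
    ∃ δ : ℝ, 0 < δ ∧ ∀ x ∈ Bl, ∃ a, δ ≤ Dd (mob (ρ a) x) := by
  obtain ⟨δ, hδ, h⟩ := hρ.cocpt
  refine ⟨δ, hδ, fun x hx => ?_⟩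
  have h1 : Qf (lift1 x) < 0 := by
    rw [Qf_lift1]; linarith [Dd_pos hx]
  obtain ⟨a, ha⟩ := h (lift1 x) h1
  have hA : IsU21 (ρ a) := hρ.unit a
  have hj : 0 < ‖jj (ρ a) x‖ := norm_pos_iff.2 (jj_ne hA hx)
  refine ⟨a, ?_⟩
  rw [Dd_mob hA hx, le_div_iff₀ (pow_pos hj 2)]
  rw [Qf_lift1, neg_neg] at ha
  exact ha

theorem lattice_far {Λ : ℝ} {G : Type} [Group G] {ρ : G →* C3} (hρ : IsLattice Λ G ρ)
    (hΛ : 0 < Λ) (a : G) (ha : a ≠ 1) {x : EE} (hx : ‖x‖ ≤ 1 / 2) :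
    Dd (mob (ρ a) x) ≤ 4 / Λ ^ 2 := by
  have hA : IsU21 (ρ a) := hρ.unit a
  have hxB : x ∈ Bl := mem_Bl.2 (by linarith)
  have h1 := hρ.far a ha
  have h2 := (jj_bounds hA hxB).1
  have h3 : Λ / 2 ≤ ‖jj (ρ a) x‖ := by nlinarith
  have h4 : (Λ / 2) ^ 2 ≤ ‖jj (ρ a) x‖ ^ 2 := pow_le_pow_left₀ (by positivity) h3 2
  rw [Dd_mob hA hxB]
  calc Dd x / ‖jj (ρ a) x‖ ^ 2 ≤ 1 / (Λ / 2) ^ 2 :=
        div_le_div₀ zero_le_one (Dd_le_one x) (by positivity) h4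
    _ = 4 / Λ ^ 2 := by field_simp; norm_num

theorem Mob.continuous_Dd : Continuous Dd := by
  unfold Dd; fun_prop

theorem isDeckAction {Λ : ℝ} {G : Type} [Group G] {ρ : G →* C3} (hρ : IsLattice Λ G ρ)
    (f : EE → ℝ) (hf : ∀ a, ∀ x ∈ Bl, f (mob (ρ a) x) = f x) :
    IsDeckAction Bl (gg f) G (fun a => mob (ρ a)) := by
  have hA : ∀ a, IsU21 (ρ a) := hρ.unit
  refine ⟨fun a x hx => mob_mem (hA a) hx, fun x _ => ?_, fun a b x hx => ?_,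
    fun a n => contDiffOn_mob (hA a) n, fun a x hx u w => ?_, fun a x hx h => ?_,
    fun K hK hKc => ?_, ?_⟩
  · simp only [map_one]; exact mob_one x
  · simp only [map_mul]; exact mob_mul (hA b) hx
  · simp only [gg_apply, fderiv_mob (hA a) hx, hf a x hx, g0, hh_mob (hA a) hx]
  · have h1 : Qf (lift1 x) < 0 := by
      rw [Qf_lift1]; linarith [Dd_pos hx]
    refine hρ.free a (lift1 x) (jj (ρ a) x) h1 ?_
    have h2 : mob (ρ a) x = x := h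
    rw [mulVec_lift1 (jj_ne (hA a) hx), h2]
  · rcases K.eq_empty_or_nonempty with rfl | hne
    · simp
    · obtain ⟨z, hz, hmin⟩ := hKc.exists_isMinOn hne continuous_Dd.continuousOn
      refine (lattice_fin hρ (Dd z) (Dd_pos (hK hz))).subset ?_
      rintro a ⟨y, ⟨x, hx, rfl⟩, hy⟩
      exact ⟨x, hK hx, hmin hx, hmin hy⟩
  · obtain ⟨δ, hδ, h⟩ := lattice_cocpt hρ
    refine ⟨{x | δ ≤ Dd x}, fun x hx => mem_of_Dd_pos (hδ.trans_le hx), ?_, h⟩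
    refine (isCompact_closedBall (0 : EE) 1).of_isClosed_subset
      (isClosed_le continuous_const continuous_Dd) fun x hx => ?_
    exact Metric.ball_subset_closedBall (mem_of_Dd_pos (hδ.trans_le hx))

end Pool.Agent.MP_019006_gt
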