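import Pool.Agent.MP_019006_gt.Approx1
import Pool.Agent.MP_019006_gt.FlowGeo
import Pool.Agent.MP_019006_gt.Mobius
import Pool.Agent.MP_019006_gt.MobLattice
import Pool.Agent.MP_019006_gt.Invar

set_option autoImplicit false

open MeasureTheory Filter Topology Set Matrix
open scoped ENNReal

namespace Pool.Agent.MP_019006_gt

namespace Apx

/-- A weight depending on the base point only. -/
theorem exists_base_weight {Λ : ℝ} {G : Type} [Group G] [Countable G] {ρ : G →* C3}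
    (hρ : IsLattice Λ G ρ) {c : ℝ} (hc : 0 < c) (hcov : ∀ x ∈ Bl, ∃ a, c ≤ Dd (mob (ρ a) x)) :
    ∃ χ : EE → ℝ≥0∞, Measurable χ ∧ (∀ x, χ x ≤ 1) ∧ (∀ x, Dd x < c → χ x = 0) ∧
      ∀ x ∈ Bl, ∑' a, χ (mob (ρ a) x) = 1 := by
  have e : ∀ a, ∀ x ∈ Bl, (mobT (ρ a) (x, 0)).1 = mob (ρ a) x := fun a x hx => by
    rw [Inv.mobT_of_mem (ρ a) (p := (x, 0)) hx]
  obtain ⟨χ, h1, h2, h3⟩ := exists_weight (G := G) Bl isOpen_Bl.measurableSet
    (fun a x => (mobT (ρ a) (x, 0)).1)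
    (fun a => ((measurable_mobT (hρ.unit a)).comp measurable_prodMk_right).fst)
    (fun a x hx => by rw [e a x hx]; exact mob_mem (hρ.unit a) hx)
    (fun a b x hx => by
      rw [e _ x hx, e b x hx, e a _ (mob_mem (hρ.unit b) hx), map_mul, mob_mul (hρ.unit b) hx])
    {x | c ≤ Dd x} (isClosed_le continuous_const Fib.cont_Dd).measurableSet
    (fun x hx => by simpa only [e _ x hx, mem_ofPred_eq] using hcov x hx)
    (fun x hx => by
      refine (lattice_fin hρ (min c (Dd x)) (lt_min hc (Dd_pos hx))).subset fun a ha => ?_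
      rw [mem_ofPred_eq, e a x hx] at ha
      exact ⟨x, hx, min_le_right _ _, (min_le_left _ _).trans ha⟩)
  refine ⟨χ, h1, fun x => (h2 x).trans (indicator_le_self _ _ x), fun x hx => ?_,
    fun x hx => by simpa only [e _ x hx] using h3 x hx⟩
  have := h2 x
  rw [indicator_of_notMem (show x ∉ {x | c ≤ Dd x} from not_le.2 hx)] at this
  exact le_antisymm this zero_le

/-- The sum of the translates of `w`, extended by homogeneity. -/
noncomputable def uu {G : Type} [Group G] (ρ : G →* C3) (f : EE → ℝ) (w : EE × EE → ℝ) :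
    EE × EE → ℝ := OO.indicator fun p => ∑' a, w (nrmm f (mobT (ρ a) p))

theorem uu_eq {G : Type} [Group G] (ρ : G →* C3) (f : EE → ℝ) (w : EE × EE → ℝ) {p : EE × EE}
    (hp : p.1 ∈ Bl) : uu ρ f w p = ∑' a, w (nrmm f (mobT (ρ a) p)) :=
  indicator_of_mem (mem_OO.2 hp) _

theorem meas_uu {Λ : ℝ} {G : Type} [Group G] [Countable G] {ρ : G →* C3} (hρ : IsLattice Λ G ρ)
    {f : EE → ℝ} (hf : Conf f) {w : EE × EE → ℝ} (hw : Measurable w) : Measurable (uu ρ f w) :=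
  (Measurable.tsum fun a => hw.comp ((meas_nrmm hf).comp (measurable_mobT (hρ.unit a)))).indicator
    isOpen_OO.measurableSet

theorem uu_inv {Λ : ℝ} {G : Type} [Group G] {ρ : G →* C3} (hρ : IsLattice Λ G ρ)
    (f : EE → ℝ) (w : EE × EE → ℝ) (b : G) {p : EE × EE} (hp : p.1 ∈ Bl) :
    uu ρ f w (mobT (ρ b) p) = uu ρ f w p := by
  rw [uu_eq ρ f w hp, uu_eq ρ f w (Inv.mobT_mem (hρ.unit b) hp),
    ← (Equiv.mulRight b).tsum_eq fun a => w (nrmm f (mobT (ρ a) p))]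
  refine tsum_congr fun a => ?_
  rw [← Inv.mobT_mul (hρ.unit a) (hρ.unit b) hp, ← map_mul]
  rfl

theorem nrmm_smul (f : EE → ℝ) {c : ℝ} (hc : 0 < c) {p : EE × EE} (hp : p.1 ∈ Bl) :
    nrmm f (p.1, c • p.2) = nrmm f p := by
  rw [nrmm_eq f hp, nrmm_eq f (p := (p.1, c • p.2)) hp, Fib.nrm_smul f _ _ hc]

theorem uu_smul {Λ : ℝ} {G : Type} [Group G] {ρ : G →* C3} (hρ : IsLattice Λ G ρ)
    (f : EE → ℝ) (w : EE × EE → ℝ) {c : ℝ} (hc : 0 < c) {p : EE × EE} (hp : p.1 ∈ Bl) :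
    uu ρ f w (p.1, c • p.2) = uu ρ f w p := by
  rw [uu_eq ρ f w hp, uu_eq ρ f w (p := (p.1, c • p.2)) hp]
  refine tsum_congr fun a => ?_
  rw [← nrmm_smul f hc (Inv.mobT_mem (hρ.unit a) hp), Inv.mobT_of_mem (ρ a) hp,
    Inv.mobT_of_mem (ρ a) (p := (p.1, c • p.2)) hp, Inv.dmob_rsmul]

theorem uu_unif {Λ : ℝ} {G : Type} [Group G] {ρ : G →* C3} (hρ : IsLattice Λ G ρ)
    {f : EE → ℝ} (hf : Conf f) (hfG : ∀ a, ∀ x ∈ Bl, f (mob (ρ a) x) = f x)
    {c : ℝ} (hc : 0 < c) (hcov : ∀ x ∈ Bl, ∃ a, c ≤ Dd (mob (ρ a) x))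
    {w : EE × EE → ℝ} (hw : UniformContinuous w) (hw0 : ∀ p : EE × EE, Dd p.1 < c → w p = 0)
    (ε : ℝ) (hε : 0 < ε) : ∃ κ : ℝ, 0 < κ ∧ ∀ y ∈ Bl, ∀ v v' : EE, en f (y, v) = 1 →
      en f (y, v') = 1 → gg f y (v - v') (v - v') ≤ κ →
        |uu ρ f w (y, v) - uu ρ f w (y, v')| ≤ ε := by
  set F := (lattice_fin hρ c hc).toFinset with hF
  have hN : (0 : ℝ) < F.card + 1 := by positivity
  obtain ⟨η, hη, hwη⟩ := Metric.uniformContinuous_iff.1 hw (ε / (F.card + 1)) (div_pos hε hN)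
  refine ⟨η ^ 2 / 4, by positivity, fun y hy v v' hv hv' hκ => ?_⟩
  obtain ⟨a₀, ha₀⟩ := hcov y hy
  have hsum : ∀ z : EE, en f (y, z) = 1 → uu ρ f w (y, z) =
      ∑ a ∈ F, w (mob (ρ (a * a₀)) y, dmob (ρ (a * a₀)) y z) := by
    intro z hz
    have h1 : ∀ a, nrmm f (mobT (ρ a) (y, z)) = (mob (ρ a) y, dmob (ρ a) y z) := by
      intro a
      rw [nrmm_eq f (Inv.mobT_mem (hρ.unit a) (p := (y, z)) hy)]
      unfold nrm
      rw [en_mobT (hρ.unit a) (hfG a), hz, Real.sqrt_one, inv_one, one_smul,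
        Inv.mobT_of_mem (ρ a) (p := (y, z)) hy]
    rw [uu_eq ρ f w (p := (y, z)) hy]
    simp only [h1]
    rw [← (Equiv.mulRight a₀).tsum_eq fun a => w (mob (ρ a) y, dmob (ρ a) y z)]
    refine tsum_eq_sum fun a ha => hw0 _ ?_
    by_contra hlt
    refine ha ?_
    rw [hF, Finite.mem_toFinset]
    refine ⟨mob (ρ a₀) y, mob_mem (hρ.unit a₀) hy, ha₀, ?_⟩
    rw [← mob_mul (hρ.unit a₀) hy, ← map_mul]
    exact not_lt.1 hlt
  rw [hsum v hv, hsum v' hv', ← Finset.sum_sub_distrib]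
  refine (Finset.abs_sum_le_sum_abs _ _).trans ?_
  have hterm : ∀ a ∈ F, |w (mob (ρ (a * a₀)) y, dmob (ρ (a * a₀)) y v) -
      w (mob (ρ (a * a₀)) y, dmob (ρ (a * a₀)) y v')| ≤ ε / (F.card + 1) := by
    intro a _
    refine (hwη ?_).le
    rw [Prod.dist_eq, dist_self, dist_eq_norm, ← Inv.dmob_sub, max_eq_right (norm_nonneg _)]
    have h1 := (g0_bounds (mob_mem (hρ.unit (a * a₀)) hy) (dmob (ρ (a * a₀)) y (v - v'))).1
    rw [Inv.g0_mob (hρ.unit (a * a₀)) hy] at h1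
    have h3 : -(1 / 100 : ℝ) ≤ f y := (abs_le.1 (hf.fb _ hy)).1
    have h4 : 2 * f y + 1 ≤ Real.exp (2 * f y) := Real.add_one_le_exp _
    have h6 : 0 ≤ g0 y (v - v') (v - v') := (sq_nonneg _).trans h1
    have h7 : (49 / 50 : ℝ) * g0 y (v - v') (v - v') ≤ η ^ 2 / 4 := by
      refine le_trans ?_ hκ
      rw [gg_apply]
      exact mul_le_mul_of_nonneg_right (by linarith) h6
    refine lt_of_pow_lt_pow_left₀ 2 hη.le ?_
    nlinarith [pow_pos hη 2]
  refine (Finset.sum_le_card_nsmul _ _ _ hterm).trans ?_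
  rw [nsmul_eq_mul, ← mul_div_assoc, div_le_iff₀ hN]
  nlinarith

end Apx

open Apx

theorem approx {f : EE → ℝ} {φ : Flo} {M : DFlo} (h : Ctx f φ M)
    {Λ : ℝ} {G : Type} [Group G] [Countable G] {ρ : G →* C3} (hρ : IsLattice Λ G ρ)
    (hf : ∀ a, ∀ x ∈ Bl, f (mob (ρ a) x) = f x) {A : Set (EE × EE)} (hA : InvSet ρ φ A)
    (δ ε : ℝ) (hδ : 0 < δ) (hε : 0 < ε) : ∃ u : EE × EE → ℝ, Measurable u ∧
      (∀ c : ℝ, 0 < c → ∀ p : EE × EE, p.1 ∈ Bl → u (p.1, c • p.2) = u p) ∧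
      (∀ ε' : ℝ, 0 < ε' → ∃ κ : ℝ, 0 < κ ∧ ∀ y ∈ Bl, ∀ v v' : EE, en f (y, v) = 1 →
        en f (y, v') = 1 → gg f y (v - v') (v - v') ≤ κ → |u (y, v) - u (y, v')| ≤ ε') ∧
      ∀ t a b : ℝ, 0 ≤ a → a ≤ b →
        ∫⁻ p in thin f a b ∩ {p | δ ≤ Dd p.1},
          ENNReal.ofReal |A.indicator 1 (φ t p) - u (φ t p)| ∂(liou f OO) ≤
            ENNReal.ofReal (ε * (b ^ 4 - a ^ 4)) := by
  obtain ⟨c, hc, hcov⟩ := lattice_cocpt hρ
  obtain ⟨χ, hχm, hχ1, hχ0, hχ⟩ := exists_base_weight hρ hc hcov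
  set F := (lattice_fin hρ (min δ c) (lt_min hδ hc)).toFinset with hF
  have hN : (0 : ℝ) < F.card + 1 := by positivity
  let g : EE × EE → ℝ := fun p => (χ p.1).toReal * A.indicator 1 p
  have hind : Measurable (A.indicator (1 : EE × EE → ℝ)) := measurable_one.indicator hA.meas
  have hg : Measurable g := (hχm.comp measurable_fst).ennreal_toReal.mul hind
  have hg1 : ∀ p, ‖g p‖ ≤ 1 := by
    intro p
    have h1 : (χ p.1).toReal ≤ 1 := ENNReal.toReal_le_of_le_ofReal zero_le_one (by simpa using hχ1 _)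
    have h2 : ‖A.indicator (1 : EE × EE → ℝ) p‖ ≤ 1 := by
      by_cases hp : p ∈ A <;> simp [hp]
    rw [norm_mul, Real.norm_of_nonneg ENNReal.toReal_nonneg]
    exact mul_le_one₀ h1 (norm_nonneg _) h2
  have hg0 : ∀ p : EE × EE, Dd p.1 < c → g p = 0 := fun p hp => by
    simp only [g, hχ0 _ hp, ENNReal.toReal_zero, zero_mul]
  have hcong : ∀ p q : EE × EE, (p ∈ A ↔ q ∈ A) →
      A.indicator (1 : EE × EE → ℝ) p = A.indicator 1 q := by
    intro p q hpq
    by_cases hq : q ∈ A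
    · rw [indicator_of_mem hq, indicator_of_mem (hpq.2 hq)]
      rfl
    · rw [indicator_of_notMem hq, indicator_of_notMem fun h' => hq (hpq.1 h')]
  have hgs : ∀ s : ℝ, 0 < s → ∀ p : EE × EE, p.1 ∈ Bl → g (p.1, s • p.2) = g p := by
    intro s hs p hp
    simp only [g]
    rw [hcong _ _ (hA.scale s hs p hp)]
  have hε' : ENNReal.ofReal (ε / (F.card + 1)) ≠ 0 := (ENNReal.ofReal_pos.2 (div_pos hε hN)).ne'
  obtain ⟨w, hw, hw0, hwε⟩ := exists_w h.conf hc g hg hg1 hg0 hgs hε'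
  have hwm : Measurable w := hw.continuous.measurable
  have hcov' : ∀ x ∈ Bl, ∃ a, c / 2 ≤ Dd (mob (ρ a) x) := fun x hx =>
    (hcov x hx).imp fun a ha => (half_le_self hc.le).trans ha
  refine ⟨uu ρ f w, meas_uu hρ h.conf hwm, fun s hs p hp => uu_smul hρ f w hs hp,
    uu_unif hρ h.conf hf (half_pos hc) hcov' hw hw0, fun t a b ha hab => ?_⟩
  have hS := meas_thin h.conf a b
  have hSO := thin_sub f a b
  have hB : MeasurableSet {p : EE × EE | δ ≤ Dd p.1} :=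
    (isClosed_le continuous_const (Fib.cont_Dd.comp continuous_fst)).measurableSet
  have hmobS : ∀ a', ∀ p ∈ thin f a b, mobT (ρ a') p ∈ thin f a b := by
    intro a' p hp
    refine ⟨Inv.mobT_mem (hρ.unit a') hp.1, ?_⟩
    rw [en_mobT (hρ.unit a') (hf a')]
    exact hp.2
  have hflowS : ∀ t, ∀ p ∈ thin f a b, φ t p ∈ thin f a b := by
    intro t p hp
    refine ⟨mem_OO.1 (h.flow.mem t p (hSO hp)), ?_⟩
    rw [en_flow h.conf.smooth h.flow]
    exact hp.2
  have hk : Measurable fun p => ‖g p - w (nrmm f p)‖ₑ :=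
    (hg.sub (hwm.comp (meas_nrmm h.conf))).enorm
  have he : Measurable fun p => ‖A.indicator 1 p - uu ρ f w p‖ₑ :=
    (hind.sub (meas_uu hρ h.conf hwm)).enorm
  have key := abs_bound (liou f (thin f a b)) (thin f a b)
    (by rw [← liou_restrict f hS hSO, Measure.restrict_apply hS.compl, compl_inter_self,
      measure_empty])
    (fun a' => mobT (ρ a'))
    (fun a' => mobT_measurePreserving (hρ.unit a') (hρ.unit a'⁻¹)
      (by rw [← map_mul, mul_inv_cancel, map_one]) (hf a') hS hSO (hmobS a') (hmobS a'⁻¹))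
    (fun p _ => by rw [map_one, Inv.mobT_one])
    (fun a' b' p hp => by rw [map_mul, Inv.mobT_mul (hρ.unit a') (hρ.unit b') hp.1])
    (fun p => χ p.1) (hχm.comp measurable_fst)
    (fun p hp => by simpa only [Inv.mobT_of_mem _ hp.1] using hχ p.1 hp.1)
    (φ t) (flow_measurePreserving h.conf.smooth h.flow hS hSO hflowS t) (hflowS t)
    (fun a' p _ => flow_mobT (hρ.unit a') h.conf.smooth (hf a') h.flow t p)
    _ _ he hk
    (fun a' p hp => by rw [uu_inv hρ f w a' hp.1, hcong _ _ (hA.grp a' p hp.1)])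
    (fun p hp => by
      have h1 : ∀ a', g (mobT (ρ a') p) = (χ (mob (ρ a') p.1)).toReal * A.indicator 1 p := by
        intro a'
        simp only [g]
        rw [hcong _ _ (hA.grp a' p hp.1), Inv.mobT_of_mem _ hp.1]
      have h2 : Summable fun a' => g (mobT (ρ a') p) := by
        simp only [h1]
        exact (ENNReal.summable_toReal (by rw [hχ p.1 hp.1]; exact ENNReal.one_ne_top)).mul_right _
      have h3 : ∑' a', g (mobT (ρ a') p) = A.indicator 1 p := by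
        simp only [h1]
        rw [tsum_mul_right, ← ENNReal.tsum_toReal_eq fun a' =>
          ((hχ1 _).trans_lt ENNReal.one_lt_top).ne, hχ p.1 hp.1, ENNReal.toReal_one, one_mul]
      have h4 : Summable fun a' => w (nrmm f (mobT (ρ a') p)) := by
        refine summable_of_hasFiniteSupport
          ((lattice_fin hρ (min (c / 2) (Dd p.1)) (lt_min (half_pos hc) (Dd_pos hp.1))).subset
            fun a' ha' => ⟨p.1, hp.1, min_le_right _ _, (min_le_left _ _).trans ?_⟩)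
        by_contra hlt
        refine ha' (hw0 _ ?_)
        rw [Inv.mobT_of_mem _ hp.1]
        exact not_le.1 hlt
      rw [uu_eq ρ f w hp.1, ← h3, ← h2.tsum_sub h4]
      exact enorm_tsum_le_tsum_enorm)
    _ hB F
    (fun p hp hpB a' ha' => by
      refine hχ0 _ ?_
      by_contra hlt
      refine ha' ?_
      rw [hF, Finite.mem_toFinset]
      rw [Inv.mobT_of_mem _ hp.1] at hlt
      exact ⟨p.1, hp.1, (min_le_left _ _).trans hpB, (min_le_right _ _).trans (not_lt.1 hlt)⟩)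
  rw [← liou_restrict f hS hSO, Measure.restrict_restrict hB, inter_comm,
    lintegral_thin h.conf _ hk
      (fun s hs p hp => by rw [hgs s hs p hp, nrmm_smul f hs hp]) a b ha hab
      (hwε.trans_lt ENNReal.ofReal_lt_top).ne] at key
  have h4 : 0 ≤ b ^ 4 - a ^ 4 := sub_nonneg.2 (pow_le_pow_left₀ ha hab 4)
  simp only [← Real.enorm_eq_ofReal_abs]
  refine key.trans ((mul_le_mul_right (mul_le_mul_right hwε _) _).trans ?_)
  rw [← ENNReal.ofReal_mul h4, ← ENNReal.ofReal_natCast, ← ENNReal.ofReal_mul (Nat.cast_nonneg _)]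
  refine ENNReal.ofReal_le_ofReal ?_
  rw [← mul_assoc, ← mul_div_assoc, div_le_iff₀ hN]
  nlinarith [mul_nonneg hε.le h4]

end Pool.Agent.MP_019006_gt
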