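import Pool.Agent.MP_019006_gt.JobDefs

set_option autoImplicit false

open MeasureTheory Filter Topology Set Matrix
open scoped ENNReal

namespace Pool.Agent.MP_019006_gt

variable {P G : Type} [MeasurableSpace P] [Group G] [Countable G]

/-- Unfolding. -/
theorem weight_unfold (μ : Measure P) (S : Set P) (hSc : μ Sᶜ = 0)
    (act : G → P → P) (hact : ∀ a, MeasurePreserving (act a) μ μ)
    (act1 : ∀ p ∈ S, act 1 p = p)
    (actmul : ∀ a b, ∀ p ∈ S, act (a * b) p = act a (act b p))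
    (χ : P → ℝ≥0∞) (hχm : Measurable χ) (hχ : ∀ p ∈ S, ∑' a, χ (act a p) = 1)
    (u₀ : P → ℝ≥0∞) (hu₀ : Measurable u₀) :
    ∫⁻ p, χ p * ∑' a, u₀ (act a p) ∂μ = ∫⁻ p, u₀ p ∂μ := by
  have hae : ∀ᵐ p ∂μ, p ∈ S := hSc
  have h1 : ∀ a : G, ∫⁻ p, χ p * u₀ (act a p) ∂μ = ∫⁻ q, χ (act a⁻¹ q) * u₀ q ∂μ := by
    intro a
    have hm : Measurable fun q => χ (act a⁻¹ q) * u₀ q :=
      (hχm.comp (hact a⁻¹).measurable).mul hu₀
    rw [← (hact a).lintegral_comp hm]
    refine lintegral_congr_ae (hae.mono fun p hp => ?_)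
    simp only []
    rw [← actmul _ _ p hp, inv_mul_cancel, act1 p hp]
  calc ∫⁻ p, χ p * ∑' a, u₀ (act a p) ∂μ
      = ∫⁻ p, ∑' a, χ p * u₀ (act a p) ∂μ := by simp only [ENNReal.tsum_mul_left]
    _ = ∑' a, ∫⁻ p, χ p * u₀ (act a p) ∂μ :=
        lintegral_tsum fun a => (hχm.mul (hu₀.comp (hact a).measurable)).aemeasurable
    _ = ∑' a : G, ∫⁻ q, χ (act a⁻¹ q) * u₀ q ∂μ := by simp only [h1]
    _ = ∫⁻ q, ∑' a : G, χ (act a⁻¹ q) * u₀ q ∂μ :=
        (lintegral_tsum fun a =>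
          ((hχm.comp (hact a⁻¹).measurable).mul hu₀).aemeasurable).symm
    _ = ∫⁻ p, u₀ p ∂μ := by
        refine lintegral_congr_ae (hae.mono fun p hp => ?_)
        simp only []
        have h2 : ∑' a : G, χ (act a⁻¹ p) = 1 :=
          ((Equiv.inv G).tsum_eq (fun a => χ (act a p))).trans (hχ p hp)
        rw [ENNReal.tsum_mul_right, h2, one_mul]

/-- The weighted integral of an invariant function does not depend on the weight. -/
theorem weight_lintegral (μ : Measure P) (S : Set P) (hSc : μ Sᶜ = 0)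
    (act : G → P → P) (hact : ∀ a, MeasurePreserving (act a) μ μ)
    (act1 : ∀ p ∈ S, act 1 p = p)
    (actmul : ∀ a b, ∀ p ∈ S, act (a * b) p = act a (act b p))
    (χ₁ χ₂ : P → ℝ≥0∞) (h₁m : Measurable χ₁) (h₂m : Measurable χ₂)
    (h₁ : ∀ p ∈ S, ∑' a, χ₁ (act a p) = 1) (h₂ : ∀ p ∈ S, ∑' a, χ₂ (act a p) = 1)
    (u : P → ℝ≥0∞) (hu : Measurable u) (uinv : ∀ a, ∀ p ∈ S, u (act a p) = u p) :
    ∫⁻ p, χ₁ p * u p ∂μ = ∫⁻ p, χ₂ p * u p ∂μ := by
  have hae : ∀ᵐ p ∂μ, p ∈ S := hSc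
  rw [← weight_unfold μ S hSc act hact act1 actmul χ₁ h₁m h₁ (fun p => χ₂ p * u p) (h₂m.mul hu)]
  refine lintegral_congr_ae (hae.mono fun p hp => ?_)
  simp only [uinv _ p hp]
  rw [ENNReal.tsum_mul_right, h₂ p hp, one_mul]

/-- Existence of a weight supported in `K`. -/
theorem exists_weight (S : Set P) (hS : MeasurableSet S)
    (act : G → P → P) (hact : ∀ a, Measurable (act a))
    (actS : ∀ a, ∀ p ∈ S, act a p ∈ S)
    (actmul : ∀ a b, ∀ p ∈ S, act (a * b) p = act a (act b p))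
    (K : Set P) (hK : MeasurableSet K)
    (hKcov : ∀ p ∈ S, ∃ a, act a p ∈ K) (hKf : ∀ p ∈ S, {a | act a p ∈ K}.Finite) :
    ∃ χ : P → ℝ≥0∞, Measurable χ ∧ (∀ p, χ p ≤ K.indicator 1 p) ∧
      ∀ p ∈ S, ∑' a, χ (act a p) = 1 := by
  classical
  set N : P → ℝ≥0∞ := fun p => ∑' a, K.indicator 1 (act a p) with hN
  have hNm : Measurable N :=
    Measurable.tsum fun a => (measurable_one.indicator hK).comp (hact a)
  have hNinv : ∀ b, ∀ p ∈ S, N (act b p) = N p := by
    intro b p hp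
    simp only [hN, ← actmul _ _ p hp]
    exact (Equiv.mulRight b).tsum_eq (fun a => K.indicator (1 : P → ℝ≥0∞) (act a p))
  have hN1 : ∀ p ∈ S, 1 ≤ N p := by
    intro p hp
    obtain ⟨a, ha⟩ := hKcov p hp
    refine le_trans ?_ (ENNReal.le_tsum a)
    rw [indicator_of_mem ha]; rfl
  have hNt : ∀ p ∈ S, N p ≠ ⊤ := by
    intro p hp
    have : N p = ∑ a ∈ (hKf p hp).toFinset, K.indicator (1 : P → ℝ≥0∞) (act a p) := by
      refine tsum_eq_sum fun a ha => ?_
      rw [indicator_of_notMem]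
      simpa using ha
    rw [this]
    refine ENNReal.sum_ne_top.2 fun a _ => ?_
    by_cases h : act a p ∈ K <;> simp [h]
  refine ⟨(K ∩ S).indicator fun p => (N p)⁻¹, hNm.inv.indicator (hK.inter hS), fun p => ?_,
    fun p hp => ?_⟩
  · by_cases h : p ∈ K ∩ S
    · rw [indicator_of_mem h, indicator_of_mem h.1]
      exact ENNReal.inv_le_one.2 (hN1 p h.2)
    · rw [indicator_of_notMem h]; exact zero_le
  · have : ∀ a, (K ∩ S).indicator (fun p => (N p)⁻¹) (act a p) =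
        K.indicator (1 : P → ℝ≥0∞) (act a p) * (N p)⁻¹ := by
      intro a
      by_cases h : act a p ∈ K
      · rw [indicator_of_mem (show act a p ∈ K ∩ S from ⟨h, actS a p hp⟩), indicator_of_mem h,
          hNinv a p hp]
        simp
      · rw [indicator_of_notMem (fun h' => h h'.1), indicator_of_notMem h, zero_mul]
    simp only [this]
    rw [ENNReal.tsum_mul_right]
    exact ENNReal.mul_inv_cancel (zero_lt_one.trans_le (hN1 p hp)).ne' (hNt p hp)

/-- A measure preserving map commuting with the action preserves weighted integrals of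
invariant functions. -/
theorem weight_lintegral_comp (μ : Measure P) (S : Set P) (hSc : μ Sᶜ = 0)
    (act : G → P → P) (hact : ∀ a, MeasurePreserving (act a) μ μ)
    (act1 : ∀ p ∈ S, act 1 p = p)
    (actmul : ∀ a b, ∀ p ∈ S, act (a * b) p = act a (act b p))
    (χ : P → ℝ≥0∞) (hχm : Measurable χ) (hχ : ∀ p ∈ S, ∑' a, χ (act a p) = 1)
    (T : P → P) (hT : MeasurePreserving T μ μ) (TS : ∀ p ∈ S, T p ∈ S)
    (comm : ∀ a, ∀ p ∈ S, T (act a p) = act a (T p))
    (u : P → ℝ≥0∞) (hu : Measurable u) (uinv : ∀ a, ∀ p ∈ S, u (act a p) = u p) :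
    ∫⁻ p, χ p * u (T p) ∂μ = ∫⁻ p, χ p * u p ∂μ := by
  have hm : Measurable fun p => χ p * u p := hχm.mul hu
  rw [← hT.lintegral_comp hm]
  refine weight_lintegral μ S hSc act hact act1 actmul χ (fun p => χ (T p)) hχm
    (hχm.comp hT.measurable) hχ (fun p hp => ?_) (fun p => u (T p)) (hu.comp hT.measurable)
    (fun a p hp => ?_)
  · simp only [comm _ p hp]
    exact hχ _ (TS p hp)
  · simp only [comm _ p hp]
    exact uinv a _ (TS p hp)

end Pool.Agent.MP_019006_gt
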