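import Pool.Agent.MP_019006_gt.Metric

set_option autoImplicit false

open MeasureTheory Filter Topology Set Matrix

namespace Pool.Agent.MP_019006_gt

namespace Fib

theorem contOn_f {f : EE → ℝ} (hf : Conf f) : ContinuousOn f Bl := (hf.smooth 0).continuousOn

theorem contOn_en {f : EE → ℝ} (hf : Conf f) : ContinuousOn (en f) OO :=
  (contDiffOn_en hf.smooth 0).continuousOn

theorem cont_Dd : Continuous Dd := by
  unfold Dd; fun_prop

theorem contOn_rho {f : EE → ℝ} (hf : Conf f) : ContinuousOn (rho f) OO := by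
  have h1 : ContinuousOn (fun p : EE × EE => f p.1) OO :=
    (contOn_f hf).comp continuous_fst.continuousOn fun p hp => mem_OO.1 hp
  unfold rho
  refine ContinuousOn.div ?_ ?_ ?_
  · exact Real.continuous_exp.comp_continuousOn (continuousOn_const.mul h1)
  · exact ((cont_Dd.comp continuous_fst).pow 6).continuousOn
  · exact fun p hp => pow_ne_zero _ (Dd_pos (mem_OO.1 hp)).ne'

theorem rho_pos (f : EE → ℝ) {p : EE × EE} (hp : p.1 ∈ Bl) : 0 < rho f p :=
  div_pos (Real.exp_pos _) (pow_pos (Dd_pos hp) 6)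

theorem shell_eq (f : EE → ℝ) : shell f = OO ∩ en f ⁻¹' Icc 1 4 := by
  ext p
  simp only [shell, mem_ofPred_eq, mem_inter_iff, mem_OO, mem_preimage, mem_Icc]

theorem shell_sub (f : EE → ℝ) : shell f ⊆ OO := fun _ hp => mem_OO.2 hp.1

theorem meas_shell {f : EE → ℝ} (hf : Conf f) : MeasurableSet (shell f) := by
  obtain ⟨u, hu, hu'⟩ := continuousOn_iff_isClosed.1 (contOn_en hf) (Icc 1 4) isClosed_Icc
  rw [shell_eq, inter_comm, hu']
  exact hu.measurableSet.inter isOpen_OO.measurableSet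

theorem mem_Bl_of {c : ℝ} (hc : 0 < c) {x : EE} (hx : c ≤ Dd x) : x ∈ Bl := by
  rw [mem_Bl]
  unfold Dd at hx
  by_contra h
  push Not at h
  nlinarith

theorem norm_le_of_shell {f : EE → ℝ} (hf : Conf f) {p : EE × EE} (hp : p ∈ shell f) :
    ‖p.2‖ ≤ 3 := by
  have h1 := (g0_bounds hp.1 p.2).1
  have h2 : en f p ≤ 4 := hp.2.2
  have h3 : -(1 / 100 : ℝ) ≤ f p.1 := (abs_le.1 (hf.fb _ hp.1)).1
  have h4 : 2 * f p.1 + 1 ≤ Real.exp (2 * f p.1) := Real.add_one_le_exp _
  have h5 : en f p = Real.exp (2 * f p.1) * g0 p.1 p.2 p.2 := rfl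
  have h6 : 0 ≤ g0 p.1 p.2 p.2 := (sq_nonneg _).trans h1
  have h7 : (49 / 50 : ℝ) * g0 p.1 p.2 p.2 ≤ 4 := by
    refine le_trans ?_ h2
    rw [h5]
    exact mul_le_mul_of_nonneg_right (by linarith) h6
  by_contra h
  push Not at h
  nlinarith

theorem compact_shell {f : EE → ℝ} (hf : Conf f) {c : ℝ} (hc : 0 < c) :
    IsCompact (shell f ∩ {p | c ≤ Dd p.1}) := by
  have hK : IsClosed {p : EE × EE | c ≤ Dd p.1} :=
    isClosed_le continuous_const (cont_Dd.comp continuous_fst)
  have hsub : {p : EE × EE | c ≤ Dd p.1} ⊆ OO := fun p hp => mem_OO.2 (mem_Bl_of hc hp)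
  have hcl : IsClosed ({p : EE × EE | c ≤ Dd p.1} ∩ en f ⁻¹' Icc 1 4) :=
    ((contOn_en hf).mono hsub).preimage_isClosed_of_isClosed hK isClosed_Icc
  have he : shell f ∩ {p | c ≤ Dd p.1} = {p : EE × EE | c ≤ Dd p.1} ∩ en f ⁻¹' Icc 1 4 := by
    rw [shell_eq]
    ext p
    constructor
    · rintro ⟨⟨_, h2⟩, h3⟩
      exact ⟨h3, h2⟩
    · rintro ⟨h1, h2⟩
      exact ⟨⟨hsub h1, h2⟩, h1⟩
  refine IsCompact.of_isClosed_subset
    ((isCompact_closedBall (0 : EE) 1).prod (isCompact_closedBall (0 : EE) 3)) (he ▸ hcl) ?_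
  rintro p ⟨hp, _⟩
  refine ⟨?_, ?_⟩
  · rw [mem_closedBall_zero_iff]
    exact (mem_Bl.1 hp.1).le
  · rw [mem_closedBall_zero_iff]
    exact norm_le_of_shell hf hp

theorem aemeas_rho {f : EE → ℝ} (hf : Conf f) {S : Set (EE × EE)} (hS : MeasurableSet S)
    (hSO : S ⊆ OO) : AEMeasurable (fun p => ENNReal.ofReal (rho f p))
      (((volume : Measure EE).prod (volume : Measure EE)).restrict S) :=
  (((contOn_rho hf).mono hSO).aemeasurable hS).ennreal_ofReal

theorem en_smul (f : EE → ℝ) (x v : EE) (c : ℝ) : en f (x, c • v) = c ^ 2 * en f (x, v) := by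
  simp only [en, map_smul, _root_.smul_apply, smul_eq_mul]
  ring

theorem en_pos (f : EE → ℝ) {p : EE × EE} (hp : p.1 ∈ Bl) (h0 : p.2 ≠ 0) : 0 < en f p := by
  have h1 := (g0_bounds hp p.2).1
  have h2 : 0 < ‖p.2‖ ^ 2 := pow_pos (norm_pos_iff.2 h0) 2
  exact mul_pos (Real.exp_pos _) (h2.trans_le h1)

theorem nrm_smul (f : EE → ℝ) (x v : EE) {c : ℝ} (hc : 0 < c) :
    nrm f (x, c • v) = nrm f (x, v) := by
  simp only [nrm, en_smul]
  rw [Real.sqrt_mul (sq_nonneg c), Real.sqrt_sq hc.le, smul_smul]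
  congr 2
  field_simp

/-- The fibre map as a complex linear map. -/
noncomputable def LC (x : EE) : EE →ₗ[ℂ] EE where
  toFun := L0 x
  map_add' := L0_add x
  map_smul' := L0_smul x

theorem normsq_c (x : EE) : ((‖x‖ ^ 2 : ℝ) : ℂ) =
    x 0 * (starRingEnd ℂ) (x 0) + x 1 * (starRingEnd ℂ) (x 1) := by
  rw [← ip_self, ip_coord]

theorem det_LC {x : EE} (hx : x ∈ Bl) :
    LinearMap.det (LC x) = ((Real.sqrt (Dd x) ^ 3 : ℝ) : ℂ) := by
  rw [← LinearMap.det_toMatrix (EuclideanSpace.basisFun (Fin 2) ℂ).toBasis, Matrix.det_fin_two]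
  have e : ∀ i k : Fin 2, LinearMap.toMatrix (EuclideanSpace.basisFun (Fin 2) ℂ).toBasis
      (EuclideanSpace.basisFun (Fin 2) ℂ).toBasis (LC x) i k =
      L0 x (EuclideanSpace.single k 1) i := by
    intro i k
    simp [LinearMap.toMatrix_apply, LC]
  simp only [e]
  have hs : 0 < Real.sqrt (Dd x) := Real.sqrt_pos.2 (Dd_pos hx)
  have hs2 : Real.sqrt (Dd x) ^ 2 = 1 - ‖x‖ ^ 2 := Real.sq_sqrt (Dd_pos hx).le
  have hs3 : ((Real.sqrt (Dd x) : ℝ) : ℂ) ^ 2 =
      1 - (x 0 * (starRingEnd ℂ) (x 0) + x 1 * (starRingEnd ℂ) (x 1)) := by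
    rw [← normsq_c, ← Complex.ofReal_pow, hs2]
    push_cast
    rfl
  have hne : (1 + ((Real.sqrt (Dd x) : ℝ) : ℂ)) ≠ 0 := by
    have : (0 : ℝ) < 1 + Real.sqrt (Dd x) := by linarith
    exact_mod_cast this.ne'
  simp only [L0, ip_coord, rsmul_eq]
  simp
  generalize ((Real.sqrt (Dd x) : ℝ) : ℂ) = s at *
  field_simp
  linear_combination (-(1 + s) * s ^ 2) * hs3

/-- The fibre map as a real continuous linear map. -/
noncomputable def AR (f : EE → ℝ) (x : EE) : EE →L[ℝ] EE :=
  LinearMap.toContinuousLinearMap (Real.exp (-f x) • (LC x).restrictScalars ℝ)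

theorem AR_apply (f : EE → ℝ) (x w : EE) : AR f x w = Real.exp (-f x) • L0 x w := rfl

theorem finrank_EE : Module.finrank ℝ EE = 4 := by
  rw [← Module.finrank_mul_finrank ℝ ℂ EE, Complex.finrank_real_complex,
    finrank_euclideanSpace_fin]

theorem det_AR (f : EE → ℝ) {x : EE} (hx : x ∈ Bl) :
    (AR f x).det = Real.exp (-f x) ^ 4 * Dd x ^ 3 := by
  have h1 : (AR f x).det = LinearMap.det (Real.exp (-f x) • (LC x).restrictScalars ℝ) := rfl
  rw [h1, LinearMap.det_smul, finrank_EE, LinearMap.det_restrictScalars,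
    Algebra.norm_complex_apply, det_LC hx, Complex.normSq_ofReal]
  congr 1
  have h2 : Real.sqrt (Dd x) ^ 2 = Dd x := Real.sq_sqrt (Dd_pos hx).le
  calc Real.sqrt (Dd x) ^ 3 * Real.sqrt (Dd x) ^ 3 = (Real.sqrt (Dd x) ^ 2) ^ 3 := by ring
    _ = Dd x ^ 3 := by rw [h2]

theorem AR_inj (f : EE → ℝ) {x : EE} (hx : x ∈ Bl) : Function.Injective (AR f x) := by
  intro w w' h
  rw [AR_apply, AR_apply] at h
  have h2 := smul_right_injective EE (Real.exp_pos (-f x)).ne' h
  rw [← Linv0_L0 hx w, ← Linv0_L0 hx w', h2]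

theorem AR_surj (f : EE → ℝ) {x : EE} (hx : x ∈ Bl) : Function.Surjective (AR f x) := by
  intro v
  refine ⟨Real.exp (f x) • Linv0 x v, ?_⟩
  rw [map_smul, AR_apply, L0_Linv0 hx, smul_smul, ← Real.exp_add, add_neg_cancel, Real.exp_zero,
    one_smul]

theorem integral_AR (f : EE → ℝ) {x : EE} (hx : x ∈ Bl) (g : EE → ℝ) :
    ∫ v, g v = ∫ w, (Real.exp (-f x) ^ 4 * Dd x ^ 3) * g (AR f x w) := by
  have h := integral_image_eq_integral_abs_det_fderiv_smul (volume : Measure EE)
    (s := univ) (f := AR f x) (f' := fun _ => AR f x) MeasurableSet.univ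
    (fun y _ => (AR f x).hasFDerivAt.hasFDerivWithinAt) (AR_inj f hx).injOn g
  rw [image_univ, (AR_surj f hx).range_eq, Measure.restrict_univ, det_AR f hx,
    abs_of_pos (mul_pos (pow_pos (Real.exp_pos _) 4) (pow_pos (Dd_pos hx) 3))] at h
  simpa only [smul_eq_mul] using h

theorem en_AR (f : EE → ℝ) {x : EE} (hx : x ∈ Bl) (w : EE) : en f (x, AR f x w) = ‖w‖ ^ 2 := by
  rw [AR_apply, en_smul]
  have h : en f (x, L0 x w) = Real.exp (2 * f x) * ‖w‖ ^ 2 := by
    have h1 : en f (x, L0 x w) = Real.exp (2 * f x) * (hh x (L0 x w) (L0 x w)).re := rfl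
    rw [h1, hh_L0 hx, ip_self, Complex.ofReal_re]
  rw [h, ← mul_assoc, ← Real.exp_nat_mul, ← Real.exp_add]
  simp

theorem nrm_AR (f : EE → ℝ) {x : EE} (hx : x ∈ Bl) (w : EE) :
    nrm f (x, AR f x w) = (x, Real.exp (-f x) • L0 x (‖w‖⁻¹ • w)) := by
  simp only [nrm, en_AR f hx]
  rw [Real.sqrt_sq (norm_nonneg w), ← AR_apply, map_smul]

/-- The Euclidean shell. -/
def Sh : Set EE := {w | 1 ≤ ‖w‖ ∧ ‖w‖ ≤ 2}

theorem closed_Sh : IsClosed Sh :=
  (isClosed_le continuous_const continuous_norm).inter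
    (isClosed_le continuous_norm continuous_const)

theorem compact_Sh : IsCompact Sh :=
  IsCompact.of_isClosed_subset (isCompact_closedBall (0 : EE) 2) closed_Sh fun _ hw =>
    mem_closedBall_zero_iff.2 hw.2

theorem vol_Sh_pos : 0 < (volume : Measure EE).real Sh := by
  refine ENNReal.toReal_pos ?_ compact_Sh.measure_lt_top.ne
  have ho : IsOpen {w : EE | 1 < ‖w‖ ∧ ‖w‖ < 2} :=
    (isOpen_lt continuous_const continuous_norm).inter
      (isOpen_lt continuous_norm continuous_const)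
  have hne : ({w : EE | 1 < ‖w‖ ∧ ‖w‖ < 2}).Nonempty := by
    refine ⟨EuclideanSpace.single 0 ((3 / 2 : ℝ) : ℂ), ?_⟩
    simp only [mem_ofPred_eq, PiLp.norm_single, Complex.norm_real]
    norm_num
  have hsub : {w : EE | 1 < ‖w‖ ∧ ‖w‖ < 2} ⊆ Sh := fun w hw => ⟨hw.1.le, hw.2.le⟩
  exact ((ho.measure_pos volume hne).trans_le (measure_mono hsub)).ne'

theorem mem_shell_AR (f : EE → ℝ) {x : EE} (hx : x ∈ Bl) (w : EE) :
    (x, AR f x w) ∈ shell f ↔ w ∈ Sh := by
  simp only [shell, mem_ofPred_eq, en_AR f hx, Sh]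
  have := norm_nonneg w
  constructor
  · rintro ⟨_, h1, h2⟩
    constructor
    · by_contra h
      push Not at h
      nlinarith
    · by_contra h
      push Not at h
      nlinarith
  · rintro ⟨h1, h2⟩
    exact ⟨hx, by nlinarith, by nlinarith⟩

theorem cont_L0 : Continuous fun q : EE × EE => L0 q.1 q.2 := by
  have h1 : Continuous fun q : EE × EE => Real.sqrt (Dd q.1) :=
    Real.continuous_sqrt.comp (cont_Dd.comp continuous_fst)
  have h2 : Continuous fun q : EE × EE => ip q.2 q.1 := by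
    unfold ip
    exact continuous_fst.inner continuous_snd
  have h3 : Continuous fun q : EE × EE => ip q.2 q.1 / ((1 + Real.sqrt (Dd q.1) : ℝ) : ℂ) := by
    refine h2.div (Complex.continuous_ofReal.comp (continuous_const.add h1)) fun q => ?_
    have : (0 : ℝ) < 1 + Real.sqrt (Dd q.1) := by positivity
    exact_mod_cast this.ne'
  exact h1.smul (continuous_snd.sub (h3.smul continuous_fst))

theorem contOn_nrm {f : EE → ℝ} (hf : Conf f) : ContinuousOn (nrm f) (shell f) := by
  have h1 : ContinuousOn (fun p => (Real.sqrt (en f p))⁻¹) (shell f) := by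
    refine ContinuousOn.inv₀ ((contOn_en hf).mono (shell_sub f)).sqrt fun p hp => ?_
    exact (Real.sqrt_pos.2 (lt_of_lt_of_le one_pos hp.2.1)).ne'
  exact continuous_fst.continuousOn.prodMk (h1.smul continuous_snd.continuousOn)

end Fib

open Fib

theorem liou_compact {f : EE → ℝ} (hf : Conf f) (c : ℝ) (hc : 0 < c) :
    MeasurableSet (shell f) ∧ IsCompact (shell f ∩ {p | c ≤ Dd p.1}) ∧
      liou f (shell f) (shell f ∩ {p | c ≤ Dd p.1}) < ⊤ := by
  have hK := compact_shell hf hc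
  refine ⟨meas_shell hf, hK, ?_⟩
  unfold liou
  rw [withDensity_apply _ hK.measurableSet, Measure.restrict_restrict hK.measurableSet,
    inter_eq_left.2 inter_subset_left]
  have hi : IntegrableOn (rho f) (shell f ∩ {p | c ≤ Dd p.1})
      ((volume : Measure EE).prod (volume : Measure EE)) :=
    ((contOn_rho hf).mono (inter_subset_left.trans (shell_sub f))).integrableOn_compact hK
  exact hi.lintegral_lt_top

theorem ae_liou_iff {f : EE → ℝ} (hf : Conf f) {S : Set (EE × EE)} (hS : MeasurableSet S)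
    (hSO : S ⊆ OO) (P : EE × EE → Prop) :
    (∀ᵐ p ∂(liou f S), P p) ↔ ∀ᵐ p : EE × EE, p ∈ S → P p := by
  unfold liou
  rw [ae_withDensity_iff' (aemeas_rho hf hS hSO), ae_restrict_iff' hS]
  refine eventually_congr (Eventually.of_forall fun p => ?_)
  constructor
  · intro h hp
    exact h hp (ENNReal.ofReal_pos.2 (rho_pos f (mem_OO.1 (hSO hp)))).ne'
  · intro h hp _
    exact h hp

theorem ae_scale {f : EE → ℝ} (hf : Conf f) (P : EE × EE → Prop)
    (h : ∀ᵐ p : EE × EE, p ∈ shell f → P (nrm f p)) :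
    ∀ᵐ p : EE × EE, p.1 ∈ Bl → p.2 ≠ 0 → P (nrm f p) := by
  have _ := hf
  have hq : ∀ k : ℤ, ∀ᵐ p : EE × EE, (p.1, ((2 : ℝ) ^ k) • p.2) ∈ shell f →
      P (nrm f (p.1, ((2 : ℝ) ^ k) • p.2)) := by
    intro k
    have h1 : Measure.QuasiMeasurePreserving (Prod.map id fun v : EE => ((2 : ℝ) ^ k) • v)
        ((volume : Measure EE).prod (volume : Measure EE))
        ((volume : Measure EE).prod (volume : Measure EE)) :=
      MeasureTheory.QuasiMeasurePreserving.prodMap (Measure.QuasiMeasurePreserving.id _)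
        (Measure.quasiMeasurePreserving_smul volume (zpow_ne_zero k two_ne_zero))
    exact h1.ae h
  filter_upwards [ae_all_iff.2 hq] with p hp hB h0
  obtain ⟨n, hn1, hn2⟩ := exists_mem_Ico_zpow (en_pos f hB h0) (show (1 : ℝ) < 4 by norm_num)
  have hc : (0 : ℝ) < 2 ^ (-n) := zpow_pos two_pos _
  have h4 : (0 : ℝ) < 4 ^ n := zpow_pos (by norm_num) _
  have he : ((2 : ℝ) ^ (-n)) ^ 2 = ((4 : ℝ) ^ n)⁻¹ := by
    rw [_root_.zpow_neg, inv_pow, show (4 : ℝ) = 2 * 2 by norm_num, mul_zpow, sq]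
  have := hp (-n) ⟨hB, ?_, ?_⟩
  · rwa [nrm_smul f p.1 p.2 hc] at this
  · rw [en_smul, he, inv_mul_eq_div, le_div_iff₀ h4, one_mul]
    exact hn1
  · rw [en_smul, he, inv_mul_eq_div, div_le_iff₀ h4]
    rw [zpow_add_one₀ (by norm_num), mul_comm] at hn2
    exact hn2.le

theorem fibre_pos {f : EE → ℝ} (hf : Conf f) (Φ : EE × EE → ℝ) (hΦ : ContinuousOn Φ OO)
    (r c : ℝ) (hr : r ≤ 1 / 2) (hc : 0 < c)
    (h : ∀ w : EE, ‖w‖ = 1 → c ≤ ∫ x in Metric.ball (0 : EE) r,
      Φ (x, Real.exp (-f x) • L0 x w) * (Real.exp (4 * f x) / Dd x ^ 3)) :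
    Integrable ((shell f ∩ {p | ‖p.1‖ < r}).indicator
      fun p => Real.sqrt (en f p) * Φ (nrm f p)) (liou f (shell f)) ∧
    0 < ∫ p, (shell f ∩ {p | ‖p.1‖ < r}).indicator
      (fun p => Real.sqrt (en f p) * Φ (nrm f p)) p ∂(liou f (shell f)) := by
  set T : Set (EE × EE) := shell f ∩ {p | ‖p.1‖ < r} with hT
  set G : EE × EE → ℝ := fun p => Real.sqrt (en f p) * Φ (nrm f p) with hG
  have hSm := meas_shell hf
  have hTm : MeasurableSet T :=
    hSm.inter (isOpen_lt (continuous_norm.comp continuous_fst) continuous_const).measurableSet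
  have hK := compact_shell hf (show (0 : ℝ) < 3 / 4 by norm_num)
  have hTK : T ⊆ shell f ∩ {p | 3 / 4 ≤ Dd p.1} := by
    rintro p ⟨h1, h2⟩
    refine ⟨h1, ?_⟩
    have h3 : ‖p.1‖ < 1 / 2 := lt_of_lt_of_le h2 hr
    have h4 := norm_nonneg p.1
    simp only [mem_ofPred_eq, Dd]
    nlinarith
  have hGc : ContinuousOn G (shell f) := by
    refine ((contOn_en hf).mono (shell_sub f)).sqrt.mul ?_
    exact hΦ.comp (contOn_nrm hf) fun p hp => mem_OO.2 hp.1
  have hHc : ContinuousOn (fun p => rho f p * G p) (shell f) :=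
    ((contOn_rho hf).mono (shell_sub f)).mul hGc
  have hHi : IntegrableOn (fun p => rho f p * G p) T
      ((volume : Measure EE).prod (volume : Measure EE)) :=
    ((hHc.mono inter_subset_left).integrableOn_compact hK).mono_set hTK
  have hHi' : Integrable (T.indicator fun p => rho f p * G p)
      ((volume : Measure EE).prod (volume : Measure EE)) :=
    (integrable_indicator_iff hTm).2 hHi
  have hfun : (fun p => (ENNReal.ofReal (rho f p)).toReal • T.indicator G p) =
      T.indicator fun p => rho f p * G p := by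
    funext p
    by_cases hp : p ∈ T
    · rw [indicator_of_mem hp, indicator_of_mem hp,
        ENNReal.toReal_ofReal (rho_pos f hp.1.1).le, smul_eq_mul]
    · rw [indicator_of_notMem hp, indicator_of_notMem hp, smul_zero]
  have hlt : ∀ᵐ p ∂(((volume : Measure EE).prod (volume : Measure EE)).restrict (shell f)),
      ENNReal.ofReal (rho f p) < ⊤ := Eventually.of_forall fun _ => ENNReal.ofReal_lt_top
  have ham := aemeas_rho hf hSm (shell_sub f)
  constructor
  · unfold liou
    rw [integrable_withDensity_iff_integrable_smul₀' ham hlt, hfun]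
    exact hHi'.restrict
  unfold liou
  rw [integral_withDensity_eq_integral_toReal_smul₀ ham hlt, hfun,
    setIntegral_eq_integral_of_forall_compl_eq_zero
      (fun p hp => indicator_of_notMem (fun h' => hp h'.1) _),
    integral_prod _ hHi']
  set Ψ : EE → EE → ℝ := fun x w => ‖w‖ * (Φ (x, Real.exp (-f x) • L0 x (‖w‖⁻¹ • w)) *
    (Real.exp (4 * f x) / Dd x ^ 3)) with hΨ
  have hball : ∀ x : EE, ‖x‖ ≤ 1 / 2 → x ∈ Bl := fun x hx => mem_Bl.2 (by linarith)
  have hinner : (fun x : EE => ∫ v, T.indicator (fun p => rho f p * G p) (x, v)) =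
      (Metric.ball (0 : EE) r).indicator fun x => ∫ w in Sh, Ψ x w := by
    funext x
    by_cases hx : x ∈ Metric.ball (0 : EE) r
    · have hx' : ‖x‖ < r := mem_ball_zero_iff.1 hx
      have hB : x ∈ Bl := hball x (hx'.le.trans hr)
      rw [indicator_of_mem hx, integral_AR f hB, ← integral_indicator closed_Sh.measurableSet]
      congr 1
      funext w
      by_cases hw : w ∈ Sh
      · have hm : (x, AR f x w) ∈ T := ⟨(mem_shell_AR f hB w).2 hw, hx'⟩
        rw [indicator_of_mem hm, indicator_of_mem hw]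
        simp only [hG, hΨ, en_AR f hB, nrm_AR f hB, Real.sqrt_sq (norm_nonneg w), rho]
        have hD := (Dd_pos hB).ne'
        have e1 : Real.exp (8 * f x) = Real.exp (4 * f x) * Real.exp (f x) ^ 4 := by
          rw [← Real.exp_nat_mul, ← Real.exp_add]
          congr 1
          push_cast
          ring
        have e2 := (Real.exp_pos (f x)).ne'
        rw [e1, Real.exp_neg]
        field_simp
      · have hm : (x, AR f x w) ∉ T := fun h' => hw ((mem_shell_AR f hB w).1 h'.1)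
        rw [indicator_of_notMem hm, indicator_of_notMem hw, mul_zero]
    · rw [indicator_of_notMem hx]
      have : ∀ v : EE, T.indicator (fun p => rho f p * G p) (x, v) = 0 := fun v =>
        indicator_of_notMem (fun h' => hx (mem_ball_zero_iff.2 h'.2)) _
      simp only [this, integral_zero]
  rw [hinner, integral_indicator Metric.isOpen_ball.measurableSet]
  have hΨc : ContinuousOn (Function.uncurry Ψ) (Metric.closedBall (0 : EE) (1 / 2) ×ˢ Sh) := by
    have hB : ∀ q ∈ Metric.closedBall (0 : EE) (1 / 2) ×ˢ Sh, q.1 ∈ Bl := fun q hq =>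
      hball _ (mem_closedBall_zero_iff.1 hq.1)
    have h1 : ContinuousOn (fun q : EE × EE => f q.1)
        (Metric.closedBall (0 : EE) (1 / 2) ×ˢ Sh) :=
      (contOn_f hf).comp continuous_fst.continuousOn hB
    have h2 : ContinuousOn (fun q : EE × EE => ‖q.2‖⁻¹ • q.2)
        (Metric.closedBall (0 : EE) (1 / 2) ×ˢ Sh) := by
      refine ContinuousOn.smul (ContinuousOn.inv₀ continuous_snd.norm.continuousOn ?_)
        continuous_snd.continuousOn
      exact fun q hq => (lt_of_lt_of_le one_pos hq.2.1).ne'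
    have h3 : ContinuousOn (fun q : EE × EE => L0 q.1 (‖q.2‖⁻¹ • q.2))
        (Metric.closedBall (0 : EE) (1 / 2) ×ˢ Sh) :=
      cont_L0.comp_continuousOn (continuous_fst.continuousOn.prodMk h2)
    have h4 : ContinuousOn (fun q : EE × EE => (q.1, Real.exp (-f q.1) • L0 q.1 (‖q.2‖⁻¹ • q.2)))
        (Metric.closedBall (0 : EE) (1 / 2) ×ˢ Sh) :=
      continuous_fst.continuousOn.prodMk
        ((Real.continuous_exp.comp_continuousOn h1.neg).smul h3)
    have h5 := hΦ.comp h4 fun q hq => mem_OO.2 (hB q hq)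
    refine continuous_snd.norm.continuousOn.mul (ContinuousOn.mul h5 (ContinuousOn.div ?_ ?_ ?_))
    · exact Real.continuous_exp.comp_continuousOn (continuousOn_const.mul h1)
    · exact ((cont_Dd.comp continuous_fst).pow 3).continuousOn
    · exact fun q hq => pow_ne_zero _ (Dd_pos (hB q hq)).ne'
  have hΨi : Integrable (Function.uncurry Ψ)
      (((volume : Measure EE).restrict (Metric.ball (0 : EE) r)).prod
        ((volume : Measure EE).restrict Sh)) := by
    rw [Measure.prod_restrict]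
    refine (hΨc.integrableOn_compact ((isCompact_closedBall _ _).prod compact_Sh)).mono_set ?_
    exact prod_mono (Metric.ball_subset_closedBall.trans (Metric.closedBall_subset_closedBall hr))
      subset_rfl
  rw [integral_integral_swap hΨi]
  refine lt_of_lt_of_le (mul_pos hc vol_Sh_pos) (setIntegral_ge_of_const_le_real
    closed_Sh.measurableSet compact_Sh.measure_lt_top.ne ?_ hΨi.integral_prod_right)
  intro w hw
  have hw0 : 0 < ‖w‖ := lt_of_lt_of_le one_pos hw.1
  have h1 := h (‖w‖⁻¹ • w) (by rw [norm_smul, norm_inv, norm_norm, inv_mul_cancel₀ hw0.ne'])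
  simp only [hΨ]
  rw [integral_const_mul]
  calc c = 1 * c := (one_mul c).symm
    _ ≤ _ := mul_le_mul hw.1 h1 hc.le hw0.le

end Pool.Agent.MP_019006_gt
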