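import Pool.Agent.MP_019006_gt.Basic

set_option autoImplicit false

open MeasureTheory Filter Topology Set Matrix

namespace Pool.Agent.MP_019006_gt

theorem isOpen_Bl : IsOpen Bl := Metric.isOpen_ball

theorem isOpen_OO : IsOpen OO := isOpen_Bl.prod isOpen_univ

theorem mem_OO {p : EE × EE} : p ∈ OO ↔ p.1 ∈ Bl := by simp [OO]

theorem mem_Bl {x : EE} : x ∈ Bl ↔ ‖x‖ < 1 := by simp [Bl]

theorem Dd_pos {x : EE} (hx : x ∈ Bl) : 0 < Dd x := by
  have := mem_Bl.1 hx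
  have h0 := norm_nonneg x
  unfold Dd
  nlinarith

theorem Dd_le_one (x : EE) : Dd x ≤ 1 := by
  unfold Dd
  nlinarith [sq_nonneg ‖x‖]

theorem ip_conj (u w : EE) : (starRingEnd ℂ) (ip u w) = ip w u := inner_conj_symm _ _

theorem ip_self (u : EE) : ip u u = ((‖u‖ ^ 2 : ℝ) : ℂ) := by
  rw [ip, inner_self_eq_norm_sq_to_K]
  simp

theorem ip_coord (u w : EE) :
    ip u w = u 0 * (starRingEnd ℂ) (w 0) + u 1 * (starRingEnd ℂ) (w 1) := by
  simp [ip, PiLp.inner_apply, Fin.sum_univ_two]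

theorem ip_re (u w : EE) : (ip u w).re = inner ℝ u w := by
  rw [ip_coord]
  simp only [PiLp.inner_apply, Fin.sum_univ_two, Complex.inner, Complex.add_re, Complex.mul_re,
    Complex.conj_re, Complex.conj_im]
  ring

theorem norm_ip_le (u w : EE) : ‖ip u w‖ ≤ ‖u‖ * ‖w‖ := by
  rw [ip, mul_comm]
  exact norm_inner_le_norm _ _

theorem hh_conj (x u w : EE) : (starRingEnd ℂ) (hh x u w) = hh x w u := by
  simp only [hh, map_add, map_div₀, map_mul, map_pow, ip_conj, Complex.conj_ofReal]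
  ring

theorem g0_symm (x u w : EE) : g0 x u w = g0 x w u := by
  rw [g0, g0, ← hh_conj x u w, Complex.conj_re]

theorem gg_symm (f : EE → ℝ) (x u w : EE) : gg f x u w = gg f x w u := by
  rw [gg_apply, gg_apply, g0_symm]

theorem Metric1.hh_self' (x u : EE) :
    hh x u u = ((‖u‖ ^ 2 / Dd x + ‖ip u x‖ ^ 2 / Dd x ^ 2 : ℝ) : ℂ) := by
  rw [hh, ip_self, ← ip_conj u x, Complex.mul_conj, Complex.normSq_eq_norm_sq]
  push_cast
  ring

theorem g0_self (x u : EE) : g0 x u u = ‖u‖ ^ 2 / Dd x + ‖ip u x‖ ^ 2 / Dd x ^ 2 := by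
  rw [g0, Metric1.hh_self', Complex.ofReal_re]

theorem hh_self (x u : EE) : hh x u u = (g0 x u u : ℂ) := by
  rw [g0_self, Metric1.hh_self']

theorem g0_bounds {x : EE} (hx : x ∈ Bl) (u : EE) :
    ‖u‖ ^ 2 ≤ g0 x u u ∧ ‖u‖ ^ 2 / Dd x ≤ g0 x u u ∧ g0 x u u ≤ ‖u‖ ^ 2 / Dd x ^ 2 := by
  have hD := Dd_pos hx
  have hD1 := Dd_le_one x
  have h1 : ‖u‖ ^ 2 / Dd x ≤ g0 x u u := by
    rw [g0_self]
    exact le_add_of_nonneg_right (by positivity)
  refine ⟨le_trans ?_ h1, h1, ?_⟩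
  · rw [le_div_iff₀ hD]
    nlinarith [sq_nonneg ‖u‖]
  · rw [g0_self]
    have h2 : ‖ip u x‖ ^ 2 ≤ (‖u‖ * ‖x‖) ^ 2 := by gcongr; exact norm_ip_le u x
    have h3 : ‖u‖ ^ 2 / Dd x + (‖u‖ * ‖x‖) ^ 2 / Dd x ^ 2 = ‖u‖ ^ 2 / Dd x ^ 2 := by
      field_simp
      unfold Dd
      ring
    rw [← h3]
    gcongr

theorem g0_I_I (x u w : EE) : g0 x (Complex.I • u) (Complex.I • w) = g0 x u w := by
  rw [g0, g0, hh_smul_left, hh_smul_right, Complex.conj_I, ← mul_assoc]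
  simp

theorem g0_I_self (x u : EE) : g0 x (Complex.I • u) u = 0 := by
  rw [g0, hh_smul_left, hh_self]
  simp

theorem fderiv_eq_re_ip (f : EE → ℝ) (x w : EE) :
    fderiv ℝ f x w = (ip (gradient f x) w).re := by
  rw [ip_re, gradient, InnerProductSpace.toDual_symm_apply]

theorem Metric1.ip_xx (x : EE) : ip x x = 1 - (Dd x : ℂ) := by
  rw [ip_self, Dd]
  push_cast
  ring

theorem hh_NN (f : EE → ℝ) {x : EE} (hx : x ∈ Bl) (w : EE) :
    hh x (NN f x) w = ip (gradient f x) w := by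
  have hD : (Dd x : ℂ) ≠ 0 := by exact_mod_cast (Dd_pos hx).ne'
  simp only [hh, NN, ip_rsmul_left, ip_sub_left, ip_smul_left, Metric1.ip_xx]
  field_simp
  ring

theorem g0_NN (f : EE → ℝ) {x : EE} (hx : x ∈ Bl) (w : EE) :
    g0 x (NN f x) w = fderiv ℝ f x w := by
  rw [g0, hh_NN f hx, fderiv_eq_re_ip]

theorem Gam_symm (f : EE → ℝ) (x u w : EE) : Gam f x u w = Gam f x w u := by
  simp only [Gam, Gam0, g0_symm x u w]
  abel

theorem Metric1.sqrt_facts {x : EE} (hx : x ∈ Bl) :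
    ((Real.sqrt (Dd x) : ℝ) : ℂ) ≠ 0 ∧ (1 + ((Real.sqrt (Dd x) : ℝ) : ℂ)) ≠ 0 ∧
      (Dd x : ℂ) = ((Real.sqrt (Dd x) : ℝ) : ℂ) ^ 2 := by
  have hD := Dd_pos hx
  have hs : 0 < Real.sqrt (Dd x) := Real.sqrt_pos.2 hD
  refine ⟨by exact_mod_cast hs.ne', ?_, ?_⟩
  · have : (1 + Real.sqrt (Dd x)) ≠ 0 := by positivity
    exact_mod_cast this
  · rw [← Complex.ofReal_pow, Real.sq_sqrt hD.le]

theorem hh_L0 {x : EE} (hx : x ∈ Bl) (w w' : EE) : hh x (L0 x w) (L0 x w') = ip w w' := by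
  obtain ⟨h1, h2, h3⟩ := Metric1.sqrt_facts hx
  simp only [hh, L0, ip_rsmul_left, ip_rsmul_right, ip_sub_left, ip_sub_right, ip_smul_left,
    ip_smul_right, Metric1.ip_xx, map_div₀, ip_conj, Complex.conj_ofReal]
  push_cast
  rw [h3]
  generalize ((Real.sqrt (Dd x) : ℝ) : ℂ) = s at h1 h2 ⊢
  field_simp
  ring

theorem L0_Linv0 {x : EE} (hx : x ∈ Bl) (v : EE) : L0 x (Linv0 x v) = v := by
  obtain ⟨h1, h2, h3⟩ := Metric1.sqrt_facts hx
  simp only [L0, Linv0, ip_rsmul_left, ip_add_left, ip_smul_left, Metric1.ip_xx]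
  simp only [rsmul_eq]
  push_cast
  rw [h3]
  generalize ((Real.sqrt (Dd x) : ℝ) : ℂ) = s at h1 h2 ⊢
  match_scalars
  · field_simp
  · field_simp
    ring

theorem Linv0_L0 {x : EE} (hx : x ∈ Bl) (w : EE) : Linv0 x (L0 x w) = w := by
  obtain ⟨h1, h2, h3⟩ := Metric1.sqrt_facts hx
  simp only [L0, Linv0, ip_rsmul_left, ip_sub_left, ip_smul_left, Metric1.ip_xx]
  simp only [rsmul_eq]
  push_cast
  rw [h3]
  generalize ((Real.sqrt (Dd x) : ℝ) : ℂ) = s at h1 h2 ⊢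
  match_scalars
  · field_simp
  · field_simp
    ring

theorem L0_add (x w w' : EE) : L0 x (w + w') = L0 x w + L0 x w' := by
  simp only [L0, ip_add_left, add_div, add_smul, smul_sub, smul_add]
  abel

theorem L0_smul (x : EE) (c : ℂ) (w : EE) : L0 x (c • w) = c • L0 x w := by
  simp only [L0, ip_smul_left, rsmul_eq]
  module

theorem Linv0_smul (x : EE) (c : ℂ) (w : EE) : Linv0 x (c • w) = c • Linv0 x w := by
  simp only [Linv0, ip_smul_left, rsmul_eq]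
  module

theorem norm_hh_sq_le {x : EE} (hx : x ∈ Bl) (u w : EE) :
    ‖hh x u w‖ ^ 2 ≤ g0 x u u * g0 x w w := by
  have h : ∀ a b, hh x a b = ip (Linv0 x a) (Linv0 x b) := fun a b => by
    rw [← hh_L0 hx, L0_Linv0 hx, L0_Linv0 hx]
  rw [g0, g0, h, h, h, ip_self, ip_self, Complex.ofReal_re, Complex.ofReal_re, ← mul_pow]
  gcongr
  exact norm_ip_le _ _

theorem Metric1.ip_perp_perp (w : EE) : ip (perp w) (perp w) = ip w w := by
  simp only [ip_coord, perp]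
  simp
  ring

theorem norm_perp (w : EE) : ‖perp w‖ = ‖w‖ := by
  have h := Metric1.ip_perp_perp w
  rw [ip_self, ip_self] at h
  have h2 : ‖perp w‖ ^ 2 = ‖w‖ ^ 2 := by exact_mod_cast h
  exact (pow_left_inj₀ (norm_nonneg _) (norm_nonneg _) two_ne_zero).1 h2

theorem ip_perp (w : EE) : ip (perp w) w = 0 := by
  simp only [ip_coord, perp]
  simp
  ring

theorem hh_frame {p : EE × EE} (hp : p.1 ∈ Bl) :
    hh p.1 (frame p 1) p.2 = 0 ∧ hh p.1 (frame p 1) (frame p 1) = hh p.1 p.2 p.2 := by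
  have e : frame p 1 = L0 p.1 (perp (Linv0 p.1 p.2)) := rfl
  constructor
  · conv_lhs => rw [e, ← L0_Linv0 hp p.2, Linv0_L0 hp, hh_L0 hp]
    exact ip_perp _
  · rw [e, hh_L0 hp, Metric1.ip_perp_perp, ← hh_L0 hp, L0_Linv0 hp]

theorem frame_orth {f : EE → ℝ} {p : EE × EE} (hp : p.1 ∈ Bl) (h1 : en f p = 1) (i j : Fin 3) :
    gg f p.1 (frame p i) (frame p j) = (1 : M3) i j ∧ gg f p.1 (frame p i) p.2 = 0 := by
  obtain ⟨a1, a2⟩ := hh_frame hp
  have a3 : hh p.1 p.2 (frame p 1) = 0 := by rw [← hh_conj, a1, map_zero]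
  have e0 : frame p 0 = Complex.I • p.2 := rfl
  have e2 : frame p 2 = Complex.I • frame p 1 := rfl
  have h2 : Real.exp (2 * f p.1) * g0 p.1 p.2 p.2 = 1 := h1
  obtain ⟨c, hc, h3⟩ : ∃ c : ℝ, Real.exp (2 * f p.1) * c = 1 ∧ hh p.1 p.2 p.2 = (c : ℂ) :=
    ⟨_, h2, hh_self p.1 p.2⟩
  rw [h3] at a2
  fin_cases i <;> fin_cases j <;>
    simp [gg_apply, g0, e0, e2, hh_smul_left, hh_smul_right, a1, a2, a3, h3, ← mul_assoc, hc]

theorem Metric1.span (w y : EE) :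
    ((‖w‖ ^ 2 : ℝ) : ℂ) • y = ip y w • w + ip y (perp w) • perp w := by
  rw [← ip_self]
  ext i
  fin_cases i <;> simp [ip_coord, perp] <;> ring

theorem frame_span {f : EE → ℝ} {p : EE × EE} (hp : p.1 ∈ Bl) (h1 : en f p = 1) (y : EE) :
    y = gg f p.1 y p.2 • p.2 + ∑ i, gg f p.1 y (frame p i) • frame p i := by
  set w := Linv0 p.1 p.2 with hw
  set z := Linv0 p.1 y with hz
  have e0 : frame p 0 = Complex.I • p.2 := rfl
  have e1 : frame p 1 = L0 p.1 (perp w) := rfl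
  have e2 : frame p 2 = Complex.I • frame p 1 := rfl
  have b1 : hh p.1 y p.2 = ip z w := by rw [← hh_L0 hp, L0_Linv0 hp, L0_Linv0 hp]
  have b2 : hh p.1 y (frame p 1) = ip z (perp w) := by rw [← hh_L0 hp, L0_Linv0 hp, e1]
  have b3 : g0 p.1 p.2 p.2 = ‖w‖ ^ 2 := by
    rw [g0, ← L0_Linv0 hp p.2, hh_L0 hp, ip_self, Complex.ofReal_re]
  have h2 : Real.exp (2 * f p.1) * ‖w‖ ^ 2 = 1 := by rw [← b3]; exact h1
  have h3 := congrArg (L0 p.1) (Metric1.span w z)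
  rw [L0_smul, L0_add, L0_smul, L0_smul, L0_Linv0 hp, L0_Linv0 hp, ← e1] at h3
  have h4 : ((Real.exp (2 * f p.1) : ℝ) : ℂ) * ((‖w‖ ^ 2 : ℝ) : ℂ) = 1 := by exact_mod_cast h2
  have h5 : y = ((Real.exp (2 * f p.1) : ℝ) : ℂ) • (ip z w • p.2 + ip z (perp w) • frame p 1) := by
    rw [← h3, smul_smul, h4, one_smul]
  rw [Fin.sum_univ_three, e0, e2]
  simp only [gg_apply, g0, hh_smul_right, b1, b2, rsmul_eq, Complex.conj_I]
  conv_lhs => rw [h5]
  generalize ip z w = α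
  generalize ip z (perp w) = β
  generalize Real.exp (2 * f p.1) = c
  match_scalars
  · apply Complex.ext <;> simp
  · apply Complex.ext <;> simp

end Pool.Agent.MP_019006_gt
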