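import Pool.Agent.MP_019006_gt.Metric1

set_option autoImplicit false

open MeasureTheory Filter Topology Set Matrix

namespace Pool.Agent.MP_019006_gt

section smooth

variable {F : Type} [NormedAddCommGroup F] [NormedSpace ℝ F] {s : Set F} {n : ℕ}

theorem Metric2.c_ip {a b : F → EE} (ha : ContDiffOn ℝ n a s) (hb : ContDiffOn ℝ n b s) :
    ContDiffOn ℝ n (fun y => ip (a y) (b y)) s := hb.inner ℂ ha

theorem Metric2.Dd_eq (x : EE) : (Dd x : ℂ) = 1 - ip x x := by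
  rw [Metric1.ip_xx]
  ring

theorem Metric2.c_Dd {x : F → EE} (hx : ContDiffOn ℝ n x s) :
    ContDiffOn ℝ n (fun y => Dd (x y)) s :=
  contDiffOn_const.sub (hx.norm_sq ℂ)

theorem Metric2.c_ofReal {a : F → ℝ} (ha : ContDiffOn ℝ n a s) :
    ContDiffOn ℝ n (fun y => ((a y : ℝ) : ℂ)) s :=
  Complex.ofRealCLM.contDiff.comp_contDiffOn ha

theorem Metric2.c_div {a b : F → ℂ} (ha : ContDiffOn ℝ n a s) (hb : ContDiffOn ℝ n b s)
    (h0 : ∀ y ∈ s, b y ≠ 0) : ContDiffOn ℝ n (fun y => a y / b y) s := by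
  simp only [div_eq_mul_inv]
  exact ha.mul (hb.inv h0)

theorem Metric2.Dd_ne {x : EE} (hx : x ∈ Bl) : (Dd x : ℂ) ≠ 0 := by
  exact_mod_cast (Dd_pos hx).ne'

theorem Metric2.c_al {x a : F → EE} (hm : ∀ y ∈ s, x y ∈ Bl) (hx : ContDiffOn ℝ n x s)
    (ha : ContDiffOn ℝ n a s) : ContDiffOn ℝ n (fun y => al (x y) (a y)) s :=
  Metric2.c_div (Metric2.c_ip ha hx) (Metric2.c_ofReal (Metric2.c_Dd hx))
    fun y hy => Metric2.Dd_ne (hm y hy)

theorem Metric2.c_hh {x a b : F → EE} (hm : ∀ y ∈ s, x y ∈ Bl) (hx : ContDiffOn ℝ n x s)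
    (ha : ContDiffOn ℝ n a s) (hb : ContDiffOn ℝ n b s) :
    ContDiffOn ℝ n (fun y => hh (x y) (a y) (b y)) s :=
  (Metric2.c_div (Metric2.c_ip ha hb) (Metric2.c_ofReal (Metric2.c_Dd hx))
    fun y hy => Metric2.Dd_ne (hm y hy)).add
    (Metric2.c_div ((Metric2.c_ip ha hx).mul (Metric2.c_ip hx hb))
      ((Metric2.c_ofReal (Metric2.c_Dd hx)).pow 2)
      fun y hy => pow_ne_zero 2 (Metric2.Dd_ne (hm y hy)))

theorem Metric2.c_g0 {x a b : F → EE} (hm : ∀ y ∈ s, x y ∈ Bl) (hx : ContDiffOn ℝ n x s)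
    (ha : ContDiffOn ℝ n a s) (hb : ContDiffOn ℝ n b s) :
    ContDiffOn ℝ n (fun y => g0 (x y) (a y) (b y)) s :=
  Complex.reCLM.contDiff.comp_contDiffOn (Metric2.c_hh hm hx ha hb)

theorem Metric2.c_sqrt {x : F → EE} (hm : ∀ y ∈ s, x y ∈ Bl) (hx : ContDiffOn ℝ n x s) :
    ContDiffOn ℝ n (fun y => Real.sqrt (Dd (x y))) s :=
  (Metric2.c_Dd hx).sqrt fun y hy => (Dd_pos (hm y hy)).ne'

theorem Metric2.c_L0 {x a : F → EE} (hm : ∀ y ∈ s, x y ∈ Bl) (hx : ContDiffOn ℝ n x s)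
    (ha : ContDiffOn ℝ n a s) : ContDiffOn ℝ n (fun y => L0 (x y) (a y)) s := by
  have h1 := Metric2.c_sqrt hm hx
  refine h1.smul (ha.sub (ContDiffOn.smul (Metric2.c_div (Metric2.c_ip ha hx)
    (Metric2.c_ofReal (contDiffOn_const.add h1)) fun y hy => ?_) hx))
  have : (1 + Real.sqrt (Dd (x y))) ≠ 0 := by positivity
  exact_mod_cast this

theorem Metric2.c_Linv0 {x a : F → EE} (hm : ∀ y ∈ s, x y ∈ Bl) (hx : ContDiffOn ℝ n x s)
    (ha : ContDiffOn ℝ n a s) : ContDiffOn ℝ n (fun y => Linv0 (x y) (a y)) s := by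
  have h1 := Metric2.c_sqrt hm hx
  have h2 : ∀ y ∈ s, 0 < Real.sqrt (Dd (x y)) := fun y hy => Real.sqrt_pos.2 (Dd_pos (hm y hy))
  refine (h1.inv fun y hy => (h2 y hy).ne').smul (ha.add (ContDiffOn.smul
    (Metric2.c_div (Metric2.c_ip ha hx)
    (Metric2.c_ofReal (h1.mul (contDiffOn_const.add h1))) fun y hy => ?_) hx))
  have := h2 y hy
  have : (Real.sqrt (Dd (x y)) * (1 + Real.sqrt (Dd (x y)))) ≠ 0 := by positivity
  exact_mod_cast this

theorem Metric2.lin_perp : IsLinearMap ℝ perp := by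
  constructor
  · intro u w
    ext i
    fin_cases i <;> simp [perp]
    ring
  · intro c u
    ext i
    fin_cases i <;> simp [perp]

theorem Metric2.c_perp {a : F → EE} (ha : ContDiffOn ℝ n a s) :
    ContDiffOn ℝ n (fun y => perp (a y)) s :=
  (IsLinearMap.mk' perp Metric2.lin_perp).toContinuousLinearMap.contDiff.comp_contDiffOn ha

end smooth

theorem contDiffOn_frame (j : Fin 3) (n : ℕ) : ContDiffOn ℝ n (fun q => frame q j) OO := by
  have hm : ∀ y ∈ OO, y.1 ∈ Bl := fun y hy => mem_OO.1 hy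
  have h1 : ContDiffOn ℝ n (fun q : EE × EE => L0 q.1 (perp (Linv0 q.1 q.2))) OO :=
    Metric2.c_L0 hm contDiffOn_fst
      (Metric2.c_perp (Metric2.c_Linv0 hm contDiffOn_fst contDiffOn_snd))
  fin_cases j
  · exact contDiffOn_snd.const_smul Complex.I
  · exact h1
  · exact h1.const_smul Complex.I

theorem Metric2.c_fderiv {f : EE → ℝ} (hf : ∀ n : ℕ, ContDiffOn ℝ n f Bl) (n : ℕ) :
    ContDiffOn ℝ n (fderiv ℝ f) Bl :=
  (hf (n + 1)).fderiv_of_isOpen isOpen_Bl (by push_cast; exact le_rfl)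

theorem Metric2.c_gradient {f : EE → ℝ} (hf : ∀ n : ℕ, ContDiffOn ℝ n f Bl) (n : ℕ) :
    ContDiffOn ℝ n (gradient f) Bl := by
  have hl : IsLinearMap ℝ (fun L : EE →L[ℝ] ℝ => (InnerProductSpace.toDual ℝ EE).symm L) :=
    ⟨fun a b => map_add _ a b, fun c a => by simp⟩
  exact (IsLinearMap.mk' _ hl).toContinuousLinearMap.contDiff.comp_contDiffOn
    (Metric2.c_fderiv hf n)

theorem contDiffOn_gg {f : EE → ℝ} (hf : ∀ n : ℕ, ContDiffOn ℝ n f Bl) (n : ℕ) :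
    ContDiffOn ℝ n (gg f) Bl := by
  refine contDiffOn_clm_apply.2 fun u => contDiffOn_clm_apply.2 fun w => ?_
  exact (contDiffOn_const.mul (hf n)).exp.mul
    (Metric2.c_g0 (fun _ h => h) contDiffOn_id contDiffOn_const contDiffOn_const)

theorem contDiffOn_NN {f : EE → ℝ} (hf : ∀ n : ℕ, ContDiffOn ℝ n f Bl) (n : ℕ) :
    ContDiffOn ℝ n (NN f) Bl :=
  (Metric2.c_Dd contDiffOn_id).smul ((Metric2.c_gradient hf n).sub
    ((Metric2.c_ip (Metric2.c_gradient hf n) contDiffOn_id).smul contDiffOn_id))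

theorem contDiffOn_GamL {f : EE → ℝ} (hf : ∀ n : ℕ, ContDiffOn ℝ n f Bl) (n : ℕ) :
    ContDiffOn ℝ n (GamL f) Bl := by
  refine contDiffOn_clm_apply.2 fun u => contDiffOn_clm_apply.2 fun w => ?_
  have h1 : ∀ a : EE, ContDiffOn ℝ n (fun y => al y a) Bl := fun a =>
    Metric2.c_al (fun _ h => h) contDiffOn_id contDiffOn_const
  have h2 : ∀ a : EE, ContDiffOn ℝ n (fun y => fderiv ℝ f y a) Bl := fun a =>
    (Metric2.c_fderiv hf n).clm_apply contDiffOn_const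
  exact (((((h1 u).smul contDiffOn_const).add ((h1 w).smul contDiffOn_const)).add
    ((h2 u).smul contDiffOn_const)).add ((h2 w).smul contDiffOn_const)).sub
    ((Metric2.c_g0 (fun _ h => h) contDiffOn_id contDiffOn_const contDiffOn_const).smul
      (contDiffOn_NN hf n))

theorem contDiffOn_XX {f : EE → ℝ} (hf : ∀ n : ℕ, ContDiffOn ℝ n f Bl) (n : ℕ) :
    ContDiffOn ℝ n (XX f) OO :=
  contDiffOn_snd.prodMk ((((contDiffOn_GamL hf n).comp contDiffOn_fst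
    fun _ hy => mem_OO.1 hy).clm_apply contDiffOn_snd).clm_apply contDiffOn_snd).neg

theorem contDiffOn_en {f : EE → ℝ} (hf : ∀ n : ℕ, ContDiffOn ℝ n f Bl) (n : ℕ) :
    ContDiffOn ℝ n (en f) OO :=
  (((contDiffOn_gg hf n).comp contDiffOn_fst
    fun _ hy => mem_OO.1 hy).clm_apply contDiffOn_snd).clm_apply contDiffOn_snd

theorem isRiemannian_gg {f : EE → ℝ} (hf : ∀ n : ℕ, ContDiffOn ℝ n f Bl) :
    IsRiemannian Bl (gg f) := by
  refine ⟨contDiffOn_gg hf, fun x hx => ⟨gg_symm f x, fun u hu => ?_⟩⟩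
  rw [gg_apply]
  have h1 := (g0_bounds hx u).1
  have h2 : 0 < ‖u‖ ^ 2 := by positivity
  exact mul_pos (Real.exp_pos _) (h2.trans_le h1)

end Pool.Agent.MP_019006_gt
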