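import Pool.Agent.MP_019006_gt.Basic
import Pool.Agent.MP_019006_gt.Metric1
import Pool.Agent.MP_019006_gt.Metric2

set_option autoImplicit false

open MeasureTheory Filter Topology Set Matrix

namespace Pool.Agent.MP_019006_gt

theorem Metric3.line (x u : EE) : HasDerivAt (fun t : ℝ => x + t • u) u 0 := by
  simpa using ((hasDerivAt_id (0 : ℝ)).smul_const u).const_add x

theorem Metric3.fderiv_line {F G : Type} [NormedAddCommGroup F] [NormedSpace ℝ F]
    [NormedAddCommGroup G] [NormedSpace ℝ G] {φ : F → G} {x u : F} {d : G}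
    (h : DifferentiableAt ℝ φ x) (h' : HasDerivAt (fun t : ℝ => φ (x + t • u)) d 0) :
    fderiv ℝ φ x u = d := by
  have h1 : HasDerivAt (fun t : ℝ => x + t • u) u 0 := by
    simpa using ((hasDerivAt_id (0 : ℝ)).smul_const u).const_add x
  have h2 : HasFDerivAt φ (fderiv ℝ φ x) (x + (0 : ℝ) • u) := by simpa using h.hasFDerivAt
  exact (h2.comp_hasDerivAt (0 : ℝ) h1).unique h'

theorem Metric3.d_ip {a b : ℝ → EE} {a' b' : EE} {t : ℝ} (da : HasDerivAt a a' t)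
    (db : HasDerivAt b b' t) :
    HasDerivAt (fun s => ip (a s) (b s)) (ip a' (b t) + ip (a t) b') t := db.inner ℂ da

theorem Metric3.d_Dd {x : ℝ → EE} {v : EE} {t : ℝ} (dx : HasDerivAt x v t) :
    HasDerivAt (fun s => (Dd (x s) : ℂ)) (-(ip v (x t) + ip (x t) v)) t := by
  simp only [Metric2.Dd_eq]
  exact (Metric3.d_ip dx dx).const_sub 1

theorem Metric3.d_al {x a : ℝ → EE} {v a' : EE} {t : ℝ} (hx : x t ∈ Bl) (dx : HasDerivAt x v t)
    (da : HasDerivAt a a' t) : HasDerivAt (fun s => al (x s) (a s))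
      (al (x t) a' + hh (x t) (a t) v + al (x t) (a t) * al (x t) v) t := by
  have hD := Metric2.Dd_ne hx
  refine ((Metric3.d_ip da dx).fun_div (Metric3.d_Dd dx) hD).congr_deriv ?_
  simp only [al, hh]
  field_simp
  ring

theorem Metric3.d_hh {x a b : ℝ → EE} {v a' b' : EE} {t : ℝ} (hx : x t ∈ Bl)
    (dx : HasDerivAt x v t) (da : HasDerivAt a a' t) (db : HasDerivAt b b' t) :
    HasDerivAt (fun s => hh (x s) (a s) (b s))
      (hh (x t) (a' + Gam0 (x t) v (a t)) (b t) + hh (x t) (a t) (b' + Gam0 (x t) v (b t))) t := by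
  have hD := Metric2.Dd_ne hx
  refine (((Metric3.d_ip da db).fun_div (Metric3.d_Dd dx) hD).fun_add
    (((Metric3.d_ip da dx).fun_mul (Metric3.d_ip dx db)).fun_div ((Metric3.d_Dd dx).fun_pow 2)
      (pow_ne_zero 2 hD))).congr_deriv ?_
  simp only [hh, Gam0, al, ip_add_left, ip_add_right, ip_smul_left, ip_smul_right, map_div₀,
    ip_conj, Complex.conj_ofReal]
  field_simp
  ring

theorem Metric3.d_g0 {x a b : ℝ → EE} {v a' b' : EE} {t : ℝ} (hx : x t ∈ Bl)
    (dx : HasDerivAt x v t) (da : HasDerivAt a a' t) (db : HasDerivAt b b' t) :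
    HasDerivAt (fun s => g0 (x s) (a s) (b s))
      (g0 (x t) (a' + Gam0 (x t) v (a t)) (b t) + g0 (x t) (a t) (b' + Gam0 (x t) v (b t))) t :=
  Complex.reCLM.hasFDerivAt.comp_hasDerivAt t (Metric3.d_hh hx dx da db)

theorem Metric3.g0_sub_left (x u u' w : EE) : g0 x (u - u') w = g0 x u w - g0 x u' w := by
  rw [eq_sub_iff_add_eq, ← g0_add_left, sub_add_cancel]

theorem Metric3.g0_Gam (f : EE → ℝ) {x : EE} (hx : x ∈ Bl) (a' v a b : EE) :
    g0 x (a' + Gam f x v a) b = g0 x (a' + Gam0 x v a) b + fderiv ℝ f x v * g0 x a b +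
      fderiv ℝ f x a * g0 x v b - g0 x v a * fderiv ℝ f x b := by
  simp only [Gam, g0_add_left, Metric3.g0_sub_left, g0_smul_left, g0_NN f hx]
  ring

theorem Metric3.d_gg {f : EE → ℝ} {x a b : ℝ → EE} {v a' b' : EE} {t : ℝ} (hx : x t ∈ Bl)
    (hf : DifferentiableAt ℝ f (x t)) (dx : HasDerivAt x v t) (da : HasDerivAt a a' t)
    (db : HasDerivAt b b' t) : HasDerivAt (fun s => gg f (x s) (a s) (b s))
      (gg f (x t) (a' + Gam f (x t) v (a t)) (b t) +
        gg f (x t) (a t) (b' + Gam f (x t) v (b t))) t := by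
  have h1 : HasDerivAt (fun s => f (x s)) (fderiv ℝ f (x t) v) t :=
    hf.hasFDerivAt.comp_hasDerivAt t dx
  simp only [gg_apply]
  refine ((h1.const_mul 2).exp.fun_mul (Metric3.d_g0 hx dx da db)).congr_deriv ?_
  rw [g0_symm (x t) (a t) (b' + Gam f (x t) v (b t)), Metric3.g0_Gam f hx, Metric3.g0_Gam f hx,
    g0_symm (x t) (a t) (b' + Gam0 (x t) v (b t)), g0_symm (x t) (b t) (a t)]
  ring

theorem Metric3.diffAt {F G : Type} [NormedAddCommGroup F] [NormedSpace ℝ F]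
    [NormedAddCommGroup G] [NormedSpace ℝ G] {φ : F → G} {s : Set F} {x : F} (hs : IsOpen s)
    (h : ContDiffOn ℝ (1 : ℕ) φ s) (hx : x ∈ s) : DifferentiableAt ℝ φ x :=
  (h.contDiffAt (hs.mem_nhds hx)).differentiableAt (by simp)

theorem Metric3.mem0 {x : EE} (hx : x ∈ Bl) (u : EE) : x + (0 : ℝ) • u ∈ Bl := by simpa using hx

theorem hasDerivAt_al {x : EE} (hx : x ∈ Bl) (u w : EE) :
    DifferentiableAt ℝ (fun y => al y w) x ∧
      fderiv ℝ (fun y => al y w) x u = hh x w u + al x w * al x u := by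
  have h : DifferentiableAt ℝ (fun y => al y w) x := Metric3.diffAt isOpen_Bl
    (Metric2.c_al (fun _ h => h) contDiffOn_id contDiffOn_const) hx
  refine ⟨h, Metric3.fderiv_line h ?_⟩
  have := Metric3.d_al (x := fun t : ℝ => x + t • u) (t := 0) (Metric3.mem0 hx u)
    (Metric3.line x u) (hasDerivAt_const (0 : ℝ) w)
  simpa [al, ip] using this

theorem fderiv_hh {x : EE} (hx : x ∈ Bl) (u v w : EE) :
    DifferentiableAt ℝ (fun y => hh y v w) x ∧
      fderiv ℝ (fun y => hh y v w) x u = hh x (Gam0 x u v) w + hh x v (Gam0 x u w) := by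
  have h : DifferentiableAt ℝ (fun y => hh y v w) x := Metric3.diffAt isOpen_Bl
    (Metric2.c_hh (fun _ h => h) contDiffOn_id contDiffOn_const contDiffOn_const) hx
  refine ⟨h, Metric3.fderiv_line h ?_⟩
  simpa using Metric3.d_hh (x := fun t : ℝ => x + t • u) (t := 0) (Metric3.mem0 hx u)
    (Metric3.line x u) (hasDerivAt_const (0 : ℝ) v) (hasDerivAt_const (0 : ℝ) w)

theorem fderiv_g0 {x : EE} (hx : x ∈ Bl) (u v w : EE) :
    DifferentiableAt ℝ (fun y => g0 y v w) x ∧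
      fderiv ℝ (fun y => g0 y v w) x u = g0 x (Gam0 x u v) w + g0 x v (Gam0 x u w) := by
  have h : DifferentiableAt ℝ (fun y => g0 y v w) x := Metric3.diffAt isOpen_Bl
    (Metric2.c_g0 (fun _ h => h) contDiffOn_id contDiffOn_const contDiffOn_const) hx
  refine ⟨h, Metric3.fderiv_line h ?_⟩
  simpa using Metric3.d_g0 (x := fun t : ℝ => x + t • u) (t := 0) (Metric3.mem0 hx u)
    (Metric3.line x u) (hasDerivAt_const (0 : ℝ) v) (hasDerivAt_const (0 : ℝ) w)

theorem fderiv_gg {f : EE → ℝ} {x : EE} (hx : x ∈ Bl) (hf : DifferentiableAt ℝ f x) (u v w : EE) :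
    fderiv ℝ (fun y => gg f y v w) x u = gg f x (Gam f x u v) w + gg f x v (Gam f x u w) := by
  have h : DifferentiableAt ℝ (fun y => gg f y v w) x :=
    (hf.const_mul 2).exp.mul (fderiv_g0 hx u v w).1
  refine Metric3.fderiv_line h ?_
  simpa using Metric3.d_gg (f := f) (x := fun t : ℝ => x + t • u) (t := 0) (Metric3.mem0 hx u)
    (by simpa using hf) (Metric3.line x u) (hasDerivAt_const (0 : ℝ) v)
    (hasDerivAt_const (0 : ℝ) w)

theorem hasDerivAt_gg {f : EE → ℝ} (hf : ∀ n : ℕ, ContDiffOn ℝ n f Bl) {x a b : ℝ → EE}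
    {v a' b' : EE} {t : ℝ} (hx : x t ∈ Bl) (dx : HasDerivAt x v t) (da : HasDerivAt a a' t)
    (db : HasDerivAt b b' t) : HasDerivAt (fun s => gg f (x s) (a s) (b s))
      (gg f (x t) (a' + Gam f (x t) v (a t)) (b t) +
        gg f (x t) (a t) (b' + Gam f (x t) v (b t))) t :=
  Metric3.d_gg hx (Metric3.diffAt isOpen_Bl (hf 1) hx) dx da db

theorem fderiv_en {f : EE → ℝ} (hf : ∀ n : ℕ, ContDiffOn ℝ n f Bl) {p : EE × EE} (hp : p.1 ∈ Bl)
    (ξ : EE × EE) : fderiv ℝ (en f) p ξ = 2 * gg f p.1 p.2 (ξ.2 + Gam f p.1 p.2 ξ.1) := by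
  refine Metric3.fderiv_line (Metric3.diffAt isOpen_OO (contDiffOn_en hf 1) (mem_OO.2 hp)) ?_
  have := hasDerivAt_gg hf (x := fun t : ℝ => p.1 + t • ξ.1) (t := 0) (Metric3.mem0 hp ξ.1)
    (Metric3.line p.1 ξ.1) (Metric3.line p.2 ξ.2) (Metric3.line p.2 ξ.2)
  refine this.congr_deriv ?_
  simp only [zero_smul, add_zero]
  rw [gg_symm f p.1 (ξ.2 + _), Gam_symm f p.1 ξ.1]
  ring

theorem fderiv_XX {f : EE → ℝ} (hf : ∀ n : ℕ, ContDiffOn ℝ n f Bl) {p : EE × EE} (hp : p.1 ∈ Bl)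
    (ξ : EE × EE) : fderiv ℝ (XX f) p ξ = (ξ.2, -(fderiv ℝ (fun y => Gam f y p.2 p.2) p.1 ξ.1 +
      Gam f p.1 ξ.2 p.2 + Gam f p.1 p.2 ξ.2)) := by
  refine Metric3.fderiv_line (Metric3.diffAt isOpen_OO (contDiffOn_XX hf 1) (mem_OO.2 hp)) ?_
  have h0 := Metric3.diffAt isOpen_Bl (contDiffOn_GamL hf 1) hp
  have h1 : HasFDerivAt (GamL f) (fderiv ℝ (GamL f) p.1) (p.1 + (0 : ℝ) • ξ.1) := by
    simpa using h0.hasFDerivAt
  have h2 : HasDerivAt (fun t : ℝ => GamL f (p.1 + t • ξ.1)) (fderiv ℝ (GamL f) p.1 ξ.1) 0 :=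
    HasFDerivAt.comp_hasDerivAt (F := EE) (E := EE →L[ℝ] EE →L[ℝ] EE) (l := GamL f)
      (f := fun t : ℝ => p.1 + t • ξ.1) (0 : ℝ) h1 (Metric3.line p.1 ξ.1)
  have h3 : fderiv ℝ (fun y => Gam f y p.2 p.2) p.1 ξ.1 = fderiv ℝ (GamL f) p.1 ξ.1 p.2 p.2 := by
    refine Metric3.fderiv_line (φ := fun y => GamL f y p.2 p.2)
      ((h0.clm_apply (differentiableAt_const _)).clm_apply (differentiableAt_const _)) ?_
    simpa using (h2.clm_apply (hasDerivAt_const (0 : ℝ) p.2)).clm_apply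
      (hasDerivAt_const (0 : ℝ) p.2)
  have h4 := (h2.clm_apply (Metric3.line p.2 ξ.2)).clm_apply (Metric3.line p.2 ξ.2)
  refine ((Metric3.line p.2 ξ.2).prodMk h4.neg).congr_deriv ?_
  simp [h3, GamL_apply]

theorem isChristoffel_Gam {f : EE → ℝ} (hf : ∀ n : ℕ, ContDiffOn ℝ n f Bl) :
    IsChristoffel Bl (gg f) (Gam f) := by
  intro x hx u v w
  have h := Metric3.diffAt isOpen_Bl (hf 1) hx
  rw [fderiv_gg hx h, fderiv_gg hx h, fderiv_gg hx h, Gam_symm f x v u, Gam_symm f x w u,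
    Gam_symm f x w v, gg_symm f x v]
  ring

end Pool.Agent.MP_019006_gt
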