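import Pool.Agent.MP_019006_gt.Basic2
import Pool.Agent.MP_019006_gt.Metric
import Pool.Agent.MP_019006_gt.Fibre
import Pool.Agent.MP_019006_gt.ErgWeight

set_option autoImplicit false

open MeasureTheory Filter Topology Set Matrix
open scoped ENNReal

namespace Pool.Agent.MP_019006_gt

namespace Apx

/-- The abstract estimate: unfolding, invariance under a commuting map and a finite covering. -/
theorem abs_bound {P G : Type} [MeasurableSpace P] [Group G] [Countable G]
    (μ : Measure P) (S : Set P) (hSc : μ Sᶜ = 0)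
    (act : G → P → P) (hact : ∀ a, MeasurePreserving (act a) μ μ)
    (act1 : ∀ p ∈ S, act 1 p = p)
    (actmul : ∀ a b, ∀ p ∈ S, act (a * b) p = act a (act b p))
    (χ : P → ℝ≥0∞) (hχm : Measurable χ) (hχ : ∀ p ∈ S, ∑' a, χ (act a p) = 1)
    (T : P → P) (hT : MeasurePreserving T μ μ) (TS : ∀ p ∈ S, T p ∈ S)
    (comm : ∀ a, ∀ p ∈ S, T (act a p) = act a (T p))
    (e k : P → ℝ≥0∞) (he : Measurable e) (hk : Measurable k)
    (einv : ∀ a, ∀ p ∈ S, e (act a p) = e p) (hek : ∀ p ∈ S, e p ≤ ∑' a, k (act a p))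
    (B : Set P) (hB : MeasurableSet B) (F : Finset G)
    (hF : ∀ p ∈ S, p ∈ B → ∀ a ∉ F, χ (act a p) = 0) :
    ∫⁻ p in B, e (T p) ∂μ ≤ F.card * ∫⁻ p, k p ∂μ := by
  have hae : ∀ᵐ p ∂μ, p ∈ S := hSc
  have h1 : ∫⁻ p, χ p * e (T p) ∂μ ≤ ∫⁻ p, k p ∂μ := by
    rw [weight_lintegral_comp μ S hSc act hact act1 actmul χ hχm hχ T hT TS comm e he einv,
      ← weight_unfold μ S hSc act hact act1 actmul χ hχm hχ k hk]
    exact lintegral_mono_ae (hae.mono fun p hp => mul_le_mul_right (hek p hp) _)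
  have hm : Measurable fun p => χ p * e (T p) := hχm.mul (he.comp hT.measurable)
  have h2 : ∀ c, ∫⁻ p, χ (act c p) * e (T p) ∂μ = ∫⁻ p, χ p * e (T p) ∂μ := by
    intro c
    rw [← (hact c).lintegral_comp hm]
    refine lintegral_congr_ae (hae.mono fun p hp => ?_)
    simp only []
    rw [comm c p hp, einv c _ (TS p hp)]
  calc ∫⁻ p in B, e (T p) ∂μ = ∫⁻ p, B.indicator (fun p => e (T p)) p ∂μ :=
        (lintegral_indicator hB _).symm
    _ ≤ ∫⁻ p, ∑ c ∈ F, χ (act c p) * e (T p) ∂μ := by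
        refine lintegral_mono_ae (hae.mono fun p hp => ?_)
        by_cases hb : p ∈ B
        · have h3 : ∑' a, χ (act a p) = ∑ a ∈ F, χ (act a p) := tsum_eq_sum (hF p hp hb)
          rw [indicator_of_mem hb, ← Finset.sum_mul, ← h3, hχ p hp, one_mul]
        · rw [indicator_of_notMem hb]
          exact zero_le
    _ = ∑ c ∈ F, ∫⁻ p, χ (act c p) * e (T p) ∂μ :=
        lintegral_finsetSum _ fun c _ =>
          (hχm.comp (hact c).measurable).mul (he.comp hT.measurable)
    _ ≤ F.card * ∫⁻ p, k p ∂μ := by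
        simp only [h2, Finset.sum_const, nsmul_eq_mul]
        exact mul_le_mul_right h1 _

open Classical in
/-- A globally measurable version of the energy. -/
noncomputable def enm (f : EE → ℝ) : EE × EE → ℝ := OO.piecewise (en f) 0

theorem enm_eq (f : EE → ℝ) {p : EE × EE} (hp : p.1 ∈ Bl) : enm f p = en f p := by
  classical
  unfold enm
  exact piecewise_eq_of_mem _ _ _ (mem_OO.2 hp)

theorem meas_enm {f : EE → ℝ} (hf : Conf f) : Measurable (enm f) := by
  classical
  unfold enm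
  exact (Fib.contOn_en hf).measurable_piecewise continuousOn_const isOpen_OO.measurableSet

/-- A globally measurable version of the normalisation. -/
noncomputable def nrmm (f : EE → ℝ) (p : EE × EE) : EE × EE :=
  (p.1, (Real.sqrt (enm f p))⁻¹ • p.2)

theorem nrmm_eq (f : EE → ℝ) {p : EE × EE} (hp : p.1 ∈ Bl) : nrmm f p = nrm f p := by
  unfold nrmm nrm
  rw [enm_eq f hp]

theorem meas_nrmm {f : EE → ℝ} (hf : Conf f) : Measurable (nrmm f) :=
  measurable_fst.prodMk ((meas_enm hf).sqrt.inv.smul measurable_snd)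

theorem thin_sub (f : EE → ℝ) (a b : ℝ) : thin f a b ⊆ OO := fun _ hp => mem_OO.2 hp.1

theorem meas_thin {f : EE → ℝ} (hf : Conf f) (a b : ℝ) : MeasurableSet (thin f a b) := by
  have h : thin f a b = OO ∩ enm f ⁻¹' Ioc (a ^ 2) (b ^ 2) := by
    ext p
    constructor
    · rintro ⟨h1, h2⟩
      exact ⟨mem_OO.2 h1, by rw [mem_preimage, enm_eq f h1]; exact h2⟩
    · rintro ⟨h1, h2⟩
      rw [mem_preimage, enm_eq f (mem_OO.1 h1)] at h2
      exact ⟨mem_OO.1 h1, h2⟩
  rw [h]
  exact isOpen_OO.measurableSet.inter (meas_enm hf measurableSet_Ioc)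

theorem liou_restrict (f : EE → ℝ) {S : Set (EE × EE)} (hS : MeasurableSet S) (hSO : S ⊆ OO) :
    (liou f OO).restrict S = liou f S := by
  unfold liou
  rw [restrict_withDensity hS, Measure.restrict_restrict hS, inter_eq_left.2 hSO]

theorem lintegral_scale (g : EE × EE → ℝ≥0∞) {s : ℝ} (hs : 0 < s) :
    ∫⁻ p, g p ∂((volume : Measure EE).prod (volume : Measure EE)) =
      ENNReal.ofReal (s ^ 4) *
        ∫⁻ p, g (p.1, s • p.2) ∂((volume : Measure EE).prod (volume : Measure EE)) := by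
  let T : EE × EE ≃ᵐ EE × EE :=
    (MeasurableEquiv.refl EE).prodCongr (MeasurableEquiv.smul₀ s hs.ne')
  have h1 : Measure.map T ((volume : Measure EE).prod (volume : Measure EE)) =
      ENNReal.ofReal (s ^ 4)⁻¹ • ((volume : Measure EE).prod (volume : Measure EE)) := by
    have h2 : (T : EE × EE → EE × EE) = Prod.map id fun v => s • v := rfl
    rw [h2, ← Measure.map_prod_map _ _ measurable_id (measurable_const_smul s), Measure.map_id,
      Measure.map_addHaar_smul _ hs.ne', Fib.finrank_EE, Measure.prod_smul_right,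
      abs_of_pos (inv_pos.2 (pow_pos hs 4))]
  have h3 := lintegral_map_equiv (μ := (volume : Measure EE).prod (volume : Measure EE)) g T
  rw [h1, lintegral_smul_measure, smul_eq_mul] at h3
  have h4 : ∫⁻ p, g (p.1, s • p.2) ∂((volume : Measure EE).prod (volume : Measure EE)) =
      ∫⁻ p, g (T p) ∂((volume : Measure EE).prod (volume : Measure EE)) := rfl
  rw [h4, ← h3, ← mul_assoc, ← ENNReal.ofReal_mul (pow_pos hs 4).le,
    mul_inv_cancel₀ (pow_pos hs 4).ne', ENNReal.ofReal_one, one_mul]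

theorem lintegral_eq {f : EE → ℝ} (hf : Conf f) (k : EE × EE → ℝ≥0∞) (hk : Measurable k)
    {S : Set (EE × EE)} (hS : MeasurableSet S) (hSO : S ⊆ OO) :
    ∫⁻ p in S, k p ∂(liou f OO) = ∫⁻ p, S.indicator (fun p => ENNReal.ofReal (rho f p) * k p) p
      ∂((volume : Measure EE).prod (volume : Measure EE)) := by
  rw [liou_restrict f hS hSO, lintegral_indicator hS]
  exact lintegral_withDensity_eq_lintegral_mul₀ (Fib.aemeas_rho hf hS hSO) hk.aemeasurable

theorem lintegral_thin0 {f : EE → ℝ} (hf : Conf f) (k : EE × EE → ℝ≥0∞) (hk : Measurable k)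
    (hs : ∀ c : ℝ, 0 < c → ∀ p : EE × EE, p.1 ∈ Bl → k (p.1, c • p.2) = k p) {s : ℝ}
    (h0 : 0 ≤ s) : ∫⁻ p in thin f 0 s, k p ∂(liou f OO) =
      ENNReal.ofReal (s ^ 4) * ∫⁻ p in thin f 0 1, k p ∂(liou f OO) := by
  rcases h0.eq_or_lt with rfl | h0
  · have h : thin f 0 0 = ∅ := eq_empty_of_forall_notMem fun p hp => (hp.2.1.trans_le hp.2.2).false
    simp [h]
  rw [lintegral_eq hf k hk (meas_thin hf _ _) (thin_sub f _ _),
    lintegral_eq hf k hk (meas_thin hf _ _) (thin_sub f _ _), lintegral_scale _ h0]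
  congr 1
  refine lintegral_congr fun p => ?_
  have hs2 : 0 < s ^ 2 := pow_pos h0 2
  have hm : (p.1, s • p.2) ∈ thin f 0 s ↔ p ∈ thin f 0 1 := by
    simp only [thin, mem_ofPred_eq, Fib.en_smul]
    refine and_congr_right fun _ => and_congr ?_ ?_
    · rw [zero_pow two_ne_zero]
      exact mul_pos_iff_of_pos_left hs2
    · rw [one_pow]
      exact mul_le_iff_le_one_right hs2
  by_cases hp : p ∈ thin f 0 1
  · rw [indicator_of_mem hp, indicator_of_mem (hm.2 hp), hs s h0 p hp.1]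
    rfl
  · rw [indicator_of_notMem hp, indicator_of_notMem fun h => hp (hm.1 h)]

theorem liou_fin {f : EE → ℝ} (hf : Conf f) {c : ℝ} (hc : 0 < c) :
    liou f OO (thin f 0 1 ∩ {p | c ≤ Dd p.1}) < ⊤ := by
  have hK : IsCompact ({x : EE | c ≤ Dd x} ×ˢ Metric.closedBall (0 : EE) 2) := by
    refine IsCompact.prod ?_ (isCompact_closedBall _ _)
    refine IsCompact.of_isClosed_subset (isCompact_closedBall (0 : EE) 1)
      (isClosed_le continuous_const Fib.cont_Dd) fun x hx => ?_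
    rw [mem_closedBall_zero_iff]
    exact (mem_Bl.1 (Fib.mem_Bl_of hc hx)).le
  have hKO : {x : EE | c ≤ Dd x} ×ˢ Metric.closedBall (0 : EE) 2 ⊆ OO := fun p hp =>
    mem_OO.2 (Fib.mem_Bl_of hc hp.1)
  have hsub : thin f 0 1 ∩ {p | c ≤ Dd p.1} ⊆
      {x : EE | c ≤ Dd x} ×ˢ Metric.closedBall (0 : EE) 2 := by
    rintro p ⟨hp, hp'⟩
    refine ⟨hp', ?_⟩
    rw [mem_closedBall_zero_iff]
    have h1 := (g0_bounds hp.1 p.2).1
    have h2 : en f p ≤ 1 ^ 2 := hp.2.2
    have h3 : -(1 / 100 : ℝ) ≤ f p.1 := (abs_le.1 (hf.fb _ hp.1)).1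
    have h4 : 2 * f p.1 + 1 ≤ Real.exp (2 * f p.1) := Real.add_one_le_exp _
    have h5 : en f p = Real.exp (2 * f p.1) * g0 p.1 p.2 p.2 := rfl
    have h6 : 0 ≤ g0 p.1 p.2 p.2 := (sq_nonneg _).trans h1
    have h7 : (49 / 50 : ℝ) * g0 p.1 p.2 p.2 ≤ 1 ^ 2 := by
      refine le_trans ?_ h2
      rw [h5]
      exact mul_le_mul_of_nonneg_right (by linarith) h6
    by_contra h
    push Not at h
    nlinarith
  refine (measure_mono hsub).trans_lt ?_
  unfold liou
  rw [withDensity_apply _ hK.measurableSet, Measure.restrict_restrict hK.measurableSet,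
    inter_eq_left.2 hKO]
  exact (((Fib.contOn_rho hf).mono hKO).integrableOn_compact hK).lintegral_lt_top

/-- Approximation of a bounded scale invariant function supported over a compact set. -/
theorem exists_w {f : EE → ℝ} (hf : Conf f) {c : ℝ} (hc : 0 < c) (g : EE × EE → ℝ)
    (hg : Measurable g) (hg1 : ∀ p, ‖g p‖ ≤ 1) (hg0 : ∀ p : EE × EE, Dd p.1 < c → g p = 0)
    (hs : ∀ s : ℝ, 0 < s → ∀ p : EE × EE, p.1 ∈ Bl → g (p.1, s • p.2) = g p)
    {ε : ℝ≥0∞} (hε : ε ≠ 0) : ∃ w : EE × EE → ℝ, UniformContinuous w ∧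
      (∀ p : EE × EE, Dd p.1 < c / 2 → w p = 0) ∧
      ∫⁻ p in thin f 0 1, ‖g p - w (nrmm f p)‖ₑ ∂(liou f OO) ≤ ε := by
  have hK : MeasurableSet {p : EE × EE | c / 2 ≤ Dd p.1} :=
    (isClosed_le continuous_const (Fib.cont_Dd.comp continuous_fst)).measurableSet
  have hT := (meas_thin hf 0 1).inter hK
  have : IsFiniteMeasure ((liou f OO).restrict (thin f 0 1 ∩ {p | c / 2 ≤ Dd p.1})) :=
    isFiniteMeasure_restrict.2 (liou_fin hf (half_pos hc)).ne
  set σ := Measure.map (nrmm f) ((liou f OO).restrict (thin f 0 1 ∩ {p | c / 2 ≤ Dd p.1})) with hσ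
  have hi : Integrable g σ :=
    (integrable_const (1 : ℝ)).mono' hg.aestronglyMeasurable (Eventually.of_forall hg1)
  obtain ⟨w, hw, hwε, hwc, -⟩ := hi.exists_hasCompactSupport_lintegral_sub_le hε
  let cut : EE × EE → ℝ := fun p => max 0 (min 1 (2 * Dd p.1 / c - 1))
  have hcc : Continuous cut :=
    continuous_const.max (continuous_const.min
      (((continuous_const.mul (Fib.cont_Dd.comp continuous_fst)).div_const c).sub
        continuous_const))
  have hc0 : ∀ p : EE × EE, Dd p.1 < c / 2 → cut p = 0 := by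
    intro p hp
    refine max_eq_left ((min_le_right _ _).trans ?_)
    rw [sub_nonpos, div_le_one hc]
    linarith
  have hc1 : ∀ p : EE × EE, c ≤ Dd p.1 → cut p = 1 := by
    intro p hp
    have : 1 ≤ 2 * Dd p.1 / c - 1 := by
      rw [le_sub_iff_add_le, le_div_iff₀ hc]
      linarith
    simp only [cut]
    rw [min_eq_left this, max_eq_right zero_le_one]
  have hcb : ∀ p : EE × EE, ‖cut p‖ ≤ 1 := by
    intro p
    rw [Real.norm_of_nonneg (le_max_left _ _)]
    exact max_le zero_le_one (min_le_left _ _)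
  refine ⟨fun p => w p * cut p,
    (hw.mul_right (f' := cut)).uniformContinuous_of_continuous (hwc.mul hcc),
    fun p hp => mul_eq_zero_of_right _ (hc0 p hp), ?_⟩
  refine le_trans ?_ hwε
  have hm : Measurable fun x => ‖g x - w x‖ₑ := (hg.sub hwc.measurable).enorm
  simp only []
  rw [hσ, lintegral_map hm (meas_nrmm hf),
    ← lintegral_indicator hT, ← lintegral_indicator (meas_thin hf 0 1)]
  refine lintegral_mono fun p => ?_
  by_cases hp : p ∈ thin f 0 1
  · have he : 0 < en f p := by simpa using hp.2.1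
    have hgn : g (nrmm f p) = g p := by
      rw [nrmm_eq f hp.1]
      exact hs _ (inv_pos.2 (Real.sqrt_pos.2 he)) p hp.1
    have h1 : (nrmm f p).1 = p.1 := rfl
    rw [indicator_of_mem hp]
    by_cases hq : c / 2 ≤ Dd p.1
    · rw [indicator_of_mem (show p ∈ thin f 0 1 ∩ {p | c / 2 ≤ Dd p.1} from ⟨hp, hq⟩), hgn]
      by_cases hr : c ≤ Dd p.1
      · rw [hc1 (nrmm f p) hr, mul_one]
      · rw [hg0 p (not_le.1 hr), zero_sub, zero_sub, enorm_neg, enorm_neg, ← ofReal_norm,
          ← ofReal_norm, norm_mul]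
        exact ENNReal.ofReal_le_ofReal (mul_le_of_le_one_right (norm_nonneg _) (hcb _))
    · have hq' : Dd p.1 < c / 2 := not_le.1 hq
      rw [hc0 (nrmm f p) hq', hg0 p (by linarith), mul_zero, sub_zero, enorm_zero]
      exact zero_le
  · rw [indicator_of_notMem hp]
    exact zero_le

end Apx

theorem lintegral_thin {f : EE → ℝ} (hf : Conf f) (k : EE × EE → ENNReal) (hk : Measurable k)
    (hs : ∀ c : ℝ, 0 < c → ∀ p : EE × EE, p.1 ∈ Bl → k (p.1, c • p.2) = k p) (a b : ℝ)
    (ha : 0 ≤ a) (hab : a ≤ b) (hfin : ∫⁻ p in thin f 0 1, k p ∂(liou f OO) ≠ ⊤) :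
    ∫⁻ p in thin f a b, k p ∂(liou f OO) =
      ENNReal.ofReal (b ^ 4 - a ^ 4) * ∫⁻ p in thin f 0 1, k p ∂(liou f OO) := by
  have h2 : a ^ 2 ≤ b ^ 2 := pow_le_pow_left₀ ha hab 2
  have h4 : a ^ 4 ≤ b ^ 4 := pow_le_pow_left₀ ha hab 4
  have hu : thin f 0 b = thin f 0 a ∪ thin f a b := by
    ext p
    constructor
    · rintro ⟨h1, h0, hb⟩
      rcases le_or_gt (en f p) (a ^ 2) with h | h
      · exact Or.inl ⟨h1, h0, h⟩
      · exact Or.inr ⟨h1, h, hb⟩
    · rintro (⟨h1, h0, h⟩ | ⟨h1, h, hb⟩)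
      · exact ⟨h1, h0, h.trans h2⟩
      · exact ⟨h1, lt_of_le_of_lt (by simpa using sq_nonneg a) h, hb⟩
  have hd : Disjoint (thin f 0 a) (thin f a b) :=
    disjoint_left.2 fun p h h' => (h'.2.1.trans_le h.2.2).false
  have h := Apx.lintegral_thin0 hf k hk hs (ha.trans hab)
  rw [hu, lintegral_union (Apx.meas_thin hf a b) hd, Apx.lintegral_thin0 hf k hk hs ha,
    show b ^ 4 = a ^ 4 + (b ^ 4 - a ^ 4) by ring,
    ENNReal.ofReal_add (pow_nonneg ha 4) (sub_nonneg.2 h4), add_mul] at h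
  exact (ENNReal.add_right_inj (ENNReal.mul_ne_top ENNReal.ofReal_ne_top hfin)).1 h

end Pool.Agent.MP_019006_gt
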