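import Mathlib

set_option autoImplicit false

open MeasureTheory Filter Topology Set Matrix

namespace Pool.Agent.MP_019006_gt

/-- A complete flow `φ` of the vector field `X` on the open set `O`, with space derivative `M`. -/
structure IsFlow {F : Type} [NormedAddCommGroup F] [NormedSpace ℝ F] (O : Set F) (X : F → F)
    (φ : ℝ → F → F) (M : ℝ → F → F →L[ℝ] F) : Prop where
  junk : ∀ t p, p ∉ O → φ t p = p
  zero : ∀ p, φ 0 p = p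
  mem : ∀ t p, p ∈ O → φ t p ∈ O
  deriv : ∀ t p, p ∈ O → HasDerivAt (fun s => φ s p) (X (φ t p)) t
  add : ∀ t s p, φ (t + s) p = φ t (φ s p)
  uniq : ∀ (c : ℝ → F) (a b t₀ : ℝ), t₀ ∈ Ioo a b →
    (∀ t ∈ Ioo a b, c t ∈ O ∧ HasDerivAt c (X (c t)) t) → ∀ t ∈ Ioo a b, c t = φ (t - t₀) (c t₀)
  fderiv : ∀ t p, p ∈ O → HasFDerivAt (φ t) (M t p) p
  Mderiv : ∀ t p, p ∈ O → HasDerivAt (fun s => M s p) ((_root_.fderiv ℝ X (φ t p)).comp (M t p)) t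
  cont : ContinuousOn (fun q : ℝ × F => φ q.1 q.2) (univ ×ˢ O)
  Mcont : ContinuousOn (fun q : ℝ × F => M q.1 q.2) (univ ×ˢ O)

/-- The form of signature (2,1). -/
def Jm : Matrix (Fin 3) (Fin 3) ℂ := Matrix.diagonal ![1, 1, -1]

/-- Its quadratic form. -/
noncomputable def Qf (Z : Fin 3 → ℂ) : ℝ := ‖Z 0‖ ^ 2 + ‖Z 1‖ ^ 2 - ‖Z 2‖ ^ 2

/-- A torsion-free uniform lattice of U(2,1) all of whose non-trivial elements move the origin of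
the ball far away. -/
structure IsLattice (Λ : ℝ) (G : Type) [Group G] (ρ : G →* Matrix (Fin 3) (Fin 3) ℂ) : Prop where
  unit : ∀ a, (ρ a)ᴴ * Jm * ρ a = Jm
  far : ∀ a, a ≠ 1 → Λ ≤ ‖ρ a 2 2‖
  fin : ∀ C : ℝ, {a | ‖ρ a 2 2‖ ≤ C}.Finite
  free : ∀ a (Z : Fin 3 → ℂ) (c : ℂ), Qf Z < 0 → ρ a *ᵥ Z = c • Z → a = 1
  cocpt : ∃ δ : ℝ, 0 < δ ∧ ∀ Z : Fin 3 → ℂ, Qf Z < 0 → ∃ a, δ * ‖(ρ a *ᵥ Z) 2‖ ^ 2 ≤ -Qf Z

/-- The complex plane of dimension two. -/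
abbrev EE := EuclideanSpace ℂ (Fin 2)

/-- The quaternionic rotation. -/
noncomputable def perp (w : EE) : EE := !₂[-(starRingEnd ℂ) (w 1), (starRingEnd ℂ) (w 0)]

/-- Flat second derivative in the direction `u`. -/
noncomputable def HH (F : EE → ℝ) (x u : EE) : ℝ := fderiv ℝ (fun y => fderiv ℝ F y u) x u

noncomputable def sig1 (F : EE → ℝ) (x v : EE) : ℝ := HH F x (Complex.I • v) + HH F x v

noncomputable def sigw (F : EE → ℝ) (x v : EE) : ℝ :=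
  HH F x (perp v) + HH F x (Complex.I • perp v) + 2 * HH F x v

/-- The flat profile. -/
structure IsProfile (F : EE → ℝ) (s₀ : ℝ) : Prop where
  pos : 0 < s₀
  smooth : ∀ n : ℕ, ContDiff ℝ n F
  supp : ∀ x, 1 ≤ ‖x‖ → F x = 0
  first : ∀ v : EE, ‖v‖ = 1 → ∫ x, (sig1 F x v - 2 * sigw F x v) = 0
  second : ∀ v : EE, ‖v‖ = 1 →
    s₀ ≤ ∫ x, (1 / 8 * sigw F x v * (∫ s in (-6 : ℝ)..0, sigw F (x + s • v) v) -
      1 / 16 * sig1 F x v * ∫ s in (-6 : ℝ)..0, sig1 F (x + s • v) v)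

/-- Real 3 by 3 matrices. -/
abbrev M3 := Matrix (Fin 3) (Fin 3) ℝ

def U0 : M3 := Matrix.diagonal ![2, 1, 1]

def K0 : M3 := Matrix.diagonal ![4, 1, 1]

/-- Squared Euclidean norm. -/
def nsq (u : Fin 3 → ℝ) : ℝ := u 0 ^ 2 + u 1 ^ 2 + u 2 ^ 2

/-- Frobenius norm. -/
noncomputable def fro (A : M3) : ℝ := Real.sqrt (∑ i, ∑ j, A i j ^ 2)

/-- The Jacobi equation in a rotating orthonormal frame, as a first order matrix system. -/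
structure JacSys (K Om Y H : ℝ → M3) : Prop where
  Kc : Continuous K
  Oc : Continuous Om
  Ks : ∀ t, (K t)ᵀ = K t
  Oa : ∀ t, (Om t)ᵀ = -Om t
  dY : ∀ t i j, HasDerivAt (fun s => Y s i j) ((H t - Om t * Y t) i j) t
  dH : ∀ t i j, HasDerivAt (fun s => H s i j) ((K t * Y t - Om t * H t) i j) t
  Y0 : Y 0 = 1
  H0 : H 0 = U0

/-- The coefficients are a small perturbation of the model, switched on by `b` during short and
well separated passages. -/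
structure SmallPert (e τ R : ℝ) (b : ℝ → ℝ) (K Om : ℝ → M3) : Prop where
  bc : Continuous b
  b0 : ∀ t, 0 ≤ b t
  b1 : ∀ t, b t ≤ 1
  Kb : ∀ t i j, |(K t - K0) i j| ≤ e * b t
  Ob : ∀ t j, |Om t 0 j| ≤ e * τ * b t
  gap : ∀ s t, s < t → b s ≠ 0 → b t ≠ 0 → t - s ≤ τ ∨ R ≤ t - s

/-- The invariant cone condition. -/
structure Cone (K Om Y H : ℝ → M3) : Prop where
  det_pos : ∀ t, 0 ≤ t → 0 < (Y t).det
  wronski : ∀ t, (Y t)ᵀ * H t = (H t)ᵀ * Y t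
  cone : ∀ t, 0 ≤ t → ∀ u : Fin 3 → ℝ,
    nsq ((H t - U0 * Y t) *ᵥ u) ≤ 1 / 100 * nsq (Y t *ᵥ u)
  Om0 : ∀ t j, |Om t 0 j| ≤ 1 / 100

/-- The second order functional. -/
noncomputable def Psi (η e τ : ℝ) (b : ℝ → ℝ) (K : ℝ → M3) (t : ℝ) : ℝ :=
  1 / 8 * (K t 1 1 + K t 2 2 - 2) * (∫ s in (t - τ)..t, (K s 1 1 + K s 2 2 - 2)) -
    1 / 16 * (K t 0 0 - 4) * (∫ s in (t - τ)..t, (K s 0 0 - 4)) +
    1 / 4 * ((K t 0 0 - 4) - 2 * (K t 1 1 + K t 2 2 - 2)) - η * e ^ 2 * τ * b t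

end Pool.Agent.MP_019006_gt
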