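import Pool.Agent.MP_019006_gt.Basic

set_option autoImplicit false

open MeasureTheory Filter Topology Set Matrix

namespace Pool.Agent.MP_019006_gt

/-- The Dirichlet solution of the pinched Jacobi equation in a rotating frame. -/
structure DirSys (K Om Y H : ℝ → M3) : Prop where
  Kc : Continuous K
  Oc : Continuous Om
  Ks : ∀ t, (K t)ᵀ = K t
  Oa : ∀ t, (Om t)ᵀ = -Om t
  pinch : ∀ t u, 9 / 10 * nsq u ≤ u ⬝ᵥ (K t *ᵥ u) ∧ u ⬝ᵥ (K t *ᵥ u) ≤ 5 * nsq u
  dY : ∀ t i j, HasDerivAt (fun s => Y s i j) ((H t - Om t * Y t) i j) t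
  dH : ∀ t i j, HasDerivAt (fun s => H s i j) ((K t * Y t - Om t * H t) i j) t
  Y0 : Y 0 = 0
  H0 : H 0 = 1

/-- Type of flows on the tangent bundle. -/
abbrev Flo := ℝ → EE × EE → EE × EE

/-- Type of their derivatives. -/
abbrev DFlo := ℝ → EE × EE → (EE × EE) →L[ℝ] (EE × EE)

/-- A small conformal factor with its geodesic flow. -/
structure Ctx (f : EE → ℝ) (φ : Flo) (M : DFlo) : Prop where
  conf : Conf f
  flow : IsFlow OO (XX f) φ M

noncomputable def YD (f : EE → ℝ) (φ : Flo) (M : DFlo) (p : EE × EE) (t : ℝ) : M3 :=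
  fun i j => gg f (φ t p).1 (M t p (0, frame p j)).1 (frame (φ t p) i)

noncomputable def HD (f : EE → ℝ) (φ : Flo) (M : DFlo) (p : EE × EE) (t : ℝ) : M3 :=
  fun i j => gg f (φ t p).1 ((M t p (0, frame p j)).2 +
    Gam f (φ t p).1 (φ t p).2 (M t p (0, frame p j)).1) (frame (φ t p) i)

/-- The Riemannian volume density. -/
noncomputable def mm (f : EE → ℝ) (x : EE) : ℝ := Real.exp (4 * f x) / Dd x ^ 3

/-- The derivative of the exponential map. -/
noncomputable def dexp (M : DFlo) (p : EE × EE) : EE →L[ℝ] EE :=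
  (ContinuousLinearMap.fst ℝ EE EE).comp ((M 1 p).comp (ContinuousLinearMap.inr ℝ EE EE))

/-- The Riemannian Jacobian of the exponential map. -/
noncomputable def Jac (f : EE → ℝ) (φ : Flo) (M : DFlo) (p : EE × EE) : ℝ :=
  mm f (φ 1 p).1 * |(dexp M p).det| / mm f p.1

/-- `V y` is the inverse of the exponential map at `y`. -/
structure IsLog (φ : Flo) (V : EE → EE → EE) : Prop where
  right : ∀ y ∈ Bl, ∀ z ∈ Bl, (φ 1 (y, V y z)).1 = z
  left : ∀ y ∈ Bl, ∀ v, V y (φ 1 (y, v)).1 = v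
  cont : ContinuousOn (fun q : EE × EE => V q.1 q.2) (Bl ×ˢ Bl)

/-- The distance. -/
noncomputable def dd (f : EE → ℝ) (V : EE → EE → EE) (y z : EE) : ℝ := Real.sqrt (en f (y, V y z))

/-- The unit vector at `y` pointing to `z`. -/
noncomputable def dir (f : EE → ℝ) (V : EE → EE → EE) (y z : EE) : EE := (nrm f (y, V y z)).2

/-- The area element of the sphere of centre `y` through `z`. -/
noncomputable def JT (f : EE → ℝ) (φ : Flo) (M : DFlo) (V : EE → EE → EE) (y z : EE) : ℝ :=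
  (YD f φ M (y, dir f V y z) (dd f V y z)).det

/-- Vectors with length in a half open interval. -/
def thin (f : EE → ℝ) (a b : ℝ) : Set (EE × EE) := {p | p.1 ∈ Bl ∧ a ^ 2 < en f p ∧ en f p ≤ b ^ 2}

/-- A measurable set invariant under the flow, the group and positive scalings. -/
structure InvSet {G : Type} [Group G] (ρ : G →* C3) (φ : Flo) (A : Set (EE × EE)) : Prop where
  meas : MeasurableSet A
  flow : ∀ t, ∀ p : EE × EE, p.1 ∈ Bl → (φ t p ∈ A ↔ p ∈ A)
  grp : ∀ a, ∀ p : EE × EE, p.1 ∈ Bl → (mobT (ρ a) p ∈ A ↔ p ∈ A)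
  scale : ∀ c : ℝ, 0 < c → ∀ p : EE × EE, p.1 ∈ Bl → ((p.1, c • p.2) ∈ A ↔ p ∈ A)

end Pool.Agent.MP_019006_gt
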