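import Pool.Agent.MP_019006_gt.Main1

set_option autoImplicit false

open MeasureTheory Filter Topology Set Matrix

namespace Pool.Agent.MP_019006_gt

/-- A solution of the Jacobi system that satisfies the cone condition at all times. -/
structure TwoSys (K Om Y H : ℝ → M3) : Prop where
  Kc : Continuous K
  Oc : Continuous Om
  Ks : ∀ t, (K t)ᵀ = K t
  Oa : ∀ t, (Om t)ᵀ = -Om t
  dY : ∀ t i j, HasDerivAt (fun s => Y s i j) ((H t - Om t * Y t) i j) t
  dH : ∀ t i j, HasDerivAt (fun s => H s i j) ((K t * Y t - Om t * H t) i j) t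
  Y0 : Y 0 = 1
  det_pos : ∀ t, 0 < (Y t).det
  wronski : ∀ t, (Y t)ᵀ * H t = (H t)ᵀ * Y t
  cone : ∀ t, ∀ u : Fin 3 → ℝ, nsq ((H t - U0 * Y t) *ᵥ u) ≤ 1 / 100 * nsq (Y t *ᵥ u)
  Om0 : ∀ t j, |Om t 0 j| ≤ 1 / 100

/-- The unstable Riccati solution. -/
noncomputable def Uu (f : EE → ℝ) (φ : Flo) (M : DFlo) (q : EE × EE) : M3 :=
  fun i j => limUnder atTop fun n : ℕ =>
    (Hmat f φ M (φ (-(n : ℝ)) q) n * (Ymat f φ M (φ (-(n : ℝ)) q) n)⁻¹) i j

/-- The unstable Jacobi matrix. -/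
noncomputable def Yu (f : EE → ℝ) (φ : Flo) (M : DFlo) (q : EE × EE) (t : ℝ) : M3 :=
  Ymat f φ M q t + YD f φ M q t * (Uu f φ M q - U0)

noncomputable def Hu (f : EE → ℝ) (φ : Flo) (M : DFlo) (q : EE × EE) (t : ℝ) : M3 :=
  Hmat f φ M q t + HD f φ M q t * (Uu f φ M q - U0)

/-- The unit tangent bundle. -/
def unitB (f : EE → ℝ) : Set (EE × EE) := {p | p.1 ∈ Bl ∧ en f p = 1}

/-- The exponential growth rate function of a pair of vectors. -/
noncomputable def rate (y η : ℝ → Fin 3 → ℝ) (t : ℝ) : ℝ :=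
  Real.log (Real.sqrt (nsq (y t) + nsq (η t))) / t

end Pool.Agent.MP_019006_gt
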