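import Pool.Agent.MP_019006_gt.Metric
import Pool.Agent.MP_019006_gt.Mobius
import Pool.Agent.MP_019006_gt.MobLattice
import Pool.Agent.MP_019006_gt.Curv
import Pool.Agent.MP_019006_gt.Invar

set_option autoImplicit false

open MeasureTheory Filter Topology Set Matrix

namespace Pool.Agent.MP_019006_gt

namespace Bump

section general

variable {Λ : ℝ} {G : Type} [Group G] {ρ : G →* C3}

theorem u21 (hρ : IsLattice Λ G ρ) (a : G) : IsU21 (ρ a) := hρ.unit a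

theorem ext_inv (hρ : IsLattice Λ G ρ) (F0 : EE → ℝ) (a : G) {x : EE} (hx : x ∈ Bl) :
    ext ρ F0 (mob (ρ a) x) = ext ρ F0 x := by
  unfold ext
  rw [if_pos hx, if_pos (mob_mem (u21 hρ a) hx), ← (Equiv.mulRight a).tsum_eq
    fun b => F0 (mob (ρ b) x)]
  congr 1
  ext b
  rw [Equiv.coe_mulRight, map_mul, mob_mul (u21 hρ a) hx]

theorem ext_loc (hρ : IsLattice Λ G ρ) (hΛ : 4 ≤ Λ) {F0 : EE → ℝ}
    (h0 : ∀ y, 1 / 4 ≤ ‖y‖ → F0 y = 0) {x : EE} (hx : ‖x‖ < 1 / 2) : ext ρ F0 x = F0 x := by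
  have hB : x ∈ Bl := mem_Bl.2 (by linarith)
  unfold ext
  rw [if_pos hB, tsum_eq_single 1, map_one, mob_one]
  intro a ha
  apply h0
  have h1 := lattice_far hρ (by linarith) a ha hx.le
  have h2 : 4 / Λ ^ 2 ≤ 1 / 4 := by
    rw [div_le_div_iff₀ (by positivity) (by norm_num)]; nlinarith
  unfold Dd at h1
  by_contra hn
  have := norm_nonneg (mob (ρ a) x)
  nlinarith

theorem continuousAt_mob (hρ : IsLattice Λ G ρ) (a : G) {x : EE} (hx : x ∈ Bl) :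
    ContinuousAt (mob (ρ a)) x :=
  (contDiffOn_mob (u21 hρ a) 0).continuousOn.continuousAt (isOpen_Bl.mem_nhds hx)

theorem ext_near (hρ : IsLattice Λ G ρ) (hΛ : 4 ≤ Λ) {F0 : EE → ℝ}
    (h0 : ∀ y, 1 / 4 ≤ ‖y‖ → F0 y = 0) (a : G) {x : EE} (hx : x ∈ Bl)
    (ha : ‖mob (ρ a) x‖ < 1 / 2) : ext ρ F0 =ᶠ[𝓝 x] fun y => F0 (mob (ρ a) y) := by
  have h1 : ∀ᶠ y in 𝓝 x, ‖mob (ρ a) y‖ < 1 / 2 :=
    (continuousAt_mob hρ a hx).norm.eventually (gt_mem_nhds ha)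
  filter_upwards [h1, isOpen_Bl.mem_nhds hx] with y h2 h3
  rw [← ext_inv hρ F0 a h3, ext_loc hρ hΛ h0 h2]

theorem ext_zero (hρ : IsLattice Λ G ρ) {F0 : EE → ℝ} {t : ℝ} (ht : t ≤ 1 / 2)
    (h0 : ∀ y, t ≤ ‖y‖ → F0 y = 0) {x : EE} (hx : x ∈ Bl)
    (ha : ∀ a, t < ‖mob (ρ a) x‖) : ext ρ F0 =ᶠ[𝓝 x] fun _ => 0 := by
  have hD := Dd_pos hx
  set c := min (Dd x / 2) (1 / 2) with hc
  have hc0 : 0 < c := lt_min (by linarith) (by norm_num)
  have hfin := lattice_fin hρ c hc0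
  have h1 : ∀ᶠ y in 𝓝 x, ∀ a ∈ {a : G | ∃ x ∈ Bl, c ≤ Dd x ∧ c ≤ Dd (mob (ρ a) x)},
      t < ‖mob (ρ a) y‖ :=
    (eventually_all_finite hfin).2 fun a _ =>
      (continuousAt_mob hρ a hx).norm.eventually (lt_mem_nhds (ha a))
  have h2 : ∀ᶠ y in 𝓝 x, Dd x / 2 < Dd y :=
    Mob.continuous_Dd.continuousAt.eventually (lt_mem_nhds (by linarith))
  filter_upwards [h1, h2, isOpen_Bl.mem_nhds hx] with y h3 h4 h5
  unfold ext
  rw [if_pos h5]
  have : ∀ a, F0 (mob (ρ a) y) = 0 := by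
    intro a
    apply h0
    by_cases h6 : c ≤ Dd (mob (ρ a) y)
    · exact (h3 a ⟨y, h5, (min_le_left _ _).trans h4.le, h6⟩).le
    · have h7 : c ≤ 1 / 2 := min_le_right _ _
      unfold Dd at h6
      by_contra hn
      have := norm_nonneg (mob (ρ a) y)
      nlinarith
  simp [this]

theorem ext_cases (hρ : IsLattice Λ G ρ) (hΛ : 4 ≤ Λ) {F0 : EE → ℝ}
    (h0 : ∀ y, 1 / 4 ≤ ‖y‖ → F0 y = 0) {x : EE} (hx : x ∈ Bl) :
    (∃ a, ext ρ F0 =ᶠ[𝓝 x] fun y => F0 (mob (ρ a) y)) ∨ ext ρ F0 =ᶠ[𝓝 x] fun _ => 0 := by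
  by_cases h : ∃ a, ‖mob (ρ a) x‖ < 1 / 2
  · obtain ⟨a, ha⟩ := h
    exact Or.inl ⟨a, ext_near hρ hΛ h0 a hx ha⟩
  · push Not at h
    exact Or.inr (ext_zero hρ (by norm_num) h0 hx fun a => by linarith [h a])

theorem ext_smooth (hρ : IsLattice Λ G ρ) (hΛ : 4 ≤ Λ) {F0 : EE → ℝ}
    (h0 : ∀ y, 1 / 4 ≤ ‖y‖ → F0 y = 0) (n : ℕ) (hs : ContDiff ℝ n F0) :
    ContDiffOn ℝ n (ext ρ F0) Bl := by
  intro x hx
  apply ContDiffAt.contDiffWithinAt
  rcases ext_cases hρ hΛ h0 hx with ⟨a, h⟩ | h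
  · exact (hs.contDiffAt.comp x ((contDiffOn_mob (u21 hρ a) n).contDiffAt
      (isOpen_Bl.mem_nhds hx))).congr_of_eventuallyEq h
  · exact contDiffAt_const.congr_of_eventuallyEq h

end general

theorem TT_congr {f g : EE → ℝ} {x : EE} (h : f =ᶠ[𝓝 x] g) (u w : EE) :
    TT f x u w = TT g x u w := by
  have h1 : fderiv ℝ f x = fderiv ℝ g x := h.fderiv_eq
  have h2 : (fun y => fderiv ℝ f y w) =ᶠ[𝓝 x] fun y => fderiv ℝ g y w := by
    filter_upwards [h.fderiv (𝕜 := ℝ)] with y hy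
    rw [hy]
  have h3 : gradient f x = gradient g x := h.gradient_eq
  unfold TT Hess NN
  rw [h1, h2.fderiv_eq, h3]

theorem TT_zero (x u w : EE) : TT (fun _ => 0) x u w = 0 := by
  simp [TT, Hess]

theorem g0_nonneg {x : EE} (hx : x ∈ Bl) (u : EE) : 0 ≤ g0 x u u :=
  (sq_nonneg _).trans (g0_bounds hx u).1

theorem abs_g0_le {x : EE} (hx : x ∈ Bl) (u w : EE) :
    |g0 x u w| ≤ (g0 x u u + g0 x w w) / 2 := by
  have h1 := norm_hh_sq_le hx u w
  have h2 : |g0 x u w| ≤ ‖hh x u w‖ := Complex.abs_re_le_norm _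
  have h3 := g0_nonneg hx u
  have h4 := g0_nonneg hx w
  refine h2.trans (abs_le_of_sq_le_sq' ?_ (by linarith)).2
  nlinarith [sq_nonneg (g0 x u u - g0 x w w)]

theorem norm_mul_le {x : EE} (hx : x ∈ Bl) (u w : EE) :
    ‖u‖ * ‖w‖ ≤ (g0 x u u + g0 x w w) / 2 := by
  have h1 := (g0_bounds hx u).1
  have h2 := (g0_bounds hx w).1
  nlinarith [sq_nonneg (‖u‖ - ‖w‖)]

theorem norm_al_le {x : EE} (hx : ‖x‖ ≤ 1 / 2) (u : EE) : ‖al x u‖ ≤ ‖u‖ := by
  have h0 := norm_nonneg x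
  have hD : 1 / 2 ≤ Dd x := by unfold Dd; nlinarith
  unfold al
  rw [norm_div, Complex.norm_real, Real.norm_eq_abs, abs_of_pos (by linarith),
    div_le_iff₀ (by linarith)]
  refine (norm_ip_le u x).trans (mul_le_mul_of_nonneg_left (by linarith) (norm_nonneg _))

theorem norm_Gam0_le {x : EE} (hx : ‖x‖ ≤ 1 / 2) (u w : EE) :
    ‖Gam0 x u w‖ ≤ 2 * (‖u‖ * ‖w‖) := by
  unfold Gam0
  refine (norm_add_le _ _).trans ?_
  rw [norm_smul, norm_smul]
  have h1 := mul_le_mul_of_nonneg_right (norm_al_le hx u) (norm_nonneg w)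
  have h2 := mul_le_mul_of_nonneg_right (norm_al_le hx w) (norm_nonneg u)
  linarith

/-- the pointwise smallness statement. -/
structure Small (f : EE → ℝ) (x : EE) (k r : ℝ) : Prop where
  fb : |f x| ≤ k
  dfb : ∀ u, (fderiv ℝ f x u) ^ 2 ≤ (k * r) ^ 2 * g0 x u u
  Tb : ∀ u w, |TT f x u w| ≤ 4 * k * ((g0 x u u + g0 x w w) / 2)

theorem small_of_zero {f : EE → ℝ} {x : EE} (hx : x ∈ Bl) (h : f =ᶠ[𝓝 x] fun _ => 0) {k r : ℝ}
    (hk : 0 ≤ k) : Small f x k r := by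
  refine ⟨?_, fun u => ?_, fun u w => ?_⟩
  · rw [h.eq_of_nhds]; simpa using hk
  · rw [h.fderiv_eq]
    have := g0_nonneg hx u
    simp only [fderiv_fun_const, Pi.zero_apply, _root_.zero_apply]
    norm_num
    positivity
  · rw [TT_congr h, TT_zero, abs_zero]
    have := g0_nonneg hx u
    have := g0_nonneg hx w
    positivity

theorem Small.congr {f g : EE → ℝ} {x : EE} {k r : ℝ} (h : f =ᶠ[𝓝 x] g) (hs : Small g x k r) :
    Small f x k r := by
  refine ⟨?_, fun u => ?_, fun u w => ?_⟩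
  · rw [h.eq_of_nhds]; exact hs.fb
  · rw [h.fderiv_eq]; exact hs.dfb u
  · rw [TT_congr h]; exact hs.Tb u w

theorem Small.of_mob {A : C3} (hA : IsU21 A) {f : EE → ℝ} (hf : ∀ n : ℕ, ContDiffOn ℝ n f Bl)
    (hfA : ∀ x ∈ Bl, f (mob A x) = f x) {x : EE} (hx : x ∈ Bl) {k r : ℝ}
    (hs : Small f (mob A x) k r) : Small f x k r := by
  have hg : ∀ u, g0 (mob A x) (dmob A x u) (dmob A x u) = g0 x u u := fun u => by
    unfold g0; rw [hh_mob hA hx]
  refine ⟨?_, fun u => ?_, fun u w => ?_⟩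
  · rw [← hfA x hx]; exact hs.fb
  · rw [← fderiv_f_mob hA hf hfA hx, ← hg]; exact hs.dfb _
  · rw [← TT_mob hA hf hfA hx, ← hg u, ← hg w]; exact hs.Tb _ _

theorem fderiv_f0 {F : EE → ℝ} (hF : Differentiable ℝ F) (ε : ℝ) {r : ℝ} (hr : r ≠ 0)
    (x u : EE) : fderiv ℝ (f0 F ε r) x u = ε * r * fderiv ℝ F (r⁻¹ • x) u := by
  have h1 : HasFDerivAt (fun y : EE => r⁻¹ • y) (r⁻¹ • ContinuousLinearMap.id ℝ EE) x :=
    (hasFDerivAt_id x).const_smul r⁻¹
  have h2 := (((hF (r⁻¹ • x)).hasFDerivAt).comp x h1).const_mul (ε * r ^ 2)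
  have e : f0 F ε r = fun y => ε * r ^ 2 * (F ∘ fun y : EE => r⁻¹ • y) y := rfl
  rw [e, h2.fderiv]
  simp only [_root_.smul_apply, ContinuousLinearMap.comp_apply, ContinuousLinearMap.id_apply,
    map_smul, smul_eq_mul]
  field_simp

theorem fderiv2_f0 {F : EE → ℝ} (hF : ContDiff ℝ 2 F) (ε : ℝ) {r : ℝ} (hr : r ≠ 0)
    (x u w : EE) : fderiv ℝ (fun y => fderiv ℝ (f0 F ε r) y w) x u =
      ε * fderiv ℝ (fderiv ℝ F) (r⁻¹ • x) u w := by
  have hd : Differentiable ℝ F := hF.differentiable (by norm_num)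
  have hd2 : Differentiable ℝ (fderiv ℝ F) :=
    (hF.fderiv_right (m := 1) (by norm_num)).differentiable (by norm_num)
  simp only [fderiv_f0 hd ε hr]
  have h1 : HasFDerivAt (fun y : EE => r⁻¹ • y) (r⁻¹ • ContinuousLinearMap.id ℝ EE) x :=
    (hasFDerivAt_id x).const_smul r⁻¹
  have h2 := ((hd2 (r⁻¹ • x)).hasFDerivAt).comp x h1
  have h3 := ((ContinuousLinearMap.apply ℝ ℝ w).hasFDerivAt.comp x h2).const_mul (ε * r)
  have e : (fun y => ε * r * fderiv ℝ F (r⁻¹ • y) w) = fun y => ε * r *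
      ((ContinuousLinearMap.apply ℝ ℝ w) ∘ (fderiv ℝ F ∘ fun y : EE => r⁻¹ • y)) y := rfl
  rw [e, h3.fderiv]
  simp only [_root_.smul_apply, ContinuousLinearMap.comp_apply, ContinuousLinearMap.id_apply,
    map_smul, smul_eq_mul, ContinuousLinearMap.apply_apply]
  field_simp

theorem small_f0 {F : EE → ℝ} (hF : ContDiff ℝ 2 F) {CF : ℝ} (h0 : ∀ y, |F y| ≤ CF)
    (h1 : ∀ y, ‖fderiv ℝ F y‖ ≤ CF) (h2 : ∀ y, ‖fderiv ℝ (fderiv ℝ F) y‖ ≤ CF) {ε r : ℝ}
    (hε : 0 < ε) (hk : CF * ε ≤ 1) (hr : 0 < r) (hr' : r ≤ 1 / 2) {x : EE} (hx : ‖x‖ ≤ 1 / 2) :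
    Small (f0 F ε r) x (CF * ε) r := by
  have hB : x ∈ Bl := mem_Bl.2 (by linarith)
  have hd : Differentiable ℝ F := hF.differentiable (by norm_num)
  have hC : 0 ≤ CF := (abs_nonneg _).trans (h0 0)
  set k := CF * ε with hkdef
  have hk0 : 0 ≤ k := by positivity
  have hdf : ∀ u, |fderiv ℝ (f0 F ε r) x u| ≤ k * r * ‖u‖ := by
    intro u
    rw [fderiv_f0 hd ε hr.ne', abs_mul, abs_of_pos (mul_pos hε hr)]
    have : |fderiv ℝ F (r⁻¹ • x) u| ≤ CF * ‖u‖ :=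
      (ContinuousLinearMap.le_opNorm _ u).trans
        (mul_le_mul_of_nonneg_right (h1 _) (norm_nonneg _))
    calc ε * r * |fderiv ℝ F (r⁻¹ • x) u| ≤ ε * r * (CF * ‖u‖) :=
          mul_le_mul_of_nonneg_left this (by positivity)
      _ = k * r * ‖u‖ := by rw [hkdef]; ring
  have hdf2 : ∀ u, (fderiv ℝ (f0 F ε r) x u) ^ 2 ≤ (k * r) ^ 2 * g0 x u u := by
    intro u
    have h3 := pow_le_pow_left₀ (abs_nonneg _) (hdf u) 2
    rw [sq_abs, mul_pow] at h3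
    exact h3.trans (mul_le_mul_of_nonneg_left (g0_bounds hB u).1 (by positivity))
  have hkr : k * r ≤ k / 2 := by nlinarith
  have hkr0 : 0 ≤ k * r := by positivity
  have hkr2 : (k * r) ^ 2 ≤ k := by nlinarith
  refine ⟨?_, hdf2, fun u w => ?_⟩
  · unfold f0
    rw [abs_mul, abs_of_pos (by positivity)]
    have h3 := h0 (r⁻¹ • x)
    have h4 : r ^ 2 ≤ 1 := by nlinarith
    calc ε * r ^ 2 * |F (r⁻¹ • x)| ≤ ε * 1 * CF := by gcongr
      _ = k := by rw [hkdef]; ring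
  · have hm := norm_mul_le hB u w
    have hg := abs_g0_le hB u w
    set m := (g0 x u u + g0 x w w) / 2
    have huw : 0 ≤ ‖u‖ * ‖w‖ := by positivity
    have a1 : |fderiv ℝ (fun y => fderiv ℝ (f0 F ε r) y w) x u| ≤ k * m := by
      rw [fderiv2_f0 hF ε hr.ne', abs_mul, abs_of_pos hε]
      have : |fderiv ℝ (fderiv ℝ F) (r⁻¹ • x) u w| ≤ CF * (‖u‖ * ‖w‖) := by
        refine (ContinuousLinearMap.le_opNorm₂ (fderiv ℝ (fderiv ℝ F) (r⁻¹ • x)) u w).trans ?_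
        rw [mul_assoc]
        exact mul_le_mul_of_nonneg_right (h2 _) huw
      calc ε * |fderiv ℝ (fderiv ℝ F) (r⁻¹ • x) u w| ≤ ε * (CF * m) := by
            gcongr; exact this.trans (mul_le_mul_of_nonneg_left hm hC)
        _ = k * m := by rw [hkdef]; ring
    have a2 : |fderiv ℝ (f0 F ε r) x (Gam0 x u w)| ≤ k * m := by
      refine (hdf _).trans ?_
      have h3 := norm_Gam0_le hx u w
      calc k * r * ‖Gam0 x u w‖ ≤ k / 2 * (2 * m) := by gcongr; linarith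
        _ = k * m := by ring
    have a3 : |fderiv ℝ (f0 F ε r) x u * fderiv ℝ (f0 F ε r) x w| ≤ k * m := by
      rw [abs_mul]
      calc |fderiv ℝ (f0 F ε r) x u| * |fderiv ℝ (f0 F ε r) x w|
          ≤ (k * r * ‖u‖) * (k * r * ‖w‖) := by gcongr <;> exact hdf _
        _ = (k * r) ^ 2 * (‖u‖ * ‖w‖) := by ring
        _ ≤ k * m := by gcongr
    have a4 : |1 / 2 * fderiv ℝ (f0 F ε r) x (NN (f0 F ε r) x) * g0 x u w| ≤ k * m := by
      have h3 := hdf2 (NN (f0 F ε r) x)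
      have h4 := g0_nonneg hB (NN (f0 F ε r) x)
      rw [g0_NN _ hB] at h3 h4
      set n := fderiv ℝ (f0 F ε r) x (NN (f0 F ε r) x)
      have h5 : n ≤ (k * r) ^ 2 := by
        by_contra hn
        push Not at hn
        have : 0 < n := lt_of_le_of_lt (by positivity) hn
        nlinarith
      rw [abs_mul, abs_of_nonneg (by positivity : 0 ≤ 1 / 2 * n)]
      gcongr
      linarith
    unfold TT Hess
    have b1 := abs_le.1 a1
    have b2 := abs_le.1 a2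
    have b3 := abs_le.1 a3
    have b4 := abs_le.1 a4
    rw [abs_le]
    constructor <;> linarith [b1.1, b1.2, b2.1, b2.2, b3.1, b3.2, b4.1, b4.2]

theorem exists_bound {F : EE → ℝ} (hF : ContDiff ℝ 2 F) (hs : ∀ x, 1 ≤ ‖x‖ → F x = 0) :
    ∃ CF : ℝ, (∀ y, |F y| ≤ CF) ∧ (∀ y, ‖fderiv ℝ F y‖ ≤ CF) ∧
      ∀ y, ‖fderiv ℝ (fderiv ℝ F) y‖ ≤ CF := by
  have hc : HasCompactSupport F := HasCompactSupport.intro (isCompact_closedBall 0 1) fun x hx =>
    hs x (by rw [mem_closedBall_zero_iff, not_le] at hx; exact hx.le)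
  have hF1 : ContDiff ℝ 1 (fderiv ℝ F) := hF.fderiv_right (by norm_num)
  obtain ⟨C0, h0⟩ := hF.continuous.bounded_above_of_compact_support hc
  obtain ⟨C1, h1⟩ := hF1.continuous.bounded_above_of_compact_support (hc.fderiv ℝ)
  obtain ⟨C2, h2⟩ := (hF1.continuous_fderiv (by norm_num)).bounded_above_of_compact_support
    ((hc.fderiv ℝ).fderiv ℝ)
  exact ⟨max C0 (max C1 C2), fun y => (h0 y).trans (le_max_left _ _),
    fun y => (h1 y).trans ((le_max_left _ _).trans (le_max_right _ _)),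
    fun y => (h2 y).trans ((le_max_right _ _).trans (le_max_right _ _))⟩

theorem f0_zero {F : EE → ℝ} (hs : ∀ x, 1 ≤ ‖x‖ → F x = 0) (ε : ℝ) {r : ℝ} (hr : 0 < r)
    (y : EE) (hy : r ≤ ‖y‖) : f0 F ε r y = 0 := by
  unfold f0
  rw [hs, mul_zero]
  rw [norm_smul, norm_inv, Real.norm_eq_abs, abs_of_pos hr, ← div_eq_inv_mul, one_le_div hr]
  exact hy

theorem b0_zero {r : ℝ} (hr : 0 < r) (y : EE) (hy : 2 * r ≤ ‖y‖) : b0 r y = 0 := by
  unfold b0
  have : 2 ≤ ‖y‖ / r := by rwa [le_div_iff₀ hr]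
  exact max_eq_left ((min_le_right _ _).trans (by linarith))

theorem b0_one {r : ℝ} (hr : 0 < r) (y : EE) (hy : ‖y‖ ≤ r) : b0 r y = 1 := by
  unfold b0
  have : ‖y‖ / r ≤ 1 := by rwa [div_le_one hr]
  rw [min_eq_left (by linarith), max_eq_right zero_le_one]

theorem b0_mem (r : ℝ) (y : EE) : 0 ≤ b0 r y ∧ b0 r y ≤ 1 :=
  ⟨le_max_left _ _, max_le zero_le_one (min_le_left _ _)⟩

theorem b0_cont (r : ℝ) : Continuous (b0 r) := by unfold b0; fun_prop

theorem g0_of_gg {f : EE → ℝ} {x u : EE} (hf : |f x| ≤ 1 / 100) (h : gg f x u u = 1) :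
    g0 x u u ≤ 2 := by
  rw [gg_apply] at h
  have h1 : 1 / 2 ≤ Real.exp (2 * f x) := by
    have := Real.add_one_le_exp (2 * f x)
    have := (abs_le.1 hf).1
    linarith
  by_contra hn
  nlinarith

end Bump

open Bump in
theorem bump_main {F : EE → ℝ} {s₀ : ℝ} (hF : IsProfile F s₀) : ∃ C : ℝ, 1 ≤ C ∧
    ∀ (ε r Λ : ℝ) (G : Type) [Group G] (ρ : G →* C3) (f β : EE → ℝ), 0 < ε → C * ε ≤ 1 / 100 →
      0 < r → r ≤ 1 / 20 → 4 ≤ Λ → IsLattice Λ G ρ → f = ext ρ (f0 F ε r) → β = ext ρ (b0 r) →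
      Conf f ∧ (∀ a, ∀ x ∈ Bl, f (mob (ρ a) x) = f x) ∧ (∀ a, ∀ x ∈ Bl, β (mob (ρ a) x) = β x) ∧
      ContinuousOn β Bl ∧ (∀ x, 0 ≤ β x ∧ β x ≤ 1) ∧
      (∀ x, ‖x‖ < 1 / 2 → f x = f0 F ε r x ∧ β x = b0 r x) ∧
      (∀ x ∈ Bl, β x ≠ 0 → ∃ a, ‖mob (ρ a) x‖ < 2 * r) ∧
      ∀ p : EE × EE, p.1 ∈ Bl → en f p = 1 →
        (∀ i j, |(Kmat f p - K0) i j| ≤ C * ε * β p.1) ∧
        ∀ j, |Omat f p 0 j| ≤ C * ε * (6 * r) * β p.1 := by
  have hF2 : ContDiff ℝ 2 F := hF.smooth 2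
  obtain ⟨CF, h0, h1, h2⟩ := exists_bound hF2 hF.supp
  have hC : 0 ≤ CF := (abs_nonneg _).trans (h0 0)
  refine ⟨32 * CF + 1, by linarith, ?_⟩
  intro ε r Λ G _ ρ f β hε hCε hr hr' hΛ hρ hf hβ
  have hk : CF * ε ≤ 1 / 3200 := by nlinarith
  have hk0 : 0 ≤ CF * ε := by positivity
  have zf : ∀ y : EE, 1 / 4 ≤ ‖y‖ → f0 F ε r y = 0 := fun y hy =>
    f0_zero hF.supp ε hr y (by linarith)
  have zb : ∀ y : EE, 1 / 4 ≤ ‖y‖ → b0 r y = 0 := fun y hy => b0_zero hr y (by linarith)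
  have fsm : ∀ n : ℕ, ContDiffOn ℝ n f Bl := fun n => by
    rw [hf]
    exact ext_smooth hρ hΛ zf n
      (contDiff_const.mul ((hF.smooth n).comp (contDiff_id.const_smul r⁻¹)))
  have finv : ∀ a, ∀ x ∈ Bl, f (mob (ρ a) x) = f x := fun a x hx => by
    rw [hf]; exact ext_inv hρ _ a hx
  have binv : ∀ a, ∀ x ∈ Bl, β (mob (ρ a) x) = β x := fun a x hx => by
    rw [hβ]; exact ext_inv hρ _ a hx
  have bcont : ContinuousOn β Bl := by
    rw [hβ]
    exact (ext_smooth hρ hΛ zb 0 (contDiff_zero.2 (b0_cont r))).continuousOn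
  have bmem : ∀ x, 0 ≤ β x ∧ β x ≤ 1 := by
    intro x
    rw [hβ]
    by_cases hx : x ∈ Bl
    · rcases ext_cases hρ hΛ zb hx with ⟨a, h⟩ | h
      · rw [h.eq_of_nhds]; exact b0_mem _ _
      · rw [h.eq_of_nhds]; norm_num
    · unfold ext; rw [if_neg hx]; norm_num
  have loc : ∀ x, ‖x‖ < 1 / 2 → f x = f0 F ε r x ∧ β x = b0 r x := fun x hx => by
    rw [hf, hβ]; exact ⟨ext_loc hρ hΛ zf hx, ext_loc hρ hΛ zb hx⟩
  have small : ∀ x ∈ Bl, Small f x (CF * ε * β x) r := by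
    intro x hx
    by_cases h : ∃ a, ‖mob (ρ a) x‖ ≤ r
    · obtain ⟨a, ha⟩ := h
      have hlt : ‖mob (ρ a) x‖ < 1 / 2 := by linarith
      have hb : β x = 1 := by rw [← binv a x hx, (loc _ hlt).2, b0_one hr _ ha]
      rw [hb, mul_one]
      refine Small.of_mob (u21 hρ a) fsm (finv a) hx (Small.congr ?_
        (small_f0 hF2 h0 h1 h2 hε (by linarith) hr (by linarith) hlt.le))
      filter_upwards [continuous_norm.continuousAt.eventually (gt_mem_nhds hlt)] with y hy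
      exact (loc y hy).1
    · push Not at h
      refine small_of_zero hx ?_ (mul_nonneg hk0 (bmem x).1)
      rw [hf]
      exact ext_zero hρ (by linarith) (f0_zero hF.supp ε hr) hx h
  have kb : ∀ x, 0 ≤ CF * ε * β x ∧ CF * ε * β x ≤ 1 / 3200 := fun x =>
    ⟨mul_nonneg hk0 (bmem x).1, by nlinarith [bmem x]⟩
  have fb : ∀ x ∈ Bl, |f x| ≤ 1 / 100 := fun x hx =>
    (small x hx).fb.trans (by linarith [(kb x).2])
  refine ⟨⟨fsm, fb, fun x hx u => ?_, fun x hx u => ?_⟩, finv, binv, bcont, bmem, loc, ?_, ?_⟩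
  · refine ((small x hx).dfb u).trans (mul_le_mul_of_nonneg_right ?_ (g0_nonneg hx u))
    obtain ⟨k0, k1⟩ := kb x
    have : CF * ε * β x * r ≤ 1 / 100 := by nlinarith
    have h3 : 0 ≤ CF * ε * β x * r := by positivity
    nlinarith
  · refine ((small x hx).Tb u u).trans ?_
    have := g0_nonneg hx u
    nlinarith [(kb x).2]
  · intro x hx hb
    by_contra hn
    push Not at hn
    apply hb
    rw [hβ]
    unfold ext
    rw [if_pos hx]
    simp [fun a => b0_zero hr _ (hn a)]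
  · intro p hp he
    obtain ⟨k0, k1⟩ := kb p.1
    have hs := small p.1 hp
    set k := CF * ε * β p.1 with hkdef
    have hkC : 32 * k ≤ (32 * CF + 1) * ε * β p.1 := by
      rw [hkdef]
      have := mul_nonneg hε.le (bmem p.1).1
      nlinarith
    have gv : g0 p.1 p.2 p.2 ≤ 2 := g0_of_gg (fb _ hp) he
    have gf : ∀ i, g0 p.1 (frame p i) (frame p i) ≤ 2 := fun i =>
      g0_of_gg (fb _ hp) (by rw [(frame_orth hp he i i).1, Matrix.one_apply_eq])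
    constructor
    · intro i j
      rw [Matrix.sub_apply, Kmat_eq fsm hp he]
      have a1 : |Real.exp (-2 * f p.1) - 1| ≤ 4 * k := by
        have h3 := hs.fb
        have h4 : |-2 * f p.1| = 2 * |f p.1| := by rw [abs_mul]; norm_num
        refine (Real.abs_exp_sub_one_le (by rw [h4]; linarith)).trans ?_
        rw [h4]; linarith
      have a2 : |K0 i j| ≤ 4 := by
        fin_cases i <;> fin_cases j <;> simp [K0]
      have a3 : |(1 : M3) i j| ≤ 1 := by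
        rw [Matrix.one_apply]; split_ifs <;> simp
      have a4 : |TT f p.1 p.2 p.2| ≤ 8 * k := (hs.Tb _ _).trans (by nlinarith)
      have a5 : |TT f p.1 (frame p j) (frame p i)| ≤ 8 * k :=
        (hs.Tb _ _).trans (by nlinarith [gf i, gf j])
      have a6 : |(Real.exp (-2 * f p.1) - 1) * K0 i j| ≤ 4 * k * 4 := by
        rw [abs_mul]; gcongr
      have a7 : |TT f p.1 p.2 p.2 * (1 : M3) i j| ≤ 8 * k * 1 := by
        rw [abs_mul]; gcongr
      have b5 := abs_le.1 a5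
      have b6 := abs_le.1 a6
      have b7 := abs_le.1 a7
      rw [abs_le]
      constructor <;> linarith [b5.1, b5.2, b6.1, b6.2, b7.1, b7.2]
    · have hb : ∀ i, |fderiv ℝ f p.1 (frame p i)| ≤ (32 * CF + 1) * ε * (6 * r) * β p.1 := by
        intro i
        have h3 : |fderiv ℝ f p.1 (frame p i)| ≤ 2 * (k * r) := by
          apply abs_le_of_sq_le_sq _ (by positivity)
          refine (hs.dfb _).trans ?_
          nlinarith [gf i, sq_nonneg (k * r)]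
        refine h3.trans ?_
        have h4 : (32 * CF + 1) * ε * (6 * r) * β p.1 = (32 * CF + 1) * ε * β p.1 * (6 * r) := by
          ring
        rw [h4]
        nlinarith
      obtain ⟨o0, o1, o2⟩ := Omat_zero fsm hp he
      intro j
      fin_cases j
      · exact (le_of_eq (by simpa using o0)).trans ((abs_nonneg _).trans (hb 0))
      · exact (le_of_eq (congrArg abs o1)).trans (hb 2)
      · exact (le_of_eq ((congrArg abs o2).trans (abs_neg _))).trans (hb 1)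

end Pool.Agent.MP_019006_gt
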