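import Pool.Agent.MP_019006_gt.OdeDir1

set_option autoImplicit false

open MeasureTheory Filter Topology Set Matrix

namespace Pool.Agent.MP_019006_gt

namespace OdeD

open OdeC (MD mono anti om_facts UU UU_mul inv_deriv abs_mul_le')

variable {K Om Y H : ℝ → M3}

/-- a solution of the Riccati equation at a point, with the bounds that are used -/
structure Ric (U : ℝ → M3) (k o : M3) (t : ℝ) : Prop where
  der : MD U (k - o * U t - U t * U t + U t * o) t
  skew : oᵀ = -o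
  low : ∀ u, 9 / 10 * nsq u ≤ u ⬝ᵥ (U t *ᵥ u)
  ent : ∀ i j, |U t i j| ≤ cX

lemma ric (h : DirSys K Om Y H) {t : ℝ} (ht : 1 ≤ t) : Ric (UU Y H) (K t) (Om t) t :=
  ⟨U_deriv h (by linarith), h.Oa t, U_low h (by linarith), U_entry h ht⟩

lemma Ric.shift {U : ℝ → M3} {k o : M3} {s t : ℝ} (h : Ric U k o (s + t)) :
    Ric (fun r => U (s + r)) k o t :=
  ⟨OdeMul.HD.shift (F := U) h.der, h.skew, h.low, h.ent⟩

/-- the Frobenius pairing -/
def pr (A B : M3) : ℝ := ∑ i, ∑ j, A i j * B i j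

lemma pr_left (W U : M3) : pr W (U * W) =
    W.col 0 ⬝ᵥ (U *ᵥ W.col 0) + W.col 1 ⬝ᵥ (U *ᵥ W.col 1) + W.col 2 ⬝ᵥ (U *ᵥ W.col 2) := by
  simp only [pr, Matrix.mul_apply, dotProduct, Matrix.mulVec, Fin.sum_univ_three, Matrix.col_apply]
  ring

lemma pr_right (W U : M3) : pr W (W * U) =
    W 0 ⬝ᵥ (U *ᵥ W 0) + W 1 ⬝ᵥ (U *ᵥ W 1) + W 2 ⬝ᵥ (U *ᵥ W 2) := by
  simp only [pr, Matrix.mul_apply, dotProduct, Matrix.mulVec, Fin.sum_univ_three]
  ring

lemma fro_cols (W : M3) : fro W ^ 2 = nsq (W.col 0) + nsq (W.col 1) + nsq (W.col 2) := by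
  rw [OdeMul.fro_sq]
  simp only [nsq, Fin.sum_univ_three, Matrix.col_apply]
  ring

lemma fro_rows (W : M3) : fro W ^ 2 = nsq (W 0) + nsq (W 1) + nsq (W 2) := by
  rw [OdeMul.fro_sq]
  simp only [nsq, Fin.sum_univ_three]

lemma pr_small (W R : M3) {x : ℝ} (h : ∀ i j, |R i j| ≤ x) :
    2 * pr W R ≤ 8 / 5 * fro W ^ 2 + 6 * x ^ 2 := by
  have q : ∀ i j, 2 * (W i j * R i j) ≤ 8 / 5 * W i j ^ 2 + 5 / 8 * x ^ 2 := fun i j => by
    have := sq_le_sq' (abs_le.1 (h i j)).1 (abs_le.1 (h i j)).2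
    nlinarith [sq_nonneg (8 / 5 * W i j - R i j)]
  rw [OdeMul.fro_sq]
  simp only [pr, Fin.sum_univ_three]
  nlinarith [q 0 0, q 0 1, q 0 2, q 1 0, q 1 1, q 1 2, q 2 0, q 2 1, q 2 2, sq_nonneg x]

lemma mul_entry {A B : M3} {a b : ℝ} (hA : ∀ i j, |A i j| ≤ a) (hB : ∀ i j, |B i j| ≤ b)
    (i j : Fin 3) : |(A * B) i j| ≤ 3 * (a * b) := by
  have q : ∀ k, |A i k * B k j| ≤ a * b := fun k => abs_mul_le' (hA i k) (hB k j)
  rw [Matrix.mul_apply, Fin.sum_univ_three, abs_le]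
  constructor <;> linarith [abs_le.1 (q 0), abs_le.1 (q 1), abs_le.1 (q 2)]

lemma W_deriv {U U' : ℝ → M3} {k o k' o' : M3} {t δ : ℝ} (h : Ric U k o t) (h' : Ric U' k' o' t)
    (hd : ∀ i j, |k i j - k' i j| ≤ δ ∧ |o i j - o' i j| ≤ δ) :
    ∃ d, HasDerivAt (fun s => fro (U s - U' s) ^ 2) d t ∧
      d ≤ -2 * fro (U t - U' t) ^ 2 + 6 * ((1 + 6 * cX) * δ) ^ 2 := by
  have h1 := h.der.sub h'.der
  set W := U t - U' t with hW
  set R := k - k' - (o - o') * U' t + U' t * (o - o') with hR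
  have e : k - o * U t - U t * U t + U t * o - (k' - o' * U' t - U' t * U' t + U' t * o') =
      R - o * W - U t * W - W * U' t + W * o := by
    rw [hR, hW]
    noncomm_ring
  rw [e] at h1
  have h2 : HasDerivAt (fun s => fro (U s - U' s) ^ 2)
      (2 * pr W (R - o * W - U t * W - W * U' t + W * o)) t := by
    simp only [OdeMul.fro_sq, pr, Finset.mul_sum]
    refine HasDerivAt.fun_sum fun i _ => HasDerivAt.fun_sum fun j _ => ?_
    refine ((h1 i j).fun_pow 2).congr_deriv ?_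
    simp only [hW]
    ring
  refine ⟨_, h2, ?_⟩
  have e2 : pr W (R - o * W - U t * W - W * U' t + W * o) =
      pr W R - pr W (o * W) - pr W (U t * W) - pr W (W * U' t) + pr W (W * o) := by
    simp only [pr, Fin.sum_univ_three, Matrix.add_apply, Matrix.sub_apply]
    ring
  have hR' : ∀ i j, |R i j| ≤ (1 + 6 * cX) * δ := by
    intro i j
    have a1 := abs_le.1 (hd i j).1
    have a2 := abs_le.1 (mul_entry (A := o - o') (fun i j => (hd i j).2) h'.ent i j)
    have a3 := abs_le.1 (mul_entry (B := o - o') h'.ent (fun i j => (hd i j).2) i j)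
    rw [hR, Matrix.add_apply, Matrix.sub_apply, Matrix.sub_apply, abs_le]
    constructor <;> linarith [a1.1, a1.2, a2.1, a2.2, a3.1, a3.2]
  have a1 := pr_small W R hR'
  have a2 : pr W (o * W) = 0 := by
    rw [pr_left]
    linarith [om_dot h.skew (W.col 0) (W.col 0), om_dot h.skew (W.col 1) (W.col 1),
      om_dot h.skew (W.col 2) (W.col 2)]
  have a3 : pr W (W * o) = 0 := by
    rw [pr_right]
    linarith [om_dot h.skew (W 0) (W 0), om_dot h.skew (W 1) (W 1), om_dot h.skew (W 2) (W 2)]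
  have a4 : 9 / 10 * fro W ^ 2 ≤ pr W (U t * W) := by
    rw [pr_left, fro_cols]
    linarith [h.low (W.col 0), h.low (W.col 1), h.low (W.col 2)]
  have a5 : 9 / 10 * fro W ^ 2 ≤ pr W (W * U' t) := by
    rw [pr_right, fro_rows]
    linarith [h'.low (W 0), h'.low (W 1), h'.low (W 2)]
  rw [e2]
  linarith

lemma W_flow {U U' k o k' o' : ℝ → M3} {a b δ : ℝ} (hab : a ≤ b) (hδ : 0 ≤ δ)
    (h : ∀ t ∈ Icc a b, Ric U (k t) (o t) t) (h' : ∀ t ∈ Icc a b, Ric U' (k' t) (o' t) t)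
    (hd : ∀ t ∈ Icc a b, ∀ i j, |k t i j - k' t i j| ≤ δ ∧ |o t i j - o' t i j| ≤ δ) :
    fro (U b - U' b) ≤ Real.exp (a - b) * fro (U a - U' a) + 2 * ((1 + 6 * cX) * δ) := by
  set ρ := (1 + 6 * cX) * δ with hρ
  have hρ0 : 0 ≤ ρ := mul_nonneg (by linarith [cX_ge]) hδ
  have h1 := le_exp (f := fun s => fro (U s - U' s) ^ 2 - 3 * ρ ^ 2) (c := -2) hab (fun t ht => by
    obtain ⟨d, h1, h2⟩ := W_deriv (h t ht) (h' t ht) (hd t ht)
    exact ⟨d, h1.sub_const _, by linarith⟩)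
  have e : Real.exp (-2 * (b - a)) = Real.exp (a - b) ^ 2 := by
    rw [← Real.exp_nat_mul]; congr 1; push_cast; ring
  rw [e] at h1
  have h2 := Real.exp_pos (a - b)
  have h3 := OdeMul.fro_nonneg (U a - U' a)
  refine (sq_le_sq₀ (OdeMul.fro_nonneg _) (by positivity)).1 ?_
  have h4 : 0 ≤ Real.exp (a - b) * fro (U a - U' a) * ρ := by positivity
  have h5 : 0 ≤ Real.exp (a - b) ^ 2 * ρ ^ 2 := by positivity
  nlinarith [sq_nonneg ρ]

lemma trace_diff (A B : M3) :
    |A 0 0 + A 1 1 + A 2 2 - (B 0 0 + B 1 1 + B 2 2)| ≤ 3 * fro (A - B) := by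
  have h0 := abs_le.1 (entry_le_fro (A - B) 0 0)
  have h1 := abs_le.1 (entry_le_fro (A - B) 1 1)
  have h2 := abs_le.1 (entry_le_fro (A - B) 2 2)
  simp only [Matrix.sub_apply] at h0 h1 h2
  rw [abs_le]
  constructor <;> linarith [h0.1, h0.2, h1.1, h1.2, h2.1, h2.2]

lemma logdet_lip (h : DirSys K Om Y H) {s t : ℝ} (hs : 1 ≤ s) (hst : s ≤ t) :
    |Real.log (Y t).det - Real.log (Y s).det| ≤ cX * (t - s) :=
  abs_sub_le_of (f := fun r => Real.log (Y r).det) hst (fun r hr => by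
    have hr1 : 1 ≤ r := hs.trans hr.1
    have hr0 : 0 < r := by linarith
    refine ⟨_, logdet_deriv h hr0, ?_⟩
    rw [abs_le]
    constructor
    · linarith [U_diag h hr0 0, U_diag h hr0 1, U_diag h hr0 2, cX_ge]
    · exact trace_le h hr1)

lemma logdet_one (h : DirSys K Om Y H) : |Real.log (Y 1).det| ≤ 34 := by
  have hd := det_pos h one_pos
  have h1 := log_det_ge hd (one_low h)
  have h2 := OdeMul.log_det_le (b := 6) hd (fun u => by
    have := (energy h u zero_le_one).2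
    rw [mul_one] at this
    linarith [OdeMul.nsq_nonneg (H 1 *ᵥ u)])
  rw [abs_le]
  constructor <;> linarith

lemma big (h : DirSys K Om Y H) {t : ℝ} (ht : 1 ≤ t) (w : Fin 3 → ℝ) :
    Real.exp t * nsq w ≤ Real.exp 20 * nsq (Y t *ᵥ w) := by
  have h1 := one_low h w
  have h2 := grow h w zero_le_one ht
  have e : Real.exp t * Real.exp 19 = Real.exp 20 * Real.exp (t - 1) := by
    rw [← Real.exp_add, ← Real.exp_add]; congr 1; ring
  calc Real.exp t * nsq w ≤ Real.exp t * (Real.exp 19 * nsq (Y 1 *ᵥ w)) :=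
        mul_le_mul_of_nonneg_left h1 (Real.exp_pos _).le
    _ = Real.exp 20 * (Real.exp (t - 1) * nsq (Y 1 *ᵥ w)) := by
        rw [← mul_assoc, e, mul_assoc]
    _ ≤ _ := mul_le_mul_of_nonneg_left h2 (Real.exp_pos _).le

end OdeD

open OdeD in
theorem dir_basic : ∃ C : ℝ, 1 ≤ C ∧ ∀ K Om Y H : ℝ → M3, DirSys K Om Y H →
    (∀ t, 0 < t → 0 < (Y t).det) ∧ (∀ t, (Y t)ᵀ * H t = (H t)ᵀ * Y t) ∧
    (∀ t w, 1 ≤ t → Real.exp t * nsq w ≤ C * nsq (Y t *ᵥ w)) ∧
    (∀ s t w, 0 ≤ s → s ≤ t → 1 ≤ t →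
      nsq (Y s *ᵥ w) + nsq (H s *ᵥ w) ≤ C * Real.exp (s - t) * nsq (Y t *ᵥ w)) ∧
    (∀ t, 1 ≤ t → fro (H t * (Y t)⁻¹) ≤ C) ∧
    |Real.log (Y 1).det| ≤ C ∧
    ∀ s t, 1 ≤ s → 1 ≤ t → |Real.log (Y t).det - Real.log (Y s).det| ≤ C * |t - s| := by
  have c1 := cX_ge
  have c2 : cX ≤ cX ^ 2 := by nlinarith
  have c3 := Real.exp_pos 26
  have c4 : Real.exp 20 ≤ Real.exp 26 := Real.exp_le_exp.2 (by norm_num)
  refine ⟨Real.exp 26 + 9 * cX ^ 2 + 40, by linarith, fun K Om Y H h => ⟨fun t ht => det_pos h ht,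
    wronski h, fun t w ht => ?_, fun s t w hs hst ht => ?_, fun t ht => ?_, ?_,
    fun s t hs ht => ?_⟩⟩
  · exact (big h ht w).trans (mul_le_mul_of_nonneg_right (by linarith) (OdeMul.nsq_nonneg _))
  · have hA := OdeMul.nsq_nonneg (Y t *ᵥ w)
    have hE := Real.exp_pos (s - t)
    have hEA : 0 ≤ Real.exp (s - t) * nsq (Y t *ᵥ w) := by positivity
    rw [mul_assoc]
    rcases le_total 1 s with h1 | h1
    · have h2 := H_le h h1 w
      have h3 := mul_le_mul_of_nonneg_left (grow h w hs hst) hE.le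
      rw [← mul_assoc, ← Real.exp_add, sub_add_sub_cancel, sub_self, Real.exp_zero, one_mul] at h3
      have h4 := mul_le_mul_of_nonneg_left h3 (show 0 ≤ 1 + 9 * cX ^ 2 by positivity)
      have h5 := mul_le_mul_of_nonneg_right
        (show 1 + 9 * cX ^ 2 ≤ Real.exp 26 + 9 * cX ^ 2 + 40 by linarith) hEA
      linarith
    · have h2 := (energy h w hs).2
      have h3 := mul_le_mul_of_nonneg_left (big h ht w) (Real.exp_pos (6 + s - t)).le
      have h4 : Real.exp (6 * s) ≤ Real.exp (6 + s - t) * Real.exp t := by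
        rw [← Real.exp_add]
        exact Real.exp_le_exp.2 (by linarith)
      have h5 := mul_le_mul_of_nonneg_right h4 (OdeMul.nsq_nonneg w)
      have h6 : Real.exp (6 + s - t) * Real.exp 20 = Real.exp 26 * Real.exp (s - t) := by
        rw [← Real.exp_add, ← Real.exp_add]; congr 1; ring
      rw [← mul_assoc, ← mul_assoc, h6, mul_assoc (Real.exp 26)] at h3
      have h7 := mul_le_mul_of_nonneg_right
        (show Real.exp 26 ≤ Real.exp 26 + 9 * cX ^ 2 + 40 by linarith) hEA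
      linarith
  · have := fro_le_of_entry (by linarith) (U_entry h ht)
    show fro (OdeC.UU Y H t) ≤ _
    linarith
  · linarith [logdet_one h]
  · have hc : cX ≤ Real.exp 26 + 9 * cX ^ 2 + 40 := by linarith
    rcases le_total s t with h1 | h1
    · rw [abs_of_nonneg (sub_nonneg.2 h1)]
      exact (logdet_lip h hs h1).trans (mul_le_mul_of_nonneg_right hc (sub_nonneg.2 h1))
    · rw [abs_sub_comm, abs_sub_comm t, abs_of_nonneg (sub_nonneg.2 h1)]
      exact (logdet_lip h ht h1).trans (mul_le_mul_of_nonneg_right hc (sub_nonneg.2 h1))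

open OdeD in
theorem dir_glue : ∃ C : ℝ, ∀ (K Om Y H Y' H' : ℝ → M3) (s t : ℝ), DirSys K Om Y H →
    DirSys (fun r => K (s + r)) (fun r => Om (s + r)) Y' H' → 1 ≤ s → 1 ≤ t →
    |Real.log (Y (s + t)).det - Real.log (Y s).det - Real.log (Y' t).det| ≤ C := by
  refine ⟨19 * cX + 34, fun K Om Y H Y' H' s t h h' hs ht => ?_⟩
  have c1 := cX_ge
  have hW : ∀ r, 1 ≤ r →
      fro (OdeC.UU Y H (s + r) - OdeC.UU Y' H' r) ≤ Real.exp (1 - r) * (6 * cX) := by
    intro r hr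
    have h1 := W_flow (U := fun x => OdeC.UU Y H (s + x)) (U' := OdeC.UU Y' H')
      (k := fun x => K (s + x)) (o := fun x => Om (s + x)) (k' := fun x => K (s + x))
      (o' := fun x => Om (s + x)) (δ := 0) hr le_rfl
      (fun x hx => (ric h (by linarith [hx.1])).shift) (fun x hx => ric h' hx.1)
      (fun x _ i j => by simp)
    have h2 := fro_le_of_entry (A := OdeC.UU Y H (s + 1) - OdeC.UU Y' H' 1) (x := 2 * cX)
      (by linarith) (fun i j => by
        have a1 := abs_le.1 (U_entry h (show 1 ≤ s + 1 by linarith) i j)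
        have a2 := abs_le.1 (U_entry h' le_rfl i j)
        rw [Matrix.sub_apply, abs_le]
        constructor <;> linarith [a1.1, a1.2, a2.1, a2.2])
    have h3 := mul_le_mul_of_nonneg_left h2 (Real.exp_pos (1 - r)).le
    simp only [mul_zero, add_zero] at h1
    linarith
  have hd : ∀ r, 1 ≤ r → ∃ d,
      HasDerivAt (fun x => Real.log (Y (s + x)).det - Real.log (Y' x).det) d r ∧
        |d| ≤ 18 * cX * Real.exp (1 - r) := by
    intro r hr
    refine ⟨_, ((logdet_deriv h (show 0 < s + r by linarith)).comp_const_add s r).sub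
      (logdet_deriv h' (show 0 < r by linarith)), ?_⟩
    refine (trace_diff _ _).trans ?_
    linarith [hW r hr]
  have hE : ∀ r : ℝ, HasDerivAt (fun x => 18 * cX * Real.exp (1 - x))
      (-(18 * cX * Real.exp (1 - r))) r := by
    intro r
    have := (((hasDerivAt_id r).const_sub 1).exp).const_mul (18 * cX)
    simpa using this
  have h1 := OdeC.mono (f := fun x => Real.log (Y (s + x)).det - Real.log (Y' x).det -
    18 * cX * Real.exp (1 - x)) (c := 0) ht (fun r hr => by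
      obtain ⟨d, a1, a2⟩ := hd r hr.1
      exact ⟨_, a1.sub (hE r), by linarith [(abs_le.1 a2).1]⟩)
  have h2 := OdeC.anti (f := fun x => Real.log (Y (s + x)).det - Real.log (Y' x).det +
    18 * cX * Real.exp (1 - x)) (c := 0) ht (fun r hr => by
      obtain ⟨d, a1, a2⟩ := hd r hr.1
      exact ⟨_, a1.add (hE r), by linarith [(abs_le.1 a2).2]⟩)
  simp only [sub_self, Real.exp_zero, mul_one, zero_mul] at h1 h2
  have h3 : 0 ≤ 18 * cX * Real.exp (1 - t) := by positivity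
  have h4 := abs_le.1 (logdet_lip h hs (show s ≤ s + 1 by linarith))
  have h5 := abs_le.1 (logdet_one h')
  rw [abs_le]
  constructor <;> linarith [h4.1, h4.2, h5.1, h5.2]

open OdeD in
theorem dir_compare : ∃ C : ℝ, 0 ≤ C ∧ ∀ (K Om Y H K' Om' Y' H' : ℝ → M3) (s δ : ℝ),
    DirSys K Om Y H → DirSys K' Om' Y' H' → 1 ≤ s →
    (∀ t ∈ Icc s (s + 1), ∀ i j, |K t i j - K' t i j| ≤ δ ∧ |Om t i j - Om' t i j| ≤ δ) →
    fro (H (s + 1) * (Y (s + 1))⁻¹ - H' (s + 1) * (Y' (s + 1))⁻¹) ≤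
      1 / 2 * fro (H s * (Y s)⁻¹ - H' s * (Y' s)⁻¹) + C * δ ∧
    |Real.log (Y (s + 1)).det - Real.log (Y s).det -
      (Real.log (Y' (s + 1)).det - Real.log (Y' s).det)| ≤
      C * (fro (H s * (Y s)⁻¹ - H' s * (Y' s)⁻¹) + δ) := by
  have c1 := cX_ge
  refine ⟨6 * (1 + 6 * cX), by linarith, fun K Om Y H K' Om' Y' H' s δ h h' hs hd => ?_⟩
  have hδ : 0 ≤ δ := (abs_nonneg _).trans (hd s ⟨le_rfl, by linarith⟩ 0 0).1
  have hρ : 0 ≤ (1 + 6 * cX) * δ := mul_nonneg (by linarith) hδ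
  have hW : ∀ r ∈ Icc s (s + 1), fro (OdeC.UU Y H r - OdeC.UU Y' H' r) ≤
      Real.exp (s - r) * fro (OdeC.UU Y H s - OdeC.UU Y' H' s) + 2 * ((1 + 6 * cX) * δ) :=
    fun r hr => W_flow hr.1 hδ (fun x hx => ric h (hs.trans hx.1))
      (fun x hx => ric h' (hs.trans hx.1)) (fun x hx => hd x ⟨hx.1, hx.2.trans hr.2⟩)
  have h0 := OdeMul.fro_nonneg (OdeC.UU Y H s - OdeC.UU Y' H' s)
  constructor
  · have h1 := hW (s + 1) ⟨by linarith, le_rfl⟩
    have h2 : Real.exp (s - (s + 1)) ≤ 1 / 2 := by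
      rw [show s - (s + 1) = -1 by ring, Real.exp_neg, one_div]
      exact inv_anti₀ (by norm_num) (by linarith [Real.add_one_le_exp 1])
    have h3 := mul_le_mul_of_nonneg_right h2 h0
    show fro (OdeC.UU Y H (s + 1) - OdeC.UU Y' H' (s + 1)) ≤
      1 / 2 * fro (OdeC.UU Y H s - OdeC.UU Y' H' s) + _
    linarith
  · have h1 := abs_sub_le_of (f := fun r => Real.log (Y r).det - Real.log (Y' r).det)
      (c := 3 * (fro (OdeC.UU Y H s - OdeC.UU Y' H' s) + 2 * ((1 + 6 * cX) * δ)))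
      (show s ≤ s + 1 by linarith) (fun r hr => by
        have hr0 : 0 < r := by linarith [hr.1]
        refine ⟨_, (logdet_deriv h hr0).sub (logdet_deriv h' hr0), (trace_diff _ _).trans ?_⟩
        have a1 := hW r hr
        have a2 : Real.exp (s - r) ≤ 1 := Real.exp_le_one_iff.2 (by linarith [hr.1])
        have a3 := mul_le_mul_of_nonneg_right a2 h0
        linarith)
    have h2 := mul_nonneg (show 0 ≤ cX by linarith) h0
    show _ ≤ 6 * (1 + 6 * cX) * (fro (OdeC.UU Y H s - OdeC.UU Y' H' s) + δ)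
    have h3 := abs_le.1 h1
    rw [abs_le]
    constructor <;> linarith [h3.1, h3.2]

end Pool.Agent.MP_019006_gt
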