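import Pool.Agent.MP_019006_gt.Basic2
import Pool.Agent.MP_019006_gt.Metric
import Pool.Agent.MP_019006_gt.Curv
import Pool.Agent.MP_019006_gt.Jacobi
import Pool.Agent.MP_019006_gt.FlowGeo
import Pool.Agent.MP_019006_gt.FlowMeasure
import Pool.Agent.MP_019006_gt.OdeDir
import Pool.Agent.MP_019006_gt.Fibre

set_option autoImplicit false

open MeasureTheory Filter Topology Set Matrix

namespace Pool.Agent.MP_019006_gt

namespace Exm

variable {f : EE → ℝ} {φ : Flo} {M : DFlo}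

theorem Gam_zero (f : EE → ℝ) (x u : EE) : Gam f x u 0 = 0 := by
  rw [← GamL_apply, map_zero]

theorem mem_flow (h : Ctx f φ M) {p : EE × EE} (hp : p.1 ∈ Bl) (t : ℝ) : (φ t p).1 ∈ Bl :=
  mem_OO.1 (h.flow.mem t p (mem_OO.2 hp))

theorem en_one (h : Ctx f φ M) {p : EE × EE} (h1 : en f p = 1) (t : ℝ) : en f (φ t p) = 1 := by
  rw [en_flow h.conf.smooth h.flow, h1]

theorem jac_frame (h : Ctx f φ M) {p : EE × EE} (hp : p.1 ∈ Bl) (h1 : en f p = 1) (j : Fin 3)
    (t : ℝ) :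
    (∀ i, HasDerivAt (fun s => YD f φ M p s i j)
      ((HD f φ M p t - Omat f (φ t p) * YD f φ M p t) i j) t) ∧
    (∀ i, HasDerivAt (fun s => HD f φ M p s i j)
      ((Kmat f (φ t p) * YD f φ M p t - Omat f (φ t p) * HD f φ M p t) i j) t) ∧
    (M t p (0, frame p j)).1 = ∑ i, YD f φ M p t i j • frame (φ t p) i ∧
    (M t p (0, frame p j)).2 + Gam f (φ t p).1 (φ t p).2 (M t p (0, frame p j)).1 =
      ∑ i, HD f φ M p t i j • frame (φ t p) i :=
  jacobi_eq h.conf.smooth h.flow hp h1 (0, frame p j) (by simp)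
    (by simpa [Gam_zero] using (frame_orth hp h1 j j).2) (fun t i => YD f φ M p t i j)
    (fun t i => HD f φ M p t i j) (fun _ _ => rfl) (fun _ _ => rfl) t

theorem gg_comb {q : EE × EE} (hq : q.1 ∈ Bl) (h1 : en f q = 1) (y : Fin 3 → ℝ) :
    gg f q.1 (∑ i, y i • frame q i) q.2 = 0 ∧
      gg f q.1 (∑ i, y i • frame q i) (∑ i, y i • frame q i) = nsq y := by
  have h2 := fun i j => (frame_orth hq h1 i j).1
  have h3 := fun i => (frame_orth hq h1 i i).2
  constructor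
  · simp [Fin.sum_univ_three, h3]
  · simp [Fin.sum_univ_three, h2, nsq, sq]

theorem sum_mulVec (A : M3) (c : Fin 3 → ℝ) (v : Fin 3 → EE) :
    ∑ j, c j • ∑ i, A i j • v i = ∑ i, (A *ᵥ c) i • v i := by
  simp only [Fin.sum_univ_three, Matrix.mulVec, dotProduct]
  module

theorem hasFDerivAt_exp (h : Ctx f φ M) {x : EE} (hx : x ∈ Bl) (t : ℝ) (v : EE) :
    HasFDerivAt (fun w => (φ t (x, w)).1) ((ContinuousLinearMap.fst ℝ EE EE).comp
      ((M t (x, v)).comp (ContinuousLinearMap.inr ℝ EE EE))) v :=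
  ((h.flow.fderiv t (x, v) (mem_OO.2 hx)).comp v (hasFDerivAt_prodMk_right x v)).fst

theorem exp_smul (h : Ctx f φ M) {x : EE} (hx : x ∈ Bl) (T : ℝ) (w : EE) :
    (φ 1 (x, T • w)).1 = (φ T (x, w)).1 := by
  simpa using congrArg Prod.fst (flow_scale h.flow T 1 (p := (x, w)) hx)

theorem dexp_smul (h : Ctx f φ M) {x : EE} (hx : x ∈ Bl) (T : ℝ) (u w : EE) :
    T • dexp M (x, T • u) w = (M T (x, u) (0, w)).1 := by
  have h1 := (hasFDerivAt_exp h hx 1 (T • u)).comp u ((hasFDerivAt_id u).const_smul T)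
  have h2 : ((fun w => (φ 1 (x, w)).1) ∘ fun y => T • id y) = fun w => (φ T (x, w)).1 :=
    funext fun w => exp_smul h hx T w
  have h3 := congrArg (fun L : EE →L[ℝ] EE => L w) ((h2 ▸ h1).unique (hasFDerivAt_exp h hx T u))
  simpa [dexp] using h3

theorem dexp_rad (h : Ctx f φ M) {x : EE} (hx : x ∈ Bl) (T : ℝ) (u : EE) :
    dexp M (x, T • u) u = (φ T (x, u)).2 := by
  have h1 := (hasFDerivAt_exp h hx 1 (T • u)).comp_hasDerivAt T
    ((hasDerivAt_id T).smul_const u)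
  have h2 : ((fun w => (φ 1 (x, w)).1) ∘ fun s : ℝ => id s • u) = fun s => (φ s (x, u)).1 :=
    funext fun s => exp_smul h hx s u
  have h3 := (h2 ▸ h1).unique (h.flow.deriv T (x, u) (mem_OO.2 hx)).fst
  simpa [dexp, XX] using h3

theorem gg_AR (f : EE → ℝ) {x : EE} (hx : x ∈ Bl) (u w : EE) :
    gg f x (Fib.AR f x u) (Fib.AR f x w) = inner ℝ u w := by
  rw [Fib.AR_apply, Fib.AR_apply, map_smul, map_smul, _root_.smul_apply, gg_apply,
    g0, hh_L0 hx, ip_re, smul_eq_mul, smul_eq_mul, ← mul_assoc, ← mul_assoc, ← Real.exp_add,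
    ← Real.exp_add, show -f x + -f x + 2 * f x = 0 by ring, Real.exp_zero, one_mul]

theorem det_orth {ι : Type} [Fintype ι] [DecidableEq ι] (e : OrthonormalBasis ι ℝ EE)
    (f : EE → ℝ) {x : EE} (hx : x ∈ Bl) (b : ι → EE)
    (hb : ∀ i j, gg f x (b i) (b j) = (1 : Matrix ι ι ℝ) i j) :
    mm f x * |e.toBasis.det b| = 1 := by
  choose c hc using fun i => Fib.AR_surj f hx (b i)
  have h1 : (e.toBasis.toMatrix c)ᵀ * e.toBasis.toMatrix c = 1 := by
    ext i j
    rw [← hb, ← hc, ← hc, gg_AR f hx, ← e.sum_inner_mul_inner, Matrix.mul_apply]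
    refine Finset.sum_congr rfl fun k _ => ?_
    simp [Module.Basis.toMatrix_apply, e.repr_apply_apply, real_inner_comm]
  have h2 : |e.toBasis.det c| = 1 := by
    have := congrArg Matrix.det h1
    rw [Matrix.det_mul, Matrix.det_transpose, Matrix.det_one, ← Module.Basis.det_apply] at this
    rcases mul_self_eq_one_iff.1 this with h | h <;> simp [h]
  have h3 : b = (Fib.AR f x : EE →ₗ[ℝ] EE) ∘ c := funext fun i => (hc i).symm
  have h4 := Dd_pos hx
  have h5 : LinearMap.det (Fib.AR f x : EE →ₗ[ℝ] EE) = Real.exp (-f x) ^ 4 * Dd x ^ 3 :=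
    Fib.det_AR f hx
  rw [h3, Module.Basis.det_comp, abs_mul, h2, h5, abs_of_pos (by positivity), mm,
    ← Real.exp_nat_mul, mul_one, div_mul_eq_mul_div, ← mul_assoc, ← Real.exp_add]
  simp [h4.ne']

theorem det_frames {ι : Type} [Fintype ι] [DecidableEq ι] (hι : Fintype.card ι = 4)
    (f : EE → ℝ) {x z : EE} (hx : x ∈ Bl) (hz : z ∈ Bl) (b c : ι → EE)
    (hb : ∀ i j, gg f x (b i) (b j) = (1 : Matrix ι ι ℝ) i j)
    (hc : ∀ i j, gg f z (c i) (c j) = (1 : Matrix ι ι ℝ) i j) (A : EE →L[ℝ] EE)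
    (N : Matrix ι ι ℝ) (hA : ∀ j, A (b j) = ∑ i, N i j • c i) :
    mm f z * |A.det| / mm f x = |N.det| := by
  let e : OrthonormalBasis ι ℝ EE := (stdOrthonormalBasis ℝ EE).reindex
    (Fintype.equivOfCardEq (by rw [Fintype.card_fin, Fib.finrank_EE, hι]))
  have h1 := det_orth e f hx b hb
  have h2 := det_orth e f hz c hc
  have h3 : A.det * e.toBasis.det b = e.toBasis.det c * N.det := by
    rw [ContinuousLinearMap.det, ← Module.Basis.det_comp, Module.Basis.det_apply,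
      Module.Basis.det_apply, ← Matrix.det_mul]
    congr 1
    ext i j
    simp [Module.Basis.toMatrix_apply, hA, Matrix.mul_apply, mul_comm]
  have h4 := congrArg abs h3
  have h5 : mm f x ≠ 0 := left_ne_zero_of_mul_eq_one h1
  rw [abs_mul, abs_mul] at h4
  rw [div_eq_iff h5]
  linear_combination mm f z * mm f x * h4 - mm f z * |A.det| * h1 + |N.det| * mm f x * h2

theorem orth_full {q : EE × EE} (hq : q.1 ∈ Bl) (h1 : en f q = 1) (i j : Unit ⊕ Fin 3) :
    gg f q.1 (Sum.elim (fun _ => q.2) (frame q) i) (Sum.elim (fun _ => q.2) (frame q) j) =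
      (1 : Matrix (Unit ⊕ Fin 3) (Unit ⊕ Fin 3) ℝ) i j := by
  rcases i with i | i <;> rcases j with j | j
  · exact h1.trans (by simp)
  · rw [gg_symm]; exact (frame_orth hq h1 j j).2.trans (by simp)
  · exact (frame_orth hq h1 i i).2.trans (by simp)
  · exact (frame_orth hq h1 i j).1.trans (by simp [Matrix.one_apply])

/-- A global inverse function theorem. -/
theorem global_inv {F : Type} [NormedAddCommGroup F] [NormedSpace ℝ F] {O U : Set F}
    (hO : IsOpen O) (hU : IsOpen U) (cO : Convex ℝ O) (cU : Convex ℝ U) {Ψ : F → F}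
    (maps : MapsTo Ψ O U) (loc : IsLocalHomeomorphOn Ψ O)
    (prop : ∀ K ⊆ U, IsCompact K → IsCompact (O ∩ Ψ ⁻¹' K)) {a : F} (ha : a ∈ O) :
    ∃ σ : F → F, ContinuousOn σ U ∧ (∀ y ∈ U, σ y ∈ O ∧ Ψ (σ y) = y) ∧ ∀ x ∈ O, σ (Ψ x) = x := by
  classical
  let g : O → U := maps.restrict Ψ O U
  have gc : Continuous g := loc.continuousOn.mapsToRestrict maps
  have gl : IsLocalHomeomorph g := by
    refine IsLocalHomeomorph.of_comp (g := ((↑) : U → F)) ?_
      hU.isOpenEmbedding_subtypeVal.isLocalHomeomorph gc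
    exact isLocalHomeomorph_iff_isLocalHomeomorphOn_univ.2 (loc.comp
      hO.isOpenEmbedding_subtypeVal.isLocalHomeomorph.isLocalHomeomorphOn fun x _ => x.2)
  have gk : ∀ K : Set U, IsCompact K → IsCompact (g ⁻¹' K) := fun K hK => by
    rw [Topology.IsEmbedding.subtypeVal.isCompact_iff]
    convert prop _ (Subtype.coe_image_subset U K) (hK.image continuous_subtype_val) using 1
    ext x
    constructor
    · rintro ⟨x, hx, rfl⟩
      exact ⟨x.2, g x, hx, rfl⟩
    · rintro ⟨hx, y, hy, e⟩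
      exact ⟨⟨x, hx⟩, by rwa [mem_preimage, show g ⟨x, hx⟩ = y from Subtype.ext e.symm], rfl⟩
  have gp : IsProperMap g := isProperMap_iff_isCompact_preimage.2 ⟨gc, gk⟩
  have cov : IsCoveringMap g := isCoveringMap_iff_isCoveringMapOn_univ.2
    (gp.isClosedMap.isCoveringMapOn_of_isLocalHomeomorphOn (fun y _ =>
      (gk _ isCompact_singleton).finite (gl.isLocalHomeomorphOn.isDiscrete_of_image
        ((finite_singleton y).subset (image_preimage_subset _ _)).isDiscrete))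
      gl.isLocalHomeomorphOn)
  have := cU.contractibleSpace ⟨_, maps ha⟩
  have := cU.locallyPathConnectedSpace
  have := Subtype.preconnectedSpace cO.isPreconnected
  obtain ⟨s, ⟨hs0, hs⟩, -⟩ := cov.existsUnique_continuousMap_lifts (ContinuousMap.id U)
    (g ⟨a, ha⟩) ⟨a, ha⟩ rfl
  have hs' : ∀ y, g (s y) = y := congrFun hs
  have hl : s ∘ g = id := cov.eq_of_comp_eq (s.continuous.comp gc) continuous_id
    (funext fun x => hs' (g x)) ⟨a, ha⟩ hs0
  refine ⟨fun y => if hy : y ∈ U then s ⟨y, hy⟩ else y, ?_, fun y hy => ?_, fun x hx => ?_⟩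
  · rw [continuousOn_iff_continuous_domRestrict]
    exact (continuous_subtype_val.comp s.continuous).congr fun y => by simp
  · simp only [hy, dif_pos]
    exact ⟨(s ⟨y, hy⟩).2, congrArg Subtype.val (hs' ⟨y, hy⟩)⟩
  · simp only [maps hx, dif_pos]
    exact congrArg Subtype.val (congrFun hl ⟨x, hx⟩)

end Exm

open Exm

theorem dirSys {f : EE → ℝ} {φ : Flo} {M : DFlo} (h : Ctx f φ M) {p : EE × EE} (hp : p.1 ∈ Bl)
    (h1 : en f p = 1) : DirSys (fun t => Kmat f (φ t p)) (fun t => Omat f (φ t p))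
      (YD f φ M p) (HD f φ M p) := by
  have hO := mem_OO.2 hp
  have hc : Continuous fun t => φ t p :=
    continuous_iff_continuousAt.2 fun t => (h.flow.deriv t p hO).continuousAt
  refine ⟨(continuousOn_Kmat h.conf.smooth).comp_continuous hc fun t => h.flow.mem t p hO,
    (continuousOn_Omat h.conf.smooth).comp_continuous hc fun t => h.flow.mem t p hO,
    fun t => Kmat_symm h.conf.smooth (mem_flow h hp t) (en_one h h1 t),
    fun t => Omat_antisymm h.conf.smooth (mem_flow h hp t),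
    fun t u => Kmat_pinch h.conf (mem_flow h hp t) (en_one h h1 t) u,
    fun t i j => (jac_frame h hp h1 j t).1 i, fun t i j => (jac_frame h hp h1 j t).2.1 i, ?_, ?_⟩
  · ext i j
    simp [YD, h.flow.M_add.1 p hO]
  · ext i j
    simp only [HD, h.flow.M_add.1 p hO, h.flow.zero, ContinuousLinearMap.id_apply, Gam_zero,
      add_zero]
    rw [gg_symm, (frame_orth hp h1 i j).1]

theorem M_dirichlet {f : EE → ℝ} {φ : Flo} {M : DFlo} (h : Ctx f φ M) {p : EE × EE}
    (hp : p.1 ∈ Bl) (h1 : en f p = 1) (n : EE) (hn : gg f p.1 n p.2 = 0) (t : ℝ) :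
    gg f (φ t p).1 (M t p (0, n)).1 (φ t p).2 = 0 ∧
    gg f (φ t p).1 (M t p (0, n)).1 (M t p (0, n)).1 =
      nsq (YD f φ M p t *ᵥ fun j => gg f p.1 n (frame p j)) ∧
    sasaki (gg f) (Gam f) (φ t p) (M t p (0, n)) ^ 2 =
      nsq (YD f φ M p t *ᵥ fun j => gg f p.1 n (frame p j)) +
        nsq (HD f φ M p t *ᵥ fun j => gg f p.1 n (frame p j)) ∧
    gg f p.1 n n = nsq fun j => gg f p.1 n (frame p j) := by
  have e1 := frame_span hp h1 n
  rw [hn, zero_smul, zero_add] at e1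
  set c : Fin 3 → ℝ := fun j => gg f p.1 n (frame p j) with hc
  have e2 : M t p (0, n) = ∑ j, c j • M t p (0, frame p j) := by
    simp only [← map_smul, ← map_sum]
    congr 1
    ext1
    · simp [Prod.fst_sum]
    · simpa [Prod.snd_sum] using e1
  have e3 : (M t p (0, n)).1 = ∑ i, (YD f φ M p t *ᵥ c) i • frame (φ t p) i := by
    rw [e2, Prod.fst_sum, ← sum_mulVec]
    exact Finset.sum_congr rfl fun j _ => by rw [Prod.smul_fst, (jac_frame h hp h1 j t).2.2.1]
  have e4 : (M t p (0, n)).2 + Gam f (φ t p).1 (φ t p).2 (M t p (0, n)).1 =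
      ∑ i, (HD f φ M p t *ᵥ c) i • frame (φ t p) i := by
    rw [e2, Prod.fst_sum, Prod.snd_sum, ← GamL_apply, map_sum, ← Finset.sum_add_distrib,
      ← sum_mulVec]
    exact Finset.sum_congr rfl fun j _ => by
      rw [Prod.smul_fst, Prod.smul_snd, map_smul, ← smul_add, GamL_apply,
        (jac_frame h hp h1 j t).2.2.2]
  have g1 := gg_comb (mem_flow h hp t) (en_one h h1 t) (YD f φ M p t *ᵥ c)
  have g2 := gg_comb (mem_flow h hp t) (en_one h h1 t) (HD f φ M p t *ᵥ c)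
  have g3 := gg_comb hp h1 c
  rw [← e3] at g1
  rw [← e4] at g2
  refine ⟨g1.1, g1.2, ?_, ?_⟩
  · rw [sasaki, g1.2, g2.2, Real.sq_sqrt (by unfold nsq; positivity)]
  · rw [← g3.2, ← e1]

theorem Jac_eq {f : EE → ℝ} {φ : Flo} {M : DFlo} (h : Ctx f φ M) {p : EE × EE} (hp : p.1 ∈ Bl)
    (h0 : p.2 ≠ 0) : Jac f φ M p =
      (YD f φ M (nrm f p) (Real.sqrt (en f p))).det / Real.sqrt (en f p) ^ 3 := by
  obtain ⟨he, h1⟩ := en_nrm (f := f) hp h0
  have hT := Real.sqrt_pos.2 he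
  set T := Real.sqrt (en f p)
  obtain ⟨u, hu⟩ : ∃ u, u = T⁻¹ • p.2 := ⟨_, rfl⟩
  have hq : nrm f p = (p.1, u) := by rw [hu]; rfl
  have hp' : p = (p.1, T • u) := by rw [hu, smul_inv_smul₀ hT.ne']
  rw [hq] at h1 ⊢
  clear_value T
  generalize p.1 = x at *
  subst hp'
  have hz := mem_flow h (p := (x, u)) hp T
  have hpos := dir_basic.choose_spec.2 _ _ _ _ (dirSys h (p := (x, u)) hp h1) |>.1 T hT
  rw [Jac, exp_smul h hp, det_frames (by simp) f hp hz _ _ (orth_full (q := (x, u)) hp h1)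
    (orth_full hz (en_one h h1 T)) _ (Matrix.fromBlocks 1 0 0 (T⁻¹ • YD f φ M (x, u) T)),
    Matrix.det_fromBlocks_zero₂₁, Matrix.det_one, one_mul, Matrix.det_smul, Fintype.card_fin,
    abs_of_pos (by positivity), inv_pow, inv_mul_eq_div]
  rintro (j | j)
  · simpa using dexp_rad h hp T u
  · have e := dexp_smul h hp T u (frame (x, u) j)
    rw [(jac_frame h (p := (x, u)) hp h1 j T).2.2.1, ← eq_inv_smul_iff₀ hT.ne', Finset.smul_sum]
      at e
    simpa [smul_smul] using e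

theorem dexp_det_ne {f : EE → ℝ} {φ : Flo} {M : DFlo} (h : Ctx f φ M) {p : EE × EE}
    (hp : p.1 ∈ Bl) : (dexp M p).det ≠ 0 := by
  by_cases h0 : p.2 = 0
  · have : dexp M p = ContinuousLinearMap.id ℝ EE := by
      ext1 u
      have := dexp_rad h hp 0 u
      rwa [zero_smul, ← h0, h.flow.zero] at this
    simp [this, ContinuousLinearMap.det]
  · obtain ⟨he, h1⟩ := en_nrm (f := f) hp h0
    have hT := Real.sqrt_pos.2 he
    have hpos := dir_basic.choose_spec.2 _ _ _ _ (dirSys h (p := nrm f p) hp h1) |>.1 _ hT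
    intro hd
    have := Jac_eq h hp h0
    rw [Jac, hd, abs_zero, mul_zero, zero_div] at this
    exact absurd this.symm (by positivity)

theorem inv_Dd_exp {f : EE → ℝ} {φ : Flo} {M : DFlo} (h : Ctx f φ M) {p : EE × EE}
    (hp : p.1 ∈ Bl) (t : ℝ) : t ^ 2 * en f p / 2 - 3 * |t| * Real.sqrt (en f p) * (Dd p.1)⁻¹ ≤
      (Dd (φ t p).1)⁻¹ := by
  obtain ⟨u', u'', H⟩ := inv_Dd_convex h.conf h.flow hp
  have he : 0 ≤ en f p :=
    mul_nonneg (Real.exp_pos _).le ((sq_nonneg _).trans (g0_bounds hp p.2).1)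
  have hk : ∀ s, HasDerivAt (fun s => u' s - en f p * s) (u'' s - en f p * 1) s := fun s =>
    (H s).2.1.sub ((hasDerivAt_id s).const_mul _)
  have hm : Monotone fun s => u' s - en f p * s :=
    monotone_of_deriv_nonneg (fun s => (hk s).differentiableAt) fun s => by
      rw [(hk s).deriv]
      have h2 := (one_le_inv₀ (Dd_pos (mem_flow h hp s))).2 (Dd_le_one _)
      nlinarith [(H s).2.2.2.2]
  have hg : ∀ s, HasDerivAt (fun s => (Dd (φ s p).1)⁻¹ - en f p * (s ^ 2 / 2))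
      (u' s - en f p * s) s := fun s =>
    (H s).1.sub (((hasDerivAt_pow 2 s).div_const 2).const_mul _ |>.congr_deriv (by simp))
  have hu0 : 0 < (Dd p.1)⁻¹ := inv_pos.2 (Dd_pos hp)
  have h3 : |u' 0| ≤ 3 * Real.sqrt (en f p) * (Dd p.1)⁻¹ := by
    refine abs_le_of_sq_le_sq ?_ (by positivity)
    have := (H 0).2.2.2.1
    rw [h.flow.zero] at this
    rw [mul_pow, mul_pow, Real.sq_sqrt he]
    linarith
  have h4 : u' 0 * t ≤ (Dd (φ t p).1)⁻¹ - en f p * (t ^ 2 / 2) - (Dd p.1)⁻¹ := by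
    rcases lt_trichotomy t 0 with ht | rfl | ht
    · obtain ⟨c, hc, e⟩ := exists_hasDerivAt_eq_slope _ _ ht
        (fun s _ => (hg s).continuousAt.continuousWithinAt) fun s _ => hg s
      have := hm hc.2.le
      rw [h.flow.zero, eq_div_iff (by linarith)] at e
      simp only at this
      nlinarith
    · simp [h.flow.zero]
    · obtain ⟨c, hc, e⟩ := exists_hasDerivAt_eq_slope _ _ ht
        (fun s _ => (hg s).continuousAt.continuousWithinAt) fun s _ => hg s
      have := hm hc.1.le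
      rw [h.flow.zero, eq_div_iff (by linarith)] at e
      simp only at this
      nlinarith
  have h5 := neg_abs_le (u' 0 * t)
  rw [abs_mul] at h5
  nlinarith [abs_nonneg t]

namespace Exm

variable {f : EE → ℝ} {φ : Flo} {M : DFlo}

theorem loc_exp (h : Ctx f φ M) :
    IsLocalHomeomorphOn (fun p : EE × EE => (p.1, (φ 1 p).1)) OO := fun p hp => by
  have hc : ContinuousOn (M 1) OO :=
    h.flow.Mcont.comp (f := fun q : EE × EE => ((1 : ℝ), q))
      (continuousOn_const.prodMk continuousOn_id) fun q hq => ⟨mem_univ _, hq⟩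
  have hs : HasStrictFDerivAt (φ 1) (M 1 p) p :=
    hasStrictFDerivAt_of_hasFDerivAt_of_continuousAt
      (mem_of_superset (isOpen_OO.mem_nhds hp) fun q hq => h.flow.fderiv 1 q hq)
      (hc.continuousAt (isOpen_OO.mem_nhds hp))
  have hs2 := (hasStrictFDerivAt_fst (𝕜 := ℝ) (p := p)).prodMk hs.fst
  obtain ⟨D, hD⟩ : ∃ D : (EE × EE) →L[ℝ] (EE × EE), D = (ContinuousLinearMap.fst ℝ EE EE).prod
    ((ContinuousLinearMap.fst ℝ EE EE).comp (M 1 p)) := ⟨_, rfl⟩
  have hinj : Function.Injective D.toLinearMap := by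
    rw [injective_iff_map_eq_zero]
    rintro ⟨a, b⟩ hab
    have h1 : a = 0 := by simpa [hD] using congrArg Prod.fst hab
    have h2 : (dexp M p).toLinearMap b = 0 := by simpa [hD, h1, dexp] using congrArg Prod.snd hab
    have h3 : LinearMap.ker (dexp M p).toLinearMap = ⊥ := by
      by_contra h4
      exact dexp_det_ne h (mem_OO.1 hp) (LinearMap.det_eq_zero_iff_ker_ne_bot.2 h4)
    rw [h1, LinearMap.ker_eq_bot'.1 h3 b h2, Prod.mk_zero_zero]
  rw [← hD] at hs2
  obtain ⟨e, he⟩ : ∃ e : (EE × EE) ≃L[ℝ] (EE × EE), (e : (EE × EE) →L[ℝ] (EE × EE)) = D :=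
    ⟨(LinearEquiv.ofInjectiveEndo _ hinj).toContinuousLinearEquiv,
      ContinuousLinearMap.ext fun _ => rfl⟩
  rw [← he] at hs2
  exact ⟨hs2.toOpenPartialHomeomorph _, hs2.mem_toOpenPartialHomeomorph_source, rfl⟩

theorem norm_le_exp (h : Ctx f φ M) {p : EE × EE} (hB : p.1 ∈ Bl) {C : ℝ}
    (h1 : (Dd p.1)⁻¹ + (Dd (φ 1 p).1)⁻¹ ≤ C) : ‖p.2‖ ≤ 2 * (6 * C + 2) := by
  have h2 := inv_Dd_exp h hB 1
  have h3 := inv_pos.2 (Dd_pos hB)
  have h4 := inv_pos.2 (Dd_pos (mem_flow h hB 1))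
  have h5 := (g0_bounds hB p.2).1
  have h6 : 1 / 4 * ‖p.2‖ ^ 2 ≤ en f p :=
    mul_le_mul (by linarith [Real.add_one_le_exp (2 * f p.1), (abs_le.1 (h.conf.fb _ hB)).1])
      h5 (sq_nonneg _) (Real.exp_pos _).le
  have h7 := Real.sq_sqrt (le_trans (by positivity) h6)
  have h8 := Real.sqrt_nonneg (en f p)
  rw [abs_one] at h2
  generalize Real.sqrt (en f p) = s at h2 h7 h8
  generalize (Dd p.1)⁻¹ = a at *
  generalize (Dd (φ 1 p).1)⁻¹ = b at *
  have h9 : s ≤ 6 * C + 2 := by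
    by_contra! h9
    have := mul_le_mul_of_nonneg_left (show a ≤ C by linarith) h8
    nlinarith
  exact le_trans (abs_le_of_sq_le_sq' (by linarith) (by positivity)).2
    (by linarith : 2 * s ≤ _)

theorem prop_exp (h : Ctx f φ M) (K : Set (EE × EE)) (hK : K ⊆ Bl ×ˢ Bl) (cK : IsCompact K) :
    IsCompact (OO ∩ (fun p : EE × EE => (p.1, (φ 1 p).1)) ⁻¹' K) := by
  have cD : ContinuousOn (fun x => (Dd x)⁻¹) Bl :=
    Fib.cont_Dd.continuousOn.inv₀ fun x hx => (Dd_pos hx).ne'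
  have c1 : ContinuousOn (fun q : EE × EE => (Dd q.1)⁻¹) K :=
    cD.comp continuousOn_fst fun q hq => (hK hq).1
  have c2 : ContinuousOn (fun q : EE × EE => (Dd q.2)⁻¹) K :=
    cD.comp continuousOn_snd fun q hq => (hK hq).2
  obtain ⟨C, hC⟩ := cK.bddAbove_image (c1.add c2)
  have cL := (cK.image continuous_fst).prod (isCompact_closedBall (0 : EE) (2 * (6 * C + 2)))
  have sL : (Prod.fst '' K) ×ˢ Metric.closedBall (0 : EE) (2 * (6 * C + 2)) ⊆ OO := by
    rintro p ⟨⟨q, hq, e⟩, -⟩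
    exact mem_OO.2 (e ▸ (hK hq).1)
  have cl := ((loc_exp h).continuousOn.mono sL).preimage_isClosed_of_isClosed
    cL.isClosed cK.isClosed
  have e : OO ∩ (fun p : EE × EE => (p.1, (φ 1 p).1)) ⁻¹' K =
      (Prod.fst '' K) ×ˢ Metric.closedBall (0 : EE) (2 * (6 * C + 2)) ∩
        (fun p : EE × EE => (p.1, (φ 1 p).1)) ⁻¹' K := by
    refine Subset.antisymm (fun p hp => ⟨⟨⟨_, hp.2, rfl⟩, ?_⟩, hp.2⟩)
      (inter_subset_inter_left _ sL)
    exact mem_closedBall_zero_iff.2 (norm_le_exp h (mem_OO.1 hp.1) (hC ⟨_, hp.2, rfl⟩))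
  rw [e]
  exact cL.of_isClosed_subset cl inter_subset_left

end Exm

theorem exists_isLog {f : EE → ℝ} {φ : Flo} {M : DFlo} (h : Ctx f φ M) : ∃ V, IsLog φ V := by
  have cB : Convex ℝ Bl := convex_ball 0 1
  have cO : Convex ℝ OO := cB.prod convex_univ
  obtain ⟨σ, hσ1, hσ2, hσ3⟩ := global_inv (Ψ := fun p : EE × EE => (p.1, (φ 1 p).1)) isOpen_OO
    (isOpen_Bl.prod isOpen_Bl) cO (cB.prod cB)
    (fun p hp => ⟨mem_OO.1 hp, mem_flow h (mem_OO.1 hp) 1⟩) (loc_exp h) (prop_exp h)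
    (a := 0) (mem_OO.2 (mem_Bl.2 (by simp)))
  refine ⟨fun y z => (σ (y, z)).2, fun y hy z hz => ?_, fun y hy v => ?_, hσ1.snd⟩
  · obtain ⟨e1, e2⟩ := Prod.mk.inj (hσ2 (y, z) ⟨hy, hz⟩).2
    have e : (y, (σ (y, z)).2) = σ (y, z) := Prod.ext e1.symm rfl
    rw [e, e2]
  · have := hσ3 (y, v) (mem_OO.2 hy)
    simp only at this
    rw [this]

end Pool.Agent.MP_019006_gt
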