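import Pool.Agent.MP_019006_gt.Basic2
import Pool.Agent.MP_019006_gt.Metric
import Pool.Agent.MP_019006_gt.Jacobi
import Pool.Agent.MP_019006_gt.FlowGeo
import Pool.Agent.MP_019006_gt.FlowMeasure
import Pool.Agent.MP_019006_gt.Fibre
import Pool.Agent.MP_019006_gt.ExpMap

set_option autoImplicit false

open MeasureTheory Filter Topology Set Matrix

namespace Pool.Agent.MP_019006_gt

namespace LogM

open ContinuousLinearMap in
theorem det_block (A S B : EE →L[ℝ] EE) :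
    ((A.comp (fst ℝ EE EE)).prod (B.comp (snd ℝ EE EE) + S.comp (fst ℝ EE EE))).det =
      A.det * B.det := by
  classical
  let b := Module.finBasis ℝ EE
  unfold ContinuousLinearMap.det
  rw [← LinearMap.det_toMatrix (b.prod b), ← LinearMap.det_toMatrix b, ← LinearMap.det_toMatrix b,
    ← Matrix.det_fromBlocks_zero₁₂ _ (LinearMap.toMatrix b b (S : EE →ₗ[ℝ] EE))]
  congr 1
  ext (i | i) (k | k) <;> simp [LinearMap.toMatrix_apply]

theorem det_comp (A B : (EE × EE) →L[ℝ] (EE × EE)) : (A.comp B).det = A.det * B.det :=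
  LinearMap.det_comp (A : (EE × EE) →ₗ[ℝ] (EE × EE)) (B : (EE × EE) →ₗ[ℝ] (EE × EE))

theorem abs_det_invol (A : (EE × EE) →L[ℝ] (EE × EE)) (h : ∀ p, A (A p) = p) : |A.det| = 1 := by
  have h1 : A.comp A = ContinuousLinearMap.id ℝ _ := ContinuousLinearMap.ext h
  have h2 := det_comp A A
  rw [h1] at h2
  have h3 : A.det * A.det = 1 := by rw [← h2]; simp [ContinuousLinearMap.det]
  rcases mul_self_eq_one_iff.mp h3 with e | e <;> simp [e]

/-- The derivative of the end point map. -/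
noncomputable def DP (M : DFlo) (p : EE × EE) : (EE × EE) →L[ℝ] (EE × EE) :=
  (ContinuousLinearMap.fst ℝ EE EE).prod ((ContinuousLinearMap.fst ℝ EE EE).comp (M 1 p))

open ContinuousLinearMap in
theorem det_DP (M : DFlo) (p : EE × EE) : (DP M p).det = (dexp M p).det := by
  have := det_block (ContinuousLinearMap.id ℝ EE)
    ((fst ℝ EE EE).comp ((M 1 p).comp (inl ℝ EE EE))) (dexp M p)
  rw [show (ContinuousLinearMap.id ℝ EE).det = 1 by simp [ContinuousLinearMap.det], one_mul] at this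
  rw [← this]
  congr 1
  refine ContinuousLinearMap.ext fun q => Prod.ext rfl ?_
  have e : q = (0, q.2) + (q.1, 0) := by simp
  change (M 1 p q).1 = (M 1 p (0, q.2)).1 + (M 1 p (q.1, 0)).1
  rw [← Prod.fst_add, ← map_add, ← e]

variable {f : EE → ℝ} {φ : Flo} {M : DFlo} {V : EE → EE → EE}

theorem mem (h : Ctx f φ M) {p : EE × EE} (hp : p.1 ∈ Bl) (t : ℝ) : (φ t p).1 ∈ Bl :=
  mem_OO.1 (h.flow.mem t p (mem_OO.2 hp))

theorem hasF_P (h : Ctx f φ M) {p : EE × EE} (hp : p.1 ∈ Bl) :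
    HasFDerivAt (fun q : EE × EE => (q.1, (φ 1 q).1)) (DP M p) p :=
  hasFDerivAt_fst.prodMk (h.flow.fderiv 1 p (mem_OO.2 hp)).fst

theorem hasF_fib (h : Ctx f φ M) {x : EE} (hx : x ∈ Bl) (t : ℝ) (a : EE) :
    HasFDerivAt (fun b : EE => (φ t (x, b)).1) ((ContinuousLinearMap.fst ℝ EE EE).comp
      ((M t (x, a)).comp (ContinuousLinearMap.inr ℝ EE EE))) a :=
  ((h.flow.fderiv t (x, a) (mem_OO.2 hx)).comp a (hasFDerivAt_prodMk_right x a)).fst

theorem hasF_exp (h : Ctx f φ M) {x : EE} (hx : x ∈ Bl) (a : EE) :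
    HasFDerivAt (fun b : EE => (φ 1 (x, b)).1) (dexp M (x, a)) a := hasF_fib h hx 1 a

theorem scale1 (h : Ctx f φ M) {x : EE} (hx : x ∈ Bl) (c : ℝ) (v : EE) :
    φ 1 (x, c • v) = ((φ c (x, v)).1, c • (φ c (x, v)).2) := by
  have := flow_scale h.flow c 1 (p := (x, v)) hx
  rwa [mul_one] at this

theorem rev (h : Ctx f φ M) {p : EE × EE} (hp : p.1 ∈ Bl) :
    φ 1 ((φ 1 p).1, -(φ 1 p).2) = (p.1, -p.2) := by
  have := scale1 h (mem h hp 1) (-1) (φ 1 p).2
  rw [Prod.mk.eta, ← h.flow.add, neg_add_cancel, h.flow.zero] at this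
  simpa using this

theorem mm_pos (f : EE → ℝ) {x : EE} (hx : x ∈ Bl) : 0 < mm f x :=
  div_pos (Real.exp_pos _) (pow_pos (Dd_pos hx) 3)

theorem rho_eq (f : EE → ℝ) (p : EE × EE) : rho f p = mm f p.1 ^ 2 := by
  unfold rho mm
  rw [div_pow, ← Real.exp_nat_mul, ← pow_mul]
  congr 2
  push_cast
  ring

theorem en_nonneg (f : EE → ℝ) {p : EE × EE} (hp : p.1 ∈ Bl) : 0 ≤ en f p :=
  mul_nonneg (Real.exp_pos _).le ((sq_nonneg _).trans (g0_bounds hp p.2).1)

theorem Jac_rev (h : Ctx f φ M) {p : EE × EE} (hp : p.1 ∈ Bl) :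
    Jac f φ M p = Jac f φ M ((φ 1 p).1, -(φ 1 p).2) := by
  set sg : (EE × EE) →L[ℝ] (EE × EE) :=
    (ContinuousLinearMap.fst ℝ EE EE).prod (-ContinuousLinearMap.snd ℝ EE EE) with hsg
  set sw : (EE × EE) →L[ℝ] (EE × EE) :=
    (ContinuousLinearMap.snd ℝ EE EE).prod (ContinuousLinearMap.fst ℝ EE EE) with hsw
  have h1 := sw.hasFDerivAt.comp p (hasF_P h hp)
  have h2 := (hasF_P h (p := sg (φ 1 p)) (mem h hp 1)).comp p
    (sg.hasFDerivAt.comp p (h.flow.fderiv 1 p (mem_OO.2 hp)))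
  have h3 := h1.unique (h2.congr_of_eventuallyEq (by
    filter_upwards [isOpen_OO.mem_nhds (mem_OO.2 hp)] with q hq
    have := rev h (mem_OO.1 hq)
    simp [hsw, hsg, this]))
  have h4 := congrArg (fun A : (EE × EE) →L[ℝ] (EE × EE) => |A.det|) h3
  simp only [det_comp, abs_mul, det_DP] at h4
  rw [abs_det_invol sw (fun q => by simp [hsw]), abs_det_invol sg (fun q => by simp [hsg])] at h4
  have h5 := congrArg abs (flow_det h.conf.smooth h.flow 1 hp)
  have a1 := mm_pos f hp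
  have a2 := mm_pos f (mem h hp 1)
  rw [rho_eq, rho_eq, abs_mul, abs_of_pos (pow_pos a1 2), abs_of_pos (pow_pos a2 2)] at h5
  have e : sg (φ 1 p) = ((φ 1 p).1, -(φ 1 p).2) := by simp [hsg]
  rw [e] at h4
  unfold Jac
  rw [rev h hp]
  field_simp
  linear_combination mm f (φ 1 p).1 ^ 2 * h4 + |(dexp M ((φ 1 p).1, -(φ 1 p).2)).det| * h5

theorem V_ne (h : Ctx f φ M) (hV : IsLog φ V) {y z : EE} (hy : y ∈ Bl) (hz : z ∈ Bl)
    (hne : z ≠ y) : V y z ≠ 0 := by
  intro h0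
  have h1 := hV.right y hy z hz
  have h2 := scale1 h hy 0 0
  rw [zero_smul, h.flow.zero] at h2
  rw [h0, h2] at h1
  exact hne h1.symm

theorem JT_eq (h : Ctx f φ M) (hV : IsLog φ V) {y z : EE} (hy : y ∈ Bl) (hz : z ∈ Bl)
    (hne : z ≠ y) : JT f φ M V y z = Jac f φ M (y, V y z) * dd f V y z ^ 3 := by
  have h0 := V_ne h hV hy hz hne
  have h1 : 0 < dd f V y z := Real.sqrt_pos.2 (Fib.en_pos f (p := (y, V y z)) hy h0)
  rw [Jac_eq h (p := (y, V y z)) hy h0]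
  exact (div_mul_cancel₀ _ (pow_pos h1 3).ne').symm

theorem V_deriv (h : Ctx f φ M) (hV : IsLog φ V) {y : EE} (hy : y ∈ Bl) {c : ℝ → EE} {c' : EE}
    {θ : ℝ} (hc : c θ ∈ Bl) (hd : HasDerivAt c c' θ) : ∃ a' : EE,
      HasDerivAt (fun s => V y (c s)) a' θ ∧ dexp M (y, V y (c θ)) a' = c' := by
  have hcont : ContinuousAt (V y) (c θ) :=
    (hV.cont.comp (f := fun z : EE => (y, z)) (s := Bl) (by fun_prop)
      fun z hz => ⟨hy, hz⟩).continuousAt (isOpen_Bl.mem_nhds hc)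
  obtain ⟨E, hE⟩ : ∃ E : EE ≃L[ℝ] EE, (E : EE →L[ℝ] EE) = dexp M (y, V y (c θ)) :=
    ⟨_, ContinuousLinearMap.coe_toContinuousLinearEquivOfDetNeZero _
      (dexp_det_ne h (p := (y, V y (c θ))) hy)⟩
  have hF : HasFDerivAt (V y) (E.symm : EE →L[ℝ] EE) (c θ) :=
    HasFDerivAt.of_local_left_inverse (f := fun b => (φ 1 (y, b)).1) hcont
      (by rw [hE]; exact hasF_exp h hy _)
      (by filter_upwards [isOpen_Bl.mem_nhds hc] with z hz using hV.right y hy z hz)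
  have h2 := hF.comp_hasDerivAt θ hd
  exact ⟨E.symm c', h2, by rw [← hE]; exact E.apply_symm_apply c'⟩

theorem polar (B : EE →L[ℝ] EE →L[ℝ] ℝ) (hB : ∀ u w, B u w = B w u) {a : ℝ → EE} {a' : EE}
    {θ : ℝ} (ha : HasDerivAt a a' θ) (hpos : 0 < B (a θ) (a θ)) : ∃ (n : EE) (d : ℝ),
      HasDerivAt (fun s => (Real.sqrt (B (a s) (a s)))⁻¹ • a s) n θ ∧
      HasDerivAt (fun s => Real.sqrt (B (a s) (a s))) d θ ∧
      B n ((Real.sqrt (B (a θ) (a θ)))⁻¹ • a θ) = 0 ∧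
      a' = d • (Real.sqrt (B (a θ) (a θ)))⁻¹ • a θ + Real.sqrt (B (a θ) (a θ)) • n ∧
      a θ = Real.sqrt (B (a θ) (a θ)) • (Real.sqrt (B (a θ) (a θ)))⁻¹ • a θ := by
  have hen : HasDerivAt (fun s => B (a s) (a s)) (B a' (a θ) + B (a θ) a') θ :=
    (B.hasFDerivAt.comp_hasDerivAt θ ha).clm_apply ha
  have hD := Real.sqrt_pos.2 hpos
  have hdd := hen.sqrt hpos.ne'
  have hsq := Real.sq_sqrt hpos.le
  refine ⟨_, _, (hdd.inv hD.ne').smul ha, hdd, ?_, ?_, ?_⟩
  · simp only [map_add, map_smul, _root_.add_apply, _root_.smul_apply, smul_eq_mul, Pi.inv_apply,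
      hB (a θ) a']
    generalize Real.sqrt (B (a θ) (a θ)) = D at hD hsq
    rw [← hsq]
    field_simp
    ring
  · simp only [Pi.inv_apply]
    generalize Real.sqrt (B (a θ) (a θ)) = D at hD
    match_scalars <;> field_simp
    ring
  · rw [smul_smul, mul_inv_cancel₀ hD.ne', one_smul]

theorem dexp_rad (h : Ctx f φ M) {y : EE} (hy : y ∈ Bl) (D : ℝ) (u : EE) :
    dexp M (y, D • u) u = (φ D (y, u)).2 := by
  have k0 : HasDerivAt (fun s : ℝ => s • u) ((1 : ℝ) • u) D := (hasDerivAt_id D).smul_const u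
  have k0' := (hasF_exp h hy (D • u)).comp_hasDerivAt D k0
  have k1 : HasDerivAt (fun s : ℝ => (φ 1 (y, s • u)).1) (dexp M (y, D • u) ((1 : ℝ) • u)) D := k0'
  have k2 : HasDerivAt (fun s : ℝ => (φ s (y, u)).1) (φ D (y, u)).2 D :=
    (h.flow.deriv D (y, u) (mem_OO.2 hy)).fst
  simp only [scale1 h hy, one_smul] at k1
  exact k1.unique k2

theorem dexp_tan (h : Ctx f φ M) {y : EE} (hy : y ∈ Bl) (D : ℝ) (u n : EE) :
    dexp M (y, D • u) (D • n) = (M D (y, u) (0, n)).1 := by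
  have k1 : HasFDerivAt (fun b : EE => (φ 1 (y, D • b)).1)
      ((dexp M (y, D • u)).comp (D • ContinuousLinearMap.id ℝ EE)) u :=
    (hasF_exp h hy (D • u)).comp u ((hasFDerivAt_id u).const_smul D)
  simp only [scale1 h hy] at k1
  exact congrArg (fun A : EE →L[ℝ] EE => A n) (k1.unique (hasF_fib h hy D u))

end LogM

open LogM

theorem log_rev {f : EE → ℝ} {φ : Flo} {M : DFlo} {V : EE → EE → EE} (h : Ctx f φ M)
    (hV : IsLog φ V) {y z : EE} (hy : y ∈ Bl) (hz : z ∈ Bl) :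
    φ 1 (y, V y z) = (z, -V z y) ∧ dd f V y z = dd f V z y ∧
      Jac f φ M (y, V y z) = Jac f φ M (z, V z y) ∧
      JT f φ M V y z = JT f φ M V z y := by
  have h1 := hV.right y hy z hz
  have h2 := rev h (p := (y, V y z)) hy
  rw [h1] at h2
  have h3 := hV.left z hz (-(φ 1 (y, V y z)).2)
  rw [h2] at h3
  have h4 : φ 1 (y, V y z) = (z, -V z y) := Prod.ext h1 (by rw [h3, neg_neg])
  have h5 : dd f V y z = dd f V z y := by
    unfold dd
    rw [← en_flow h.conf.smooth h.flow 1 (y, V y z), h4]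
    simp [en]
  have h6 : Jac f φ M (y, V y z) = Jac f φ M (z, V z y) := by
    rw [Jac_rev h (p := (y, V y z)) hy, h4, neg_neg]
  refine ⟨h4, h5, h6, ?_⟩
  by_cases e : z = y
  · rw [e]
  · rw [JT_eq h hV hy hz e, JT_eq h hV hz hy (Ne.symm e), h5, h6]

theorem log_flow {f : EE → ℝ} {φ : Flo} {M : DFlo} {V : EE → EE → EE} (h : Ctx f φ M)
    (hV : IsLog φ V) {p : EE × EE} (hp : p.1 ∈ Bl) (h1 : en f p = 1) (s t : ℝ) (hst : s < t) :
    V (φ s p).1 (φ t p).1 = (t - s) • (φ s p).2 ∧ dd f V (φ s p).1 (φ t p).1 = t - s ∧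
      dir f V (φ s p).1 (φ t p).1 = (φ s p).2 := by
  have hq := mem h hp s
  have h2 := hV.left _ hq ((t - s) • (φ s p).2)
  rw [scale1 h hq, Prod.mk.eta, ← h.flow.add, sub_add_cancel] at h2
  have h3 : dd f V (φ s p).1 (φ t p).1 = t - s := by
    unfold dd
    rw [h2, Fib.en_smul, Prod.mk.eta, en_flow h.conf.smooth h.flow, h1, mul_one,
      Real.sqrt_sq (sub_pos.2 hst).le]
  refine ⟨h2, h3, ?_⟩
  change (dd f V (φ s p).1 (φ t p).1)⁻¹ • V (φ s p).1 (φ t p).1 = _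
  rw [h3, h2, smul_smul, inv_mul_cancel₀ (sub_pos.2 hst).ne', one_smul]

theorem Dd_dd {f : EE → ℝ} {φ : Flo} {M : DFlo} {V : EE → EE → EE} (h : Ctx f φ M)
    (hV : IsLog φ V) {y z : EE} (hy : y ∈ Bl) (hz : z ∈ Bl) :
    Real.exp (-3 * dd f V y z) * Dd y ≤ Dd z ∧
      dd f V y z ^ 2 / 2 - 3 * dd f V y z * (Dd y)⁻¹ ≤ (Dd z)⁻¹ := by
  have h1 := Dd_flow_ge h.conf h.flow (p := (y, V y z)) hy 0 1
  have h2 := inv_Dd_exp h (p := (y, V y z)) hy 1
  rw [hV.right y hy z hz] at h1 h2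
  rw [h.flow.zero] at h1
  unfold dd
  rw [Real.sq_sqrt (en_nonneg f (p := (y, V y z)) hy)]
  exact ⟨by simpa using h1, by simpa using h2⟩

theorem dir_deriv {f : EE → ℝ} {φ : Flo} {M : DFlo} {V : EE → EE → EE} (h : Ctx f φ M)
    (hV : IsLog φ V) {y : EE} (hy : y ∈ Bl) {c : ℝ → EE} {c' : EE} {θ : ℝ} (hc : c θ ∈ Bl)
    (hne : c θ ≠ y) (hd : HasDerivAt c c' θ) : ∃ (n : EE) (d : ℝ),
      HasDerivAt (fun s => dir f V y (c s)) n θ ∧ HasDerivAt (fun s => dd f V y (c s)) d θ ∧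
      gg f y n (dir f V y (c θ)) = 0 ∧
      d ^ 2 + nsq (YD f φ M (y, dir f V y (c θ)) (dd f V y (c θ)) *ᵥ
        fun j => gg f y n (frame (y, dir f V y (c θ)) j)) = gg f (c θ) c' c' := by
  obtain ⟨hpos, hu⟩ := en_nrm (f := f) (p := (y, V y (c θ))) hy (V_ne h hV hy hc hne)
  obtain ⟨a', ha, ha'⟩ := V_deriv h hV hy hc hd
  obtain ⟨n, d, h1, h2, h3, h4, h5⟩ := polar (gg f y) (gg_symm f y) ha hpos
  refine ⟨n, d, h1, h2, h3, ?_⟩
  have hu' : en f (y, dir f V y (c θ)) = 1 := hu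
  have h3' : gg f y n (dir f V y (c θ)) = 0 := h3
  have h4' : a' = d • dir f V y (c θ) + dd f V y (c θ) • n := h4
  have h5' : V y (c θ) = dd f V y (c θ) • dir f V y (c θ) := h5
  have hright := hV.right y hy _ hc
  rw [h5'] at ha' hright
  generalize dd f V y (c θ) = D at ha' hright h4' ⊢
  generalize dir f V y (c θ) = u at ha' hright h4' hu' h3' ⊢
  rw [h4', map_add, map_smul, dexp_rad h hy, dexp_tan h hy] at ha'
  rw [scale1 h hy] at hright
  obtain ⟨m1, m2, -⟩ := M_dirichlet h (p := (y, u)) hy hu' n h3' D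
  have m3 := en_flow h.conf.smooth h.flow D (y, u)
  rw [hu', en] at m3
  rw [← ha', ← hright, ← m2]
  simp only [map_add, map_smul, _root_.add_apply, _root_.smul_apply,
    smul_eq_mul, m1, m3, gg_symm f _ (φ D (y, u)).2 (M D (y, u) (0, n)).1]
  ring

theorem LogM.exp_image {f : EE → ℝ} {φ : Flo} {M : DFlo} {V : EE → EE → EE} (h : Ctx f φ M)
    (hV : IsLog φ V) {x : EE} (hx : x ∈ Bl) : (fun a : EE => (φ 1 (x, a)).1) '' univ = Bl := by
  ext y
  constructor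
  · rintro ⟨a, -, rfl⟩
    exact mem h (p := (x, a)) hx 1
  · exact fun hy => ⟨V x y, mem_univ _, hV.right x hx y hy⟩

theorem lintegral_exp {f : EE → ℝ} {φ : Flo} {M : DFlo} {V : EE → EE → EE} (h : Ctx f φ M)
    (hV : IsLog φ V) {x : EE} (hx : x ∈ Bl) (k : EE → ENNReal) :
    ∫⁻ y in Bl, k y * ENNReal.ofReal (mm f y) =
      ∫⁻ a, k (φ 1 (x, a)).1 * ENNReal.ofReal (Jac f φ M (x, a) * mm f x) := by
  rw [← exp_image h hV hx, lintegral_image_eq_lintegral_abs_det_fderiv_mul volume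
    MeasurableSet.univ (fun a _ => (hasF_exp h hx a).hasFDerivWithinAt)
    (Function.LeftInverse.injective (hV.left x hx)).injOn, Measure.restrict_univ]
  refine lintegral_congr fun a => ?_
  rw [mul_left_comm, ← ENNReal.ofReal_mul (abs_nonneg _)]
  congr 2
  unfold Jac
  have := (mm_pos f hx).ne'
  field_simp

theorem lintegral_pairs {f : EE → ℝ} {φ : Flo} {M : DFlo} {V : EE → EE → EE} (h : Ctx f φ M)
    (hV : IsLog φ V) {x : EE} (hx : x ∈ Bl) (k : EE × EE → ENNReal) (hk : Measurable k) :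
    ∫⁻ q : EE × EE, k ((φ 1 (x, q.1)).1, V (φ 1 (x, q.1)).1 (φ 1 (x, q.2)).1) =
      ∫⁻ p, k p * ENNReal.ofReal (Jac f φ M p / (mm f x ^ 2 * Jac f φ M (x, V x p.1) *
        Jac f φ M (x, V x (φ 1 p).1))) ∂(liou f OO) := by
  have _ := hk
  have : ((volume : Measure EE).prod (volume : Measure EE)).IsAddHaarMeasure :=
    Measure.prod.instIsAddHaarMeasure _ _
  set H : EE × EE → ENNReal := fun q => k (q.1, V q.1 q.2) *
    ENNReal.ofReal (1 / (|(dexp M (x, V x q.1)).det| * |(dexp M (x, V x q.2)).det|)) with hH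
  have i1 : (fun q : EE × EE => ((φ 1 (x, q.1)).1, (φ 1 (x, q.2)).1)) '' univ = Bl ×ˢ Bl := by
    ext q
    constructor
    · rintro ⟨a, -, rfl⟩
      exact ⟨mem h (p := (x, a.1)) hx 1, mem h (p := (x, a.2)) hx 1⟩
    · exact fun hq => ⟨(V x q.1, V x q.2), mem_univ _,
        Prod.ext (hV.right x hx _ hq.1) (hV.right x hx _ hq.2)⟩
  have i2 : (fun q : EE × EE => (q.1, (φ 1 q).1)) '' OO = Bl ×ˢ Bl := by
    ext q
    constructor
    · rintro ⟨a, ha, rfl⟩
      exact ⟨mem_OO.1 ha, mem h (mem_OO.1 ha) 1⟩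
    · exact fun hq => ⟨(q.1, V q.1 q.2), mem_OO.2 hq.1, Prod.ext rfl (hV.right _ hq.1 _ hq.2)⟩
  have j1 := lintegral_image_eq_lintegral_abs_det_fderiv_mul
    ((volume : Measure EE).prod (volume : Measure EE)) MeasurableSet.univ
    (f := fun q : EE × EE => ((φ 1 (x, q.1)).1, (φ 1 (x, q.2)).1))
    (fun q _ => (((hasF_exp h hx q.1).comp q hasFDerivAt_fst).prodMk
      ((hasF_exp h hx q.2).comp q hasFDerivAt_snd)).hasFDerivWithinAt)
    (fun a _ b _ e => Prod.ext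
      (Function.LeftInverse.injective (hV.left x hx) (Prod.ext_iff.1 e).1)
      (Function.LeftInverse.injective (hV.left x hx) (Prod.ext_iff.1 e).2)) H
  have j2 := lintegral_image_eq_lintegral_abs_det_fderiv_mul
    ((volume : Measure EE).prod (volume : Measure EE)) isOpen_OO.measurableSet
    (fun q hq => (hasF_P h (mem_OO.1 hq)).hasFDerivWithinAt)
    (fun a ha b hb e => by
      have e1 : a.1 = b.1 := (Prod.ext_iff.1 e).1
      have e2 : (φ 1 a).1 = (φ 1 b).1 := (Prod.ext_iff.1 e).2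
      have e3 := hV.left a.1 (mem_OO.1 ha) a.2
      have e4 := hV.left b.1 (mem_OO.1 hb) b.2
      rw [Prod.mk.eta] at e3 e4
      exact Prod.ext e1 (by rw [← e3, ← e4, e1, e2])) H
  rw [i1, Measure.restrict_univ] at j1
  rw [i2, j1] at j2
  unfold liou
  rw [lintegral_withDensity_eq_lintegral_mul_non_measurable₀ _
    (Fib.aemeas_rho h.conf isOpen_OO.measurableSet subset_rfl)
    (Eventually.of_forall fun _ => ENNReal.ofReal_lt_top)]
  refine Eq.trans (lintegral_congr fun q => ?_) (j2.trans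
    (setLIntegral_congr_fun isOpen_OO.measurableSet fun p hp => ?_))
  · have e := det_block (dexp M (x, q.1)) 0 (dexp M (x, q.2))
    rw [ContinuousLinearMap.zero_comp, add_zero] at e
    have a1 := abs_pos.2 (dexp_det_ne h (p := (x, q.1)) hx)
    have a2 := abs_pos.2 (dexp_det_ne h (p := (x, q.2)) hx)
    simp only [hH, hV.left x hx]
    rw [e, mul_left_comm, ← ENNReal.ofReal_mul (abs_nonneg _), abs_mul,
      mul_one_div_cancel (mul_pos a1 a2).ne', ENNReal.ofReal_one, mul_one]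
  · have hp1 := mem_OO.1 hp
    have hp2 := mem h hp1 1
    have e3 := hV.left p.1 hp1 p.2
    rw [Prod.mk.eta] at e3
    have a1 := (abs_pos.2 (dexp_det_ne h (p := (x, V x p.1)) hx)).ne'
    have a2 := (abs_pos.2 (dexp_det_ne h (p := (x, V x (φ 1 p).1)) hx)).ne'
    have b0 := (mm_pos f hx).ne'
    have b1 := (mm_pos f hp1).ne'
    have b2 := (mm_pos f hp2).ne'
    simp only [hH, e3, Pi.mul_apply, det_DP]
    rw [mul_left_comm, ← ENNReal.ofReal_mul (abs_nonneg _), mul_left_comm,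
      ← ENNReal.ofReal_mul (Fib.rho_pos f hp1).le]
    congr 2
    unfold Jac
    rw [rho_eq, hV.right x hx _ hp1, hV.right x hx _ hp2]
    field_simp

end Pool.Agent.MP_019006_gt
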