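import Pool.Agent.MP_019006_gt.Basic2
import Pool.Agent.MP_019006_gt.Metric
import Pool.Agent.MP_019006_gt.Jacobi
import Pool.Agent.MP_019006_gt.FlowGeo
import Pool.Agent.MP_019006_gt.OdeDir
import Pool.Agent.MP_019006_gt.ExpMap
import Pool.Agent.MP_019006_gt.LogMap

set_option autoImplicit false

open MeasureTheory Filter Topology Set Matrix

namespace Pool.Agent.MP_019006_gt

namespace Visib

/-- The norm of a tangent vector. -/
noncomputable def nr (f : EE → ℝ) (x u : EE) : ℝ := Real.sqrt (gg f x u u)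

theorem le_of_sq {a b : ℝ} (hb : 0 ≤ b) (h : a ^ 2 ≤ b ^ 2) : a ≤ b :=
  (abs_le_of_sq_le_sq' h hb).2

theorem gg_nonneg (f : EE → ℝ) {x : EE} (hx : x ∈ Bl) (u : EE) : 0 ≤ gg f x u u := by
  rw [gg_apply]
  exact mul_nonneg (Real.exp_pos _).le ((sq_nonneg _).trans (g0_bounds hx u).1)

theorem nr_nonneg (f : EE → ℝ) (x u : EE) : 0 ≤ nr f x u := Real.sqrt_nonneg _

theorem nr_sq (f : EE → ℝ) {x : EE} (hx : x ∈ Bl) (u : EE) : nr f x u ^ 2 = gg f x u u :=
  Real.sq_sqrt (gg_nonneg f hx u)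

theorem gg_le (f : EE → ℝ) {x : EE} (hx : x ∈ Bl) (u w : EE) :
    gg f x u w ≤ nr f x u * nr f x w := by
  refine le_of_sq (mul_nonneg (nr_nonneg _ _ _) (nr_nonneg _ _ _)) ?_
  rw [mul_pow, nr_sq f hx, nr_sq f hx, gg_apply, gg_apply, gg_apply]
  have h1 : g0 x u w ^ 2 ≤ g0 x u u * g0 x w w := by
    refine le_trans ?_ (norm_hh_sq_le hx u w)
    rw [g0, ← sq_abs]
    exact pow_le_pow_left₀ (abs_nonneg _) (Complex.abs_re_le_norm _) 2
  have h2 := mul_le_mul_of_nonneg_left h1 (sq_nonneg (Real.exp (2 * f x)))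
  linarith

theorem nr_add (f : EE → ℝ) {x : EE} (hx : x ∈ Bl) (u w : EE) :
    nr f x (u + w) ≤ nr f x u + nr f x w := by
  refine le_of_sq (add_nonneg (nr_nonneg _ _ _) (nr_nonneg _ _ _)) ?_
  rw [add_sq, nr_sq f hx, nr_sq f hx, nr_sq f hx]
  simp only [map_add, _root_.add_apply]
  have h1 := gg_le f hx u w
  have h2 := gg_symm f x w u
  linarith

theorem nr_neg (f : EE → ℝ) (x u : EE) : nr f x (-u) = nr f x u := by simp [nr]

theorem nr_sub_comm (f : EE → ℝ) (x u w : EE) : nr f x (u - w) = nr f x (w - u) := by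
  rw [← nr_neg, neg_sub]

theorem nr_tri (f : EE → ℝ) {x : EE} (hx : x ∈ Bl) (u v w : EE) :
    nr f x (u - w) ≤ nr f x (u - v) + nr f x (v - w) := by
  have := nr_add f hx (u - v) (v - w)
  rwa [sub_add_sub_cancel] at this

theorem le_of_deriv {F : ℝ → ℝ} {a b : ℝ} (hab : a ≤ b)
    (hF : ∀ t ∈ Icc a b, ∃ d, HasDerivAt F d t ∧ 0 ≤ d) : F a ≤ F b := by
  refine monotoneOn_of_deriv_nonneg (convex_Icc a b) (fun t ht => ?_) (fun t ht => ?_)
    (fun t ht => ?_) (left_mem_Icc.2 hab) (right_mem_Icc.2 hab) hab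
  · obtain ⟨d, hd, -⟩ := hF t ht
    exact hd.continuousAt.continuousWithinAt
  · obtain ⟨d, hd, -⟩ := hF t (interior_subset ht)
    exact hd.differentiableAt.differentiableWithinAt
  · obtain ⟨d, hd, h0⟩ := hF t (interior_subset ht)
    rwa [hd.deriv]

/-- The mean value inequality for the norm at a fixed point. -/
theorem mvt (f : EE → ℝ) {x : EE} (hx : x ∈ Bl) {γ : ℝ → EE} {g : ℝ → ℝ} {a b : ℝ} (hab : a ≤ b)
    (h : ∀ t ∈ Icc a b, ∃ n d, HasDerivAt γ n t ∧ HasDerivAt g d t ∧ nr f x n ≤ d) :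
    nr f x (γ b - γ a) ≤ g b - g a := by
  have h0 : g a ≤ g b := le_of_deriv hab fun t ht => by
    obtain ⟨n, d, -, h2, h3⟩ := h t ht
    exact ⟨d, h2, (nr_nonneg _ _ _).trans h3⟩
  set Δ := γ b - γ a with hΔ
  have h1 := le_of_deriv (F := fun t => nr f x Δ * g t - gg f x Δ (γ t)) hab fun t ht => by
    obtain ⟨n, d, h1, h2, h3⟩ := h t ht
    refine ⟨_, (h2.const_mul _).sub ((gg f x Δ).hasFDerivAt.comp_hasDerivAt t h1), ?_⟩
    have := gg_le f hx Δ n
    have := mul_le_mul_of_nonneg_left h3 (nr_nonneg f x Δ)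
    linarith
  have h2 : gg f x Δ (γ b) - gg f x Δ (γ a) = nr f x Δ ^ 2 := by
    rw [← map_sub, nr_sq f hx]
  rcases (nr_nonneg f x Δ).eq_or_lt with e | e
  · linarith
  · refine le_of_mul_le_mul_left ?_ e
    nlinarith

variable {f : EE → ℝ} {φ : Flo} {M : DFlo} {V : EE → EE → EE}

theorem flow_zero (h : Ctx f φ M) {y : EE} (hy : y ∈ Bl) : (φ 1 (y, 0)).1 = y := by
  have := flow_scale h.flow 0 1 (p := (y, 0)) hy
  simp only [smul_zero, zero_mul, h.flow.zero] at this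
  rw [this]

theorem flow_mem (h : Ctx f φ M) (t : ℝ) {p : EE × EE} (hp : p.1 ∈ Bl) : (φ t p).1 ∈ Bl :=
  mem_OO.1 (h.flow.mem t p (mem_OO.2 hp))

theorem flow_deriv (h : Ctx f φ M) (t : ℝ) {p : EE × EE} (hp : p.1 ∈ Bl) :
    HasDerivAt (fun s => (φ s p).1) (φ t p).2 t :=
  (ContinuousLinearMap.fst ℝ EE EE).hasFDerivAt.comp_hasDerivAt t
    (h.flow.deriv t p (mem_OO.2 hp))

theorem dd_zero {y z : EE} (e : V y z = 0) : dd f V y z = 0 := by simp [dd, en, e]

/-- The basic estimate. -/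
theorem basic : ∃ C : ℝ, 1 ≤ C ∧ ∀ {f : EE → ℝ} {φ : Flo} {M : DFlo} {V : EE → EE → EE},
    Ctx f φ M → IsLog φ V → ∀ {y : EE}, y ∈ Bl → ∀ {c : ℝ → EE} {c' : EE} {θ : ℝ}, c θ ∈ Bl →
    1 ≤ dd f V y (c θ) → HasDerivAt c c' θ → ∃ (n : EE) (d : ℝ),
      HasDerivAt (fun s => dir f V y (c s)) n θ ∧ HasDerivAt (fun s => dd f V y (c s)) d θ ∧
      d ^ 2 ≤ gg f (c θ) c' c' ∧
      gg f y n n ≤ C * Real.exp (-dd f V y (c θ)) * gg f (c θ) c' c' := by
  obtain ⟨C, hC, hb⟩ := dir_basic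
  refine ⟨C, hC, fun {f φ M V} h hV {y} hy {c c' θ} hc h1 hd => ?_⟩
  have hV0 : V y (c θ) ≠ 0 := fun e => by
    rw [dd_zero e] at h1
    linarith
  have hne : c θ ≠ y := fun e => hV0 (by
    have := hV.left y hy 0
    rw [flow_zero h hy] at this
    rwa [e])
  obtain ⟨n, d, a1, a2, a3, a4⟩ := dir_deriv h hV hy hc hne hd
  have hen : en f (y, dir f V y (c θ)) = 1 := (en_nrm (f := f) (p := (y, V y (c θ))) hy hV0).2
  have b1 := (hb _ _ _ _ (dirSys h (p := (y, dir f V y (c θ))) hy hen)).2.2.1 _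
    (fun j => gg f y n (frame (y, dir f V y (c θ)) j)) h1
  have b2 := (M_dirichlet h (p := (y, dir f V y (c θ))) hy hen n a3 0).2.2.2
  have b3 : ∀ u, 0 ≤ nsq u := fun u => by unfold nsq; positivity
  refine ⟨n, d, a1, a2, by linarith [b3 (YD f φ M (y, dir f V y (c θ)) (dd f V y (c θ)) *ᵥ
    fun j => gg f y n (frame (y, dir f V y (c θ)) j))], ?_⟩
  simp only at b2
  rw [← b2] at b1
  rw [Real.exp_neg, mul_right_comm, ← div_eq_mul_inv, le_div_iff₀ (Real.exp_pos _), mul_comm]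
  refine b1.trans (mul_le_mul_of_nonneg_left ?_ (by linarith))
  linarith [sq_nonneg d]

/-- Small visual angle of an outgoing ray. -/
theorem ray : ∃ K : ℝ, 0 < K ∧ ∀ {f : EE → ℝ} {φ : Flo} {M : DFlo} {V : EE → EE → EE},
    Ctx f φ M → IsLog φ V → ∀ {x : EE}, x ∈ Bl → ∀ {q : EE × EE}, q.1 ∈ Bl → en f q = 1 →
    0 ≤ (al q.1 q.2).re → ∀ W : ℝ, 2 ≤ W → Real.exp (3 * W) ≤ (Dd q.1)⁻¹ * Dd x →
    ∀ b, 0 ≤ b → nr f x (dir f V x (φ b q).1 - dir f V x q.1) ≤ K * Real.exp (-W / 2) := by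
  obtain ⟨C, hC, hb⟩ := basic
  have hs : 0 < Real.sqrt C := Real.sqrt_pos.2 (by linarith)
  refine ⟨6 * Real.sqrt C * Real.exp (1 / 2), by positivity,
    fun {f φ M V} h hV {x} hx {q} hq h1 h0 W hW hU b hb0 => ?_⟩
  obtain ⟨u', u'', hu⟩ := inv_Dd_convex h.conf h.flow hq
  have hx0 := Dd_pos hx
  have grow : ∀ t, 0 ≤ t → (Dd q.1)⁻¹ * Real.exp t ≤ 4 * (Dd (φ t q).1)⁻¹ := fun t ht => by
    have a1 := le_of_deriv (F := fun s => ((Dd (φ s q).1)⁻¹ + u' s) * Real.exp (-s)) ht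
      fun s _ => by
        refine ⟨_, ((hu s).1.add (hu s).2.1).mul (hasDerivAt_neg s).exp, ?_⟩
        have a := (hu s).2.2.2.2
        rw [h1, one_mul] at a
        have := mul_nonneg (sub_nonneg.2 a) (Real.exp_pos (-s)).le
        simp only [Pi.add_apply]
        linarith
    have a2 : 0 ≤ u' 0 := by
      rw [(hu 0).2.2.1, h.flow.zero]
      have := (Dd_pos hq).le
      positivity
    have a3 : u' t ≤ 3 * (Dd (φ t q).1)⁻¹ := by
      have := (Dd_pos (flow_mem h t hq)).le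
      refine le_of_sq (by positivity) ?_
      have a := (hu t).2.2.2.1
      rw [h1] at a
      linarith
    simp only [h.flow.zero, neg_zero, Real.exp_zero, mul_one] at a1
    rw [Real.exp_neg, ← div_eq_mul_inv, le_div_iff₀ (Real.exp_pos _)] at a1
    have := mul_nonneg a2 (Real.exp_pos t).le
    linarith
  have far : ∀ t, 0 ≤ t → W - 1 + t / 3 ≤ dd f V x (φ t q).1 := fun t ht => by
    have a1 := (Dd_dd h hV hx (flow_mem h t hq)).1
    have a2 := Dd_pos (flow_mem h t hq)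
    have a3 : Real.exp (3 * W) * Real.exp t ≤ 4 * (Dd (φ t q).1)⁻¹ * Dd x :=
      calc _ ≤ (Dd q.1)⁻¹ * Dd x * Real.exp t :=
            mul_le_mul_of_nonneg_right hU (Real.exp_pos _).le
        _ = (Dd q.1)⁻¹ * Real.exp t * Dd x := by ring
        _ ≤ _ := mul_le_mul_of_nonneg_right (grow t ht) hx0.le
    have a4 : Real.exp (-3 * dd f V x (φ t q).1) * (4 * (Dd (φ t q).1)⁻¹ * Dd x) ≤ 4 := by
      have := mul_le_mul_of_nonneg_right a1 (inv_pos.2 a2).le
      rw [mul_inv_cancel₀ a2.ne'] at this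
      linarith
    have a5 : (4 : ℝ) ≤ Real.exp 3 := by linarith [Real.add_one_le_exp 3]
    have a6 := (mul_le_mul_of_nonneg_left a3 (Real.exp_pos _).le).trans (a4.trans a5)
    rw [← Real.exp_add, ← Real.exp_add, Real.exp_le_exp] at a6
    linarith
  have key := mvt f hx (γ := fun s => dir f V x (φ s q).1)
    (g := fun s => -6 * Real.sqrt C * Real.exp ((1 - W) / 2 - s / 6)) hb0 fun t ht => by
      obtain ⟨n, d, a1, -, -, a4⟩ := hb h hV hx (c := fun s => (φ s q).1) (flow_mem h t hq)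
        (by linarith [far t ht.1, ht.1]) (flow_deriv h t hq)
      refine ⟨n, _, a1, (((hasDerivAt_id t).div_const 6).const_sub _).exp.const_mul _, ?_⟩
      have e : gg f (φ t q).1 (φ t q).2 (φ t q).2 = 1 := (en_flow h.conf.smooth h.flow t q).trans h1
      rw [e, mul_one] at a4
      refine le_of_sq ?_ ?_
      · have := Real.exp_pos ((1 - W) / 2 - id t / 6)
        nlinarith [mul_pos hs this]
      · rw [nr_sq f hx]
        refine a4.trans ?_
        have e1 : Real.exp (-dd f V x (φ t q).1) ≤ Real.exp ((1 - W) / 2 - id t / 6) ^ 2 := by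
          rw [← Real.exp_nat_mul, Real.exp_le_exp]
          have := far t ht.1
          simp only [id, Nat.cast_ofNat]
          linarith
        have e2 : Real.sqrt C ^ 2 = C := Real.sq_sqrt (by linarith)
        calc _ ≤ C * Real.exp ((1 - W) / 2 - id t / 6) ^ 2 :=
              mul_le_mul_of_nonneg_left e1 (by linarith)
          _ = _ := by linear_combination (-Real.exp ((1 - W) / 2 - id t / 6) ^ 2) * e2
  simp only [h.flow.zero] at key
  refine key.trans ?_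
  have e : Real.exp ((1 - W) / 2 - 0 / 6) = Real.exp (1 / 2) * Real.exp (-W / 2) := by
    rw [← Real.exp_add]; congr 1; ring
  rw [e]
  have := mul_pos hs (Real.exp_pos ((1 - W) / 2 - b / 6))
  linarith

theorem en_neg (p : EE × EE) : en f (p.1, (-1 : ℝ) • p.2) = en f p := by simp [en]

/-- Small visual angle of a far away segment. -/
theorem seg : ∃ K : ℝ, 0 < K ∧ ∀ {f : EE → ℝ} {φ : Flo} {M : DFlo} {V : EE → EE → EE},
    Ctx f φ M → IsLog φ V → ∀ {x : EE}, x ∈ Bl → ∀ {q : EE × EE}, q.1 ∈ Bl → en f q = 1 →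
    ∀ W : ℝ, 2 ≤ W → ∀ a b, a ≤ b →
    (∀ t ∈ Icc a b, Real.exp (3 * W) ≤ (Dd (φ t q).1)⁻¹ * Dd x) →
    nr f x (dir f V x (φ a q).1 - dir f V x (φ b q).1) ≤ K * Real.exp (-W / 2) := by
  obtain ⟨K, hK, hr⟩ := ray
  refine ⟨2 * K, by positivity, fun {f φ M V} h hV {x} hx {q} hq h1 W hW a b hab hU => ?_⟩
  have k0 : 0 ≤ K * Real.exp (-W / 2) := by positivity
  have fw : ∀ t ∈ Icc a b, 0 ≤ (al (φ t q).1 (φ t q).2).re →
      nr f x (dir f V x (φ t q).1 - dir f V x (φ b q).1) ≤ K * Real.exp (-W / 2) := by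
    intro t ht h0
    have := hr h hV hx (flow_mem h t hq) ((en_flow h.conf.smooth h.flow t q).trans h1) h0 W hW
      (hU t ht) (b - t) (sub_nonneg.2 ht.2)
    rwa [← h.flow.add, sub_add_cancel, nr_sub_comm] at this
  have bw : ∀ t ∈ Icc a b, (al (φ t q).1 (φ t q).2).re ≤ 0 →
      nr f x (dir f V x (φ a q).1 - dir f V x (φ t q).1) ≤ K * Real.exp (-W / 2) := by
    intro t ht h0
    have := hr h hV hx (q := ((φ t q).1, (-1 : ℝ) • (φ t q).2)) (flow_mem h t hq)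
      ((en_neg _).trans ((en_flow h.conf.smooth h.flow t q).trans h1))
      (by rw [rsmul_eq, al_smul]; simpa using h0) W hW (hU t ht) (t - a) (sub_nonneg.2 ht.1)
    rw [flow_scale h.flow _ _ (flow_mem h t hq), ← h.flow.add] at this
    rwa [show -1 * (t - a) + t = a by ring] at this
  by_cases ha : 0 ≤ (al (φ a q).1 (φ a q).2).re
  · linarith [fw a (left_mem_Icc.2 hab) ha]
  by_cases hb : (al (φ b q).1 (φ b q).2).re ≤ 0
  · linarith [bw b (right_mem_Icc.2 hab) hb]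
  obtain ⟨u', u'', hu⟩ := inv_Dd_convex h.conf h.flow hq
  have pos : ∀ t, 0 < (Dd (φ t q).1)⁻¹ := fun t => inv_pos.2 (Dd_pos (flow_mem h t hq))
  obtain ⟨t, ht, e⟩ : (0 : ℝ) ∈ u' '' Icc a b := by
    refine intermediate_value_Icc hab (fun t _ => (hu t).2.1.continuousAt.continuousWithinAt) ⟨?_, ?_⟩
    · rw [(hu a).2.2.1]
      nlinarith [pos a]
    · rw [(hu b).2.2.1]
      nlinarith [pos b]
  rw [(hu t).2.2.1] at e
  have e' : (al (φ t q).1 (φ t q).2).re = 0 := by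
    rcases mul_eq_zero.1 e with e | e
    · linarith
    · exact absurd e (pos t).ne'
  linarith [nr_tri f hx (dir f V x (φ a q).1) (dir f V x (φ t q).1) (dir f V x (φ b q).1),
    fw t ht e'.ge, bw t ht e'.le]

theorem mem_of_le {δ : ℝ} (hδ : 0 < δ) {m : EE} (h : δ ≤ Dd m) : m ∈ Bl := by
  rw [mem_Bl]
  unfold Dd at h
  nlinarith [norm_nonneg m]

end Visib

open Visib

theorem dd_lip {f : EE → ℝ} {φ : Flo} {M : DFlo} {V : EE → EE → EE} (h : Ctx f φ M)
    (hV : IsLog φ V) (δ : ℝ) (hδ : 0 < δ) : ∃ C : ℝ, ∀ y ∈ Bl,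
      (∀ m, δ ≤ Dd m → 1 ≤ dd f V y m) → ∀ m m', δ ≤ Dd m → δ ≤ Dd m' →
        |dd f V y m - dd f V y m'| ≤ C ∧
        gg f y (dir f V y m - dir f V y m') (dir f V y m - dir f V y m') ≤
          C * Real.exp (-dd f V y m) := by
  obtain ⟨C, hC, hb⟩ := basic
  set L := 3 / δ with hL
  have L0 : 0 < L := by positivity
  refine ⟨L + C * Real.exp L * L ^ 2, fun y hy h1 m m' hm hm' => ?_⟩
  let c : ℝ → EE := fun θ => m + θ • (m' - m)
  have c0 : c 0 = m := by simp [c]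
  have c1 : c 1 = m' := by simp [c]
  have dc : ∀ θ, HasDerivAt c (m' - m) θ := fun θ => by
    have := ((hasDerivAt_id θ).smul_const (m' - m)).const_add m
    rwa [one_smul] at this
  have cm : ∀ θ ∈ Icc (0 : ℝ) 1, δ ≤ Dd (c θ) := fun θ hθ => by
    have e : c θ = (1 - θ) • m + θ • m' := by simp only [c]; module
    have a1 : ‖c θ‖ ≤ (1 - θ) * ‖m‖ + θ * ‖m'‖ := by
      rw [e]
      refine (norm_add_le _ _).trans ?_
      rw [norm_smul, norm_smul, Real.norm_of_nonneg hθ.1, Real.norm_of_nonneg (sub_nonneg.2 hθ.2)]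
    have a2 := pow_le_pow_left₀ (norm_nonneg _) a1 2
    unfold Dd at hm hm' ⊢
    nlinarith [mul_nonneg hθ.1 (sub_nonneg.2 hθ.2), sq_nonneg (‖m‖ - ‖m'‖), hθ.1, hθ.2,
      mul_nonneg (mul_nonneg hθ.1 (sub_nonneg.2 hθ.2)) (sq_nonneg (‖m‖ - ‖m'‖))]
  have sp : ∀ θ ∈ Icc (0 : ℝ) 1, gg f (c θ) (m' - m) (m' - m) ≤ L ^ 2 := fun θ hθ => by
    have hc := mem_of_le hδ (cm θ hθ)
    have a1 : ‖m' - m‖ ≤ 2 := by
      have := mem_Bl.1 (mem_of_le hδ hm)
      have := mem_Bl.1 (mem_of_le hδ hm')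
      linarith [norm_sub_le m' m]
    have a2 : g0 (c θ) (m' - m) (m' - m) ≤ 2 ^ 2 / δ ^ 2 :=
      (g0_bounds hc _).2.2.trans (div_le_div₀ (by norm_num)
        (pow_le_pow_left₀ (norm_nonneg _) a1 2) (by positivity)
        (pow_le_pow_left₀ hδ.le (cm θ hθ) 2))
    have a3 : Real.exp (2 * f (c θ)) ≤ 2 := by
      have := (abs_le.1 (h.conf.fb _ hc)).2
      have b := Real.add_one_le_exp (-(2 * f (c θ)))
      have b' : Real.exp (2 * f (c θ)) * Real.exp (-(2 * f (c θ))) = 1 := by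
        rw [← Real.exp_add]; simp
      nlinarith [Real.exp_pos (2 * f (c θ))]
    rw [gg_apply, hL, div_pow]
    calc _ ≤ 2 * (2 ^ 2 / δ ^ 2) :=
          mul_le_mul a3 a2 ((sq_nonneg _).trans (g0_bounds hc _).1) (by norm_num)
      _ ≤ _ := by
          rw [← mul_div_assoc]
          exact div_le_div_of_nonneg_right (by norm_num) (by positivity)
  have st := fun θ (hθ : θ ∈ Icc (0 : ℝ) 1) =>
    hb h hV hy (mem_of_le hδ (cm θ hθ)) (h1 _ (cm θ hθ)) (dc θ)
  have lip : ∀ θ ∈ Icc (0 : ℝ) 1, |dd f V y m - dd f V y (c θ)| ≤ L := fun θ hθ => by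
    have a1 := le_of_deriv (F := fun s => L * s - dd f V y (c s)) hθ.1 fun s hs => by
      have hs' : s ∈ Icc (0 : ℝ) 1 := ⟨hs.1, hs.2.trans hθ.2⟩
      obtain ⟨n, d, -, b2, b3, -⟩ := st s hs'
      refine ⟨_, ((hasDerivAt_id s).const_mul L).sub b2, ?_⟩
      have := abs_le_of_sq_le_sq' (b3.trans (sp s hs')) L0.le
      linarith [this.2]
    have a2 := le_of_deriv (F := fun s => L * s + dd f V y (c s)) hθ.1 fun s hs => by
      have hs' : s ∈ Icc (0 : ℝ) 1 := ⟨hs.1, hs.2.trans hθ.2⟩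
      obtain ⟨n, d, -, b2, b3, -⟩ := st s hs'
      refine ⟨_, ((hasDerivAt_id s).const_mul L).add b2, ?_⟩
      have := abs_le_of_sq_le_sq' (b3.trans (sp s hs')) L0.le
      linarith [this.1]
    simp only [c0] at a1 a2
    have := mul_le_mul_of_nonneg_left hθ.2 L0.le
    rw [abs_le]
    constructor <;> linarith
  have k0 : 0 ≤ C * Real.exp L * L ^ 2 := by have : 0 ≤ C := by linarith
                                             positivity
  refine ⟨by linarith [c1 ▸ lip 1 (right_mem_Icc.2 zero_le_one)], ?_⟩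
  set B := C * Real.exp L * L ^ 2 * Real.exp (-dd f V y m) with hB
  have B0 : 0 ≤ B := mul_nonneg k0 (Real.exp_pos _).le
  have key := mvt f hy (γ := fun s => dir f V y (c s)) (g := fun s => Real.sqrt B * s) zero_le_one
    fun θ hθ => by
      obtain ⟨n, d, b1, -, -, b4⟩ := st θ hθ
      refine ⟨n, _, b1, (hasDerivAt_id θ).const_mul _, ?_⟩
      rw [mul_one]
      refine Real.sqrt_le_sqrt (b4.trans ?_)
      have a1 : Real.exp (-dd f V y (c θ)) ≤ Real.exp L * Real.exp (-dd f V y m) := by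
        rw [← Real.exp_add, Real.exp_le_exp]
        linarith [(abs_le.1 (lip θ hθ)).2]
      calc _ ≤ C * (Real.exp L * Real.exp (-dd f V y m)) * L ^ 2 :=
            mul_le_mul (mul_le_mul_of_nonneg_left a1 (by linarith)) (sp θ hθ)
              (gg_nonneg f (mem_of_le hδ (cm θ hθ)) _)
              (mul_nonneg (by linarith) (by positivity))
        _ = B := by rw [hB]; ring
  simp only [c0, c1, mul_one, mul_zero, sub_zero] at key
  rw [← nr_sq f hy, nr_sub_comm]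
  refine (pow_le_pow_left₀ (nr_nonneg _ _ _) key 2).trans ?_
  rw [Real.sq_sqrt B0, hB]
  exact mul_le_mul_of_nonneg_right (by linarith) (Real.exp_pos _).le

theorem visibility {f : EE → ℝ} {φ : Flo} {M : DFlo} {V : EE → EE → EE} (h : Ctx f φ M)
    (hV : IsLog φ V) {p₀ : EE × EE} (hp : p₀.1 ∈ Bl) (h1 : en f p₀ = 1) :
    ∃ (δ T : ℝ) (N : Set (EE × EE)), 0 < δ ∧ IsOpen N ∧ p₀ ∈ N ∧ (∀ p ∈ N, δ ≤ Dd p.1) ∧
      ∀ p ∈ N, ∀ p' ∈ N, en f p = 1 → en f p' = 1 → ∀ s t : ℝ, T ≤ s → T ≤ t →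
        ∃ σ ∈ Icc (0 : ℝ) 1,
          δ ≤ Dd (φ σ ((φ (-s) p).1, V (φ (-s) p).1 (φ t p').1)).1 := by
  obtain ⟨K, hK, hs⟩ := seg
  set W := 2 + 8 * K with hW
  have W2 : 2 ≤ W := by linarith
  have hKW : K * Real.exp (-W / 2) ≤ 1 / 4 := by
    have a := Real.add_one_le_exp (W / 2)
    rw [neg_div, Real.exp_neg, ← div_eq_mul_inv, div_le_iff₀ (Real.exp_pos _)]
    linarith
  have d0 := Dd_pos hp
  set u₀ := 2 / Dd p₀.1 with hu₀
  have u0 : 0 < u₀ := by positivity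
  set U := Real.exp (3 * W) * u₀ with hU
  have e1 : 1 ≤ Real.exp (3 * W) := Real.one_le_exp (by linarith)
  have uU : u₀ ≤ U := le_mul_of_one_le_left u0.le e1
  have U0 : 0 < U := u0.trans_le uU
  set T := 6 * u₀ + 2 * U + 2 with hT
  have T0 : 0 < T := by positivity
  have cφ : ContinuousAt (φ T) p₀ := (h.flow.fderiv T p₀ (mem_OO.2 hp)).continuousAt
  have lf := log_flow h hV hp h1 0 T T0
  rw [h.flow.zero] at lf
  have cV : ContinuousAt (fun q : (EE × EE) × (EE × EE) => V q.1.1 (φ T q.2).1) (p₀, p₀) :=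
    ContinuousAt.comp (g := fun q : EE × EE => V q.1 q.2)
      (f := fun q : (EE × EE) × (EE × EE) => (q.1.1, (φ T q.2).1))
      (hV.cont.continuousAt ((isOpen_Bl.prod isOpen_Bl).mem_nhds ⟨hp, flow_mem h T hp⟩))
      (continuousAt_fst.fst.prodMk (ContinuousAt.comp (g := φ T) cφ continuousAt_snd).fst)
  have cg : ContinuousAt (fun q : (EE × EE) × (EE × EE) => gg f q.1.1) (p₀, p₀) :=
    ContinuousAt.comp (g := gg f)
      ((contDiffOn_gg h.conf.smooth 0).continuousOn.continuousAt (isOpen_Bl.mem_nhds hp))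
      continuousAt_fst.fst
  have cd : ContinuousAt (fun q : (EE × EE) × (EE × EE) => dir f V q.1.1 (φ T q.2).1 - q.1.2)
      (p₀, p₀) := by
    refine ContinuousAt.sub (ContinuousAt.smul (ContinuousAt.inv₀
      ((cg.clm_apply cV).clm_apply cV).sqrt ?_) cV) continuousAt_fst.snd
    have : dd f V p₀.1 (φ T p₀).1 ≠ 0 := by rw [lf.2.1]; linarith
    exact this
  have cG := ((cg.clm_apply cd).clm_apply cd).sqrt
  have ev := cG.eventually_lt (continuousAt_const (y := (1 / 4 : ℝ))) (by simp [lf.2.2])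
  rw [nhds_prod_eq] at ev
  obtain ⟨N1, hN1, hN⟩ := mem_prod_self_iff.1 ev
  have cD : Continuous fun p : EE × EE => Dd p.1 := by unfold Dd; fun_prop
  have low : ∀ p : EE × EE, Dd p₀.1 / 2 < Dd p.1 → p.1 ∈ Bl ∧ (Dd p.1)⁻¹ ≤ u₀ := fun p hp' =>
    ⟨mem_of_le (half_pos d0) hp'.le, by
      rw [hu₀, ← inv_div]
      exact inv_anti₀ (half_pos d0) hp'.le⟩
  refine ⟨U⁻¹, T, interior N1 ∩ {p | Dd p₀.1 / 2 < Dd p.1}, inv_pos.2 U0,
    isOpen_interior.inter (isOpen_lt continuous_const cD),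
    ⟨mem_interior_iff_mem_nhds.2 hN1, half_lt_self d0⟩, fun p hp' => ?_,
    fun p hp1 p' hp2 a1 a2 s t hTs hTt => ?_⟩
  · obtain ⟨b1, b2⟩ := low p hp'.2
    exact inv_le_of_inv_le₀ (Dd_pos b1) (b2.trans uU)
  obtain ⟨b1, b2⟩ := low p hp1.2
  obtain ⟨b3, b4⟩ := low p' hp2.2
  have x0 := Dd_pos b1
  have big : ∀ v : ℝ, U ≤ v → Real.exp (3 * W) ≤ v * Dd p.1 := fun v hv => by
    have c1 : 1 ≤ u₀ * Dd p.1 := by
      have := mul_le_mul_of_nonneg_right b2 x0.le
      rwa [inv_mul_cancel₀ x0.ne'] at this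
    calc _ ≤ Real.exp (3 * W) * (u₀ * Dd p.1) := le_mul_of_one_le_right (Real.exp_pos _).le c1
      _ = U * Dd p.1 := by rw [hU]; ring
      _ ≤ _ := mul_le_mul_of_nonneg_right hv x0.le
  by_contra hcon
  push Not at hcon
  have hy := flow_mem h (-s) b1
  have hz := flow_mem h t b3
  set y := (φ (-s) p).1 with hy'
  set z := (φ t p').1 with hz'
  have i1 : dir f V p.1 y = -p.2 := by
    have := (log_flow h hV (p := (p.1, (-1 : ℝ) • p.2)) b1 ((en_neg p).trans a1) 0 s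
      (T0.trans_le hTs)).2.2
    rw [h.flow.zero, flow_scale h.flow _ _ b1] at this
    simpa using this
  have i2 : nr f p.1 (dir f V p.1 y - dir f V p.1 z) ≤ 1 / 4 := by
    have r := hV.right y hy z hz
    by_cases e : V y z = 0
    · rw [e, flow_zero h hy] at r
      simp [r, nr]
    · obtain ⟨c1, c2⟩ := en_nrm (f := f) (p := (y, V y z)) hy e
      have l0 := Real.sqrt_pos.2 c1
      set l := Real.sqrt (en f (y, V y z)) with hl
      have c3 : ∀ σ, (φ (l * σ) (nrm f (y, V y z))).1 = (φ σ (y, V y z)).1 := fun σ => by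
        rw [← flow_nrm h.conf.smooth h.flow σ (p := (y, V y z)) hy e]
        rfl
      have := hs h hV b1 (q := nrm f (y, V y z)) hy c2 W W2 0 l l0.le fun τ hτ => by
        refine big _ ?_
        rw [← mul_div_cancel₀ τ l0.ne', c3]
        have c4 := hcon (τ / l) ⟨div_nonneg hτ.1 l0.le, (div_le_one l0).2 hτ.2⟩
        exact le_inv_of_le_inv₀ (Dd_pos (flow_mem h _ hy)) c4.le
      have c5 := c3 1
      rw [mul_one, r] at c5
      rw [c5, h.flow.zero] at this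
      exact this.trans hKW
  have i3 : nr f p.1 (dir f V p.1 (φ T p').1 - dir f V p.1 z) ≤ 1 / 4 := by
    refine (hs h hV b1 b3 a2 W W2 T t hTt fun τ hτ => big _ ?_).trans hKW
    refine le_trans ?_ (inv_Dd_exp h b3 τ)
    have τ0 : 0 < τ := T0.trans_le hτ.1
    rw [a2, Real.sqrt_one, abs_of_pos τ0]
    have c1 := mul_le_mul_of_nonneg_left b4 τ0.le
    have c2 := mul_le_mul_of_nonneg_left hτ.1 τ0.le
    have c3 : 1 ≤ τ := by linarith [hτ.1]
    nlinarith [mul_le_mul_of_nonneg_right c3 U0.le]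
  have i4 : nr f p.1 (dir f V p.1 (φ T p').1 - p.2) < 1 / 4 :=
    hN (a := (p, p')) ⟨interior_subset hp1.1, interior_subset hp2.1⟩
  have i5 : nr f p.1 (-p.2 - p.2) ^ 2 = 4 := by
    rw [nr_sq f b1]
    simp only [map_sub, map_neg, _root_.sub_apply, _root_.neg_apply]
    unfold en at a1
    linarith
  have i6 := nr_tri f b1 (-p.2) (dir f V p.1 z) p.2
  have i7 := nr_tri f b1 (dir f V p.1 z) (dir f V p.1 (φ T p').1) p.2
  rw [nr_sub_comm] at i3
  rw [i1] at i2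
  nlinarith [nr_nonneg f p.1 (-p.2 - p.2)]

end Pool.Agent.MP_019006_gt
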