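import Pool.Agent.MP_019006_gt.Distort2
import Pool.Agent.MP_019006_gt.LogMap
import Pool.Agent.MP_019006_gt.Visib

set_option autoImplicit false

open MeasureTheory Filter Topology Set Matrix

namespace Pool.Agent.MP_019006_gt

namespace Dstr

theorem seg_Dd {δ θ : ℝ} {m m' : EE} (hm : δ ≤ Dd m) (hm' : δ ≤ Dd m') (hθ : θ ∈ Icc (0 : ℝ) 1) :
    δ ≤ Dd (m + θ • (m' - m)) := by
  have e : m + θ • (m' - m) = (1 - θ) • m + θ • m' := by module
  have h0 : 0 ≤ 1 - θ := by linarith [hθ.2]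
  have h1 : ‖m + θ • (m' - m)‖ ≤ (1 - θ) * ‖m‖ + θ * ‖m'‖ := by
    rw [e]
    refine (norm_add_le _ _).trans ?_
    rw [norm_smul, norm_smul, Real.norm_of_nonneg h0, Real.norm_of_nonneg hθ.1]
  have h2 := pow_le_pow_left₀ (norm_nonneg _) h1 2
  have h3 := mul_nonneg (mul_nonneg hθ.1 h0) (sq_nonneg (‖m‖ - ‖m'‖))
  have h4 := mul_le_mul_of_nonneg_left hm h0
  have h5 := mul_le_mul_of_nonneg_left hm' hθ.1
  unfold Dd at *
  nlinarith

theorem dir_unit {f : EE → ℝ} {φ : Flo} {M : DFlo} {V : EE → EE → EE} (h : Ctx f φ M)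
    (hV : IsLog φ V) {y z : EE} (hy : y ∈ Bl) (hd : 0 < dd f V y z) :
    z ≠ y ∧ en f (y, dir f V y z) = 1 := by
  have h0 : V y z ≠ 0 := fun h0 => by
    rw [dd, h0] at hd
    simp [en] at hd
  refine ⟨fun e => h0 ?_, (en_nrm (p := (y, V y z)) hy h0).2⟩
  have h1 := flow_scale h.flow 0 1 (p := (y, 0)) hy
  have h2 := hV.left y hy 0
  simp only [zero_mul, h.flow.zero, smul_zero] at h1
  rw [h1] at h2
  rw [e, h2]

theorem gg_seg {f : EE → ℝ} (hf : Conf f) {δ : ℝ} (hδ : 0 < δ) {x m m' : EE} (hx : δ ≤ Dd x)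
    (hm : δ ≤ Dd m) (hm' : δ ≤ Dd m') : gg f x (m' - m) (m' - m) ≤ 5 / δ ^ 2 := by
  have hx' := Fib.mem_Bl_of hδ hx
  have a1 : gg f x (m' - m) (m' - m) ≤ 11 / 10 * g0 x (m' - m) (m' - m) :=
    FG.en_le hf (p := (x, m' - m)) hx'
  have a2 := (g0_bounds hx' (m' - m)).2.2
  have a3 : ‖m' - m‖ ≤ 2 := by
    linarith [norm_sub_le m' m, mem_Bl.1 (Fib.mem_Bl_of hδ hm), mem_Bl.1 (Fib.mem_Bl_of hδ hm')]
  have a4 : ‖m' - m‖ ^ 2 / Dd x ^ 2 ≤ 2 ^ 2 / δ ^ 2 := by gcongr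
  have a5 : 0 < 1 / δ ^ 2 := by positivity
  rw [div_eq_mul_one_div] at a2 a4 ⊢
  rw [div_eq_mul_one_div (2 ^ 2 : ℝ)] at a4
  linarith

end Dstr

open Dstr in
theorem distortion {f : EE → ℝ} {φ : Flo} {M : DFlo} {V : EE → EE → EE} (h : Ctx f φ M)
    (hV : IsLog φ V) {Λ : ℝ} {G : Type} [Group G] {ρ : G →* C3} (hρ : IsLattice Λ G ρ)
    (hf : ∀ a, ∀ x ∈ Bl, f (mob (ρ a) x) = f x) (δ : ℝ) (hδ : 0 < δ) : ∃ C : ℝ, ∀ y ∈ Bl,
      (∀ m, δ ≤ Dd m → 2 ≤ dd f V y m) → ∀ m m', δ ≤ Dd m → δ ≤ Dd m' →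
        |Real.log (JT f φ M V y m) - Real.log (JT f φ M V y m')| ≤ C := by
  obtain ⟨C0, hC0⟩ := dd_lip h hV δ hδ
  obtain ⟨Cb, hCb1, hCb⟩ := dir_basic
  have hB : 0 ≤ Cb * (5 / δ ^ 2) := by positivity
  obtain ⟨C, hC⟩ := twin h hρ hf (Real.sqrt_nonneg (Cb * (5 / δ ^ 2)))
  refine ⟨C + 4 * Cb * C0, fun y hy h2 m m' hm hm' => ?_⟩
  have hL := fun z z' hz hz' => (hC0 y hy (fun z hz => by linarith [h2 z hz]) z z' hz hz').1
  have hC00 : 0 ≤ C0 := (abs_nonneg _).trans (hL m m hm hm)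
  set T := max 1 (dd f V y m - C0) with hT
  have hT1 : ∀ z, δ ≤ Dd z → T ≤ dd f V y z ∧ dd f V y z - T ≤ 2 * C0 := fun z hz => by
    have a := abs_le.1 (hL m z hm hz)
    have b := le_max_right 1 (dd f V y m - C0)
    exact ⟨max_le (by linarith [h2 z hz]) (by linarith), by linarith⟩
  have hu := fun z hz => dir_unit h hV hy (lt_of_lt_of_le two_pos (h2 z hz))
  have hc : ∀ θ : ℝ, HasDerivAt (fun s : ℝ => m + s • (m' - m)) (m' - m) θ := fun θ => by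
    simpa using ((hasDerivAt_id θ).smul_const (m' - m)).const_add m
  choose! n d hn hd hn0 hnd using fun (θ : ℝ) (hθ : θ ∈ Icc (0 : ℝ) 1) =>
    dir_deriv h hV hy (c := fun s : ℝ => m + s • (m' - m)) (θ := θ)
      (Fib.mem_Bl_of hδ (seg_Dd hm hm' hθ)) (hu _ (seg_Dd hm hm' hθ)).1 (hc θ)
  have key := hC (y, dir f V y m) (y, dir f V y m') T hy (hu m hm).2 hy (hu m' hm').2
    (le_max_left _ _) fun t ht => by
      refine ⟨fun θ => φ t (y, dir f V y (m + θ • (m' - m))),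
        fun θ => M t (y, dir f V y (m + θ • (m' - m))) (0, n θ), by simp, by simp,
        fun θ hθ => ?_⟩
      have hz := seg_Dd hm hm' hθ
      have hO : (y, dir f V y (m + θ • (m' - m))) ∈ OO := mem_OO.2 hy
      refine ⟨mem_OO.1 (h.flow.mem t _ hO), by rw [en_flow h.conf.smooth h.flow, (hu _ hz).2],
        (h.flow.fderiv t _ hO).comp_hasDerivAt θ ((hasDerivAt_const θ y).prodMk (hn θ hθ)), ?_⟩
      refine (sq_le_sq₀ (Real.sqrt_nonneg _) (by positivity)).1 ?_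
      have a1 := (M_dirichlet h (p := (y, dir f V y (m + θ • (m' - m)))) hy (hu _ hz).2 (n θ)
        (hn0 θ hθ) t).2.2.1
      have a2 := (hCb _ _ _ _ (dirSys h (p := (y, dir f V y (m + θ • (m' - m)))) hy
        (hu _ hz).2)).2.2.2.1 t _ (fun j => gg f y (n θ) (frame (y, dir f V y (m + θ • (m' - m))) j))
        (by linarith [ht.1]) (ht.2.trans (hT1 _ hz).1) (by linarith [h2 _ hz])
      have a3 := hnd θ hθ
      have a4 := gg_seg h.conf hδ hz hm hm'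
      have a5 : Real.exp (t - dd f V y (m + θ • (m' - m))) ≤ Real.exp (t - T) :=
        Real.exp_le_exp.2 (by linarith [(hT1 _ hz).1])
      refine (a1.trans_le a2).trans ?_
      rw [mul_pow, Real.sq_sqrt hB, ← Real.exp_nat_mul,
        show ((2 : ℕ) : ℝ) * ((t - T) / 2) = t - T by push_cast; ring, mul_right_comm]
      refine mul_le_mul (mul_le_mul_of_nonneg_left ?_ (by linarith)) a5 (Real.exp_pos _).le hB
      nlinarith [sq_nonneg (d θ)]
  have l : ∀ z, δ ≤ Dd z → |Real.log (JT f φ M V y z) - LD f φ M (y, dir f V y z) T| ≤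
      Cb * (2 * C0) := fun z hz => by
    have a := (hCb _ _ _ _ (dirSys h (p := (y, dir f V y z)) hy (hu z hz).2)).2.2.2.2.2.2 T
      (dd f V y z) (le_max_left _ _) (by linarith [h2 z hz])
    rw [abs_of_nonneg (a := dd f V y z - T) (by linarith [(hT1 z hz).1])] at a
    exact a.trans (mul_le_mul_of_nonneg_left (hT1 z hz).2 (by linarith))
  have l1 := abs_le.1 (l m hm)
  have l2 := abs_le.1 (l m' hm')
  have l3 := abs_le.1 key
  rw [abs_le]
  constructor <;> linarith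

end Pool.Agent.MP_019006_gt
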