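import Pool.Agent.MP_019006_gt.Basic2
import Pool.Agent.MP_019006_gt.Jacobi
import Pool.Agent.MP_019006_gt.FlowGeo
import Pool.Agent.MP_019006_gt.OdeDir
import Pool.Agent.MP_019006_gt.ExpMap
import Pool.Agent.MP_019006_gt.LogMap
import Pool.Agent.MP_019006_gt.Visib
import Pool.Agent.MP_019006_gt.Distort

set_option autoImplicit false

open MeasureTheory Filter Topology Set Matrix

namespace Pool.Agent.MP_019006_gt

theorem cmp_mem_Bl {x : EE} (h : 0 < Dd x) : x ∈ Bl := by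
  unfold Dd at h
  simp only [Bl, mem_ball_zero_iff]
  nlinarith [norm_nonneg x]

theorem cmp_Dd_pos {x : EE} (h : x ∈ Bl) : 0 < Dd x := by
  simp only [Bl, mem_ball_zero_iff] at h
  unfold Dd
  nlinarith [norm_nonneg x]

theorem cmp_flow_mem {f : EE → ℝ} {φ : Flo} {M : DFlo} (h : Ctx f φ M) {p : EE × EE}
    (hp : p.1 ∈ Bl) (t : ℝ) : (φ t p).1 ∈ Bl :=
  (h.flow.mem t p ⟨hp, mem_univ _⟩).1

/-- Points far from `x` are close to the boundary. -/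
theorem cmp_far {f : EE → ℝ} {φ : Flo} {M : DFlo} {V : EE → EE → EE} (h : Ctx f φ M)
    (hV : IsLog φ V) {δ : ℝ} (hδ : 0 < δ) {x y : EE} (hx : δ ≤ Dd x) (hy : y ∈ Bl)
    (hd : 6 * δ⁻¹ + 2 * (Real.exp 6 * δ⁻¹) + 2 ≤ dd f V x y) : Dd y < Real.exp (-6) * δ := by
  have hxB := cmp_mem_Bl (hδ.trans_le hx)
  have h1 := (Dd_dd h hV hxB hy).2
  have h2 : (Dd x)⁻¹ ≤ δ⁻¹ := inv_anti₀ hδ hx
  have h3 : 0 < δ⁻¹ := inv_pos.2 hδ
  have h4 : 0 < Real.exp 6 * δ⁻¹ := mul_pos (Real.exp_pos _) h3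
  set d := dd f V x y
  have h5 : Real.exp 6 * δ⁻¹ < (Dd y)⁻¹ := by
    have e1 : 3 * d * (Dd x)⁻¹ ≤ 3 * d * δ⁻¹ := by
      apply mul_le_mul_of_nonneg_left h2; linarith
    have e2 : 2 * (Real.exp 6 * δ⁻¹ + 1) ≤ d * (d / 2 - 3 * δ⁻¹) := by
      apply mul_le_mul <;> linarith
    nlinarith
  have h6 : Real.exp (-6) * δ = (Real.exp 6 * δ⁻¹)⁻¹ := by
    rw [mul_inv, inv_inv, Real.exp_neg]
  rw [h6]
  exact (lt_inv_comm₀ h4 (cmp_Dd_pos hy)).1 h5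

theorem cmp_two_le {f : EE → ℝ} {φ : Flo} {M : DFlo} {V : EE → EE → EE} (h : Ctx f φ M)
    (hV : IsLog φ V) {δ : ℝ} (hδ : 0 < δ) {y : EE} (hy : y ∈ Bl)
    (hd : Dd y < Real.exp (-6) * δ) (m : EE) (hm : δ ≤ Dd m) : 2 ≤ dd f V y m := by
  by_contra hlt
  have hmB := cmp_mem_Bl (hδ.trans_le hm)
  have h1 := (Dd_dd h hV hmB hy).1
  rw [(log_rev h hV hmB hy).2.1] at h1
  have h2 : Real.exp (-6) ≤ Real.exp (-3 * dd f V y m) := Real.exp_le_exp.2 (by linarith)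
  have h3 : Real.exp (-6) * δ ≤ Real.exp (-3 * dd f V y m) * Dd m :=
    mul_le_mul h2 hm hδ.le (Real.exp_pos _).le
  linarith

theorem cmp_not_le {δ : ℝ} (hδ : 0 < δ) {y : EE} (hd : Dd y < Real.exp (-6) * δ) :
    ¬ δ ≤ Dd y := by
  have : Real.exp (-6) ≤ 1 := Real.exp_le_one_iff.2 (by norm_num)
  intro h
  nlinarith

theorem cmp_Jac {f : EE → ℝ} {φ : Flo} {M : DFlo} {V : EE → EE → EE} (h : Ctx f φ M)
    {x y : EE} (hx : x ∈ Bl) (hd : 0 < dd f V x y) :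
    0 < JT f φ M V x y ∧ Jac f φ M (x, V x y) = JT f φ M V x y / dd f V x y ^ 3 := by
  have h0 : V x y ≠ 0 := by
    intro e
    simp [dd, en, e] at hd
  obtain ⟨_, -, hb⟩ := dir_basic
  refine ⟨?_, Jac_eq h (p := (x, V x y)) hx h0⟩
  exact (hb _ _ _ _ (dirSys h (p := nrm f (x, V x y)) hx
    (en_nrm (p := (x, V x y)) hx h0).2)).1 _ hd

theorem cmp_real {a b c d₁ d₂ T μ K R : ℝ} (ha : 0 < a) (hb : 0 < b) (hc : 0 < c) (hμ : 0 < μ)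
    (hR : 0 < R) (hK : |Real.log a - Real.log b - Real.log c| ≤ K) (h1 : R ≤ d₁)
    (h1' : d₁ ≤ 2 * R) (h2 : R ≤ d₂) (h2' : d₂ ≤ 2 * R) (hT : R ≤ T) (hT' : T ≤ 4 * R) {C : ℝ}
    (hC : 64 * Real.exp K * (μ ^ 2 + (μ ^ 2)⁻¹) ≤ C) :
    R ^ 3 / C ≤ a / T ^ 3 / (μ ^ 2 * (b / d₁ ^ 3) * (c / d₂ ^ 3)) ∧
      a / T ^ 3 / (μ ^ 2 * (b / d₁ ^ 3) * (c / d₂ ^ 3)) ≤ C * R ^ 3 := by
  have hd1 : 0 < d₁ := hR.trans_le h1
  have hd2 : 0 < d₂ := hR.trans_le h2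
  have hT0 : 0 < T := hR.trans_le hT
  have e : a / T ^ 3 / (μ ^ 2 * (b / d₁ ^ 3) * (c / d₂ ^ 3)) =
      Real.exp (Real.log a - Real.log b - Real.log c) * (d₁ * d₂ / T) ^ 3 * (μ ^ 2)⁻¹ := by
    rw [Real.exp_sub, Real.exp_sub, Real.exp_log ha, Real.exp_log hb, Real.exp_log hc]
    field_simp
  rw [e]
  obtain ⟨k1, k2⟩ := abs_le.1 hK
  have l1 : Real.exp (-K) ≤ Real.exp (Real.log a - Real.log b - Real.log c) :=
    Real.exp_le_exp.2 k1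
  have l2 : Real.exp (Real.log a - Real.log b - Real.log c) ≤ Real.exp K := Real.exp_le_exp.2 k2
  have m1 : R / 4 ≤ d₁ * d₂ / T := by
    rw [le_div_iff₀ hT0]
    nlinarith [mul_le_mul h1 h2 hR.le hd1.le]
  have m2 : d₁ * d₂ / T ≤ 4 * R := by
    rw [div_le_iff₀ hT0]
    nlinarith [mul_le_mul h1' h2' hd2.le (by linarith)]
  have n1 : (R / 4) ^ 3 ≤ (d₁ * d₂ / T) ^ 3 := pow_le_pow_left₀ (by positivity) m1 3
  have n2 : (d₁ * d₂ / T) ^ 3 ≤ (4 * R) ^ 3 := pow_le_pow_left₀ (by positivity) m2 3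
  have hμ2 : 0 < μ ^ 2 := by positivity
  have hμ3 : 0 < (μ ^ 2)⁻¹ := by positivity
  have hE := Real.exp_pos K
  constructor
  · have c1 : 64 * Real.exp K * μ ^ 2 ≤ C := by nlinarith [mul_pos hE hμ3]
    calc R ^ 3 / C ≤ R ^ 3 / (64 * Real.exp K * μ ^ 2) :=
          div_le_div_of_nonneg_left (by positivity) (by positivity) c1
      _ = Real.exp (-K) * (R / 4) ^ 3 * (μ ^ 2)⁻¹ := by
          rw [Real.exp_neg]; field_simp; norm_num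
      _ ≤ _ := by gcongr
  · have c2 : 64 * Real.exp K * (μ ^ 2)⁻¹ ≤ C := by nlinarith [mul_pos hE hμ2]
    calc _ ≤ Real.exp K * (4 * R) ^ 3 * (μ ^ 2)⁻¹ := by gcongr
      _ = 64 * Real.exp K * (μ ^ 2)⁻¹ * R ^ 3 := by ring
      _ ≤ C * R ^ 3 := by gcongr

theorem jac_compare {f : EE → ℝ} {φ : Flo} {M : DFlo} {V : EE → EE → EE} (h : Ctx f φ M)
    (hV : IsLog φ V) {Λ : ℝ} {G : Type} [Group G] {ρ : G →* C3} (hρ : IsLattice Λ G ρ)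
    (hf : ∀ a, ∀ x ∈ Bl, f (mob (ρ a) x) = f x) (δ L : ℝ) (hδ : 0 < δ) (hL : 0 ≤ L)
    {x : EE} (hx : δ ≤ Dd x) :
    ∃ C R₀ δ' : ℝ, 1 ≤ C ∧ 0 < δ' ∧ ∀ R, R₀ ≤ R → ∀ p : EE × EE, p.1 ∈ Bl →
      dd f V x p.1 ∈ Icc R (R + L) → dd f V x (φ 1 p).1 ∈ Icc R (R + L) →
      (∃ σ ∈ Icc (0 : ℝ) 1, δ ≤ Dd (φ σ p).1) →
        R ^ 3 / C ≤ Jac f φ M p / (mm f x ^ 2 * Jac f φ M (x, V x p.1) *
          Jac f φ M (x, V x (φ 1 p).1)) ∧
        Jac f φ M p / (mm f x ^ 2 * Jac f φ M (x, V x p.1) *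
          Jac f φ M (x, V x (φ 1 p).1)) ≤ C * R ^ 3 ∧
        |Real.sqrt (en f p) - 2 * R| ≤ C ∧ δ' ≤ Dd (φ (1 / 2) p).1 := by
  obtain ⟨C₁, hC₁⟩ := dd_lip h hV δ hδ
  obtain ⟨C₂, hC₂⟩ := distortion h hV hρ hf δ hδ
  obtain ⟨C₃, hC₃⟩ := dir_glue
  obtain ⟨_, -, hb⟩ := dir_basic
  have hxB := cmp_mem_Bl (hδ.trans_le hx)
  have hμ : 0 < mm f x := div_pos (Real.exp_pos _) (pow_pos (cmp_Dd_pos hxB) 3)
  have hW : 0 < 64 * Real.exp (C₃ + 2 * C₂) * (mm f x ^ 2 + (mm f x ^ 2)⁻¹) := by positivity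
  have hi : 0 < δ⁻¹ := inv_pos.2 hδ
  have hi' : 0 < Real.exp 6 * δ⁻¹ := mul_pos (Real.exp_pos _) hi
  have hab := le_abs_self C₁
  have hab0 := abs_nonneg C₁
  refine ⟨64 * Real.exp (C₃ + 2 * C₂) * (mm f x ^ 2 + (mm f x ^ 2)⁻¹) + 2 * L + 2 * |C₁| + 1,
    6 * δ⁻¹ + 2 * (Real.exp 6 * δ⁻¹) + 2 + L + 2 * |C₁|,
    Real.exp (-3 * ((L + 2 * C₁) / 2)) * δ, by linarith, by positivity, ?_⟩
  rintro R hR p hp ⟨a1, a2⟩ ⟨b1, b2⟩ ⟨σ, ⟨s0, s1⟩, hm⟩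
  have hz := cmp_flow_mem h hp 1
  have hmB := cmp_flow_mem h hp σ
  have fy := cmp_far h hV hδ hx hp (by linarith)
  have fz := cmp_far h hV hδ hx hz (by linarith)
  have ty := cmp_two_le h hV hδ hp fy
  have tz := cmp_two_le h hV hδ hz fz
  have h0 : p.2 ≠ 0 := by
    intro e
    have h1 := flow_scale h.flow 0 σ hp
    rw [zero_smul, ← e, zero_mul, h.flow.zero] at h1
    rw [show φ σ p = φ σ (p.1, p.2) from rfl, h1] at hm
    exact cmp_not_le hδ fy hm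
  have σ0 : 0 < σ := by
    refine lt_of_le_of_ne s0 fun e => ?_
    rw [← e, h.flow.zero] at hm
    exact cmp_not_le hδ fy hm
  have σ1 : σ < 1 := by
    refine lt_of_le_of_ne s1 fun e => ?_
    rw [e] at hm
    exact cmp_not_le hδ fz hm
  obtain ⟨he, hq1⟩ := en_nrm (f := f) hp h0
  have hJ := Jac_eq h hp h0
  have hfl : ∀ r, (φ r p).1 = (φ (Real.sqrt (en f p) * r) (nrm f p)).1 := fun r => by
    rw [← flow_nrm h.conf.smooth h.flow r hp h0]; rfl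
  have hge := Dd_flow_ge h.conf h.flow hp σ (1 / 2)
  have hT : 0 < Real.sqrt (en f p) := Real.sqrt_pos.2 he
  set T := Real.sqrt (en f p) with hTd
  set q := nrm f p with hq
  have hqB : q.1 ∈ Bl := hp
  have hs : 0 < T * σ := mul_pos hT σ0
  have hst : T * σ < T * 1 := mul_lt_mul_of_pos_left σ1 hT
  obtain ⟨-, d1, e1⟩ := log_flow h hV hqB hq1 0 (T * σ) hs
  obtain ⟨-, d2, e2⟩ := log_flow h hV hqB hq1 (T * σ) (T * 1) hst
  rw [h.flow.zero, ← hfl, show q.1 = p.1 from rfl] at d1 e1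
  rw [sub_zero] at d1
  have J2 : JT f φ M V (φ σ p).1 (φ 1 p).1 = (YD f φ M (φ (T * σ) q) (T * 1 - T * σ)).det := by
    rw [hfl σ, hfl 1, JT, d2, e2]
  rw [← hfl, ← hfl] at d2
  have J1 : JT f φ M V p.1 (φ σ p).1 = (YD f φ M q (T * σ)).det := by
    rw [JT, d1, e1]; rfl
  have r1 := log_rev h hV hxB hp
  have r2 := log_rev h hV hxB hz
  have r3 := log_rev h hV hmB hz
  have l1 := abs_le.1 (hC₁ _ hp (fun m hm => le_trans (by norm_num) (ty m hm)) _ _ hm hx).1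
  have l2 := abs_le.1 (hC₁ _ hz (fun m hm => le_trans (by norm_num) (tz m hm)) _ _ hm hx).1
  have k1 := abs_le.1 (hC₂ _ hp ty _ _ hm hx)
  have k2 := abs_le.1 (hC₂ _ hz tz _ _ hm hx)
  have t1 := ty _ hm
  have t2 := tz _ hm
  rw [← r3.2.1, d2] at t2 l2
  rw [d1] at t1 l1
  rw [← r1.2.1] at l1
  rw [← r2.2.1] at l2
  rw [J1, ← r1.2.2.2] at k1
  rw [← r3.2.2.2, J2, ← r2.2.2.2] at k2
  have D1 := dirSys h hqB hq1
  have D2 := dirSys h (cmp_flow_mem h hqB (T * σ))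
    ((en_flow h.conf.smooth h.flow (T * σ) q).trans hq1)
  have hadd : ∀ r, φ r (φ (T * σ) q) = φ (T * σ + r) q := fun r => by
    rw [add_comm, h.flow.add]
  simp only [hadd] at D2
  have g := abs_le.1 (hC₃ _ _ _ _ _ _ (T * σ) (T * 1 - T * σ) D1 D2 (by linarith) (by linarith))
  rw [show T * σ + (T * 1 - T * σ) = T by ring] at g
  have hR0 : 0 < R := by linarith
  obtain ⟨p1, j1⟩ := cmp_Jac (V := V) h (y := p.1) hxB (by linarith)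
  obtain ⟨p2, j2⟩ := cmp_Jac (V := V) h (y := (φ 1 p).1) hxB (by linarith)
  have main := cmp_real (K := C₃ + 2 * C₂) (T := T) ((hb _ _ _ _ D1).1 T hT) p1 p2 hμ hR0
    (abs_le.2 ⟨by linarith, by linarith⟩) a1 (by linarith) b1 (by linarith) (by linarith)
    (by linarith) (C := 64 * Real.exp (C₃ + 2 * C₂) * (mm f x ^ 2 + (mm f x ^ 2)⁻¹) + 2 * L +
      2 * |C₁| + 1) (by linarith)
  rw [hJ, j1, j2]
  refine ⟨main.1, main.2, abs_le.2 ⟨by linarith, by linarith⟩, le_trans ?_ hge⟩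
  refine mul_le_mul (Real.exp_le_exp.2 ?_) hm hδ.le (Real.exp_pos _).le
  have : T * |1 / 2 - σ| ≤ (L + 2 * C₁) / 2 := by
    rw [← abs_of_pos hT, ← abs_mul, abs_le]
    constructor <;> linarith
  linarith

end Pool.Agent.MP_019006_gt
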