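import Pool.Agent.MP_019006_gt.Metric

set_option autoImplicit false

open MeasureTheory Filter Topology Set Matrix

namespace Pool.Agent.MP_019006_gt

namespace Curv

theorem hh_sub_left (x u u' w : EE) : hh x (u - u') w = hh x u w - hh x u' w := by
  simp only [hh, ip_sub_left]; ring
theorem hh_sub_right (x u w w' : EE) : hh x u (w - w') = hh x u w - hh x u w' := by
  simp only [hh, ip_sub_right]; ring
theorem hh_rsmul_left (x : EE) (c : ℝ) (u w : EE) : hh x (c • u) w = c * hh x u w := by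
  rw [rsmul_eq, hh_smul_left]
theorem hh_rsmul_right (x : EE) (c : ℝ) (u w : EE) : hh x u (c • w) = c * hh x u w := by
  rw [rsmul_eq, hh_smul_right, Complex.conj_ofReal]
theorem al_sub (x u u' : EE) : al x (u - u') = al x u - al x u' := by
  simp only [al, ip_sub_left]; ring
theorem al_rsmul (x : EE) (c : ℝ) (u : EE) : al x (c • u) = c * al x u := by
  rw [rsmul_eq, al_smul]
theorem g0_sub_left (x u u' w : EE) : g0 x (u - u') w = g0 x u w - g0 x u' w := by
  simp only [g0, hh_sub_left, Complex.sub_re]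
theorem g0_sub_right (x u w w' : EE) : g0 x u (w - w') = g0 x u w - g0 x u w' := by
  simp only [g0, hh_sub_right, Complex.sub_re]

theorem cdAt {F : Type} [NormedAddCommGroup F] [NormedSpace ℝ F] {g : EE → F} {n : ℕ}
    (hg : ContDiffOn ℝ n g Bl) {x : EE} (hx : x ∈ Bl) : ContDiffAt ℝ n g x :=
  hg.contDiffAt (isOpen_Bl.mem_nhds hx)

theorem diff_f {f : EE → ℝ} (hf : ∀ n : ℕ, ContDiffOn ℝ n f Bl) {x : EE} (hx : x ∈ Bl) :
    DifferentiableAt ℝ f x :=
  (cdAt (hf 1) hx).differentiableAt (by simp)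

theorem diff_df {f : EE → ℝ} (hf : ∀ n : ℕ, ContDiffOn ℝ n f Bl) {x : EE} (hx : x ∈ Bl) :
    DifferentiableAt ℝ (fderiv ℝ f) x := by
  have h : ContDiffAt ℝ 1 (fderiv ℝ f) x :=
    (cdAt (hf 2) hx).fderiv_right (by norm_num)
  exact h.differentiableAt (by simp)

theorem diff_NN {f : EE → ℝ} (hf : ∀ n : ℕ, ContDiffOn ℝ n f Bl) {x : EE} (hx : x ∈ Bl) :
    DifferentiableAt ℝ (NN f) x :=
  (cdAt (contDiffOn_NN hf 1) hx).differentiableAt (by simp)

theorem diff_GamL {f : EE → ℝ} (hf : ∀ n : ℕ, ContDiffOn ℝ n f Bl) {x : EE} (hx : x ∈ Bl) :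
    DifferentiableAt ℝ (GamL f) x :=
  (cdAt (contDiffOn_GamL hf 1) hx).differentiableAt (by simp)

theorem hasFDerivAt_df {f : EE → ℝ} (hf : ∀ n : ℕ, ContDiffOn ℝ n f Bl) {x : EE} (hx : x ∈ Bl)
    (w : EE) : HasFDerivAt (fun y => fderiv ℝ f y w)
      ((fderiv ℝ (fderiv ℝ f) x).flip w) x := by
  have h := (diff_df hf hx).hasFDerivAt.clm_apply (hasFDerivAt_const w x)
  simpa using h

theorem H_eq {f : EE → ℝ} (hf : ∀ n : ℕ, ContDiffOn ℝ n f Bl) {x : EE} (hx : x ∈ Bl)
    (u w : EE) : fderiv ℝ (fun y => fderiv ℝ f y w) x u = fderiv ℝ (fderiv ℝ f) x u w := by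
  rw [(hasFDerivAt_df hf hx w).fderiv]; rfl

theorem H_symm {f : EE → ℝ} (hf : ∀ n : ℕ, ContDiffOn ℝ n f Bl) {x : EE} (hx : x ∈ Bl)
    (u w : EE) : fderiv ℝ (fun y => fderiv ℝ f y w) x u =
      fderiv ℝ (fun y => fderiv ℝ f y u) x w := by
  rw [H_eq hf hx, H_eq hf hx]
  have h : IsSymmSndFDerivAt ℝ f x :=
    (cdAt (hf 2) hx).isSymmSndFDerivAt (by simp)
  exact h u w

theorem Gam0_symm (x u w : EE) : Gam0 x u w = Gam0 x w u := by
  simp only [Gam0]; abel

theorem fderiv_GamL {f : EE → ℝ} (hf : ∀ n : ℕ, ContDiffOn ℝ n f Bl) {x : EE} (hx : x ∈ Bl)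
    (u v w : EE) : fderiv ℝ (fun y => Gam f y v w) x u = fderiv ℝ (GamL f) x u v w := by
  have h := ((diff_GamL hf hx).hasFDerivAt.clm_apply (hasFDerivAt_const v x)).clm_apply
    (hasFDerivAt_const w x)
  have h' : fderiv ℝ (fun y => GamL f y v w) x = _ := h.fderiv
  have e : (fun y => Gam f y v w) = fun y => GamL f y v w := rfl
  rw [e, h']; simp

theorem curv_eq {f : EE → ℝ} (hf : ∀ n : ℕ, ContDiffOn ℝ n f Bl) {x : EE} (hx : x ∈ Bl)
    (u v w : EE) : curv (Gam f) x u v w = fderiv ℝ (GamL f) x u v w - fderiv ℝ (GamL f) x v u w +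
      GamL f x u (GamL f x v w) - GamL f x v (GamL f x u w) := by
  rw [curv, fderiv_GamL hf hx, fderiv_GamL hf hx]; rfl

theorem fderiv_Gam {f : EE → ℝ} (hf : ∀ n : ℕ, ContDiffOn ℝ n f Bl) {x : EE} (hx : x ∈ Bl)
    (u v w : EE) : fderiv ℝ (fun y => Gam f y v w) x u =
      (hh x v u + al x v * al x u) • w + (hh x w u + al x w * al x u) • v +
      fderiv ℝ (fun y => fderiv ℝ f y v) x u • w + fderiv ℝ (fun y => fderiv ℝ f y w) x u • v -
      ((g0 x (Gam0 x u v) w + g0 x v (Gam0 x u w)) • NN f x + g0 x v w • fderiv ℝ (NN f) x u) := by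
  have a1 := (hasDerivAt_al hx u v).1.hasFDerivAt.smul_const w
  have a2 := (hasDerivAt_al hx u w).1.hasFDerivAt.smul_const v
  have a3 := (hasFDerivAt_df hf hx v).differentiableAt.hasFDerivAt.smul_const w
  have a4 := (hasFDerivAt_df hf hx w).differentiableAt.hasFDerivAt.smul_const v
  have a5 := (fderiv_g0 hx u v w).1.hasFDerivAt.fun_smul (diff_NN hf hx).hasFDerivAt
  have a := (((a1.fun_add a2).fun_add a3).fun_add a4).fun_sub a5
  have e : (fun y => Gam f y v w) = fun y => al y v • w + al y w • v + fderiv ℝ f y v • w +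
      fderiv ℝ f y w • v - g0 y v w • NN f y := rfl
  rw [e, a.fderiv]
  simp only [_root_.sub_apply, _root_.add_apply,
    ContinuousLinearMap.smulRight_apply, _root_.smul_apply,
    (hasDerivAt_al hx u v).2, (hasDerivAt_al hx u w).2, (fderiv_g0 hx u v w).2]
  abel

theorem Gam_zero (x u w : EE) : Gam (fun _ => (0 : ℝ)) x u w = Gam0 x u w := by
  simp [Gam, NN, gradient, ip]

theorem g0_DN {f : EE → ℝ} (hf : ∀ n : ℕ, ContDiffOn ℝ n f Bl) {x : EE} (hx : x ∈ Bl)
    (u z : EE) : g0 x (fderiv ℝ (NN f) x u) z = fderiv ℝ (fun y => fderiv ℝ f y z) x u -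
      g0 x (Gam0 x u (NN f x)) z - g0 x (NN f x) (Gam0 x u z) := by
  have hc : HasDerivAt (fun s : ℝ => x + s • u) u 0 := by
    simpa using ((hasDerivAt_id (0 : ℝ)).smul_const u).const_add x
  have hx0 : x + (0 : ℝ) • u = x := by simp
  have hN : HasDerivAt (fun s : ℝ => NN f (x + s • u)) (fderiv ℝ (NN f) x u) 0 := by
    have h1 : HasFDerivAt (NN f) (fderiv ℝ (NN f) x) (x + (0 : ℝ) • u) := by
      rw [hx0]; exact (diff_NN hf hx).hasFDerivAt
    exact h1.comp_hasDerivAt (0 : ℝ) hc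
  have hD : HasDerivAt (fun s : ℝ => fderiv ℝ f (x + s • u) z)
      (fderiv ℝ (fun y => fderiv ℝ f y z) x u) 0 := by
    have h1 : HasFDerivAt (fun y => fderiv ℝ f y z) (fderiv ℝ (fun y => fderiv ℝ f y z) x)
        (x + (0 : ℝ) • u) := by
      rw [hx0]; exact (hasFDerivAt_df hf hx z).differentiableAt.hasFDerivAt
    exact h1.comp_hasDerivAt (0 : ℝ) hc
  have h0 : ∀ n : ℕ, ContDiffOn ℝ n (fun _ : EE => (0 : ℝ)) Bl := fun n => contDiffOn_const
  have hG := hasDerivAt_gg h0 (x := fun s : ℝ => x + s • u) (a := fun s : ℝ => NN f (x + s • u))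
    (b := fun _ => z) (t := 0) (by rw [hx0]; exact hx) hc hN (hasDerivAt_const 0 z)
  have hev : (fun s : ℝ => fderiv ℝ f (x + s • u) z) =ᶠ[𝓝 0]
      fun s : ℝ => gg (fun _ => (0 : ℝ)) (x + s • u) (NN f (x + s • u)) z := by
    have : ∀ᶠ s : ℝ in 𝓝 0, x + s • u ∈ Bl :=
      hc.continuousAt.preimage_mem_nhds (isOpen_Bl.mem_nhds (by rw [hx0]; exact hx))
    filter_upwards [this] with s hs
    rw [gg_apply, g0_NN f hs]; simp
  have hu := hD.unique (hG.congr_of_eventuallyEq hev)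
  simp only [hx0, gg_apply, Gam_zero, mul_zero, Real.exp_zero, one_mul, zero_add,
    g0_add_left] at hu
  linarith

end Curv

open Curv

theorem TT_symm {f : EE → ℝ} (hf : ∀ n : ℕ, ContDiffOn ℝ n f Bl) {x : EE} (hx : x ∈ Bl)
    (u w : EE) : TT f x u w = TT f x w u := by
  simp only [TT, Hess]
  rw [H_symm hf hx u w, Gam0_symm x u w, g0_symm x u w]; ring

theorem TT_add_left (f : EE → ℝ) (x u u' w : EE) :
    TT f x (u + u') w = TT f x u w + TT f x u' w := by
  have h : Gam0 x (u + u') w = Gam0 x u w + Gam0 x u' w := by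
    simp only [Gam0, al_add, add_smul, smul_add]; abel
  simp only [TT, Hess, h, map_add, g0_add_left]; ring

theorem TT_smul_left (f : EE → ℝ) (x : EE) (c : ℝ) (u w : EE) :
    TT f x (c • u) w = c * TT f x u w := by
  have h : Gam0 x (c • u) w = c • Gam0 x u w := by
    simp only [Gam0, al_rsmul]
    simp only [rsmul_eq]
    module
  simp only [TT, Hess, h, map_smul, g0_smul_left, smul_eq_mul]; ring

theorem curv_add_left {f : EE → ℝ} (hf : ∀ n : ℕ, ContDiffOn ℝ n f Bl) {x : EE} (hx : x ∈ Bl)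
    (u u' w y : EE) :
    curv (Gam f) x (u + u') w y = curv (Gam f) x u w y + curv (Gam f) x u' w y := by
  simp only [curv_eq hf hx, map_add, _root_.add_apply]; abel

theorem curv_smul_left {f : EE → ℝ} (hf : ∀ n : ℕ, ContDiffOn ℝ n f Bl) {x : EE} (hx : x ∈ Bl)
    (c : ℝ) (u w y : EE) : curv (Gam f) x (c • u) w y = c • curv (Gam f) x u w y := by
  simp only [curv_eq hf hx, map_smul, _root_.smul_apply, smul_add, smul_sub]

theorem curv_formula {f : EE → ℝ} (hf : ∀ n : ℕ, ContDiffOn ℝ n f Bl) {x : EE} (hx : x ∈ Bl)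
    (u w y z : EE) : g0 x (curv (Gam f) x u w y) z =
      (hh x y u * hh x w z - hh x y w * hh x u z + (hh x w u - hh x u w) * hh x y z).re -
        (TT f x w y * g0 x u z - TT f x u y * g0 x w z + g0 x w y * TT f x u z -
          g0 x u y * TT f x w z) := by
  have e1 := g0_DN hf hx u z
  have e2 := g0_DN hf hx w z
  have e3 := H_symm hf hx u w
  rw [curv, fderiv_Gam hf hx, fderiv_Gam hf hx]
  simp only [TT, Hess]
  rw [e3]
  generalize fderiv ℝ (fun y => fderiv ℝ f y u) x w = Hwu at *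
  generalize fderiv ℝ (fun y' => fderiv ℝ f y' y) x u = Huy at *
  generalize fderiv ℝ (fun y' => fderiv ℝ f y' y) x w = Hwy at *
  generalize fderiv ℝ (fun y' => fderiv ℝ f y' z) x u = Huz at *
  generalize fderiv ℝ (fun y' => fderiv ℝ f y' z) x w = Hwz at *
  generalize fderiv ℝ (NN f) x u = Du at *
  generalize fderiv ℝ (NN f) x w = Dw at *
  simp only [g0_add_left, g0_sub_left, g0_smul_left, e1, e2]
  simp only [Gam, Gam0, ← g0_NN f hx]
  generalize NN f x = N
  simp only [g0, hh_add_left, hh_sub_left, hh_smul_left, hh_rsmul_left, hh_add_right,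
    hh_sub_right, hh_smul_right, hh_rsmul_right, al_add, al_sub, al_smul, al_rsmul]
  rw [← hh_conj x u w, ← hh_conj x u y, ← hh_conj x w y, ← hh_conj x N u, ← hh_conj x N w]
  generalize hh x u w = uw
  generalize hh x u y = uy
  generalize hh x w y = wy
  generalize hh x N u = Nu
  generalize hh x N w = Nw
  generalize hh x N y = Ny
  generalize hh x N z = Nz
  generalize hh x N N = NN'
  generalize hh x u z = uz
  generalize hh x w z = wz
  generalize hh x y z = yz
  generalize al x u = au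
  generalize al x w = aw
  generalize al x y = ay
  generalize al x z = az
  generalize al x N = aN
  simp only [Complex.add_re, Complex.sub_re, Complex.mul_re, Complex.add_im, Complex.sub_im,
    Complex.mul_im, Complex.conj_re, Complex.conj_im, Complex.ofReal_re, Complex.ofReal_im]
  ring

end Pool.Agent.MP_019006_gt
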