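import Mathlib

set_option autoImplicit false

namespace Pool.Agent.MP_019006_gt

open Filter Topology

variable {E : Type} [NormedAddCommGroup E] [NormedSpace ℝ E]

/-- `g` is a smooth Riemannian metric on the open set `Ω`. -/
def IsRiemannian (Ω : Set E) (g : E → E →L[ℝ] E →L[ℝ] ℝ) : Prop :=
  (∀ n : ℕ, ContDiffOn ℝ n g Ω) ∧
    ∀ x ∈ Ω, (∀ u w : E, g x u w = g x w u) ∧ ∀ u : E, u ≠ 0 → 0 < g x u u

/-- `Γ` is the Christoffel map of `g` on `Ω` (Koszul formula). -/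
def IsChristoffel (Ω : Set E) (g : E → E →L[ℝ] E →L[ℝ] ℝ) (Γ : E → E → E → E) : Prop :=
  ∀ x ∈ Ω, ∀ u v w : E, 2 * g x (Γ x u v) w =
    fderiv ℝ (fun y => g y v w) x u + fderiv ℝ (fun y => g y u w) x v -
      fderiv ℝ (fun y => g y u v) x w

/-- The curvature tensor `R(u,v)w` at `x`. -/
noncomputable def curv (Γ : E → E → E → E) (x u v w : E) : E :=
  fderiv ℝ (fun y => Γ y v w) x u - fderiv ℝ (fun y => Γ y u w) x v +
    Γ x u (Γ x v w) - Γ x v (Γ x u w)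

/-- All sectional curvatures are negative on `Ω`. -/
def NegCurved (Ω : Set E) (g : E → E →L[ℝ] E →L[ℝ] ℝ) (Γ : E → E → E → E) : Prop :=
  ∀ x ∈ Ω, ∀ u v : E, LinearIndependent ℝ ![u, v] → g x (curv Γ x u v v) u < 0

/-- A free, properly discontinuous, cocompact action of `G` on `Ω` by smooth isometries. -/
def IsDeckAction (Ω : Set E) (g : E → E →L[ℝ] E →L[ℝ] ℝ) (G : Type) [Group G]
    (act : G → E → E) : Prop :=
  (∀ a : G, ∀ x ∈ Ω, act a x ∈ Ω) ∧ (∀ x ∈ Ω, act 1 x = x) ∧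
    (∀ a b : G, ∀ x ∈ Ω, act (a * b) x = act a (act b x)) ∧
    (∀ (a : G) (n : ℕ), ContDiffOn ℝ n (act a) Ω) ∧
    (∀ a : G, ∀ x ∈ Ω, ∀ u w : E,
      g (act a x) (fderiv ℝ (act a) x u) (fderiv ℝ (act a) x w) = g x u w) ∧
    (∀ a : G, ∀ x ∈ Ω, act a x = x → a = 1) ∧
    (∀ K : Set E, K ⊆ Ω → IsCompact K → {a : G | (act a '' K ∩ K).Nonempty}.Finite) ∧
    ∃ K : Set E, K ⊆ Ω ∧ IsCompact K ∧ ∀ x ∈ Ω, ∃ a : G, act a x ∈ K

/-- `φ` is the (complete, differentiable) geodesic flow on the tangent bundle `Ω × E`. -/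
def IsGeodesicFlow (Ω : Set E) (Γ : E → E → E → E) (φ : ℝ → E × E → E × E) : Prop :=
  ∀ p : E × E, p.1 ∈ Ω → φ 0 p = p ∧ ∀ t : ℝ, (φ t p).1 ∈ Ω ∧
    HasDerivAt (fun s => φ s p) ((φ t p).2, -Γ (φ t p).1 (φ t p).2 (φ t p).2) t ∧
    DifferentiableAt ℝ (φ t) p

/-- The Sasaki norm of a tangent vector `ξ` to the tangent bundle at `p`. -/
noncomputable def sasaki (g : E → E →L[ℝ] E →L[ℝ] ℝ) (Γ : E → E → E → E) (p ξ : E × E) : ℝ :=
  Real.sqrt (g p.1 ξ.1 ξ.1 + g p.1 (ξ.2 + Γ p.1 p.2 ξ.1) (ξ.2 + Γ p.1 p.2 ξ.1))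

/-- `χ` is the exponential growth rate, as time tends to the filter `l`, of some non-zero vector
tangent to the sphere bundle at `p`. -/
def IsExponentAlong (l : Filter ℝ) (g : E → E →L[ℝ] E →L[ℝ] ℝ) (Γ : E → E → E → E)
    (φ : ℝ → E × E → E × E) (p : E × E) (χ : ℝ) : Prop :=
  ∃ ξ : E × E, ξ ≠ 0 ∧ fderiv ℝ (fun q : E × E => g q.1 q.2 q.2) p ξ = 0 ∧
    Tendsto (fun t : ℝ => Real.log (sasaki g Γ (φ t p) (fderiv ℝ (φ t) p ξ)) / t) l (𝓝 χ)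

end Pool.Agent.MP_019006_gt
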