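import Pool.Agent.MP_019006_gt.JobDefs

set_option autoImplicit false

open MeasureTheory Filter Topology Set Matrix

namespace Pool.Agent.MP_019006_gt

namespace OdeMul

/-- Entrywise derivative of a matrix valued function. -/
def HD (F : ℝ → M3) (F' : M3) (t : ℝ) : Prop := ∀ i j, HasDerivAt (fun s => F s i j) (F' i j) t

theorem HD.mul {F G : ℝ → M3} {F' G' : M3} {t : ℝ} (hF : HD F F' t) (hG : HD G G' t) :
    HD (fun s => F s * G s) (F' * G t + F t * G') t := by
  intro i j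
  simp only [Matrix.mul_apply, Matrix.add_apply, ← Finset.sum_add_distrib]
  exact HasDerivAt.fun_sum fun k _ => (hF i k).mul (hG k j)

theorem HD.const (A : M3) (t : ℝ) : HD (fun _ => A) 0 t := fun i j => hasDerivAt_const t (A i j)

theorem HD.mul_const {F : ℝ → M3} {F' : M3} {t : ℝ} (hF : HD F F' t) (A : M3) :
    HD (fun s => F s * A) (F' * A) t := by
  simpa using hF.mul (HD.const A t)

theorem HD.transpose {F : ℝ → M3} {F' : M3} {t : ℝ} (hF : HD F F' t) :
    HD (fun s => (F s)ᵀ) F'ᵀ t := fun i j => hF j i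

theorem HD.sub {F G : ℝ → M3} {F' G' : M3} {t : ℝ} (hF : HD F F' t) (hG : HD G G' t) :
    HD (fun s => F s - G s) (F' - G') t := fun i j => (hF i j).sub (hG i j)

theorem HD.unique {F : ℝ → M3} {A B : M3} {t : ℝ} (h1 : HD F A t) (h2 : HD F B t) : A = B := by
  ext i j
  exact (h1 i j).unique (h2 i j)

theorem HD.shift {F : ℝ → M3} {F' : M3} {s t : ℝ} (hF : HD F F' (s + t)) :
    HD (fun r => F (s + r)) F' t := fun i j => (hF i j).comp_const_add s t

theorem HD.det_diff {F : ℝ → M3} {F' : M3} {t : ℝ} (hF : HD F F' t) :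
    DifferentiableAt ℝ (fun s => (F s).det) t := by
  have h : ∀ i j, DifferentiableAt ℝ (fun s => F s i j) t := fun i j => (hF i j).differentiableAt
  simp only [Matrix.det_fin_three]
  have h00 := h 0 0
  have h01 := h 0 1
  have h02 := h 0 2
  have h10 := h 1 0
  have h11 := h 1 1
  have h12 := h 1 2
  have h20 := h 2 0
  have h21 := h 2 1
  have h22 := h 2 2
  fun_prop

theorem HD.adj_diff {F : ℝ → M3} {F' : M3} {t : ℝ} (hF : HD F F' t) (i j : Fin 3) :
    DifferentiableAt ℝ (fun s => (F s).adjugate i j) t := by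
  have h : ∀ i j, DifferentiableAt ℝ (fun s => F s i j) t := fun i j => (hF i j).differentiableAt
  have h00 := h 0 0
  have h01 := h 0 1
  have h02 := h 0 2
  have h10 := h 1 0
  have h11 := h 1 1
  have h12 := h 1 2
  have h20 := h 2 0
  have h21 := h 2 1
  have h22 := h 2 2
  simp only [Matrix.adjugate_fin_three]
  fin_cases i <;> fin_cases j <;> simp <;> fun_prop

theorem HD.inv {F : ℝ → M3} {F' : M3} {t : ℝ} (hF : HD F F' t) (hd : (F t).det ≠ 0) :
    HD (fun s => (F s)⁻¹) (-((F t)⁻¹ * F' * (F t)⁻¹)) t := by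
  have hdiff : ∀ i j, DifferentiableAt ℝ (fun s => (F s)⁻¹ i j) t := by
    intro i j
    simp only [Matrix.inv_def, Ring.inverse_eq_inv', Matrix.smul_apply, smul_eq_mul]
    exact (hF.det_diff.inv hd).mul (hF.adj_diff i j)
  set D : M3 := Matrix.of fun i j => deriv (fun s => (F s)⁻¹ i j) t with hD
  have h1 : HD (fun s => (F s)⁻¹) D t := fun i j => (hdiff i j).hasDerivAt
  have h2 := h1.mul hF
  have hev : ∀ᶠ s in 𝓝 t, (F s).det ≠ 0 := hF.det_diff.continuousAt.eventually_ne hd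
  have h3 : HD (fun s => (F s)⁻¹ * F s) 0 t := by
    intro i j
    refine (hasDerivAt_const t ((1 : M3) i j)).congr_of_eventuallyEq ?_
    filter_upwards [hev] with s hs
    rw [Matrix.nonsing_inv_mul _ (Ne.isUnit hs)]
  have h4 := h2.unique h3
  have h5 : D = -((F t)⁻¹ * F' * (F t)⁻¹) := by
    have hu : F t * (F t)⁻¹ = 1 := Matrix.mul_nonsing_inv _ (Ne.isUnit hd)
    have : D * F t = -((F t)⁻¹ * F') := eq_neg_of_add_eq_zero_left h4
    calc D = D * (F t * (F t)⁻¹) := by rw [hu, Matrix.mul_one]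
      _ = D * F t * (F t)⁻¹ := by rw [Matrix.mul_assoc]
      _ = _ := by rw [this, Matrix.neg_mul]
  rwa [← h5]

theorem nsq_nonneg (u : Fin 3 → ℝ) : 0 ≤ nsq u := by
  unfold nsq
  positivity

theorem nsq_eq_dot (u : Fin 3 → ℝ) : nsq u = u ⬝ᵥ u := by
  simp [nsq, dotProduct, Fin.sum_univ_three, sq]

theorem cs (u v : Fin 3 → ℝ) : (u ⬝ᵥ v) ^ 2 ≤ nsq u * nsq v := by
  simp only [nsq, dotProduct, Fin.sum_univ_three]
  nlinarith [sq_nonneg (u 0 * v 1 - u 1 * v 0), sq_nonneg (u 0 * v 2 - u 2 * v 0),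
    sq_nonneg (u 1 * v 2 - u 2 * v 1)]

theorem nsq_single (j : Fin 3) : nsq (Pi.single j 1) = 1 := by
  fin_cases j <;> simp [nsq]

theorem transpose_bound (A : M3) (c : ℝ) (hc : 0 ≤ c) (h : ∀ u, nsq (A *ᵥ u) ≤ c * nsq u)
    (v : Fin 3 → ℝ) : nsq (Aᵀ *ᵥ v) ≤ c * nsq v := by
  set w := Aᵀ *ᵥ v with hw
  have h1 : nsq w = v ⬝ᵥ (A *ᵥ w) := by
    rw [nsq_eq_dot, Matrix.dotProduct_mulVec v A w, ← Matrix.mulVec_transpose]
  have h2 := cs v (A *ᵥ w)
  have h3 := h w
  have h4 := nsq_nonneg w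
  have h5 := nsq_nonneg v
  rw [← h1] at h2
  rcases h4.eq_or_lt with h0 | h0
  · rw [← h0]
    positivity
  · have : nsq w * nsq w ≤ c * nsq v * nsq w := by nlinarith [mul_le_mul_of_nonneg_left h3 h5]
    exact le_of_mul_le_mul_right this h0

theorem fro_nonneg (A : M3) : 0 ≤ fro A := Real.sqrt_nonneg _

theorem fro_sq (A : M3) : fro A ^ 2 = ∑ i, ∑ j, A i j ^ 2 :=
  Real.sq_sqrt (Finset.sum_nonneg fun _ _ => Finset.sum_nonneg fun _ _ => sq_nonneg _)

theorem fro_sq_cols (A : M3) : fro A ^ 2 = ∑ j, nsq (A *ᵥ Pi.single j 1) := by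
  rw [fro_sq, Finset.sum_comm]
  refine Finset.sum_congr rfl fun j _ => ?_
  simp [nsq, Fin.sum_univ_three]

theorem fro_mul_le (A B : M3) : fro (A * B) ≤ fro A * fro B := by
  refine (sq_le_sq₀ (fro_nonneg _) (mul_nonneg (fro_nonneg A) (fro_nonneg B))).1 ?_
  rw [mul_pow, fro_sq, fro_sq, fro_sq, Finset.sum_mul]
  refine Finset.sum_le_sum fun i _ => ?_
  rw [Finset.sum_comm (f := fun i j => B i j ^ 2), Finset.mul_sum]
  refine Finset.sum_le_sum fun j _ => ?_
  rw [Matrix.mul_apply]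
  exact Finset.sum_mul_sq_le_sq_mul_sq _ _ _

theorem fro_pos {A : M3} (h : A.det ≠ 0) : 0 < fro A := by
  rcases (fro_nonneg A).eq_or_lt with h0 | h0
  · exfalso
    have h1 : ∑ i, ∑ j, A i j ^ 2 = 0 := by rw [← fro_sq, ← h0]; norm_num
    have h2 : A = 0 := by
      ext i j
      have h3 := (Finset.sum_eq_zero_iff_of_nonneg
        (fun i _ => Finset.sum_nonneg fun j _ => sq_nonneg (A i j))).1 h1 i (Finset.mem_univ _)
      have h4 := (Finset.sum_eq_zero_iff_of_nonneg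
        (fun j _ => sq_nonneg (A i j))).1 h3 j (Finset.mem_univ _)
      simpa using h4
    apply h
    rw [h2]
    simp
  · exact h0

theorem fro_sq_trace (A : M3) : fro A ^ 2 = (Aᵀ * A).trace := by
  rw [fro_sq, Finset.sum_comm]
  simp [Matrix.trace, Matrix.mul_apply, sq]

theorem entry_sq_le (A : M3) (i j : Fin 3) : A i j ^ 2 ≤ nsq (A *ᵥ Pi.single j 1) := by
  have h0 := sq_nonneg (A 0 j)
  have h1 := sq_nonneg (A 1 j)
  have h2 := sq_nonneg (A 2 j)
  fin_cases i <;> simp [nsq] <;> nlinarith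

theorem det_bound (A : M3) (x : ℝ) (h : ∀ i j, |A i j| ≤ x) : |A.det| ≤ 6 * x ^ 3 := by
  have := Matrix.det_le (abv := AbsoluteValue.abs) (A := A) (x := x) h
  simpa [Nat.factorial] using this

end OdeMul

open OdeMul

theorem fro_rot (A R S : M3) (hR : Rᵀ * R = 1) (hS : Sᵀ * S = 1) : fro (R * A * S) = fro A := by
  have hS' : S * Sᵀ = 1 := mul_eq_one_comm.1 hS
  have : fro (R * A * S) ^ 2 = fro A ^ 2 := by
    rw [fro_sq_trace, fro_sq_trace]
    have e1 : (R * A * S)ᵀ * (R * A * S) = Sᵀ * (Aᵀ * (Rᵀ * R) * A * S) := by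
      simp only [Matrix.transpose_mul, Matrix.mul_assoc]
    rw [e1, hR, Matrix.trace_mul_comm, Matrix.mul_one, Matrix.mul_assoc, hS', Matrix.mul_one]
  exact (sq_eq_sq₀ (fro_nonneg _) (fro_nonneg _)).1 this

theorem growth_vec {K Om Y H : ℝ → M3} (hJ : JacSys K Om Y H) (hC : Cone K Om Y H)
    (s t : ℝ) (hs : 0 ≤ s) (hst : s ≤ t) (u : Fin 3 → ℝ) :
    Real.exp (9 / 5 * (t - s)) * nsq (Y s *ᵥ u) ≤ nsq (Y t *ᵥ u) ∧
      nsq (Y t *ᵥ u) ≤ Real.exp (21 / 5 * (t - s)) * nsq (Y s *ᵥ u) := by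
  have hy : ∀ r i, HasDerivAt (fun r => (Y r *ᵥ u) i) (((H r - Om r * Y r) *ᵥ u) i) r := by
    intro r i
    simp only [Matrix.mulVec, dotProduct]
    exact HasDerivAt.fun_sum fun k _ => (hJ.dY r i k).mul_const (u k)
  have hn : ∀ r, HasDerivAt (fun r => nsq (Y r *ᵥ u)) (2 * ((Y r *ᵥ u) ⬝ᵥ (H r *ᵥ u))) r := by
    intro r
    have h := (((hy r 0).pow 2).add ((hy r 1).pow 2)).add ((hy r 2).pow 2)
    have hO : ∀ i j, Om r j i = -Om r i j := fun i j => by
      have := congrFun (congrFun (hJ.Oa r) i) j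
      simpa using this
    have h00 : Om r 0 0 = 0 := by have := hO 0 0; linarith
    have h11 : Om r 1 1 = 0 := by have := hO 1 1; linarith
    have h22 : Om r 2 2 = 0 := by have := hO 2 2; linarith
    have h10 := hO 0 1
    have h20 := hO 0 2
    have h21 := hO 1 2
    refine h.congr_deriv ?_
    rw [Matrix.sub_mulVec, ← Matrix.mulVec_mulVec]
    generalize Y r *ᵥ u = y
    generalize H r *ᵥ u = z
    simp only [Pi.sub_apply, Matrix.mulVec, dotProduct, Fin.sum_univ_three, h00, h11, h22, h10,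
      h20, h21]
    push_cast
    ring
  have hb : ∀ r, 0 ≤ r → 9 / 5 * nsq (Y r *ᵥ u) ≤ 2 * ((Y r *ᵥ u) ⬝ᵥ (H r *ᵥ u)) ∧
      2 * ((Y r *ᵥ u) ⬝ᵥ (H r *ᵥ u)) ≤ 21 / 5 * nsq (Y r *ᵥ u) := by
    intro r hr
    have h := hC.cone r hr u
    rw [Matrix.sub_mulVec, ← Matrix.mulVec_mulVec] at h
    revert h
    generalize Y r *ᵥ u = y
    generalize H r *ᵥ u = z
    intro h
    simp [nsq, U0, Matrix.mulVec_diagonal] at h
    simp only [nsq, dotProduct, Fin.sum_univ_three]
    constructor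
    · nlinarith [sq_nonneg (y 0 / 10 + (z 0 - 2 * y 0)), sq_nonneg (y 1 / 10 + (z 1 - y 1)),
        sq_nonneg (y 2 / 10 + (z 2 - y 2)), sq_nonneg (y 0)]
    · nlinarith [sq_nonneg (y 0 / 10 - (z 0 - 2 * y 0)), sq_nonneg (y 1 / 10 - (z 1 - y 1)),
        sq_nonneg (y 2 / 10 - (z 2 - y 2)), sq_nonneg (y 1), sq_nonneg (y 2)]
  have hg : ∀ (c r : ℝ), HasDerivAt (fun r => Real.exp (-c * r) * nsq (Y r *ᵥ u))
      (Real.exp (-c * r) * (2 * ((Y r *ᵥ u) ⬝ᵥ (H r *ᵥ u)) - c * nsq (Y r *ᵥ u))) r := by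
    intro c r
    have h1 : HasDerivAt (fun r => Real.exp (-c * r)) (Real.exp (-c * r) * (-c)) r := by
      simpa using ((hasDerivAt_id r).const_mul (-c)).exp
    refine (h1.mul (hn r)).congr_deriv ?_
    ring
  have ht : 0 ≤ t := hs.trans hst
  constructor
  · have hm : MonotoneOn (fun r => Real.exp (-(9 / 5) * r) * nsq (Y r *ᵥ u)) (Ici 0) := by
      refine monotoneOn_of_deriv_nonneg (convex_Ici 0)
        (fun r _ => (hg _ r).continuousAt.continuousWithinAt)
        (fun r _ => (hg _ r).differentiableAt.differentiableWithinAt) fun r hr => ?_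
      rw [(hg _ r).deriv]
      have := (hb r (interior_subset hr)).1
      exact mul_nonneg (Real.exp_pos _).le (by linarith)
    have h := hm hs ht hst
    have e : Real.exp (9 / 5 * (t - s)) = Real.exp (9 / 5 * t) * Real.exp (-(9 / 5) * s) := by
      rw [← Real.exp_add]; ring_nf
    have e2 : Real.exp (9 / 5 * t) * Real.exp (-(9 / 5) * t) = 1 := by
      rw [← Real.exp_add]; simp
    calc Real.exp (9 / 5 * (t - s)) * nsq (Y s *ᵥ u)
        = Real.exp (9 / 5 * t) * (Real.exp (-(9 / 5) * s) * nsq (Y s *ᵥ u)) := by rw [e]; ring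
      _ ≤ Real.exp (9 / 5 * t) * (Real.exp (-(9 / 5) * t) * nsq (Y t *ᵥ u)) :=
        mul_le_mul_of_nonneg_left h (Real.exp_pos _).le
      _ = _ := by rw [← mul_assoc, e2, one_mul]
  · have hm : AntitoneOn (fun r => Real.exp (-(21 / 5) * r) * nsq (Y r *ᵥ u)) (Ici 0) := by
      refine antitoneOn_of_deriv_nonpos (convex_Ici 0)
        (fun r _ => (hg _ r).continuousAt.continuousWithinAt)
        (fun r _ => (hg _ r).differentiableAt.differentiableWithinAt) fun r hr => ?_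
      rw [(hg _ r).deriv]
      have := (hb r (interior_subset hr)).2
      exact mul_nonpos_of_nonneg_of_nonpos (Real.exp_pos _).le (by linarith)
    have h := hm hs ht hst
    have e : Real.exp (21 / 5 * (t - s)) = Real.exp (21 / 5 * t) * Real.exp (-(21 / 5) * s) := by
      rw [← Real.exp_add]; ring_nf
    have e2 : Real.exp (21 / 5 * t) * Real.exp (-(21 / 5) * t) = 1 := by
      rw [← Real.exp_add]; simp
    calc nsq (Y t *ᵥ u)
        = Real.exp (21 / 5 * t) * (Real.exp (-(21 / 5) * t) * nsq (Y t *ᵥ u)) := by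
          rw [← mul_assoc, e2, one_mul]
      _ ≤ Real.exp (21 / 5 * t) * (Real.exp (-(21 / 5) * s) * nsq (Y s *ᵥ u)) :=
        mul_le_mul_of_nonneg_left h (Real.exp_pos _).le
      _ = _ := by rw [e]; ring

end Pool.Agent.MP_019006_gt
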