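import Pool.Agent.MP_019006_gt.Basic2
import Pool.Agent.MP_019006_gt.Invar
import Pool.Agent.MP_019006_gt.FlowGeo
import Pool.Agent.MP_019006_gt.Fibre
import Pool.Agent.MP_019006_gt.OdeMul1

set_option autoImplicit false

open MeasureTheory Filter Topology Set Matrix

namespace Pool.Agent.MP_019006_gt

namespace Dstr

theorem fro_eq (A : M3) : fro A =
    ‖(WithLp.toLp 2 fun q : Fin 3 × Fin 3 => A q.1 q.2 : EuclideanSpace ℝ (Fin 3 × Fin 3))‖ := by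
  rw [EuclideanSpace.norm_eq, fro, Fintype.sum_prod_type]
  simp only [Real.norm_eq_abs, sq_abs]

theorem fro_add_le (A B : M3) : fro (A + B) ≤ fro A + fro B := by
  rw [fro_eq, fro_eq, fro_eq]
  exact norm_add_le (WithLp.toLp 2 fun q : Fin 3 × Fin 3 => A q.1 q.2 :
    EuclideanSpace ℝ (Fin 3 × Fin 3)) (WithLp.toLp 2 fun q : Fin 3 × Fin 3 => B q.1 q.2)

theorem fro_sub_le (A B : M3) : fro (A - B) ≤ fro A + fro B := by
  rw [fro_eq, fro_eq, fro_eq]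
  exact norm_sub_le (WithLp.toLp 2 fun q : Fin 3 × Fin 3 => A q.1 q.2 :
    EuclideanSpace ℝ (Fin 3 × Fin 3)) (WithLp.toLp 2 fun q : Fin 3 × Fin 3 => B q.1 q.2)

theorem fro_transpose (A : M3) : fro Aᵀ = fro A := by
  unfold fro
  rw [Finset.sum_comm]
  rfl

theorem fro_le_of {A : M3} {c : ℝ} (h : ∀ i j, |A i j| ≤ c) : fro A ≤ 3 * c := by
  have hc : 0 ≤ c := (abs_nonneg _).trans (h 0 0)
  refine (sq_le_sq₀ (OdeMul.fro_nonneg _) (by positivity)).1 ?_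
  rw [OdeMul.fro_sq]
  have h1 : ∀ i j, A i j ^ 2 ≤ c ^ 2 := fun i j => by
    rw [← sq_abs]
    exact pow_le_pow_left₀ (abs_nonneg _) (h i j) 2
  simp only [Fin.sum_univ_three]
  linarith [h1 0 0, h1 0 1, h1 0 2, h1 1 0, h1 1 1, h1 1 2, h1 2 0, h1 2 1, h1 2 2]

theorem fro_conj {R R' : M3} (hR : Rᵀ * R = 1) (hR' : R'ᵀ * R' = 1) (U U' : M3) :
    fro (Rᵀ * U * R - R'ᵀ * U' * R') ≤ fro (U - U') + 2 * fro U' * fro (R - R') := by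
  have h1 : Rᵀᵀ * Rᵀ = 1 := by
    rw [Matrix.transpose_transpose]
    exact mul_eq_one_comm.1 hR
  have h1' : R'ᵀᵀ * R'ᵀ = 1 := by
    rw [Matrix.transpose_transpose]
    exact mul_eq_one_comm.1 hR'
  have h0 : (1 : M3)ᵀ * 1 = 1 := by simp
  have e : Rᵀ * U * R - R'ᵀ * U' * R' = Rᵀ * (U - U') * R +
      (1 * ((R - R')ᵀ * U') * R + R'ᵀ * (U' * (R - R')) * 1) := by
    simp only [Matrix.transpose_sub, Matrix.mul_sub, Matrix.sub_mul, Matrix.one_mul,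
      Matrix.mul_one, Matrix.mul_assoc]
    abel
  rw [e]
  refine (fro_add_le _ _).trans ?_
  rw [fro_rot _ _ _ h1 hR]
  refine add_le_add le_rfl ((fro_add_le _ _).trans ?_)
  rw [fro_rot _ _ _ h0 hR, fro_rot _ _ _ h1' h0]
  have a1 := OdeMul.fro_mul_le (R - R')ᵀ U'
  have a2 := OdeMul.fro_mul_le U' (R - R')
  rw [fro_transpose] at a1
  linarith

theorem log_det_rot {R S : M3} (hR : Rᵀ * R = 1) (hS : Sᵀ * S = 1) (Y : M3) :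
    Real.log (Rᵀ * Y * S).det = Real.log Y.det := by
  have k : ∀ T : M3, Tᵀ * T = 1 → |T.det| = 1 := fun T hT => by
    have h := congrArg Matrix.det hT
    rw [Matrix.det_mul, Matrix.det_transpose, Matrix.det_one] at h
    rcases mul_self_eq_one_iff.1 h with h | h <;> rw [h] <;> simp
  rw [← Real.log_abs, Matrix.det_mul, Matrix.det_mul, Matrix.det_transpose, abs_mul, abs_mul,
    k R hR, k S hS, one_mul, mul_one, Real.log_abs]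

theorem ric_rot {R S : M3} (hR : Rᵀ * R = 1) (hS : Sᵀ * S = 1) (Y H : M3) :
    Rᵀ * H * S * (Rᵀ * Y * S)⁻¹ = Rᵀ * (H * Y⁻¹) * R := by
  have h1 : S⁻¹ = Sᵀ := Matrix.inv_eq_left_inv hS
  have h2 : (Rᵀ)⁻¹ = R := Matrix.inv_eq_right_inv hR
  have h3 : S * Sᵀ = 1 := mul_eq_one_comm.1 hS
  rw [Matrix.mul_inv_rev, Matrix.mul_inv_rev, h1, h2]
  calc Rᵀ * H * S * (Sᵀ * (Y⁻¹ * R)) = Rᵀ * H * (S * Sᵀ) * (Y⁻¹ * R) := by
        simp only [Matrix.mul_assoc]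
    _ = _ := by rw [h3]; simp only [Matrix.mul_assoc, Matrix.one_mul]

theorem pot (P : ℝ → ℝ) (T P0 : ℝ) (hb : ∀ s, 1 ≤ s → s ≤ 2 → P s ≤ P0)
    (hs : ∀ s, 1 ≤ s → s + 1 ≤ T → P (s + 1) ≤ P s) (s : ℝ) (h1 : 1 ≤ s) (hT : s ≤ T) :
    P s ≤ P0 := by
  have k : ∀ n : ℕ, ∀ s, 1 ≤ s → s ≤ T → s ≤ n + 2 → P s ≤ P0 := by
    intro n
    induction n with
    | zero => exact fun s h1 _ h2 => hb s h1 (by simpa using h2)
    | succ n ih =>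
      intro s h1 hT h2
      rcases le_total s 2 with h3 | h3
      · exact hb s h1 h3
      · have h4 := hs (s - 1) (by linarith) (by linarith)
        rw [sub_add_cancel] at h4
        push_cast at h2
        exact h4.trans (ih (s - 1) (by linarith) (by linarith) (by linarith))
  obtain ⟨n, hn⟩ := exists_nat_ge s
  exact k n s h1 hT (by linarith)

/-- Two unit vectors joined by a curve of unit vectors of Sasaki speed at most `σ`. -/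
def Near (f : EE → ℝ) (σ : ℝ) (p q : EE × EE) : Prop :=
  ∃ Q Q' : ℝ → EE × EE, Q 0 = p ∧ Q 1 = q ∧ ∀ θ ∈ Icc (0 : ℝ) 1, (Q θ).1 ∈ Bl ∧
    en f (Q θ) = 1 ∧ HasDerivAt Q (Q' θ) θ ∧ sasaki (gg f) (Gam f) (Q θ) (Q' θ) ≤ σ

theorem Near.mono {f : EE → ℝ} {σ σ' : ℝ} {p q : EE × EE} (h : Near f σ p q) (hσ : σ ≤ σ') :
    Near f σ' p q := by
  obtain ⟨Q, Q', h0, h1, h⟩ := h
  exact ⟨Q, Q', h0, h1, fun θ hθ =>
    ⟨(h θ hθ).1, (h θ hθ).2.1, (h θ hθ).2.2.1, (h θ hθ).2.2.2.trans hσ⟩⟩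

theorem conn_mobT {A : C3} (hA : IsU21 A) {f : EE → ℝ} (hf : ∀ n : ℕ, ContDiffOn ℝ n f Bl)
    (hfA : ∀ x ∈ Bl, f (mob A x) = f x) {p : EE × EE} (hp : p.1 ∈ Bl) (ξ : EE × EE) :
    (fderiv ℝ (mobT A) p ξ).1 = dmob A p.1 ξ.1 ∧
    (fderiv ℝ (mobT A) p ξ).2 + Gam f (mobT A p).1 (mobT A p).2 (fderiv ℝ (mobT A) p ξ).1 =
      dmob A p.1 (ξ.2 + Gam f p.1 p.2 ξ.1) := by
  rw [fderiv_mobT hA hp, Inv.mobT_of_mem A hp]
  refine ⟨rfl, ?_⟩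
  simp only
  rw [dmob_add, Gam_symm f p.1 p.2, ← Gam_mob hA hf hfA hp, Gam_symm f (mob A p.1) (dmob A p.1 p.2)]
  abel

theorem Near.mobT {A : C3} (hA : IsU21 A) {f : EE → ℝ} (hf : ∀ n : ℕ, ContDiffOn ℝ n f Bl)
    (hfA : ∀ x ∈ Bl, f (mob A x) = f x) {σ : ℝ} {p q : EE × EE} (h : Near f σ p q) :
    Near f σ (mobT A p) (mobT A q) := by
  obtain ⟨Q, Q', h0, h1, h⟩ := h
  refine ⟨fun θ => Pool.Agent.MP_019006_gt.mobT A (Q θ),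
    fun θ => fderiv ℝ (Pool.Agent.MP_019006_gt.mobT A) (Q θ) (Q' θ), by simp only [h0],
    by simp only [h1], fun θ hθ => ?_⟩
  obtain ⟨a1, a2, a3, a4⟩ := h θ hθ
  refine ⟨Inv.mobT_mem hA a1, by rw [en_mobT hA hfA, a2],
    (Inv.hasFDerivAt_mobT hA a1).comp_hasDerivAt θ a3, le_of_eq_of_le ?_ a4⟩
  obtain ⟨c1, c2⟩ := conn_mobT hA hf hfA a1 (Q' θ)
  unfold sasaki
  simp only
  rw [c2, c1]
  have e : (Pool.Agent.MP_019006_gt.mobT A (Q θ)).1 = mob A (Q θ).1 := by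
    rw [Inv.mobT_of_mem A a1]
  rw [e, Inv.gg_mob hA hfA a1, Inv.gg_mob hA hfA a1]

theorem sas_bound {f : EE → ℝ} (hf : Conf f) {p ξ : EE × EE} (hp : p.1 ∈ Bl) {σ : ℝ}
    (h : sasaki (gg f) (Gam f) p ξ ≤ σ) : g0 p.1 ξ.1 ξ.1 ≤ 2 * σ ^ 2 ∧ ‖ξ.1‖ ≤ 2 * σ ∧
      ‖ξ.2 + Gam f p.1 p.2 ξ.1‖ ≤ 2 * σ := by
  have hσ : 0 ≤ σ := (Real.sqrt_nonneg _).trans h
  have a1 := FG.le_en hf (p := (p.1, ξ.1)) hp
  have a2 := FG.le_en hf (p := (p.1, ξ.2 + Gam f p.1 p.2 ξ.1)) hp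
  have b1 := FG.en_nonneg f (p := (p.1, ξ.1)) hp
  have b2 := FG.en_nonneg f (p := (p.1, ξ.2 + Gam f p.1 p.2 ξ.1)) hp
  have c1 := (g0_bounds hp ξ.1).1
  have c2 := (g0_bounds hp (ξ.2 + Gam f p.1 p.2 ξ.1)).1
  have d : en f (p.1, ξ.1) + en f (p.1, ξ.2 + Gam f p.1 p.2 ξ.1) ≤ σ ^ 2 :=
    (Real.sqrt_le_left hσ).1 h
  simp only at a1 a2
  have s := sq_nonneg σ
  refine ⟨by linarith, (sq_le_sq₀ (norm_nonneg _) (by positivity)).1 (by linarith),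
    (sq_le_sq₀ (norm_nonneg _) (by positivity)).1 (by linarith)⟩

theorem near_lip {f : EE → ℝ} (hf : Conf f) {δ : ℝ} (hδ : 0 < δ) (σ₀ : ℝ) {Φ : EE × EE → ℝ}
    (hΦ : ContDiffOn ℝ 1 Φ OO) : ∃ C : ℝ, ∀ (σ : ℝ) (p q : EE × EE), σ ≤ σ₀ → Near f σ p q →
      δ ≤ Dd p.1 → |Φ p - Φ q| ≤ C * σ := by
  have hδ' : 0 < δ * Real.exp (-3 * σ₀) := by positivity
  have hK := (liou_compact hf _ hδ').2.1
  have hKO : shell f ∩ {p | δ * Real.exp (-3 * σ₀) ≤ Dd p.1} ⊆ OO := fun p hp => mem_OO.2 hp.1.1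
  have hm : MapsTo (Prod.fst : EE × EE → EE) OO Bl := fun p hp => mem_OO.mp hp
  obtain ⟨B1, hB1⟩ := hK.exists_bound_of_continuousOn
    ((hΦ.continuousOn_fderiv_of_isOpen isOpen_OO le_rfl).mono hKO)
  obtain ⟨B2, hB2⟩ := hK.exists_bound_of_continuousOn
    ((((contDiffOn_GamL hf.smooth 0).continuousOn.comp continuousOn_fst hm).clm_apply
      continuousOn_snd).mono hKO)
  refine ⟨B1 * (2 + 2 * B2), ?_⟩
  rintro σ p q hσ ⟨Q, Q', rfl, rfl, h⟩ hp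
  have hσ0 : 0 ≤ σ := (Real.sqrt_nonneg _).trans (h 0 ⟨le_rfl, zero_le_one⟩).2.2.2
  have hu : ∀ θ ∈ Icc (0 : ℝ) 1, HasDerivWithinAt (fun s => Real.log (Dd (Q s).1))
      (-2 * (al (Q θ).1 (Q' θ).1).re) (Icc 0 1) θ := fun θ hθ => by
    obtain ⟨a1, -, a3, -⟩ := h θ hθ
    have d0 : HasDerivAt (fun s => (Q s).1) (Q' θ).1 θ := a3.fst
    have d2 := HasFDerivAt.comp_hasDerivAt (l := Dd) θ (FG.hasFDerivAt_Dd (Q θ).1) d0
    have d1 := HasDerivAt.log (f := fun s => Dd (Q s).1) d2 (Dd_pos a1).ne'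
    refine (d1.congr_deriv ?_).hasDerivWithinAt
    rw [FG.al_re]
    simp only [_root_.smul_apply, innerSL_apply_apply, smul_eq_mul]
    ring
  have hu' := norm_image_sub_le_of_norm_deriv_le_segment' (C := 3 * σ) hu fun θ hθ => by
    obtain ⟨a1, -, -, a4⟩ := h θ (Ico_subset_Icc_self hθ)
    have b1 := (sas_bound hf a1 a4).1
    have b2 := FG.re_al_sq_le a1 (Q' θ).1
    refine (sq_le_sq₀ (norm_nonneg _) (by positivity)).1 ?_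
    rw [Real.norm_eq_abs, sq_abs]
    nlinarith [sq_nonneg σ]
  have hin : ∀ θ ∈ Icc (0 : ℝ) 1, Q θ ∈ shell f ∩ {p | δ * Real.exp (-3 * σ₀) ≤ Dd p.1} := by
    intro θ hθ
    obtain ⟨a1, a2, -, -⟩ := h θ hθ
    refine ⟨⟨a1, a2.ge, by rw [a2]; norm_num⟩, ?_⟩
    have b1 := (abs_le.1 (hu' θ hθ)).1
    have b2 := Real.log_le_log hδ hp
    have b3 : 3 * σ * (θ - 0) ≤ 3 * σ₀ := by nlinarith [hθ.1, hθ.2]
    show δ * Real.exp (-3 * σ₀) ≤ Dd (Q θ).1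
    rw [← Real.exp_log (Dd_pos a1), ← Real.exp_log hδ, ← Real.exp_add]
    exact Real.exp_le_exp.2 (by linarith)
  have hv : ∀ θ ∈ Icc (0 : ℝ) 1, HasDerivWithinAt (fun s => Φ (Q s))
      (fderiv ℝ Φ (Q θ) (Q' θ)) (Icc 0 1) θ := fun θ hθ => by
    obtain ⟨a1, -, a3, -⟩ := h θ hθ
    exact (((hΦ.contDiffAt (isOpen_OO.mem_nhds (mem_OO.2 a1))).differentiableAt
      one_ne_zero).hasFDerivAt.comp_hasDerivAt θ a3).hasDerivWithinAt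
  have hv' := norm_image_sub_le_of_norm_deriv_le_segment' (C := B1 * (2 + 2 * B2) * σ) hv
    (fun θ hθ => by
      have hθ' := Ico_subset_Icc_self hθ
      obtain ⟨a1, -, -, a4⟩ := h θ hθ'
      obtain ⟨-, b1, b2⟩ := sas_bound hf a1 a4
      have c1 := hB1 _ (hin θ hθ')
      have c2 : ‖GamL f (Q θ).1 (Q θ).2‖ ≤ B2 := hB2 _ (hin θ hθ')
      have c0 : 0 ≤ B2 := (norm_nonneg _).trans c2
      have c3 : ‖Gam f (Q θ).1 (Q θ).2 (Q' θ).1‖ ≤ B2 * (2 * σ) :=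
        ((GamL f (Q θ).1 (Q θ).2).le_opNorm (Q' θ).1).trans
          (mul_le_mul c2 b1 (norm_nonneg _) c0)
      have c4 : ‖(Q' θ).2‖ ≤ 2 * σ + B2 * (2 * σ) := by
        have := norm_sub_le ((Q' θ).2 + Gam f (Q θ).1 (Q θ).2 (Q' θ).1)
          (Gam f (Q θ).1 (Q θ).2 (Q' θ).1)
        rw [add_sub_cancel_right] at this
        linarith
      have c5 : ‖Q' θ‖ ≤ (2 + 2 * B2) * σ := by
        rw [Prod.norm_def]
        exact max_le (by nlinarith) (by linarith)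
      rw [mul_assoc]
      exact ((fderiv ℝ Φ (Q θ)).le_opNorm _).trans
        (mul_le_mul c1 c5 (norm_nonneg _) ((norm_nonneg _).trans c1))) 1 ⟨zero_le_one, le_rfl⟩
  rw [abs_sub_comm]
  simpa using hv'

theorem near_lip_fin {f : EE → ℝ} (hf : Conf f) {δ : ℝ} (hδ : 0 < δ) (σ₀ : ℝ) {ι : Type}
    {S : Set ι} (hS : S.Finite) {Φ : ι → EE × EE → ℝ} (hΦ : ∀ i, ContDiffOn ℝ 1 (Φ i) OO) :
    ∃ C : ℝ, 0 ≤ C ∧ ∀ i ∈ S, ∀ (σ : ℝ) (p q : EE × EE), σ ≤ σ₀ → Near f σ p q →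
      δ ≤ Dd p.1 → |Φ i p - Φ i q| ≤ C * σ := by
  choose C hC using fun i => near_lip hf hδ σ₀ (hΦ i)
  obtain ⟨B, hB⟩ := (hS.image C).bddAbove
  refine ⟨max B 0, le_max_right _ _, fun i hi σ p q hσ hn hp => (hC i σ p q hσ hn hp).trans ?_⟩
  obtain ⟨Q, Q', -, -, h⟩ := hn
  have hσ0 : 0 ≤ σ := (Real.sqrt_nonneg _).trans (h 0 ⟨le_rfl, zero_le_one⟩).2.2.2
  exact mul_le_mul_of_nonneg_right ((hB (mem_image_of_mem C hi)).trans (le_max_left _ _)) hσ0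

end Dstr

end Pool.Agent.MP_019006_gt
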