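import Pool.Agent.MP_019006_gt.Distort1
import Pool.Agent.MP_019006_gt.MobLattice
import Pool.Agent.MP_019006_gt.OdeDir
import Pool.Agent.MP_019006_gt.ExpMap

set_option autoImplicit false

open MeasureTheory Filter Topology Set Matrix

namespace Pool.Agent.MP_019006_gt

namespace Dstr

theorem c1_fderiv {X E F : Type} [NormedAddCommGroup X] [NormedSpace ℝ X] [NormedAddCommGroup E]
    [NormedSpace ℝ E] [NormedAddCommGroup F] [NormedSpace ℝ F] {g : E → F} {s : Set E}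
    (hs : IsOpen s) (hg : ContDiffOn ℝ (2 : ℕ) g s) {a b : X → E} {t : Set X}
    (ha : ContDiffOn ℝ 1 a t) (hb : ContDiffOn ℝ 1 b t) (hm : MapsTo a t s) :
    ContDiffOn ℝ 1 (fun p => fderiv ℝ g (a p) (b p)) t :=
  ((hg.fderiv_of_isOpen (m := 1) hs (by norm_num)).comp ha hm).clm_apply hb

theorem c1_Kmat {f : EE → ℝ} (hf : ∀ n : ℕ, ContDiffOn ℝ n f Bl) (i j : Fin 3) :
    ContDiffOn ℝ 1 (fun p => Kmat f p i j) OO := by
  have hm : MapsTo (Prod.fst : EE × EE → EE) OO Bl := fun p hp => mem_OO.mp hp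
  have cg : ContDiffOn ℝ 1 (fun p : EE × EE => gg f p.1) OO :=
    (contDiffOn_gg hf 1).comp contDiffOn_fst hm
  have cG : ContDiffOn ℝ 1 (fun p : EE × EE => GamL f p.1) OO :=
    (contDiffOn_GamL hf 1).comp contDiffOn_fst hm
  have cF : ∀ k, ContDiffOn ℝ 1 (fun p : EE × EE => frame p k) OO := fun k =>
    contDiffOn_frame k 1
  have c2 : ContDiffOn ℝ 1 (fun p : EE × EE => p.2) OO := contDiffOn_snd
  have a1 := ((c1_fderiv isOpen_Bl (contDiffOn_GamL hf 2) contDiffOn_fst (cF j) hm).clm_apply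
    c2).clm_apply c2
  have a2 := ((c1_fderiv isOpen_Bl (contDiffOn_GamL hf 2) contDiffOn_fst c2 hm).clm_apply
    (cF j)).clm_apply c2
  have a3 := (cG.clm_apply (cF j)).clm_apply ((cG.clm_apply c2).clm_apply c2)
  have a4 := (cG.clm_apply c2).clm_apply ((cG.clm_apply (cF j)).clm_apply c2)
  have a5 := ((cg.clm_apply (((a1.sub a2).add a3).sub a4)).clm_apply (cF i)).neg
  refine a5.congr fun p hp => ?_
  show -gg f p.1 (curv (Gam f) p.1 (frame p j) p.2 p.2) (frame p i) = _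
  rw [Curv.curv_eq hf (mem_OO.mp hp)]

theorem c1_Omat {f : EE → ℝ} (hf : ∀ n : ℕ, ContDiffOn ℝ n f Bl) (i j : Fin 3) :
    ContDiffOn ℝ 1 (fun p => Omat f p i j) OO := by
  have hm : MapsTo (Prod.fst : EE × EE → EE) OO Bl := fun p hp => mem_OO.mp hp
  have cg : ContDiffOn ℝ 1 (fun p : EE × EE => gg f p.1) OO :=
    (contDiffOn_gg hf 1).comp contDiffOn_fst hm
  have cG : ContDiffOn ℝ 1 (fun p : EE × EE => GamL f p.1) OO :=
    (contDiffOn_GamL hf 1).comp contDiffOn_fst hm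
  have cF : ∀ k, ContDiffOn ℝ 1 (fun p : EE × EE => frame p k) OO := fun k =>
    contDiffOn_frame k 1
  have cD : ContDiffOn ℝ 1 (fun p : EE × EE => fderiv ℝ (fun q => frame q j) p) OO :=
    (contDiffOn_frame j 2).fderiv_of_isOpen (m := 1) isOpen_OO (by norm_num)
  have cX : ContDiffOn ℝ 1 (XX f) OO := contDiffOn_XX hf 1
  have c2 : ContDiffOn ℝ 1 (fun p : EE × EE => p.2) OO := contDiffOn_snd
  exact (cg.clm_apply ((cD.clm_apply cX).add ((cG.clm_apply c2).clm_apply (cF j)))).clm_apply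
    (cF i)

theorem c1_rot {A : C3} (hA : IsU21 A) {f : EE → ℝ} (hf : ∀ n : ℕ, ContDiffOn ℝ n f Bl)
    (i j : Fin 3) : ContDiffOn ℝ 1 (fun p => Inv.rot A f p i j) OO := by
  have cT : ContDiffOn ℝ 1 (mobT A) OO := contDiffOn_mobT hA 1
  have hm : MapsTo (mobT A) OO OO := fun p hp => mem_OO.2 (Inv.mobT_mem hA (mem_OO.1 hp))
  have cg : ContDiffOn ℝ 1 (fun p : EE × EE => gg f (mobT A p).1) OO :=
    (contDiffOn_gg hf 1).comp cT.fst fun p hp => mem_OO.1 (hm hp)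
  have cF : ContDiffOn ℝ 1 (fun p : EE × EE => frame (mobT A p) j) OO :=
    (contDiffOn_frame j 1).comp cT hm
  have cE : ContDiffOn ℝ 1 (fun p : EE × EE => (mobT A (p.1, frame p i)).2) OO :=
    (cT.comp (contDiffOn_fst.prodMk (contDiffOn_frame i 1)) fun p hp =>
      mem_OO.2 (mem_OO.1 hp :)).snd
  refine ((cg.clm_apply cF).clm_apply cE).congr fun p hp => ?_
  have hp' : p.1 ∈ Bl := mem_OO.1 hp
  have e1 : (mobT A p).1 = mob A p.1 := by rw [Inv.mobT_of_mem A hp']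
  have e2 : (mobT A (p.1, frame p i)).2 = dmob A p.1 (frame p i) := by
    rw [Inv.mobT_of_mem A (p := (p.1, frame p i)) hp']
  rw [e1, e2]
  rfl

theorem YH_mobT {A : C3} (hA : IsU21 A) {f : EE → ℝ} {φ : Flo} {M : DFlo} (h : Ctx f φ M)
    (hfA : ∀ x ∈ Bl, f (mob A x) = f x) {p : EE × EE} (hp : p.1 ∈ Bl) (h1 : en f p = 1) (t : ℝ) :
    YD f φ M (mobT A p) t = (Inv.rot A f (φ t p))ᵀ * YD f φ M p t * Inv.rot A f p ∧
    HD f φ M (mobT A p) t = (Inv.rot A f (φ t p))ᵀ * HD f φ M p t * Inv.rot A f p := by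
  have hf := h.conf.smooth
  have hφ := h.flow
  have hq : (φ t p).1 ∈ Bl := mem_OO.1 (hφ.mem t p (mem_OO.2 hp))
  have hq1 : en f (φ t p) = 1 := by rw [en_flow hf hφ, h1]
  have e1 : (mobT A (φ t p)).1 = mob A (φ t p).1 := by rw [Inv.mobT_of_mem A hq]
  have e0 : ∀ j, ((0 : EE), frame (mobT A p) j) = fderiv ℝ (mobT A) p
      (Inv.rot A f p 0 j • ((0 : EE), frame p 0) + Inv.rot A f p 1 j • ((0 : EE), frame p 1) +
        Inv.rot A f p 2 j • ((0 : EE), frame p 2)) := fun j => by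
    rw [fderiv_mobT hA hp, Inv.frame_mobT hA hfA hp h1 j]
    have z : dmob A p.1 0 = 0 := (Mob.dC A p.1).map_zero
    simp [z]
  constructor
  · ext i j
    simp only [Matrix.mul_apply, Matrix.transpose_apply, Fin.sum_univ_three, YD]
    rw [e0, Inv.M_mobT hA hf hfA hφ hp, flow_mobT hA hf hfA hφ, (conn_mobT hA hf hfA hq _).1,
      Inv.frame_mobT hA hfA hq hq1 i, e1, Inv.gg_mob hA hfA hq]
    simp only [map_add, map_smul, Prod.fst_add, Prod.smul_fst, _root_.add_apply,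
      _root_.smul_apply, smul_eq_mul]
    ring
  · ext i j
    simp only [Matrix.mul_apply, Matrix.transpose_apply, Fin.sum_univ_three, HD]
    rw [e0, Inv.M_mobT hA hf hfA hφ hp, flow_mobT hA hf hfA hφ, (conn_mobT hA hf hfA hq _).2,
      Inv.frame_mobT hA hfA hq hq1 i, e1, Inv.gg_mob hA hfA hq]
    simp only [map_add, map_smul, Prod.fst_add, Prod.smul_fst, Prod.snd_add, Prod.smul_snd,
      Gam_add_right, Gam_smul_right, _root_.add_apply,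
      _root_.smul_apply, smul_eq_mul]
    ring

/-- The Riccati matrix. -/
noncomputable def UD (f : EE → ℝ) (φ : Flo) (M : DFlo) (p : EE × EE) (t : ℝ) : M3 :=
  HD f φ M p t * (YD f φ M p t)⁻¹

/-- The logarithm of the area element. -/
noncomputable def LD (f : EE → ℝ) (φ : Flo) (M : DFlo) (p : EE × EE) (t : ℝ) : ℝ :=
  Real.log (YD f φ M p t).det

theorem UL_mobT {A : C3} (hA : IsU21 A) {f : EE → ℝ} {φ : Flo} {M : DFlo} (h : Ctx f φ M)
    (hfA : ∀ x ∈ Bl, f (mob A x) = f x) {p : EE × EE} (hp : p.1 ∈ Bl) (h1 : en f p = 1) (t : ℝ) :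
    (Inv.rot A f (φ t p))ᵀ * Inv.rot A f (φ t p) = 1 ∧
    UD f φ M (mobT A p) t = (Inv.rot A f (φ t p))ᵀ * UD f φ M p t * Inv.rot A f (φ t p) ∧
    LD f φ M (mobT A p) t = LD f φ M p t := by
  have hq : (φ t p).1 ∈ Bl := mem_OO.1 (h.flow.mem t p (mem_OO.2 hp))
  have hq1 : en f (φ t p) = 1 := by rw [en_flow h.conf.smooth h.flow, h1]
  have r1 := Inv.rot_orth hA hfA hq hq1
  have r2 := Inv.rot_orth hA hfA hp h1
  obtain ⟨e1, e2⟩ := YH_mobT hA h hfA hp h1 t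
  unfold UD LD
  rw [e1, e2]
  exact ⟨r1, ric_rot r1 r2 _ _, log_det_rot r1 r2 _⟩

theorem step {f : EE → ℝ} {φ : Flo} {M : DFlo} (h : Ctx f φ M)
    {Λ : ℝ} {G : Type} [Group G] {ρ : G →* C3} (hρ : IsLattice Λ G ρ)
    (hf : ∀ a, ∀ x ∈ Bl, f (mob (ρ a) x) = f x) {δ : ℝ} (hδ : 0 < δ) (σ₀ : ℝ) :
    ∃ C : ℝ, 0 ≤ C ∧ ∀ (p q : EE × EE) (a b : G) (s σ : ℝ), p.1 ∈ Bl → en f p = 1 → q.1 ∈ Bl →
      en f q = 1 → 1 ≤ s → 0 ≤ σ → σ ≤ σ₀ → (∀ t ∈ Icc s (s + 1), Near f σ (φ t p) (φ t q)) →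
      δ ≤ Dd (mob (ρ a) (φ s p).1) → δ ≤ Dd (mob (ρ b) (φ (s + 1) p).1) →
      fro (UD f φ M (mobT (ρ b) p) (s + 1) - UD f φ M (mobT (ρ b) q) (s + 1)) ≤
        1 / 2 * fro (UD f φ M (mobT (ρ a) p) s - UD f φ M (mobT (ρ a) q) s) + C * σ ∧
      |LD f φ M p (s + 1) - LD f φ M p s - (LD f φ M q (s + 1) - LD f φ M q s)| ≤
        C * (fro (UD f φ M (mobT (ρ a) p) s - UD f φ M (mobT (ρ a) q) s) + σ) := by
  have hs := h.conf.smooth
  have hU : ∀ a, IsU21 (ρ a) := hρ.unit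
  have hδ' : 0 < Real.exp (-3) * δ := by positivity
  have hδδ : Real.exp (-3) * δ ≤ δ :=
    mul_le_of_le_one_left hδ.le (Real.exp_le_one_iff.2 (by norm_num))
  obtain ⟨Cb, hCb1, hCb⟩ := dir_basic
  obtain ⟨Cc, hCc0, hCc⟩ := dir_compare
  obtain ⟨CK, hCK0, hCK⟩ := near_lip_fin h.conf hδ' σ₀ (S := univ) finite_univ
    (Φ := fun (i : Fin 3 × Fin 3) p => Kmat f p i.1 i.2) fun i => c1_Kmat hs i.1 i.2
  obtain ⟨CO, hCO0, hCO⟩ := near_lip_fin h.conf hδ' σ₀ (S := univ) finite_univ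
    (Φ := fun (i : Fin 3 × Fin 3) p => Omat f p i.1 i.2) fun i => c1_Omat hs i.1 i.2
  obtain ⟨CR, hCR0, hCR⟩ := near_lip_fin h.conf hδ' σ₀
    ((lattice_fin hρ _ hδ').prod (finite_univ (α := Fin 3 × Fin 3)))
    (Φ := fun i p => Inv.rot (ρ i.1) f p i.2.1 i.2.2) fun i => c1_rot (hU i.1) hs i.2.1 i.2.2
  refine ⟨Cc + Cc * (CK + CO) + 6 * Cb * CR, by positivity, ?_⟩
  intro p q a b s σ hp hp1 hq hq1 h1s hσ0 hσ hN ha hb
  have hp' := Inv.mobT_mem (hU a) hp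
  have hq' := Inv.mobT_mem (hU a) hq
  have hp1' : en f (mobT (ρ a) p) = 1 := by rw [en_mobT (hU a) (hf a), hp1]
  have hq1' : en f (mobT (ρ a) q) = 1 := by rw [en_mobT (hU a) (hf a), hq1]
  have hB : ∀ t, (φ t p).1 ∈ Bl := fun t => mem_OO.1 (h.flow.mem t p (mem_OO.2 hp))
  have hN' : ∀ t ∈ Icc s (s + 1), Near f σ (φ t (mobT (ρ a) p)) (φ t (mobT (ρ a) q)) :=
    fun t ht => by
      rw [flow_mobT (hU a) hs (hf a) h.flow, flow_mobT (hU a) hs (hf a) h.flow]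
      exact (hN t ht).mobT (hU a) hs (hf a)
  have e1 : ∀ c t, (φ t (mobT (ρ c) p)).1 = mob (ρ c) (φ t p).1 := fun c t => by
    rw [flow_mobT (hU c) hs (hf c) h.flow, Inv.mobT_of_mem _ (hB t)]
  have hD : ∀ t ∈ Icc s (s + 1), Real.exp (-3) * δ ≤ Dd (φ t (mobT (ρ a) p)).1 := fun t ht => by
    refine le_trans ?_ (Dd_flow_ge h.conf h.flow hp' s t)
    rw [hp1', Real.sqrt_one, e1, abs_of_nonneg (by linarith [ht.1])]
    exact mul_le_mul (Real.exp_le_exp.2 (by linarith [ht.2])) ha hδ.le (Real.exp_pos _).le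
  have sp := dirSys h hp' hp1'
  have sq := dirSys h hq' hq1'
  obtain ⟨c1, c2⟩ := hCc _ _ _ _ _ _ _ _ s ((CK + CO) * σ) sp sq h1s fun t ht i j => by
    have k1 := hCK (i, j) (mem_univ _) σ _ _ hσ (hN' t ht) (hD t ht)
    have k2 := hCO (i, j) (mem_univ _) σ _ _ hσ (hN' t ht) (hD t ht)
    have k3 := mul_nonneg hCK0 hσ0
    have k4 := mul_nonneg hCO0 hσ0
    constructor
    · exact k1.trans (by linarith)
    · exact k2.trans (by linarith)
  change fro (UD f φ M _ _ - UD f φ M _ _) ≤ 1 / 2 * fro (UD f φ M _ _ - UD f φ M _ _) + _ at c1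
  change |LD f φ M _ _ - LD f φ M _ _ - (LD f φ M _ _ - LD f φ M _ _)| ≤
    Cc * (fro (UD f φ M _ _ - UD f φ M _ _) + _) at c2
  simp only [(UL_mobT (hU a) h (hf a) hp hp1 _).2.2, (UL_mobT (hU a) h (hf a) hq hq1 _).2.2] at c2
  have hΔ := OdeMul.fro_nonneg (UD f φ M (mobT (ρ a) p) s - UD f φ M (mobT (ρ a) q) s)
  have k5 : 0 ≤ Cc * (CK + CO) := by positivity
  have k6 : 0 ≤ Cb * CR := by positivity
  refine ⟨?_, c2.trans (by
    nlinarith [mul_nonneg hCc0 hσ0, mul_nonneg k5 hΔ, mul_nonneg k6 hΔ, mul_nonneg k6 hσ0])⟩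
  have e2 : ∀ r : EE × EE, r.1 ∈ Bl → mobT (ρ b) r = mobT (ρ (b * a⁻¹)) (mobT (ρ a) r) :=
    fun r hr => by rw [← Inv.mobT_mul (hU _) (hU _) hr, ← map_mul, inv_mul_cancel_right]
  have hs1 : s + 1 ∈ Icc s (s + 1) := ⟨by linarith, le_rfl⟩
  have hc : b * a⁻¹ ∈ {c : G | ∃ x ∈ Bl, Real.exp (-3) * δ ≤ Dd x ∧
      Real.exp (-3) * δ ≤ Dd (mob (ρ c) x)} := by
    refine ⟨_, mem_OO.1 (h.flow.mem (s + 1) _ (mem_OO.2 hp')), hD _ hs1, ?_⟩
    rw [e1, ← mob_mul (hU a) (hB _), ← map_mul, inv_mul_cancel_right]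
    exact hδδ.trans hb
  obtain ⟨r1, u1, -⟩ := UL_mobT (hU (b * a⁻¹)) h (hf _) hp' hp1' (s + 1)
  obtain ⟨r2, u2, -⟩ := UL_mobT (hU (b * a⁻¹)) h (hf _) hq' hq1' (s + 1)
  rw [e2 p hp, e2 q hq, u1, u2]
  refine (fro_conj r1 r2 _ _).trans ?_
  have k7 : fro (Inv.rot (ρ (b * a⁻¹)) f (φ (s + 1) (mobT (ρ a) p)) -
      Inv.rot (ρ (b * a⁻¹)) f (φ (s + 1) (mobT (ρ a) q))) ≤ 3 * (CR * σ) :=
    fro_le_of fun i j => hCR (b * a⁻¹, i, j) ⟨hc, mem_univ _⟩ σ _ _ hσ (hN' _ hs1) (hD _ hs1)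
  have k8 : fro (UD f φ M (mobT (ρ a) q) (s + 1)) ≤ Cb :=
    (hCb _ _ _ _ sq).2.2.2.2.1 (s + 1) (by linarith)
  have k9 := mul_le_mul k8 k7 (OdeMul.fro_nonneg _) (by linarith)
  nlinarith [mul_nonneg hCc0 hσ0]

theorem twin {f : EE → ℝ} {φ : Flo} {M : DFlo} (h : Ctx f φ M)
    {Λ : ℝ} {G : Type} [Group G] {ρ : G →* C3} (hρ : IsLattice Λ G ρ)
    (hf : ∀ a, ∀ x ∈ Bl, f (mob (ρ a) x) = f x) {σ₀ : ℝ} (hσ₀ : 0 ≤ σ₀) :
    ∃ C : ℝ, ∀ (p q : EE × EE) (T : ℝ), p.1 ∈ Bl → en f p = 1 → q.1 ∈ Bl → en f q = 1 → 1 ≤ T →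
      (∀ t ∈ Icc 1 T, Near f (σ₀ * Real.exp ((t - T) / 2)) (φ t p) (φ t q)) →
      |LD f φ M p T - LD f φ M q T| ≤ C := by
  have hU : ∀ a, IsU21 (ρ a) := hρ.unit
  obtain ⟨δ, hδ, hco⟩ := lattice_cocpt hρ
  obtain ⟨C, hC0, hC⟩ := step h hρ hf hδ σ₀
  obtain ⟨Cb, hCb1, hCb⟩ := dir_basic
  refine ⟨4 * Cb + 2 * C * (2 * Cb) + 3 * ((C + 2 * C ^ 2) * σ₀), ?_⟩
  intro p q T hp hp1 hq hq1 hT hN
  choose a ha using fun t => hco _ (mem_OO.1 (h.flow.mem t p (mem_OO.2 hp)))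
  set Δ : ℝ → ℝ := fun s =>
    fro (UD f φ M (mobT (ρ (a s)) p) s - UD f φ M (mobT (ρ (a s)) q) s) with hΔ
  have hΔ0 : ∀ s, 0 ≤ Δ s := fun s => OdeMul.fro_nonneg _
  have hB : 0 ≤ (C + 2 * C ^ 2) * σ₀ := by positivity
  have key := pot (fun s => |LD f φ M p s - LD f φ M q s| + 2 * C * Δ s -
    3 * ((C + 2 * C ^ 2) * σ₀) * Real.exp ((s - T) / 2)) T (4 * Cb + 2 * C * (2 * Cb))
    (fun s h1 h2 => by
      have l : ∀ r : EE × EE, r.1 ∈ Bl → en f r = 1 → |LD f φ M r s| ≤ 2 * Cb := fun r hr hr1 => by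
        obtain ⟨-, -, -, -, -, b1, b2⟩ := hCb _ _ _ _ (dirSys h hr hr1)
        have b3 := b2 1 s le_rfl h1
        rw [abs_of_nonneg (by linarith : 0 ≤ s - 1)] at b3
        have b4 := abs_sub_abs_le_abs_sub (Real.log (YD f φ M r s).det)
          (Real.log (YD f φ M r 1).det)
        unfold LD
        nlinarith
      have u : ∀ r : EE × EE, r.1 ∈ Bl → en f r = 1 → fro (UD f φ M (mobT (ρ (a s)) r) s) ≤ Cb :=
        fun r hr hr1 => (hCb _ _ _ _ (dirSys h (Inv.mobT_mem (hU _) hr)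
          (by rw [en_mobT (hU _) (hf _), hr1]))).2.2.2.2.1 s h1
      have b5 : Δ s ≤ 2 * Cb := (fro_sub_le _ _).trans (by linarith [u p hp hp1, u q hq hq1])
      have b6 := abs_sub (LD f φ M p s) (LD f φ M q s)
      have b7 := mul_le_mul_of_nonneg_left b5 hC0
      have b8 := mul_nonneg hB (Real.exp_pos ((s - T) / 2)).le
      linarith [l p hp hp1, l q hq hq1])
    (fun s h1 h2 => by
      have b0 : Real.exp ((s + 1 - T) / 2) ≤ 1 := Real.exp_le_one_iff.2 (by linarith)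
      have b1 := (Real.exp_pos ((s + 1 - T) / 2)).le
      obtain ⟨c1, c2⟩ := hC p q (a s) (a (s + 1)) s (σ₀ * Real.exp ((s + 1 - T) / 2)) hp hp1 hq hq1
        h1 (by positivity) (mul_le_of_le_one_right hσ₀ b0) (fun t ht =>
          (hN t ⟨h1.trans ht.1, ht.2.trans h2⟩).mono (mul_le_mul_of_nonneg_left
            (Real.exp_le_exp.2 (by linarith [ht.2])) hσ₀)) (ha s) (ha (s + 1))
      change Δ (s + 1) ≤ 1 / 2 * Δ s + _ at c1
      change _ ≤ C * (Δ s + _) at c2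
      have b2 : 3 / 2 * Real.exp ((s - T) / 2) ≤ Real.exp ((s + 1 - T) / 2) := by
        rw [show (s + 1 - T) / 2 = 1 / 2 + (s - T) / 2 by ring, Real.exp_add]
        exact mul_le_mul_of_nonneg_right (by linarith [Real.add_one_le_exp (1 / 2 : ℝ)])
          (Real.exp_pos _).le
      have b3 := abs_add_le (LD f φ M p s - LD f φ M q s)
        (LD f φ M p (s + 1) - LD f φ M p s - (LD f φ M q (s + 1) - LD f φ M q s))
      rw [show LD f φ M p s - LD f φ M q s +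
        (LD f φ M p (s + 1) - LD f φ M p s - (LD f φ M q (s + 1) - LD f φ M q s)) =
          LD f φ M p (s + 1) - LD f φ M q (s + 1) by ring] at b3
      have b4 := mul_le_mul_of_nonneg_left c1 hC0
      have b5 := mul_le_mul_of_nonneg_left b2 hB
      nlinarith) T hT le_rfl
  simp only [sub_self, zero_div, Real.exp_zero] at key
  nlinarith [mul_nonneg hC0 (hΔ0 T)]

end Dstr

end Pool.Agent.MP_019006_gt
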