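import Pool.Agent.MP_019006_gt.JobDefs

set_option autoImplicit false

open MeasureTheory Filter Topology Set Matrix

namespace Pool.Agent.MP_019006_gt

namespace Kingman

/-- Lower growth rate of a real sequence. -/
noncomputable def lo (a : ℕ → ℝ) : ℝ := liminf (fun n : ℕ => a n / n) atTop

lemma nonneg_C {a : ℕ → ℝ} {C : ℝ} (h : ∀ n, |a n| ≤ C * (n + 1)) : 0 ≤ C := by
  have h0 := h 0
  have := abs_nonneg (a 0)
  simp at h0
  linarith

lemma div_bdd {a : ℕ → ℝ} {C : ℝ} (h : ∀ n, |a n| ≤ C * (n + 1)) (n : ℕ) :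
    |a n / n| ≤ 2 * C := by
  have hC := nonneg_C h
  rcases Nat.eq_zero_or_pos n with rfl | hn
  · simp [hC]
  · have hn' : (1 : ℝ) ≤ n := by exact_mod_cast hn
    rw [abs_div, abs_of_pos (by linarith : (0 : ℝ) < n), div_le_iff₀ (by linarith)]
    have := h n
    nlinarith

lemma bdd_ge {a : ℕ → ℝ} {C : ℝ} (h : ∀ n, |a n| ≤ C * (n + 1)) :
    IsBoundedUnder (· ≥ ·) atTop (fun n : ℕ => a n / n) :=
  isBoundedUnder_of ⟨-(2 * C), fun n => (abs_le.1 (div_bdd h n)).1⟩

lemma bdd_le {a : ℕ → ℝ} {C : ℝ} (h : ∀ n, |a n| ≤ C * (n + 1)) :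
    IsBoundedUnder (· ≤ ·) atTop (fun n : ℕ => a n / n) :=
  isBoundedUnder_of ⟨2 * C, fun n => (abs_le.1 (div_bdd h n)).2⟩

lemma lo_ev {a : ℕ → ℝ} {C : ℝ} (h : ∀ n, |a n| ≤ C * (n + 1)) {ε : ℝ} (hε : 0 < ε) :
    ∀ᶠ n : ℕ in atTop, lo a - ε < a n / n :=
  eventually_lt_of_lt_liminf (by unfold lo; linarith) (bdd_ge h)

lemma lo_fr {a : ℕ → ℝ} {C : ℝ} (h : ∀ n, |a n| ≤ C * (n + 1)) {ε : ℝ} (hε : 0 < ε) :
    ∃ᶠ n : ℕ in atTop, a n / n < lo a + ε :=
  frequently_lt_of_liminf_lt (bdd_le h).isCoboundedUnder_ge (by unfold lo; linarith)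

lemma lo_abs {a : ℕ → ℝ} {C : ℝ} (h : ∀ n, |a n| ≤ C * (n + 1)) : |lo a| ≤ 2 * C := by
  rw [abs_le]
  constructor
  · refine le_of_forall_pos_le_add fun ε hε => ?_
    obtain ⟨n, hn⟩ := (lo_fr h hε).exists
    have := (abs_le.1 (div_bdd h n)).1
    linarith
  · refine le_of_forall_pos_le_add fun ε hε => ?_
    obtain ⟨n, hn⟩ := (lo_ev h hε).exists
    have := (abs_le.1 (div_bdd h n)).2
    linarith

lemma lo_mono {a b : ℕ → ℝ} {C D : ℝ} (ha : ∀ n, |a n| ≤ C * (n + 1))
    (hb : ∀ n, |b n| ≤ D * (n + 1)) (k l : ℕ) (c : ℝ)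
    (h : ∀ n, a (n + k) ≤ b (n + l) + c) : lo a ≤ lo b := by
  by_contra hlt
  push Not at hlt
  set ε := (lo a - lo b) / 3 with hε
  have hε0 : 0 < ε := by rw [hε]; linarith
  obtain ⟨N, hN⟩ := eventually_atTop.1 (lo_ev ha hε0)
  obtain ⟨M, hM⟩ := exists_nat_gt (((lo b + ε) * l + c - (lo a - ε) * k) / ε)
  obtain ⟨n, hn, hn'⟩ := frequently_atTop.1 (lo_fr hb hε0) (N + M + 1 + l)
  obtain ⟨p, rfl⟩ : ∃ p, n = p + l := ⟨n - l, by omega⟩
  have hp1 : N + M + 1 ≤ p := by omega
  have h1 := hN (p + k) (by omega)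
  have hpk : (0 : ℝ) < ((p + k : ℕ) : ℝ) := by exact_mod_cast (by omega : 0 < p + k)
  have hpl : (0 : ℝ) < ((p + l : ℕ) : ℝ) := by exact_mod_cast (by omega : 0 < p + l)
  rw [lt_div_iff₀ hpk] at h1
  rw [div_lt_iff₀ hpl] at hn'
  rw [div_lt_iff₀ hε0] at hM
  have hMp : (M : ℝ) ≤ p := by exact_mod_cast (by omega : M ≤ p)
  have h2 := h p
  push_cast at h1 hn'
  have h3 : lo a = lo b + 3 * ε := by rw [hε]; ring
  have h4 : (M : ℝ) * ε ≤ p * ε := mul_le_mul_of_nonneg_right hMp hε0.le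
  rw [h3] at h1 hM
  nlinarith

lemma lo_add_neg {a : ℕ → ℝ} {C : ℝ} (ha : ∀ n, |a n| ≤ C * (n + 1)) :
    lo a + lo (fun n => -a n) ≤ 0 := by
  have hb : ∀ n, |-a n| ≤ C * (n + 1) := fun n => by rw [abs_neg]; exact ha n
  refine le_of_forall_pos_le_add fun ε hε => ?_
  obtain ⟨n, h1, h2⟩ := ((lo_ev ha (half_pos hε)).and (lo_ev hb (half_pos hε))).exists
  rw [neg_div] at h2
  linarith

lemma tendsto_of_lo {a : ℕ → ℝ} {C : ℝ} (ha : ∀ n, |a n| ≤ C * (n + 1))
    (h : lo a + lo (fun n => -a n) = 0) : Tendsto (fun n : ℕ => a n / n) atTop (𝓝 (lo a)) := by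
  have hb : ∀ n, |-a n| ≤ C * (n + 1) := fun n => by rw [abs_neg]; exact ha n
  rw [Metric.tendsto_nhds]
  intro ε hε
  filter_upwards [lo_ev ha hε, lo_ev hb hε] with n h1 h2
  rw [neg_div] at h2
  rw [Real.dist_eq, abs_lt]
  constructor <;> linarith

section Pointwise

variable {X : Type} {T : X → X} {f : ℕ → X → ℝ} {C : ℝ}

lemma lo_le_shift (hsub : ∀ m n x, f (m + n) x ≤ f m x + f n (T^[m] x))
    (hb : ∀ n x, |f n x| ≤ C * (n + 1)) (x : X) :
    lo (fun n => f n x) ≤ lo (fun n => f n (T x)) := by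
  refine lo_mono (fun n => hb n x) (fun n => hb n (T x)) 1 0 (f 1 x) fun n => ?_
  have := hsub 1 n x
  rw [add_comm 1 n] at this
  simp only [Function.iterate_one, add_zero] at this ⊢
  linarith

lemma le_iter {g : X → ℝ} (hg : ∀ x, g x ≤ g (T x)) (k : ℕ) (x : X) : g x ≤ g (T^[k] x) := by
  induction k with
  | zero => simp
  | succ k ih => rw [Function.iterate_succ_apply']; exact ih.trans (hg _)

lemma sum_split (h : X → ℝ) (N p : ℕ) (x : X) :
    ∑ k ∈ Finset.range (N + p), h (T^[k] x) =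
      ∑ k ∈ Finset.range N, h (T^[k] x) + ∑ k ∈ Finset.range p, h (T^[k] (T^[N] x)) := by
  rw [Finset.sum_range_add]
  congr 1
  refine Finset.sum_congr rfl fun k _ => ?_
  rw [add_comm N k, Function.iterate_add_apply]

/-- The block decomposition. -/
lemma blocks (hsub : ∀ m n x, f (m + n) x ≤ f m x + f n (T^[m] x))
    (hb : ∀ n x, |f n x| ≤ C * (n + 1)) (h : X → ℝ) (M : ℝ) (hM : ∀ x, -M ≤ h x) (L : ℕ)
    (hL : ∀ x, ∃ N, 1 ≤ N ∧ N ≤ L + 1 ∧ f N x ≤ ∑ k ∈ Finset.range N, h (T^[k] x)) (n : ℕ) :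
    ∀ x, f n x ≤ ∑ k ∈ Finset.range n, h (T^[k] x) + (C * (L + 1) + |M| * L) := by
  induction n using Nat.strong_induction_on with
  | _ n ih =>
    intro x
    have hC : 0 ≤ C := nonneg_C (fun n => hb n x)
    by_cases hn : n ≤ L
    · have h1 := (abs_le.1 (hb n x)).2
      have hnL : (n : ℝ) ≤ L := by exact_mod_cast hn
      have h2 : -(|M| * n) ≤ ∑ k ∈ Finset.range n, h (T^[k] x) := by
        have : ∑ _k ∈ Finset.range n, (-|M|) ≤ ∑ k ∈ Finset.range n, h (T^[k] x) :=
          Finset.sum_le_sum fun k _ => by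
            have := hM (T^[k] x)
            have := le_abs_self M
            linarith
        simp only [Finset.sum_const, Finset.card_range, nsmul_eq_mul] at this
        linarith
      have := abs_nonneg M
      nlinarith
    · obtain ⟨N, hN1, hN2, hN3⟩ := hL x
      obtain ⟨p, rfl⟩ : ∃ p, n = N + p := ⟨n - N, by omega⟩
      have h1 := hsub N p x
      have h2 := ih p (by omega) (T^[N] x)
      rw [sum_split]
      linarith

/-- Comparison with the ergodic sums of one term of the sequence. -/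
lemma avg_bound (hsub : ∀ m n x, f (m + n) x ≤ f m x + f n (T^[m] x))
    (hb : ∀ n x, |f n x| ≤ C * (n + 1)) (m : ℕ) (hm : 1 ≤ m) (n : ℕ) :
    ∀ x, ∑ j ∈ Finset.range m, f n (T^[j] x) ≤
      ∑ k ∈ Finset.range n, f m (T^[k] x) + 2 * (m * (C * (m + 1))) := by
  induction n using Nat.strong_induction_on with
  | _ n ih =>
    intro x
    have hC : 0 ≤ C := nonneg_C (fun n => hb n x)
    by_cases hn : n < m
    · have hnm : (n : ℝ) ≤ m := by exact_mod_cast hn.le
      have h1 : ∑ j ∈ Finset.range m, f n (T^[j] x) ≤ ∑ _j ∈ Finset.range m, C * (m + 1) :=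
        Finset.sum_le_sum fun j _ => by
          have := (abs_le.1 (hb n (T^[j] x))).2
          nlinarith
      have h2 : ∑ _k ∈ Finset.range n, (-(C * (m + 1))) ≤ ∑ k ∈ Finset.range n, f m (T^[k] x) :=
        Finset.sum_le_sum fun k _ => (abs_le.1 (hb m (T^[k] x))).1
      simp only [Finset.sum_const, Finset.card_range, nsmul_eq_mul] at h1 h2
      have h3 : 0 ≤ C * (m + 1) := by positivity
      nlinarith
    · obtain ⟨p, rfl⟩ : ∃ p, n = m + p := ⟨n - m, by omega⟩
      have h2 := ih p (by omega) (T^[m] x)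
      have h1 : ∑ j ∈ Finset.range m, f (m + p) (T^[j] x) ≤
          ∑ j ∈ Finset.range m, (f m (T^[j] x) + f p (T^[j] (T^[m] x))) :=
        Finset.sum_le_sum fun j _ => by
          have := hsub m p (T^[j] x)
          rwa [← Function.iterate_add_apply, add_comm m j, Function.iterate_add_apply] at this
      rw [Finset.sum_add_distrib] at h1
      rw [sum_split]
      linarith

lemma avg_bound2 (hsub : ∀ m n x, f (m + n) x ≤ f m x + f n (T^[m] x))
    (hb : ∀ n x, |f n x| ≤ C * (n + 1)) (m : ℕ) (hm : 1 ≤ m) (n : ℕ) (x : X) :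
    f (n + m) x ≤ ∑ k ∈ Finset.range n, f m (T^[k] x) / m + 4 * (C * (m + 1)) := by
  have hC : 0 ≤ C := nonneg_C (fun n => hb n x)
  have hm' : (0 : ℝ) < m := by exact_mod_cast hm
  have h1 : ∑ _j ∈ Finset.range m, (f (n + m) x - 2 * (C * (m + 1))) ≤
      ∑ j ∈ Finset.range m, f n (T^[j] x) := by
    refine Finset.sum_le_sum fun j hj => ?_
    have hj' : j < m := Finset.mem_range.1 hj
    obtain ⟨r, rfl⟩ : ∃ r, m = j + r := ⟨m - j, by omega⟩
    have e1 := hsub j (n + r) x
    have e2 := hsub n r (T^[j] x)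
    have e3 := (abs_le.1 (hb j x)).2
    have e4 := (abs_le.1 (hb r (T^[n] (T^[j] x)))).2
    rw [show j + (n + r) = n + (j + r) by ring] at e1
    have : (0 : ℝ) ≤ j := Nat.cast_nonneg j
    have : (0 : ℝ) ≤ r := Nat.cast_nonneg r
    push_cast
    nlinarith
  have h2 := avg_bound hsub hb m hm n x
  simp only [Finset.sum_const, Finset.card_range, nsmul_eq_mul] at h1
  rw [← Finset.sum_div, ← sub_le_iff_le_add, le_div_iff₀ hm']
  nlinarith

end Pointwise

section Integral

variable {X : Type} [MeasurableSpace X] {μ : Measure X} [IsFiniteMeasure μ] {T : X → X}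
  {f : ℕ → X → ℝ} {C : ℝ}

lemma lo_meas (hf : ∀ n, Measurable (f n)) : Measurable fun x => lo (fun n => f n x) :=
  Measurable.liminf fun n => (hf n).div_const _

lemma int_of_bdd {g : X → ℝ} (hg : Measurable g) (M : ℝ) (hM : ∀ x, |g x| ≤ M) :
    Integrable g μ :=
  Integrable.of_bound hg.aestronglyMeasurable M (ae_of_all _ fun x => hM x)

omit [IsFiniteMeasure μ] in
lemma int_sum (hT : MeasurePreserving T μ μ) {g : X → ℝ} (hg : Integrable g μ) (n : ℕ) :
    Integrable (fun x => ∑ k ∈ Finset.range n, g (T^[k] x)) μ ∧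
      ∫ x, ∑ k ∈ Finset.range n, g (T^[k] x) ∂μ = n * ∫ x, g x ∂μ := by
  have hi : ∀ k, Integrable (fun x => g (T^[k] x)) μ := fun k =>
    (hT.iterate k).integrable_comp_of_integrable hg
  refine ⟨integrable_finsetSum _ fun k _ => hi k, ?_⟩
  rw [integral_finsetSum _ fun k _ => hi k]
  have : ∀ k, ∫ x, g (T^[k] x) ∂μ = ∫ x, g x ∂μ := fun k => by
    have h1 := (hT.iterate k).map_eq
    have h2 := integral_map (μ := μ) (φ := T^[k]) (f := g) (hT.iterate k).measurable.aemeasurable
      (by rw [h1]; exact hg.aestronglyMeasurable)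
    rw [h1] at h2
    exact h2.symm
  simp [this]

lemma key (hT : MeasurePreserving T μ μ) (hf : ∀ n, Measurable (f n)) (hC : 0 ≤ C)
    (hsub : ∀ m n x, f (m + n) x ≤ f m x + f n (T^[m] x))
    (hb : ∀ n x, |f n x| ≤ C * (n + 1)) {δ : ℝ} (hδ : 0 < δ) :
    ∀ᶠ n : ℕ in atTop, ∫ x, f n x ∂μ ≤ n * (∫ x, lo (fun n => f n x) ∂μ + δ) := by
  set g : X → ℝ := fun x => lo (fun n => f n x) with hg
  have hgm : Measurable g := lo_meas hf
  have hgb : ∀ x, |g x| ≤ 2 * C := fun x => lo_abs fun n => hb n x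
  have hgi : Integrable g μ := int_of_bdd hgm _ hgb
  set V : ℝ := μ.real univ with hV
  have hV0 : 0 ≤ V := measureReal_nonneg
  set ε : ℝ := δ / (3 * (V + 1)) with hε
  have hε0 : 0 < ε := by positivity
  have hεV : ε * (V + 1) = δ / 3 := by rw [hε]; field_simp
  let B : ℕ → Set X := fun L => ⋂ N ∈ Finset.range (L + 1), {x | (N + 1) * (g x + ε) < f (N + 1) x}
  have hBm : ∀ L, MeasurableSet (B L) := fun L =>
    Finset.measurableSet_biInter _ fun N _ =>
      measurableSet_lt ((hgm.add_const _).const_mul _) (hf _)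
  have hBanti : Antitone B := by
    intro L L' hLL' x hx
    simp only [B, mem_iInter] at hx ⊢
    intro N hN
    exact hx N (by simp only [Finset.mem_range] at hN ⊢; omega)
  have hBe : ⋂ L, B L = ∅ := by
    ext x
    simp only [mem_iInter, mem_empty_iff_false, iff_false]
    intro hx
    obtain ⟨n, hn1, hn⟩ := frequently_atTop.1 (lo_fr (fun n => hb n x) hε0) 1
    obtain ⟨N, rfl⟩ : ∃ N, n = N + 1 := ⟨n - 1, by omega⟩
    have h1 := hx N
    simp only [B, mem_iInter] at h1
    have h2 := h1 N (by simp)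
    rw [div_lt_iff₀ (by positivity)] at hn
    simp only [mem_ofPred_eq, hg] at h2
    push_cast at hn
    linarith
  have hlim : Tendsto (fun L => μ.real (B L)) atTop (𝓝 0) := by
    have h1 := tendsto_measure_iInter_atTop (μ := μ) (fun L => (hBm L).nullMeasurableSet) hBanti
      ⟨0, measure_ne_top _ _⟩
    rw [hBe, measure_empty] at h1
    exact (ENNReal.tendsto_toReal ENNReal.zero_ne_top).comp h1
  obtain ⟨L, hL⟩ := (hlim.eventually (gt_mem_nhds (show 0 < δ / (3 * (4 * C + 1)) by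
    positivity))).exists
  let h : X → ℝ := fun x => g x + ε + (B L).indicator (fun _ => 4 * C) x
  have hge : ∀ x, g x + ε ≤ h x := fun x => by
    have : 0 ≤ (B L).indicator (fun _ => 4 * C) x :=
      indicator_nonneg (fun _ _ => by positivity) x
    simp only [h]
    linarith
  have hblock := blocks hsub hb h (2 * C)
    (fun x => by have := (abs_le.1 (hgb x)).1; have := hge x; linarith) L (fun x => by
      by_cases hx : x ∈ B L
      · refine ⟨1, le_rfl, by omega, ?_⟩
        have e1 := (abs_le.1 (hb 1 x)).2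
        have e2 := (abs_le.1 (hgb x)).1
        simp only [Finset.range_one, Finset.sum_singleton, Function.iterate_zero, id, h,
          indicator_of_mem hx]
        push_cast at e1
        linarith
      · simp only [B, mem_iInter, mem_ofPred_eq, not_forall, not_lt] at hx
        obtain ⟨N, hN, hN'⟩ := hx
        refine ⟨N + 1, by omega, by simp only [Finset.mem_range] at hN; omega, hN'.trans ?_⟩
        have : ∑ _k ∈ Finset.range (N + 1), (g x + ε) ≤
            ∑ k ∈ Finset.range (N + 1), h (T^[k] x) :=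
          Finset.sum_le_sum fun k _ => by
            have e1 : g x ≤ g (T^[k] x) := le_iter (lo_le_shift hsub hb) k x
            have := hge (T^[k] x)
            linarith
        simpa only [Finset.sum_const, Finset.card_range, nsmul_eq_mul, Nat.cast_add,
          Nat.cast_one] using this)
  have hii : Integrable (fun x => (B L).indicator (fun _ => 4 * C) x) μ :=
    (integrable_const _).indicator (hBm L)
  have hgei : Integrable (fun x => g x + ε) μ := hgi.add (integrable_const _)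
  have hhi : Integrable h μ := hgei.add hii
  have hhint : ∫ x, h x ∂μ = ∫ x, g x ∂μ + V * ε + μ.real (B L) * (4 * C) := by
    simp only [h]
    rw [integral_add hgei hii, integral_add hgi (integrable_const _),
      integral_const, integral_indicator_const _ (hBm L)]
    simp [hV]
  set D : ℝ := C * (L + 1) + |2 * C| * L with hD
  obtain ⟨n₀, hn₀⟩ := exists_nat_gt (V * D / (δ / 3))
  filter_upwards [eventually_ge_atTop n₀] with n hn
  have hn' : (n₀ : ℝ) ≤ n := by exact_mod_cast hn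
  obtain ⟨hs1, hs2⟩ := int_sum hT hhi n
  have h1 : ∫ x, f n x ∂μ ≤ ∫ x, (∑ k ∈ Finset.range n, h (T^[k] x) + D) ∂μ :=
    integral_mono (int_of_bdd (hf n) _ (hb n)) (hs1.add (integrable_const _)) (hblock n)
  rw [integral_add hs1 (integrable_const _), hs2, integral_const, hhint] at h1
  rw [div_lt_iff₀ (by positivity)] at hn₀
  rw [lt_div_iff₀ (by positivity)] at hL
  have hB0 : 0 ≤ μ.real (B L) := measureReal_nonneg
  have hn0 : (0 : ℝ) ≤ n := Nat.cast_nonneg n
  have e1 : V * ε + μ.real (B L) * (4 * C) ≤ 2 * (δ / 3) := by nlinarith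
  have e2 : (n : ℝ) * (V * ε + μ.real (B L) * (4 * C)) ≤ n * (2 * (δ / 3)) :=
    mul_le_mul_of_nonneg_left e1 hn0
  have e3 : (n₀ : ℝ) * (δ / 3) ≤ n * (δ / 3) := mul_le_mul_of_nonneg_right hn' (by positivity)
  simp only [smul_eq_mul] at h1
  nlinarith

end Integral

end Kingman

open Kingman in
theorem kingman {X : Type} [MeasurableSpace X] (μ : Measure X) [IsFiniteMeasure μ] (T : X → X)
    (hT : MeasurePreserving T μ μ) (f : ℕ → X → ℝ) (hf : ∀ n, Measurable (f n)) (C : ℝ)
    (hsub : ∀ m n x, f (m + n) x ≤ f m x + f n (T^[m] x))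
    (hb : ∀ n x, |f n x| ≤ C * (n + 1)) :
    ∀ᵐ x ∂μ, ∃ l : ℝ, Tendsto (fun n : ℕ => f n x / n) atTop (𝓝 l) := by
  rcases isEmpty_or_nonempty X with hX | ⟨⟨x₀⟩⟩
  · exact ae_of_all _ fun x => (hX.false x).elim
  have hC : 0 ≤ C := nonneg_C fun n => hb n x₀
  have hb' : ∀ n x, |-f n x| ≤ C * (n + 1) := fun n x => by rw [abs_neg]; exact hb n x
  have hm1 : Measurable fun x => lo (fun n => f n x) := lo_meas hf
  have hm2 : Measurable fun x => lo (fun n => -f n x) := lo_meas (f := fun n x => -f n x)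
    fun n => (hf n).neg
  have hi1 : Integrable (fun x => lo (fun n => f n x)) μ :=
    int_of_bdd hm1 _ fun x => lo_abs fun n => hb n x
  have hi2 : Integrable (fun x => lo (fun n => -f n x)) μ :=
    int_of_bdd hm2 _ fun x => lo_abs fun n => hb' n x
  have hmain : 0 ≤ ∫ x, lo (fun n => f n x) ∂μ + ∫ x, lo (fun n => -f n x) ∂μ := by
    refine le_of_forall_pos_le_add fun δ hδ => ?_
    obtain ⟨m, hm, hm1⟩ := ((key hT hf hC hsub hb (half_pos hδ)).and (eventually_ge_atTop 1)).exists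
    have hm' : (0 : ℝ) < m := by exact_mod_cast hm1
    let φ : X → ℝ := fun x => f m x / m
    have hφm : Measurable φ := (hf m).div_const _
    have hφb : ∀ x, |φ x| ≤ 2 * C := fun x => div_bdd (fun n => hb n x) m
    have hφi : Integrable φ μ := int_of_bdd hφm _ hφb
    let F : ℕ → X → ℝ := fun n x => -∑ k ∈ Finset.range n, φ (T^[k] x)
    have hFm : ∀ n, Measurable (F n) := fun n =>
      (Finset.measurable_sum _ fun k _ => hφm.comp (hT.iterate k).measurable).neg
    have hFs : ∀ p n x, F (p + n) x ≤ F p x + F n (T^[p] x) := fun p n x => by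
      simp only [F]
      rw [sum_split]
      linarith
    have hFb : ∀ n x, |F n x| ≤ 2 * C * (n + 1) := fun n x => by
      simp only [F]
      rw [abs_neg]
      refine (Finset.abs_sum_le_sum_abs _ _).trans ?_
      have : ∑ k ∈ Finset.range n, |φ (T^[k] x)| ≤ ∑ _k ∈ Finset.range n, 2 * C :=
        Finset.sum_le_sum fun k _ => hφb _
      simp only [Finset.sum_const, Finset.card_range, nsmul_eq_mul] at this
      nlinarith
    obtain ⟨n, hn, hn1⟩ := ((key hT hFm (by positivity) hFs hFb (half_pos hδ)).and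
      (eventually_ge_atTop 1)).exists
    have hn' : (0 : ℝ) < n := by exact_mod_cast hn1
    have e1 : ∫ x, F n x ∂μ = -(n * ∫ x, φ x ∂μ) := by
      simp only [F]
      rw [integral_neg, (int_sum hT hφi n).2]
    have e2 : ∫ x, φ x ∂μ = (∫ x, f m x ∂μ) / m := integral_div _ _
    have e3 : ∫ x, lo (fun n => F n x) ∂μ ≤ ∫ x, lo (fun n => -f n x) ∂μ := by
      refine integral_mono (int_of_bdd (lo_meas hFm) _ fun x => lo_abs fun n => hFb n x) hi2
        fun x => ?_
      refine lo_mono (fun n => hFb n x) (fun n => hb' n x) 0 m (4 * (C * (m + 1))) fun n => ?_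
      have := avg_bound2 hsub hb m hm1 n x
      simp only [F, φ, add_zero]
      linarith
    have e4 : ∫ x, φ x ∂μ ≤ ∫ x, lo (fun n => f n x) ∂μ + δ / 2 := by
      rw [e2, div_le_iff₀ hm']
      linarith
    have e5 : -∫ x, φ x ∂μ ≤ ∫ x, lo (fun n => F n x) ∂μ + δ / 2 := by
      rw [e1, ← mul_neg] at hn
      exact le_of_mul_le_mul_left hn hn'
    linarith
  have hneg : 0 ≤ fun x => -(lo (fun n => f n x) + lo (fun n => -f n x)) := fun x => by
    have := lo_add_neg fun n => hb n x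
    simp only [Pi.zero_apply]
    linarith
  have hz : ∫ x, -(lo (fun n => f n x) + lo (fun n => -f n x)) ∂μ = 0 := by
    refine le_antisymm ?_ (integral_nonneg hneg)
    rw [integral_neg, integral_add hi1 hi2]
    linarith
  rw [integral_eq_zero_iff_of_nonneg hneg (hi1.add hi2).neg] at hz
  filter_upwards [hz] with x hx
  simp only [Pi.zero_apply, neg_eq_zero] at hx
  exact ⟨_, tendsto_of_lo (fun n => hb n x) hx⟩

end Pool.Agent.MP_019006_gt
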