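import Pool.Agent.MP_019006_gt.ErgWeight
import Pool.Agent.MP_019006_gt.Kingman

set_option autoImplicit false

open MeasureTheory Filter Topology Set Matrix
open scoped ENNReal

namespace Pool.Agent.MP_019006_gt

namespace ErgAux

/-- The sigma-algebra of measurable sets that are invariant on `S`. -/
@[reducible] def invSigma {P G : Type} [MeasurableSpace P] (S : Set P) (act : G → P → P) :
    MeasurableSpace P where
  MeasurableSet' A := MeasurableSet A ∧ ∀ a, ∀ p ∈ S, (act a p ∈ A ↔ p ∈ A)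
  measurableSet_empty := ⟨MeasurableSet.empty, fun _ _ _ => Iff.rfl⟩
  measurableSet_compl A hA := ⟨hA.1.compl, fun a p hp => not_congr (hA.2 a p hp)⟩
  measurableSet_iUnion A hA := ⟨MeasurableSet.iUnion fun i => (hA i).1, fun a p hp => by
    simp only [mem_iUnion]
    exact exists_congr fun i => (hA i).2 a p hp⟩

theorem invSigma_le {P G : Type} [m : MeasurableSpace P] (S : Set P) (act : G → P → P) :
    invSigma S act ≤ m := fun _ hA => hA.1

variable {P G : Type} [MeasurableSpace P] [Group G] [Countable G]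

theorem kingman_quot (μ : Measure P) (S : Set P) (hS : MeasurableSet S) (hSc : μ Sᶜ = 0)
    (act : G → P → P) (hact : ∀ a, MeasurePreserving (act a) μ μ)
    (actS : ∀ a, ∀ p ∈ S, act a p ∈ S) (act1 : ∀ p ∈ S, act 1 p = p)
    (actmul : ∀ a b, ∀ p ∈ S, act (a * b) p = act a (act b p))
    (χ : P → ℝ≥0∞) (hχm : Measurable χ) (hχ : ∀ p ∈ S, ∑' a, χ (act a p) = 1)
    (hfin : ∫⁻ p, χ p ∂μ ≠ ⊤)
    (T : P → P) (hT : MeasurePreserving T μ μ) (TS : ∀ p ∈ S, T p ∈ S)
    (comm : ∀ a, ∀ p ∈ S, T (act a p) = act a (T p))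
    (C : ℝ) (f : ℕ → P → ℝ) (fm : ∀ n, Measurable (f n))
    (finv : ∀ n a, ∀ p ∈ S, f n (act a p) = f n p)
    (fsub : ∀ m n, ∀ p ∈ S, f (m + n) p ≤ f m p + f n (T^[m] p))
    (fb : ∀ n, ∀ p ∈ S, |f n p| ≤ C * (n + 1)) :
    ∀ᵐ p ∂μ, ∃ l : ℝ, Tendsto (fun n : ℕ => f n p / n) atTop (𝓝 l) := by
  classical
  have hae : ∀ᵐ p ∂μ, p ∈ S := hSc
  set ν : Measure P := μ.withDensity χ with hν
  have : IsFiniteMeasure ν := isFiniteMeasure_withDensity hfin
  have hle := invSigma_le S act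
  set T' : P → P := S.piecewise T id with hT'
  have hT'm : Measurable T' := Measurable.piecewise hS hT.measurable measurable_id
  have hT'S : ∀ p ∈ S, T' p = T p := fun p hp => piecewise_eq_of_mem _ _ _ hp
  have hT'N : ∀ p, p ∉ S → T' p = p := fun p hp => piecewise_eq_of_notMem _ _ _ hp
  have hitS : ∀ m, ∀ p ∈ S, T'^[m] p = T^[m] p ∧ T^[m] p ∈ S := by
    intro m
    induction m with
    | zero => intro p hp; exact ⟨rfl, hp⟩
    | succ m ih =>
      intro p hp
      rw [Function.iterate_succ_apply', Function.iterate_succ_apply', (ih p hp).1,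
        hT'S _ (ih p hp).2]
      exact ⟨rfl, TS _ (ih p hp).2⟩
  have hitN : ∀ m p, p ∉ S → T'^[m] p = p := fun m p hp => Function.iterate_fixed (hT'N p hp) m
  have hT'0 : @Measurable P P (invSigma S act) (invSigma S act) T' := by
    intro A hA
    refine ⟨hT'm hA.1, fun a p hp => ?_⟩
    rw [mem_preimage, mem_preimage, hT'S _ (actS a p hp), hT'S _ hp, comm a p hp]
    exact hA.2 a _ (TS p hp)
  have hνA : ∀ A : Set P, MeasurableSet A → ν A = ∫⁻ p, χ p * A.indicator 1 p ∂μ := by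
    intro A hA
    rw [← lintegral_indicator_one hA, hν,
      lintegral_withDensity_eq_lintegral_mul _ hχm (measurable_one.indicator hA)]
    rfl
  have hpres : @MeasurePreserving P P (invSigma S act) (invSigma S act) T' (ν.trim hle)
      (ν.trim hle) := by
    refine @MeasurePreserving.mk P P (invSigma S act) (invSigma S act) _ _ _ hT'0 ?_
    refine @Measure.ext P (invSigma S act) _ _ fun A hA => ?_
    rw [@Measure.map_apply P P (invSigma S act) (invSigma S act) _ _ hT'0 _ hA,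
      trim_measurableSet_eq hle (hT'0 hA), trim_measurableSet_eq hle hA,
      hνA _ (hT'm hA.1), hνA _ hA.1,
      ← weight_lintegral_comp μ S hSc act hact act1 actmul χ hχm hχ T hT TS comm (A.indicator 1)
        (measurable_one.indicator hA.1) (fun a p hp => by
          by_cases h : p ∈ A
          · rw [indicator_of_mem h, indicator_of_mem ((hA.2 a p hp).2 h)]; rfl
          · rw [indicator_of_notMem h, indicator_of_notMem (fun h' => h ((hA.2 a p hp).1 h'))])]
    refine lintegral_congr_ae (hae.mono fun p hp => ?_)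
    simp only []
    rw [← hT'S p hp]
    rfl
  have hfm : ∀ n, @Measurable P ℝ (invSigma S act) _ (S.indicator (f n)) := by
    intro n B hB
    refine ⟨((fm n).indicator hS) hB, fun a p hp => ?_⟩
    rw [mem_preimage, mem_preimage, indicator_of_mem (actS a p hp), indicator_of_mem hp,
      finv n a p hp]
  have key := @kingman P (invSigma S act) (ν.trim hle) (isFiniteMeasure_trim hle) T' hpres
    (fun n => S.indicator (f n)) hfm |C|
    (fun m n x => by
      by_cases hx : x ∈ S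
      · rw [(hitS m x hx).1, indicator_of_mem hx, indicator_of_mem hx,
          indicator_of_mem (hitS m x hx).2]
        exact fsub m n x hx
      · rw [hitN m x hx, indicator_of_notMem hx, indicator_of_notMem hx, indicator_of_notMem hx]
        simp)
    (fun n x => by
      by_cases hx : x ∈ S
      · rw [indicator_of_mem hx]
        exact (fb n x hx).trans (by gcongr; exact le_abs_self C)
      · rw [indicator_of_notMem hx, abs_zero]
        positivity)
  obtain ⟨A, hsub, hA, hA0⟩ :=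
    @exists_measurable_superset_of_null P (invSigma S act) (ν.trim hle) _ key
  rw [trim_measurableSet_eq hle hA, hνA _ hA.1] at hA0
  have hm : Measurable fun p => χ p * A.indicator 1 p := hχm.mul (measurable_one.indicator hA.1)
  have h0 : ∀ a, ∀ᵐ p ∂μ, χ (act a p) * A.indicator 1 (act a p) = 0 := fun a =>
    (hact a).quasiMeasurePreserving.ae ((lintegral_eq_zero_iff hm).1 hA0)
  filter_upwards [hae, ae_all_iff.2 h0] with p hp h
  have hpA : p ∉ A := by
    intro hpA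
    have h1 := hχ p hp
    have h2 : ∀ a, χ (act a p) = 0 := fun a => by
      have := h a
      rwa [indicator_of_mem ((hA.2 a p hp).2 hpA), Pi.one_apply, mul_one] at this
    simp [h2] at h1
  by_contra hcon
  refine hpA (hsub ?_)
  simpa only [mem_compl_iff, mem_ofPred_eq, indicator_of_mem hp] using hcon

theorem integral_weight_comp (μ : Measure P) (S : Set P) (hSc : μ Sᶜ = 0)
    (act : G → P → P) (hact : ∀ a, MeasurePreserving (act a) μ μ)
    (act1 : ∀ p ∈ S, act 1 p = p)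
    (actmul : ∀ a b, ∀ p ∈ S, act (a * b) p = act a (act b p))
    (χ : P → ℝ≥0∞) (hχm : Measurable χ) (hχ : ∀ p ∈ S, ∑' a, χ (act a p) = 1)
    (hfin : ∫⁻ p, χ p ∂μ ≠ ⊤)
    (T : P → P) (hT : MeasurePreserving T μ μ) (TS : ∀ p ∈ S, T p ∈ S)
    (comm : ∀ a, ∀ p ∈ S, T (act a p) = act a (T p))
    (C : ℝ) (Ψ : P → ℝ) (Ψm : Measurable Ψ) (Ψb : ∀ p ∈ S, |Ψ p| ≤ C)
    (Ψinv : ∀ a, ∀ p ∈ S, Ψ (act a p) = Ψ p) :
    ∫ p, Ψ (T p) ∂(μ.withDensity χ) = ∫ p, Ψ p ∂(μ.withDensity χ) := by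
  have hae : ∀ᵐ p ∂μ, p ∈ S := hSc
  have haeν : ∀ᵐ p ∂(μ.withDensity χ), p ∈ S := (withDensity_absolutelyContinuous μ χ).ae_le hae
  have : IsFiniteMeasure (μ.withDensity χ) := isFiniteMeasure_withDensity hfin
  have hi1 : Integrable (fun p => Ψ (T p)) (μ.withDensity χ) :=
    Integrable.of_bound (Ψm.comp hT.measurable).aestronglyMeasurable C
      (haeν.mono fun p hp => Ψb _ (TS p hp))
  have hi2 : Integrable Ψ (μ.withDensity χ) :=
    Integrable.of_bound Ψm.aestronglyMeasurable C (haeν.mono fun p hp => Ψb _ hp)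
  have key : ∀ u : P → ℝ≥0∞, Measurable u → (∀ a, ∀ p ∈ S, u (act a p) = u p) →
      ∫⁻ p, u (T p) ∂(μ.withDensity χ) = ∫⁻ p, u p ∂(μ.withDensity χ) := by
    intro u hu uinv
    have hu' : Measurable fun p => u (T p) := hu.comp hT.measurable
    rw [lintegral_withDensity_eq_lintegral_mul _ hχm hu,
      lintegral_withDensity_eq_lintegral_mul _ hχm hu']
    exact weight_lintegral_comp μ S hSc act hact act1 actmul χ hχm hχ T hT TS comm u hu uinv
  rw [integral_eq_lintegral_pos_part_sub_lintegral_neg_part hi1,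
    integral_eq_lintegral_pos_part_sub_lintegral_neg_part hi2,
    key (fun p => ENNReal.ofReal (Ψ p)) Ψm.ennreal_ofReal
      (fun a p hp => by simp only [Ψinv a p hp]),
    key (fun p => ENNReal.ofReal (-Ψ p)) Ψm.neg.ennreal_ofReal
      (fun a p hp => by simp only [Ψinv a p hp])]

theorem integral_unfold (μ : Measure P) (S : Set P) (hSc : μ Sᶜ = 0)
    (act : G → P → P) (hact : ∀ a, MeasurePreserving (act a) μ μ)
    (act1 : ∀ p ∈ S, act 1 p = p)
    (actmul : ∀ a b, ∀ p ∈ S, act (a * b) p = act a (act b p))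
    (χ : P → ℝ≥0∞) (hχm : Measurable χ) (hχ : ∀ p ∈ S, ∑' a, χ (act a p) = 1)
    (Ψ Ψ₀ : P → ℝ) (Ψ₀m : Measurable Ψ₀) (Ψ₀i : Integrable Ψ₀ μ)
    (Ψf : ∀ p ∈ S, {a | Ψ₀ (act a p) ≠ 0}.Finite)
    (Ψsum : ∀ p ∈ S, Ψ p = ∑' a, Ψ₀ (act a p)) :
    ∫ p, Ψ p ∂(μ.withDensity χ) = ∫ p, Ψ₀ p ∂μ := by
  have hae : ∀ᵐ p ∂μ, p ∈ S := hSc
  have haeν : ∀ᵐ p ∂(μ.withDensity χ), p ∈ S := (withDensity_absolutelyContinuous μ χ).ae_le hae
  have key : ∀ u : P → ℝ, Measurable u → Integrable u μ →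
      Integrable (fun p => (∑' a, ENNReal.ofReal (u (act a p))).toReal) (μ.withDensity χ) ∧
      ∫ p, (∑' a, ENNReal.ofReal (u (act a p))).toReal ∂(μ.withDensity χ) =
        (∫⁻ p, ENNReal.ofReal (u p) ∂μ).toReal := by
    intro u hu hi
    have hm : Measurable fun p => ∑' a, ENNReal.ofReal (u (act a p)) :=
      Measurable.tsum fun a => (hu.comp (hact a).measurable).ennreal_ofReal
    have h1 : ∫⁻ p, ∑' a, ENNReal.ofReal (u (act a p)) ∂(μ.withDensity χ) =
        ∫⁻ p, ENNReal.ofReal (u p) ∂μ := by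
      rw [lintegral_withDensity_eq_lintegral_mul _ hχm hm]
      exact weight_unfold μ S hSc act hact act1 actmul χ hχm hχ (fun p => ENNReal.ofReal (u p))
        hu.ennreal_ofReal
    have h2 : ∫⁻ p, ∑' a, ENNReal.ofReal (u (act a p)) ∂(μ.withDensity χ) ≠ ⊤ := by
      rw [h1]; exact hi.lintegral_lt_top.ne
    refine ⟨integrable_toReal_of_lintegral_ne_top hm.aemeasurable h2, ?_⟩
    rw [integral_toReal hm.aemeasurable (ae_lt_top hm h2), h1]
  obtain ⟨i1, e1⟩ := key Ψ₀ Ψ₀m Ψ₀i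
  obtain ⟨i2, e2⟩ := key (fun p => -Ψ₀ p) Ψ₀m.neg Ψ₀i.neg
  rw [integral_eq_lintegral_pos_part_sub_lintegral_neg_part Ψ₀i, ← e1, ← e2,
    ← integral_sub i1 i2]
  refine integral_congr_ae (haeν.mono fun p hp => ?_)
  simp only []
  have hz : ∀ a, a ∉ (Ψf p hp).toFinset → Ψ₀ (act a p) = 0 := fun a ha => by simpa using ha
  rw [Ψsum p hp, tsum_eq_sum (s := (Ψf p hp).toFinset) hz,
    tsum_eq_sum (s := (Ψf p hp).toFinset) (fun a ha => by rw [hz a ha]; simp),
    tsum_eq_sum (s := (Ψf p hp).toFinset) (fun a ha => by rw [hz a ha]; simp),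
    ENNReal.toReal_sum (fun a _ => ENNReal.ofReal_ne_top),
    ENNReal.toReal_sum (fun a _ => ENNReal.ofReal_ne_top), ← Finset.sum_sub_distrib]
  refine Finset.sum_congr rfl fun a _ => ?_
  rw [ENNReal.toReal_ofReal', ENNReal.toReal_ofReal', max_zero_sub_max_neg_zero_eq_self]

end ErgAux

theorem erg_pack {P G : Type} [MeasurableSpace P] [Group G] [Countable G] (μ : Measure P)
    [SFinite μ] (S : Set P) (hS : MeasurableSet S) (hSc : μ Sᶜ = 0)
    (act : G → P → P) (hact : ∀ a, MeasurePreserving (act a) μ μ)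
    (actS : ∀ a, ∀ p ∈ S, act a p ∈ S) (act1 : ∀ p ∈ S, act 1 p = p)
    (actmul : ∀ a b, ∀ p ∈ S, act (a * b) p = act a (act b p))
    (φ : ℝ → P → P) (hφm : Measurable (fun q : ℝ × P => φ q.1 q.2))
    (hφ : ∀ t, MeasurePreserving (φ t) μ μ) (φS : ∀ t, ∀ p ∈ S, φ t p ∈ S)
    (φ0 : ∀ p ∈ S, φ 0 p = p) (φadd : ∀ t s, ∀ p ∈ S, φ (t + s) p = φ t (φ s p))
    (comm : ∀ a t, ∀ p ∈ S, φ t (act a p) = act a (φ t p))
    (K : Set P) (hK : MeasurableSet K) (hKfin : μ K < ⊤)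
    (hKcov : ∀ p ∈ S, ∃ a, act a p ∈ K) (hKf : ∀ p ∈ S, {a | act a p ∈ K}.Finite)
    (C : ℝ) (f : Fin 3 → ℕ → P → ℝ) (fm : ∀ i n, Measurable (f i n))
    (finv : ∀ i n a, ∀ p ∈ S, f i n (act a p) = f i n p)
    (fsub : ∀ i m n, ∀ p ∈ S, f i (m + n) p ≤ f i m p + f i n (φ m p))
    (fb : ∀ i n, ∀ p ∈ S, |f i n p| ≤ C * (n + 1))
    (Ψ Ψ₀ : P → ℝ) (Ψm : Measurable Ψ) (Ψ₀m : Measurable Ψ₀) (Ψ₀i : Integrable Ψ₀ μ)
    (Ψb : ∀ p ∈ S, |Ψ p| ≤ C) (Ψf : ∀ p ∈ S, {a | Ψ₀ (act a p) ≠ 0}.Finite)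
    (Ψsum : ∀ p ∈ S, Ψ p = ∑' a, Ψ₀ (act a p)) (hpos : 0 < ∫ p, Ψ₀ p ∂μ)
    (hlow : ∀ n : ℕ, ∀ p ∈ S, (∫ t in (0 : ℝ)..n, Ψ (φ t p)) - C ≤ 2 * f 1 n p - f 0 n p) :
    (∀ᵐ p ∂μ, ∀ i, ∃ l : ℝ, Tendsto (fun n : ℕ => f i n p / n) atTop (𝓝 l)) ∧
    ¬ ∀ᵐ p ∂μ, ∀ l₁ l₀ : ℝ, Tendsto (fun n : ℕ => f 1 n p / n) atTop (𝓝 l₁) →
      Tendsto (fun n : ℕ => f 0 n p / n) atTop (𝓝 l₀) → 2 * l₁ ≤ l₀ := by
  obtain ⟨χ, hχm, hχK, hχ⟩ :=
    exists_weight S hS act (fun a => (hact a).measurable) actS actmul K hK hKcov hKf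
  have hfin : ∫⁻ p, χ p ∂μ ≠ ⊤ := by
    refine ((lintegral_mono hχK).trans_lt ?_).ne
    rwa [lintegral_indicator_one hK]
  have hae : ∀ᵐ p ∂μ, p ∈ S := hSc
  have hit : ∀ m : ℕ, ∀ p ∈ S, (φ 1)^[m] p = φ m p := by
    intro m p hp
    induction m with
    | zero => simp [φ0 p hp]
    | succ m ih =>
      rw [Function.iterate_succ_apply', ih, ← φadd _ _ p hp]
      congr 1
      push_cast
      ring
  have part1 : ∀ᵐ p ∂μ, ∀ i, ∃ l : ℝ, Tendsto (fun n : ℕ => f i n p / n) atTop (𝓝 l) :=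
    ae_all_iff.2 fun i => ErgAux.kingman_quot μ S hS hSc act hact actS act1 actmul χ hχm hχ hfin
      (φ 1) (hφ 1) (φS 1) (fun a => comm a 1) C (f i) (fm i) (finv i)
      (fun m n p hp => by rw [hit m p hp]; exact fsub i m n p hp) (fb i)
  refine ⟨part1, fun hcon => ?_⟩
  set ν : Measure P := μ.withDensity χ with hν
  have : IsFiniteMeasure ν := isFiniteMeasure_withDensity hfin
  have hac : ν ≪ μ := withDensity_absolutelyContinuous μ χ
  have haeν : ∀ᵐ p ∂ν, p ∈ S := hac.ae_le hae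
  have Ψinv : ∀ b, ∀ p ∈ S, Ψ (act b p) = Ψ p := by
    intro b p hp
    rw [Ψsum _ (actS b p hp), Ψsum p hp]
    simp only [← actmul _ _ p hp]
    exact (Equiv.mulRight b).tsum_eq (fun a => Ψ₀ (act a p))
  set I := ∫ p, Ψ₀ p ∂μ with hI
  have hΨt : ∀ t, ∫ p, Ψ (φ t p) ∂ν = I := fun t =>
    (ErgAux.integral_weight_comp μ S hSc act hact act1 actmul χ hχm hχ hfin (φ t) (hφ t) (φS t)
      (fun a => comm a t) C Ψ Ψm Ψb Ψinv).trans
      (ErgAux.integral_unfold μ S hSc act hact act1 actmul χ hχm hχ Ψ Ψ₀ Ψ₀m Ψ₀i Ψf Ψsum)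
  -- Fubini
  have hprod : ∀ n : ℕ, Integrable (Function.uncurry fun (p : P) (t : ℝ) => Ψ (φ t p))
      (ν.prod (volume.restrict (Ioc (0 : ℝ) n))) := by
    intro n
    have hm : Measurable (Function.uncurry fun (p : P) (t : ℝ) => Ψ (φ t p)) :=
      Ψm.comp (hφm.comp measurable_swap)
    refine Integrable.of_bound hm.aestronglyMeasurable C ?_
    filter_upwards [Measure.quasiMeasurePreserving_fst.ae haeν] with q hq
    exact Ψb _ (φS _ _ hq)
  have hFub : ∀ n : ℕ, Integrable (fun p => ∫ t in (0 : ℝ)..n, Ψ (φ t p)) ν ∧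
      ∫ p, (∫ t in (0 : ℝ)..n, Ψ (φ t p)) ∂ν = n * I := by
    intro n
    have hn : (0 : ℝ) ≤ n := Nat.cast_nonneg n
    simp only [intervalIntegral.integral_of_le hn]
    refine ⟨(hprod n).integral_prod_left, ?_⟩
    rw [integral_integral_swap (hprod n)]
    simp [hΨt]
  -- the positive parts
  set g : ℕ → P → ℝ := fun n p => max ((2 * f 1 n p - f 0 n p) / n) 0 with hg
  have hgm : ∀ n, Measurable (g n) := fun n =>
    ((((fm 1 n).const_mul 2).sub (fm 0 n)).div_const _).max measurable_const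
  have hgb : ∀ n, ∀ p ∈ S, ‖g n p‖ ≤ 6 * |C| := by
    intro n p hp
    have hC : 0 ≤ |C| := abs_nonneg C
    rw [Real.norm_eq_abs, abs_of_nonneg (le_max_right _ _)]
    refine max_le ?_ (by positivity)
    rcases Nat.eq_zero_or_pos n with rfl | hn
    · simp
    · have hn' : (1 : ℝ) ≤ n := by exact_mod_cast hn
      rw [div_le_iff₀ (by linarith)]
      have h1 := (abs_le.1 (fb 1 n p hp)).2
      have h0 := (abs_le.1 (fb 0 n p hp)).1
      have h2 : C * (n + 1) ≤ |C| * (n + 1) := by gcongr; exact le_abs_self C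
      nlinarith
  have hlim : Tendsto (fun n => ∫ p, g n p ∂ν) atTop (𝓝 (∫ _p, (0 : ℝ) ∂ν)) := by
    refine tendsto_integral_of_dominated_convergence (fun _ => 6 * |C|)
      (fun n => (hgm n).aestronglyMeasurable) (integrable_const _)
      (fun n => haeν.mono fun p hp => hgb n p hp) ?_
    filter_upwards [hac.ae_le part1, hac.ae_le hcon] with p h1 h2
    obtain ⟨l₁, hl₁⟩ := h1 1
    obtain ⟨l₀, hl₀⟩ := h1 0
    have h3 := h2 l₁ l₀ hl₁ hl₀
    have h4 := ((hl₁.const_mul 2).sub hl₀).max (tendsto_const_nhds (x := (0 : ℝ)))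
    rw [max_eq_right (by linarith)] at h4
    refine h4.congr fun n => ?_
    simp only [hg]
    congr 1
    ring
  rw [integral_zero] at hlim
  have hlow' : ∀ n : ℕ, 1 ≤ n → I - C * ν.real univ / n ≤ ∫ p, g n p ∂ν := by
    intro n hn
    have hn' : (0 : ℝ) < n := by exact_mod_cast hn
    have h1 : ∫ p, ((∫ t in (0 : ℝ)..n, Ψ (φ t p)) - C) / n ∂ν = I - C * ν.real univ / n := by
      rw [integral_div, integral_sub (hFub n).1 (integrable_const _), (hFub n).2, integral_const,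
        smul_eq_mul]
      field_simp
    rw [← h1]
    refine integral_mono_ae (((hFub n).1.sub (integrable_const _)).div_const _)
      (Integrable.of_bound (hgm n).aestronglyMeasurable _ (haeν.mono fun p hp => hgb n p hp)) ?_
    filter_upwards [haeν] with p hp
    exact le_max_of_le_left (div_le_div_of_nonneg_right (hlow n p hp) hn'.le)
  have hlim2 : Tendsto (fun n : ℕ => I - C * ν.real univ / n) atTop (𝓝 (I - 0)) :=
    tendsto_const_nhds.sub (tendsto_const_div_atTop_nhds_zero_nat _)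
  have := le_of_tendsto_of_tendsto hlim2 hlim (eventually_atTop.2 ⟨1, hlow'⟩)
  linarith

end Pool.Agent.MP_019006_gt
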