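import Pool.Agent.MP_019006_gt.ErgPack

set_option autoImplicit false

open MeasureTheory Filter Topology Set Matrix
open scoped ENNReal

namespace Pool.Agent.MP_019006_gt

namespace ErgAux2

variable {P G : Type} [MeasurableSpace P] [Group G] [Countable G]

omit [Group G] in
/-- An invariant set that is null for the weighted measure is null. -/
theorem ae_not_mem (μ : Measure P) (S : Set P) (hSc : μ Sᶜ = 0)
    (act : G → P → P) (hact : ∀ a, MeasurePreserving (act a) μ μ)
    (χ : P → ℝ≥0∞) (hχm : Measurable χ) (hχ : ∀ p ∈ S, ∑' a, χ (act a p) = 1)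
    (A : Set P) (hA : MeasurableSet A) (hAi : ∀ a, ∀ p ∈ S, (act a p ∈ A ↔ p ∈ A))
    (hA0 : μ.withDensity χ A = 0) : ∀ᵐ p ∂μ, p ∉ A := by
  have hae : ∀ᵐ p ∂μ, p ∈ S := hSc
  have hνA : μ.withDensity χ A = ∫⁻ p, χ p * A.indicator 1 p ∂μ := by
    rw [← lintegral_indicator_one hA,
      lintegral_withDensity_eq_lintegral_mul _ hχm (measurable_one.indicator hA)]
    rfl
  rw [hνA] at hA0
  have hm : Measurable fun p => χ p * A.indicator 1 p := hχm.mul (measurable_one.indicator hA)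
  have h0 : ∀ a, ∀ᵐ p ∂μ, χ (act a p) * A.indicator 1 (act a p) = 0 := fun a =>
    (hact a).quasiMeasurePreserving.ae ((lintegral_eq_zero_iff hm).1 hA0)
  filter_upwards [hae, ae_all_iff.2 h0] with p hp h
  intro hpA
  have h1 := hχ p hp
  have h2 : ∀ a, χ (act a p) = 0 := fun a => by
    have := h a
    rwa [indicator_of_mem ((hAi a p hp).2 hpA), Pi.one_apply, mul_one] at this
  simp [h2] at h1

omit [Group G] in
/-- Two invariant measurable functions that agree for the weighted measure agree. -/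
theorem ae_eq_of_weight (μ : Measure P) (S : Set P) (hSc : μ Sᶜ = 0)
    (act : G → P → P) (hact : ∀ a, MeasurePreserving (act a) μ μ)
    (χ : P → ℝ≥0∞) (hχm : Measurable χ) (hχ : ∀ p ∈ S, ∑' a, χ (act a p) = 1)
    (u v : P → ℝ) (hu : Measurable u) (hv : Measurable v)
    (ui : ∀ a, ∀ p ∈ S, u (act a p) = u p) (vi : ∀ a, ∀ p ∈ S, v (act a p) = v p)
    (h : ∀ᵐ p ∂(μ.withDensity χ), u p = v p) : ∀ᵐ p ∂μ, u p = v p := by
  have := ae_not_mem μ S hSc act hact χ hχm hχ {p | u p = v p}ᶜ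
    (measurableSet_eq_fun hu hv).compl
    (fun a p hp => by simp only [mem_compl_iff, mem_ofPred_eq, ui a p hp, vi a p hp]) h
  filter_upwards [this] with p hp
  simpa using hp

/-- Recurrence on the quotient. -/
theorem recur (μ : Measure P) (S : Set P) (hS : MeasurableSet S) (hSc : μ Sᶜ = 0)
    (act : G → P → P) (hact : ∀ a, MeasurePreserving (act a) μ μ)
    (actS : ∀ a, ∀ p ∈ S, act a p ∈ S) (act1 : ∀ p ∈ S, act 1 p = p)
    (actmul : ∀ a b, ∀ p ∈ S, act (a * b) p = act a (act b p))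
    (χ : P → ℝ≥0∞) (hχm : Measurable χ) (hχ : ∀ p ∈ S, ∑' a, χ (act a p) = 1)
    (hfin : ∫⁻ p, χ p ∂μ ≠ ⊤)
    (T : P → P) (hT : MeasurePreserving T μ μ) (TS : ∀ p ∈ S, T p ∈ S)
    (comm : ∀ a, ∀ p ∈ S, T (act a p) = act a (T p))
    (A : Set P) (hA : MeasurableSet A) (hAi : ∀ a, ∀ p ∈ S, (act a p ∈ A ↔ p ∈ A)) :
    ∀ᵐ p ∂μ, p ∈ A → ∃ᶠ n : ℕ in atTop, T^[n] p ∈ A := by
  classical
  have hae : ∀ᵐ p ∂μ, p ∈ S := hSc
  set ν : Measure P := μ.withDensity χ with hν
  have : IsFiniteMeasure ν := isFiniteMeasure_withDensity hfin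
  have hle := ErgAux.invSigma_le S act
  set T' : P → P := S.piecewise T id with hT'
  have hT'm : Measurable T' := Measurable.piecewise hS hT.measurable measurable_id
  have hT'S : ∀ p ∈ S, T' p = T p := fun p hp => piecewise_eq_of_mem _ _ _ hp
  have hitS : ∀ m, ∀ p ∈ S, T'^[m] p = T^[m] p ∧ T^[m] p ∈ S := by
    intro m
    induction m with
    | zero => intro p hp; exact ⟨rfl, hp⟩
    | succ m ih =>
      intro p hp
      rw [Function.iterate_succ_apply', Function.iterate_succ_apply', (ih p hp).1,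
        hT'S _ (ih p hp).2]
      exact ⟨rfl, TS _ (ih p hp).2⟩
  have hT'0 : @Measurable P P (ErgAux.invSigma S act) (ErgAux.invSigma S act) T' := by
    intro A hA
    refine ⟨hT'm hA.1, fun a p hp => ?_⟩
    rw [mem_preimage, mem_preimage, hT'S _ (actS a p hp), hT'S _ hp, comm a p hp]
    exact hA.2 a _ (TS p hp)
  have hνA : ∀ A : Set P, MeasurableSet A → ν A = ∫⁻ p, χ p * A.indicator 1 p ∂μ := by
    intro A hA
    rw [← lintegral_indicator_one hA, hν,
      lintegral_withDensity_eq_lintegral_mul _ hχm (measurable_one.indicator hA)]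
    rfl
  have hpres : @MeasurePreserving P P (ErgAux.invSigma S act) (ErgAux.invSigma S act) T'
      (ν.trim hle) (ν.trim hle) := by
    refine @MeasurePreserving.mk P P (ErgAux.invSigma S act) (ErgAux.invSigma S act) _ _ _ hT'0 ?_
    refine @Measure.ext P (ErgAux.invSigma S act) _ _ fun A hA => ?_
    rw [@Measure.map_apply P P (ErgAux.invSigma S act) (ErgAux.invSigma S act) _ _ hT'0 _ hA,
      trim_measurableSet_eq hle (hT'0 hA), trim_measurableSet_eq hle hA,
      hνA _ (hT'm hA.1), hνA _ hA.1,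
      ← weight_lintegral_comp μ S hSc act hact act1 actmul χ hχm hχ T hT TS comm (A.indicator 1)
        (measurable_one.indicator hA.1) (fun a p hp => by
          by_cases h : p ∈ A
          · rw [indicator_of_mem h, indicator_of_mem ((hA.2 a p hp).2 h)]; rfl
          · rw [indicator_of_notMem h, indicator_of_notMem (fun h' => h ((hA.2 a p hp).1 h'))])]
    refine lintegral_congr_ae (hae.mono fun p hp => ?_)
    simp only []
    rw [← hT'S p hp]
    rfl
  have hcons := @MeasurePreserving.conservative P (ErgAux.invSigma S act) T' (ν.trim hle)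
    (isFiniteMeasure_trim hle) hpres
  have hA' : @MeasurableSet P (ErgAux.invSigma S act) A := ⟨hA, hAi⟩
  have key := @Conservative.ae_mem_imp_frequently_image_mem P (ErgAux.invSigma S act) T' A
    (ν.trim hle) hcons (@MeasurableSet.nullMeasurableSet P (ErgAux.invSigma S act) _ _ hA')
  obtain ⟨B, hsub, hB, hB0⟩ :=
    @exists_measurable_superset_of_null P (ErgAux.invSigma S act) (ν.trim hle) _ key
  rw [trim_measurableSet_eq hle hB] at hB0
  filter_upwards [hae, ae_not_mem μ S hSc act hact χ hχm hχ B hB.1 hB.2 hB0] with p hp h hpA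
  by_contra hcon
  refine h (hsub ?_)
  simp only [mem_compl_iff, mem_ofPred_eq, Classical.not_imp]
  refine ⟨hpA, fun h' => hcon (h'.mono fun n hn => ?_)⟩
  rwa [(hitS n p hp).1] at hn

end ErgAux2

theorem erg_pack2 {P G : Type} [MeasurableSpace P] [Group G] [Countable G] (μ : Measure P)
    [SFinite μ] (S : Set P) (hS : MeasurableSet S) (hSc : μ Sᶜ = 0)
    (act : G → P → P) (hact : ∀ a, MeasurePreserving (act a) μ μ)
    (actS : ∀ a, ∀ p ∈ S, act a p ∈ S) (act1 : ∀ p ∈ S, act 1 p = p)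
    (actmul : ∀ a b, ∀ p ∈ S, act (a * b) p = act a (act b p))
    (φ : ℝ → P → P) (hφ : ∀ t, MeasurePreserving (φ t) μ μ) (φS : ∀ t, ∀ p ∈ S, φ t p ∈ S)
    (φ0 : ∀ p ∈ S, φ 0 p = p) (φadd : ∀ t s, ∀ p ∈ S, φ (t + s) p = φ t (φ s p))
    (comm : ∀ a t, ∀ p ∈ S, φ t (act a p) = act a (φ t p))
    (K : Set P) (hK : MeasurableSet K) (hKfin : μ K < ⊤)
    (hKcov : ∀ p ∈ S, ∃ a, act a p ∈ K) (hKf : ∀ p ∈ S, {a | act a p ∈ K}.Finite) :
    (∀ (C : ℝ) (f : ℕ → P → ℝ), (∀ n, Measurable (f n)) →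
      (∀ n a, ∀ p ∈ S, f n (act a p) = f n p) →
      (∀ m n, ∀ p ∈ S, f (m + n) p ≤ f m p + f n (φ m p)) →
      (∀ n, ∀ p ∈ S, |f n p| ≤ C * (n + 1)) →
      ∀ᵐ p ∂μ, ∃ l : ℝ, Tendsto (fun n : ℕ => f n p / n) atTop (𝓝 l) ∧
        Tendsto (fun n : ℕ => f n (φ (-(n : ℝ)) p) / n) atTop (𝓝 l)) ∧
    ∀ A : Set P, MeasurableSet A → (∀ a, ∀ p ∈ S, act a p ∈ A ↔ p ∈ A) →
      ∀ᵐ p ∂μ, p ∈ A → ∃ᶠ n : ℕ in atTop, φ n p ∈ A := by
  obtain ⟨χ, hχm, hχK, hχ⟩ :=
    exists_weight S hS act (fun a => (hact a).measurable) actS actmul K hK hKcov hKf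
  have hfin : ∫⁻ p, χ p ∂μ ≠ ⊤ := by
    refine ((lintegral_mono hχK).trans_lt ?_).ne
    rwa [lintegral_indicator_one hK]
  have hae : ∀ᵐ p ∂μ, p ∈ S := hSc
  have hit : ∀ m : ℕ, ∀ p ∈ S, (φ 1)^[m] p = φ m p := by
    intro m p hp
    induction m with
    | zero => simp [φ0 p hp]
    | succ m ih =>
      rw [Function.iterate_succ_apply', ih, ← φadd _ _ p hp]
      congr 1
      push_cast
      ring
  have hit' : ∀ m : ℕ, ∀ p ∈ S, (φ (-1))^[m] p = φ (-(m : ℝ)) p := by
    intro m p hp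
    induction m with
    | zero => simp [φ0 p hp]
    | succ m ih =>
      rw [Function.iterate_succ_apply', ih, ← φadd _ _ p hp]
      congr 1
      push_cast
      ring
  refine ⟨fun C f fm finv fsub fb => ?_, fun A hA hAi => ?_⟩
  swap
  · filter_upwards [hae, ErgAux2.recur μ S hS hSc act hact actS act1 actmul χ hχm hχ hfin
      (φ 1) (hφ 1) (φS 1) (fun a => comm a 1) A hA hAi] with p hp h hpA
    exact (h hpA).mono fun n hn => by rwa [hit n p hp] at hn
  set ν : Measure P := μ.withDensity χ with hν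
  have : IsFiniteMeasure ν := isFiniteMeasure_withDensity hfin
  have hac : ν ≪ μ := withDensity_absolutelyContinuous μ χ
  have haeν : ∀ᵐ p ∂ν, p ∈ S := hac.ae_le hae
  set g : ℕ → P → ℝ := fun n p => f n (φ (-(n : ℝ)) p) with hg
  have gm : ∀ n, Measurable (g n) := fun n => (fm n).comp (hφ _).measurable
  have ginv : ∀ n a, ∀ p ∈ S, g n (act a p) = g n p := by
    intro n a p hp
    simp only [hg]
    rw [comm a _ p hp, finv n a _ (φS _ p hp)]
  have gb : ∀ n, ∀ p ∈ S, |g n p| ≤ C * (n + 1) := fun n p hp => fb n _ (φS _ p hp)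
  have gsub : ∀ m n, ∀ p ∈ S, g (m + n) p ≤ g m p + g n ((φ (-1))^[m] p) := by
    intro m n p hp
    rw [hit' m p hp]
    simp only [hg]
    have h1 := fsub n m (φ (-((m + n : ℕ) : ℝ)) p) (φS _ p hp)
    rw [← φadd _ _ p hp, add_comm n m] at h1
    rw [← φadd _ _ p hp]
    have e1 : (n : ℝ) + -((m + n : ℕ) : ℝ) = -(m : ℝ) := by push_cast; ring
    have e2 : -(n : ℝ) + -(m : ℝ) = -((m + n : ℕ) : ℝ) := by push_cast; ring
    rw [e1] at h1
    rw [e2]
    linarith
  have lim1 : ∀ᵐ p ∂μ, ∃ l : ℝ, Tendsto (fun n : ℕ => f n p / n) atTop (𝓝 l) :=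
    ErgAux.kingman_quot μ S hS hSc act hact actS act1 actmul χ hχm hχ hfin
      (φ 1) (hφ 1) (φS 1) (fun a => comm a 1) C f fm finv
      (fun m n p hp => by rw [hit m p hp]; exact fsub m n p hp) fb
  have lim2 : ∀ᵐ p ∂μ, ∃ l : ℝ, Tendsto (fun n : ℕ => g n p / n) atTop (𝓝 l) :=
    ErgAux.kingman_quot μ S hS hSc act hact actS act1 actmul χ hχm hχ hfin
      (φ (-1)) (hφ (-1)) (φS (-1)) (fun a => comm a (-1)) C g gm ginv gsub gb
  set L : P → ℝ := fun p => Kingman.lo (fun n => f n p) with hL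
  set L' : P → ℝ := fun p => Kingman.lo (fun n => g n p) with hL'
  have Lm : Measurable L := Kingman.lo_meas fm
  have L'm : Measurable L' := Kingman.lo_meas gm
  have Linv : ∀ a, ∀ p ∈ S, L (act a p) = L p := by
    intro a p hp
    simp only [hL, finv _ a p hp]
  have L'inv : ∀ a, ∀ p ∈ S, L' (act a p) = L' p := by
    intro a p hp
    simp only [hL', ginv _ a p hp]
  have Lb : ∀ p ∈ S, |L p| ≤ 2 * C := fun p hp => Kingman.lo_abs fun n => fb n p hp
  have tL : ∀ᵐ p ∂μ, Tendsto (fun n : ℕ => f n p / n) atTop (𝓝 (L p)) := by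
    filter_upwards [lim1] with p ⟨l, hl⟩
    have : L p = l := hl.liminf_eq
    rwa [this]
  have tL' : ∀ᵐ p ∂μ, Tendsto (fun n : ℕ => g n p / n) atTop (𝓝 (L' p)) := by
    filter_upwards [lim2] with p ⟨l, hl⟩
    have : L' p = l := hl.liminf_eq
    rwa [this]
  -- invariance of the forward limit
  have Lle : ∀ p ∈ S, L p ≤ L (φ 1 p) := by
    intro p hp
    refine Kingman.lo_mono (fun n => fb n p hp) (fun n => fb n _ (φS 1 p hp)) 1 0 (f 1 p)
      fun n => ?_
    have := fsub 1 n p hp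
    rw [add_comm 1 n, Nat.cast_one] at this
    simp only [add_zero]
    linarith
  have Li : Integrable L ν :=
    Integrable.of_bound Lm.aestronglyMeasurable _ (haeν.mono fun p hp => Lb p hp)
  have Li1 : Integrable (fun p => L (φ 1 p)) ν :=
    Integrable.of_bound (Lm.comp (hφ 1).measurable).aestronglyMeasurable _
      (haeν.mono fun p hp => Lb _ (φS 1 p hp))
  have Leq1 : ∀ᵐ p ∂μ, L p = L (φ 1 p) := by
    refine ErgAux2.ae_eq_of_weight μ S hSc act hact χ hχm hχ L (fun p => L (φ 1 p)) Lm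
      (Lm.comp (hφ 1).measurable) Linv (fun a p hp => ?_) ?_
    · rw [comm a 1 p hp, Linv a _ (φS 1 p hp)]
    · refine (integral_eq_iff_of_ae_le Li Li1 (haeν.mono fun p hp => Lle p hp)).1 ?_
      exact (ErgAux.integral_weight_comp μ S hSc act hact act1 actmul χ hχm hχ hfin (φ 1) (hφ 1)
        (φS 1) (fun a => comm a 1) (2 * C) L Lm Lb Linv).symm
  have Leqn : ∀ n : ℕ, ∀ᵐ p ∂μ, L (φ (-(n : ℝ)) p) = L p := by
    intro n
    induction n with
    | zero =>
      filter_upwards [hae] with p hp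
      simp [φ0 p hp]
    | succ n ih =>
      filter_upwards [hae, ih, (hφ (-((n + 1 : ℕ) : ℝ))).quasiMeasurePreserving.ae Leq1]
        with p hp h1 h2
      rw [h2, ← φadd _ _ p hp, ← h1]
      congr 2
      push_cast
      ring
  -- the two integrals
  have bd : ∀ (u : ℕ → P → ℝ), (∀ n, ∀ p ∈ S, |u n p| ≤ C * (n + 1)) →
      ∀ n : ℕ, ∀ p ∈ S, |(|u n p / n - L p|)| ≤ 4 * C := by
    intro u hu n p hp
    rw [abs_abs]
    have h1 := Kingman.div_bdd (fun n => hu n p hp) n
    have h2 := Lb p hp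
    have h3 := abs_sub (u n p / n) (L p)
    linarith
  have m1 : ∀ n : ℕ, Measurable fun p => |f n p / n - L p| := fun n =>
    (((fm n).div_const _).sub Lm).abs
  have m2 : ∀ n : ℕ, Measurable fun p => |g n p / n - L p| := fun n =>
    (((gm n).div_const _).sub Lm).abs
  have t1 : Tendsto (fun n : ℕ => ∫ p, |f n p / n - L p| ∂ν) atTop (𝓝 (∫ _p, (0 : ℝ) ∂ν)) := by
    refine tendsto_integral_of_dominated_convergence (fun _ => 4 * C)
      (fun n => (m1 n).aestronglyMeasurable) (integrable_const _)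
      (fun n => haeν.mono fun p hp => bd f fb n p hp) ?_
    filter_upwards [hac.ae_le tL] with p h1
    have := (h1.sub_const (L p)).abs
    simpa using this
  have t2 : Tendsto (fun n : ℕ => ∫ p, |g n p / n - L p| ∂ν) atTop
      (𝓝 (∫ p, |L' p - L p| ∂ν)) := by
    refine tendsto_integral_of_dominated_convergence (fun _ => 4 * C)
      (fun n => (m2 n).aestronglyMeasurable) (integrable_const _)
      (fun n => haeν.mono fun p hp => bd g gb n p hp) ?_
    filter_upwards [hac.ae_le tL'] with p h1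
    exact (h1.sub_const (L p)).abs
  have e12 : ∀ n : ℕ, ∫ p, |f n p / n - L p| ∂ν = ∫ p, |g n p / n - L p| ∂ν := by
    intro n
    rw [← ErgAux.integral_weight_comp μ S hSc act hact act1 actmul χ hχm hχ hfin (φ (-(n : ℝ)))
      (hφ _) (φS _) (fun a => comm a _) (4 * C) (fun p => |f n p / n - L p|) (m1 n)
      (bd f fb n) (fun a p hp => by simp only [finv n a p hp, Linv a p hp])]
    refine integral_congr_ae ?_
    filter_upwards [hac.ae_le (Leqn n)] with p h1
    simp only [hg, h1]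
  rw [integral_zero] at t1
  simp only [e12] at t1
  have e0 : ∫ p, |L' p - L p| ∂ν = 0 := tendsto_nhds_unique t2 t1
  have L'b : ∀ p ∈ S, |L' p| ≤ 2 * C := fun p hp => Kingman.lo_abs fun n => gb n p hp
  have L'i : Integrable L' ν :=
    Integrable.of_bound L'm.aestronglyMeasurable _ (haeν.mono fun p hp => L'b p hp)
  have e1 : ∀ᵐ p ∂ν, L' p = L p := by
    have := (integral_eq_zero_iff_of_nonneg (fun p => abs_nonneg (L' p - L p))
      (L'i.sub Li).abs).1 e0
    filter_upwards [this] with p hp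
    exact sub_eq_zero.1 (abs_eq_zero.1 hp)
  have e2 : ∀ᵐ p ∂μ, L' p = L p :=
    ErgAux2.ae_eq_of_weight μ S hSc act hact χ hχm hχ L' L L'm Lm L'inv Linv e1
  filter_upwards [tL, tL', e2] with p h1 h2 h3
  exact ⟨L p, h1, h3 ▸ h2⟩

end Pool.Agent.MP_019006_gt
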