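import Pool.Agent.MP_019006_gt.Ergodic1
import Pool.Agent.MP_019006_gt.ExpMap
import Pool.Agent.MP_019006_gt.Visib
import Pool.Agent.MP_019006_gt.Approx
import Pool.Agent.MP_019006_gt.Compare

set_option autoImplicit false

open MeasureTheory Filter Topology Set Matrix

namespace Pool.Agent.MP_019006_gt

namespace Erg

open Fib

variable {f : EE → ℝ} {φ : Flo} {M : DFlo} {V : EE → EE → EE}

theorem contOn_flow (h : Ctx f φ M) (t : ℝ) : ContinuousOn (φ t) OO :=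
  h.flow.cont.comp (f := fun p => (t, p)) (by fun_prop) fun _ hp => ⟨mem_univ _, hp⟩

theorem meas_flow (h : Ctx f φ M) (t : ℝ) : Measurable (φ t) :=
  (h.flow.measurable isOpen_OO).comp (measurable_const.prodMk measurable_id)

theorem pres (h : Ctx f φ M) (t : ℝ) : MeasurePreserving (φ t) (liou f OO) (liou f OO) :=
  flow_measurePreserving h.conf.smooth h.flow isOpen_OO.measurableSet Subset.rfl
    (fun t p hp => h.flow.mem t p hp) t

theorem thin_scale (h : Ctx f φ M) {S : Set (EE × EE)} (hS : MeasurableSet S)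
    (hs : ∀ c : ℝ, 0 < c → ∀ p : EE × EE, p.1 ∈ Bl → ((p.1, c • p.2) ∈ S ↔ p ∈ S))
    (hfin : liou f OO (S ∩ thin f 0 1) ≠ ⊤) {a b : ℝ} (ha : 0 ≤ a) (hab : a ≤ b) :
    liou f OO (S ∩ thin f a b) = ENNReal.ofReal (b ^ 4 - a ^ 4) * liou f OO (S ∩ thin f 0 1) := by
  have e : ∀ a b, ∫⁻ p in thin f a b, S.indicator 1 p ∂(liou f OO) = liou f OO (S ∩ thin f a b) :=
    fun a b => by rw [lintegral_indicator_one hS, Measure.restrict_apply hS]
  rw [← e, ← e, lintegral_thin h.conf _ (measurable_one.indicator hS) ?_ a b ha hab (by rwa [e])]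
  intro c hc p hp
  by_cases h1 : p ∈ S
  · rw [indicator_of_mem h1, indicator_of_mem ((hs c hc p hp).2 h1)]; rfl
  · rw [indicator_of_notMem h1, indicator_of_notMem fun h2 => h1 ((hs c hc p hp).1 h2)]

theorem mid_facts (h : Ctx f φ M) (hV : IsLog φ V) {p : EE × EE} (hm : (φ (1 / 2) p).1 ∈ Bl)
    (h0 : (φ (1 / 2) p).2 ≠ 0) : p.1 ∈ Bl ∧ p.2 ≠ 0 ∧
      p.1 = (φ (-(√(en f p) / 2)) (nrm f (φ (1 / 2) p))).1 ∧
      (φ 1 p).1 = (φ (√(en f p) / 2) (nrm f (φ (1 / 2) p))).1 ∧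
      dd f V (φ (1 / 2) p).1 p.1 = √(en f p) / 2 ∧
      dd f V (φ (1 / 2) p).1 (φ 1 p).1 = √(en f p) / 2 := by
  have hp : p.1 ∈ Bl := by
    by_contra hn
    rw [h.flow.junk _ _ fun h' => hn (mem_OO.1 h')] at hm
    exact hn hm
  have he := en_flow h.conf.smooth h.flow (1 / 2) p
  have hp0 : p.2 ≠ 0 := ne_of_en (he ▸ en_pos f hm h0)
  have e1 : φ (1 / 2) (φ (1 / 2) p) = φ 1 p := by rw [← h.flow.add]; norm_num
  have e2 : φ (-(1 / 2)) (φ (1 / 2) p) = p := by rw [← h.flow.add]; simp [h.flow.zero]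
  refine ⟨hp, hp0, ?_, ?_, ?_, ?_⟩
  · have := fst_nrm h (-(1 / 2)) hm h0
    rwa [e2, he, show √(en f p) * -(1 / 2) = -(√(en f p) / 2) by ring] at this
  · have := fst_nrm h (1 / 2) hm h0
    rwa [e1, he, show √(en f p) * (1 / 2) = √(en f p) / 2 by ring] at this
  · rw [(log_rev h hV hm hp).2.1, (dir_eq h hV hp hp0 (by norm_num)).1]; ring
  · have := (dir_eq h hV hm h0 (σ := 1 / 2) (by norm_num)).1
    rw [e1, he] at this
    rw [this]; ring

theorem key (h : Ctx f φ M) (hV : IsLog φ V)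
    {Λ : ℝ} {G : Type} [Group G] [Countable G] {ρ : G →* C3} (hρ : IsLattice Λ G ρ)
    (hf : ∀ a, ∀ x ∈ Bl, f (mob (ρ a) x) = f x) {A : Set (EE × EE)} (hA : InvSet ρ φ A)
    {δ T : ℝ} (hδ : 0 < δ) {x : EE} (hxδ : δ ≤ Dd x) {N : Set (EE × EE)} (hN : MeasurableSet N)
    (hN1 : ∀ p ∈ N, p.2 ≠ 0 ∧ δ ≤ Dd p.1)
    (hN2 : ∀ c : ℝ, 0 < c → ∀ p : EE × EE, p.1 ∈ Bl → ((p.1, c • p.2) ∈ N ↔ p ∈ N))
    (hvis : ∀ p ∈ N, ∀ p' ∈ N, ∀ s t : ℝ, T ≤ s → T ≤ t → ∃ σ ∈ Icc (0 : ℝ) 1,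
      δ ≤ Dd (φ σ ((φ (-s) (nrm f p)).1, V (φ (-s) (nrm f p)).1 (φ t (nrm f p')).1)).1) :
    liou f OO (N ∩ A ∩ thin f 0 1) = 0 ∨ liou f OO (N \ A ∩ thin f 0 1) = 0 := by
  have hx := mem_Bl_of hδ hxδ
  have fin : ∀ S ⊆ N, liou f OO (S ∩ thin f 0 1) ≠ ⊤ := fun S hS =>
    ne_top_of_le_ne_top (liou_fin h.conf hδ).ne (measure_mono fun p hp =>
      ⟨(hN1 p (hS hp.1)).2, by simpa using hp.2.2.2⟩)
  have f1 := fin _ (inter_subset_left (t := A))
  have f2 := fin _ (diff_subset (t := A))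
  obtain ⟨C₀, hC₀⟩ := dd_lip h hV δ hδ
  set C₁ := |C₀| with hC₁
  have hC1 : 0 ≤ C₁ := abs_nonneg _
  set L := 2 * C₁ + 1 with hL
  obtain ⟨C, R₀, δ', hC, hδ', hJ⟩ := jac_compare h hV hρ hf (δ / 2) L (by linarith) (by linarith)
    (x := x) (by linarith)
  obtain ⟨R₁, hfar⟩ := exists_far h hV hδ
  obtain ⟨k, hk, hAn⟩ := annulus h.conf hx
  set c₁ := k * (32 * (L + 1)) with hc₁
  set c₂ := C * (108 * (2 * C + 1)) with hc₂
  have c10 : 0 ≤ c₁ := by positivity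
  have c20 : 0 ≤ c₂ := by positivity
  let ex : EE → EE := fun a => (φ 1 (x, a)).1
  have exB : ∀ a, ex a ∈ Bl := fun a => fl_mem h 1 hx
  have exc : Continuous ex := continuous_fst.comp ((contOn_flow h 1).comp_continuous
    (by fun_prop) fun a => mem_OO.2 hx)
  let Θ : EE × EE → EE × EE := fun q => (ex q.1, V (ex q.1) (ex q.2))
  have Θm : Measurable Θ := ((exc.comp continuous_fst).prodMk (hV.cont.comp_continuous
    (f := fun q : EE × EE => (ex q.1, ex q.2)) (by fun_prop) fun q => ⟨exB _, exB _⟩)).measurable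
  have ddex : ∀ a, dd f V x (ex a) = √(en f (x, a)) := fun a => by
    simp only [dd, ex, hV.left x hx a]
  have dx : ContinuousOn (dd f V x) Bl :=
    ((contOn_en h.conf).comp (continuousOn_const.prodMk (hV.cont.comp (f := fun y => (x, y))
      (by fun_prop) fun y hy => ⟨hx, hy⟩)) fun y _ => mem_OO.2 hx).sqrt
  suffices (liou f OO (N ∩ A ∩ thin f 0 1)).toReal * (liou f OO (N \ A ∩ thin f 0 1)).toReal ≤ 0 by
    have h1 := le_antisymm this (by positivity)
    rw [mul_eq_zero, ENNReal.toReal_eq_zero_iff, ENNReal.toReal_eq_zero_iff] at h1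
    tauto
  refine le_of_forall_pos_le_add fun η hη => ?_
  set D := C ^ 2 * (4 * c₂ * c₁ ^ 2 + 2 * c₁ ^ 4) + 1 with hD
  have hD0 : 0 < D := by positivity
  set ε := η / D with hε
  have hε0 : 0 < ε := by positivity
  obtain ⟨u, um, us, uc, ua⟩ := approx h hρ hf hA δ' ε hδ' hε0
  obtain ⟨κ, hκ, uc⟩ := uc ε hε0
  obtain ⟨R, r0, r1, r2, r3, r4, r5⟩ : ∃ R, R₀ ≤ R ∧ T ≤ R ∧ R₁ ≤ R ∧ C + 1 ≤ R ∧ L ≤ R ∧
      C₁ * Real.exp (-R) ≤ κ := by
    have := (Real.tendsto_exp_neg_atTop_nhds_zero.const_mul C₁).eventually_le_const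
      (show C₁ * 0 < κ by simpa using hκ)
    exact ((eventually_ge_atTop _).and ((eventually_ge_atTop _).and ((eventually_ge_atTop _).and
      ((eventually_ge_atTop _).and ((eventually_ge_atTop _).and this))))).exists
  have R2 : 2 ≤ R := by linarith
  obtain ⟨An, An1, An2, An3⟩ := hAn (R - 1) (R + L) (by linarith) (by linarith)
  have An4 : volume An ≤ ENNReal.ofReal (c₁ * R ^ 3) := by
    refine An2.trans (ENNReal.ofReal_le_ofReal ?_)
    rw [hc₁, mul_assoc]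
    refine mul_le_mul_of_nonneg_left ((quart_le (by linarith) (by linarith)).trans ?_) hk
    have : (R + L) ^ 3 ≤ (2 * R) ^ 3 := by gcongr; linarith
    nlinarith
  let PQ : Set (EE × EE) := (OO ∩ (fun p => dd f V x p.1) ⁻¹' Icc R (R + L)) ∩
    (OO ∩ (fun p => dd f V x (φ 1 p).1) ⁻¹' Icc R (R + L)) ∩
    ⋃ σ ∈ Icc (0 : ℝ) 1, OO ∩ (fun p => Dd (φ σ p).1) ⁻¹' Ioi (δ / 2)
  have PQm : MeasurableSet PQ := by
    refine ((meas_on isOpen_OO (dx.comp continuousOn_fst fun p hp => mem_OO.1 hp)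
      measurableSet_Icc).inter (meas_on isOpen_OO (dx.comp (continuous_fst.comp_continuousOn
      (contOn_flow h 1)) fun p hp => fl_mem h 1 (mem_OO.1 hp)) measurableSet_Icc)).inter ?_
    exact (isOpen_biUnion fun σ _ => ((cont_Dd.comp continuous_fst).comp_continuousOn
      (contOn_flow h σ)).isOpen_inter_preimage isOpen_OO isOpen_Ioi).measurableSet
  have PQi : ∀ p : EE × EE, p.1 ∈ Bl → dd f V x p.1 ∈ Icc R (R + L) →
      dd f V x (φ 1 p).1 ∈ Icc R (R + L) → ∀ σ ∈ Icc (0 : ℝ) 1, δ ≤ Dd (φ σ p).1 → p ∈ PQ :=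
    fun p h1 h2 h3 σ h4 h5 => ⟨⟨⟨mem_OO.2 h1, h2⟩, mem_OO.2 h1, h3⟩,
      mem_biUnion h4 ⟨mem_OO.2 h1, show δ / 2 < _ by linarith⟩⟩
  have PQj := fun p (hp : p ∈ PQ) => hJ R r0 p (mem_OO.1 hp.1.1.1) hp.1.1.2 hp.1.2.2 (by
    obtain ⟨σ, h1, h2⟩ := mem_iUnion₂.1 hp.2
    exact ⟨σ, h1, le_of_lt h2.2⟩)
  set s₁ := 2 * R + L - 1 with hs₁
  set s₂ := 2 * R + L with hs₂
  have TR : ∀ p, φ (1 / 2) p ∈ N ∩ thin f s₁ s₂ → 2 * R ≤ √(en f p) ∧
      dd f V x p.1 ∈ Icc R (R + L) ∧ dd f V x (φ 1 p).1 ∈ Icc R (R + L) := by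
    rintro p ⟨h1, h2, h3, h4⟩
    obtain ⟨a1, -, -, -, a5, a6⟩ := mid_facts h hV h2 (hN1 _ h1).1
    rw [en_flow h.conf.smooth h.flow] at h3 h4
    have b1 : s₁ < √(en f p) := (Real.lt_sqrt (by linarith)).2 h3
    have b2 : √(en f p) ≤ s₂ := (Real.sqrt_le_left (by linarith)).2 h4
    have b3 : ∀ y ∈ Bl, dd f V (φ (1 / 2) p).1 y = √(en f p) / 2 → dd f V x y ∈ Icc R (R + L) := by
      intro y hy e
      have := (hC₀ y hy (hfar _ y hy (hN1 _ h1).2 (by linarith)) x _ hxδ (hN1 _ h1).2).1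
      rw [(log_rev h hV hy h2).2.1, (log_rev h hV hy hx).2.1, e, abs_le] at this
      exact ⟨by linarith [le_abs_self C₀, this.1], by linarith [le_abs_self C₀, this.2]⟩
    exact ⟨by linarith, b3 _ a1 a5, b3 _ (fl_mem h 1 a1) a6⟩
  have low : ∀ S ⊆ N, MeasurableSet S →
      (∀ c : ℝ, 0 < c → ∀ p : EE × EE, p.1 ∈ Bl → ((p.1, c • p.2) ∈ S ↔ p ∈ S)) →
      ENNReal.ofReal (R ^ 6 / C * (liou f OO (S ∩ thin f 0 1)).toReal) ≤
        (volume : Measure EE).prod volume (Θ ⁻¹' (φ (1 / 2) ⁻¹' (S ∩ thin f s₁ s₂))) := by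
    intro S hS hSm hSs
    have m0 := hSm.inter (meas_thin h.conf s₁ s₂)
    have m1 := meas_flow h (1 / 2) m0
    rw [← lintegral_indicator_one (Θm m1)]
    refine le_trans ?_ (le_of_eq (lintegral_pairs h hV hx _ (measurable_one.indicator m1)).symm)
    calc _ ≤ ENNReal.ofReal (R ^ 3 / C) * liou f OO (φ (1 / 2) ⁻¹' (S ∩ thin f s₁ s₂)) := by
          rw [(pres h _).measure_preimage m0.nullMeasurableSet,
            thin_scale h hSm hSs (fin S hS) (a := s₁) (b := s₂) (by linarith) (by linarith),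
            ENNReal.ofReal_mul (by positivity), ENNReal.ofReal_toReal (fin S hS), ← mul_assoc,
            ← ENNReal.ofReal_mul (by positivity)]
          refine mul_le_mul_left (ENNReal.ofReal_le_ofReal ?_) _
          rw [show R ^ 6 / C = R ^ 3 / C * R ^ 3 by ring]
          refine mul_le_mul_of_nonneg_left ?_ (by positivity)
          have e1 : R ^ 3 ≤ s₁ ^ 3 := by gcongr; linarith
          have e2 : 0 ≤ s₁ := by linarith
          rw [show s₂ = s₁ + 1 by linarith]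
          nlinarith [pow_nonneg e2 3, pow_nonneg e2 2]
      _ ≤ _ := by
          rw [← lintegral_indicator_one m1, ← lintegral_const_mul _ (measurable_one.indicator m1)]
          refine lintegral_mono fun p => ?_
          by_cases hp : p ∈ φ (1 / 2) ⁻¹' (S ∩ thin f s₁ s₂)
          · have b := TR p ⟨hS hp.1, hp.2⟩
            have b1 := (mid_facts h hV hp.2.1 (hN1 _ (hS hp.1)).1).1
            simp only [indicator_of_mem hp, Pi.one_apply, mul_one, one_mul]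
            exact ENNReal.ofReal_le_ofReal (PQj p (PQi p b1 b.2.1 b.2.2 (1 / 2)
              ⟨by norm_num, by norm_num⟩ (hN1 _ (hS hp.1)).2)).1
          · simp only [indicator_of_notMem hp, mul_zero, zero_le]
  let e : EE × EE → ENNReal := fun p => ENNReal.ofReal |A.indicator 1 p - u p|
  have em : Measurable e := ((measurable_one.indicator hA.meas).sub um).abs.ennreal_ofReal
  let E : ℝ → EE × EE → ENNReal := fun t => PQ.indicator fun p => e (φ t p)
  have Em : ∀ t, Measurable (E t) := fun t => (em.comp (meas_flow h t)).indicator PQm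
  have up : ∀ t, ∫⁻ q, E t (Θ q) ∂(volume : Measure EE).prod volume ≤
      ENNReal.ofReal (c₂ * ε * R ^ 6) := by
    intro t
    have m0 : MeasurableSet (thin f (2 * R - C - 1) (2 * R + C) ∩ {p | δ' ≤ Dd p.1}) :=
      (meas_thin h.conf (2 * R - C - 1) (2 * R + C)).inter (isClosed_le (continuous_const (y := δ')) (cont_Dd.comp continuous_fst)).measurableSet
    have m1 := (em.comp (meas_flow h (t - 1 / 2))).indicator m0
    refine le_trans (le_of_eq (lintegral_pairs h hV hx _ (Em t))) ?_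
    calc _ ≤ ∫⁻ p, ENNReal.ofReal (C * R ^ 3) * (thin f (2 * R - C - 1) (2 * R + C) ∩
            {p | δ' ≤ Dd p.1}).indicator (e ∘ φ (t - 1 / 2)) (φ (1 / 2) p) ∂liou f OO := by
          refine lintegral_mono fun p => ?_
          by_cases hp : p ∈ PQ
          · obtain ⟨-, b2, b3, b4⟩ := PQj p hp
            have hB := mem_OO.1 hp.1.1.1
            rw [abs_le] at b3
            have b5 : φ (1 / 2) p ∈ thin f (2 * R - C - 1) (2 * R + C) ∩ {p | δ' ≤ Dd p.1} := by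
              refine ⟨⟨fl_mem h _ hB, ?_, ?_⟩, b4⟩ <;> rw [en_flow h.conf.smooth h.flow]
              · exact (Real.lt_sqrt (by linarith)).1 (by linarith [b3.1])
              · exact (Real.sqrt_le_left (by linarith)).1 (by linarith [b3.2])
            simp only [E, indicator_of_mem hp, indicator_of_mem b5, Function.comp, ← h.flow.add,
              sub_add_cancel]
            rw [mul_comm]
            exact mul_le_mul_left (ENNReal.ofReal_le_ofReal b2) _
          · simp [E, indicator_of_notMem hp]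
      _ ≤ ENNReal.ofReal (C * R ^ 3) *
            ENNReal.ofReal (ε * ((2 * R + C) ^ 4 - (2 * R - C - 1) ^ 4)) := by
          rw [lintegral_const_mul' _ _ ENNReal.ofReal_ne_top, (pres h _).lintegral_comp m1,
            lintegral_indicator m0]
          exact mul_le_mul_right (ua (t - 1 / 2) _ _ (by linarith) (by linarith)) _
      _ ≤ _ := by
          rw [← ENNReal.ofReal_mul (by positivity)]
          refine ENNReal.ofReal_le_ofReal ?_
          have e1 := quart_le (a := 2 * R - C - 1) (b := 2 * R + C) (by linarith) (by linarith)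
          have e2 : (2 * R + C) ^ 3 ≤ (3 * R) ^ 3 := by gcongr; linarith
          have e3 : (2 * R + C) ^ 4 - (2 * R - C - 1) ^ 4 ≤ 108 * (2 * C + 1) * R ^ 3 := by nlinarith
          calc _ ≤ C * R ^ 3 * (ε * (108 * (2 * C + 1) * R ^ 3)) := by gcongr
            _ = _ := by rw [hc₂]; ring
  have four := four_point (volume : Measure EE) An1
    (S₁ := Θ ⁻¹' (φ (1 / 2) ⁻¹' (N ∩ A ∩ thin f s₁ s₂)))
    (S₂ := Θ ⁻¹' (φ (1 / 2) ⁻¹' (N \ A ∩ thin f s₁ s₂)))
    (E := fun q => E 0 (Θ q)) (E' := fun q => E 1 (Θ q)) ((Em 0).comp Θm) ((Em 1).comp Θm)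
    (ENNReal.ofReal (2 * ε)) (by
      intro a b a' b' hp hp'
      have ΘB : ∀ a b, (Θ (a, b)).1 ∈ Bl := fun a b => exB a
      have n1 := hN1 _ hp.1.1
      have n2 := hN1 _ hp'.1.1
      obtain ⟨t1, t2, t3⟩ := TR _ ⟨hp.1.1, hp.2⟩
      obtain ⟨t1', t2', t3'⟩ := TR _ ⟨hp'.1.1, hp'.2⟩
      obtain ⟨-, a2, a3, -⟩ := mid_facts h hV hp.2.1 n1.1
      obtain ⟨-, a2', -, a4', -⟩ := mid_facts h hV hp'.2.1 n2.1
      have z : ∀ a b, (φ 1 (Θ (a, b))).1 = ex b := fun a b => hV.right _ (exB a) _ (exB b)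
      rw [z] at t3 t3' a4'
      have inAn : ∀ a, dd f V x (ex a) ∈ Icc R (R + L) → a ∈ An := fun a ha => by
        rw [ddex] at ha
        exact An3 a (by linarith [ha.1]) ha.2
      refine ⟨⟨inAn _ t2, inAn _ t3, inAn _ t2', inAn _ t3'⟩, ?_⟩
      obtain ⟨σ, hσ, hσ'⟩ := hvis _ hp.1.1 _ hp'.1.1 (√(en f (Θ (a, b))) / 2)
        (√(en f (Θ (a', b'))) / 2) (by linarith) (by linarith)
      rw [← a3, ← a4'] at hσ'
      have q1 := PQi (Θ (a, b)) (exB a) t2 (by rwa [z]) (1 / 2) ⟨by norm_num, by norm_num⟩ n1.2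
      have q2 := PQi (Θ (a', b')) (exB a') t2' (by rwa [z]) (1 / 2) ⟨by norm_num, by norm_num⟩ n2.2
      have q3 := PQi (Θ (a, b')) (exB a) t2 (by rwa [z]) σ hσ hσ'
      have en3 : 0 < en f (Θ (a, b')) :=
        Real.sqrt_pos.1 (by linarith [(abs_le.1 (PQj _ q3).2.2.1).1])
      have lip : ∀ y ∈ Bl, dd f V x y ∈ Icc R (R + L) → (∀ m, δ ≤ Dd m → 1 ≤ dd f V y m) ∧
          ∀ m m', δ ≤ Dd m → δ ≤ Dd m' →
          gg f y (dir f V y m - dir f V y m') (dir f V y m - dir f V y m') ≤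
            C₁ * Real.exp (-dd f V y m) := fun y hy h1 => by
        have h2 := hfar x y hy hxδ (by linarith [h1.1])
        exact ⟨h2, fun m m' h3 h4 => (hC₀ y hy h2 m m' h3 h4).2.trans
          (mul_le_mul_of_nonneg_right (le_abs_self _) (Real.exp_pos _).le)⟩
      have u1 := u_cmp h hV us uc hC1 r5 (exB a) (lip _ (exB a) t2).1 (lip _ (exB a) t2).2
        a2 (ne_of_en en3) hσ.1 n1.2 hσ' t1 (η := 1) (by norm_num)
      have rv : ∀ a b, rev φ (Θ (a, b)) = (ex b, (rev φ (Θ (a, b))).2) := fun a b =>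
        Prod.ext (z a b) rfl
      have rv2 : ∀ a b, (ex b, (-1 : ℝ) • (rev φ (Θ (a, b))).2) = φ 1 (Θ (a, b)) := fun a b =>
        Prod.ext (z a b).symm (by simp [rev])
      have u2 := u_cmp h hV us uc hC1 r5 (exB b') (lip _ (exB b') t3').1 (lip _ (exB b') t3').2
        (v := (rev φ (Θ (a', b'))).2) (v' := (rev φ (Θ (a, b'))).2)
        (ne_of_en (by rw [en_rev h]; exact en_pos f (exB a') a2'))
        (ne_of_en (by rw [en_rev h]; exact en3)) (σ := 1 - σ) (by linarith [hσ.2])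
        (by rw [← rv, rev_flow h (ΘB _ _), show (1 : ℝ) - 1 / 2 = 1 / 2 by norm_num]; exact n2.2)
        (by rw [← rv, rev_flow h (ΘB _ _), sub_sub_cancel]; exact hσ')
        (by rw [← rv, en_rev h]; exact t1') (η := -1) (by norm_num)
      rw [rv2, rv2] at u2
      simp only [one_smul] at u1
      have i1 : A.indicator (1 : EE × EE → ℝ) (Θ (a, b)) = 1 :=
        indicator_of_mem ((hA.flow _ _ (ΘB _ _)).1 hp.1.2) _
      have i2 : A.indicator (1 : EE × EE → ℝ) (φ 1 (Θ (a', b'))) = 0 :=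
        indicator_of_notMem (fun h1 => hp'.1.2 ((hA.flow _ _ (ΘB _ _)).2
          ((hA.flow _ _ (ΘB _ _)).1 h1))) _
      have i3 : A.indicator (1 : EE × EE → ℝ) (φ 1 (Θ (a, b'))) = A.indicator 1 (Θ (a, b')) := by
        by_cases h1 : Θ (a, b') ∈ A
        · rw [indicator_of_mem h1, indicator_of_mem ((hA.flow _ _ (ΘB _ _)).2 h1)]; rfl
        · rw [indicator_of_notMem h1, indicator_of_notMem fun h2 => h1 ((hA.flow _ _ (ΘB _ _)).1 h2)]
      simp only [E, e, indicator_of_mem q1, indicator_of_mem q2, indicator_of_mem q3, h.flow.zero,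
        i1, i2, i3]
      rw [← ENNReal.ofReal_add (abs_nonneg _) (abs_nonneg _),
        ← ENNReal.ofReal_add (by positivity) (abs_nonneg _),
        ← ENNReal.ofReal_add (by positivity) (abs_nonneg _),
        ← ENNReal.ofReal_add (by positivity) (by positivity), ENNReal.one_le_ofReal]
      have u1' : |u (Θ (a, b)) - u (Θ (a, b'))| ≤ ε := u1
      linarith [le_abs_self (1 - u (Θ (a, b))), (abs_le.1 u1').2, (abs_le.1 u2).1,
        neg_le_abs (A.indicator 1 (Θ (a, b')) - u (Θ (a, b'))),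
        le_abs_self (A.indicator 1 (Θ (a, b')) - u (φ 1 (Θ (a, b')))),
        neg_le_abs (0 - u (φ 1 (Θ (a', b'))))])
  have l1 := low _ inter_subset_left (hN.inter hA.meas) fun c hc p hp =>
    and_congr (hN2 c hc p hp) (hA.scale c hc p hp)
  have l2 := low _ diff_subset (hN.diff hA.meas) fun c hc p hp =>
    and_congr (hN2 c hc p hp) (not_congr (hA.scale c hc p hp))
  set i₁ := (liou f OO (N ∩ A ∩ thin f 0 1)).toReal
  set i₂ := (liou f OO (N \ A ∩ thin f 0 1)).toReal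
  have i10 : 0 ≤ i₁ := ENNReal.toReal_nonneg
  have fin2 := (mul_le_mul' l1 l2).trans (four.trans (add_le_add
    (mul_le_mul' (add_le_add (mul_le_mul_right (up 0) 2) (mul_le_mul_right (up 1) 2))
      (mul_le_mul' An4 An4))
    (mul_le_mul_right (mul_le_mul' (mul_le_mul' An4 An4) (mul_le_mul' An4 An4)) _)))
  rw [← ENNReal.ofReal_mul (by positivity), ← ENNReal.ofReal_mul (by positivity),
    ← ENNReal.ofReal_mul (by positivity), ← ENNReal.ofReal_mul (by positivity),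
    ← ENNReal.ofReal_ofNat 2, ← ENNReal.ofReal_mul (by positivity),
    ← ENNReal.ofReal_add (by positivity) (by positivity), ← ENNReal.ofReal_mul (by positivity),
    ← ENNReal.ofReal_add (by positivity) (by positivity),
    ENNReal.ofReal_le_ofReal_iff (by positivity)] at fin2
  have e1 : R ^ 12 / C ^ 2 * (i₁ * i₂) ≤ R ^ 12 / C ^ 2 * (ε * (D - 1)) := by
    refine le_trans (le_of_eq (by ring)) (fin2.trans (le_of_eq ?_))
    rw [hD]; field_simp; ring
  have e2 := le_of_mul_le_mul_left e1 (by positivity)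
  have e3 : ε * D = η := div_mul_cancel₀ _ hD0.ne'
  nlinarith

theorem null_of (h : Ctx f φ M) {S : Set (EE × EE)} (hS : MeasurableSet S)
    (hS1 : ∀ p ∈ S, p.1 ∈ Bl ∧ p.2 ≠ 0)
    (hs : ∀ c : ℝ, 0 < c → ∀ p : EE × EE, p.1 ∈ Bl → ((p.1, c • p.2) ∈ S ↔ p ∈ S))
    (h0 : liou f OO (S ∩ thin f 0 1) = 0) : volume S = 0 := by
  have h1 : liou f OO S = 0 := by
    refine measure_mono_null (fun p hp => ?_) (measure_iUnion_null
      (s := fun n : ℕ => S ∩ thin f 0 n) fun n => by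
        rw [thin_scale h hS hs (by simp [h0]) le_rfl (Nat.cast_nonneg n), h0, mul_zero])
    obtain ⟨n, hn⟩ := exists_nat_ge √(en f p)
    exact mem_iUnion.2 ⟨n, hp, (hS1 p hp).1, by simpa using en_pos f (hS1 p hp).1 (hS1 p hp).2,
      (Real.sqrt_le_left (Nat.cast_nonneg n)).1 hn⟩
  have h2 := (ae_liou_iff h.conf isOpen_OO.measurableSet Subset.rfl _).1
    (measure_eq_zero_iff_ae_notMem.1 h1)
  rw [measure_eq_zero_iff_ae_notMem]
  filter_upwards [h2] with p hp hpS using hp (mem_OO.2 (hS1 p hpS).1) hpS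

theorem isOpen_W : IsOpen (Bl ×ˢ ({0}ᶜ : Set EE)) := isOpen_Bl.prod isOpen_compl_singleton

end Erg

open Erg Fib

theorem local_const {f : EE → ℝ} {φ : Flo} {M : DFlo} (h : Ctx f φ M)
    {Λ : ℝ} {G : Type} [Group G] [Countable G] {ρ : G →* C3} (hρ : IsLattice Λ G ρ)
    (hf : ∀ a, ∀ x ∈ Bl, f (mob (ρ a) x) = f x) {A : Set (EE × EE)} (hA : InvSet ρ φ A)
    {p₀ : EE × EE} (hp : p₀.1 ∈ Bl) (h0 : p₀.2 ≠ 0) : ∃ N ∈ 𝓝 p₀,
      volume (N ∩ A) = 0 ∨ volume (N \ A) = 0 := by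
  obtain ⟨V, hV⟩ := exists_isLog h
  obtain ⟨δ, T, N₁, hδ, hN₁, hq₀, hN₁δ, hvis⟩ :=
    visibility h hV (p₀ := nrm f p₀) hp (en_nrm hp h0).2
  have hc : ContinuousOn (nrm f) (Bl ×ˢ ({0}ᶜ : Set EE)) := by
    have h1 : ContinuousOn (fun p => (Real.sqrt (en f p))⁻¹) (Bl ×ˢ ({0}ᶜ : Set EE)) :=
      ContinuousOn.inv₀ ((contOn_en h.conf).mono fun p hp => mem_OO.2 hp.1).sqrt fun p hp =>
        (Real.sqrt_pos.2 (en_pos f hp.1 hp.2)).ne'
    exact continuous_fst.continuousOn.prodMk (h1.smul continuous_snd.continuousOn)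
  have hN := hc.isOpen_inter_preimage isOpen_W hN₁
  set N := Bl ×ˢ ({0}ᶜ : Set EE) ∩ nrm f ⁻¹' N₁
  have hs : ∀ c : ℝ, 0 < c → ∀ p : EE × EE, p.1 ∈ Bl → ((p.1, c • p.2) ∈ N ↔ p ∈ N) := by
    intro c hc p hp
    simp [N, nrm_smul f p.1 p.2 hc, hp, hc.ne']
  refine ⟨N, hN.mem_nhds ⟨⟨hp, h0⟩, hq₀⟩, ?_⟩
  refine (key h hV hρ hf hA (T := T) hδ (hN₁δ _ hq₀) hN.measurableSet
    (fun p hp => ⟨hp.1.2, hN₁δ (nrm f p) hp.2⟩) hs fun p hp p' hp' s t => hvis _ hp.2 _ hp'.2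
      (en_nrm hp.1.1 hp.1.2).2 (en_nrm hp'.1.1 hp'.1.2).2 s t).imp ?_ ?_
  · exact null_of h (hN.measurableSet.inter hA.meas) (fun p hp => hp.1.1) fun c hc p hp =>
      and_congr (hs c hc p hp) (hA.scale c hc p hp)
  · exact null_of h (hN.measurableSet.diff hA.meas) (fun p hp => hp.1.1) fun c hc p hp =>
      and_congr (hs c hc p hp) (not_congr (hA.scale c hc p hp))

theorem ergodic_flow {f : EE → ℝ} {φ : Flo} {M : DFlo} (h : Ctx f φ M)
    {Λ : ℝ} {G : Type} [Group G] [Countable G] {ρ : G →* C3} (hρ : IsLattice Λ G ρ)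
    (hf : ∀ a, ∀ x ∈ Bl, f (mob (ρ a) x) = f x) {A : Set (EE × EE)} (hA : InvSet ρ φ A) :
    (∀ᵐ p : EE × EE, p.1 ∈ Bl → p ∉ A) ∨ (∀ᵐ p : EE × EE, p.1 ∈ Bl → p ∈ A) := by
  have hW : IsPreconnected (Bl ×ˢ ({0}ᶜ : Set EE)) :=
    (convex_ball (0 : EE) 1).isPreconnected.prod (isPathConnected_compl_singleton_of_one_lt_rank
      (by rw [← Module.finrank_eq_rank, finrank_EE]; norm_num) 0).isConnected.isPreconnected
  let U : Set (EE × EE) → Set (EE × EE) := fun S => {p | ∃ N ∈ 𝓝 p, volume (N ∩ S) = 0}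
  have hU : ∀ S, IsOpen (U S) := fun S => isOpen_iff_mem_nhds.2 fun p ⟨N, h1, h2⟩ => by
    filter_upwards [eventually_mem_nhds_iff.2 h1] with q hq using ⟨N, hq, h2⟩
  have h0 : ∀ᵐ p : EE × EE, p.2 ≠ 0 := by
    rw [ae_iff]
    have : {p : EE × EE | ¬ p.2 ≠ 0} = univ ×ˢ {0} := by ext p; simp
    rw [this, Measure.volume_eq_prod, Measure.prod_prod]
    simp
  have fin : ∀ S, Bl ×ˢ ({0}ᶜ : Set EE) ⊆ U S → ∀ᵐ p : EE × EE, p.1 ∈ Bl → p ∉ S := by
    intro S hS
    have : volume (Bl ×ˢ ({0}ᶜ : Set EE) ∩ S) = 0 := measure_null_of_locally_null _ fun p hp => by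
      obtain ⟨N, h1, h2⟩ := hS hp.1
      exact ⟨N ∩ S, inter_mem (mem_nhdsWithin_of_mem_nhds h1)
        (mem_of_superset self_mem_nhdsWithin inter_subset_right), h2⟩
    filter_upwards [measure_eq_zero_iff_ae_notMem.1 this, h0] with p h1 h2 h3 h4 using
      h1 ⟨⟨h3, h2⟩, h4⟩
  refine (hW.subset_or_subset (hU A) (hU Aᶜ) ?_ ?_).imp (fin _) fun h1 => by simpa using fin _ h1
  · rw [Set.disjoint_left]
    rintro p ⟨N, h1, h2⟩ ⟨N', h3, h4⟩
    refine (Measure.measure_pos_of_mem_nhds volume (inter_mem h1 h3)).ne'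
      (measure_mono_null (fun q hq => ?_) (measure_union_null h2 h4))
    by_cases e : q ∈ A
    · exact Or.inl ⟨hq.1, e⟩
    · exact Or.inr ⟨hq.2, e⟩
  · intro p hp
    obtain ⟨N, h1, h2⟩ := local_const h hρ hf hA hp.1 hp.2
    exact h2.imp (fun h3 => ⟨N, h1, h3⟩) fun h3 => ⟨N, h1, h3⟩

end Pool.Agent.MP_019006_gt
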