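import Pool.Agent.MP_019006_gt.Basic2
import Pool.Agent.MP_019006_gt.Metric
import Pool.Agent.MP_019006_gt.Jacobi
import Pool.Agent.MP_019006_gt.FlowGeo
import Pool.Agent.MP_019006_gt.FlowMeasure
import Pool.Agent.MP_019006_gt.Fibre
import Pool.Agent.MP_019006_gt.LogMap

set_option autoImplicit false

open MeasureTheory Filter Topology Set Matrix

namespace Pool.Agent.MP_019006_gt

namespace Erg

open Fib

theorem cross_int {α : Type} [MeasurableSpace α] (ν : Measure α) [SFinite ν]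
    {i : α → ENNReal} (hi : Measurable i) {E : α × α → ENNReal} (hE : Measurable E) :
    ∫⁻ z : (α × α) × (α × α), E (z.1.1, z.2.2) * (i z.1.2 * i z.2.1) ∂(ν.prod ν).prod (ν.prod ν) =
      (∫⁻ q, E q ∂ν.prod ν) * ((∫⁻ a, i a ∂ν) * ∫⁻ a, i a ∂ν) := by
  have hg : Measurable fun a => ∫⁻ b, E (a, b) ∂ν := hE.lintegral_prod_right'
  rw [lintegral_prod _ (Measurable.aemeasurable (by fun_prop))]
  have h1 : ∀ u : α × α, ∫⁻ v : α × α, E (u.1, v.2) * (i u.2 * i v.1) ∂ν.prod ν =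
      ((∫⁻ b, E (u.1, b) ∂ν) * i u.2) * ∫⁻ a, i a ∂ν := by
    intro u
    have := lintegral_prod_mul (μ := ν) (ν := ν) (f := i) (g := fun b => E (u.1, b) * i u.2)
      hi.aemeasurable (Measurable.aemeasurable (by fun_prop))
    rw [lintegral_mul_const _ (by fun_prop)] at this
    rw [mul_comm, ← this]
    refine lintegral_congr fun v => by ring
  simp only [h1]
  rw [lintegral_mul_const _ (by fun_prop), lintegral_prod_mul (f := fun a => ∫⁻ b, E (a, b) ∂ν)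
    hg.aemeasurable hi.aemeasurable, ← lintegral_prod _ hE.aemeasurable, mul_assoc]

theorem four_point {α : Type} [MeasurableSpace α] (ν : Measure α) [SFinite ν] {An : Set α}
    (hAn : MeasurableSet An) {S₁ S₂ : Set (α × α)}
    {E E' : α × α → ENNReal} (hE : Measurable E) (hE' : Measurable E') (ε : ENNReal)
    (h : ∀ a b a' b', (a, b) ∈ S₁ → (a', b') ∈ S₂ → (a ∈ An ∧ b ∈ An ∧ a' ∈ An ∧ b' ∈ An) ∧
      1 ≤ E (a, b) + E (a, b') + E' (a, b') + E' (a', b') + ε) :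
    ν.prod ν S₁ * ν.prod ν S₂ ≤ (2 * ∫⁻ q, E q ∂ν.prod ν + 2 * ∫⁻ q, E' q ∂ν.prod ν) *
      (ν An * ν An) + ε * ((ν An * ν An) * (ν An * ν An)) := by
  set i : α → ENNReal := An.indicator 1 with hi
  have mi : Measurable i := measurable_one.indicator hAn
  have ii : ∫⁻ a, i a ∂ν = ν An := lintegral_indicator_one hAn
  have i2 : ∫⁻ q : α × α, i q.1 * i q.2 ∂ν.prod ν = ν An * ν An := by
    rw [lintegral_prod_mul mi.aemeasurable mi.aemeasurable, ii]
  have m2 : Measurable fun q : α × α => i q.1 * i q.2 := by fun_prop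
  rw [← Measure.prod_prod]
  calc _ ≤ ∫⁻ z : (α × α) × (α × α), (E z.1 * (i z.2.1 * i z.2.2) +
        E (z.1.1, z.2.2) * (i z.1.2 * i z.2.1) + E' (z.1.1, z.2.2) * (i z.1.2 * i z.2.1) +
        (i z.1.1 * i z.1.2) * E' z.2 + ε * ((i z.1.1 * i z.1.2) * (i z.2.1 * i z.2.2)))
        ∂(ν.prod ν).prod (ν.prod ν) := by
        refine meas_le_lintegral₀ (Measurable.aemeasurable (by fun_prop)) ?_
        rintro ⟨⟨a, b⟩, a', b'⟩ ⟨h1, h2⟩
        obtain ⟨⟨m1, m2, m3, m4⟩, h3⟩ := h a b a' b' h1 h2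
        simpa [hi, m1, m2, m3, m4] using h3
    _ = _ := by
        rw [lintegral_add_right _ (by fun_prop), lintegral_add_right _ (by fun_prop),
          lintegral_add_right _ (by fun_prop), lintegral_add_right _ (by fun_prop),
          cross_int ν mi hE, cross_int ν mi hE', lintegral_const_mul _ (by fun_prop),
          lintegral_prod_mul (f := E) (g := fun q : α × α => i q.1 * i q.2) hE.aemeasurable
            m2.aemeasurable,
          lintegral_prod_mul (f := fun q : α × α => i q.1 * i q.2) (g := E') m2.aemeasurable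
            hE'.aemeasurable,
          lintegral_prod_mul (f := fun q : α × α => i q.1 * i q.2)
            (g := fun q : α × α => i q.1 * i q.2) m2.aemeasurable m2.aemeasurable, i2, ii]
        ring

theorem meas_on {X Y : Type} [TopologicalSpace X] [MeasurableSpace X] [BorelSpace X]
    [TopologicalSpace Y] [MeasurableSpace Y] [BorelSpace Y] {O : Set X} (hO : IsOpen O)
    {g : X → Y} (hg : ContinuousOn g O) {S : Set Y} (hS : MeasurableSet S) :
    MeasurableSet (O ∩ g ⁻¹' S) := by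
  rw [← Subtype.image_preimage_coe]
  exact hO.measurableSet.subtype_image (hg.restrict.measurable hS)

variable {f : EE → ℝ} {φ : Flo} {M : DFlo} {V : EE → EE → EE}

theorem meas_thin (hf : Conf f) (a b : ℝ) : MeasurableSet (thin f a b) :=
  meas_on isOpen_OO (contOn_en hf) (measurableSet_Ioc (a := a ^ 2) (b := b ^ 2)) |>.congr (by
    ext p; simp [thin, mem_OO])

theorem norm_sq_le (hf : Conf f) {p : EE × EE} (hp : p.1 ∈ Bl) : ‖p.2‖ ^ 2 ≤ 2 * en f p := by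
  have h1 := (g0_bounds hp p.2).1
  have h3 : -(1 / 100 : ℝ) ≤ f p.1 := (abs_le.1 (hf.fb _ hp)).1
  have h4 : 2 * f p.1 + 1 ≤ Real.exp (2 * f p.1) := Real.add_one_le_exp _
  have h5 : en f p = Real.exp (2 * f p.1) * g0 p.1 p.2 p.2 := rfl
  have h6 : 0 ≤ g0 p.1 p.2 p.2 := (sq_nonneg _).trans h1
  nlinarith

theorem en_nonneg (hf : Conf f) {p : EE × EE} (hp : p.1 ∈ Bl) : 0 ≤ en f p := by
  nlinarith [norm_sq_le hf hp, sq_nonneg ‖p.2‖]

theorem liou_fin (hf : Conf f) {c : ℝ} (hc : 0 < c) :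
    liou f OO ({p : EE × EE | c ≤ Dd p.1} ∩ en f ⁻¹' Iic 1) < ⊤ := by
  have hK : IsClosed {p : EE × EE | c ≤ Dd p.1} :=
    isClosed_le continuous_const (cont_Dd.comp continuous_fst)
  have hsub : {p : EE × EE | c ≤ Dd p.1} ⊆ OO := fun p hp => mem_OO.2 (mem_Bl_of hc hp)
  have hcl : IsClosed ({p : EE × EE | c ≤ Dd p.1} ∩ en f ⁻¹' Iic 1) :=
    ((contOn_en hf).mono hsub).preimage_isClosed_of_isClosed hK isClosed_Iic
  have hC : IsCompact ({p : EE × EE | c ≤ Dd p.1} ∩ en f ⁻¹' Iic 1) := by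
    refine IsCompact.of_isClosed_subset
      ((isCompact_closedBall (0 : EE) 1).prod (isCompact_closedBall (0 : EE) 2)) hcl ?_
    rintro p ⟨hp, h2⟩
    have hB := mem_Bl_of hc hp
    refine ⟨mem_closedBall_zero_iff.2 (mem_Bl.1 hB).le, mem_closedBall_zero_iff.2 ?_⟩
    have := norm_sq_le hf hB
    have h3 : en f p ≤ 1 := h2
    nlinarith [norm_nonneg p.2]
  unfold liou
  rw [withDensity_apply _ hC.measurableSet, Measure.restrict_restrict hC.measurableSet,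
    inter_eq_left.2 (inter_subset_left.trans hsub)]
  exact (((contOn_rho hf).mono (inter_subset_left.trans hsub)).integrableOn_compact
    hC).lintegral_lt_top

theorem ne_of_en {p : EE × EE} (h : 0 < en f p) : p.2 ≠ 0 := by
  intro e
  simp [en, e] at h

theorem fl_mem (h : Ctx f φ M) (t : ℝ) {p : EE × EE} (hp : p.1 ∈ Bl) : (φ t p).1 ∈ Bl :=
  mem_OO.1 (h.flow.mem t p (mem_OO.2 hp))

theorem fst_nrm (h : Ctx f φ M) (t : ℝ) {p : EE × EE} (hp : p.1 ∈ Bl) (h0 : p.2 ≠ 0) :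
    (φ t p).1 = (φ (Real.sqrt (en f p) * t) (nrm f p)).1 := by
  rw [← flow_nrm h.conf.smooth h.flow t hp h0]; rfl

theorem dir_eq (h : Ctx f φ M) (hV : IsLog φ V) {p : EE × EE} (hp : p.1 ∈ Bl) (h0 : p.2 ≠ 0)
    {σ : ℝ} (hσ : 0 < σ) : dd f V p.1 (φ σ p).1 = Real.sqrt (en f p) * σ ∧
      dir f V p.1 (φ σ p).1 = (nrm f p).2 := by
  have h1 := en_nrm (f := f) hp h0
  have := log_flow h hV (p := nrm f p) hp h1.2 0 (Real.sqrt (en f p) * σ)
    (mul_pos (Real.sqrt_pos.2 h1.1) hσ)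
  rw [h.flow.zero, ← fst_nrm h σ hp h0, sub_zero] at this
  exact this.2

theorem dd_self (h : Ctx f φ M) (hV : IsLog φ V) {y : EE} (hy : y ∈ Bl) : dd f V y y = 0 := by
  have h1 := flow_scale h.flow 0 1 (p := (y, 0)) hy
  simp only [smul_zero, zero_mul, h.flow.zero, zero_smul] at h1
  have h2 := hV.left y hy 0
  rw [h1] at h2
  simp only at h2
  simp [dd, h2, en]

theorem exists_far (h : Ctx f φ M) (hV : IsLog φ V) {δ : ℝ} (hδ : 0 < δ) : ∃ R₁ : ℝ,
    ∀ z y, y ∈ Bl → δ ≤ Dd z → R₁ ≤ dd f V z y → ∀ m, δ ≤ Dd m → 1 ≤ dd f V y m := by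
  refine ⟨6 / δ + 2 + 2 * (Real.exp 3 / δ), fun z y hy hz hR m hm => ?_⟩
  by_contra hn
  push Not at hn
  have hm' := mem_Bl_of hδ hm
  have h1 := (Dd_dd h hV hm' hy).1
  rw [← (log_rev h hV hy hm').2.1] at h1
  have h2 := (Dd_dd h hV (mem_Bl_of hδ hz) hy).2
  have h3 : Real.exp (-3) * δ ≤ Dd y :=
    le_trans (mul_le_mul (Real.exp_le_exp.2 (by linarith)) hm hδ.le (Real.exp_pos _).le) h1
  have h4 : (Dd y)⁻¹ ≤ Real.exp 3 / δ := by
    have := inv_anti₀ (by positivity) h3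
    rwa [mul_inv, Real.exp_neg, inv_inv, ← div_eq_mul_inv] at this
  have h5 : (Dd z)⁻¹ ≤ δ⁻¹ := inv_anti₀ hδ hz
  have h6 : 0 < Real.exp 3 / δ := by positivity
  have h7 : 0 < δ⁻¹ := by positivity
  rw [div_eq_mul_inv 6] at hR
  set s := dd f V z y
  have h8 : 3 * s * (Dd z)⁻¹ ≤ 3 * s * δ⁻¹ := mul_le_mul_of_nonneg_left h5 (by linarith)
  nlinarith

/-- The reversed vector at the end point. -/
noncomputable def rev (φ : Flo) (p : EE × EE) : EE × EE := ((φ 1 p).1, (-1 : ℝ) • (φ 1 p).2)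

theorem rev_flow (h : Ctx f φ M) {p : EE × EE} (hp : p.1 ∈ Bl) (τ : ℝ) :
    (φ τ (rev φ p)).1 = (φ (1 - τ) p).1 := by
  rw [rev, flow_scale h.flow (-1) τ (fl_mem h 1 hp), ← h.flow.add,
    show -1 * τ + 1 = 1 - τ by ring]

theorem en_rev (h : Ctx f φ M) (p : EE × EE) : en f (rev φ p) = en f p := by
  rw [rev, en_smul, ← en_flow h.conf.smooth h.flow 1 p]; simp

theorem u_cmp (h : Ctx f φ M) (hV : IsLog φ V) {u : EE × EE → ℝ}
    (hu : ∀ c : ℝ, 0 < c → ∀ p : EE × EE, p.1 ∈ Bl → u (p.1, c • p.2) = u p) {ε κ δ C₁ R : ℝ}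
    (hκ : ∀ y ∈ Bl, ∀ v v' : EE, en f (y, v) = 1 → en f (y, v') = 1 →
      gg f y (v - v') (v - v') ≤ κ → |u (y, v) - u (y, v')| ≤ ε)
    (hC : 0 ≤ C₁) (hR : C₁ * Real.exp (-R) ≤ κ) {y v v' : EE} (hy : y ∈ Bl)
    (hfar : ∀ m, δ ≤ Dd m → 1 ≤ dd f V y m)
    (hlip : ∀ m m', δ ≤ Dd m → δ ≤ Dd m' →
      gg f y (dir f V y m - dir f V y m') (dir f V y m - dir f V y m') ≤
        C₁ * Real.exp (-dd f V y m))
    (hv : v ≠ 0) (hv' : v' ≠ 0) {σ : ℝ} (hσ : 0 ≤ σ) (h1 : δ ≤ Dd (φ (1 / 2) (y, v)).1)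
    (h2 : δ ≤ Dd (φ σ (y, v')).1) (h3 : 2 * R ≤ Real.sqrt (en f (y, v))) {η : ℝ}
    (hη : η ^ 2 = 1) : |u (y, η • v) - u (y, η • v')| ≤ ε := by
  have hσ' : 0 < σ := lt_of_le_of_ne hσ (by
    rintro rfl
    rw [h.flow.zero] at h2
    have := hfar y h2
    rw [dd_self h hV hy] at this
    linarith)
  have e1 := dir_eq h hV (p := (y, v)) hy hv (σ := 1 / 2) (by norm_num)
  have e2 := dir_eq h hV (p := (y, v')) hy hv' hσ'
  have h4 := hlip _ _ h1 h2
  simp only at e1 e2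
  rw [e1.1, e1.2, e2.2] at h4
  have n1 := en_nrm (f := f) (p := (y, v)) hy hv
  have n2 := en_nrm (f := f) (p := (y, v')) hy hv'
  have e3 : ∀ w : EE, 0 < en f (y, w) → u (y, η • (nrm f (y, w)).2) = u (y, η • w) := fun w hw => by
    have := hu (Real.sqrt (en f (y, w)))⁻¹ (inv_pos.2 (Real.sqrt_pos.2 hw)) (y, η • w) hy
    rw [← this, smul_comm]; rfl
  rw [← e3 v n1.1, ← e3 v' n2.1]
  refine hκ y hy _ _ ?_ ?_ ?_
  · rw [en_smul, hη, one_mul]; exact n1.2
  · rw [en_smul, hη, one_mul]; exact n2.2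
  · rw [← smul_sub]
    have := en_smul f y ((nrm f (y, v)).2 - (nrm f (y, v')).2) η
    rw [hη, one_mul] at this
    refine le_trans (le_of_eq this) (h4.trans (le_trans ?_ hR))
    exact mul_le_mul_of_nonneg_left (Real.exp_le_exp.2 (by linarith)) hC

theorem quart_le {a b : ℝ} (ha : 0 ≤ a) (hab : a ≤ b) : b ^ 4 - a ^ 4 ≤ 4 * (b - a) * b ^ 3 := by
  have h1 : b ^ 4 - a ^ 4 = (b - a) * (b ^ 3 + b ^ 2 * a + b * a ^ 2 + a ^ 3) := by ring
  have hb : 0 ≤ b := ha.trans hab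
  have h2 : b ^ 2 * a ≤ b ^ 2 * b := by gcongr
  have h3 : b * a ^ 2 ≤ b * b ^ 2 := by gcongr
  have h4 : a ^ 3 ≤ b ^ 3 := by gcongr
  rw [h1]
  nlinarith [mul_le_mul_of_nonneg_left (show b ^ 3 + b ^ 2 * a + b * a ^ 2 + a ^ 3 ≤ 4 * b ^ 3 by
    linarith) (sub_nonneg.2 hab)]

open Pointwise in
theorem annulus (hf : Conf f) {x : EE} (hx : x ∈ Bl) : ∃ k : ℝ, 0 ≤ k ∧ ∀ a b : ℝ, 0 < a → a ≤ b →
    ∃ An : Set EE, MeasurableSet An ∧ volume An ≤ ENNReal.ofReal (k * (b ^ 4 - a ^ 4)) ∧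
      ∀ v, a < Real.sqrt (en f (x, v)) → Real.sqrt (en f (x, v)) ≤ b → v ∈ An := by
  let K : ℝ → Set EE := fun c => {v | en f (x, v) ≤ c ^ 2}
  have hc : Continuous fun v : EE => en f (x, v) := by
    simp only [en]; fun_prop
  have hK : ∀ c, MeasurableSet (K c) := fun c => (isClosed_le hc continuous_const).measurableSet
  have hfin : volume (K 1) ≠ ⊤ := by
    refine ne_top_of_le_ne_top (measure_closedBall_lt_top (x := (0 : EE)) (r := 2)).ne
      (measure_mono fun v hv => mem_closedBall_zero_iff.2 ?_)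
    have := norm_sq_le hf (p := (x, v)) hx
    have h3 : en f (x, v) ≤ 1 ^ 2 := hv
    nlinarith [norm_nonneg v]
  have hvol : ∀ c, 0 < c → volume (K c) = ENNReal.ofReal ((volume (K 1)).toReal * c ^ 4) := by
    intro c hc0
    have : K c = c • K 1 := by
      ext v
      rw [mem_smul_set_iff_inv_smul_mem₀ hc0.ne']
      simp only [K, mem_setOf_eq, en_smul, inv_pow]
      rw [inv_mul_le_iff₀ (by positivity), one_pow, mul_one]
    rw [this, Measure.addHaar_smul, finrank_EE, abs_of_pos (by positivity), mul_comm,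
      ENNReal.ofReal_mul ENNReal.toReal_nonneg, ENNReal.ofReal_toReal hfin]
  refine ⟨(volume (K 1)).toReal, ENNReal.toReal_nonneg, fun a b ha hab => ⟨K b \ K a,
    (hK b).diff (hK a), ?_, fun v h1 h2 => ⟨?_, fun h3 => ?_⟩⟩⟩
  · have hsub : K a ⊆ K b := fun v hv => le_trans (show en f (x, v) ≤ a ^ 2 from hv) (by gcongr)
    rw [measure_diff hsub (hK a).nullMeasurableSet
      (by rw [hvol a ha]; exact ENNReal.ofReal_ne_top), hvol a ha, hvol b (ha.trans_le hab),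
      ← ENNReal.ofReal_sub _ (by positivity), mul_sub]
  · exact (Real.sqrt_le_left (ha.le.trans hab)).1 h2
  · exact absurd ((Real.sqrt_le_left ha.le).2 h3) (not_le.2 h1)

end Erg

end Pool.Agent.MP_019006_gt
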