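import Pool.Agent.MP_019006_gt.Basic3

set_option autoImplicit false

open MeasureTheory Filter Topology Set Matrix

namespace Pool.Agent.MP_019006_gt

open Jac

namespace ExpGeo

variable {f : EE → ℝ} {φ : Flo} {M : DFlo}

theorem vert_sum (p : EE × EE) (w : Fin 3 → ℝ) :
    ((0 : EE), ∑ j, w j • frame p j) = ∑ j, w j • ((0 : EE), frame p j) := by
  simp only [Fin.sum_univ_three]
  refine Prod.ext ?_ ?_
  · simp
  · simp

/-- The derivative of the flow maps the generator to the generator. -/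
theorem M_XX (hφ : IsFlow OO (XX f) φ M) {p : EE × EE} (hp : p.1 ∈ Bl) (t : ℝ) :
    M t p (XX f p) = XX f (φ t p) := by
  have hp' : p ∈ OO := mem_OO.2 hp
  have h0 : HasDerivAt (fun s => φ s p) (XX f p) 0 := by
    have := hφ.deriv 0 p hp'
    rwa [hφ.zero] at this
  have h1 : HasFDerivAt (φ t) (M t p) (φ 0 p) := by
    rw [hφ.zero]
    exact hφ.fderiv t p hp'
  have h2 : HasDerivAt (fun s => φ t (φ s p)) (M t p (XX f p)) 0 :=
    HasFDerivAt.comp_hasDerivAt (l := φ t) (f := fun s => φ s p) 0 h1 h0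
  have h3 : HasDerivAt (fun s => φ s (φ t p)) (XX f (φ t p)) 0 := by
    have := hφ.deriv 0 (φ t p) (hφ.mem t p hp')
    rwa [hφ.zero] at this
  have e : (fun s => φ t (φ s p)) = fun s => φ s (φ t p) := by
    funext s
    rw [← hφ.add, ← hφ.add, add_comm]
  rw [e] at h2
  exact h2.unique h3

end ExpGeo

open ExpGeo

theorem isExponentAlong_of {f : EE → ℝ} {φ : Flo} {M : DFlo} (h : Ctx f φ M)
    {q : EE × EE} (hq : q ∈ unitB f) (l : Filter ℝ) (u : Fin 3 → ℝ) (hu : u ≠ 0) (χ : ℝ)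
    (hT : Tendsto (rate (fun t => Yu f φ M q t *ᵥ u) (fun t => Hu f φ M q t *ᵥ u)) l (𝓝 χ)) :
    IsExponentAlong l (gg f) (Gam f) φ q χ := by
  have hf := h.conf.smooth
  have hφ := h.flow
  obtain ⟨hp, h1⟩ := hq
  set w : Fin 3 → ℝ := (Uu f φ M q - U0) *ᵥ u with hw
  set ξ : EE × EE := xi f q (∑ j, u j • frame q j) + ((0 : EE), ∑ j, w j • frame q j) with hξ
  have e1 : ξ.1 = ∑ j, u j • frame q j := by
    rw [hξ, Prod.fst_add, add_zero]
    rfl
  have ht0 := gg_frame_tan hp h1 u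
  have ht : gg f q.1 ξ.1 q.2 = 0 := by rw [e1, ht0]
  have ht' : gg f q.1 (ξ.2 + Gam f q.1 q.2 ξ.1) q.2 = 0 := by
    have a1 := xi_tan hp h1 _ ht0
    have a2 := gg_frame_tan hp h1 w
    have a3 : ξ.2 + Gam f q.1 q.2 ξ.1 = ((xi f q (∑ j, u j • frame q j)).2 +
        Gam f q.1 q.2 (xi f q (∑ j, u j • frame q j)).1) + ∑ j, w j • frame q j := by
      rw [hξ, Prod.fst_add, Prod.snd_add, add_zero]
      abel
    rw [a3, map_add, _root_.add_apply, a1, a2, add_zero]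
  refine ⟨ξ, fun h0 => hu ?_, ?_, ?_⟩
  · funext i
    have e : (∑ j, u j • frame q j) = 0 := by rw [← e1, h0]; rfl
    have := gg_frame_sum hp h1 u i
    rw [e] at this
    simpa using this.symm
  · have e : (fun q : EE × EE => gg f q.1 q.2 q.2) = en f := rfl
    rw [e, fderiv_en hf hp, gg_symm, ht', mul_zero]
  · refine hT.congr fun t => ?_
    have hq := memB hφ hp t
    have hq1 : en f (φ t q) = 1 := by rw [en_flow hf hφ, h1]
    obtain ⟨-, -, eJ, eE⟩ := jacobi_eq hf hφ hp h1 ξ ht ht'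
      (fun t => Yu f φ M q t *ᵥ u) (fun t => Hu f φ M q t *ᵥ u)
      (fun t i => by
        rw [Yu, Matrix.add_mulVec, ← Matrix.mulVec_mulVec, ← hw, hξ, xi_sum, vert_sum]
        simp only [Fin.sum_univ_three, map_add, map_smul, Prod.fst_add, Prod.smul_fst,
          _root_.add_apply, _root_.smul_apply, smul_eq_mul, Pi.add_apply,
          Matrix.mulVec, dotProduct, Ymat, YD]
        ring)
      (fun t i => by
        rw [Hu, Matrix.add_mulVec, ← Matrix.mulVec_mulVec, ← hw, hξ, xi_sum, vert_sum]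
        simp only [Fin.sum_univ_three, map_add, map_smul, Prod.fst_add, Prod.smul_fst,
          Prod.snd_add, Prod.smul_snd, Gam_add_right, Gam_smul_right,
          _root_.add_apply, _root_.smul_apply, smul_eq_mul, Pi.add_apply,
          Matrix.mulVec, dotProduct, Hmat, HD]
        ring) t
    rw [rate, (hφ.fderiv t q (mem_OO.2 hp)).fderiv, sasaki, eE, eJ, gg_frame_nsq hq hq1,
      gg_frame_nsq hq hq1]

theorem of_isExponentAlong {f : EE → ℝ} {φ : Flo} {M : DFlo} (h : Ctx f φ M)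
    {q : EE × EE} (hq : q ∈ unitB f) (l : Filter ℝ) (χ : ℝ)
    (hχ : IsExponentAlong l (gg f) (Gam f) φ q χ) : ∃ (a : ℝ) (y η : ℝ → Fin 3 → ℝ),
      (∀ t i, HasDerivAt (fun s => y s i) ((η t - Omat f (φ t q) *ᵥ y t) i) t) ∧
      (∀ t i, HasDerivAt (fun s => η s i)
        ((Kmat f (φ t q) *ᵥ y t - Omat f (φ t q) *ᵥ η t) i) t) ∧
      Tendsto (fun t : ℝ => Real.log (Real.sqrt (a ^ 2 + nsq (y t) + nsq (η t))) / t) l (𝓝 χ) := by
  have hf := h.conf.smooth
  have hφ := h.flow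
  obtain ⟨hp, h1⟩ := hq
  obtain ⟨ξ, -, hξ, hT⟩ := hχ
  have e0 : (fun q : EE × EE => gg f q.1 q.2 q.2) = en f := rfl
  rw [e0, fderiv_en hf hp, gg_symm] at hξ
  have hξ' : gg f q.1 (ξ.2 + Gam f q.1 q.2 ξ.1) q.2 = 0 := by linarith
  set a : ℝ := gg f q.1 ξ.1 q.2 with ha
  set ζ : EE × EE := ξ - a • XX f q with hζ
  have h1' : gg f q.1 q.2 q.2 = 1 := h1
  have z1 : ζ.1 = ξ.1 - a • q.2 := rfl
  have z2 : ζ.2 + Gam f q.1 q.2 ζ.1 = ξ.2 + Gam f q.1 q.2 ξ.1 := by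
    have b1 : ζ.2 = ξ.2 - a • (-Gam f q.1 q.2 q.2) := rfl
    rw [b1, z1, sub_eq_add_neg ξ.1, ← neg_smul, Gam_add_right, Gam_smul_right]
    module
  have ht : gg f q.1 ζ.1 q.2 = 0 := by
    rw [z1, map_sub, map_smul, _root_.sub_apply, _root_.smul_apply, h1',
      ← ha]
    simp
  have ht' : gg f q.1 (ζ.2 + Gam f q.1 q.2 ζ.1) q.2 = 0 := by rw [z2, hξ']
  have key := jacobi_eq hf hφ hp h1 ζ ht ht'
    (fun t i => gg f (φ t q).1 (M t q ζ).1 (frame (φ t q) i))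
    (fun t i => gg f (φ t q).1 ((M t q ζ).2 + Gam f (φ t q).1 (φ t q).2 (M t q ζ).1)
      (frame (φ t q) i)) (fun _ _ => rfl) (fun _ _ => rfl)
  refine ⟨a, _, _, fun t => (key t).1, fun t => (key t).2.1, hT.congr fun t => ?_⟩
  obtain ⟨-, -, eJ, eE⟩ := key t
  have hq := memB hφ hp t
  have hq1 : en f (φ t q) = 1 := by rw [en_flow hf hφ, h1]
  have hq1' : gg f (φ t q).1 (φ t q).2 (φ t q).2 = 1 := hq1
  have m0 : M t q ξ = M t q ζ + a • XX f (φ t q) := by
    rw [hζ, map_sub, map_smul, M_XX hφ hp, sub_add_cancel]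
  have m1 : (M t q ξ).1 = (M t q ζ).1 + a • (φ t q).2 := by rw [m0]; rfl
  have m2 : (M t q ξ).2 + Gam f (φ t q).1 (φ t q).2 (M t q ξ).1 =
      (M t q ζ).2 + Gam f (φ t q).1 (φ t q).2 (M t q ζ).1 := by
    have b1 : (M t q ξ).2 = (M t q ζ).2 + a • (-Gam f (φ t q).1 (φ t q).2 (φ t q).2) := by
      rw [m0]; rfl
    rw [b1, m1, Gam_add_right, Gam_smul_right]
    module
  have n1 := gg_frame_nsq hq hq1 fun i => gg f (φ t q).1 (M t q ζ).1 (frame (φ t q) i)
  have n2 := gg_frame_tan hq hq1 fun i => gg f (φ t q).1 (M t q ζ).1 (frame (φ t q) i)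
  have n3 := gg_frame_nsq hq hq1 fun i => gg f (φ t q).1
    ((M t q ζ).2 + Gam f (φ t q).1 (φ t q).2 (M t q ζ).1) (frame (φ t q) i)
  rw [← eJ] at n1 n2
  rw [← eE] at n3
  rw [(hφ.fderiv t q (mem_OO.2 hp)).fderiv, sasaki, m2, n3, m1]
  congr 4
  simp only [map_add, map_smul, _root_.add_apply, _root_.smul_apply,
    smul_eq_mul]
  rw [gg_symm f _ (φ t q).2 (M t q ζ).1, n1, n2, hq1']
  ring

end Pool.Agent.MP_019006_gt
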