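import Pool.Agent.MP_019006_gt.Flat1

set_option autoImplicit false

open MeasureTheory Filter Topology Set Matrix

namespace Pool.Agent.MP_019006_gt

namespace Flat

/-- the radial bump. -/
noncomputable def FF (x : EE) : ℝ := g0 (‖x‖ ^ 2)

lemma FF_smooth (n : ℕ) : ContDiff ℝ n FF := by
  have : FF = fun x : EE => expNegInvGlue (1 - ‖x‖ ^ 2) := by
    ext x; simp [FF, g0, G]
  rw [this]
  exact (expNegInvGlue.contDiff (n := n)).comp (contDiff_const.sub (contDiff_norm_sq ℝ))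

lemma normsq_deriv (x : EE) :
    HasFDerivAt (fun y : EE => ‖y‖ ^ 2) ((2 : ℝ) • innerSL ℝ x) x := by
  have := (hasStrictFDerivAt_norm_sq x).hasFDerivAt
  simpa [two_smul] using this

lemma fderiv_FF (y u : EE) : fderiv ℝ FF y u = g1 (‖y‖ ^ 2) * (2 * inner ℝ u y) := by
  have h := (G_deriv 1 (‖y‖ ^ 2)).comp_hasFDerivAt y (normsq_deriv y)
  have e : FF = G 1 ∘ fun y : EE => ‖y‖ ^ 2 := rfl
  rw [e, h.fderiv]
  simp [g1, real_inner_comm]

lemma HH_FF (x u : EE) :
    HH FF x u = 2 * g1 (‖x‖ ^ 2) * ‖u‖ ^ 2 + 4 * g2 (‖x‖ ^ 2) * (inner ℝ u x) ^ 2 := by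
  unfold HH
  simp only [fderiv_FF]
  have h1 := (G_deriv (dp 1) (‖x‖ ^ 2)).comp_hasFDerivAt x (normsq_deriv x)
  have h2 : HasFDerivAt (fun y : EE => 2 * inner ℝ u y) ((2 : ℝ) • innerSL ℝ u) x :=
    ((innerSL ℝ u).hasFDerivAt (x := x)).const_mul 2
  have h3 := h1.mul h2
  have e : (fun y : EE => g1 (‖y‖ ^ 2) * (2 * inner ℝ u y)) =
      (G (dp 1) ∘ fun y : EE => ‖y‖ ^ 2) * fun y : EE => 2 * inner ℝ u y := rfl
  rw [e, h3.fderiv]
  simp only [_root_.add_apply, _root_.smul_apply, innerSL_apply_apply,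
    smul_eq_mul, Function.comp, real_inner_self_eq_norm_sq, g1, g2, real_inner_comm x u]
  ring

/-- coordinates adapted to an orthonormal frame. -/
noncomputable def psi (b : OrthonormalBasis (Fin 4) ℝ EE) : ℝ × P ≃ᵐ EE :=
  ((MeasurableEquiv.piFinSuccAbove (fun _ : Fin 4 => ℝ) 0).symm.trans
    (MeasurableEquiv.toLp 2 (Fin 4 → ℝ))).trans b.measurableEquiv.symm

lemma psi_mp (b : OrthonormalBasis (Fin 4) ℝ EE) : MeasurePreserving (psi b) :=
  (b.measurePreserving_measurableEquiv.symm).comp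
    ((PiLp.volume_preserving_toLp (Fin 4)).comp
      (volume_preserving_piFinSuccAbove (fun _ : Fin 4 => ℝ) 0).symm)

lemma psi_repr (b : OrthonormalBasis (Fin 4) ℝ EE) (p : ℝ × P) :
    b.repr (psi b p) = WithLp.toLp 2 (Fin.cons p.1 p.2 : Fin 4 → ℝ) := by
  have : psi b p = b.repr.symm (WithLp.toLp 2 (Fin.cons p.1 p.2 : Fin 4 → ℝ)) := by
    simp only [psi, MeasurableEquiv.trans_apply, MeasurableEquiv.piFinSuccAbove_symm_apply,
      Fin.insertNthEquiv, Equiv.coe_fn_mk, Fin.insertNth_zero']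
    rfl
  rw [this, LinearIsometryEquiv.apply_symm_apply]

lemma psi_inner0 (b : OrthonormalBasis (Fin 4) ℝ EE) (p : ℝ × P) :
    inner ℝ (b 0) (psi b p) = p.1 := by
  rw [← b.repr_apply_apply, psi_repr]; simp

lemma psi_inner (b : OrthonormalBasis (Fin 4) ℝ EE) (p : ℝ × P) (j : Fin 3) :
    inner ℝ (b j.succ) (psi b p) = p.2 j := by
  rw [← b.repr_apply_apply, psi_repr]; simp

lemma psi_norm (b : OrthonormalBasis (Fin 4) ℝ EE) (p : ℝ × P) :
    ‖psi b p‖ ^ 2 = p.1 ^ 2 + rho p.2 := by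
  rw [← b.repr.norm_map, psi_repr, EuclideanSpace.real_norm_sq_eq, Fin.sum_univ_succ,
    Fin.sum_univ_three]
  simp only [rho, Fin.cons_zero, Fin.cons_succ]

lemma psi_shift (b : OrthonormalBasis (Fin 4) ℝ EE) (p : ℝ × P) (s : ℝ) :
    psi b p + s • b 0 = psi b (p.1 + s, p.2) := by
  apply b.repr.injective
  rw [map_add, map_smul, psi_repr, psi_repr, b.repr_self]
  ext i
  refine Fin.cases ?_ (fun j => ?_) i
  · simp
  · simp

lemma HH_psi0 (b : OrthonormalBasis (Fin 4) ℝ EE) (p : ℝ × P) :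
    HH FF (psi b p) (b 0) = hv p := by
  rw [HH_FF, psi_norm, psi_inner0, b.orthonormal.1]
  simp [hv]

lemma HH_psi (b : OrthonormalBasis (Fin 4) ℝ EE) (p : ℝ × P) (j : Fin 3) :
    HH FF (psi b p) (b j.succ) = hw j p := by
  rw [HH_FF, psi_norm, psi_inner, b.orthonormal.1]
  simp [hw]

/-- the functional in a frame. -/
noncomputable def Q (v e1 e2 e3 : EE) : ℝ :=
  ∫ x, (1 / 8 * (HH FF x e2 + HH FF x e3 + 2 * HH FF x v) *
      (∫ s in (-6 : ℝ)..0, (HH FF (x + s • v) e2 + HH FF (x + s • v) e3 +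
        2 * HH FF (x + s • v) v)) -
    1 / 16 * (HH FF x e1 + HH FF x v) *
      ∫ s in (-6 : ℝ)..0, (HH FF (x + s • v) e1 + HH FF (x + s • v) v))

lemma Q_eq (b : OrthonormalBasis (Fin 4) ℝ EE) (i j k : Fin 3) :
    Q (b 0) (b i.succ) (b j.succ) (b k.succ) = q i j k := by
  rw [← integral_coord, Q, ← (psi_mp b).integral_comp']
  simp only [psi_shift, HH_psi0, HH_psi]

lemma frame_orthonormal (v : EE) (hv : ‖v‖ = 1) :
    Orthonormal ℝ ![v, Complex.I • v, perp v, Complex.I • perp v] := by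
  have h2 : (v 0).re ^ 2 + (v 0).im ^ 2 + ((v 1).re ^ 2 + (v 1).im ^ 2) = 1 := by
    have := EuclideanSpace.norm_sq_eq v
    rw [hv, Fin.sum_univ_two, Complex.sq_norm, Complex.sq_norm, Complex.normSq_apply,
      Complex.normSq_apply] at this
    linarith
  have hin : ∀ a c : EE, inner ℝ a c = (a 0).re * (c 0).re + (a 0).im * (c 0).im +
      ((a 1).re * (c 1).re + (a 1).im * (c 1).im) := by
    intro a c
    simp [PiLp.inner_apply, Fin.sum_univ_two, Complex.inner]
    ring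
  rw [orthonormal_iff_ite]
  intro i j
  rw [hin]
  fin_cases i <;> fin_cases j <;> simp [perp] <;> linarith

/-- the frame attached to a unit vector. -/
noncomputable def frame (v : EE) (hv : ‖v‖ = 1) : OrthonormalBasis (Fin 4) ℝ EE :=
  (basisOfOrthonormalOfCardEqFinrank (frame_orthonormal v hv) (by
    rw [← Module.finrank_mul_finrank ℝ ℂ EE]; simp)).toOrthonormalBasis
    (by simpa using frame_orthonormal v hv)

lemma frame_apply (v : EE) (hv : ‖v‖ = 1) (i : Fin 4) :
    frame v hv i = ![v, Complex.I • v, perp v, Complex.I • perp v] i := by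
  simp [frame]

lemma q_perm (σ : Equiv.Perm (Fin 3)) (i j k : Fin 3) : q (σ i) (σ j) (σ k) = q i j k := by
  have hv : ‖(EuclideanSpace.single 0 1 : EE)‖ = 1 := by simp
  set b := frame _ hv
  set τ : Equiv.Perm (Fin 4) := Equiv.Perm.decomposeFin.symm (0, σ) with hτ
  have h0 : b.reindex τ.symm 0 = b 0 := by simp [hτ]
  have h1 : ∀ l : Fin 3, b.reindex τ.symm l.succ = b (σ l).succ := by
    intro l; simp [hτ]
  rw [← Q_eq b, ← Q_eq (b.reindex τ.symm), h0, h1, h1, h1]

lemma q_pos : 0 < q 0 1 2 := by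
  have h := q_sum_pos
  have h1 : q 1 2 0 = q 0 1 2 := q_perm (finRotate 3) 0 1 2
  have h2 : q 2 0 1 = q 1 2 0 := q_perm (finRotate 3) 1 2 0
  linarith

lemma integral_HH (u : EE) (hu : ‖u‖ = 1) :
    Integrable (fun x => HH FF x u) ∧ ∫ x, HH FF x u = 0 := by
  have e : u = frame u hu 0 := by simp [frame_apply]
  constructor
  · rw [e, ← (psi_mp (frame u hu)).integrable_comp_emb (psi _).measurableEmbedding]
    have : (fun x => HH FF x (frame u hu 0)) ∘ psi (frame u hu) = hv := by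
      ext p; exact HH_psi0 _ p
    rw [this]
    exact adm_hv.integrable
  · rw [e, ← (psi_mp (frame u hu)).integral_comp']
    simp only [HH_psi0, integral_hv]

end Flat

open Flat in
theorem exists_profile : ∃ (F : EE → ℝ) (s₀ : ℝ), IsProfile F s₀ := by
  refine ⟨FF, q 0 1 2, q_pos, FF_smooth, fun x hx => G_zero _ (by nlinarith), ?_, ?_⟩
  · intro v hv
    have ho := (frame_orthonormal v hv).1
    obtain ⟨i0, e0⟩ := integral_HH v hv
    obtain ⟨i1, e1⟩ := integral_HH (Complex.I • v) (ho 1)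
    obtain ⟨i2, e2⟩ := integral_HH (perp v) (ho 2)
    obtain ⟨i3, e3⟩ := integral_HH (Complex.I • perp v) (ho 3)
    have j1 : Integrable fun x => HH FF x (Complex.I • v) + HH FF x v := i1.add i0
    have j2 : Integrable fun x => HH FF x (perp v) + HH FF x (Complex.I • perp v) := i2.add i3
    have j3 : Integrable fun x => HH FF x (perp v) + HH FF x (Complex.I • perp v) +
      2 * HH FF x v := j2.add (i0.const_mul 2)
    unfold sig1 sigw
    rw [integral_sub j1 (j3.const_mul 2), integral_const_mul, integral_add i1 i0,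
      integral_add j2 (i0.const_mul 2), integral_add i2 i3, integral_const_mul, e0, e1, e2, e3]
    simp
  · intro v hv
    have h := Q_eq (frame v hv) 0 1 2
    simp only [frame_apply] at h
    exact h.ge

end Pool.Agent.MP_019006_gt
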