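import Pool.Agent.MP_019006_gt.JobDefs

set_option autoImplicit false

open MeasureTheory Filter Topology Set Matrix

namespace Pool.Agent.MP_019006_gt

namespace Flat

/-- polynomial multiples of the glue function, reflected at `1`. -/
noncomputable def G (p : Polynomial ℝ) (r : ℝ) : ℝ := p.eval (1 - r)⁻¹ * expNegInvGlue (1 - r)

noncomputable def dp (p : Polynomial ℝ) : Polynomial ℝ :=
  -(Polynomial.X ^ 2 * (p - Polynomial.derivative p))

lemma G_deriv (p : Polynomial ℝ) (r : ℝ) : HasDerivAt (G p) (G (dp p) r) r := by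
  have h := (expNegInvGlue.hasDerivAt_polynomial_eval_inv_mul p (1 - r)).comp r
    ((hasDerivAt_id r).const_sub 1)
  exact h.congr_deriv (by simp [G, dp])

lemma G_cont (p : Polynomial ℝ) : Continuous (G p) :=
  continuous_iff_continuousAt.2 fun r => (G_deriv p r).continuousAt

lemma G_zero (p : Polynomial ℝ) {r : ℝ} (h : 1 ≤ r) : G p r = 0 := by
  simp [G, expNegInvGlue.zero_of_nonpos (show 1 - r ≤ 0 by linarith)]

noncomputable def g0 : ℝ → ℝ := G 1
noncomputable def g1 : ℝ → ℝ := G (dp 1)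
noncomputable def g2 : ℝ → ℝ := G (dp (dp 1))

lemma g1_neg {r : ℝ} (h : r < 1) : g1 r < 0 := by
  have h1 : 0 < 1 - r := by linarith
  have h2 := expNegInvGlue.pos_of_pos h1
  have h3 : 0 < ((1 - r)⁻¹) ^ 2 := by positivity
  have : g1 r = -(((1 - r)⁻¹) ^ 2 * expNegInvGlue (1 - r)) := by simp [g1, G, dp]
  rw [this]
  have := mul_pos h3 h2
  linarith

/-- the one dimensional identity. -/
lemma one_dim (k : ℝ → ℝ) (hk : Continuous k) (h0 : ∀ t, 1 ≤ |t| → k t = 0) :
    ∫ t, k t * ∫ s in (-6 : ℝ)..0, k (t + s) = 1 / 2 * (∫ t in (-1 : ℝ)..1, k t) ^ 2 := by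
  have hsupp : Function.support (fun t => k t * ∫ s in (-6 : ℝ)..0, k (t + s)) ⊆ Ioc (-1) 1 := by
    intro t ht
    by_contra hn
    apply ht
    have : 1 ≤ |t| := by
      rw [mem_Ioc, not_and_or, not_lt, not_le] at hn
      rcases hn with hn | hn
      · rw [abs_of_nonpos (by linarith)]; linarith
      · rw [abs_of_pos (by linarith)]; linarith
    simp [h0 t this]
  rw [← intervalIntegral.integral_eq_integral_of_support_subset hsupp]
  set K : ℝ → ℝ := fun t => ∫ s in (-1 : ℝ)..t, k s with hK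
  have hKd : ∀ t, HasDerivAt K (k t) t := fun t =>
    intervalIntegral.integral_hasDerivAt_right (hk.intervalIntegrable _ _)
      (hk.stronglyMeasurableAtFilter _ _) hk.continuousAt
  have hKc : Continuous K := continuous_iff_continuousAt.2 fun t => (hKd t).continuousAt
  have h1 : ∫ t in (-1 : ℝ)..1, (k t * ∫ s in (-6 : ℝ)..0, k (t + s)) =
      ∫ t in (-1 : ℝ)..1, k t * K t := by
    apply intervalIntegral.integral_congr
    intro t ht
    rw [uIcc_of_le (by norm_num)] at ht
    have e1 : ∫ s in (-6 : ℝ)..0, k (t + s) = ∫ s in (t + -6)..(t + 0), k s :=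
      intervalIntegral.integral_comp_add_left k t
    have e2 : ∫ s in (t + -6)..(-1 : ℝ), k s = 0 := by
      rw [intervalIntegral.integral_congr (g := fun _ => (0 : ℝ))]
      · simp
      · intro s hs
        rw [uIcc_of_le (by linarith [ht.2])] at hs
        apply h0
        rw [abs_of_nonpos (by linarith [hs.2])]
        linarith [hs.2]
    have e3 := intervalIntegral.integral_add_adjacent_intervals
      (hk.intervalIntegrable (μ := volume) (t + -6) (-1)) (hk.intervalIntegrable (-1) t)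
    simp only
    rw [e1, add_zero, ← e3, e2, zero_add]
  rw [h1]
  have h2 : ∀ t ∈ uIcc (-1 : ℝ) 1, HasDerivAt (fun t => 1 / 2 * K t ^ 2) (k t * K t) t := by
    intro t _
    have := ((hKd t).pow 2).const_mul (1 / 2)
    exact this.congr_deriv (by simp; ring)
  rw [intervalIntegral.integral_eq_sub_of_hasDerivAt h2
    ((hk.mul hKc).intervalIntegrable _ _)]
  simp [hK]

/-- the transversal space. -/
abbrev P := Fin 3 → ℝ

def rho (y : P) : ℝ := y 0 ^ 2 + y 1 ^ 2 + y 2 ^ 2

lemma rho_cont : Continuous rho := by unfold rho; fun_prop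

lemma rho_nonneg (y : P) : 0 ≤ rho y := by unfold rho; positivity

lemma sq_le_rho (y : P) (i : Fin 3) : y i ^ 2 ≤ rho y := by
  unfold rho
  fin_cases i <;> simp <;> nlinarith [sq_nonneg (y 0), sq_nonneg (y 1), sq_nonneg (y 2)]

lemma one_le_rho {y : P} (h : y ∉ Metric.closedBall (0 : P) 1) : 1 ≤ rho y := by
  by_contra hn
  apply h
  rw [mem_closedBall_zero_iff, pi_norm_le_iff_of_nonneg zero_le_one]
  intro i
  have := sq_le_rho y i
  rw [Real.norm_eq_abs, ← sq_le_one_iff_abs_le_one]
  linarith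

lemma one_le_prod {p : ℝ × P} (h : p ∉ Metric.closedBall (0 : ℝ × P) 1) :
    1 ≤ p.1 ^ 2 + rho p.2 := by
  by_contra hn
  apply h
  rw [mem_closedBall_zero_iff, Prod.norm_def, max_le_iff]
  have h1 := rho_nonneg p.2
  constructor
  · rw [Real.norm_eq_abs, ← sq_le_one_iff_abs_le_one]; linarith
  · by_contra h2
    have := one_le_rho (y := p.2) (by rwa [mem_closedBall_zero_iff])
    nlinarith [sq_nonneg p.1]

/-- admissible functions on the product. -/
structure Adm (κ : ℝ × P → ℝ) : Prop where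
  cont : Continuous κ
  zero : ∀ p : ℝ × P, 1 ≤ p.1 ^ 2 + rho p.2 → κ p = 0

lemma Adm.add {κ κ' : ℝ × P → ℝ} (h : Adm κ) (h' : Adm κ') : Adm (fun p => κ p + κ' p) :=
  ⟨h.cont.add h'.cont, fun p hp => by simp [h.zero p hp, h'.zero p hp]⟩

lemma Adm.smul {κ : ℝ × P → ℝ} (h : Adm κ) (c : ℝ) : Adm (fun p => c * κ p) :=
  ⟨continuous_const.mul h.cont, fun p hp => by simp [h.zero p hp]⟩

lemma Adm.integrable {κ : ℝ × P → ℝ} (h : Adm κ) : Integrable κ := by
  apply h.cont.integrable_of_hasCompactSupport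
  exact HasCompactSupport.intro (isCompact_closedBall 0 1) fun p hp => h.zero p (one_le_prod hp)

/-- line integral. -/
noncomputable def bar (κ : ℝ × P → ℝ) (y : P) : ℝ := ∫ t in (-1 : ℝ)..1, κ (t, y)

lemma Adm.bar_cont {κ : ℝ × P → ℝ} (h : Adm κ) : Continuous (bar κ) := by
  unfold bar
  apply intervalIntegral.continuous_parametric_intervalIntegral_of_continuous'
  exact h.cont.comp continuous_swap

lemma Adm.bar_zero {κ : ℝ × P → ℝ} (h : Adm κ) {y : P} (hy : 1 ≤ rho y) : bar κ y = 0 := by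
  unfold bar
  have : ∀ t : ℝ, κ (t, y) = 0 := fun t => h.zero _ (by simp only; nlinarith [sq_nonneg t])
  simp [this]

lemma bar_add {κ κ' : ℝ × P → ℝ} (h : Adm κ) (h' : Adm κ') (y : P) :
    bar (fun p => κ p + κ' p) y = bar κ y + bar κ' y := by
  unfold bar
  apply intervalIntegral.integral_add
  · exact (h.cont.comp (by fun_prop : Continuous fun t : ℝ => (t, y))).intervalIntegrable _ _
  · exact (h'.cont.comp (by fun_prop : Continuous fun t : ℝ => (t, y))).intervalIntegrable _ _

lemma bar_smul (κ : ℝ × P → ℝ) (c : ℝ) (y : P) : bar (fun p => c * κ p) y = c * bar κ y := by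
  unfold bar
  exact intervalIntegral.integral_const_mul _ _

lemma Adm.zero_abs {κ : ℝ × P → ℝ} (h : Adm κ) (y : P) (t : ℝ) (ht : 1 ≤ |t|) : κ (t, y) = 0 := by
  apply h.zero
  have := rho_nonneg y
  have h2 : 1 ≤ t ^ 2 := by rw [← sq_abs]; nlinarith
  simp only
  linarith

/-- the quadratic integrand. -/
noncomputable def quad (κ : ℝ × P → ℝ) (p : ℝ × P) : ℝ :=
  κ p * ∫ s in (-6 : ℝ)..0, κ (p.1 + s, p.2)

lemma Adm.quad {κ : ℝ × P → ℝ} (h : Adm κ) : Adm (quad κ) := by
  refine ⟨h.cont.mul ?_, fun p hp => by simp [Flat.quad, h.zero p hp]⟩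
  apply intervalIntegral.continuous_parametric_intervalIntegral_of_continuous'
  exact h.cont.comp (by fun_prop : Continuous fun q : (ℝ × P) × ℝ => (q.1.1 + q.2, q.1.2))

lemma Adm.integral_quad {κ : ℝ × P → ℝ} (h : Adm κ) :
    ∫ p, Flat.quad κ p = ∫ y, 1 / 2 * bar κ y ^ 2 := by
  have hi := h.quad.integrable
  rw [Measure.volume_eq_prod] at hi ⊢
  rw [integral_prod_symm _ hi]
  congr 1
  ext y
  exact one_dim (fun t => κ (t, y)) (h.cont.comp (by fun_prop)) (h.zero_abs y)

lemma Adm.integral_eq {κ : ℝ × P → ℝ} (h : Adm κ) : ∫ p, κ p = ∫ y, bar κ y := by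
  have hi := h.integrable
  rw [Measure.volume_eq_prod] at hi ⊢
  rw [integral_prod_symm _ hi]
  congr 1
  ext y
  unfold bar
  symm
  apply intervalIntegral.integral_eq_integral_of_support_subset
  intro t ht
  by_contra hn
  apply ht
  apply h.zero_abs
  rw [mem_Ioc, not_and_or, not_lt, not_le] at hn
  rcases hn with hn | hn
  · rw [abs_of_nonpos (by linarith)]; linarith
  · rw [abs_of_pos (by linarith)]; linarith

lemma integrable_P {f : P → ℝ} (hf : Continuous f) (h0 : ∀ y, 1 ≤ rho y → f y = 0) :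
    Integrable f := by
  apply hf.integrable_of_hasCompactSupport
  exact HasCompactSupport.intro (isCompact_closedBall 0 1) fun p hp => h0 p (one_le_rho hp)

/-- second derivative along the line direction. -/
noncomputable def hv (p : ℝ × P) : ℝ :=
  2 * g1 (p.1 ^ 2 + rho p.2) + 4 * g2 (p.1 ^ 2 + rho p.2) * p.1 ^ 2

/-- second derivative in a transversal direction. -/
noncomputable def hw (j : Fin 3) (p : ℝ × P) : ℝ :=
  2 * g1 (p.1 ^ 2 + rho p.2) + 4 * g2 (p.1 ^ 2 + rho p.2) * p.2 j ^ 2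

lemma adm_hv : Adm hv := by
  have h1 : Continuous g1 := G_cont _
  have h2 : Continuous g2 := G_cont _
  have h3 := rho_cont
  refine ⟨by unfold hv; fun_prop, fun p hp => ?_⟩
  simp [hv, g1, g2, G_zero _ hp]

lemma adm_hw (j : Fin 3) : Adm (hw j) := by
  have h1 : Continuous g1 := G_cont _
  have h2 : Continuous g2 := G_cont _
  have h3 := rho_cont
  refine ⟨by unfold hw; fun_prop, fun p hp => ?_⟩
  simp [hw, g1, g2, G_zero _ hp]

lemma bar_hv (y : P) : bar hv y = 0 := by
  unfold bar
  have hd : ∀ t ∈ uIcc (-1 : ℝ) 1,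
      HasDerivAt (fun t : ℝ => 2 * t * g1 (t ^ 2 + rho y)) (hv (t, y)) t := by
    intro t _
    have h1 : HasDerivAt (fun t : ℝ => t ^ 2 + rho y) (2 * t) t := by
      simpa using (hasDerivAt_pow 2 t).add_const (rho y)
    have h2 := (G_deriv (dp 1) (t ^ 2 + rho y)).comp t h1
    have h3 := ((hasDerivAt_id t).const_mul 2).mul h2
    refine h3.congr_deriv ?_
    simp only [hv, g1, g2, id, Function.comp]
    ring
  rw [intervalIntegral.integral_eq_sub_of_hasDerivAt hd
    ((adm_hv.cont.comp (by fun_prop : Continuous fun t : ℝ => (t, y))).intervalIntegrable _ _)]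
  have := rho_nonneg y
  have e : g1 (1 + rho y) = 0 := G_zero _ (by linarith)
  simp [e]

/-- line integrals of the transversal second derivatives. -/
noncomputable def L (j : Fin 3) : P → ℝ := bar (hw j)

lemma L_cont (j : Fin 3) : Continuous (L j) := (adm_hw j).bar_cont

lemma L_zero (j : Fin 3) {y : P} (hy : 1 ≤ rho y) : L j y = 0 := (adm_hw j).bar_zero hy

lemma L_origin : L 0 0 < 0 := by
  have h : 0 < ∫ t in (-1 : ℝ)..1, -hw 0 (t, 0) := by
    apply intervalIntegral.intervalIntegral_pos_of_pos_on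
    · exact (((adm_hw 0).cont.comp
        (by fun_prop : Continuous fun t : ℝ => (t, (0 : P)))).neg).intervalIntegrable _ _
    · intro t ht
      have h1 : t ^ 2 < 1 := by nlinarith [ht.1, ht.2]
      have := g1_neg h1
      simp [hw, rho]
      linarith
    · norm_num
  rw [intervalIntegral.integral_neg] at h
  unfold L bar
  linarith

/-- the functional in coordinates. -/
noncomputable def q (i j k : Fin 3) : ℝ :=
  ∫ y, (1 / 16 * (L j y + L k y) ^ 2 - 1 / 32 * L i y ^ 2)

lemma q_integrable (i j k : Fin 3) :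
    Integrable fun y => 1 / 16 * (L j y + L k y) ^ 2 - 1 / 32 * L i y ^ 2 := by
  have := L_cont
  apply integrable_P (by fun_prop)
  intro y hy
  simp [L_zero _ hy]

lemma q_sum_pos : 0 < q 0 1 2 + q 1 2 0 + q 2 0 1 := by
  unfold q
  have hi : Integrable fun y => 1 / 16 * (L 1 y + L 2 y) ^ 2 - 1 / 32 * L 0 y ^ 2 +
      (1 / 16 * (L 2 y + L 0 y) ^ 2 - 1 / 32 * L 1 y ^ 2) :=
    (q_integrable _ _ _).add (q_integrable _ _ _)
  rw [← integral_add (q_integrable _ _ _) (q_integrable _ _ _),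
    ← integral_add hi (q_integrable _ _ _)]
  have hc := L_cont
  have e : ∀ y, 1 / 16 * (L 1 y + L 2 y) ^ 2 - 1 / 32 * L 0 y ^ 2 +
      (1 / 16 * (L 2 y + L 0 y) ^ 2 - 1 / 32 * L 1 y ^ 2) +
      (1 / 16 * (L 0 y + L 1 y) ^ 2 - 1 / 32 * L 2 y ^ 2) =
      1 / 32 * (L 0 y ^ 2 + L 1 y ^ 2 + L 2 y ^ 2 + 2 * (L 0 y + L 1 y + L 2 y) ^ 2) := by
    intro y; ring
  simp only [e]
  apply Continuous.integral_pos_of_hasCompactSupport_nonneg_nonzero (x := 0)
  · fun_prop
  · exact HasCompactSupport.intro (isCompact_closedBall 0 1) fun p hp => by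
      simp [L_zero _ (one_le_rho hp)]
  · intro y; positivity
  · have := L_origin
    have h2 : 0 < L 0 0 ^ 2 := by nlinarith
    positivity

lemma integral_coord (i j k : Fin 3) :
    ∫ p : ℝ × P, (1 / 8 * (hw j p + hw k p + 2 * hv p) *
        (∫ s in (-6 : ℝ)..0, (hw j (p.1 + s, p.2) + hw k (p.1 + s, p.2) + 2 * hv (p.1 + s, p.2))) -
      1 / 16 * (hw i p + hv p) *
        ∫ s in (-6 : ℝ)..0, (hw i (p.1 + s, p.2) + hv (p.1 + s, p.2))) = q i j k := by
  have a1 : Adm fun p => hw j p + hw k p + 2 * hv p :=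
    ((adm_hw j).add (adm_hw k)).add (adm_hv.smul 2)
  have a2 : Adm fun p => hw i p + hv p := (adm_hw i).add adm_hv
  have b1 : ∀ y, bar (fun p => hw j p + hw k p + 2 * hv p) y = L j y + L k y := by
    intro y
    rw [bar_add ((adm_hw j).add (adm_hw k)) (adm_hv.smul 2), bar_add (adm_hw j) (adm_hw k),
      bar_smul, bar_hv]
    simp [L]
  have b2 : ∀ y, bar (fun p => hw i p + hv p) y = L i y := by
    intro y
    rw [bar_add (adm_hw i) adm_hv, bar_hv]
    simp [L]
  have e : ∀ p : ℝ × P, (1 / 8 * (hw j p + hw k p + 2 * hv p) *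
        (∫ s in (-6 : ℝ)..0, (hw j (p.1 + s, p.2) + hw k (p.1 + s, p.2) + 2 * hv (p.1 + s, p.2))) -
      1 / 16 * (hw i p + hv p) *
        ∫ s in (-6 : ℝ)..0, (hw i (p.1 + s, p.2) + hv (p.1 + s, p.2))) =
      1 / 8 * quad (fun p => hw j p + hw k p + 2 * hv p) p -
        1 / 16 * quad (fun p => hw i p + hv p) p := by
    intro p; simp only [quad]; ring
  simp only [e]
  rw [integral_sub (a1.quad.integrable.const_mul _) (a2.quad.integrable.const_mul _),
    integral_const_mul, integral_const_mul, a1.integral_quad, a2.integral_quad]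
  simp only [b1, b2]
  have hc := L_cont
  have i1 : Integrable fun y => 1 / 2 * (L j y + L k y) ^ 2 :=
    integrable_P (by fun_prop) fun y hy => by simp [L_zero _ hy]
  have i2 : Integrable fun y => 1 / 2 * L i y ^ 2 :=
    integrable_P (by fun_prop) fun y hy => by simp [L_zero _ hy]
  rw [← integral_const_mul, ← integral_const_mul,
    ← integral_sub (i1.const_mul _) (i2.const_mul _)]
  unfold q
  congr 1
  ext y
  ring

lemma integral_hv : ∫ p, hv p = 0 := by
  rw [adm_hv.integral_eq]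
  simp [bar_hv]

end Flat

end Pool.Agent.MP_019006_gt
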