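import Pool.Agent.MP_019006_gt.Metric
import Pool.Agent.MP_019006_gt.FlowExist
import Pool.Agent.MP_019006_gt.FlowMeasure

set_option autoImplicit false

open MeasureTheory Filter Topology Set Matrix

namespace Pool.Agent.MP_019006_gt

namespace FG

theorem hasFDerivAt_Dd (x : EE) : HasFDerivAt Dd (-(2 : ℝ) • innerSL ℝ x) x := by
  have h := (hasStrictFDerivAt_norm_sq x).hasFDerivAt.const_sub (1 : ℝ)
  have e : (-(2 : ℝ) • innerSL ℝ x : EE →L[ℝ] ℝ) = -(2 • innerSL ℝ x) := by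
    ext w
    simp
  rw [e]
  exact h

theorem al_re (x u : EE) : (al x u).re = inner ℝ x u / Dd x := by
  rw [al, Complex.div_ofReal_re, ip_re, real_inner_comm]

theorem al_rsmul (x : EE) (c : ℝ) (u : EE) : al x (c • u) = c * al x u := by
  rw [rsmul_eq, al_smul]

theorem normSq_al_le {x : EE} (hx : x ∈ Bl) (u : EE) :
    (al x u).re ^ 2 + (al x u).im ^ 2 + ‖u‖ ^ 2 / Dd x = g0 x u u := by
  have hD := Dd_pos hx
  have h1 : (al x u).re ^ 2 + (al x u).im ^ 2 = ‖al x u‖ ^ 2 := by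
    rw [Complex.sq_norm, Complex.normSq_apply]; ring
  rw [h1, g0_self, al, norm_div, div_pow, Complex.norm_real, Real.norm_eq_abs, sq_abs]
  ring

theorem re_al_sq_le {x : EE} (hx : x ∈ Bl) (u : EE) : (al x u).re ^ 2 ≤ g0 x u u := by
  have h := normSq_al_le hx u
  have hD := Dd_pos hx
  have : 0 ≤ ‖u‖ ^ 2 / Dd x := by positivity
  nlinarith [sq_nonneg (al x u).im]

theorem g0_nonneg {x : EE} (hx : x ∈ Bl) (u : EE) : 0 ≤ g0 x u u :=
  le_trans (sq_nonneg _) (g0_bounds hx u).1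

theorem exp_small : Real.exp (1 / 50) ≤ 11 / 10 := by
  have h := Real.exp_bound' (x := 1 / 50) (by norm_num) (by norm_num) (n := 1) (by norm_num)
  norm_num at h
  linarith

theorem en_eq (f : EE → ℝ) (p : EE × EE) : en f p = Real.exp (2 * f p.1) * g0 p.1 p.2 p.2 := rfl

theorem en_le {f : EE → ℝ} (hf : Conf f) {p : EE × EE} (hp : p.1 ∈ Bl) :
    en f p ≤ 11 / 10 * g0 p.1 p.2 p.2 := by
  rw [en_eq]
  have h1 := abs_le.1 (hf.fb _ hp)
  have h2 : Real.exp (2 * f p.1) ≤ 11 / 10 :=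
    le_trans (Real.exp_le_exp.2 (by linarith)) exp_small
  exact mul_le_mul_of_nonneg_right h2 (g0_nonneg hp _)

theorem le_en {f : EE → ℝ} (hf : Conf f) {p : EE × EE} (hp : p.1 ∈ Bl) :
    g0 p.1 p.2 p.2 ≤ 11 / 10 * en f p := by
  rw [en_eq]
  have h1 := abs_le.1 (hf.fb _ hp)
  have h2 : Real.exp (-(2 * f p.1)) ≤ 11 / 10 :=
    le_trans (Real.exp_le_exp.2 (by linarith)) exp_small
  have h3 : Real.exp (-(2 * f p.1)) * Real.exp (2 * f p.1) = 1 := by
    rw [← Real.exp_add]; simp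
  have h4 := g0_nonneg hp p.2
  have h5 := Real.exp_pos (2 * f p.1)
  calc g0 p.1 p.2 p.2 = Real.exp (-(2 * f p.1)) * (Real.exp (2 * f p.1) * g0 p.1 p.2 p.2) := by
        rw [← mul_assoc, h3, one_mul]
    _ ≤ _ := mul_le_mul_of_nonneg_right h2 (by positivity)

theorem en_nonneg (f : EE → ℝ) {p : EE × EE} (hp : p.1 ∈ Bl) : 0 ≤ en f p := by
  rw [en_eq]
  exact mul_nonneg (Real.exp_pos _).le (g0_nonneg hp _)

theorem fderiv_en_XX {f : EE → ℝ} (hf : ∀ n : ℕ, ContDiffOn ℝ n f Bl) {p : EE × EE}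
    (hp : p.1 ∈ Bl) : fderiv ℝ (en f) p (XX f p) = 0 := by
  rw [fderiv_en hf hp]
  simp [XX]

theorem diff_en {f : EE → ℝ} (hf : ∀ n : ℕ, ContDiffOn ℝ n f Bl) {p : EE × EE}
    (hp : p.1 ∈ Bl) : DifferentiableAt ℝ (en f) p :=
  ((contDiffOn_en hf 1).differentiableOn (by simp)).differentiableAt
    (isOpen_OO.mem_nhds (mem_OO.2 hp))

theorem diff_f {f : EE → ℝ} (hf : ∀ n : ℕ, ContDiffOn ℝ n f Bl) {x : EE}
    (hx : x ∈ Bl) : DifferentiableAt ℝ f x :=
  ((hf 1).differentiableOn (by simp)).differentiableAt (isOpen_Bl.mem_nhds hx)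

/-- The Lyapunov function. -/
noncomputable def VV (f : EE → ℝ) (p : EE × EE) : ℝ := -Real.log (Dd p.1) + en f p

theorem hasFDerivAt_VV {f : EE → ℝ} (hf : ∀ n : ℕ, ContDiffOn ℝ n f Bl) {p : EE × EE}
    (hp : p.1 ∈ Bl) : HasFDerivAt (VV f)
      (-((Dd p.1)⁻¹ • ((-(2 : ℝ) • innerSL ℝ p.1).comp (ContinuousLinearMap.fst ℝ EE EE))) +
        fderiv ℝ (en f) p) p := by
  have h1 : HasFDerivAt (fun q : EE × EE => Dd q.1)
      ((-(2 : ℝ) • innerSL ℝ p.1).comp (ContinuousLinearMap.fst ℝ EE EE)) p :=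
    (hasFDerivAt_Dd p.1).comp p hasFDerivAt_fst
  exact (h1.log (Dd_pos hp).ne').neg.add (diff_en hf hp).hasFDerivAt

theorem log_Dd_nonpos {x : EE} (hx : x ∈ Bl) : Real.log (Dd x) ≤ 0 :=
  Real.log_nonpos (Dd_pos hx).le (Dd_le_one x)

theorem compact_VV {f : EE → ℝ} (hf : Conf f) (c : ℝ) :
    IsCompact {p : EE × EE | p ∈ OO ∧ VV f p ≤ c} := by
  set K : Set (EE × EE) := {x : EE | Real.exp (-c) ≤ Dd x} ×ˢ Metric.closedBall 0 (2 * |c| + 1)
    with hK
  have hDc : Continuous Dd := by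
    unfold Dd
    fun_prop
  have hsub : ∀ x : EE, Real.exp (-c) ≤ Dd x → x ∈ Bl := fun x hx => by
    rw [mem_Bl]
    have h1 := Real.exp_pos (-c)
    have h2 : ‖x‖ ^ 2 < 1 := by
      unfold Dd at hx
      linarith
    nlinarith [norm_nonneg x]
  have hK1 : IsCompact {x : EE | Real.exp (-c) ≤ Dd x} := by
    refine (isCompact_closedBall (0 : EE) 1).of_isClosed_subset
      (isClosed_le continuous_const hDc) fun x hx => ?_
    have := mem_Bl.1 (hsub x hx)
    simpa using this.le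
  have hKc : IsCompact K := hK1.prod (isCompact_closedBall _ _)
  have hKO : K ⊆ OO := fun p hp => mem_OO.2 (hsub _ hp.1)
  have hcont : ContinuousOn (VV f) K := fun p hp =>
    (hasFDerivAt_VV hf.smooth (mem_OO.1 (hKO hp))).continuousAt.continuousWithinAt
  have hcl : IsClosed (K ∩ VV f ⁻¹' Iic c) :=
    hcont.preimage_isClosed_of_isClosed hKc.isClosed isClosed_Iic
  have e : {p : EE × EE | p ∈ OO ∧ VV f p ≤ c} = K ∩ VV f ⁻¹' Iic c := by
    ext p
    constructor
    · rintro ⟨hp, hc⟩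
      have hp1 := mem_OO.1 hp
      have h1 := log_Dd_nonpos hp1
      have h2 := en_nonneg f hp1
      have hc' : -Real.log (Dd p.1) + en f p ≤ c := hc
      refine ⟨⟨?_, ?_⟩, hc⟩
      · have h3 : -c ≤ Real.log (Dd p.1) := by linarith
        have h4 := Real.exp_le_exp.2 h3
        rwa [Real.exp_log (Dd_pos hp1)] at h4
      · have h3 := le_en hf hp1
        have h4 := (g0_bounds hp1 p.2).1
        have h5 := le_abs_self c
        rw [mem_closedBall_zero_iff]
        nlinarith [norm_nonneg p.2, abs_nonneg c, sq_nonneg (‖p.2‖ - 1)]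
    · rintro ⟨hp, hc⟩
      exact ⟨hKO hp, hc⟩
  rw [e]
  exact hKc.of_isClosed_subset hcl inter_subset_left

/-- `al x` as a real linear map. -/
noncomputable def alL (x : EE) : EE →ₗ[ℝ] ℂ where
  toFun := al x
  map_add' := al_add x
  map_smul' c u := by rw [al_rsmul]; simp

/-- `g0 x v` as a real linear map. -/
noncomputable def g0L (x v : EE) : EE →ₗ[ℝ] ℝ where
  toFun := g0 x v
  map_add' := g0_add_right x v
  map_smul' c u := by rw [g0_smul_right]; simp

/-- Multiplication by a complex number as a real linear map. -/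
noncomputable def mulC (c : ℂ) : EE →ₗ[ℝ] EE where
  toFun w := c • w
  map_add' := smul_add c
  map_smul' a w := by rw [smul_comm]; simp

theorem finrank_EE : Module.finrank ℝ EE = 4 := by
  rw [finrank_real_of_complex]
  simp

theorem trace_mulC (c : ℂ) : LinearMap.trace ℝ EE (mulC c) = 4 * c.re := by
  rw [LinearMap.trace_eq_sum_inner _ (stdOrthonormalBasis ℝ EE)]
  have h : ∀ i, inner ℝ (stdOrthonormalBasis ℝ EE i) (mulC c (stdOrthonormalBasis ℝ EE i)) =
      c.re := fun i => by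
    have h1 := (stdOrthonormalBasis ℝ EE).orthonormal.1 i
    rw [real_inner_comm, ← ip_re]
    change (ip (c • _) _).re = _
    rw [ip_smul_left, ip_self, h1]
    simp
  simp only [h, Finset.sum_const, Finset.card_univ, Fintype.card_fin, finrank_EE]
  simp

theorem trace_Gam (f : EE → ℝ) {x : EE} (hx : x ∈ Bl) (v : EE) :
    LinearMap.trace ℝ EE (GamL f x v : EE →ₗ[ℝ] EE) = 6 * (al x v).re + 4 * fderiv ℝ f x v := by
  have e : (GamL f x v : EE →ₗ[ℝ] EE) = mulC (al x v) +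
      (Complex.reLm.comp (alL x)).smulRight v +
      (Complex.imLm.comp (alL x)).smulRight (Complex.I • v) +
      fderiv ℝ f x v • LinearMap.id + (fderiv ℝ f x : EE →ₗ[ℝ] ℝ).smulRight v -
      (g0L x v).smulRight (NN f x) := by
    apply LinearMap.ext
    intro w
    change Gam f x v w = al x v • w + (al x w).re • v + (al x w).im • (Complex.I • v) +
      fderiv ℝ f x v • w + fderiv ℝ f x w • v - g0 x v w • NN f x
    have h : al x w • v = (al x w).re • v + (al x w).im • (Complex.I • v) := by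
      rw [rsmul_eq (al x w).re, rsmul_eq (al x w).im, smul_smul, ← add_smul, Complex.re_add_im]
    rw [Gam, Gam0, h]
    abel
  rw [e]
  simp only [map_add, map_sub, map_smul, trace_mulC, LinearMap.trace_smulRight,
    LinearMap.trace_id, finrank_EE]
  have h1 : (Complex.imLm.comp (alL x)) (Complex.I • v) = (al x v).re := by
    change (al x (Complex.I • v)).im = _
    rw [al_smul]
    simp
  have h2 : (Complex.reLm.comp (alL x)) v = (al x v).re := rfl
  have h3 : g0L x v (NN f x) = fderiv ℝ f x v := by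
    change g0 x v (NN f x) = _
    rw [g0_symm, g0_NN f hx]
  rw [h1, h2, h3]
  simp only [smul_eq_mul, ContinuousLinearMap.coe_coe]
  push_cast
  ring

theorem trace_XX {f : EE → ℝ} (hf : ∀ n : ℕ, ContDiffOn ℝ n f Bl) {p : EE × EE}
    (hp : p.1 ∈ Bl) :
    LinearMap.trace ℝ (EE × EE) (fderiv ℝ (XX f) p : (EE × EE) →L[ℝ] (EE × EE)) =
      -(12 * (al p.1 p.2).re + 8 * fderiv ℝ f p.1 p.2) := by
  set B : EE →ₗ[ℝ] EE := (fderiv ℝ (fun y => Gam f y p.2 p.2) p.1).toLinearMap with hB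
  set G : EE →ₗ[ℝ] EE := (GamL f p.1 p.2).toLinearMap with hG
  have e : ((fderiv ℝ (XX f) p : (EE × EE) →L[ℝ] (EE × EE)) : (EE × EE) →ₗ[ℝ] (EE × EE)) =
      (LinearMap.inl ℝ EE EE).comp (LinearMap.snd ℝ EE EE) -
      (LinearMap.inr ℝ EE EE).comp (B.comp (LinearMap.fst ℝ EE EE)) -
      (2 : ℝ) • (LinearMap.inr ℝ EE EE).comp (G.comp (LinearMap.snd ℝ EE EE)) := by
    apply LinearMap.ext
    intro ξ
    change fderiv ℝ (XX f) p ξ = _
    rw [fderiv_XX hf hp, Gam_symm f p.1 ξ.2 p.2]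
    ext1
    · simp
    · simp only [hB, hG, LinearMap.sub_apply, LinearMap.comp_apply, LinearMap.smul_apply,
        LinearMap.inl_apply, LinearMap.inr_apply, LinearMap.fst_apply, LinearMap.snd_apply,
        Prod.snd_sub, Prod.smul_snd, ContinuousLinearMap.coe_coe, GamL_apply]
      module
  have t1 : LinearMap.trace ℝ (EE × EE)
      ((LinearMap.inl ℝ EE EE).comp (LinearMap.snd ℝ EE EE)) = 0 := by
    rw [LinearMap.trace_comp_comm', LinearMap.snd_comp_inl, map_zero]
  have t2 : LinearMap.trace ℝ (EE × EE)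
      ((LinearMap.inr ℝ EE EE).comp (B.comp (LinearMap.fst ℝ EE EE))) = 0 := by
    rw [LinearMap.trace_comp_comm', LinearMap.comp_assoc, LinearMap.fst_comp_inr,
      LinearMap.comp_zero, map_zero]
  have t3 : LinearMap.trace ℝ (EE × EE)
      ((LinearMap.inr ℝ EE EE).comp (G.comp (LinearMap.snd ℝ EE EE))) =
      LinearMap.trace ℝ EE G := by
    rw [LinearMap.trace_comp_comm', LinearMap.comp_assoc, LinearMap.snd_comp_inr,
      LinearMap.comp_id]
  rw [e, map_sub, map_sub, map_smul, t1, t2, t3, hG, trace_Gam f hp]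
  simp only [smul_eq_mul]
  ring

theorem rho_pos (f : EE → ℝ) {p : EE × EE} (hp : p.1 ∈ Bl) : 0 < rho f p := by
  have := Dd_pos hp
  unfold rho
  positivity

theorem rho_deriv {f : EE → ℝ} (hf : ∀ n : ℕ, ContDiffOn ℝ n f Bl) {p : EE × EE}
    (hp : p.1 ∈ Bl) : DifferentiableAt ℝ (rho f) p ∧ fderiv ℝ (rho f) p (XX f p) =
      rho f p * (12 * (al p.1 p.2).re + 8 * fderiv ℝ f p.1 p.2) := by
  have hD := Dd_pos hp
  have h1 : HasFDerivAt (fun q : EE × EE => Dd q.1)
      ((-(2 : ℝ) • innerSL ℝ p.1).comp (ContinuousLinearMap.fst ℝ EE EE)) p :=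
    (hasFDerivAt_Dd p.1).comp p hasFDerivAt_fst
  have h2 : HasFDerivAt (fun q : EE × EE => f q.1)
      ((fderiv ℝ f p.1).comp (ContinuousLinearMap.fst ℝ EE EE)) p :=
    (diff_f hf hp).hasFDerivAt.comp p hasFDerivAt_fst
  have h3 := ((h2.const_mul 8).sub ((h1.log hD.ne').const_mul 6)).exp
  have e : rho f =ᶠ[𝓝 p] fun q : EE × EE =>
      Real.exp (((fun q : EE × EE => 8 * f q.1) - fun q : EE × EE => 6 * Real.log (Dd q.1)) q) := by
    filter_upwards [isOpen_OO.mem_nhds (mem_OO.2 hp)] with q hq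
    have hq' := Dd_pos (mem_OO.1 hq)
    simp only [Pi.sub_apply]
    rw [Real.exp_sub, rho]
    congr 1
    rw [mul_comm, Real.exp_mul, Real.exp_log hq']
    norm_cast
  have h4 := h3.congr_of_eventuallyEq e
  refine ⟨h4.differentiableAt, ?_⟩
  rw [h4.fderiv, ← e.eq_of_nhds, al_re]
  simp [XX]
  ring

end FG

end Pool.Agent.MP_019006_gt
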