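import Pool.Agent.MP_019006_gt.Lattice4

/-! A torsion-free uniform arithmetic lattice in U(2,1). -/

set_option autoImplicit false

open MeasureTheory Filter Topology Set Matrix

namespace Pool.Agent.MP_019006_gt

namespace Lat

/-- The two embeddings of `a + b √2 + (c + d √2) i`. -/
noncomputable def ee (a b c d : ℤ) : ℂ × ℂ :=
  (⟨a + b * √2, c + d * √2⟩, ⟨a - b * √2, c - d * √2⟩)

lemma hq : √2 * √2 = (2 : ℝ) := Real.mul_self_sqrt (by norm_num)

lemma ee_add (a b c d a' b' c' d' : ℤ) :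
    ee a b c d + ee a' b' c' d' = ee (a + a') (b + b') (c + c') (d + d') := by
  refine Prod.ext (Complex.ext ?_ ?_) (Complex.ext ?_ ?_) <;> simp [ee] <;> ring

/-- The ring generated by `√2` and `i`, embedded in `ℂ × ℂ`. -/
noncomputable def RR : StarSubalgebra ℤ (ℂ × ℂ) where
  carrier := {z | ∃ a b c d : ℤ, z = ee a b c d}
  mul_mem' := by
    rintro _ _ ⟨a, b, c, d, rfl⟩ ⟨a', b', c', d', rfl⟩
    refine ⟨a * a' + 2 * b * b' - c * c' - 2 * d * d', a * b' + b * a' - c * d' - d * c',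
      a * c' + 2 * b * d' + c * a' + 2 * d * b', a * d' + b * c' + c * b' + d * a', ?_⟩
    refine Prod.ext (Complex.ext ?_ ?_) (Complex.ext ?_ ?_) <;>
      simp only [ee, Prod.fst_mul, Prod.snd_mul, Complex.mul_re, Complex.mul_im] <;> push_cast
    · linear_combination (b * b' - d * d' : ℝ) * hq
    · linear_combination (b * d' + d * b' : ℝ) * hq
    · linear_combination (b * b' - d * d' : ℝ) * hq
    · linear_combination (b * d' + d * b' : ℝ) * hq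
  add_mem' := by
    rintro _ _ ⟨a, b, c, d, rfl⟩ ⟨a', b', c', d', rfl⟩
    exact ⟨_, _, _, _, ee_add ..⟩
  algebraMap_mem' := fun n => ⟨n, 0, 0, 0, by
    refine Prod.ext (Complex.ext ?_ ?_) (Complex.ext ?_ ?_) <;> simp [ee]⟩
  star_mem' := by
    rintro _ ⟨a, b, c, d, rfl⟩
    refine ⟨a, b, -c, -d, ?_⟩
    refine Prod.ext (Complex.ext ?_ ?_) (Complex.ext ?_ ?_) <;> simp [ee] <;> ring

/-- Integer coordinates. -/
noncomputable def par : (ℤ × ℤ × ℤ × ℤ) →+ RR where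
  toFun x := ⟨ee x.1 x.2.1 x.2.2.1 x.2.2.2, _, _, _, _, rfl⟩
  map_zero' := Subtype.ext <| by
    refine Prod.ext (Complex.ext ?_ ?_) (Complex.ext ?_ ?_) <;> simp [ee]
  map_add' _ _ := Subtype.ext (ee_add ..).symm

lemma par_surj : Function.Surjective par := by
  rintro ⟨_, a, b, c, d, rfl⟩
  exact ⟨(a, b, c, d), rfl⟩

lemma sq_ne {A B : ℤ} (h : A ^ 2 - 2 * B ^ 2 = 0) : A = 0 := by
  by_cases hB : B = 0
  · subst hB
    simpa using h
  · exfalso
    have h1 : ((A : ℝ) / B) ^ 2 = 2 := by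
      have : (A : ℝ) ^ 2 - 2 * B ^ 2 = 0 := by exact_mod_cast h
      have hB' : (B : ℝ) ≠ 0 := by exact_mod_cast hB
      field_simp
      linarith
    refine irrational_sqrt_two ⟨|(A : ℚ) / B|, ?_⟩
    rw [← h1, Real.sqrt_sq_eq_abs]
    push_cast
    rfl

lemma ee_norm {a b c d : ℤ} (h : ee a b c d ≠ 0) : 1 ≤ ‖(ee a b c d).1‖ * ‖(ee a b c d).2‖ := by
  have e : (‖(ee a b c d).1‖ * ‖(ee a b c d).2‖) ^ 2 =
      (((a ^ 2 + 2 * b ^ 2 + c ^ 2 + 2 * d ^ 2) ^ 2 - 2 * (2 * (a * b + c * d)) ^ 2 : ℤ) : ℝ) := by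
    rw [mul_pow, Complex.sq_norm, Complex.sq_norm]
    simp only [ee, Complex.normSq_mk]
    push_cast
    linear_combination ((2 * (a ^ 2 + c ^ 2) * (b ^ 2 + d ^ 2) + (b ^ 2 + d ^ 2) ^ 2 *
      (√2 * √2 + 2) - 4 * (a * b + c * d) ^ 2 : ℝ)) * hq
  have h0 : (a ^ 2 + 2 * b ^ 2 + c ^ 2 + 2 * d ^ 2) ^ 2 - 2 * (2 * (a * b + c * d)) ^ 2 ≠ 0 := by
    intro h0
    have h1 := sq_ne h0
    have ha : a = 0 := by nlinarith [sq_nonneg a, sq_nonneg b, sq_nonneg c, sq_nonneg d]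
    have hb : b = 0 := by nlinarith [sq_nonneg a, sq_nonneg b, sq_nonneg c, sq_nonneg d]
    have hc : c = 0 := by nlinarith [sq_nonneg a, sq_nonneg b, sq_nonneg c, sq_nonneg d]
    have hd : d = 0 := by nlinarith [sq_nonneg a, sq_nonneg b, sq_nonneg c, sq_nonneg d]
    refine h ?_
    subst ha hb hc hd
    refine Prod.ext (Complex.ext ?_ ?_) (Complex.ext ?_ ?_) <;> simp [ee]
  have h1 : (0 : ℤ) ≤
      (a ^ 2 + 2 * b ^ 2 + c ^ 2 + 2 * d ^ 2) ^ 2 - 2 * (2 * (a * b + c * d)) ^ 2 := by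
    have := sq_nonneg (‖(ee a b c d).1‖ * ‖(ee a b c d).2‖)
    rw [e] at this
    exact_mod_cast this
  have h2 : (1 : ℝ) ≤ (‖(ee a b c d).1‖ * ‖(ee a b c d).2‖) ^ 2 := by
    rw [e]
    exact_mod_cast lt_of_le_of_ne h1 h0.symm
  exact (one_le_sq_iff₀ (by positivity)).1 h2

lemma coord_le {a b : ℤ} {C : ℝ} (h1 : |a + b * √2| ≤ C) (h2 : |a - b * √2| ≤ C) :
    a ∈ Icc (-⌈C⌉) ⌈C⌉ ∧ b ∈ Icc (-⌈C⌉) ⌈C⌉ := by
  have h3 : (1 : ℝ) ≤ √2 := Real.one_le_sqrt.2 (by norm_num)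
  have h4 := Int.le_ceil C
  rw [abs_le] at h1 h2
  have h5 : |(b : ℝ)| ≤ C := by
    have : |(b : ℝ) * √2| ≤ C := abs_le.2 ⟨by linarith, by linarith⟩
    rw [abs_mul, abs_of_pos (by linarith : (0 : ℝ) < √2)] at this
    nlinarith [abs_nonneg (b : ℝ)]
  rw [abs_le] at h5
  refine ⟨⟨?_, ?_⟩, ?_, ?_⟩ <;> rw [← Int.cast_le (R := ℝ)] <;> push_cast <;> linarith

lemma dat : Dat ((RingHom.fst ℂ ℂ).comp (SubringClass.subtype RR))
    ((RingHom.snd ℂ ℂ).comp (SubringClass.subtype RR)) (par (0, 1, 0, 0)) √√2 where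
  hσ _ := rfl
  hτ _ := rfl
  hN := by
    rintro ⟨_, a, b, c, d, rfl⟩ h
    exact ee_norm fun h0 => h (Subtype.ext h0)
  hF C := by
    have hI := Set.finite_Icc (-⌈C⌉) ⌈C⌉
    refine ((hI.prod (hI.prod (hI.prod hI))).image par).subset ?_
    rintro ⟨_, a, b, c, d, rfl⟩ ⟨h1, h2⟩
    have e1 := coord_le ((Complex.abs_re_le_norm _).trans h1) ((Complex.abs_re_le_norm _).trans h2)
    have e2 := coord_le ((Complex.abs_im_le_norm _).trans h1) ((Complex.abs_im_le_norm _).trans h2)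
    exact ⟨(a, b, c, d), ⟨e1.1, e1.2, e2.1, e2.2⟩, rfl⟩
  r1 := Real.one_le_sqrt.2 (Real.one_le_sqrt.2 (by norm_num))
  r2 := Real.sqrt_le_iff.2 ⟨by norm_num, Real.sqrt_le_iff.2 ⟨by norm_num, by norm_num⟩⟩
  sσ := by
    rw [← Complex.ofReal_pow, Real.sq_sqrt (Real.sqrt_nonneg _)]
    change (ee 0 1 0 0).1 = _
    refine Complex.ext ?_ ?_ <;> simp [ee]
  sτ := by
    rw [← Complex.ofReal_pow, Real.sq_sqrt (Real.sqrt_nonneg _)]
    change (ee 0 1 0 0).2 = _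
    refine Complex.ext ?_ ?_ <;> simp [ee]
  bas := by
    have hli : LinearIndependent ℝ ![ee 1 0 0 0, ee 0 1 0 0, ee 0 0 1 0, ee 0 0 0 1] := by
      rw [Fintype.linearIndependent_iff]
      intro g hg
      have h3 : (0 : ℝ) < √2 := by positivity
      have e1 := congrArg (fun z : ℂ × ℂ => z.1.re) hg
      have e2 := congrArg (fun z : ℂ × ℂ => z.1.im) hg
      have e3 := congrArg (fun z : ℂ × ℂ => z.2.re) hg
      have e4 := congrArg (fun z : ℂ × ℂ => z.2.im) hg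
      simp [Fin.sum_univ_four, ee] at e1 e2 e3 e4
      intro i
      fin_cases i <;> simp <;> nlinarith
    refine ⟨basisOfLinearIndependentOfCardEqFinrank hli (by simp), fun i => ?_⟩
    rw [coe_basisOfLinearIndependentOfCardEqFinrank]
    fin_cases i
    · exact ⟨par (1, 0, 0, 0), rfl⟩
    · exact ⟨par (0, 1, 0, 0), rfl⟩
    · exact ⟨par (0, 0, 1, 0), rfl⟩
    · exact ⟨par (0, 0, 0, 1), rfl⟩

end Lat

theorem exists_lattice (Λ : ℝ) : ∃ (G : Type) (_ : Group G) (_ : Countable G)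
    (ρ : G →* Matrix (Fin 3) (Fin 3) ℂ), IsLattice Λ G ρ :=
  @Lat.lat_of_dat Lat.RR _ _ _ _ _ _
    (Module.Finite.of_surjective Lat.par.toIntLinearMap Lat.par_surj) Lat.par_surj.countable
    Lat.dat Λ

end Pool.Agent.MP_019006_gt
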