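import Pool.Agent.MP_019006_gt.JobDefs

/-! Elementary facts on U(2,1) and U(3). -/

set_option autoImplicit false

open MeasureTheory Filter Topology Set Matrix

namespace Pool.Agent.MP_019006_gt.Lat

/-- Complex 3 by 3 matrices. -/
abbrev C3 := Matrix (Fin 3) (Fin 3) ℂ

lemma conj_mul_eq (z : ℂ) : star z * z = ((‖z‖ ^ 2 : ℝ) : ℂ) := by
  rw [Complex.star_def, Complex.conj_mul']
  push_cast
  rfl

lemma Jm_sq : Jm * Jm = 1 := by
  ext i j
  fin_cases i <;> fin_cases j <;> simp [Jm]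

lemma Jm_ct : Jmᴴ = Jm := by
  ext i j
  fin_cases i <;> fin_cases j <;> simp [Jm]

lemma Jm_det : Jm.det = -1 := by
  simp [Jm, Fin.prod_univ_three]

lemma form_entry (A B : C3) (i j : Fin 3) :
    (Aᴴ * Jm * B) i j = star (A 0 i) * B 0 j + star (A 1 i) * B 1 j - star (A 2 i) * B 2 j := by
  simp [Jm, Matrix.mul_apply, Fin.sum_univ_three, Matrix.diagonal]
  ring

lemma col_rel {A : C3} (h : Aᴴ * Jm * A = Jm) (j : Fin 3) :
    ‖A 0 j‖ ^ 2 + ‖A 1 j‖ ^ 2 - ‖A 2 j‖ ^ 2 = (Jm j j).re := by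
  have := congrFun (congrFun h j) j
  rw [form_entry, conj_mul_eq, conj_mul_eq, conj_mul_eq] at this
  rw [← this]
  simp only [Complex.sub_re, Complex.add_re, Complex.ofReal_re]

lemma unit_ct {A : C3} (h : Aᴴ * Jm * A = Jm) : Aᴴᴴ * Jm * Aᴴ = Jm := by
  have h1 : (Jm * Aᴴ * Jm) * A = 1 := by
    calc (Jm * Aᴴ * Jm) * A = Jm * (Aᴴ * Jm * A) := by simp only [Matrix.mul_assoc]
      _ = 1 := by rw [h, Jm_sq]
  have h2 : A * (Jm * Aᴴ * Jm) = 1 := mul_eq_one_comm.1 h1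
  rw [conjTranspose_conjTranspose]
  calc A * Jm * Aᴴ = A * (Jm * Aᴴ * Jm) * Jm := by
        simp only [Matrix.mul_assoc, Jm_sq, Matrix.mul_one]
    _ = Jm := by rw [h2, Matrix.one_mul]

lemma ent_le {A : C3} (h : Aᴴ * Jm * A = Jm) (i j : Fin 3) : ‖A i j‖ ≤ ‖A 2 2‖ := by
  have c0 := col_rel h 0
  have c1 := col_rel h 1
  have c2 := col_rel h 2
  have r2 := col_rel (unit_ct h) 2
  simp only [conjTranspose_apply, norm_star] at r2
  simp [Jm] at c0 c1 c2 r2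
  refine abs_le_of_sq_le_sq' ?_ (norm_nonneg _) |>.2
  have p := fun i j => sq_nonneg ‖A i j‖
  have p00 := p 0 0; have p01 := p 0 1; have p02 := p 0 2
  have p10 := p 1 0; have p11 := p 1 1; have p12 := p 1 2
  have p20 := p 2 0; have p21 := p 2 1
  fin_cases i <;> fin_cases j <;> simp <;> linarith

lemma norm_det {A : C3} (h : Aᴴ * Jm * A = Jm) : ‖A.det‖ = 1 := by
  have := congrArg Matrix.det h
  rw [det_mul, det_mul, det_conjTranspose, Jm_det] at this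
  have h2 : star A.det * A.det = 1 := by linear_combination -this
  have h3 := congrArg norm h2
  rw [norm_mul, norm_star, norm_one] at h3
  nlinarith [norm_nonneg A.det]

lemma unitary_col {A : C3} (h : Aᴴ * A = 1) (j : Fin 3) :
    ‖A 0 j‖ ^ 2 + ‖A 1 j‖ ^ 2 + ‖A 2 j‖ ^ 2 = 1 := by
  have := congrFun (congrFun h j) j
  simp only [Matrix.mul_apply, Fin.sum_univ_three, conjTranspose_apply, conj_mul_eq,
    one_apply_eq] at this
  exact_mod_cast this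

lemma unitary_le {A : C3} (h : Aᴴ * A = 1) (i j : Fin 3) : ‖A i j‖ ≤ 1 := by
  have c := unitary_col h j
  refine abs_le_of_sq_le_sq' ?_ zero_le_one |>.2
  have p0 := sq_nonneg ‖A 0 j‖
  have p1 := sq_nonneg ‖A 1 j‖
  have p2 := sq_nonneg ‖A 2 j‖
  fin_cases i <;> simp <;> nlinarith

lemma norm_trace_le {A : C3} (h : ∀ i j, ‖A i j‖ ≤ 1) : ‖A.trace‖ ≤ 3 := by
  rw [trace_fin_three]
  have := norm_add₃_le (a := A 0 0) (b := A 1 1) (c := A 2 2)
  linarith [h 0 0, h 1 1, h 2 2]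

open ComplexOrder in
lemma eq_one_of_trace {A : C3} (h : Aᴴ * A = 1) (ht : A.trace = 3) : A = 1 := by
  have h1 : ((A - 1)ᴴ * (A - 1)).trace = 0 := by
    rw [conjTranspose_sub, conjTranspose_one, Matrix.sub_mul, Matrix.mul_sub, Matrix.mul_sub, h,
      Matrix.mul_one, Matrix.one_mul, Matrix.one_mul, trace_sub, trace_sub, trace_sub,
      trace_conjTranspose, ht, trace_one]
    simp
  rw [trace_conjTranspose_mul_self_eq_zero_iff] at h1
  exact sub_eq_zero.1 h1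

/-- An involution in U(2,1) moving a negative vector to the last axis. -/
lemma exists_refl (Z : Fin 3 → ℂ) (hZ : Qf Z < 0) : ∃ (h : C3) (l : ℂ), hᴴ * Jm * h = Jm ∧
    h * h = 1 ∧ h *ᵥ Z = l • (Pi.single 2 1 : Fin 3 → ℂ) ∧ ‖l‖ ^ 2 = -Qf Z := by
  obtain ⟨m, hm0, hm⟩ : ∃ m : ℝ, 0 < m ∧ m ^ 2 = -Qf Z :=
    ⟨Real.sqrt (-Qf Z), Real.sqrt_pos.2 (by linarith), Real.sq_sqrt (by linarith)⟩
  have hz : 0 < ‖Z 2‖ := by
    refine (norm_nonneg _).lt_of_ne fun h0 => ?_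
    unfold Qf at hZ
    rw [← h0] at hZ
    nlinarith [sq_nonneg ‖Z 0‖, sq_nonneg ‖Z 1‖]
  set t : ℝ := m / ‖Z 2‖ with ht
  have ht0 : 0 < t := div_pos hm0 hz
  have htm : t * ‖Z 2‖ = m := div_mul_cancel₀ _ hz.ne'
  set w : Fin 3 → ℂ := ![Z 0, Z 1, (1 + t) * Z 2] with hw
  set q : ℝ := -m ^ 2 - t * ‖Z 2‖ ^ 2 with hq
  have hq0 : (q : ℂ) ≠ 0 := by
    have : q < 0 := by rw [hq]; nlinarith [mul_pos ht0 (pow_pos hz 2), pow_pos hm0 2]
    exact_mod_cast this.ne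
  set u : Fin 3 → ℂ := star w ᵥ* Jm with hu
  have hQ : ((‖Z 0‖ ^ 2 : ℝ) : ℂ) + ((‖Z 1‖ ^ 2 : ℝ) : ℂ) - ((‖Z 2‖ ^ 2 : ℝ) : ℂ) =
      -(m : ℂ) ^ 2 := by
    have : ‖Z 0‖ ^ 2 + ‖Z 1‖ ^ 2 - ‖Z 2‖ ^ 2 = -m ^ 2 := by rw [hm]; simp [Qf]
    exact_mod_cast this
  have htm' : (t : ℂ) ^ 2 * ((‖Z 2‖ ^ 2 : ℝ) : ℂ) = (m : ℂ) ^ 2 := by
    have : t ^ 2 * ‖Z 2‖ ^ 2 = m ^ 2 := by rw [← htm]; ring
    exact_mod_cast this
  have hq' : (q : ℂ) = -(m : ℂ) ^ 2 - t * ((‖Z 2‖ ^ 2 : ℝ) : ℂ) := by rw [hq]; push_cast; ring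
  have hue : u = ![star (Z 0), star (Z 1), -((1 + t) * star (Z 2))] := by
    ext i
    fin_cases i <;> simp [hu, hw, Jm, vecMul_diagonal]
  have e0 := conj_mul_eq (Z 0)
  have e1 := conj_mul_eq (Z 1)
  have e2 := conj_mul_eq (Z 2)
  have huZ : u ⬝ᵥ Z = q := by
    rw [hue, hq']
    simp only [dotProduct, Fin.sum_univ_three, cons_val_zero, cons_val_one, cons_val_two,
      head_cons, tail_cons]
    linear_combination e0 + e1 - (1 + t) * e2 + hQ
  have huw : u ⬝ᵥ w = 2 * q := by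
    rw [hue, hq', hw]
    simp only [dotProduct, Fin.sum_univ_three, cons_val_zero, cons_val_one, cons_val_two,
      head_cons, tail_cons]
    linear_combination e0 + e1 - (1 + t) ^ 2 * e2 + hQ - htm'
  set P : C3 := vecMulVec w u with hP
  have hPP : P * P = (2 * q : ℂ) • P := by
    rw [hP, vecMulVec_mul_vecMulVec, huw, vecMulVec_smul]
  have hPJ : Pᴴ * Jm = Jm * P := by
    rw [hP, conjTranspose_vecMulVec, vecMulVec_mul, mul_vecMulVec, ← hu]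
    congr 1
    rw [hu, star_vecMul, star_star, Jm_ct]
  set h : C3 := 1 - (q : ℂ)⁻¹ • P with hh
  have h2 : h * h = 1 := by
    rw [hh, Matrix.sub_mul, Matrix.mul_sub, Matrix.mul_sub, Matrix.one_mul, Matrix.one_mul,
      Matrix.mul_one, Matrix.smul_mul, Matrix.mul_smul, hPP, smul_smul, smul_smul]
    have : (q : ℂ)⁻¹ * (q : ℂ)⁻¹ * (2 * q) = (q : ℂ)⁻¹ + (q : ℂ)⁻¹ := by field_simp; ring
    rw [this, add_smul]
    abel
  have h3 : hᴴ * Jm = Jm * h := by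
    rw [hh, conjTranspose_sub, conjTranspose_one, conjTranspose_smul, Matrix.sub_mul,
      Matrix.mul_sub, Matrix.smul_mul, Matrix.mul_smul, hPJ, Matrix.one_mul, Matrix.mul_one]
    simp
  refine ⟨h, -(t * Z 2), by rw [h3, Matrix.mul_assoc, h2, Matrix.mul_one], h2, ?_, ?_⟩
  · rw [hh, sub_mulVec, one_mulVec, smul_mulVec, hP, vecMulVec_mulVec, huZ]
    ext i
    fin_cases i <;> simp [hw] <;> field_simp <;> ring
  · rw [norm_neg, norm_mul, Complex.norm_real, Real.norm_eq_abs, abs_of_pos ht0, htm, hm]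

/-- If `B` in U(2,1) sends `x` to `l e₂` then the last coordinate of `x` is controlled. -/
lemma last_coord {B : C3} (hB : Bᴴ * Jm * B = Jm) {x : Fin 3 → ℂ} {l : ℂ}
    (hx : B *ᵥ x = l • (Pi.single 2 1 : Fin 3 → ℂ)) : ‖x 2‖ = ‖l‖ * ‖B 2 2‖ := by
  have h1 : Jm *ᵥ x = (Bᴴ * Jm) *ᵥ (l • (Pi.single 2 1 : Fin 3 → ℂ)) := by
    rw [← hx, mulVec_mulVec, hB]
  have h2 := congrFun h1 2
  simp [Jm, mulVec_diagonal, mulVec_smul] at h2
  rw [h2, norm_mul]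
  simp

lemma trace_le_of_fixed {A : C3} (hA : Aᴴ * Jm * A = Jm) {Z : Fin 3 → ℂ} {c : ℂ} (hZ : Qf Z < 0)
    (hc : A *ᵥ Z = c • Z) : ‖A.trace‖ ≤ 3 := by
  obtain ⟨h, l, h1, h2, h3, h4⟩ := exists_refl Z hZ
  have hl : l ≠ 0 := by
    rintro rfl
    simp at h4
    linarith
  have hB : (h * A * h)ᴴ * Jm * (h * A * h) = Jm := by
    calc (h * A * h)ᴴ * Jm * (h * A * h) = hᴴ * (Aᴴ * (hᴴ * Jm * h) * A) * h := by
          simp only [conjTranspose_mul, Matrix.mul_assoc]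
      _ = Jm := by rw [h1, hA, h1]
  have h5 : (h * A * h) *ᵥ (l • (Pi.single 2 1 : Fin 3 → ℂ)) =
      c • l • (Pi.single 2 1 : Fin 3 → ℂ) := by
    rw [← h3, mulVec_mulVec, Matrix.mul_assoc, h2, Matrix.mul_one, ← mulVec_mulVec, hc,
      mulVec_smul]
  have h6 : ∀ i, (h * A * h) i 2 = c * (Pi.single 2 1 : Fin 3 → ℂ) i := by
    intro i
    have := congrFun h5 i
    rw [mulVec_smul, mulVec_single_one] at this
    simp only [Pi.smul_apply, smul_eq_mul, col_apply] at this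
    refine mul_left_cancel₀ hl ?_
    rw [this]
    ring
  have h7 := col_rel hB 2
  rw [h6 0, h6 1] at h7
  simp [Jm] at h7
  have h8 : ‖(h * A * h) 2 2‖ = 1 := by
    rcases h7 with h7 | h7
    · exact h7
    · linarith [norm_nonneg ((h * A * h) 2 2)]
  have h9 : A.trace = (h * A * h).trace := by
    rw [Matrix.trace_mul_cycle, h2, Matrix.one_mul]
  rw [h9]
  exact norm_trace_le fun i j => h8 ▸ ent_le hB i j

end Pool.Agent.MP_019006_gt.Lat
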