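import Pool.Agent.MP_019006_gt.Lattice1

/-! Minkowski's theorem gives three independent short lattice vectors. -/

set_option autoImplicit false

open MeasureTheory Filter Topology Set Matrix

namespace Pool.Agent.MP_019006_gt.Lat

lemma norm_pair (z : ℂ) : Algebra.norm ℝ ((z, 1) : ℂ × ℂ) = ‖z‖ ^ 2 := by
  have : Algebra.lmul ℝ (ℂ × ℂ) (z, 1) =
      LinearMap.prodMap (Algebra.lmul ℝ ℂ z) (LinearMap.id : ℂ →ₗ[ℝ] ℂ) := by
    refine LinearMap.ext fun x => ?_
    ext <;> simp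
  rw [Algebra.norm_apply]
  change LinearMap.det (Algebra.lmul ℝ (ℂ × ℂ) (z, 1)) = _
  rw [this, LinearMap.det_prodMap, LinearMap.det_id, mul_one, ← Complex.normSq_eq_norm_sq,
    ← Algebra.norm_complex_apply, Algebra.norm_apply]

lemma mink {ι : Type} [Fintype ι] (b : Module.Basis ι ℝ (ℂ × ℂ)) (A : AddSubgroup (ℂ × ℂ))
    (hb : ∀ i, b i ∈ A) (ε : ℝ) (hε : 0 < ε) : ∃ η : ℝ, 0 < η ∧ ∀ g : C3, g.det ≠ 0 →
      ‖g.det‖ ≤ η → ∃ v : Fin 3 → ℂ × ℂ, v ≠ 0 ∧ (∀ i, v i ∈ A) ∧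
        (∀ i, ‖(g *ᵥ fun j => (v j).1) i‖ ≤ ε) ∧ ∀ i, ‖(v i).2‖ ≤ ε := by
  classical
  let B := Pi.basis fun _ : Fin 3 => b
  let μ : Measure (Fin 3 → ℂ × ℂ) := Measure.addHaar
  have hF : μ (ZSpan.fundamentalDomain B) < ⊤ := (ZSpan.fundamentalDomain_isBounded B).measure_lt_top
  set K := μ (ZSpan.fundamentalDomain B) * 2 ^ Module.finrank ℝ (Fin 3 → ℂ × ℂ) with hK
  have hK' : K ≠ ⊤ := ENNReal.mul_ne_top hF.ne (ENNReal.pow_ne_top (by simp))
  set c := μ (Metric.closedBall 0 ε) with hc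
  have hc0 : c ≠ 0 := (Metric.measure_closedBall_pos μ 0 hε).ne'
  have hc1 : c ≠ ⊤ := measure_closedBall_lt_top.ne
  have hc2 : 0 < c.toReal := ENNReal.toReal_pos hc0 hc1
  have hk : 0 ≤ K.toReal := ENNReal.toReal_nonneg
  refine ⟨min 1 (c.toReal / (K.toReal + 1)), lt_min one_pos (by positivity), fun g hg0 hg => ?_⟩
  let G : Matrix (Fin 3) (Fin 3) (ℂ × ℂ) := Matrix.of fun i j => (g i j, (1 : C3) i j)
  have hG1 : (RingHom.fst ℂ ℂ).mapMatrix G = g := by ext i j; rfl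
  have hG2 : (RingHom.snd ℂ ℂ).mapMatrix G = 1 := by ext i j; rfl
  have hGd : G.det = (g.det, 1) := by
    refine Prod.ext ?_ ?_
    · change RingHom.fst ℂ ℂ G.det = _
      rw [RingHom.map_det, hG1]
    · change RingHom.snd ℂ ℂ G.det = _
      rw [RingHom.map_det, hG2, det_one]
  let T : (Fin 3 → ℂ × ℂ) →ₗ[ℝ] (Fin 3 → ℂ × ℂ) := (Matrix.toLin' G).restrictScalars ℝ
  have hT : LinearMap.det T = ‖g.det‖ ^ 2 := by
    rw [LinearMap.det_restrictScalars, LinearMap.det_toLin', hGd, norm_pair]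
  have hn : 0 < ‖g.det‖ := norm_pos_iff.2 hg0
  have hlt : K < μ (T ⁻¹' Metric.closedBall 0 ε) := by
    rw [Measure.addHaar_preimage_linearMap μ (by rw [hT]; positivity), hT, ← hc,
      ← ENNReal.ofReal_toReal hc1, ← ENNReal.ofReal_mul (abs_nonneg _),
      ← ENNReal.ofReal_toReal hK', ENNReal.ofReal_lt_ofReal_iff (by positivity),
      abs_of_pos (by positivity), inv_mul_eq_div, lt_div_iff₀ (by positivity)]
    have h1 : ‖g.det‖ ≤ 1 := hg.trans (min_le_left _ _)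
    have h2 : ‖g.det‖ * (K.toReal + 1) ≤ c.toReal :=
      (le_div_iff₀ (by positivity)).1 (hg.trans (min_le_right _ _))
    nlinarith [mul_nonneg hk (mul_nonneg hn.le (sub_nonneg.2 h1))]
  have : Countable (Submodule.span ℤ (Set.range B)).toAddSubgroup :=
    inferInstanceAs (Countable (Submodule.span ℤ (Set.range B)))
  obtain ⟨v, hv0, hv⟩ := exists_ne_zero_mem_lattice_of_measure_mul_two_pow_lt_measure
    (ZSpan.isAddFundamentalDomain' B μ) (s := T ⁻¹' Metric.closedBall 0 ε)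
    (fun x hx => by simpa using hx) ((convex_closedBall 0 ε).linear_preimage T) hlt
  have hv' : ∀ i, ‖(G *ᵥ (v : Fin 3 → ℂ × ℂ)) i‖ ≤ ε := by
    intro i
    have h1 : ‖T v‖ ≤ ε := by simpa using hv
    exact (norm_le_pi_norm (T v) i).trans h1
  refine ⟨v, fun h => hv0 (Subtype.ext h), ?_, fun i => ?_, fun i => ?_⟩
  · have hm : (v : Fin 3 → ℂ × ℂ) ∈ Submodule.span ℤ (Set.range B) := v.2
    refine Submodule.span_induction (p := fun x _ => ∀ i, x i ∈ A) ?_ ?_ ?_ ?_ hm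
    · rintro _ ⟨⟨j, l⟩, rfl⟩ i
      simp only [B, Pi.basis_apply]
      by_cases h : i = j
      · subst h
        simpa using hb l
      · simp [h]
    · intro i
      exact A.zero_mem
    · intro x y _ _ hx hy i
      exact A.add_mem (hx i) (hy i)
    · intro n x _ hx i
      exact A.zsmul_mem (hx i) n
  · refine le_trans (le_of_eq ?_) ((norm_fst_le _).trans (hv' i))
    refine congrArg norm ?_
    simp [G, mulVec, dotProduct, Prod.fst_sum]
  · refine le_trans (le_of_eq ?_) ((norm_snd_le _).trans (hv' i))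
    refine congrArg norm ?_
    simp [G, mulVec, dotProduct, Prod.snd_sum, one_apply]

lemma three {ι : Type} [Fintype ι] (b : Module.Basis ι ℝ (ℂ × ℂ)) (A : AddSubgroup (ℂ × ℂ))
    (hb : ∀ i, b i ∈ A) : ∃ L : ℝ, ∀ g : C3, g.det ≠ 0 → ‖g.det‖ ≤ 2 →
      (∀ v : Fin 3 → ℂ × ℂ, v ≠ 0 → (∀ i, v i ∈ A) → (∀ i, ‖(v i).2‖ ≤ 1 / 4) →
        ¬ ∀ i, ‖(g *ᵥ fun j => (v j).1) i‖ ≤ 1 / 2) →
      ∃ V : Matrix (Fin 3) (Fin 3) (ℂ × ℂ), (∀ i j, V i j ∈ A) ∧ (V.map Prod.fst).det ≠ 0 ∧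
        (∀ i j, ‖(g * V.map Prod.fst) i j‖ ≤ L) ∧ ∀ i j, ‖(V i j).2‖ ≤ 1 / 4 := by
  classical
  obtain ⟨η, hη, hm⟩ := mink b A hb (1 / 4) (by norm_num)
  refine ⟨1 / (2 * η) + 1 / 2, fun g hg0 hg hs => ?_⟩
  let S : Set (Fin 3 → ℂ) := {u | (∀ i, ‖u i‖ ≤ 1 / (2 * η) + 1 / 2) ∧
    ∃ v : Fin 3 → ℂ × ℂ, (∀ i, v i ∈ A) ∧ (∀ i, ‖(v i).2‖ ≤ 1 / 4) ∧ u = g *ᵥ fun j => (v j).1}
  have hS : Submodule.span ℂ S = ⊤ := by
    by_contra hne
    obtain ⟨f, hf0, hf⟩ := Submodule.exists_le_ker_of_lt_top _ (lt_top_iff_ne_top.2 hne)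
    let φ₀ : Fin 3 → ℂ := fun i => f (Pi.single i 1)
    have hφ₀ : ∀ u, f u = φ₀ ⬝ᵥ u := by
      intro u
      conv_lhs => rw [pi_eq_sum_univ' u]
      simp [φ₀, dotProduct, mul_comm]
    obtain ⟨j, hj⟩ := Finite.exists_max fun i => ‖φ₀ i‖
    have hj0 : φ₀ j ≠ 0 := by
      intro h0
      refine hf0 (LinearMap.ext fun u => ?_)
      have : φ₀ = 0 := funext fun i => norm_le_zero_iff.1 (by simpa [h0] using hj i)
      rw [hφ₀, this]
      simp
    let φ : Fin 3 → ℂ := (φ₀ j)⁻¹ • φ₀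
    have hφj : φ j = 1 := by simp [φ, hj0]
    have hφ : ∀ i, ‖φ i‖ ≤ 1 := by
      intro i
      simp only [φ, Pi.smul_apply, smul_eq_mul, norm_mul, norm_inv]
      rw [inv_mul_le_iff₀ (norm_pos_iff.2 hj0), mul_one]
      exact hj i
    let k : C3 := updateRow 1 j (((η / 2 : ℝ) : ℂ) • φ)
    have hk : k.det = ((η / 2 : ℝ) : ℂ) := by
      have := det_updateRow_sum (1 : C3) j (((η / 2 : ℝ) : ℂ) • φ)
      have e : (∑ l, (((η / 2 : ℝ) : ℂ) • φ) l • (1 : C3) l) = ((η / 2 : ℝ) : ℂ) • φ := by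
        ext i
        simp [Finset.sum_apply, one_apply]
      rw [e] at this
      rw [this]
      simp [hφj]
    have hη2 : ‖((η / 2 : ℝ) : ℂ)‖ = η / 2 := by
      rw [Complex.norm_real, Real.norm_eq_abs, abs_of_pos (by positivity)]
    obtain ⟨v, hv0, hvA, hv1, hv2⟩ := hm (k * g)
      (by
        rw [det_mul, hk]
        exact mul_ne_zero (by exact_mod_cast (by positivity : η / 2 ≠ 0)) hg0)
      (by rw [det_mul, hk, norm_mul, hη2]; nlinarith)
    set u := g *ᵥ fun j => (v j).1 with hu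
    rw [← mulVec_mulVec, ← hu] at hv1
    have h1 : ∀ i, i ≠ j → ‖u i‖ ≤ 1 / 4 := by
      intro i hi
      have := hv1 i
      simpa [k, mulVec, updateRow_ne hi, dotProduct, one_apply] using this
    have h2 : ‖φ ⬝ᵥ u‖ ≤ 1 / (2 * η) := by
      have := hv1 j
      simp only [k, mulVec, row_def, updateRow_self, smul_dotProduct, smul_eq_mul, norm_mul,
        hη2] at this
      rw [le_div_iff₀ (by positivity)]
      linarith
    have h3 : ‖u j‖ ≤ ‖φ ⬝ᵥ u‖ + 1 / 2 := by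
      have e : u j = φ ⬝ᵥ u - ∑ i ∈ Finset.univ.erase j, φ i * u i := by
        rw [dotProduct, ← Finset.add_sum_erase _ _ (Finset.mem_univ j), hφj]
        ring
      have e2 : ‖∑ i ∈ Finset.univ.erase j, φ i * u i‖ ≤ 1 / 2 := by
        refine (norm_sum_le _ _).trans ?_
        refine (Finset.sum_le_card_nsmul _ _ (1 / 4) fun i hi => ?_).trans ?_
        · rw [norm_mul]
          have := mul_le_mul (hφ i) (h1 i (Finset.ne_of_mem_erase hi)) (norm_nonneg _) zero_le_one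
          linarith
        · rw [Finset.card_erase_of_mem (Finset.mem_univ j)]
          norm_num
      rw [e]
      exact (norm_sub_le _ _).trans (by linarith)
    have hp : 0 < 1 / (2 * η) := by positivity
    have huS : u ∈ S := by
      refine ⟨fun i => ?_, v, hvA, hv2, rfl⟩
      by_cases hi : i = j
      · rw [hi]; linarith
      · linarith [h1 i hi]
    have h4 : φ ⬝ᵥ u = 0 := by
      have : f u = 0 := hf (Submodule.subset_span huS)
      rw [hφ₀] at this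
      simp [φ, this]
    rw [h4, norm_zero] at h3
    refine hs v hv0 hvA hv2 fun i => ?_
    by_cases hi : i = j
    · rw [hi]; linarith
    · linarith [h1 i hi]
  have h3 : Module.finrank ℂ (Submodule.span ℂ S) = 3 := by rw [hS]; simp
  obtain ⟨u, huS, hli⟩ : ∃ u : Fin 3 → Fin 3 → ℂ, (∀ i, u i ∈ S) ∧ LinearIndependent ℂ u := by
    obtain ⟨f, hf1, -, hf2⟩ := Submodule.exists_fun_fin_finrank_span_eq ℂ S
    exact ⟨f ∘ Fin.cast h3.symm, fun i => hf1 _, hf2.comp _ (Fin.cast_injective _)⟩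
  choose hu1 v hvA hv2 hv using huS
  let V : Matrix (Fin 3) (Fin 3) (ℂ × ℂ) := Matrix.of fun i j => v j i
  have e : ∀ i j, (g * V.map Prod.fst) i j = u j i := by
    intro i j
    rw [hv j]
    rfl
  refine ⟨V, fun i j => hvA j i, fun h0 => ?_, fun i j => by rw [e]; exact hu1 j i,
    fun i j => hv2 j i⟩
  have h4 : IsUnit (g * V.map Prod.fst) := by
    rw [← linearIndependent_cols_iff_isUnit]
    have : (g * V.map Prod.fst).col = u := by
      ext j i
      exact e i j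
    rw [this]
    exact hli
  rw [isUnit_iff_isUnit_det, det_mul, h0, mul_zero] at h4
  exact not_isUnit_zero h4

end Pool.Agent.MP_019006_gt.Lat
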