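import Pool.Agent.MP_019006_gt.Lattice2

/-! Congruence subgroups of the unitary group of an anisotropic form over an abstract ring. -/

set_option autoImplicit false

open MeasureTheory Filter Topology Set Matrix

namespace Pool.Agent.MP_019006_gt.Lat

/-- The arithmetic data: a ring with two embeddings. -/
structure Dat {R : Type} [CommRing R] [StarRing R] (σ τ : R →+* ℂ) (s : R) (r : ℝ) : Prop where
  hσ : ∀ x, σ (star x) = star (σ x)
  hτ : ∀ x, τ (star x) = star (τ x)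
  hN : ∀ x, x ≠ 0 → 1 ≤ ‖σ x‖ * ‖τ x‖
  hF : ∀ C : ℝ, {x | ‖σ x‖ ≤ C ∧ ‖τ x‖ ≤ C}.Finite
  r1 : 1 ≤ r
  r2 : r ≤ 2
  sσ : σ s = (r : ℂ) ^ 2
  sτ : τ s = -(r : ℂ) ^ 2
  bas : ∃ b : Module.Basis (Fin 4) ℝ (ℂ × ℂ), ∀ i, ∃ x, b i = (σ x, τ x)

variable {R : Type} [CommRing R] [StarRing R] {σ τ : R →+* ℂ} {s : R} {r : ℝ}

/-- The form over the ring. -/
def JR (s : R) : Matrix (Fin 3) (Fin 3) R := diagonal ![1, 1, -s]

/-- The rescaling matrix. -/
noncomputable def Dm (r : ℝ) : C3 := diagonal ![1, 1, (r : ℂ)]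

lemma Dm_mul (hr : r ≠ 0) : Dm r * Dm r⁻¹ = 1 := by
  ext i j
  fin_cases i <;> fin_cases j <;> simp [Dm, hr]

lemma Dm_mul' (hr : r ≠ 0) : Dm r⁻¹ * Dm r = 1 := mul_eq_one_comm.1 (Dm_mul hr)

lemma Dm_det : (Dm r).det = r := by simp [Dm, Fin.prod_univ_three]

/-- The conjugated embedding of matrices. -/
noncomputable def cj (φ : R →+* ℂ) (hr : r ≠ 0) : Matrix (Fin 3) (Fin 3) R →* C3 where
  toFun g := Dm r * g.map φ * Dm r⁻¹
  map_one' := by rw [Matrix.map_one _ (map_zero φ) (map_one φ), Matrix.mul_one, Dm_mul hr]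
  map_mul' a b := by
    rw [Matrix.map_mul]
    simp only [Matrix.mul_assoc]
    rw [← Matrix.mul_assoc (Dm r⁻¹) (Dm r), Dm_mul' hr, Matrix.one_mul]

omit [StarRing R] in
lemma cj_apply (φ : R →+* ℂ) (hr : r ≠ 0) (g : Matrix (Fin 3) (Fin 3) R) :
    cj φ hr g = Dm r * g.map φ * Dm r⁻¹ := rfl

omit [StarRing R] in
lemma cj_mul_D (φ : R →+* ℂ) (hr : r ≠ 0) (g V : Matrix (Fin 3) (Fin 3) R) :
    cj φ hr g * (Dm r * V.map φ) = Dm r * (g * V).map φ := by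
  rw [cj_apply, Matrix.map_mul]
  simp only [Matrix.mul_assoc]
  rw [← Matrix.mul_assoc (Dm r⁻¹) (Dm r), Dm_mul' hr, Matrix.one_mul]

omit [StarRing R] in
lemma cj_trace (φ : R →+* ℂ) (hr : r ≠ 0) (g : Matrix (Fin 3) (Fin 3) R) :
    (cj φ hr g).trace = φ g.trace := by
  rw [cj_apply, Matrix.trace_mul_cycle, Dm_mul' hr, Matrix.one_mul]
  simp [Matrix.trace]

namespace Dat

lemma r0 (h : Dat σ τ s r) : r ≠ 0 := by linarith [h.r1]

lemma small (h : Dat σ τ s r) {N : ℕ} {x : R} (h1 : ‖σ ((N : R) * x)‖ < N)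
    (h2 : ‖τ ((N : R) * x)‖ < N) : x = 0 := by
  by_contra h0
  have := h.hN x h0
  rw [map_mul, map_natCast, norm_mul, Complex.norm_natCast] at h1 h2
  have hN : (0 : ℝ) < N := lt_of_le_of_lt (by positivity) h1
  have h3 : ‖σ x‖ < 1 := by by_contra h3; push Not at h3; nlinarith
  have h4 : ‖τ x‖ < 1 := by by_contra h4; push Not at h4; nlinarith
  nlinarith [norm_nonneg (σ x), norm_nonneg (τ x)]

lemma τ_inj (h : Dat σ τ s r) : Function.Injective τ := by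
  rw [injective_iff_map_eq_zero]
  intro x hx
  by_contra h0
  have := h.hN x h0
  rw [hx, norm_zero, mul_zero] at this
  linarith

lemma gramσ (h : Dat σ τ s r) {m : Type} (V : Matrix (Fin 3) m R) :
    (Vᴴ * JR s * V).map σ = (Dm r * V.map σ)ᴴ * Jm * (Dm r * V.map σ) := by
  have e : (Dm r)ᴴ * Jm * Dm r = (JR s).map σ := by
    ext i j
    fin_cases i <;> fin_cases j <;> simp [Dm, Jm, JR, h.sσ, pow_two]
  rw [Matrix.map_mul, Matrix.map_mul, conjTranspose_map σ h.hσ, ← e, conjTranspose_mul]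
  simp only [Matrix.mul_assoc]

lemma gramτ (h : Dat σ τ s r) {m : Type} (V : Matrix (Fin 3) m R) :
    (Vᴴ * JR s * V).map τ = (Dm r * V.map τ)ᴴ * (Dm r * V.map τ) := by
  have e : (Dm r)ᴴ * Dm r = (JR s).map τ := by
    ext i j
    fin_cases i <;> fin_cases j <;> simp [Dm, JR, h.sτ, pow_two]
  rw [Matrix.map_mul, Matrix.map_mul, conjTranspose_map τ h.hτ, ← e, conjTranspose_mul]
  simp only [Matrix.mul_assoc]

lemma unitσ (h : Dat σ τ s r) {g : Matrix (Fin 3) (Fin 3) R} (hg : gᴴ * JR s * g = JR s) :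
    (cj σ h.r0 g)ᴴ * Jm * cj σ h.r0 g = Jm := by
  have e1 := h.gramσ g
  have e2 := h.gramσ (1 : Matrix (Fin 3) (Fin 3) R)
  rw [conjTranspose_one, Matrix.one_mul, Matrix.mul_one,
    Matrix.map_one _ (map_zero σ) (map_one σ), Matrix.mul_one] at e2
  rw [hg, e2] at e1
  calc (cj σ h.r0 g)ᴴ * Jm * cj σ h.r0 g
      = (Dm r⁻¹)ᴴ * ((Dm r * g.map σ)ᴴ * Jm * (Dm r * g.map σ)) * Dm r⁻¹ := by
        simp only [cj_apply, conjTranspose_mul, Matrix.mul_assoc]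
    _ = (Dm r * Dm r⁻¹)ᴴ * Jm * (Dm r * Dm r⁻¹) := by
        rw [← e1]; simp only [conjTranspose_mul, Matrix.mul_assoc]
    _ = Jm := by rw [Dm_mul h.r0]; simp

lemma unitτ (h : Dat σ τ s r) {g : Matrix (Fin 3) (Fin 3) R} (hg : gᴴ * JR s * g = JR s) :
    (cj τ h.r0 g)ᴴ * cj τ h.r0 g = 1 := by
  have e1 := h.gramτ g
  have e2 := h.gramτ (1 : Matrix (Fin 3) (Fin 3) R)
  rw [conjTranspose_one, Matrix.one_mul, Matrix.mul_one,
    Matrix.map_one _ (map_zero τ) (map_one τ), Matrix.mul_one] at e2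
  rw [hg, e2] at e1
  calc (cj τ h.r0 g)ᴴ * cj τ h.r0 g
      = (Dm r⁻¹)ᴴ * ((Dm r * g.map τ)ᴴ * (Dm r * g.map τ)) * Dm r⁻¹ := by
        simp only [cj_apply, conjTranspose_mul, Matrix.mul_assoc]
    _ = (Dm r * Dm r⁻¹)ᴴ * (Dm r * Dm r⁻¹) := by
        rw [← e1]; simp only [conjTranspose_mul, Matrix.mul_assoc]
    _ = 1 := by rw [Dm_mul h.r0]; simp

lemma entry_le (h : Dat σ τ s r) (φ : R →+* ℂ) {g : Matrix (Fin 3) (Fin 3) R} {C : ℝ}
    (hC : ∀ i j, ‖cj φ h.r0 g i j‖ ≤ C) (i j : Fin 3) : ‖φ (g i j)‖ ≤ 2 * C := by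
  have e : g.map φ = Dm r⁻¹ * cj φ h.r0 g * Dm r := by
    rw [cj_apply]
    simp only [Matrix.mul_assoc]
    rw [Dm_mul' h.r0, Matrix.mul_one, ← Matrix.mul_assoc, Dm_mul' h.r0, Matrix.one_mul]
  have e2 := congrFun (congrFun e i) j
  rw [map_apply, Dm, Dm, mul_diagonal, diagonal_mul] at e2
  have r1 := h.r1
  have r2 := h.r2
  have h1 : ‖(![1, 1, ((r⁻¹ : ℝ) : ℂ)] : Fin 3 → ℂ) i‖ ≤ 1 := by
    have : |r|⁻¹ ≤ 1 := inv_le_one_of_one_le₀ (r1.trans (le_abs_self r))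
    fin_cases i <;> simp [this]
  have h2 : ‖(![1, 1, (r : ℂ)] : Fin 3 → ℂ) j‖ ≤ 2 := by
    have : |r| ≤ 2 := abs_le.2 ⟨by linarith, r2⟩
    fin_cases j <;> simp [this]
  have hC0 : 0 ≤ C := (norm_nonneg _).trans (hC 0 0)
  rw [e2, norm_mul, norm_mul]
  calc _ ≤ (1 * C) * 2 := mul_le_mul (mul_le_mul h1 (hC i j) (norm_nonneg _) zero_le_one) h2
        (norm_nonneg _) (by linarith)
    _ = 2 * C := by ring

lemma fin_mat (h : Dat σ τ s r) (C : ℝ) :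
    {g : Matrix (Fin 3) (Fin 3) R | ∀ i j, ‖σ (g i j)‖ ≤ C ∧ ‖τ (g i j)‖ ≤ C}.Finite :=
  Set.Finite.pi' (t := fun _ : Fin 3 => {v : Fin 3 → R | ∀ j, ‖σ (v j)‖ ≤ C ∧ ‖τ (v j)‖ ≤ C})
    fun _ => Set.Finite.pi' fun _ => h.hF C

end Dat

/-- The principal congruence subgroup of level `N` of the unitary group. -/
def Gs (s : R) (N : ℕ) : Subgroup (Matrix (Fin 3) (Fin 3) R)ˣ where
  carrier := {g | (g : Matrix (Fin 3) (Fin 3) R)ᴴ * JR s * g = JR s ∧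
    ∃ x : Matrix (Fin 3) (Fin 3) R, (g : Matrix (Fin 3) (Fin 3) R) = 1 + (N : R) • x}
  one_mem' := ⟨by simp, 0, by simp⟩
  mul_mem' := by
    rintro a b ⟨ha, x, hx⟩ ⟨hb, y, hy⟩
    refine ⟨?_, x + y + (N : R) • (x * y), ?_⟩
    · calc _ = (b : Matrix (Fin 3) (Fin 3) R)ᴴ *
            ((a : Matrix (Fin 3) (Fin 3) R)ᴴ * JR s * a) * b := by
            simp only [Units.val_mul, conjTranspose_mul, Matrix.mul_assoc]
        _ = JR s := by rw [ha, hb]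
    · rw [Units.val_mul, hx, hy]
      simp only [Matrix.add_mul, Matrix.mul_add, Matrix.one_mul, Matrix.mul_one, Matrix.smul_mul,
        Matrix.mul_smul, smul_add]
      abel
  inv_mem' := by
    rintro a ⟨ha, x, hx⟩
    refine ⟨?_, -(x * (a⁻¹ : (Matrix (Fin 3) (Fin 3) R)ˣ)), ?_⟩
    · calc _ = ((a⁻¹ : (Matrix (Fin 3) (Fin 3) R)ˣ) : Matrix (Fin 3) (Fin 3) R)ᴴ *
            ((a : Matrix (Fin 3) (Fin 3) R)ᴴ * JR s * a) *
              (a⁻¹ : (Matrix (Fin 3) (Fin 3) R)ˣ) := by rw [ha]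
        _ = ((a * a⁻¹ : (Matrix (Fin 3) (Fin 3) R)ˣ) : Matrix (Fin 3) (Fin 3) R)ᴴ * JR s *
              (a * a⁻¹ : (Matrix (Fin 3) (Fin 3) R)ˣ) := by
            simp only [Units.val_mul, conjTranspose_mul, Matrix.mul_assoc]
        _ = JR s := by simp
    · have e := a.mul_inv
      rw [hx, Matrix.add_mul, Matrix.one_mul, Matrix.smul_mul] at e
      rw [smul_neg, ← e]
      abel

/-- The representation in U(2,1). -/
noncomputable def rho (h : Dat σ τ s r) (N : ℕ) : Gs s N →* C3 :=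
  (cj σ h.r0).comp ((Units.coeHom _).comp (Gs s N).subtype)

lemma rho_apply (h : Dat σ τ s r) (N : ℕ) (a : Gs s N) :
    rho h N a = cj σ h.r0 (a.1 : Matrix (Fin 3) (Fin 3) R) := rfl

lemma rho_far (h : Dat σ τ s r) {N : ℕ} {Λ : ℝ} (h1 : 2 * Λ + 1 ≤ N) (h2 : 3 < N) (a : Gs s N)
    (ha : a ≠ 1) : Λ ≤ ‖rho h N a 2 2‖ := by
  by_contra hlt
  push Not at hlt
  obtain ⟨hu, x, hx⟩ := a.2
  have e1 := h.entry_le σ (ent_le (h.unitσ hu))
  have e2 := h.entry_le τ (unitary_le (h.unitτ hu))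
  rw [rho_apply] at hlt
  have h3 : (3 : ℝ) < N := by exact_mod_cast h2
  have hx0 : x = 0 := by
    ext i j
    have e : (N : R) * x i j = (a.1 : Matrix (Fin 3) (Fin 3) R) i j -
        (1 : Matrix (Fin 3) (Fin 3) R) i j := by
      rw [hx]; simp
    have o : ∀ φ : R →+* ℂ, ‖φ ((1 : Matrix (Fin 3) (Fin 3) R) i j)‖ ≤ 1 := by
      intro φ
      by_cases hij : i = j <;> simp [one_apply, hij]
    refine h.small (N := N) ?_ ?_
    · rw [e, map_sub]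
      linarith [norm_sub_le (σ ((a.1 : Matrix (Fin 3) (Fin 3) R) i j))
        (σ ((1 : Matrix (Fin 3) (Fin 3) R) i j)), e1 i j, o σ]
    · rw [e, map_sub]
      linarith [norm_sub_le (τ ((a.1 : Matrix (Fin 3) (Fin 3) R) i j))
        (τ ((1 : Matrix (Fin 3) (Fin 3) R) i j)), e2 i j, o τ]
  refine ha (Subtype.ext (Units.ext ?_))
  rw [hx, hx0]
  simp

lemma rho_fin (h : Dat σ τ s r) (N : ℕ) (C : ℝ) : {a | ‖rho h N a 2 2‖ ≤ C}.Finite := by
  refine Set.Finite.of_injOn (f := fun a : Gs s N => (a.1 : Matrix (Fin 3) (Fin 3) R)) ?_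
    (fun a _ b _ hab => Subtype.ext (Units.ext hab)) (h.fin_mat (2 * max C 1))
  intro a ha i j
  exact ⟨h.entry_le σ (fun i j => ((ent_le (h.unitσ a.2.1) i j).trans ha).trans (le_max_left _ _))
    i j, h.entry_le τ (fun i j => (unitary_le (h.unitτ a.2.1) i j).trans (le_max_right _ _)) i j⟩

lemma rho_free (h : Dat σ τ s r) {N : ℕ} (h2 : 6 < N) (a : Gs s N) (Z : Fin 3 → ℂ) (c : ℂ)
    (hZ : Qf Z < 0) (hc : rho h N a *ᵥ Z = c • Z) : a = 1 := by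
  obtain ⟨hu, x, hx⟩ := a.2
  have e1 := trace_le_of_fixed (h.unitσ hu) hZ hc
  have e2 := norm_trace_le (unitary_le (h.unitτ hu))
  rw [cj_trace] at e1 e2
  have h3 : (6 : ℝ) < N := by exact_mod_cast h2
  have e : (N : R) * x.trace = (a.1 : Matrix (Fin 3) (Fin 3) R).trace - 3 := by
    rw [hx]; simp
  have o : ∀ φ : R →+* ℂ, ‖φ 3‖ = 3 := fun φ => by rw [map_ofNat]; simp
  have ht : x.trace = 0 := by
    refine h.small (N := N) ?_ ?_
    · rw [e, map_sub]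
      linarith [norm_sub_le (σ (a.1 : Matrix (Fin 3) (Fin 3) R).trace) (σ 3), o σ]
    · rw [e, map_sub]
      linarith [norm_sub_le (τ (a.1 : Matrix (Fin 3) (Fin 3) R).trace) (τ 3), o τ]
  rw [ht, mul_zero, eq_comm, sub_eq_zero] at e
  have e3 := eq_one_of_trace (h.unitτ hu) (by rw [cj_trace, e, map_ofNat])
  have e4 := cj_mul_D τ h.r0 (a.1 : Matrix (Fin 3) (Fin 3) R) 1
  rw [e3, Matrix.one_mul, Matrix.mul_one] at e4
  have e5 := congrArg (fun M => Dm r⁻¹ * M) e4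
  simp only [← Matrix.mul_assoc, Dm_mul' h.r0, Matrix.one_mul] at e5
  refine Subtype.ext (Units.ext ?_)
  exact (Matrix.map_injective h.τ_inj e5).symm

end Pool.Agent.MP_019006_gt.Lat
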