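import Pool.Agent.MP_019006_gt.Lattice3

/-! Cocompactness of the congruence subgroups. -/

set_option autoImplicit false

open MeasureTheory Filter Topology Set Matrix

namespace Pool.Agent.MP_019006_gt.Lat

variable {R : Type} [CommRing R] [StarRing R] {σ τ : R →+* ℂ} {s : R} {r : ℝ}

lemma gram_bound (h : Dat σ τ s r) {k : C3} (hk : kᴴ * Jm * k = Jm)
    {V : Matrix (Fin 3) (Fin 3) R} {L : ℝ} (h1 : ∀ i j, ‖(k * Dm r * V.map σ) i j‖ ≤ L)
    (h2 : ∀ i j, ‖τ (V i j)‖ ≤ 1 / 4) (i j : Fin 3) :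
    ‖σ ((Vᴴ * JR s * V) i j)‖ ≤ 3 * L ^ 2 ∧ ‖τ ((Vᴴ * JR s * V) i j)‖ ≤ 3 / 4 := by
  have key : ∀ (A : C3) (c : ℝ), (∀ i j, ‖A i j‖ ≤ c) → ∀ l, ‖star (A l i) * A l j‖ ≤ c ^ 2 := by
    intro A c hA l
    rw [norm_mul, norm_star, pow_two]
    exact mul_le_mul (hA l i) (hA l j) (norm_nonneg _) ((norm_nonneg _).trans (hA l i))
  constructor
  · have e : (Vᴴ * JR s * V).map σ = (k * Dm r * V.map σ)ᴴ * Jm * (k * Dm r * V.map σ) := by
      rw [h.gramσ]
      conv_lhs => rw [← hk]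
      simp only [conjTranspose_mul, Matrix.mul_assoc]
    have e2 := congrFun (congrFun e i) j
    rw [map_apply, form_entry] at e2
    rw [e2]
    have := key _ _ h1
    refine (norm_sub_le _ _).trans ?_
    have a := norm_add_le (star ((k * Dm r * V.map σ) 0 i) * (k * Dm r * V.map σ) 0 j)
      (star ((k * Dm r * V.map σ) 1 i) * (k * Dm r * V.map σ) 1 j)
    linarith [this 0, this 1, this 2]
  · have e2 := congrFun (congrFun (h.gramτ V) i) j
    rw [map_apply] at e2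
    rw [e2, Matrix.mul_apply, Fin.sum_univ_three]
    have h3 : ∀ i j, ‖(Dm r * V.map τ) i j‖ ≤ 1 / 2 := by
      intro i j
      have h4 : ‖(![1, 1, (r : ℂ)] : Fin 3 → ℂ) i‖ ≤ 2 := by
        have : |r| ≤ 2 := abs_le.2 ⟨by linarith [h.r1], h.r2⟩
        fin_cases i <;> simp [this]
      rw [Dm, diagonal_mul, norm_mul, map_apply]
      have := mul_le_mul h4 (h2 i j) (norm_nonneg _) zero_le_two
      linarith
    have := key _ _ h3
    refine norm_add₃_le.trans ?_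
    simp only [conjTranspose_apply]
    linarith [this 0, this 1, this 2]

open ComplexOrder in
lemma no_short (h : Dat σ τ s r) {k : C3} (hk : kᴴ * Jm * k = Jm) (x : Fin 3 → R)
    (h1 : ∀ i, ‖((k * Dm r) *ᵥ fun j => σ (x j)) i‖ ≤ 1 / 2) (h2 : ∀ i, ‖τ (x i)‖ ≤ 1 / 4) :
    x = 0 := by
  let X : Matrix (Fin 3) (Fin 3) R := Matrix.of fun i _ => x i
  have h3 := gram_bound h hk (V := X) (L := 1 / 2) (fun i _ => h1 i) (fun i _ => h2 i)
  have h4 : Xᴴ * JR s * X = 0 := by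
    ext i j
    refine h.small (N := 1) ?_ ?_
    · rw [Nat.cast_one, one_mul, Nat.cast_one]; linarith [(h3 i j).1]
    · rw [Nat.cast_one, one_mul, Nat.cast_one]; linarith [(h3 i j).2]
  have h5 := h.gramτ X
  rw [h4, Matrix.map_zero _ (map_zero τ), eq_comm, conjTranspose_mul_self_eq_zero] at h5
  have h6 := congrArg (fun M => Dm r⁻¹ * M) h5
  simp only [← Matrix.mul_assoc, Dm_mul' h.r0, Matrix.one_mul, Matrix.mul_zero] at h6
  ext i
  exact h.τ_inj ((congrFun (congrFun h6 i) 0).trans (map_zero τ).symm)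

lemma half_class {N : ℕ} {V W : Matrix (Fin 3) (Fin 3) R}
    (hd : ∀ i j, (N : R) * (Vᴴ * JR s * V).det ∣ W i j - V i j) :
    ∃ x : Matrix (Fin 3) (Fin 3) R, (1 + (N : R) • x) * V = W := by
  choose Y hY using hd
  refine ⟨(star V.det * (JR s).det) • (Matrix.of Y * adjugate V), ?_⟩
  rw [Matrix.add_mul, Matrix.one_mul, Matrix.smul_mul, Matrix.smul_mul, Matrix.mul_assoc,
    adjugate_mul, Matrix.mul_smul, Matrix.mul_one]
  ext i j
  have := hY i j
  rw [det_mul, det_mul, det_conjTranspose] at this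
  simp only [Matrix.add_apply, Matrix.smul_apply, smul_eq_mul, of_apply]
  linear_combination -this

lemma same_class [IsDomain R] {N : ℕ} {V W : Matrix (Fin 3) (Fin 3) R} (hV : V.det ≠ 0)
    (hG : Vᴴ * JR s * V = Wᴴ * JR s * W)
    (hd : ∀ i j, (N : R) * (Vᴴ * JR s * V).det ∣ W i j - V i j) :
    ∃ a : Gs s N, (a.1 : Matrix (Fin 3) (Fin 3) R) * V = W := by
  obtain ⟨x, hx⟩ := half_class hd
  obtain ⟨y, hy⟩ := half_class (s := s) (N := N) (V := W) (W := V) fun i j => by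
    rw [← hG]
    exact dvd_sub_comm.1 (hd i j)
  have r1 : IsRegular V := isRegular_of_isLeftRegular_det (IsRegular.of_ne_zero hV).left
  have r2 : IsRegular Vᴴ := isRegular_of_isLeftRegular_det (IsRegular.of_ne_zero
    (by rw [det_conjTranspose]; exact star_ne_zero.2 hV)).left
  have e1 : (1 + (N : R) • y) * (1 + (N : R) • x) = 1 :=
    r1.right (by simp only [Matrix.mul_assoc, hx, hy, Matrix.one_mul])
  refine ⟨⟨⟨1 + (N : R) • x, 1 + (N : R) • y, mul_eq_one_comm.1 e1, e1⟩, ?_, x, rfl⟩, hx⟩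
  refine r1.right (r2.left ?_)
  calc Vᴴ * (((1 + (N : R) • x)ᴴ * JR s * (1 + (N : R) • x)) * V)
      = ((1 + (N : R) • x) * V)ᴴ * JR s * ((1 + (N : R) • x) * V) := by
        simp only [conjTranspose_mul, Matrix.mul_assoc]
    _ = Vᴴ * (JR s * V) := by rw [hx, ← hG, Matrix.mul_assoc]

lemma rho_cocpt [Module.Finite ℤ R] (h : Dat σ τ s r) {N : ℕ} (hN : N ≠ 0) :
    ∃ δ : ℝ, 0 < δ ∧ ∀ Z : Fin 3 → ℂ, Qf Z < 0 →
      ∃ a : Gs s N, δ * ‖(rho h N a *ᵥ Z) 2‖ ^ 2 ≤ -Qf Z := by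
  classical
  have : IsDomain R := h.τ_inj.isDomain τ
  have : CharZero R := RingHom.charZero τ
  have hσ0 : ∀ x, σ x = 0 → x = 0 := by
    intro x hx
    by_contra h0
    have := h.hN x h0
    rw [hx, norm_zero, zero_mul] at this
    linarith
  obtain ⟨b, hb⟩ := h.bas
  obtain ⟨L, hL⟩ := three b (σ.prod τ).range.toAddSubgroup fun i => by
    obtain ⟨x, hx⟩ := hb i
    exact ⟨x, hx.symm⟩
  have hfin := h.fin_mat (max (3 * L ^ 2) 1)
  set M₀ : R := (N : R) * ∏ Γ ∈ hfin.toFinset.filter (fun Γ => Γ.det ≠ 0), Γ.det with hM₀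
  have hM : M₀ ≠ 0 := mul_ne_zero (Nat.cast_ne_zero.2 hN)
    (Finset.prod_ne_zero_iff.2 fun Γ hΓ => (Finset.mem_filter.1 hΓ).2)
  have : Finite (R ⧸ Ideal.span {M₀}) :=
    Ideal.finiteQuotientOfFreeOfNeBot _ (by simpa using hM)
  let cl : Matrix (Fin 3) (Fin 3) R →
      Matrix (Fin 3) (Fin 3) R × Matrix (Fin 3) (Fin 3) (R ⧸ Ideal.span {M₀}) :=
    fun V => (Vᴴ * JR s * V, V.map (Ideal.Quotient.mk _))
  let 𝒱 : Set (Matrix (Fin 3) (Fin 3) R) := {V | Vᴴ * JR s * V ∈ hfin.toFinset ∧ V.det ≠ 0}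
  have hcl : (cl '' 𝒱).Finite := by
    refine (hfin.toFinset.finite_toSet.prod Set.finite_univ).subset ?_
    rintro _ ⟨V, hV, rfl⟩
    exact ⟨hV.1, Set.mem_univ _⟩
  obtain ⟨t, ht1, ht2, ht3⟩ := (Set.exists_subset_image_finite_and (p := fun u => cl '' 𝒱 ⊆ u)).1
    ⟨_, subset_rfl, hcl, subset_rfl⟩
  obtain ⟨C, hC⟩ := (ht2.image fun W => ∑ i, ‖(Dm r * W.map σ)⁻¹ i 2‖).bddAbove
  refine ⟨1 / ((L * C) ^ 2 + 1), by positivity, fun Z hZ => ?_⟩
  obtain ⟨k, l, hk, hk2, hkZ, hl⟩ := exists_refl Z hZ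
  have hdet : ‖(k * Dm r).det‖ = r := by
    rw [det_mul, norm_mul, norm_det hk, Dm_det, one_mul, Complex.norm_real, Real.norm_eq_abs,
      abs_of_pos (by linarith [h.r1])]
  obtain ⟨V', hV1, hV2, hV3, hV4⟩ := hL (k * Dm r)
    (by rw [← norm_pos_iff, hdet]; linarith [h.r1]) (by rw [hdet]; exact h.r2) (by
      intro v hv0 hvA hv2 hv1
      choose x hx using hvA
      have e : v = fun i => (σ (x i), τ (x i)) := funext fun i => (hx i).symm
      subst e
      refine hv0 ?_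
      rw [no_short h hk x hv1 hv2]
      ext <;> simp)
  choose V₀ hV₀ using hV1
  let V : Matrix (Fin 3) (Fin 3) R := Matrix.of V₀
  have eσ : V'.map Prod.fst = V.map σ := by
    ext i j
    exact (congrArg Prod.fst (hV₀ i j)).symm
  have eτ : ∀ i j, (V' i j).2 = τ (V i j) := fun i j => (congrArg Prod.snd (hV₀ i j)).symm
  rw [eσ] at hV2 hV3
  simp only [eτ] at hV4
  have hVd : V.det ≠ 0 := by
    intro h0
    refine hV2 ?_
    rw [← RingHom.mapMatrix_apply, ← RingHom.map_det, h0, map_zero]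
  have hV : V ∈ 𝒱 := by
    refine ⟨hfin.mem_toFinset.2 fun i j => ?_, hVd⟩
    have := gram_bound h hk hV3 hV4 i j
    exact ⟨this.1.trans (le_max_left _ _), this.2.trans (le_trans (by norm_num) (le_max_right _ _))⟩
  obtain ⟨W, hWt, hW⟩ := ht3 ⟨V, hV, rfl⟩
  have hG : Vᴴ * JR s * V = Wᴴ * JR s * W := (congrArg Prod.fst hW).symm
  have hs0 : s ≠ 0 := by
    intro h0
    have := h.sσ
    rw [h0, map_zero] at this
    exact h.r0 (by exact_mod_cast pow_eq_zero_iff two_ne_zero |>.1 this.symm)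
  have hGd : (Vᴴ * JR s * V).det ≠ 0 := by
    rw [det_mul, det_mul, det_conjTranspose]
    refine mul_ne_zero (mul_ne_zero (star_ne_zero.2 hVd) ?_) hVd
    simpa [JR, Fin.prod_univ_three] using hs0
  obtain ⟨a, ha⟩ := same_class (N := N) hVd hG fun i j => by
    have e1 : Ideal.Quotient.mk (Ideal.span {M₀}) (W i j) = Ideal.Quotient.mk _ (V i j) :=
      congrFun (congrFun (congrArg Prod.snd hW) i) j
    rw [Ideal.Quotient.eq, Ideal.mem_span_singleton] at e1
    refine dvd_trans (mul_dvd_mul_left _ ?_) e1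
    exact Finset.dvd_prod_of_mem _ (Finset.mem_filter.2 ⟨hV.1, hGd⟩)
  refine ⟨a, ?_⟩
  have hWu : IsUnit (Dm r * W.map σ).det := by
    rw [isUnit_iff_ne_zero, det_mul, Dm_det, ← RingHom.mapMatrix_apply, ← RingHom.map_det]
    exact mul_ne_zero (by exact_mod_cast h.r0) fun h0 => (ht1 hWt).2 (hσ0 _ h0)
  have hinv : rho h N a⁻¹ * rho h N a = 1 := by rw [← map_mul, inv_mul_cancel, map_one]
  have e1 : rho h N a * (Dm r * V.map σ) = Dm r * W.map σ := by
    rw [rho_apply, cj_mul_D, ha]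
  have e2 : k * rho h N a⁻¹ = (k * Dm r * V.map σ) * (Dm r * W.map σ)⁻¹ := by
    rw [Matrix.mul_assoc k, Matrix.mul_assoc k]
    congr 1
    have : Dm r * V.map σ = rho h N a⁻¹ * (Dm r * W.map σ) := by
      rw [← e1, ← Matrix.mul_assoc, hinv, Matrix.one_mul]
    rw [this, Matrix.mul_nonsing_inv_cancel_right _ _ hWu]
  have hB : (k * rho h N a⁻¹)ᴴ * Jm * (k * rho h N a⁻¹) = Jm := by
    calc _ = (rho h N a⁻¹)ᴴ * (kᴴ * Jm * k) * rho h N a⁻¹ := by
          simp only [conjTranspose_mul, Matrix.mul_assoc]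
      _ = Jm := by rw [hk]; exact h.unitσ (a⁻¹).2.1
  have e3 := last_coord hB (x := rho h N a *ᵥ Z) (l := l) (by
    rw [mulVec_mulVec, Matrix.mul_assoc, hinv, Matrix.mul_one, hkZ])
  have hL0 : 0 ≤ L := (norm_nonneg _).trans (hV3 0 0)
  have e4 : ‖(k * rho h N a⁻¹) 2 2‖ ≤ L * C := by
    rw [e2, Matrix.mul_apply]
    refine (norm_sum_le _ _).trans ?_
    refine le_trans ?_ (mul_le_mul_of_nonneg_left (hC ⟨W, hWt, rfl⟩) hL0)
    rw [Finset.mul_sum]
    refine Finset.sum_le_sum fun i _ => ?_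
    rw [norm_mul]
    exact mul_le_mul_of_nonneg_right (hV3 2 i) (norm_nonneg _)
  have e5 := pow_le_pow_left₀ (norm_nonneg _) e4 2
  rw [e3, mul_pow ‖l‖, hl, one_div, inv_mul_le_iff₀ (by positivity)]
  nlinarith

lemma lat_of_dat [Module.Finite ℤ R] [Countable R] (h : Dat σ τ s r) (Λ : ℝ) :
    ∃ (G : Type) (_ : Group G) (_ : Countable G) (ρ : G →* C3), IsLattice Λ G ρ := by
  obtain ⟨n, hn⟩ := exists_nat_ge (2 * Λ + 1)
  have : Countable (Matrix (Fin 3) (Fin 3) R) := inferInstanceAs (Countable (Fin 3 → Fin 3 → R))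
  have : Countable (Matrix (Fin 3) (Fin 3) R)ˣ := Units.val_injective.countable
  refine ⟨Gs s (n + 7), inferInstance, inferInstance, rho h (n + 7), fun a => h.unitσ a.2.1,
    rho_far h (by push_cast; linarith) (by omega), rho_fin h _, rho_free h (by omega),
    rho_cocpt h (by omega)⟩

end Pool.Agent.MP_019006_gt.Lat
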