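import Pool.Agent.MP_019006_gt.Local3

set_option autoImplicit false

open MeasureTheory Filter Topology Set Matrix

namespace Pool.Agent.MP_019006_gt

theorem continuousOn_PsiT {f β : EE → ℝ} (hf : ∀ n : ℕ, ContDiffOn ℝ n f Bl)
    (hβ : ContinuousOn β Bl) {φ : ℝ → EE × EE → EE × EE}
    {M : ℝ → EE × EE → (EE × EE) →L[ℝ] (EE × EE)} (hφ : IsFlow OO (XX f) φ M) (η e τ : ℝ) :
    ContinuousOn (PsiT f β φ η e τ) OO := by
  have h1 := Loc.continuousOn_d1 hf
  have h2 := Loc.continuousOn_dw hf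
  have h3 := Loc.continuousOn_int h1 hφ (-τ) 0
  have h4 := Loc.continuousOn_int h2 hφ (-τ) 0
  have h5 : ContinuousOn (fun q : EE × EE => β q.1) OO :=
    hβ.comp continuousOn_fst fun q hq => mem_OO.1 hq
  exact ((((continuousOn_const.mul h2).mul h4).sub ((continuousOn_const.mul h1).mul h3)).add
    (continuousOn_const.mul (h1.sub (continuousOn_const.mul h2)))).sub
    (continuousOn_const.mul h5)

namespace Loc

theorem finrank_EE : Module.finrank ℝ EE = 4 := by
  rw [finrank_real_of_complex, finrank_euclideanSpace_fin]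

theorem continuous_L0 (w : EE) : Continuous fun x => L0 x w := by
  have h1 : Continuous fun x : EE => Real.sqrt (Dd x) := by unfold Dd; fun_prop
  have h2 : Continuous fun x : EE => ip w x := by unfold ip; fun_prop
  have h3 : Continuous fun x : EE => (((1 + Real.sqrt (Dd x) : ℝ)) : ℂ) :=
    Complex.continuous_ofReal.comp (continuous_const.add h1)
  have h4 : Continuous fun x : EE => ip w x / (((1 + Real.sqrt (Dd x) : ℝ)) : ℂ) :=
    h2.div h3 fun x => Complex.ofReal_ne_zero.2 (by positivity)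
  exact h1.smul (continuous_const.sub (h4.smul continuous_id))

theorem continuousOn_integrand {f β : EE → ℝ} (hf : ∀ n : ℕ, ContDiffOn ℝ n f Bl)
    (hβ : ContinuousOn β Bl) {φ : ℝ → EE × EE → EE × EE}
    {M : ℝ → EE × EE → (EE × EE) →L[ℝ] (EE × EE)} (hφ : IsFlow OO (XX f) φ M) (η e τ : ℝ)
    (w : EE) : ContinuousOn (fun x => PsiT f β φ η e τ (x, Real.exp (-f x) • L0 x w) *
      (Real.exp (4 * f x) / Dd x ^ 3)) Bl := by
  have hc : ContinuousOn f Bl := (hf 0).continuousOn
  have h1 : ContinuousOn (fun x => Real.exp (-f x) • L0 x w) Bl :=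
    (Real.continuous_exp.comp_continuousOn hc.neg).smul (continuous_L0 w).continuousOn
  have h2 : ContinuousOn (fun x => PsiT f β φ η e τ (x, Real.exp (-f x) • L0 x w)) Bl :=
    (continuousOn_PsiT hf hβ hφ η e τ).comp (continuousOn_id.prodMk h1) fun x hx => mem_OO.2 hx
  have h3 : Continuous fun x : EE => Dd x ^ 3 := by unfold Dd; fun_prop
  exact h2.mul ((Real.continuous_exp.comp_continuousOn (continuousOn_const.mul hc)).div
    h3.continuousOn fun x hx => (pow_pos (Dd_pos hx) 3).ne')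

variable {F : EE → ℝ} {K : ℝ}

theorem continuous_SS (hF : Bd F K) (w : EE) : Continuous (SS F w) := by
  obtain ⟨c1, cw⟩ := sig_cont hF w
  have hl : Continuous fun z : EE × ℝ => z.1 + z.2 • w := by fun_prop
  have i1 := intervalIntegral.continuous_parametric_intervalIntegral_of_continuous'
    (μ := volume) (f := fun (y : EE) (s : ℝ) => sig1 F (y + s • w) w) (c1.comp hl) (-6) 0
  have iw := intervalIntegral.continuous_parametric_intervalIntegral_of_continuous'
    (μ := volume) (f := fun (y : EE) (s : ℝ) => sigw F (y + s • w) w) (cw.comp hl) (-6) 0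
  exact ((continuous_const.mul cw).mul iw).sub ((continuous_const.mul c1).mul i1)

theorem integrable_of_zero {g : EE → ℝ} (hg : Continuous g) (h0 : ∀ y, 1 < ‖y‖ → g y = 0) :
    Integrable g := by
  refine hg.integrable_of_hasCompactSupport ?_
  refine HasCompactSupport.intro (isCompact_closedBall (0 : EE) 1) fun x hx => h0 x ?_
  simpa only [Metric.mem_closedBall, dist_zero_right, not_le] using hx

theorem continuous_Main (hF : Bd F K) (ε r : ℝ) (w : EE) : Continuous (Main F ε r w) := by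
  obtain ⟨c1, cw⟩ := sig_cont hF w
  exact (continuous_const.mul (continuous_SS hF w)).add
    (continuous_const.mul (c1.sub (continuous_const.mul cw)))

theorem integral_Main {s₀ : ℝ} (hP : IsProfile F s₀) (hF : Bd F K) (ε : ℝ) {r : ℝ} (hr : 0 < r)
    {w : EE} (hw : ‖w‖ = 1) :
    ε ^ 2 * r ^ 5 * s₀ ≤ ∫ x in Metric.ball (0 : EE) (2 * r), Main F ε r w (r⁻¹ • x) := by
  obtain ⟨c1, cw⟩ := sig_cont hF w
  have z1 : ∀ y : EE, 1 < ‖y‖ → SS F w y = 0 := fun y hy => by
    unfold SS
    rw [(sig_zero hF w hy).1, (sig_zero hF w hy).2]; ring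
  have z2 : ∀ y : EE, 1 < ‖y‖ → sig1 F y w - 2 * sigw F y w = 0 := fun y hy => by
    rw [(sig_zero hF w hy).1, (sig_zero hF w hy).2]; ring
  have i1 := integrable_of_zero (continuous_SS hF w) z1
  have i2 := integrable_of_zero (g := fun y => sig1 F y w - 2 * sigw F y w)
    (c1.sub (continuous_const.mul cw)) z2
  rw [setIntegral_eq_integral_of_forall_compl_eq_zero, Measure.integral_comp_inv_smul_of_nonneg
    volume (Main F ε r w) hr.le, finrank_EE, smul_eq_mul]
  · unfold Main
    rw [integral_add (i1.const_mul _) (i2.const_mul _), integral_const_mul, integral_const_mul,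
      hP.first w hw, mul_zero, add_zero]
    have h : s₀ ≤ ∫ y, SS F w y := hP.second w hw
    calc ε ^ 2 * r ^ 5 * s₀ ≤ ε ^ 2 * r ^ 5 * ∫ y, SS F w y := by gcongr
      _ = _ := by ring
  · intro x hx
    have hy : 1 < ‖r⁻¹ • x‖ := by
      rw [Metric.mem_ball, dist_zero_right, not_lt] at hx
      rw [norm_smul, norm_inv, Real.norm_eq_abs, abs_of_pos hr, lt_inv_mul_iff₀ hr]
      linarith
    unfold Main
    rw [z1 _ hy, z2 _ hy]; ring

end Loc

theorem local_line {F : EE → ℝ} {s₀ : ℝ} (hF : IsProfile F s₀) (C : ℝ) : ∃ η : ℝ, 0 < η ∧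
    ∀ ε : ℝ, 0 < ε → ε ≤ 1 → ∃ r₀ : ℝ, 0 < r₀ ∧ ∀ (r : ℝ) (f β : EE → ℝ)
      (φ : ℝ → EE × EE → EE × EE) (M : ℝ → EE × EE → (EE × EE) →L[ℝ] (EE × EE)),
      0 < r → r ≤ r₀ → Conf f → (∀ x, ‖x‖ < 1 / 2 → f x = f0 F ε r x ∧ β x = b0 r x) →
      IsFlow OO (XX f) φ M → ∀ w : EE, ‖w‖ = 1 →
        ε ^ 2 * r ^ 5 * s₀ / 2 ≤ ∫ x in Metric.ball (0 : EE) (2 * r),
          PsiT f β φ η (C * ε) (6 * r) (x, Real.exp (-f x) • L0 x w) *
            (Real.exp (4 * f x) / Dd x ^ 3) := by
  obtain ⟨K, hK⟩ := Loc.exists_bd hF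
  have k1 := hK.one
  have s0 := hF.pos
  obtain ⟨V, hV⟩ : ∃ V, V = (volume : Measure EE).real (Metric.ball 0 1) := ⟨_, rfl⟩
  have V0 : 0 ≤ V := hV ▸ measureReal_nonneg
  obtain ⟨c, hc⟩ : ∃ c, c = (1000000000 * K ^ 3) ^ 2 := ⟨_, rfl⟩
  have c0 : 0 ≤ c := hc ▸ sq_nonneg _
  obtain ⟨η, hη⟩ : ∃ η, η = s₀ / (1152 * (C ^ 2 * V + 1)) := ⟨_, rfl⟩
  have η0 : 0 < η := by rw [hη]; positivity
  have η1 : η * (1152 * (C ^ 2 * V + 1)) = s₀ := by rw [hη]; field_simp
  refine ⟨η, η0, fun ε hε hε1 => ⟨min (min (1 / 100) (1 / (42 * K)))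
    (ε ^ 2 * s₀ / (448 * (c * V + 1))), by positivity, ?_⟩⟩
  intro r f β φ M hr hr0 hC hf hφ w hw
  have r1 : r ≤ 1 / 100 := hr0.trans ((min_le_left _ _).trans (min_le_left _ _))
  have r2 : 42 * K * r ≤ 1 := by
    have := hr0.trans ((min_le_left _ _).trans (min_le_right _ _))
    rw [le_div_iff₀ (by positivity)] at this
    linarith
  have r3 : r * (448 * (c * V + 1)) ≤ ε ^ 2 * s₀ := by
    have := hr0.trans (min_le_right _ _)
    rwa [le_div_iff₀ (by positivity)] at this
  have hball : ∀ x ∈ Metric.ball (0 : EE) (2 * r), ‖x‖ ≤ 2 * r := fun x hx => by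
    rw [Metric.mem_ball, dist_zero_right] at hx
    exact hx.le
  have hsub : Metric.closedBall (0 : EE) (2 * r) ⊆ Bl := fun x hx => by
    rw [Metric.mem_closedBall, dist_zero_right] at hx
    exact mem_Bl.2 (by linarith)
  have hb : Continuous (b0 r) := by unfold b0; fun_prop
  have e1 : ∫ x in Metric.ball (0 : EE) (2 * r),
      PsiT f β φ η (C * ε) (6 * r) (x, Real.exp (-f x) • L0 x w) *
        (Real.exp (4 * f x) / Dd x ^ 3) = ∫ x in Metric.ball (0 : EE) (2 * r),
      PsiT f (b0 r) φ η (C * ε) (6 * r) (x, Real.exp (-f x) • L0 x w) *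
        (Real.exp (4 * f x) / Dd x ^ 3) := by
    refine setIntegral_congr_fun measurableSet_ball fun x hx => ?_
    have := (hf x (by linarith [hball x hx])).2
    simp only [PsiT, this]
  have i1 := (((Loc.continuousOn_integrand hC.smooth hb.continuousOn hφ η (C * ε) (6 * r) w).mono
    hsub).integrableOn_compact (μ := volume) (isCompact_closedBall _ _)).mono_set
      Metric.ball_subset_closedBall
  have cM : Continuous fun x : EE => Loc.Main F ε r w (r⁻¹ • x) :=
    (Loc.continuous_Main hK ε r w).comp (continuous_const_smul r⁻¹)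
  have i2 := (cM.continuousOn.integrableOn_compact (μ := volume)
    (isCompact_closedBall (0 : EE) (2 * r))).mono_set Metric.ball_subset_closedBall
  have i3 : IntegrableOn (fun _ : EE => 7 * c * r ^ 2 + 18 * η * (C * ε) ^ 2 * r)
      (Metric.ball (0 : EE) (2 * r)) := integrableOn_const measure_ball_lt_top.ne
  have h1 := setIntegral_mono_on (i2.sub i3) i1 measurableSet_ball fun x hx => by
    rw [hc]
    exact Loc.point_est hK hε hε1 hr r1 r2 hC (fun x hx => (hf x hx).1) hφ (hball x hx) hw η0.le _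
  have h2 := Loc.integral_Main hF hK ε hr hw
  have h3 : (volume : Measure EE).real (Metric.ball 0 (2 * r)) = 16 * r ^ 4 * V := by
    rw [← Measure.addHaar_real_closedBall_eq_addHaar_real_ball,
      Measure.addHaar_real_closedBall _ _ (by linarith), Loc.finrank_EE, ← hV]
    ring
  simp only [Pi.sub_apply] at h1
  rw [integral_sub i2 i3, setIntegral_const, h3, smul_eq_mul] at h1
  rw [e1]
  refine le_trans ?_ h1
  have a1 : 16 * r ^ 4 * V * (7 * c * r ^ 2) ≤ ε ^ 2 * r ^ 5 * s₀ / 4 := by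
    have : r ^ 5 * (r * (448 * (c * V + 1))) ≤ r ^ 5 * (ε ^ 2 * s₀) := by gcongr
    have h6 : 0 ≤ r ^ 6 := by positivity
    linarith
  have a2 : 16 * r ^ 4 * V * (18 * η * (C * ε) ^ 2 * r) ≤ ε ^ 2 * r ^ 5 * s₀ / 4 := by
    rw [← η1]
    have h6 : 0 ≤ ε ^ 2 * r ^ 5 * η := by positivity
    linarith
  linarith

end Pool.Agent.MP_019006_gt
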