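import Pool.Agent.MP_019006_gt.Metric

set_option autoImplicit false

open MeasureTheory Filter Topology Set Matrix

namespace Pool.Agent.MP_019006_gt

namespace Loc

/-- Bounds for the profile. -/
structure Bd (F : EE → ℝ) (K : ℝ) : Prop where
  one : 1 ≤ K
  b0 : ∀ y, |F y| ≤ K
  b1 : ∀ y, ‖fderiv ℝ F y‖ ≤ K
  b2 : ∀ y u, ‖u‖ ≤ 3 → |HH F y u| ≤ K
  b3 : ∀ y y' u u', ‖u‖ ≤ 3 → ‖u'‖ ≤ 3 → |HH F y u - HH F y' u'| ≤ K * (‖y - y'‖ + ‖u - u'‖)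
  c2 : ∀ u, Continuous fun y => HH F y u
  z2 : ∀ y u, 1 < ‖y‖ → HH F y u = 0
  sm : ContDiff ℝ 2 F

section gen

variable {E : Type} [NormedAddCommGroup E] [NormedSpace ℝ E]

theorem HH_eq {F : E → ℝ} (hF : ContDiff ℝ 2 F) (y u : E) :
    fderiv ℝ (fun z => fderiv ℝ F z u) y u = fderiv ℝ (fderiv ℝ F) y u u := by
  have h1 : DifferentiableAt ℝ (fderiv ℝ F) y :=
    ((hF.fderiv_right (m := 1) (by norm_num)).differentiable (by norm_num)) y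
  rw [fderiv_clm_apply h1 (differentiableAt_const u)]
  simp

theorem bil_le (B : E →L[ℝ] E →L[ℝ] ℝ) (u w : E) : |B u w| ≤ ‖B‖ * ‖u‖ * ‖w‖ := by
  simpa using B.le_opNorm₂ u w

theorem bil_sub (B B' : E →L[ℝ] E →L[ℝ] ℝ) {c K : ℝ} {u u' : E} (hd : ‖B - B'‖ ≤ c)
    (hK : ‖B'‖ ≤ K) (hu : ‖u‖ ≤ 3) (hu' : ‖u'‖ ≤ 3) :
    |B u u - B' u' u'| ≤ 9 * c + 6 * K * ‖u - u'‖ := by
  have e : B u u - B' u' u' = (B - B') u u + B' (u - u') u + B' u' (u - u') := by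
    simp only [_root_.sub_apply, map_sub]; ring
  have c0 : 0 ≤ c := (norm_nonneg (B - B')).trans hd
  have k0 : 0 ≤ K := (norm_nonneg B').trans hK
  have a1 : |(B - B') u u| ≤ c * 3 * 3 := (bil_le _ _ _).trans (by gcongr)
  have a2 : |B' (u - u') u| ≤ K * ‖u - u'‖ * 3 := (bil_le _ _ _).trans (by gcongr)
  have a3 : |B' u' (u - u')| ≤ K * 3 * ‖u - u'‖ := (bil_le _ _ _).trans (by gcongr)
  rw [e]
  have := abs_add_three ((B - B') u u) (B' (u - u') u) (B' u' (u - u'))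
  linarith

theorem gen_lip {V : Type} [NormedAddCommGroup V] [NormedSpace ℝ V] {G : E → V}
    (hc : HasCompactSupport G) (h : ContDiff ℝ 2 G) : ∃ C : ℝ, 0 ≤ C ∧ (∀ y, ‖fderiv ℝ G y‖ ≤ C) ∧
      ∀ y y', ‖fderiv ℝ G y - fderiv ℝ G y'‖ ≤ C * ‖y - y'‖ := by
  have h1 : ContDiff ℝ 1 (fderiv ℝ G) := h.fderiv_right (m := 1) (by norm_num)
  obtain ⟨K2, hK2⟩ := (hc.fderiv ℝ).exists_bound_of_continuous h1.continuous
  obtain ⟨K3, hK3⟩ := ContDiff.lipschitzWith_of_hasCompactSupport (hc.fderiv ℝ) h1 (by norm_num)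
  have k2 : 0 ≤ K2 := (norm_nonneg _).trans (hK2 0)
  have k3 : 0 ≤ (K3 : ℝ) := K3.2
  refine ⟨K2 + K3, by linarith, fun y => by linarith [hK2 y], fun y y' => ?_⟩
  have := hK3.dist_le_mul y y'
  rw [dist_eq_norm, dist_eq_norm] at this
  refine this.trans ?_
  gcongr; linarith

theorem exists_bd_gen {F : E → ℝ} (hc : HasCompactSupport F) (h3 : ContDiff ℝ 3 F) :
    ∃ K : ℝ, 1 ≤ K ∧ (∀ y, |F y| ≤ K) ∧ (∀ y, ‖fderiv ℝ F y‖ ≤ K) ∧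
      (∀ y u, ‖u‖ ≤ 3 → |fderiv ℝ (fun z => fderiv ℝ F z u) y u| ≤ K) ∧
      (∀ y y' u u', ‖u‖ ≤ 3 → ‖u'‖ ≤ 3 → |fderiv ℝ (fun z => fderiv ℝ F z u) y u -
        fderiv ℝ (fun z => fderiv ℝ F z u') y' u'| ≤ K * (‖y - y'‖ + ‖u - u'‖)) ∧
      ∀ u, Continuous fun y => fderiv ℝ (fun z => fderiv ℝ F z u) y u := by
  have h2 : ContDiff ℝ 2 F := h3.of_le (by norm_num)
  have h31 : ContDiff ℝ 2 (fderiv ℝ F) := h3.fderiv_right (m := 2) (by norm_num)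
  have h32 : ContDiff ℝ 1 (fderiv ℝ (fderiv ℝ F)) := h31.fderiv_right (m := 1) (by norm_num)
  obtain ⟨K0, hK0⟩ := hc.exists_bound_of_continuous h2.continuous
  obtain ⟨K1, hK1⟩ := (hc.fderiv ℝ).exists_bound_of_continuous h31.continuous
  obtain ⟨K2, k2, hK2, hK3⟩ := gen_lip (hc.fderiv ℝ) h31
  have k0 : 0 ≤ K0 := (norm_nonneg _).trans (hK0 0)
  have k1 : 0 ≤ K1 := (norm_nonneg _).trans (hK1 0)
  refine ⟨1 + K0 + K1 + 9 * K2, by linarith, fun y => ?_, fun y => ?_, fun y u hu => ?_,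
    fun y y' u u' hu hu' => ?_, fun u => ?_⟩
  · have := hK0 y
    rw [Real.norm_eq_abs] at this
    linarith
  · have := hK1 y
    linarith
  · rw [HH_eq h2]
    have h := bil_le (fderiv ℝ (fderiv ℝ F) y) u u
    have : ‖fderiv ℝ (fderiv ℝ F) y‖ * ‖u‖ * ‖u‖ ≤ K2 * 3 * 3 := by
      gcongr
      exact hK2 y
    linarith
  · rw [HH_eq h2, HH_eq h2]
    refine (bil_sub _ _ (hK3 y y') (hK2 y') hu hu').trans ?_
    have n1 := norm_nonneg (y - y')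
    have n2 := norm_nonneg (u - u')
    have m1 : 9 * (K2 * ‖y - y'‖) ≤ (1 + K0 + K1 + 9 * K2) * ‖y - y'‖ := by
      rw [← mul_assoc]; gcongr; linarith
    have m2 : 6 * K2 * ‖u - u'‖ ≤ (1 + K0 + K1 + 9 * K2) * ‖u - u'‖ := by
      gcongr; linarith
    linarith
  · simp only [HH_eq h2]
    exact ((h32.continuous).clm_apply continuous_const).clm_apply continuous_const

end gen

theorem exists_bd {F : EE → ℝ} {s₀ : ℝ} (hF : IsProfile F s₀) : ∃ K, Bd F K := by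
  have hc : HasCompactSupport F := by
    refine HasCompactSupport.intro (isCompact_closedBall (0 : EE) 1) fun x hx => hF.supp x ?_
    simp only [Metric.mem_closedBall, dist_zero_right, not_le] at hx
    exact hx.le
  have h2 : ContDiff ℝ 2 F := by exact_mod_cast hF.smooth 2
  have h3 : ContDiff ℝ 3 F := by exact_mod_cast hF.smooth 3
  obtain ⟨K, k1, k2, k3, k4, k5, k6⟩ := exists_bd_gen hc h3
  refine ⟨K, k1, k2, k3, k4, k5, k6, fun y u hy => ?_, h2⟩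
  have ho : IsOpen {z : EE | 1 < ‖z‖} := isOpen_lt continuous_const continuous_norm
  have e1 : ∀ z : EE, 1 < ‖z‖ → fderiv ℝ F z = 0 := fun z hz => by
    have : F =ᶠ[𝓝 z] fun _ => 0 := by
      filter_upwards [ho.mem_nhds hz] with t ht using hF.supp t (le_of_lt ht)
    rw [this.fderiv_eq]; simp
  have : (fun z => fderiv ℝ F z u) =ᶠ[𝓝 y] fun _ => 0 := by
    filter_upwards [ho.mem_nhds hy] with t ht
    rw [e1 t ht]; rfl
  unfold HH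
  rw [this.fderiv_eq]; simp

section local_f

variable {F : EE → ℝ} {K ε r : ℝ} {f : EE → ℝ}

theorem fderiv_f0 (hF : ContDiff ℝ 2 F) (hr : 0 < r) (x : EE) :
    fderiv ℝ (f0 F ε r) x = (ε * r) • fderiv ℝ F (r⁻¹ • x) := by
  have hd : DifferentiableAt ℝ F (r⁻¹ • x) := hF.differentiable (by norm_num) _
  have h1 : HasFDerivAt (fun y : EE => r⁻¹ • y) (r⁻¹ • ContinuousLinearMap.id ℝ EE) x :=
    (hasFDerivAt_id x).const_smul r⁻¹
  have h2 := (hd.hasFDerivAt.comp x h1).const_mul (ε * r ^ 2)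
  have h3 : HasFDerivAt (f0 F ε r) _ x := h2
  rw [h3.fderiv]
  ext u
  simp only [_root_.smul_apply, ContinuousLinearMap.comp_apply,
    ContinuousLinearMap.id_apply, map_smul, smul_eq_mul]
  field_simp

theorem fderiv_loc (hF : ContDiff ℝ 2 F) (hr : 0 < r)
    (hf : ∀ x, ‖x‖ < 1 / 2 → f x = f0 F ε r x) {x : EE} (hx : ‖x‖ < 1 / 2) :
    fderiv ℝ f x = (ε * r) • fderiv ℝ F (r⁻¹ • x) := by
  have ho : IsOpen {z : EE | ‖z‖ < 1 / 2} := isOpen_lt continuous_norm continuous_const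
  have : f =ᶠ[𝓝 x] f0 F ε r := by
    filter_upwards [ho.mem_nhds hx] with t ht using hf t ht
  rw [this.fderiv_eq, fderiv_f0 hF hr]

theorem fderiv2_loc (hF : ContDiff ℝ 2 F) (hr : 0 < r)
    (hf : ∀ x, ‖x‖ < 1 / 2 → f x = f0 F ε r x) {x : EE} (hx : ‖x‖ < 1 / 2) (u : EE) :
    fderiv ℝ (fun y => fderiv ℝ f y u) x u = ε * HH F (r⁻¹ • x) u := by
  have ho : IsOpen {z : EE | ‖z‖ < 1 / 2} := isOpen_lt continuous_norm continuous_const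
  have e : (fun y => fderiv ℝ f y u) =ᶠ[𝓝 x]
      fun y => (ε * r) * (fun z => fderiv ℝ F z u) (r⁻¹ • y) := by
    filter_upwards [ho.mem_nhds hx] with t ht
    rw [fderiv_loc hF hr hf ht]; rfl
  have hd : DifferentiableAt ℝ (fun z => fderiv ℝ F z u) (r⁻¹ • x) :=
    (((hF.fderiv_right (m := 1) (by norm_num)).differentiable (by norm_num)) _).clm_apply
      (differentiableAt_const u)
  have h1 : HasFDerivAt (fun y : EE => r⁻¹ • y) (r⁻¹ • ContinuousLinearMap.id ℝ EE) x :=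
    (hasFDerivAt_id x).const_smul r⁻¹
  have h2 := (hd.hasFDerivAt.comp x h1).const_mul (ε * r)
  have h3 : HasFDerivAt (fun y => (ε * r) * (fun z => fderiv ℝ F z u) (r⁻¹ • y)) _ x := h2
  rw [e.fderiv_eq, h3.fderiv]
  simp only [_root_.smul_apply, ContinuousLinearMap.comp_apply,
    ContinuousLinearMap.id_apply, map_smul, smul_eq_mul, HH]
  field_simp

theorem norm_fderiv_loc (hF : Bd F K) (hε : 0 < ε) (hε1 : ε ≤ 1) (hr : 0 < r)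
    (hf : ∀ x, ‖x‖ < 1 / 2 → f x = f0 F ε r x) {x : EE} (hx : ‖x‖ < 1 / 2) :
    ‖fderiv ℝ f x‖ ≤ K * r := by
  rw [fderiv_loc hF.sm hr hf hx, norm_smul, Real.norm_eq_abs, abs_of_pos (mul_pos hε hr)]
  have := hF.b1 (r⁻¹ • x)
  have k : 0 ≤ K := by linarith [hF.one]
  calc ε * r * ‖fderiv ℝ F (r⁻¹ • x)‖ ≤ 1 * r * K := by gcongr
    _ = K * r := by ring

theorem abs_f_loc (hF : Bd F K) (hε : 0 < ε) (hε1 : ε ≤ 1)
    (hf : ∀ x, ‖x‖ < 1 / 2 → f x = f0 F ε r x) {x : EE} (hx : ‖x‖ < 1 / 2) :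
    |f x| ≤ K * r ^ 2 := by
  rw [hf x hx, f0, abs_mul, abs_of_nonneg (by positivity : 0 ≤ ε * r ^ 2)]
  have := hF.b0 (r⁻¹ • x)
  calc ε * r ^ 2 * |F (r⁻¹ • x)| ≤ 1 * r ^ 2 * K := by gcongr
    _ = K * r ^ 2 := by ring

end local_f

theorem mem_Bl_of {x : EE} (hx : ‖x‖ < 1 / 2) : x ∈ Bl := mem_Bl.2 (by linarith)

theorem Dd_ge {x : EE} (hx : ‖x‖ < 1 / 2) : 3 / 4 ≤ Dd x := by
  unfold Dd
  nlinarith [norm_nonneg x]

theorem norm_Gam0_le {x : EE} (hx : ‖x‖ < 1 / 2) (u : EE) :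
    ‖Gam0 x u u‖ ≤ 3 * ‖x‖ * ‖u‖ ^ 2 := by
  have hD := Dd_ge hx
  have h1 : ‖al x u‖ ≤ 4 / 3 * (‖u‖ * ‖x‖) := by
    unfold al
    rw [norm_div, Complex.norm_real, Real.norm_eq_abs, abs_of_pos (by linarith),
      div_le_iff₀ (by linarith)]
    have := norm_ip_le u x
    have h0 : 0 ≤ ‖u‖ * ‖x‖ := by positivity
    nlinarith
  unfold Gam0
  calc ‖al x u • u + al x u • u‖ ≤ ‖al x u • u‖ + ‖al x u • u‖ := norm_add_le _ _
    _ = 2 * ‖al x u‖ * ‖u‖ := by rw [norm_smul]; ring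
    _ ≤ 2 * (4 / 3 * (‖u‖ * ‖x‖)) * ‖u‖ := by gcongr
    _ ≤ 3 * ‖x‖ * ‖u‖ ^ 2 := by
      have : 0 ≤ ‖x‖ * ‖u‖ ^ 2 := by positivity
      nlinarith

theorem norm_NN_le (f : EE → ℝ) {x : EE} (hx : ‖x‖ < 1 / 2) :
    ‖NN f x‖ ≤ 2 * ‖fderiv ℝ f x‖ := by
  have hg : ‖gradient f x‖ = ‖fderiv ℝ f x‖ := by
    unfold gradient
    exact (InnerProductSpace.toDual ℝ EE).symm.norm_map _
  have hD := Dd_ge hx
  have hD1 := Dd_le_one x
  unfold NN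
  rw [norm_smul, Real.norm_eq_abs, abs_of_pos (by linarith), ← hg]
  have h1 := norm_sub_le (gradient f x) (ip (gradient f x) x • x)
  rw [norm_smul] at h1
  have h2 := norm_ip_le (gradient f x) x
  have h3 : ‖ip (gradient f x) x‖ * ‖x‖ ≤ ‖gradient f x‖ * ‖x‖ * ‖x‖ := by gcongr
  have h4 : ‖gradient f x‖ * ‖x‖ * ‖x‖ ≤ ‖gradient f x‖ * 1 * 1 := by
    gcongr <;> linarith
  calc Dd x * ‖gradient f x - ip (gradient f x) x • x‖
      ≤ 1 * ‖gradient f x - ip (gradient f x) x • x‖ := by gcongr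
    _ ≤ 2 * ‖gradient f x‖ := by linarith

theorem g0_le {x : EE} (hx : ‖x‖ < 1 / 2) (u : EE) : 0 ≤ g0 x u u ∧ g0 x u u ≤ 2 * ‖u‖ ^ 2 := by
  obtain ⟨h1, -, h3⟩ := g0_bounds (mem_Bl_of hx) u
  have hD := Dd_ge hx
  refine ⟨le_trans (by positivity) h1, h3.trans ?_⟩
  rw [div_le_iff₀ (by positivity)]
  have : 9 / 16 ≤ Dd x ^ 2 := by nlinarith
  nlinarith [sq_nonneg ‖u‖]

theorem norm_L0_sub {x : EE} (hx : ‖x‖ < 1 / 2) (w : EE) : ‖L0 x w - w‖ ≤ 2 * ‖x‖ ^ 2 * ‖w‖ := by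
  have hD := Dd_ge hx
  have hD1 := Dd_le_one x
  set s := Real.sqrt (Dd x) with hs
  have s0 : 0 ≤ s := Real.sqrt_nonneg _
  have s1 : s ≤ 1 := Real.sqrt_le_one.2 hD1
  have s2 : s ^ 2 = Dd x := Real.sq_sqrt (by linarith)
  have s3 : 1 - s ≤ ‖x‖ ^ 2 := by
    have : Dd x = 1 - ‖x‖ ^ 2 := rfl
    nlinarith
  have e : L0 x w - w = (s - 1) • w - s • ((ip w x / (1 + s : ℝ)) • x) := by
    unfold L0
    rw [← hs, smul_sub, sub_smul, one_smul]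
    abel
  have h1 : ‖(s - 1) • w‖ ≤ ‖x‖ ^ 2 * ‖w‖ := by
    rw [norm_smul, Real.norm_eq_abs, abs_of_nonpos (by linarith)]
    gcongr
    linarith
  have h2 : ‖s • ((ip w x / (1 + s : ℝ)) • x)‖ ≤ ‖x‖ ^ 2 * ‖w‖ := by
    rw [norm_smul, norm_smul, norm_div, Complex.norm_real, Real.norm_eq_abs, Real.norm_eq_abs,
      abs_of_nonneg s0, abs_of_pos (by linarith)]
    have a1 : ‖ip w x‖ / (1 + s) ≤ ‖w‖ * ‖x‖ :=
      (div_le_self (norm_nonneg _) (by linarith)).trans (norm_ip_le w x)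
    calc s * (‖ip w x‖ / (1 + s) * ‖x‖) ≤ 1 * (‖w‖ * ‖x‖ * ‖x‖) := by gcongr
      _ = ‖x‖ ^ 2 * ‖w‖ := by ring
  rw [e]
  linarith [norm_sub_le ((s - 1) • w) (s • ((ip w x / (1 + s : ℝ)) • x))]

theorem norm_Linv0_le {x : EE} (hx : ‖x‖ < 1 / 2) (v : EE) :
    ‖Linv0 x v‖ ≤ 2 * ‖v‖ ∧ ‖Linv0 x v - v‖ ≤ 4 * ‖x‖ ^ 2 * ‖v‖ := by
  have h1 := norm_L0_sub hx (Linv0 x v)
  rw [L0_Linv0 (mem_Bl_of hx), norm_sub_rev] at h1
  have h2 : ‖Linv0 x v‖ ≤ ‖v‖ + ‖Linv0 x v - v‖ := by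
    have := norm_add_le v (Linv0 x v - v)
    rwa [add_sub_cancel] at this
  have h3 : ‖x‖ ^ 2 ≤ 1 / 4 := by nlinarith [norm_nonneg x]
  have h4 : 2 * ‖x‖ ^ 2 * ‖Linv0 x v‖ ≤ 2 * (1 / 4) * ‖Linv0 x v‖ := by gcongr
  have h5 : ‖Linv0 x v‖ ≤ 2 * ‖v‖ := by linarith
  refine ⟨h5, h1.trans ?_⟩
  calc 2 * ‖x‖ ^ 2 * ‖Linv0 x v‖ ≤ 2 * ‖x‖ ^ 2 * (2 * ‖v‖) := by gcongr
    _ = 4 * ‖x‖ ^ 2 * ‖v‖ := by ring

theorem perp_sub (u w : EE) : perp u - perp w = perp (u - w) := by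
  ext i
  fin_cases i
  · simp [perp]; ring
  · simp [perp]

theorem norm_e1_sub {x : EE} (hx : ‖x‖ < 1 / 2) (v w : EE) :
    ‖L0 x (perp (Linv0 x v)) - perp w‖ ≤ 8 * ‖x‖ ^ 2 * ‖v‖ + ‖v - w‖ := by
  obtain ⟨h1, h2⟩ := norm_Linv0_le hx v
  have h3 := norm_L0_sub hx (perp (Linv0 x v))
  rw [norm_perp] at h3
  have h4 : ‖perp (Linv0 x v) - perp w‖ ≤ ‖Linv0 x v - v‖ + ‖v - w‖ := by
    rw [perp_sub, norm_perp]
    exact norm_sub_le_norm_sub_add_norm_sub _ _ _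
  have h5 := norm_sub_le_norm_sub_add_norm_sub (L0 x (perp (Linv0 x v))) (perp (Linv0 x v)) (perp w)
  have h6 : 2 * ‖x‖ ^ 2 * ‖Linv0 x v‖ ≤ 2 * ‖x‖ ^ 2 * (2 * ‖v‖) := by gcongr
  linarith

end Loc

end Pool.Agent.MP_019006_gt
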