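import Pool.Agent.MP_019006_gt.Local2

set_option autoImplicit false

open MeasureTheory Filter Topology Set Matrix

namespace Pool.Agent.MP_019006_gt

namespace Loc

variable {F : EE → ℝ} {K ε r : ℝ} {f : EE → ℝ}

theorem continuousOn_d1 (hf : ∀ n : ℕ, ContDiffOn ℝ n f Bl) : ContinuousOn (d1 f) OO := by
  have h := continuousOn_Kmat hf
  have h1 := continuousOn_pi.1 (continuousOn_pi.1 h 0) 0
  exact h1.sub continuousOn_const

theorem continuousOn_dw (hf : ∀ n : ℕ, ContDiffOn ℝ n f Bl) : ContinuousOn (dw f) OO := by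
  have h := continuousOn_Kmat hf
  have h1 := continuousOn_pi.1 (continuousOn_pi.1 h 1) 1
  have h2 := continuousOn_pi.1 (continuousOn_pi.1 h 2) 2
  exact (h1.add h2).sub continuousOn_const

theorem continuousOn_int {d : EE × EE → ℝ} (hd : ContinuousOn d OO) {φ : ℝ → EE × EE → EE × EE}
    {M : ℝ → EE × EE → (EE × EE) →L[ℝ] (EE × EE)} (hφ : IsFlow OO (XX f) φ M) (a b : ℝ) :
    ContinuousOn (fun q => ∫ s in a..b, d (φ s q)) OO := by
  rw [continuousOn_iff_continuous_domRestrict]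
  have h1 : Continuous fun z : OO × ℝ => φ z.2 z.1.1 :=
    hφ.cont.comp_continuous (f := fun z : OO × ℝ => (z.2, z.1.1)) (by fun_prop)
      fun z => ⟨mem_univ _, z.1.2⟩
  have h2 : Continuous fun z : OO × ℝ => d (φ z.2 z.1.1) :=
    hd.comp_continuous h1 fun z => hφ.mem _ _ z.1.2
  exact intervalIntegral.continuous_parametric_intervalIntegral_of_continuous'
    (f := fun (q : OO) (s : ℝ) => d (φ s q.1)) h2 a b

theorem int_close {g σ : ℝ → ℝ} (hr : 0 < r) (hg : Continuous g) (hσ : Continuous σ) {c : ℝ}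
    (h : ∀ s ∈ Icc (-(6 * r)) 0, |g s - ε * σ (r⁻¹ * s)| ≤ c) :
    |(∫ s in (-(6 * r))..0, g s) - ε * r * ∫ s in (-6 : ℝ)..0, σ s| ≤ c * (6 * r) := by
  have e1 : ∫ s in (-(6 * r))..0, σ (r⁻¹ * s) = r * ∫ s in (-6 : ℝ)..0, σ s := by
    rw [intervalIntegral.integral_comp_mul_left σ (inv_ne_zero hr.ne'), inv_inv, smul_eq_mul,
      mul_zero, show r⁻¹ * -(6 * r) = -6 by field_simp]
  have hσ' : Continuous fun s => ε * σ (r⁻¹ * s) := by fun_prop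
  rw [mul_assoc, ← e1, ← intervalIntegral.integral_const_mul,
    ← intervalIntegral.integral_sub (hg.intervalIntegrable _ _) (hσ'.intervalIntegrable _ _)]
  have := intervalIntegral.norm_integral_le_of_norm_le_const (a := -(6 * r)) (b := 0) (C := c)
    (f := fun s => g s - ε * σ (r⁻¹ * s)) (fun s hs => by
      rw [uIoc_of_le (by linarith)] at hs
      exact h s ⟨hs.1.le, hs.2⟩)
  rwa [Real.norm_eq_abs, zero_sub, neg_neg, abs_of_pos (by linarith : 0 < 6 * r)] at this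

theorem prod_close {A I a i c t : ℝ} (ht : t ≤ 1) (h1 : |A - a| ≤ c * t) (h2 : |I - i| ≤ c * t)
    (h3 : |a| ≤ c) (h4 : |i| ≤ c) : |A * I - a * i| ≤ 3 * c ^ 2 * t := by
  have c0 : 0 ≤ c := (abs_nonneg _).trans h3
  have ct : 0 ≤ c * t := (abs_nonneg _).trans h1
  have hI : |I| ≤ 2 * c := by
    have := abs_add_le i (I - i)
    rw [add_sub_cancel] at this
    nlinarith
  have e : A * I - a * i = (A - a) * I + a * (I - i) := by ring
  have m1 : |(A - a) * I| ≤ c * t * (2 * c) := by rw [abs_mul]; gcongr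
  have m2 : |a * (I - i)| ≤ c * (c * t) := by rw [abs_mul]; gcongr
  rw [e]
  have := abs_add_le ((A - a) * I) (a * (I - i))
  linarith

theorem sig_bd (hF : Bd F K) {w : EE} (hw : ‖w‖ = 1) (y : EE) :
    |sig1 F y w| ≤ 4 * K ∧ |sigw F y w| ≤ 4 * K := by
  have hI : ∀ z : EE, ‖Complex.I • z‖ = ‖z‖ := fun z => by rw [norm_smul, Complex.norm_I, one_mul]
  have h1 := abs_le.1 (hF.b2 y w (by linarith))
  have h2 := abs_le.1 (hF.b2 y (Complex.I • w) (by rw [hI]; linarith))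
  have h3 := abs_le.1 (hF.b2 y (perp w) (by rw [norm_perp]; linarith))
  have h4 := abs_le.1 (hF.b2 y (Complex.I • perp w) (by rw [hI, norm_perp]; linarith))
  have k1 := hF.one
  unfold sig1 sigw
  rw [abs_le, abs_le]
  refine ⟨⟨?_, ?_⟩, ?_, ?_⟩ <;> linarith

theorem sig_cont (hF : Bd F K) (w : EE) :
    (Continuous fun y => sig1 F y w) ∧ Continuous fun y => sigw F y w :=
  ⟨(hF.c2 _).add (hF.c2 _), ((hF.c2 _).add (hF.c2 _)).add (continuous_const.mul (hF.c2 _))⟩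

theorem sig_zero (hF : Bd F K) (w : EE) {y : EE} (hy : 1 < ‖y‖) :
    sig1 F y w = 0 ∧ sigw F y w = 0 := by
  simp only [sig1, sigw, hF.z2 y _ hy]
  norm_num

theorem int_bd {σ : ℝ → ℝ} {c : ℝ} (h : ∀ s, |σ s| ≤ c) : |∫ s in (-6 : ℝ)..0, σ s| ≤ 6 * c := by
  have := intervalIntegral.norm_integral_le_of_norm_le_const (a := -6) (b := 0) (C := c) (f := σ)
    (fun s _ => h s)
  rw [Real.norm_eq_abs, show |(0 : ℝ) - -6| = 6 by norm_num] at this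
  linarith

theorem dens_bd (hF : Bd F K) (hε : 0 < ε) (hε1 : ε ≤ 1) (hr1 : r ≤ 1 / 100)
    (hc : Conf f) (hf : ∀ x, ‖x‖ < 1 / 2 → f x = f0 F ε r x) {x : EE} (hx : ‖x‖ ≤ 2 * r) :
    0 ≤ Real.exp (4 * f x) / Dd x ^ 3 ∧ Real.exp (4 * f x) / Dd x ^ 3 ≤ 3 ∧
      |Real.exp (4 * f x) / Dd x ^ 3 - 1| ≤ 50 * K * r ^ 2 := by
  have hx2 : ‖x‖ < 1 / 2 := by linarith
  have k1 := hF.one
  have hD := Dd_ge hx2
  have hD1 := Dd_le_one x
  have hD3 : 27 / 64 ≤ Dd x ^ 3 := by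
    calc (27 / 64 : ℝ) = (3 / 4) ^ 3 := by norm_num
      _ ≤ Dd x ^ 3 := by gcongr
  have E := exp_close hF hε hε1 hc hf hx2 4 (by norm_num)
  rw [show |(4 : ℝ)| = 4 by norm_num] at E
  have h1 := hc.fb x (mem_Bl_of hx2)
  have h2 : |4 * f x| ≤ 4 / 100 := by
    rw [abs_mul, show |(4 : ℝ)| = 4 by norm_num]; linarith
  have h3 := (abs_le.1 (Real.abs_exp_sub_one_le (x := 4 * f x) (by linarith))).2
  have x2 : ‖x‖ ^ 2 ≤ 4 * r ^ 2 := by nlinarith [norm_nonneg x]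
  have h4 : 1 - Dd x ^ 3 ≤ 12 * r ^ 2 := by
    have e : 1 - Dd x ^ 3 = ‖x‖ ^ 2 * (1 + Dd x + Dd x ^ 2) := by unfold Dd; ring
    have : Dd x ^ 2 ≤ 1 := by nlinarith
    rw [e]
    calc ‖x‖ ^ 2 * (1 + Dd x + Dd x ^ 2) ≤ 4 * r ^ 2 * 3 := by gcongr; linarith
      _ = 12 * r ^ 2 := by ring
  have h5 : Dd x ^ 3 ≤ 1 := pow_le_one₀ (by linarith) hD1
  refine ⟨by positivity, ?_, ?_⟩
  · rw [div_le_iff₀ (by linarith)]
    linarith
  · rw [div_sub_one (by linarith), abs_div, abs_of_pos (by linarith : 0 < Dd x ^ 3),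
      div_le_iff₀ (by linarith)]
    have h6 : r ^ 2 ≤ K * r ^ 2 := by nlinarith [sq_nonneg r]
    have h7 : 50 * K * r ^ 2 * (27 / 64) ≤ 50 * K * r ^ 2 * Dd x ^ 3 := by gcongr
    rw [abs_le] at E ⊢
    constructor <;> nlinarith [sq_nonneg r]

/-- The second order term of the flat model. -/
noncomputable def SS (F : EE → ℝ) (w y : EE) : ℝ :=
  1 / 8 * sigw F y w * (∫ s in (-6 : ℝ)..0, sigw F (y + s • w) w) -
    1 / 16 * sig1 F y w * ∫ s in (-6 : ℝ)..0, sig1 F (y + s • w) w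

/-- The flat model. -/
noncomputable def Main (F : EE → ℝ) (ε r : ℝ) (w y : EE) : ℝ :=
  ε ^ 2 * r * SS F w y + ε / 4 * (sig1 F y w - 2 * sigw F y w)

theorem final_alg {A B IA IB a b Ia Ib m β η : ℝ} (k1 : 1 ≤ K) (hε : 0 < ε) (hε1 : ε ≤ 1)
    (hr : 0 < r) (hr1 : r ≤ 1 / 100) (hη : 0 ≤ η) (e : ℝ)
    (hA : |A - ε * a| ≤ 1000000 * K ^ 2 * (20 * K * r ^ 2 + r ^ 2))
    (hB : |B - ε * b| ≤ 1000000 * K ^ 2 * (20 * K * r ^ 2 + r ^ 2))
    (I1 : |IA - ε * r * Ia| ≤ 1000000 * K ^ 2 * (42 * K * r + r ^ 2) * (6 * r))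
    (Iw : |IB - ε * r * Ib| ≤ 1000000 * K ^ 2 * (42 * K * r + r ^ 2) * (6 * r))
    (J1 : |Ia| ≤ 6 * (4 * K)) (Jw : |Ib| ≤ 6 * (4 * K)) (s1 : |a| ≤ 4 * K) (sw : |b| ≤ 4 * K)
    (hb1 : β ≤ 1) (m0 : 0 ≤ m) (m3 : m ≤ 3) (m1 : |m - 1| ≤ 50 * K * r ^ 2) :
    ε ^ 2 * r * (1 / 8 * b * Ib - 1 / 16 * a * Ia) + ε / 4 * (a - 2 * b) -
        (7 * (1000000000 * K ^ 3) ^ 2 * r ^ 2 + 18 * η * e ^ 2 * r) ≤
      (1 / 8 * B * IB - 1 / 16 * A * IA + 1 / 4 * (A - 2 * B) - η * e ^ 2 * (6 * r) * β) * m := by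
  obtain ⟨c, hc⟩ : ∃ c, c = 1000000000 * K ^ 3 := ⟨_, rfl⟩
  rw [← hc]
  have k2 : K ≤ K ^ 2 := by nlinarith
  have k3 : K ^ 2 ≤ K ^ 3 := by nlinarith
  have r2 : r ^ 2 ≤ 1 := by nlinarith
  have r0 : 0 ≤ r ^ 2 := sq_nonneg r
  have c1 : 1 ≤ c := by linarith
  have b1 : 1000000 * K ^ 2 * (20 * K * r ^ 2 + r ^ 2) ≤ c * r ^ 2 := by
    have : 1000000 * K ^ 2 * (20 * K * r ^ 2 + r ^ 2) =
      (20000000 * K ^ 3 + 1000000 * K ^ 2) * r ^ 2 := by ring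
    rw [this]; gcongr; linarith
  have b2 : 1000000 * K ^ 2 * (42 * K * r + r ^ 2) * (6 * r) ≤ c * r ^ 2 := by
    have : 1000000 * K ^ 2 * (42 * K * r + r ^ 2) * (6 * r) =
      (252000000 * K ^ 3 + 6000000 * (K ^ 2 * r)) * r ^ 2 := by ring
    have h2 : K ^ 2 * r ≤ K ^ 2 * 1 := by gcongr; linarith
    rw [this]; gcongr; linarith
  have sc : ∀ {z t : ℝ}, |z| ≤ 24 * K → 0 ≤ t → t ≤ 1 → |t * z| ≤ 24 * K := fun {z t} h h0 h1 => by
    rw [abs_mul, abs_of_nonneg h0]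
    calc t * |z| ≤ 1 * (24 * K) := by gcongr
      _ = 24 * K := one_mul _
  have er0 : 0 ≤ ε * r := by positivity
  have er1 : ε * r ≤ 1 := by nlinarith
  have ea := sc (z := a) (by linarith) hε.le hε1
  have eb := sc (z := b) (by linarith) hε.le hε1
  have eIa := sc (z := Ia) (by linarith) er0 er1
  have eIb := sc (z := Ib) (by linarith) er0 er1
  have P1 := prod_close r2 (hA.trans b1) (I1.trans b2) (by linarith) (by linarith)
  have P2 := prod_close r2 (hB.trans b1) (Iw.trans b2) (by linarith) (by linarith)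
  have Q1 : |ε * a * (ε * r * Ia)| ≤ 24 * K * (24 * K) := by rw [abs_mul]; gcongr
  have Q2 : |ε * b * (ε * r * Ib)| ≤ 24 * K * (24 * K) := by rw [abs_mul]; gcongr
  obtain ⟨P, hP⟩ : ∃ P, P = 1 / 8 * B * IB - 1 / 16 * A * IA + 1 / 4 * (A - 2 * B) := ⟨_, rfl⟩
  obtain ⟨N, hN⟩ : ∃ N, N = ε ^ 2 * r * (1 / 8 * b * Ib - 1 / 16 * a * Ia) + ε / 4 * (a - 2 * b) :=
    ⟨_, rfl⟩
  have cc : c * r ^ 2 ≤ c ^ 2 * r ^ 2 := by gcongr; nlinarith
  have hA' := abs_le.1 (hA.trans b1)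
  have hB' := abs_le.1 (hB.trans b1)
  rw [abs_le] at P1 P2 Q1 Q2 ea eb
  have D1 : -(2 * c ^ 2 * r ^ 2) ≤ P - N := by
    have : 0 ≤ c ^ 2 * r ^ 2 := by positivity
    rw [hP, hN]; linarith
  have D2 : |N| ≤ c := by
    rw [hN, abs_le]; constructor <;> linarith
  have D3 : |N * (m - 1)| ≤ c * (c * r ^ 2) := by
    rw [abs_mul]
    gcongr
    refine m1.trans ?_
    gcongr
    linarith
  have D4 : -(2 * c ^ 2 * r ^ 2) * m ≤ (P - N) * m := by gcongr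
  have D5 : 2 * c ^ 2 * r ^ 2 * m ≤ 2 * c ^ 2 * r ^ 2 * 3 := by gcongr
  have D6 : η * e ^ 2 * (6 * r) * β * m ≤ η * e ^ 2 * (6 * r) * 1 * 3 := by gcongr
  rw [← hP, ← hN]
  rw [abs_le] at D3
  linarith

theorem point_est (hF : Bd F K) (hε : 0 < ε) (hε1 : ε ≤ 1) (hr : 0 < r) (hr1 : r ≤ 1 / 100)
    (hK : 42 * K * r ≤ 1)
    (hc : Conf f) (hf : ∀ x, ‖x‖ < 1 / 2 → f x = f0 F ε r x) {φ : ℝ → EE × EE → EE × EE}
    {M : ℝ → EE × EE → (EE × EE) →L[ℝ] (EE × EE)} (hφ : IsFlow OO (XX f) φ M) {x w : EE}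
    (hx : ‖x‖ ≤ 2 * r) (hw : ‖w‖ = 1) {η : ℝ} (hη : 0 ≤ η) (e : ℝ) :
    Main F ε r w (r⁻¹ • x) - (7 * (1000000000 * K ^ 3) ^ 2 * r ^ 2 + 18 * η * e ^ 2 * r) ≤
      PsiT f (b0 r) φ η e (6 * r) (x, Real.exp (-f x) • L0 x w) *
        (Real.exp (4 * f x) / Dd x ^ 3) := by
  have k1 := hF.one
  have hB : x ∈ Bl := mem_Bl_of (by linarith)
  have hi := init_close hF hε hε1 hr1 hc hf hx hw
  have he := en_init (f := f) hB hw
  have hfl := fun s hs => flow_close hF hε hε1 hr hr1 hc hf hφ hx hw (s := s) hs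
  obtain ⟨m0, m3, m1⟩ := dens_bd hF hε hε1 hr1 hc hf hx
  have Kr : 0 < K * r := by positivity
  obtain ⟨hA, hBB⟩ := d_close hF hε hε1 hr hr1 hc hf (x' := x) (a := 20 * K * r ^ 2)
    (by linarith) he hw (by nlinarith) (by rw [sub_self, norm_zero]; positivity) hi
  set q : EE × EE := (x, Real.exp (-f x) • L0 x w) with hq
  have hO : q ∈ OO := mem_OO.2 hB
  have hcφ : Continuous fun s => φ s q :=
    continuous_iff_continuousAt.2 fun s => (hφ.deriv s q hO).continuousAt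
  have hcl : ∀ s ∈ Icc (-(6 * r)) 0,
      |d1 f (φ s q) - ε * sig1 F (r⁻¹ • x + (r⁻¹ * s) • w) w| ≤
        1000000 * K ^ 2 * (42 * K * r + r ^ 2) ∧
      |dw f (φ s q) - ε * sigw F (r⁻¹ • x + (r⁻¹ * s) • w) w| ≤
        1000000 * K ^ 2 * (42 * K * r + r ^ 2) := fun s hs => by
    obtain ⟨a1, a2, a3, a4⟩ := hfl s hs
    have := d_close hF hε hε1 hr hr1 hc hf (x := (φ s q).1) (v := (φ s q).2) a2 a1 hw hK a3
      (by linarith)
    rwa [smul_add, smul_smul] at this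
  obtain ⟨c1, cw⟩ := sig_cont hF w
  have hl : Continuous fun s : ℝ => r⁻¹ • x + s • w := by fun_prop
  have I1 := int_close (ε := ε) hr
    ((continuousOn_d1 hc.smooth).comp_continuous hcφ fun s => hφ.mem s q hO)
    (c1.comp hl) fun s hs => (hcl s hs).1
  have Iw := int_close (ε := ε) hr
    ((continuousOn_dw hc.smooth).comp_continuous hcφ fun s => hφ.mem s q hO)
    (cw.comp hl) fun s hs => (hcl s hs).2
  simp only [Function.comp_def] at I1 Iw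
  have J1 := int_bd (σ := fun s : ℝ => sig1 F (r⁻¹ • x + s • w) w) fun s => (sig_bd hF hw _).1
  have Jw := int_bd (σ := fun s : ℝ => sigw F (r⁻¹ • x + s • w) w) fun s => (sig_bd hF hw _).2
  obtain ⟨s1, sw⟩ := sig_bd hF hw (r⁻¹ • x)
  have hb1 : b0 r x ≤ 1 := max_le zero_le_one (min_le_left _ _)
  unfold PsiT Main SS
  generalize (∫ s in (-(6 * r))..0, d1 f (φ s q)) = IA at *
  generalize (∫ s in (-(6 * r))..0, dw f (φ s q)) = IB at *
  generalize (∫ s in (-6 : ℝ)..0, sig1 F (r⁻¹ • x + s • w) w) = Ia at *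
  generalize (∫ s in (-6 : ℝ)..0, sigw F (r⁻¹ • x + s • w) w) = Ib at *
  generalize d1 f q = A at *
  generalize dw f q = B at *
  generalize sig1 F (r⁻¹ • x) w = a at *
  generalize sigw F (r⁻¹ • x) w = b at *
  generalize Real.exp (4 * f x) / Dd x ^ 3 = m at *
  have hq1 : b0 r q.1 = b0 r x := rfl
  rw [hq1]
  generalize b0 r x = β at *
  exact final_alg k1 hε hε1 hr hr1 hη e hA hBB I1 Iw J1 Jw s1 sw hb1 m0 m3 m1

end Loc

end Pool.Agent.MP_019006_gt
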