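import Pool.Agent.MP_019006_gt.JobDefs

set_option autoImplicit false

open MeasureTheory Filter Topology Set Matrix

namespace Pool.Agent.MP_019006_gt

namespace OdeC

lemma mono {f : ℝ → ℝ} {a b c : ℝ} (hab : a ≤ b)
    (h : ∀ t ∈ Icc a b, ∃ d, HasDerivAt f d t ∧ c ≤ d) : c * (b - a) ≤ f b - f a := by
  have hd : ∀ t ∈ Icc a b, DifferentiableAt ℝ f t := fun t ht =>
    (h t ht).choose_spec.1.differentiableAt
  apply (convex_Icc a b).mul_sub_le_image_sub_of_le_deriv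
    (fun t ht => (hd t ht).continuousAt.continuousWithinAt)
    (fun t ht => (hd t (interior_subset ht)).differentiableWithinAt) _ a (left_mem_Icc.2 hab) b
    (right_mem_Icc.2 hab) hab
  intro t ht
  obtain ⟨d, h1, h2⟩ := h t (interior_subset ht)
  rwa [h1.deriv]

lemma anti {f : ℝ → ℝ} {a b c : ℝ} (hab : a ≤ b)
    (h : ∀ t ∈ Icc a b, ∃ d, HasDerivAt f d t ∧ d ≤ c) : f b - f a ≤ c * (b - a) := by
  have := mono (f := fun t => -f t) (c := -c) hab (fun t ht => by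
    obtain ⟨d, h1, h2⟩ := h t ht
    exact ⟨-d, h1.neg, by linarith⟩)
  linarith

lemma prim {c : ℝ → ℝ} (hc : Continuous c) (a t : ℝ) :
    HasDerivAt (fun s => ∫ x in a..s, c x) (c t) t :=
  (hc.integral_hasStrictDerivAt a t).hasDerivAt

lemma gron {f c : ℝ → ℝ} (hc : Continuous c) (h0 : f 0 ≤ 0) {T : ℝ} (hT : 0 ≤ T)
    (h : ∀ t ∈ Icc 0 T, ∃ d, HasDerivAt f d t ∧ d ≤ c t * f t) : f T ≤ 0 := by
  have := anti (f := fun t => f t * Real.exp (-∫ x in (0 : ℝ)..t, c x)) (c := 0) hT (fun t ht => by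
    obtain ⟨d, h1, h2⟩ := h t ht
    refine ⟨_, h1.mul (prim hc 0 t).neg.exp, ?_⟩
    have := Real.exp_pos (-∫ x in (0 : ℝ)..t, c x)
    simp only [Pi.neg_apply]
    nlinarith)
  simp only [intervalIntegral.integral_same, neg_zero, Real.exp_zero, mul_one, zero_mul] at this
  have h2 := Real.exp_pos (-∫ x in (0 : ℝ)..T, c x)
  by_contra hpos
  push Not at hpos
  nlinarith [mul_pos hpos h2]

/-- exponentially weighted running integral -/
noncomputable def mm (b : ℝ → ℝ) (t : ℝ) : ℝ :=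
  Real.exp (-t) * ∫ s in (0 : ℝ)..t, Real.exp s * b s

lemma mm_zero (b : ℝ → ℝ) : mm b 0 = 0 := by simp [mm]

lemma mm_deriv {b : ℝ → ℝ} (hb : Continuous b) (t : ℝ) :
    HasDerivAt (mm b) (b t - mm b t) t := by
  have h1 := prim (c := fun s => Real.exp s * b s) (by fun_prop) 0 t
  have h2 := (hasDerivAt_neg t).exp.mul h1
  refine HasDerivAt.congr_deriv h2 ?_
  have : Real.exp (-t) * Real.exp t = 1 := by rw [← Real.exp_add]; simp
  unfold mm
  linear_combination (b t) * this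

lemma mm_cont {b : ℝ → ℝ} (hb : Continuous b) : Continuous (mm b) :=
  continuous_iff_continuousAt.2 fun t => (mm_deriv hb t).continuousAt

lemma mm_nonneg {b : ℝ → ℝ} (h0 : ∀ t, 0 ≤ b t) {t : ℝ} (ht : 0 ≤ t) : 0 ≤ mm b t := by
  unfold mm
  apply mul_nonneg (Real.exp_pos _).le
  apply intervalIntegral.integral_nonneg ht
  intro s _
  exact mul_nonneg (Real.exp_pos _).le (h0 s)

lemma mm_step {b : ℝ → ℝ} (hb : Continuous b) (h0 : ∀ t, 0 ≤ b t) {s t : ℝ} (hst : s ≤ t) :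
    mm b t ≤ Real.exp (s - t) * mm b s + ∫ x in s..t, b x := by
  have := anti (f := fun u => Real.exp (u - t) * mm b u - ∫ x in s..u, b x) (c := 0) hst
    (fun u hu => by
      refine ⟨_, ((((hasDerivAt_id u).sub_const t).exp).mul (mm_deriv hb u)).sub (prim hb s u), ?_⟩
      have h1 : Real.exp (u - t) ≤ 1 := Real.exp_le_one_iff.2 (by linarith [hu.2])
      have := h0 u
      simp only [id]
      nlinarith)
  simp only [sub_self, Real.exp_zero, one_mul, intervalIntegral.integral_same, sub_zero,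
    zero_mul] at this
  linarith

lemma window {e τ R : ℝ} {b : ℝ → ℝ} {K Om : ℝ → M3} (hS : SmallPert e τ R b K Om) (hτ0 : 0 < τ)
    {s t : ℝ} (hst : s ≤ t) (hR : t - s < R) : ∫ x in s..t, b x ≤ τ := by
  rw [intervalIntegral.integral_of_le hst]
  obtain ⟨a, ha⟩ : ∃ a, ∀ x ∈ Ioc s t, b x ≠ 0 → x ∈ Icc a (a + τ) := by
    by_cases hne : {x | x ∈ Ioc s t ∧ b x ≠ 0}.Nonempty
    · have hbd : BddBelow {x | x ∈ Ioc s t ∧ b x ≠ 0} := ⟨s, fun x hx => hx.1.1.le⟩
      refine ⟨sInf {x | x ∈ Ioc s t ∧ b x ≠ 0}, fun x hx hbx => ⟨csInf_le hbd ⟨hx, hbx⟩, ?_⟩⟩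
      have : x - τ ≤ sInf {x | x ∈ Ioc s t ∧ b x ≠ 0} := by
        apply le_csInf hne
        rintro y ⟨hy, hby⟩
        rcases lt_or_ge y x with h | h
        · rcases hS.gap y x h hby hbx with h1 | h1
          · linarith
          · linarith [hx.2, hy.1]
        · linarith
      linarith
    · exact ⟨0, fun x hx hbx => absurd ⟨x, hx, hbx⟩ hne⟩
  rw [setIntegral_eq_of_subset_of_forall_sdiff_eq_zero (t := Ioc s t)
    (s := Ioc s t ∩ Icc a (a + τ)) measurableSet_Ioc inter_subset_left]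
  · have hfin : volume (Ioc s t ∩ Icc a (a + τ)) < ⊤ :=
      lt_of_le_of_lt (measure_mono inter_subset_right) measure_Icc_lt_top
    have h1 := norm_setIntegral_le_of_norm_le_const (f := b) (C := 1) hfin
      (fun x _ => by rw [Real.norm_of_nonneg (hS.b0 x)]; exact hS.b1 x)
    have h2 : volume.real (Ioc s t ∩ Icc a (a + τ)) ≤ volume.real (Icc a (a + τ)) :=
      measureReal_mono inter_subset_right measure_Icc_lt_top.ne
    rw [Real.volume_real_Icc_of_le (by linarith)] at h2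
    have h3 := le_abs_self (∫ x in Ioc s t ∩ Icc a (a + τ), b x)
    rw [Real.norm_eq_abs] at h1
    linarith
  · intro x hx
    by_contra hbx
    exact hx.2 ⟨hx.1, ha x hx.1 hbx⟩

lemma mm_le {e τ R : ℝ} {b : ℝ → ℝ} {K Om : ℝ → M3} (hS : SmallPert e τ R b K Om) (hτ0 : 0 < τ)
    (hR : 2 ≤ R) {t : ℝ} (ht : 0 ≤ t) : mm b t ≤ 2 * τ := by
  have key : ∀ n : ℕ, ∀ t : ℝ, 0 ≤ t → t ≤ n → mm b t ≤ 2 * τ := by
    intro n
    induction n with
    | zero =>
      intro t h0 h1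
      have : t = 0 := le_antisymm (by simpa using h1) h0
      rw [this, mm_zero]; positivity
    | succ n ih =>
      intro t h0 h1
      rcases le_total t 1 with h2 | h2
      · have h3 := mm_step hS.bc hS.b0 h0
        have h4 := window hS hτ0 h0 (by linarith)
        rw [mm_zero] at h3
        linarith
      · have h3 := mm_step hS.bc hS.b0 (s := t - 1) (t := t) (by linarith)
        have h4 := window hS hτ0 (s := t - 1) (t := t) (by linarith) (by linarith)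
        have h5 := ih (t - 1) (by linarith) (by push_cast at h1; linarith)
        have h6 : Real.exp (t - 1 - t) ≤ 1 / 2 := by
          rw [show t - 1 - t = -1 by ring, Real.exp_neg, one_div]
          apply inv_anti₀ (by norm_num)
          linarith [Real.add_one_le_exp (1 : ℝ)]
        have h7 := mm_nonneg hS.b0 (t := t - 1) (by linarith)
        nlinarith
  obtain ⟨n, hn⟩ := exists_nat_ge t
  exact key n t ht hn

lemma mm_before {e τ R : ℝ} {b : ℝ → ℝ} {K Om : ℝ → M3} (hS : SmallPert e τ R b K Om)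
    (hτ0 : 0 < τ) (hτ : τ ≤ 1) (hR : 2 ≤ R) {t : ℝ} (ht : τ ≤ t) (hb : b t ≠ 0) :
    mm b (t - τ) ≤ 2 * τ * Real.exp (τ - R) := by
  have hz : ∀ s, t - R ≤ s → s ≤ t - τ → ∫ x in s..(t - τ), b x = 0 := by
    intro s h1 h2
    rw [intervalIntegral.integral_of_le h2, integral_Ioc_eq_integral_Ioo]
    apply setIntegral_eq_zero_of_forall_eq_zero
    intro x hx
    by_contra hbx
    rcases hS.gap x t (by linarith [hx.2]) hbx hb with h | h
    · linarith [hx.2]
    · linarith [hx.1]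
  rcases le_total t R with h | h
  · have h3 := mm_step hS.bc hS.b0 (s := 0) (t := t - τ) (by linarith)
    rw [hz 0 (by linarith) (by linarith), mm_zero] at h3
    have : 0 ≤ 2 * τ * Real.exp (τ - R) := by positivity
    linarith
  · have h3 := mm_step hS.bc hS.b0 (s := t - R) (t := t - τ) (by linarith)
    rw [hz _ le_rfl (by linarith), show t - R - (t - τ) = τ - R by ring] at h3
    have h4 := mm_le hS hτ0 hR (t := t - R) (by linarith)
    have := Real.exp_pos (τ - R)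
    nlinarith

/-- entrywise derivative of a matrix function -/
def MD (A : ℝ → M3) (A' : M3) (t : ℝ) : Prop := ∀ i j, HasDerivAt (fun s => A s i j) (A' i j) t

lemma MD.mul {A B : ℝ → M3} {A' B' : M3} {t : ℝ} (hA : MD A A' t) (hB : MD B B' t) :
    MD (fun s => A s * B s) (A' * B t + A t * B') t := by
  intro i j
  simp only [Matrix.mul_apply, Matrix.add_apply, ← Finset.sum_add_distrib]
  exact HasDerivAt.fun_sum fun k _ => (hA i k).mul (hB k j)

lemma MD.sub {A B : ℝ → M3} {A' B' : M3} {t : ℝ} (hA : MD A A' t) (hB : MD B B' t) :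
    MD (fun s => A s - B s) (A' - B') t := fun i j => (hA i j).sub (hB i j)

lemma MD.const (A : M3) (t : ℝ) : MD (fun _ => A) 0 t := fun i j => hasDerivAt_const t (A i j)

lemma MD.transpose {A : ℝ → M3} {A' : M3} {t : ℝ} (hA : MD A A' t) :
    MD (fun s => (A s)ᵀ) A'ᵀ t := fun i j => hA j i

lemma MD.vec {A : ℝ → M3} {A' : M3} {t : ℝ} (hA : MD A A' t) (u : Fin 3 → ℝ) (i : Fin 3) :
    HasDerivAt (fun s => (A s *ᵥ u) i) ((A' *ᵥ u) i) t := by
  simp only [Matrix.mulVec, dotProduct]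
  exact HasDerivAt.fun_sum fun k _ => (hA i k).mul_const _

lemma MD.nsq {A : ℝ → M3} {A' : M3} {t : ℝ} (hA : MD A A' t) (u : Fin 3 → ℝ) :
    HasDerivAt (fun s => nsq (A s *ᵥ u)) (2 * ((A t *ᵥ u) ⬝ᵥ (A' *ᵥ u))) t := by
  have h := (((hA.vec u 0).fun_pow 2).fun_add ((hA.vec u 1).fun_pow 2)).fun_add
    ((hA.vec u 2).fun_pow 2)
  refine HasDerivAt.congr_deriv h ?_
  simp only [dotProduct, Fin.sum_univ_three]
  push_cast
  ring

lemma om_facts {Om : M3} (h : Omᵀ = -Om) : Om 0 0 = 0 ∧ Om 1 1 = 0 ∧ Om 2 2 = 0 ∧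
    Om 1 0 = -Om 0 1 ∧ Om 2 0 = -Om 0 2 ∧ Om 2 1 = -Om 1 2 := by
  have key : ∀ i j, Om j i = -Om i j := fun i j => congrFun (congrFun h i) j
  refine ⟨?_, ?_, ?_, key 0 1, key 0 2, key 1 2⟩
  · linarith [key 0 0]
  · linarith [key 1 1]
  · linarith [key 2 2]

lemma term_le {k ν p x z : ℝ} (hν : 0 < ν) (hp : |p| ≤ k / 3) :
    2 * x * p * z ≤ k / 3 * (x ^ 2 / ν + ν * z ^ 2) := by
  have h1 : 2 * |x| * |z| ≤ x ^ 2 / ν + ν * z ^ 2 := by
    have : x ^ 2 / ν + ν * z ^ 2 - 2 * |x| * |z| = (|x| - ν * |z|) ^ 2 / ν := by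
      rw [← sq_abs x, ← sq_abs z]
      field_simp
      ring
    have h2 : 0 ≤ (|x| - ν * |z|) ^ 2 / ν := by positivity
    linarith
  have h3 : 2 * x * p * z ≤ |p| * (2 * |x| * |z|) := by
    have := le_abs_self (2 * x * p * z)
    rw [abs_mul, abs_mul, abs_mul, abs_two] at this
    linarith
  calc 2 * x * p * z ≤ |p| * (2 * |x| * |z|) := h3
    _ ≤ k / 3 * (2 * |x| * |z|) := mul_le_mul_of_nonneg_right hp (by positivity)
    _ ≤ _ := mul_le_mul_of_nonneg_left h1 ((abs_nonneg p).trans hp)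

lemma form_le {k ν : ℝ} {P : M3} (hν : 0 < ν) (hP : ∀ i j, |P i j| ≤ k / 3) (d y : Fin 3 → ℝ) :
    2 * (d ⬝ᵥ (P *ᵥ y)) ≤ k / ν * nsq d + k * ν * nsq y := by
  have h := fun i j => term_le (x := d i) (z := y j) hν (hP i j)
  have e : k / ν * nsq d + k * ν * nsq y = ∑ i, ∑ j, k / 3 * (d i ^ 2 / ν + ν * y j ^ 2) := by
    simp only [Fin.sum_univ_three, nsq]
    ring
  have e2 : 2 * (d ⬝ᵥ (P *ᵥ y)) = ∑ i, ∑ j, 2 * d i * P i j * y j := by
    simp only [Fin.sum_univ_three, dotProduct, Matrix.mulVec]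
    ring
  rw [e, e2]
  exact Finset.sum_le_sum fun i _ => Finset.sum_le_sum fun j _ => h i j

lemma nsq_nonneg (u : Fin 3 → ℝ) : 0 ≤ nsq u := by unfold nsq; positivity

lemma dY_dot {Om Y H : M3} (hO : Omᵀ = -Om) (u : Fin 3 → ℝ) :
    (Y *ᵥ u) ⬝ᵥ ((H - Om * Y) *ᵥ u) = nsq (Y *ᵥ u) + (Y *ᵥ u) 0 ^ 2 +
      (Y *ᵥ u) ⬝ᵥ ((H - U0 * Y) *ᵥ u) := by
  obtain ⟨o1, o2, o3, o4, o5, o6⟩ := om_facts hO
  rw [Matrix.sub_mulVec, Matrix.sub_mulVec, ← Matrix.mulVec_mulVec, ← Matrix.mulVec_mulVec]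
  generalize Y *ᵥ u = y
  generalize H *ᵥ u = h
  simp [dotProduct, Matrix.mulVec, Fin.sum_univ_three, nsq, U0, o1, o2, o3, o4, o5, o6]
  ring

lemma dD_dot {K Om Y H : M3} (hO : Omᵀ = -Om) (u : Fin 3 → ℝ) :
    ((H - U0 * Y) *ᵥ u) ⬝ᵥ ((K * Y - Om * H - (0 * Y + U0 * (H - Om * Y))) *ᵥ u) =
      ((H - U0 * Y) *ᵥ u) ⬝ᵥ ((K - K0 + (U0 * Om - Om * U0)) *ᵥ (Y *ᵥ u)) -
        nsq ((H - U0 * Y) *ᵥ u) - ((H - U0 * Y) *ᵥ u) 0 ^ 2 := by
  obtain ⟨o1, o2, o3, o4, o5, o6⟩ := om_facts hO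
  simp only [Matrix.zero_mul, zero_add, Matrix.sub_mulVec, Matrix.add_mulVec,
    ← Matrix.mulVec_mulVec]
  generalize Y *ᵥ u = y
  generalize H *ᵥ u = h
  simp [dotProduct, Matrix.mulVec, Fin.sum_univ_three, nsq, U0, K0, o1, o2, o3, o4, o5, o6]
  ring

lemma P_bound {e τ R : ℝ} {b : ℝ → ℝ} {K Om Y H : ℝ → M3} (hJ : JacSys K Om Y H)
    (hS : SmallPert e τ R b K Om) (he0 : 0 ≤ e) (hτ : τ ≤ 1 / 100) (t : ℝ) (i j : Fin 3) :
    |(K t - K0 + (U0 * Om t - Om t * U0)) i j| ≤ 4 * e * b t / 3 := by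
  obtain ⟨o1, o2, o3, o4, o5, o6⟩ := om_facts (hJ.Oa t)
  have hb := hS.b0 t
  have h1 := hS.Kb t i j
  have h2 : |(U0 * Om t - Om t * U0) i j| ≤ e * τ * b t := by
    have a0 := hS.Ob t 0
    have a1 := hS.Ob t 1
    have a2 := hS.Ob t 2
    have a3 : 0 ≤ e * τ * b t := (abs_nonneg _).trans a0
    rw [abs_le] at a1 a2 ⊢
    fin_cases i <;> fin_cases j <;>
      simp [U0, Matrix.mul_apply, Fin.sum_univ_three, o1, o2, o3, o4, o5, o6] <;>
      first
        | exact a3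
        | constructor <;> linarith [a1.1, a1.2, a2.1, a2.2]
  rw [Matrix.add_apply]
  have h3 := abs_add_le ((K t - K0) i j) ((U0 * Om t - Om t * U0) i j)
  have h4 : e * τ * b t ≤ e * b t / 100 := by nlinarith [mul_nonneg he0 hb]
  nlinarith [mul_nonneg he0 hb]

lemma mu_le {e τ R : ℝ} {b : ℝ → ℝ} {K Om : ℝ → M3}
    (hS : SmallPert e τ R b K Om) (he0 : 0 ≤ e) (hτ0 : 0 < τ) (hR : 2 ≤ R) {t : ℝ} (ht : 0 ≤ t) :
    4 * e * mm b t ≤ 8 * e * τ := by
  have := mm_le hS hτ0 hR ht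
  nlinarith

/-- the sharp cone bound -/
theorem cone_sharp {e τ R : ℝ} {b : ℝ → ℝ} {K Om Y H : ℝ → M3} (hJ : JacSys K Om Y H)
    (hS : SmallPert e τ R b K Om) (he0 : 0 ≤ e) (he : e ≤ 1) (hτ0 : 0 < τ) (hτ : τ ≤ 1 / 100)
    (hR : 2 ≤ R) {T : ℝ} (hT : 0 ≤ T) (u : Fin 3 → ℝ) :
    nsq ((H T - U0 * Y T) *ᵥ u) ≤ (4 * e * mm b T) ^ 2 * nsq (Y T *ᵥ u) := by
  have key : ∀ θ : ℝ, 0 < θ → θ < 1 / 2 →
      nsq ((H T - U0 * Y T) *ᵥ u) - (4 * e * mm b T + θ) ^ 2 * nsq (Y T *ᵥ u) ≤ 0 := by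
    intro θ h0 h1
    have hmc := mm_cont hS.bc
    have hbc := hS.bc
    apply gron (f := fun t => nsq ((H t - U0 * Y t) *ᵥ u) -
        (4 * e * mm b t + θ) ^ 2 * nsq (Y t *ᵥ u))
      (c := fun t => 4 * e * b t / (4 * e * |mm b t| + θ) + (4 * e * mm b t + θ) - 2) _ _ hT
    · intro t ht
      have hY : MD Y (H t - Om t * Y t) t := hJ.dY t
      have hH : MD H (K t * Y t - Om t * H t) t := hJ.dH t
      have hD := (hH.sub ((MD.const U0 t).mul hY)).nsq u
      have hν := ((((mm_deriv hS.bc t).const_mul (4 * e)).add_const θ).fun_pow 2).fun_mul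
        (hY.nsq u)
      refine ⟨_, hD.sub hν, ?_⟩
      have hm0 := mm_nonneg hS.b0 ht.1
      have hmu := mu_le hS he0 hτ0 hR ht.1
      simp only [dY_dot (hJ.Oa t), dD_dot (hJ.Oa t), abs_of_nonneg hm0]
      have hμ0 : 0 ≤ 4 * e * mm b t := by positivity
      have hf := form_le (ν := 4 * e * mm b t + θ) (by positivity)
        (P_bound hJ hS he0 hτ t) ((H t - U0 * Y t) *ᵥ u) (Y t *ᵥ u)
      generalize (H t - U0 * Y t) *ᵥ u = d at *
      generalize Y t *ᵥ u = y at *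
      generalize d ⬝ᵥ ((K t - K0 + (U0 * Om t - Om t * U0)) *ᵥ y) = X at *
      obtain ⟨ν, hν⟩ : ∃ ν, ν = 4 * e * mm b t + θ := ⟨_, rfl⟩
      have hν0 : 0 < ν := by rw [hν]; positivity
      have hν1 : ν ≤ 1 := by nlinarith
      have hdot : -(2 * ν ^ 2 * (y ⬝ᵥ d)) ≤ ν * nsq d + ν ^ 3 * nsq y := by
        simp only [dotProduct, Fin.sum_univ_three, nsq]
        nlinarith [mul_nonneg hν0.le (sq_nonneg (d 0 + ν * y 0)),
          mul_nonneg hν0.le (sq_nonneg (d 1 + ν * y 1)),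
          mul_nonneg hν0.le (sq_nonneg (d 2 + ν * y 2))]
      have e1 : 4 * e * (b t - mm b t) = 4 * e * b t - (ν - θ) := by rw [hν]; ring
      rw [e1]
      rw [← hν] at hf ⊢
      obtain ⟨k, hk⟩ : ∃ k, k = 4 * e * b t := ⟨_, rfl⟩
      rw [← hk] at hf ⊢
      have e2 : k / ν * (ν ^ 2 * nsq y) = k * ν * nsq y := by field_simp
      have hN := nsq_nonneg y
      have h5 : 0 ≤ ν * nsq y * (2 * ν + 2 * θ - 2 * ν ^ 2) := by
        apply mul_nonneg (mul_nonneg hν0.le hN)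
        nlinarith
      have h6 : 0 ≤ ν ^ 2 * y 0 ^ 2 := by positivity
      have h7 := sq_nonneg (d 0)
      push_cast
      simp only [pow_one]
      nlinarith
    · apply Continuous.sub _ continuous_const
      apply Continuous.add _ (by fun_prop)
      apply Continuous.div (by fun_prop) (by fun_prop)
      intro t
      positivity
    · simp only [hJ.Y0, hJ.H0, Matrix.mul_one, sub_self, Matrix.zero_mulVec, Matrix.one_mulVec]
      have := nsq_nonneg u
      have h2 : nsq 0 = 0 := by simp [nsq]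
      rw [h2]
      nlinarith [mul_nonneg (sq_nonneg (4 * e * mm b 0 + θ)) this]
  have hc : Continuous (fun θ : ℝ =>
      nsq ((H T - U0 * Y T) *ᵥ u) - (4 * e * mm b T + θ) ^ 2 * nsq (Y T *ᵥ u)) := by fun_prop
  have h1 : Tendsto (fun θ : ℝ =>
      nsq ((H T - U0 * Y T) *ᵥ u) - (4 * e * mm b T + θ) ^ 2 * nsq (Y T *ᵥ u)) (𝓝[>] 0) _ :=
    (hc.tendsto 0).mono_left nhdsWithin_le_nhds
  have h2 := le_of_tendsto h1 (by
    filter_upwards [Ioo_mem_nhdsGT (show (0 : ℝ) < 1 / 2 by norm_num)] with θ hθ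
    exact key θ hθ.1 hθ.2)
  simp only [add_zero] at h2
  linarith

lemma MD.det_cont {A : ℝ → M3} {A' : ℝ → M3} (h : ∀ t, MD A (A' t) t) :
    Continuous fun t => (A t).det := by
  apply Continuous.matrix_det
  exact continuous_pi fun i => continuous_pi fun j =>
    continuous_iff_continuousAt.2 fun t => (h t i j).continuousAt

end OdeC

open OdeC in
theorem cone_of_small {e τ R : ℝ} {b : ℝ → ℝ} {K Om Y H : ℝ → M3} (hJ : JacSys K Om Y H)
    (hS : SmallPert e τ R b K Om) (he0 : 0 ≤ e) (he : e ≤ 1) (hτ0 : 0 < τ) (hτ : τ ≤ 1 / 100)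
    (hR : 2 ≤ R) : Cone K Om Y H := by
  have hcone : ∀ t, 0 ≤ t → ∀ u : Fin 3 → ℝ,
      nsq ((H t - U0 * Y t) *ᵥ u) ≤ 1 / 100 * nsq (Y t *ᵥ u) := by
    intro t ht u
    refine (cone_sharp hJ hS he0 he hτ0 hτ hR ht u).trans ?_
    apply mul_le_mul_of_nonneg_right _ (nsq_nonneg _)
    have h1 := mu_le hS he0 hτ0 hR ht
    have h2 : 0 ≤ 4 * e * mm b t := by have := mm_nonneg hS.b0 ht; positivity
    have h3 : 4 * e * mm b t ≤ 1 / 10 := by nlinarith
    nlinarith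
  have hne : ∀ t, 0 ≤ t → (Y t).det ≠ 0 := by
    intro t ht h0
    obtain ⟨u, hu, hYu⟩ := Matrix.exists_mulVec_eq_zero_iff.2 h0
    have := mono (f := fun s => nsq (Y s *ᵥ u)) (c := 0) ht (fun s hs => by
      have hY : MD Y (H s - Om s * Y s) s := hJ.dY s
      refine ⟨_, hY.nsq u, ?_⟩
      rw [dY_dot (hJ.Oa s)]
      have h1 := hcone s hs.1 u
      generalize (H s - U0 * Y s) *ᵥ u = d at *
      generalize Y s *ᵥ u = y at *
      simp only [dotProduct, Fin.sum_univ_three, nsq] at *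
      nlinarith [sq_nonneg (d 0 + y 0), sq_nonneg (d 1 + y 1), sq_nonneg (d 2 + y 2),
        sq_nonneg (y 0), sq_nonneg (y 1), sq_nonneg (y 2)])
    simp only [hYu, hJ.Y0, Matrix.one_mulVec, nsq, Pi.zero_apply] at this
    apply hu
    have a0 : u 0 = 0 := by nlinarith [sq_nonneg (u 0), sq_nonneg (u 1), sq_nonneg (u 2)]
    have a1 : u 1 = 0 := by nlinarith [sq_nonneg (u 0), sq_nonneg (u 1), sq_nonneg (u 2)]
    have a2 : u 2 = 0 := by nlinarith [sq_nonneg (u 0), sq_nonneg (u 1), sq_nonneg (u 2)]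
    ext i
    fin_cases i <;> simpa
  refine ⟨?_, ?_, hcone, ?_⟩
  · intro t ht
    by_contra hneg
    push Not at hneg
    have hc : Continuous fun t => (Y t).det := MD.det_cont (fun s => hJ.dY s)
    have h1 : (0 : ℝ) ∈ Icc ((Y t).det) ((Y 0).det) := ⟨hneg, by rw [hJ.Y0]; simp⟩
    obtain ⟨s, hs, hs0⟩ := intermediate_value_Icc' ht hc.continuousOn h1
    exact hne s hs.1 hs0
  · intro t
    have hd : ∀ s, MD (fun s => (Y s)ᵀ * H s - (H s)ᵀ * Y s) 0 s := by
      intro s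
      have hY : MD Y (H s - Om s * Y s) s := hJ.dY s
      have hH : MD H (K s * Y s - Om s * H s) s := hJ.dH s
      have := (hY.transpose.mul hH).sub (hH.transpose.mul hY)
      convert this using 1
      simp only [Matrix.transpose_sub, Matrix.transpose_mul, hJ.Ks s, hJ.Oa s]
      noncomm_ring
    ext i j
    have h1 := is_const_of_deriv_eq_zero (f := fun s => ((Y s)ᵀ * H s - (H s)ᵀ * Y s) i j)
      (fun s => (hd s i j).differentiableAt) (fun s => (hd s i j).deriv) t 0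
    simp only [hJ.Y0, hJ.H0, Matrix.transpose_one, Matrix.one_mul, Matrix.mul_one, U0,
      Matrix.diagonal_transpose, sub_self, Matrix.sub_apply] at h1
    linarith
  · intro t j
    have h1 := hS.Ob t j
    have h2 := hS.b0 t
    have h3 := hS.b1 t
    have h4 : e * τ ≤ 1 / 100 := by nlinarith
    have h5 : 0 ≤ e * τ := by positivity
    nlinarith

end Pool.Agent.MP_019006_gt
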