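import Pool.Agent.MP_019006_gt.OdeMul1

set_option autoImplicit false

open MeasureTheory Filter Topology Set Matrix

namespace Pool.Agent.MP_019006_gt

namespace OdeMul

theorem growth0 {K Om Y H : ℝ → M3} (hJ : JacSys K Om Y H) (hC : Cone K Om Y H)
    (t : ℝ) (ht : 0 ≤ t) (u : Fin 3 → ℝ) :
    Real.exp (9 / 5 * t) * nsq u ≤ nsq (Y t *ᵥ u) ∧
      nsq (Y t *ᵥ u) ≤ Real.exp (21 / 5 * t) * nsq u := by
  simpa [hJ.Y0] using growth_vec hJ hC 0 t le_rfl ht u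

theorem growth_inv {K Om Y H : ℝ → M3} (hJ : JacSys K Om Y H) (hC : Cone K Om Y H)
    (t : ℝ) (ht : 0 ≤ t) (u : Fin 3 → ℝ) :
    Real.exp (-(21 / 5 * t)) * nsq u ≤ nsq ((Y t)⁻¹ *ᵥ u) ∧
      nsq ((Y t)⁻¹ *ᵥ u) ≤ Real.exp (-(9 / 5 * t)) * nsq u := by
  have h := growth0 hJ hC t ht ((Y t)⁻¹ *ᵥ u)
  rw [Matrix.mulVec_mulVec, Matrix.mul_nonsing_inv _ (Ne.isUnit (hC.det_pos t ht).ne'),
    Matrix.one_mulVec] at h
  obtain ⟨h1, h2⟩ := h
  rw [Real.exp_neg, Real.exp_neg]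
  constructor
  · rw [inv_mul_le_iff₀ (Real.exp_pos _)]
    exact h2
  · rw [le_inv_mul_iff₀ (Real.exp_pos _)]
    exact h1

theorem log_fro_bound {A : M3} {a b : ℝ}
    (h : ∀ u, Real.exp a * nsq u ≤ nsq (A *ᵥ u) ∧ nsq (A *ᵥ u) ≤ Real.exp b * nsq u) :
    a / 2 ≤ Real.log (fro A) ∧ Real.log (fro A) ≤ b / 2 + 1 := by
  have h1 : 3 * Real.exp a ≤ fro A ^ 2 := by
    rw [fro_sq_cols, Fin.sum_univ_three]
    have h0 := (h (Pi.single 0 1)).1
    have h1 := (h (Pi.single 1 1)).1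
    have h2 := (h (Pi.single 2 1)).1
    rw [nsq_single] at h0 h1 h2
    linarith
  have h2 : fro A ^ 2 ≤ 3 * Real.exp b := by
    rw [fro_sq_cols, Fin.sum_univ_three]
    have h0 := (h (Pi.single 0 1)).2
    have h1 := (h (Pi.single 1 1)).2
    have h2 := (h (Pi.single 2 1)).2
    rw [nsq_single] at h0 h1 h2
    linarith
  have ha := Real.exp_pos a
  have hb := Real.exp_pos b
  have hp : 0 < fro A ^ 2 := by linarith
  have h3 : Real.log (fro A ^ 2) = 2 * Real.log (fro A) := by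
    rw [Real.log_pow]; norm_num
  constructor
  · have : a ≤ Real.log (fro A ^ 2) := by
      rw [Real.le_log_iff_exp_le hp]; linarith
    linarith
  · have h4 : Real.log (fro A ^ 2) ≤ b + 2 := by
      rw [Real.log_le_iff_le_exp hp, Real.exp_add]
      have : (2 : ℝ) + 1 ≤ Real.exp 2 := Real.add_one_le_exp 2
      nlinarith
    linarith

theorem log_det_le {A : M3} {b : ℝ} (hd : 0 < A.det)
    (h : ∀ u, nsq (A *ᵥ u) ≤ Real.exp b * nsq u) : Real.log A.det ≤ 3 / 2 * b + 5 := by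
  have h1 : ∀ i j, |A i j| ≤ Real.exp (b / 2) := by
    intro i j
    refine abs_le_of_sq_le_sq' ?_ (Real.exp_pos _).le |> abs_le.2
    have h2 := h (Pi.single j 1)
    rw [nsq_single, mul_one] at h2
    have h3 : Real.exp (b / 2) ^ 2 = Real.exp b := by
      rw [← Real.exp_nat_mul]; congr 1; push_cast; ring
    rw [h3]
    exact (entry_sq_le A i j).trans h2
  have h2 := det_bound A _ h1
  rw [abs_of_pos hd] at h2
  rw [Real.log_le_iff_le_exp hd, Real.exp_add]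
  have h3 : Real.exp (b / 2) ^ 3 = Real.exp (3 / 2 * b) := by
    rw [← Real.exp_nat_mul]; congr 1; push_cast; ring
  have h4 : (5 : ℝ) + 1 ≤ Real.exp 5 := Real.add_one_le_exp 5
  have h5 := Real.exp_pos (3 / 2 * b)
  rw [h3] at h2
  nlinarith

theorem small_det {E : M3} (h : ∀ i j, |E i j| ≤ 1 / 18) :
    1 / 2 ≤ (1 + E).det ∧ (1 + E).det ≤ 2 := by
  have m : ∀ a b c d : ℝ, |a| ≤ c → |b| ≤ d → |a * b| ≤ c * d := fun a b c d h1 h2 => by
    rw [abs_mul]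
    exact mul_le_mul h1 h2 (abs_nonneg _) ((abs_nonneg _).trans h1)
  have hE := abs_le.1 (det_bound E _ h)
  have e : (1 + E).det = 1 + (E 0 0 + E 1 1 + E 2 2) + (E 0 0 * E 1 1 + E 0 0 * E 2 2 +
      E 1 1 * E 2 2 - E 0 1 * E 1 0 - E 0 2 * E 2 0 - E 1 2 * E 2 1) + E.det := by
    simp [Matrix.det_fin_three]
    ring
  have a1 := abs_le.1 (h 0 0)
  have a2 := abs_le.1 (h 1 1)
  have a3 := abs_le.1 (h 2 2)
  have b1 := abs_le.1 (m _ _ _ _ (h 0 0) (h 1 1))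
  have b2 := abs_le.1 (m _ _ _ _ (h 0 0) (h 2 2))
  have b3 := abs_le.1 (m _ _ _ _ (h 1 1) (h 2 2))
  have b4 := abs_le.1 (m _ _ _ _ (h 0 1) (h 1 0))
  have b5 := abs_le.1 (m _ _ _ _ (h 0 2) (h 2 0))
  have b6 := abs_le.1 (m _ _ _ _ (h 1 2) (h 2 1))
  rw [e]
  constructor <;> linarith [a1.1, a1.2, a2.1, a2.2, a3.1, a3.2, b1.1, b1.2, b2.1, b2.2, b3.1, b3.2,
    b4.1, b4.2, b5.1, b5.2, b6.1, b6.2, hE.1, hE.2]

theorem small_vec {E : M3} (h : ∀ i j, |E i j| ≤ 1 / 18) (u : Fin 3 → ℝ) :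
    nsq (E *ᵥ u) ≤ 1 / 36 * nsq u := by
  have hr : ∀ i, ((E *ᵥ u) i) ^ 2 ≤ 1 / 108 * nsq u := by
    intro i
    have h1 := cs (E i) u
    have h2 : nsq (E i) ≤ 1 / 108 := by
      have q : ∀ j, E i j ^ 2 ≤ (1 / 18) ^ 2 := fun j => sq_le_sq' (abs_le.1 (h i j)).1
        (abs_le.1 (h i j)).2
      have q0 := q 0
      have q1 := q 1
      have q2 := q 2
      unfold nsq
      linarith
    exact h1.trans (mul_le_mul_of_nonneg_right h2 (nsq_nonneg u))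
  have h0 := hr 0
  have h1 := hr 1
  have h2 := hr 2
  have : nsq (E *ᵥ u) = (E *ᵥ u) 0 ^ 2 + (E *ᵥ u) 1 ^ 2 + (E *ᵥ u) 2 ^ 2 := rfl
  linarith

theorem small_one_add {E : M3} (h : ∀ i j, |E i j| ≤ 1 / 18) (u : Fin 3 → ℝ) :
    1 / 2 * nsq u ≤ nsq ((1 + E) *ᵥ u) ∧ nsq ((1 + E) *ᵥ u) ≤ 2 * nsq u := by
  have h1 := small_vec h u
  rw [Matrix.add_mulVec, Matrix.one_mulVec]
  generalize E *ᵥ u = d at h1
  simp only [nsq, Pi.add_apply] at h1 ⊢
  constructor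
  · nlinarith [sq_nonneg (u 0 + 6 * d 0), sq_nonneg (u 1 + 6 * d 1), sq_nonneg (u 2 + 6 * d 2),
      sq_nonneg (d 0), sq_nonneg (d 1), sq_nonneg (d 2), sq_nonneg (u 0), sq_nonneg (u 1),
      sq_nonneg (u 2)]
  · nlinarith [sq_nonneg (u 0 - 6 * d 0), sq_nonneg (u 1 - 6 * d 1), sq_nonneg (u 2 - 6 * d 2),
      sq_nonneg (u 0), sq_nonneg (u 1), sq_nonneg (u 2)]

theorem log_fro_le_one {A : M3} (hd : A.det ≠ 0) (h : ∀ u, nsq (A *ᵥ u) ≤ 2 * nsq u) :
    Real.log (fro A) ≤ 1 := by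
  have h2 : fro A ^ 2 ≤ 6 := by
    rw [fro_sq_cols, Fin.sum_univ_three]
    have h0 := h (Pi.single 0 1)
    have h1 := h (Pi.single 1 1)
    have h2 := h (Pi.single 2 1)
    rw [nsq_single] at h0 h1 h2
    linarith
  rw [Real.log_le_iff_le_exp (fro_pos hd)]
  have h3 := Real.exp_one_gt_d9
  nlinarith [fro_pos hd]

theorem log_fro_mul3 {A B C : M3} (hA : A.det ≠ 0) (hB : B.det ≠ 0) (hC : C.det ≠ 0) :
    Real.log (fro (A * B * C)) ≤ Real.log (fro A) + Real.log (fro B) + Real.log (fro C) := by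
  have hd : (A * B * C).det ≠ 0 := by
    rw [Matrix.det_mul, Matrix.det_mul]
    exact mul_ne_zero (mul_ne_zero hA hB) hC
  rw [← Real.log_mul (fro_pos hA).ne' (fro_pos hB).ne',
    ← Real.log_mul (mul_pos (fro_pos hA) (fro_pos hB)).ne' (fro_pos hC).ne']
  refine Real.log_le_log (fro_pos hd) ((fro_mul_le _ _).trans ?_)
  exact mul_le_mul_of_nonneg_right (fro_mul_le _ _) (fro_nonneg _)

theorem exists_small {K Om Y H Y' H' : ℝ → M3} {s : ℝ} (hs : 0 ≤ s) (hJ : JacSys K Om Y H)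
    (hC : Cone K Om Y H) (hJ' : JacSys (fun t => K (s + t)) (fun t => Om (s + t)) Y' H')
    (hC' : Cone (fun t => K (s + t)) (fun t => Om (s + t)) Y' H') (t : ℝ) (ht : 0 ≤ t) :
    ∃ E : M3, (∀ i j, |E i j| ≤ 1 / 18) ∧ Y (s + t) = Y' t * (1 + E) * Y s := by
  have hYs : IsUnit (Y s).det := Ne.isUnit (hC.det_pos s hs).ne'
  set B := (Y s)⁻¹ with hB
  have hB1 : Y s * B = 1 := Matrix.mul_nonsing_inv _ hYs
  have hB2 : B * Y s = 1 := Matrix.nonsing_inv_mul _ hYs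
  set Z : ℝ → M3 := fun r => Y (s + r) * B with hZ
  set G : ℝ → M3 := fun r => H (s + r) * B with hG
  set W : M3 := (H s - U0 * Y s) * B with hW
  have dZ : ∀ r, HD Z (G r - Om (s + r) * Z r) r := by
    intro r
    have h := (HD.shift (F := Y) (s := s) (t := r) (hJ.dY (s + r))).mul_const B
    rwa [Matrix.sub_mul, Matrix.mul_assoc] at h
  have dG : ∀ r, HD G (K (s + r) * Z r - Om (s + r) * G r) r := by
    intro r
    have h := (HD.shift (F := H) (s := s) (t := r) (hJ.dH (s + r))).mul_const B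
    rwa [Matrix.sub_mul, Matrix.mul_assoc, Matrix.mul_assoc] at h
  have dY' : ∀ r, HD Y' (H' r - Om (s + r) * Y' r) r := fun r => hJ'.dY r
  have dH' : ∀ r, HD H' (K (s + r) * Y' r - Om (s + r) * H' r) r := fun r => hJ'.dH r
  have dW : ∀ r, HD (fun r => (Y' r)ᵀ * G r - (H' r)ᵀ * Z r) 0 r := by
    intro r
    have h := ((dY' r).transpose.mul (dG r)).sub ((dH' r).transpose.mul (dZ r))
    convert h using 1
    simp only [Matrix.transpose_sub, Matrix.transpose_mul, hJ.Ks, hJ.Oa]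
    noncomm_ring
  have hWr : ∀ r, (Y' r)ᵀ * G r - (H' r)ᵀ * Z r = W := by
    intro r
    have h0 : (Y' 0)ᵀ * G 0 - (H' 0)ᵀ * Z 0 = W := by
      simp only [hJ'.Y0, hJ'.H0, hG, hZ, hW, add_zero, Matrix.transpose_one, Matrix.one_mul,
        Matrix.sub_mul, Matrix.mul_assoc, U0, Matrix.diagonal_transpose]
    rw [← h0]
    ext i j
    exact is_const_of_deriv_eq_zero (fun r => (dW r i j).differentiableAt)
      (fun r => (dW r i j).deriv) r 0
  have hWb : ∀ u, nsq (W *ᵥ u) ≤ 1 / 100 * nsq u := by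
    intro u
    have h := hC.cone s hs (B *ᵥ u)
    rwa [Matrix.mulVec_mulVec, Matrix.mulVec_mulVec, hB1, Matrix.one_mulVec] at h
  have dE : ∀ r, 0 ≤ r → HD (fun r => (Y' r)⁻¹ * Z r) ((Y' r)⁻¹ * ((Y' r)⁻¹ᵀ * W)) r := by
    intro r hr
    have hd := (hC'.det_pos r hr).ne'
    have h := ((dY' r).inv hd).mul (dZ r)
    convert h using 1
    have u1 : Y' r * (Y' r)⁻¹ = 1 := Matrix.mul_nonsing_inv _ (Ne.isUnit hd)
    have u2 : (Y' r)⁻¹ᵀ * (Y' r)ᵀ = 1 := by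
      rw [← Matrix.transpose_mul, u1, Matrix.transpose_one]
    have u3 : (Y' r)⁻¹ᵀ * (H' r)ᵀ = H' r * (Y' r)⁻¹ := by
      calc (Y' r)⁻¹ᵀ * (H' r)ᵀ = (Y' r)⁻¹ᵀ * ((H' r)ᵀ * Y' r) * (Y' r)⁻¹ := by
            rw [Matrix.mul_assoc, Matrix.mul_assoc, u1, Matrix.mul_one]
        _ = _ := by rw [← hC'.wronski r, ← Matrix.mul_assoc, u2, Matrix.one_mul]
    rw [← hWr r, Matrix.mul_sub, ← Matrix.mul_assoc (Y' r)⁻¹ᵀ, u2, ← Matrix.mul_assoc (Y' r)⁻¹ᵀ,
      u3]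
    have u4 : (Y' r)⁻¹ * (H' r - Om (s + r) * Y' r) * (Y' r)⁻¹ =
        (Y' r)⁻¹ * H' r * (Y' r)⁻¹ - (Y' r)⁻¹ * Om (s + r) := by
      rw [Matrix.mul_sub, Matrix.sub_mul, Matrix.mul_assoc (Y' r)⁻¹ (Om (s + r) * Y' r),
        Matrix.mul_assoc (Om (s + r)), u1, Matrix.mul_one]
    rw [u4]
    noncomm_ring
  have hEb : ∀ r, 0 ≤ r → ∀ i j,
      |((Y' r)⁻¹ * ((Y' r)⁻¹ᵀ * W)) i j| ≤ 1 / 10 * Real.exp (-(9 / 5 * r)) := by
    intro r hr i j
    have ht := transpose_bound (Y' r)⁻¹ _ (Real.exp_pos _).le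
      (fun u => (growth_inv hJ' hC' r hr u).2)
    have e : ((Y' r)⁻¹ * ((Y' r)⁻¹ᵀ * W)) i j =
        ((Y' r)⁻¹ᵀ *ᵥ Pi.single i 1) ⬝ᵥ ((Y' r)⁻¹ᵀ *ᵥ (W *ᵥ Pi.single j 1)) := by
      rw [Matrix.mulVec_mulVec]
      simp [Matrix.mul_apply, dotProduct]
    have h1 := cs ((Y' r)⁻¹ᵀ *ᵥ Pi.single i 1) ((Y' r)⁻¹ᵀ *ᵥ (W *ᵥ Pi.single j 1))
    have h2 := ht (Pi.single i 1)
    have h3 := ht (W *ᵥ Pi.single j 1)
    have h4 := hWb (Pi.single j 1)
    rw [nsq_single] at h2 h4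
    rw [← e] at h1
    have hx := Real.exp_pos (-(9 / 5 * r))
    have h5 : nsq ((Y' r)⁻¹ᵀ *ᵥ (W *ᵥ Pi.single j 1)) ≤ Real.exp (-(9 / 5 * r)) * (1 / 100) :=
      h3.trans (mul_le_mul_of_nonneg_left (by linarith) hx.le)
    have h6 := mul_le_mul h2 h5 (nsq_nonneg _) (by positivity)
    refine abs_le.2 (abs_le_of_sq_le_sq' (h1.trans (h6.trans (le_of_eq (by ring)))) ?_)
    positivity
  have hex : ∀ r : ℝ, HasDerivAt (fun r => 1 / 18 * Real.exp (-(9 / 5 * r)))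
      (-(1 / 10 * Real.exp (-(9 / 5 * r)))) r := by
    intro r
    have h1 := (((hasDerivAt_id r).const_mul (9 / 5 : ℝ)).neg.exp).const_mul (1 / 18 : ℝ)
    refine HasDerivAt.congr_deriv h1 ?_
    simp only [Pi.neg_apply, id]
    ring
  have hZ0 : (Y' 0)⁻¹ * Z 0 = 1 := by
    simp only [hJ'.Y0, hZ, add_zero, hB1, inv_one, Matrix.mul_one]
  refine ⟨(Y' t)⁻¹ * Z t - 1, fun i j => ?_, ?_⟩
  · have m1 : MonotoneOn (fun r => ((Y' r)⁻¹ * Z r) i j - 1 / 18 * Real.exp (-(9 / 5 * r)))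
        (Ici 0) := by
      refine monotoneOn_of_deriv_nonneg (convex_Ici 0)
        (fun r hr => ((dE r hr i j).sub (hex r)).continuousAt.continuousWithinAt)
        (fun r hr => ((dE r (interior_subset hr) i j).sub
          (hex r)).differentiableAt.differentiableWithinAt) fun r hr => ?_
      have hr' : 0 ≤ r := interior_subset hr
      rw [((dE r hr' i j).fun_sub (hex r)).deriv]
      have := (abs_le.1 (hEb r hr' i j)).1
      linarith
    have m2 : AntitoneOn (fun r => ((Y' r)⁻¹ * Z r) i j + 1 / 18 * Real.exp (-(9 / 5 * r)))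
        (Ici 0) := by
      refine antitoneOn_of_deriv_nonpos (convex_Ici 0)
        (fun r hr => ((dE r hr i j).add (hex r)).continuousAt.continuousWithinAt)
        (fun r hr => ((dE r (interior_subset hr) i j).add
          (hex r)).differentiableAt.differentiableWithinAt) fun r hr => ?_
      have hr' : 0 ≤ r := interior_subset hr
      rw [((dE r hr' i j).fun_add (hex r)).deriv]
      have := (abs_le.1 (hEb r hr' i j)).2
      linarith
    have k1 := m1 (le_refl (0 : ℝ)) ht ht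
    have k2 := m2 (le_refl (0 : ℝ)) ht ht
    simp only [hZ0, mul_zero, neg_zero, Real.exp_zero] at k1 k2
    have hx := Real.exp_pos (-(9 / 5 * t))
    rw [Matrix.sub_apply, abs_le]
    constructor <;> linarith
  · have u1 : Y' t * (Y' t)⁻¹ = 1 := Matrix.mul_nonsing_inv _ (Ne.isUnit (hC'.det_pos t ht).ne')
    rw [add_sub_cancel, ← Matrix.mul_assoc, u1, Matrix.one_mul, hZ]
    simp only [Matrix.mul_assoc, hB2, Matrix.mul_one]

end OdeMul

open OdeMul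

theorem growth_bounds {K Om Y H : ℝ → M3} (hJ : JacSys K Om Y H) (hC : Cone K Om Y H)
    (t : ℝ) (ht : 0 ≤ t) : |Real.log (fro (Y t))| ≤ 9 * (1 + t) ∧
      |Real.log (fro (Y t)⁻¹)| ≤ 9 * (1 + t) ∧ |Real.log (Y t).det| ≤ 9 * (1 + t) := by
  have h1 := log_fro_bound (growth0 hJ hC t ht)
  have h2 := log_fro_bound (growth_inv hJ hC t ht)
  have hd := hC.det_pos t ht
  have h3 := log_det_le hd fun u => (growth0 hJ hC t ht u).2
  have hd' : 0 < ((Y t)⁻¹).det := by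
    rw [Matrix.det_nonsing_inv, Ring.inverse_eq_inv']
    exact inv_pos.2 hd
  have h4 := log_det_le hd' fun u => (growth_inv hJ hC t ht u).2
  rw [Matrix.det_nonsing_inv, Ring.inverse_eq_inv', Real.log_inv] at h4
  refine ⟨abs_le.2 ⟨?_, ?_⟩, abs_le.2 ⟨?_, ?_⟩, abs_le.2 ⟨?_, ?_⟩⟩ <;>
    linarith [h1.1, h1.2, h2.1, h2.2]

theorem almost_mul {K Om Y H Y' H' : ℝ → M3} {s : ℝ} (hs : 0 ≤ s) (hJ : JacSys K Om Y H)
    (hC : Cone K Om Y H) (hJ' : JacSys (fun t => K (s + t)) (fun t => Om (s + t)) Y' H')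
    (hC' : Cone (fun t => K (s + t)) (fun t => Om (s + t)) Y' H') (t : ℝ) (ht : 0 ≤ t) :
    Real.log (fro (Y (s + t))) ≤ Real.log (fro (Y s)) + Real.log (fro (Y' t)) + 1 ∧
    Real.log (fro (Y' t)) ≤ Real.log (fro (Y (s + t))) + Real.log (fro (Y s)⁻¹) + 1 ∧
    Real.log (fro (Y (s + t))⁻¹) ≤ Real.log (fro (Y s)⁻¹) + Real.log (fro (Y' t)⁻¹) + 1 ∧
    |Real.log (Y (s + t)).det - Real.log (Y s).det - Real.log (Y' t).det| ≤ 1 := by
  obtain ⟨E, hE, e⟩ := exists_small hs hJ hC hJ' hC' t ht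
  have d1 := hC.det_pos s hs
  have d2 := hC'.det_pos t ht
  have d3 := hC.det_pos (s + t) (add_nonneg hs ht)
  have d4 := small_det hE
  have d5 : 0 < (1 + E).det := by linarith [d4.1]
  have inv_ne : ∀ A : M3, 0 < A.det → (A⁻¹).det ≠ 0 := fun A hA => by
    rw [Matrix.det_nonsing_inv, Ring.inverse_eq_inv']
    exact (inv_pos.2 hA).ne'
  have f1 : Real.log (fro (1 + E)) ≤ 1 := log_fro_le_one d5.ne' fun u => (small_one_add hE u).2
  have f2 : Real.log (fro (1 + E)⁻¹) ≤ 1 := by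
    refine log_fro_le_one (inv_ne _ d5) fun u => ?_
    have h := (small_one_add hE ((1 + E)⁻¹ *ᵥ u)).1
    rw [Matrix.mulVec_mulVec, Matrix.mul_nonsing_inv _ (Ne.isUnit d5.ne'), Matrix.one_mulVec] at h
    linarith
  refine ⟨?_, ?_, ?_, ?_⟩
  · have h := log_fro_mul3 d2.ne' d5.ne' d1.ne'
    rw [← e] at h
    linarith
  · have h := log_fro_mul3 d3.ne' (inv_ne _ d1) (inv_ne _ d5)
    have e2 : Y (s + t) * (Y s)⁻¹ * (1 + E)⁻¹ = Y' t := by
      rw [e, Matrix.mul_assoc (Y' t * (1 + E)), Matrix.mul_nonsing_inv _ (Ne.isUnit d1.ne'),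
        Matrix.mul_one, Matrix.mul_assoc, Matrix.mul_nonsing_inv _ (Ne.isUnit d5.ne'),
        Matrix.mul_one]
    rw [e2] at h
    linarith
  · have h := log_fro_mul3 (inv_ne _ d1) (inv_ne _ d5) (inv_ne _ d2)
    have e2 : (Y s)⁻¹ * (1 + E)⁻¹ * (Y' t)⁻¹ = (Y (s + t))⁻¹ := by
      rw [e, Matrix.mul_inv_rev, Matrix.mul_inv_rev, Matrix.mul_assoc]
    rw [e2] at h
    linarith
  · have e2 : Real.log (Y (s + t)).det =
        Real.log (Y' t).det + Real.log (1 + E).det + Real.log (Y s).det := by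
      rw [e, Matrix.det_mul, Matrix.det_mul, Real.log_mul (mul_pos d2 d5).ne' d1.ne',
        Real.log_mul d2.ne' d5.ne']
    have l1 : Real.log (1 + E).det ≤ 1 := by
      have := Real.log_le_sub_one_of_pos d5
      linarith [d4.2]
    have l2 : -1 ≤ Real.log (1 + E).det := by
      have := Real.one_sub_inv_le_log_of_pos d5
      have h2 : ((1 + E).det)⁻¹ ≤ 2 := by
        rw [inv_le_comm₀ d5 (by norm_num)]
        linarith [d4.1]
      linarith
    rw [e2, abs_le]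
    constructor <;> linarith

end Pool.Agent.MP_019006_gt
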