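import Pool.Agent.MP_019006_gt.Basic2
import Pool.Agent.MP_019006_gt.Jacobi
import Pool.Agent.MP_019006_gt.FlowGeo
import Pool.Agent.MP_019006_gt.Invar
import Pool.Agent.MP_019006_gt.MobLattice
import Pool.Agent.MP_019006_gt.OdeCone
import Pool.Agent.MP_019006_gt.OdeMul
import Pool.Agent.MP_019006_gt.Fibre

set_option autoImplicit false

open MeasureTheory Filter Topology Set Matrix

namespace Pool.Agent.MP_019006_gt

/-- All the data of the perturbed ball quotient. -/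
structure World {G : Type} [Group G] (ρ : G →* C3) (f β : EE → ℝ) (φ : Flo) (M : DFlo)
    (e r R : ℝ) : Prop where
  ctx : Ctx f φ M
  lat : IsLattice (4 * Real.exp (2 * R)) G ρ
  finv : ∀ a, ∀ x ∈ Bl, f (mob (ρ a) x) = f x
  βinv : ∀ a, ∀ x ∈ Bl, β (mob (ρ a) x) = β x
  βc : ContinuousOn β Bl
  β01 : ∀ x, 0 ≤ β x ∧ β x ≤ 1
  βsupp : ∀ x ∈ Bl, β x ≠ 0 → ∃ a, ‖mob (ρ a) x‖ < 2 * r
  Kb : ∀ p : EE × EE, p.1 ∈ Bl → en f p = 1 → ∀ i j, |(Kmat f p - K0) i j| ≤ e * β p.1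
  Ob : ∀ p : EE × EE, p.1 ∈ Bl → en f p = 1 → ∀ j, |Omat f p 0 j| ≤ e * (6 * r) * β p.1
  e0 : 0 ≤ e
  e1 : e ≤ 1
  r0 : 0 < r
  r1 : r ≤ 1 / 600
  R2 : 2 ≤ R

/-- The three logarithmic sizes of the Jacobi matrix. -/
noncomputable def LL (f : EE → ℝ) (φ : Flo) (M : DFlo) (i : Fin 3) (q : EE × EE) (t : ℝ) : ℝ :=
  ![Real.log (Ymat f φ M q t).det, Real.log (fro (Ymat f φ M q t)),
    Real.log (fro (Ymat f φ M q t)⁻¹)] i

namespace World

variable {G : Type} [Group G] {ρ : G →* C3} {f β : EE → ℝ} {φ : Flo} {M : DFlo} {e r R : ℝ}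

theorem u21 (h : World ρ f β φ M e r R) (a : G) : IsU21 (ρ a) := h.lat.unit a

theorem sm (h : World ρ f β φ M e r R) : ∀ n : ℕ, ContDiffOn ℝ n f Bl := h.ctx.conf.smooth

theorem fmem (h : World ρ f β φ M e r R) (t : ℝ) {p : EE × EE} (hp : p.1 ∈ Bl) :
    (φ t p).1 ∈ Bl := mem_OO.1 (h.ctx.flow.mem t p (mem_OO.2 hp))

theorem fen (h : World ρ f β φ M e r R) (t : ℝ) (p : EE × EE) : en f (φ t p) = en f p :=
  en_flow h.sm h.ctx.flow t p

theorem fcont (h : World ρ f β φ M e r R) {p : EE × EE} (hp : p.1 ∈ Bl) :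
    Continuous fun t => φ t p :=
  continuous_iff_continuousAt.2 fun t => (h.ctx.flow.deriv t p (mem_OO.2 hp)).continuousAt

theorem mob_inj (h : World ρ f β φ M e r R) {x : EE} (hx : x ∈ Bl) {a b : G}
    (ha : ‖mob (ρ a) x‖ < 2 * r) (hb : ‖mob (ρ b) x‖ < 2 * r) : a = b := by
  by_contra hab
  have hne : a * b⁻¹ ≠ 1 := fun h' => hab (mul_inv_eq_one.1 h')
  have hr := h.r1
  have hE : 1 ≤ Real.exp (2 * R) := Real.one_le_exp (by linarith [h.R2])
  have h1 := lattice_far h.lat (by positivity) _ hne (x := mob (ρ b) x) (by linarith)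
  rw [← mob_mul (h.u21 b) hx, ← map_mul, inv_mul_cancel_right] at h1
  have h2 : 4 / (4 * Real.exp (2 * R)) ^ 2 ≤ 1 / 4 := by
    rw [div_le_div_iff₀ (by positivity) (by norm_num)]; nlinarith
  have h3 : Dd (mob (ρ a) x) = 1 - ‖mob (ρ a) x‖ ^ 2 := rfl
  have h4 := norm_nonneg (mob (ρ a) x)
  nlinarith

theorem small (h : World ρ f β φ M e r R) {p : EE × EE} (hp : p.1 ∈ Bl) (h1 : en f p = 1) :
    SmallPert e (6 * r) R (fun t => β (φ t p).1) (fun t => Kmat f (φ t p))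
      (fun t => Omat f (φ t p)) where
  bc := h.βc.comp_continuous (continuous_fst.comp (h.fcont hp)) fun t => h.fmem t hp
  b0 := fun _ => (h.β01 _).1
  b1 := fun _ => (h.β01 _).2
  Kb := fun t => h.Kb _ (h.fmem t hp) (by rw [h.fen, h1])
  Ob := fun t => h.Ob _ (h.fmem t hp) (by rw [h.fen, h1])
  gap := by
    intro s t hst hs ht
    obtain ⟨a, ha⟩ := h.βsupp _ (h.fmem s hp) hs
    obtain ⟨b, hb⟩ := h.βsupp _ (h.fmem t hp) ht
    have hr := h.r1
    have hr0 := h.r0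
    have hq : (mobT (ρ a) p).1 ∈ Bl := Inv.mobT_mem (h.u21 a) hp
    have hq1 : en f (mobT (ρ a) p) = 1 := by rw [en_mobT (h.u21 a) (h.finv a), h1]
    have hφ : ∀ u, (φ u (mobT (ρ a) p)).1 = mob (ρ a) (φ u p).1 := fun u => by
      rw [flow_mobT (h.u21 a) h.sm (h.finv a) h.ctx.flow, Inv.mobT_of_mem _ (h.fmem u hp)]
    by_cases hab : a = b
    · left
      subst hab
      exact passage_short h.ctx.conf h.ctx.flow hq hq1 hr0.le (by linarith) hst.le
        (by rw [hφ]; exact ha.le) (by rw [hφ]; exact hb.le)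
    · right
      have hne : a * b⁻¹ ≠ 1 := fun h' => hab (mul_inv_eq_one.1 h')
      have h2 := lattice_far h.lat (by positivity) _ hne (x := mob (ρ b) (φ t p).1) (by linarith)
      rw [← mob_mul (h.u21 b) (h.fmem t hp), ← map_mul, inv_mul_cancel_right] at h2
      have h3 := Dd_flow_ge h.ctx.conf h.ctx.flow hq s t
      rw [hφ, hφ, hq1, Real.sqrt_one, abs_of_pos (by linarith)] at h3
      have h4 : 1 / 2 ≤ Dd (mob (ρ a) (φ s p).1) := by
        have h5 : Dd (mob (ρ a) (φ s p).1) = 1 - ‖mob (ρ a) (φ s p).1‖ ^ 2 := rfl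
        have h6 := norm_nonneg (mob (ρ a) (φ s p).1)
        nlinarith
      have h5 : 4 / (4 * Real.exp (2 * R)) ^ 2 = Real.exp (-4 * R) / 4 := by
        rw [show -4 * R = -(2 * R + 2 * R) by ring, Real.exp_neg, Real.exp_add]
        field_simp
      have h6 : Real.exp (-3 * 1 * (t - s)) ≤ Real.exp (-4 * R) := by
        have := Real.exp_pos (-3 * 1 * (t - s))
        have := Real.exp_pos (-4 * R)
        nlinarith
      have h7 := Real.exp_le_exp.1 h6
      linarith [h.R2]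

theorem jac (h : World ρ f β φ M e r R) {p : EE × EE} (hp : p.1 ∈ Bl) (h1 : en f p = 1) :
    JacSys (fun t => Kmat f (φ t p)) (fun t => Omat f (φ t p)) (Ymat f φ M p) (Hmat f φ M p) :=
  jacSys h.sm h.ctx.flow hp h1

theorem cone (h : World ρ f β φ M e r R) {p : EE × EE} (hp : p.1 ∈ Bl) (h1 : en f p = 1) :
    Cone (fun t => Kmat f (φ t p)) (fun t => Omat f (φ t p)) (Ymat f φ M p) (Hmat f φ M p) :=
  cone_of_small (h.jac hp h1) (h.small hp h1) h.e0 h.e1 (by linarith [h.r0])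
    (by linarith [h.r1]) h.R2

theorem LL_bound (h : World ρ f β φ M e r R) {p : EE × EE} (hp : p.1 ∈ Bl) (h1 : en f p = 1)
    (i : Fin 3) {t : ℝ} (ht : 0 ≤ t) : |LL f φ M i p t| ≤ 9 * (1 + t) := by
  obtain ⟨a, b, c⟩ := growth_bounds (h.jac hp h1) (h.cone hp h1) t ht
  fin_cases i
  · exact c
  · exact a
  · exact b

theorem mul (h : World ρ f β φ M e r R) {p : EE × EE} (hp : p.1 ∈ Bl) (h1 : en f p = 1)
    {s t : ℝ} (hs : 0 ≤ s) (ht : 0 ≤ t) :
    LL f φ M 1 p (s + t) ≤ LL f φ M 1 p s + LL f φ M 1 (φ s p) t + 1 ∧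
    LL f φ M 1 (φ s p) t ≤ LL f φ M 1 p (s + t) + LL f φ M 2 p s + 1 ∧
    LL f φ M 2 p (s + t) ≤ LL f φ M 2 p s + LL f φ M 2 (φ s p) t + 1 ∧
    |LL f φ M 0 p (s + t) - LL f φ M 0 p s - LL f φ M 0 (φ s p) t| ≤ 1 := by
  have hq := h.fmem s hp
  have hq1 : en f (φ s p) = 1 := by rw [h.fen, h1]
  have e1 : ∀ u, φ u (φ s p) = φ (s + u) p := fun u => by rw [add_comm, h.ctx.flow.add]
  have hJ := h.jac hq hq1
  have hC := h.cone hq hq1
  simp only [e1] at hJ hC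
  exact almost_mul hs (h.jac hp h1) (h.cone hp h1) hJ hC t ht

theorem LL_sub (h : World ρ f β φ M e r R) {p : EE × EE} (hp : p.1 ∈ Bl) (h1 : en f p = 1)
    (i : Fin 3) {s t : ℝ} (hs : 0 ≤ s) (ht : 0 ≤ t) :
    LL f φ M i p (s + t) ≤ LL f φ M i p s + LL f φ M i (φ s p) t + 1 := by
  obtain ⟨a, -, c, d⟩ := h.mul hp h1 hs ht
  fin_cases i
  · have := (abs_le.1 d).2
    change LL f φ M 0 p (s + t) ≤ LL f φ M 0 p s + LL f φ M 0 (φ s p) t + 1
    linarith
  · exact a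
  · exact c

theorem LL_inv (h : World ρ f β φ M e r R) {p : EE × EE} (hp : p.1 ∈ Bl) (h1 : en f p = 1)
    (a : G) (i : Fin 3) (t : ℝ) : LL f φ M i (mobT (ρ a) p) t = LL f φ M i p t := by
  obtain ⟨A, B, hA, hB, hY⟩ := Ymat_mobT (h.u21 a) h.sm (h.finv a) h.ctx.flow hp h1 t
  have hA' : A * Aᵀ = 1 := mul_eq_one_comm.1 hA
  have hB' : B * Bᵀ = 1 := mul_eq_one_comm.1 hB
  have dA : |A.det| = 1 := by
    have := congrArg Matrix.det hA
    rw [det_mul, det_transpose, det_one] at this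
    rcases mul_self_eq_one_iff.1 this with h' | h' <;> simp [h']
  have dB : |B.det| = 1 := by
    have := congrArg Matrix.det hB
    rw [det_mul, det_transpose, det_one] at this
    rcases mul_self_eq_one_iff.1 this with h' | h' <;> simp [h']
  fin_cases i
  · change Real.log (Ymat f φ M (mobT (ρ a) p) t).det = Real.log (Ymat f φ M p t).det
    rw [hY, ← Real.log_abs, det_mul, det_mul, abs_mul, abs_mul, dA, dB, one_mul, mul_one,
      Real.log_abs]
  · change Real.log (fro (Ymat f φ M (mobT (ρ a) p) t)) = Real.log (fro (Ymat f φ M p t))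
    rw [hY, fro_rot _ _ _ hA hB]
  · change Real.log (fro (Ymat f φ M (mobT (ρ a) p) t)⁻¹) = Real.log (fro (Ymat f φ M p t)⁻¹)
    rw [hY, Matrix.mul_inv_rev, Matrix.mul_inv_rev, inv_eq_left_inv hA, inv_eq_left_inv hB,
      ← Matrix.mul_assoc, fro_rot _ _ _ (by rw [transpose_transpose, hB'])
        (by rw [transpose_transpose, hA'])]

theorem LL_mono (h : World ρ f β φ M e r R) {p : EE × EE} (hp : p.1 ∈ Bl) (h1 : en f p = 1)
    {s t : ℝ} (hs : 0 ≤ s) (hst : s ≤ t) : LL f φ M 1 p s ≤ LL f φ M 1 p t := by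
  change Real.log (fro (Ymat f φ M p s)) ≤ Real.log (fro (Ymat f φ M p t))
  have hC := h.cone hp h1
  refine Real.log_le_log (OdeMul.fro_pos (hC.det_pos s hs).ne') ?_
  refine (pow_le_pow_iff_left₀ (OdeMul.fro_nonneg _) (OdeMul.fro_nonneg _) two_ne_zero).1 ?_
  rw [OdeMul.fro_sq_cols, OdeMul.fro_sq_cols]
  refine Finset.sum_le_sum fun j _ => ?_
  have h2 := (growth_vec (h.jac hp h1) hC s t hs hst (Pi.single j 1)).1
  have h3 : 1 ≤ Real.exp (9 / 5 * (t - s)) := Real.one_le_exp (by linarith)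
  have h4 := OdeMul.nsq_nonneg (Ymat f φ M p s *ᵥ Pi.single j 1)
  nlinarith

/-- The gap functional changes slowly in time. -/
theorem GG_time (h : World ρ f β φ M e r R) {p : EE × EE} (hp : p.1 ∈ Bl) (h1 : en f p = 1)
    {s t : ℝ} (hs : 0 ≤ s) (ht : 0 ≤ t) :
    |(2 * LL f φ M 1 p (s + t) - LL f φ M 0 p (s + t)) -
      (2 * LL f φ M 1 p s - LL f φ M 0 p s)| ≤ 30 * (1 + t) := by
  obtain ⟨a, -, -, d⟩ := h.mul hp h1 hs ht
  have hq := h.fmem s hp
  have hq1 : en f (φ s p) = 1 := by rw [h.fen, h1]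
  have b1 := abs_le.1 (h.LL_bound hq hq1 1 ht)
  have b0 := abs_le.1 (h.LL_bound hq hq1 0 ht)
  have m := h.LL_mono hp h1 hs (show s ≤ s + t by linarith)
  have d' := abs_le.1 d
  rw [abs_le]
  constructor <;> linarith [b1.1, b1.2, b0.1, b0.2, d'.1, d'.2]

/-- The gap functional changes by a bounded amount along the flow. -/
theorem GG_flow (h : World ρ f β φ M e r R) {p : EE × EE} (hp : p.1 ∈ Bl) (h1 : en f p = 1)
    {s t : ℝ} (hs : 0 ≤ s) (ht : 0 ≤ t) :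
    |(2 * LL f φ M 1 (φ s p) t - LL f φ M 0 (φ s p) t) -
      (2 * LL f φ M 1 p t - LL f φ M 0 p t)| ≤ 60 * (1 + s) := by
  obtain ⟨a, b, -, d⟩ := h.mul hp h1 hs ht
  have b1 := abs_le.1 (h.LL_bound hp h1 1 hs)
  have b0 := abs_le.1 (h.LL_bound hp h1 0 hs)
  have b2 := abs_le.1 (h.LL_bound hp h1 2 hs)
  have g := abs_le.1 (h.GG_time hp h1 ht hs)
  rw [add_comm t s] at g
  have d' := abs_le.1 d
  rw [abs_le]
  constructor <;> linarith [b1.1, b1.2, b0.1, b0.2, d'.1, d'.2, g.1, g.2, b2.1, b2.2]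

end World

end Pool.Agent.MP_019006_gt
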