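import Pool.Agent.MP_019006_gt.Main1
import Pool.Agent.MP_019006_gt.ErgPack
import Pool.Agent.MP_019006_gt.Local

set_option autoImplicit false

open MeasureTheory Filter Topology Set Matrix

namespace Pool.Agent.MP_019006_gt

theorem measurable_indicator_of_continuousOn {X Y : Type} [TopologicalSpace X] [MeasurableSpace X]
    [OpensMeasurableSpace X] [TopologicalSpace Y] [MeasurableSpace Y] [BorelSpace Y] [Zero Y]
    {S : Set X} (hS : MeasurableSet S) {u : X → Y} (hu : ContinuousOn u S) :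
    Measurable (S.indicator u) := by
  classical
  have : S.indicator u = S.piecewise u fun _ => 0 := by
    funext x; by_cases hx : x ∈ S <;> simp [hx]
  rw [this]
  exact hu.measurable_piecewise continuousOn_const hS

theorem continuous_fro : Continuous fro := by
  unfold fro
  fun_prop

namespace World

variable {G : Type} [Group G] {ρ : G →* C3} {f β : EE → ℝ} {φ : Flo} {M : DFlo} {e r R : ℝ}

theorem nrm_contOn (h : World ρ f β φ M e r R) {S : Set (EE × EE)}
    (hS : ∀ p ∈ S, p.1 ∈ Bl ∧ p.2 ≠ 0) : ContinuousOn (nrm f) S := by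
  have hen : ContinuousOn (en f) S :=
    (Fib.contOn_en h.ctx.conf).mono fun p hp => mem_OO.2 (hS p hp).1
  have h1 : ContinuousOn (fun p => (Real.sqrt (en f p))⁻¹) S :=
    (Real.continuous_sqrt.comp_continuousOn hen).inv₀ fun p hp =>
      (Real.sqrt_pos.2 (en_nrm (hS p hp).1 (hS p hp).2).1).ne'
  have h2 : ContinuousOn (fun p : EE × EE => (Real.sqrt (en f p))⁻¹ • p.2) S :=
    h1.smul continuousOn_snd
  exact continuousOn_fst.prodMk h2

theorem LL_aux {X : Type} [TopologicalSpace X] {S : Set X} {Y : X → M3} (hY : ContinuousOn Y S)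
    (hd : ∀ p ∈ S, 0 < (Y p).det) : ContinuousOn (fun p => Real.log (Y p).det) S ∧
      ContinuousOn (fun p => Real.log (fro (Y p))) S ∧
      ContinuousOn (fun p => Real.log (fro (Y p)⁻¹)) S := by
  have hdet : ContinuousOn (fun p => (Y p).det) S :=
    (Continuous.matrix_det continuous_id).comp_continuousOn hY
  have h1 : ContinuousOn (fun p => fro (Y p)) S := continuous_fro.comp_continuousOn hY
  have hi : ContinuousOn (fun p => (Y p)⁻¹) S := by
    simp only [Matrix.inv_def, Ring.inverse_eq_inv']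
    have h2 : ContinuousOn (fun p => (Y p).adjugate) S :=
      (Continuous.matrix_adjugate continuous_id).comp_continuousOn hY
    exact (hdet.inv₀ fun p hp => (hd p hp).ne').smul h2
  have h3 : ContinuousOn (fun p => fro (Y p)⁻¹) S := continuous_fro.comp_continuousOn hi
  refine ⟨hdet.log fun p hp => (hd p hp).ne',
    h1.log fun p hp => (OdeMul.fro_pos (hd p hp).ne').ne',
    h3.log fun p hp => (OdeMul.fro_pos ?_).ne'⟩
  rw [Matrix.det_nonsing_inv, Ring.inverse_eq_inv']
  exact inv_ne_zero (hd p hp).ne'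

theorem LL_contOn (h : World ρ f β φ M e r R) (i : Fin 3) {S : Set (EE × EE)} {T : EE × EE → ℝ}
    (hS : ∀ p ∈ S, p.1 ∈ Bl ∧ p.2 ≠ 0) (hT : ContinuousOn T S) (hT0 : ∀ p ∈ S, 0 ≤ T p) :
    ContinuousOn (fun p => LL f φ M i (nrm f p) (T p)) S := by
  have hn := h.nrm_contOn hS
  have h0 : ContinuousOn (fun p => (T p, nrm f p)) S := hT.prodMk hn
  have hY : ContinuousOn (fun p => Ymat f φ M (nrm f p) (T p)) S :=
    ContinuousOn.comp (g := fun q : ℝ × (EE × EE) => Ymat f φ M q.2 q.1)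
      (f := fun p => (T p, nrm f p)) (continuousOn_Ymat h.sm h.ctx.flow) h0 fun p hp =>
      ⟨mem_univ _, mem_OO.2 (hS p hp).1⟩
  have hd : ∀ p ∈ S, 0 < (Ymat f φ M (nrm f p) (T p)).det := fun p hp =>
    (h.cone (p := nrm f p) (hS p hp).1 (en_nrm (hS p hp).1 (hS p hp).2).2).det_pos _ (hT0 p hp)
  obtain ⟨a, b, c⟩ := LL_aux hY hd
  fin_cases i
  · exact a
  · exact b
  · exact c

theorem shell_ne {p : EE × EE} (hp : p ∈ shell f) : p.2 ≠ 0 := by
  intro h0
  have h1 : en f p = 0 := by unfold en; rw [h0]; simp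
  linarith [hp.2.1]

theorem d_bound (h : World ρ f β φ M e r R) {p : EE × EE} (hp : p.1 ∈ Bl) (h1 : en f p = 1) :
    |d1 f p| ≤ e * β p.1 ∧ |dw f p| ≤ 2 * (e * β p.1) := by
  have a := h.Kb p hp h1 0 0
  have b := abs_le.1 (h.Kb p hp h1 1 1)
  have c := abs_le.1 (h.Kb p hp h1 2 2)
  simp only [Matrix.sub_apply, K0, Matrix.diagonal_apply_eq] at a b c
  refine ⟨a, ?_⟩
  unfold dw
  simp only [Matrix.cons_val] at b c
  rw [abs_le]
  constructor <;> linarith [b.1, b.2, c.1, c.2]

theorem PsiT_bound (h : World ρ f β φ M e r R) {η : ℝ} (hη : 0 ≤ η) {p : EE × EE} (hp : p.1 ∈ Bl)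
    (h1 : en f p = 1) : |PsiT f β φ η e (6 * r) p| ≤ (2 + η) * β p.1 := by
  have hr := h.r0
  have hr1 := h.r1
  have hb : ∀ x, e * β x ≤ 1 := fun x => mul_le_one₀ h.e1 (h.β01 x).1 (h.β01 x).2
  have hb' : e * β p.1 ≤ β p.1 := mul_le_of_le_one_left (h.β01 _).1 h.e1
  have i1 : |∫ s in (-(6 * r))..0, d1 f (φ s p)| ≤ 1 := by
    have := intervalIntegral.norm_integral_le_of_norm_le_const (a := -(6 * r)) (b := 0) (C := 1)
      (f := fun s => d1 f (φ s p)) fun s _ =>
        (h.d_bound (h.fmem s hp) (by rw [h.fen, h1])).1.trans (hb _)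
    rw [Real.norm_eq_abs, abs_of_pos (a := 0 - -(6 * r)) (by linarith)] at this
    linarith
  have i2 : |∫ s in (-(6 * r))..0, dw f (φ s p)| ≤ 1 := by
    have := intervalIntegral.norm_integral_le_of_norm_le_const (a := -(6 * r)) (b := 0) (C := 2)
      (f := fun s => dw f (φ s p)) fun s _ =>
        (h.d_bound (h.fmem s hp) (by rw [h.fen, h1])).2.trans (by linarith [hb (φ s p).1])
    rw [Real.norm_eq_abs, abs_of_pos (a := 0 - -(6 * r)) (by linarith)] at this
    linarith
  obtain ⟨a, b⟩ := h.d_bound hp h1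
  have hβ := (h.β01 p.1).1
  have j1 : |d1 f p * ∫ s in (-(6 * r))..0, d1 f (φ s p)| ≤ β p.1 := by
    rw [abs_mul]; nlinarith [abs_nonneg (d1 f p), abs_nonneg (∫ s in (-(6 * r))..0, d1 f (φ s p))]
  have j2 : |dw f p * ∫ s in (-(6 * r))..0, dw f (φ s p)| ≤ 2 * β p.1 := by
    rw [abs_mul]; nlinarith [abs_nonneg (dw f p), abs_nonneg (∫ s in (-(6 * r))..0, dw f (φ s p))]
  have j3 : 0 ≤ η * e ^ 2 * (6 * r) * β p.1 := by positivity
  have j4 : η * e ^ 2 * (6 * r) * β p.1 ≤ η * β p.1 := by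
    have k1 : e ^ 2 ≤ 1 := pow_le_one₀ h.e0 h.e1
    have k2 : e ^ 2 * (6 * r) ≤ 1 := mul_le_one₀ k1 (by linarith) (by linarith)
    have k3 : 0 ≤ η * β p.1 := by positivity
    nlinarith
  unfold PsiT
  rw [mul_assoc (1 / 8 : ℝ), mul_assoc (1 / 16 : ℝ)]
  have a' := abs_le.1 a
  have b' := abs_le.1 b
  have j1' := abs_le.1 j1
  have j2' := abs_le.1 j2
  rw [abs_le]
  constructor <;> nlinarith [a'.1, a'.2, b'.1, b'.2, j1'.1, j1'.2, j2'.1, j2'.2]

theorem PsiT_inv (h : World ρ f β φ M e r R) (η τ : ℝ) (a : G) {p : EE × EE} (hp : p.1 ∈ Bl)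
    (h1 : en f p = 1) : PsiT f β φ η e τ (mobT (ρ a) p) = PsiT f β φ η e τ p := by
  have k : ∀ s, d1 f (φ s (mobT (ρ a) p)) = d1 f (φ s p) ∧
      dw f (φ s (mobT (ρ a) p)) = dw f (φ s p) := fun s => by
    rw [flow_mobT (h.u21 a) h.sm (h.finv a) h.ctx.flow]
    exact d1_dw_mobT (h.u21 a) h.sm (h.finv a) (h.fmem s hp) (by rw [h.fen, h1])
  obtain ⟨k1, k2⟩ := d1_dw_mobT (h.u21 a) h.sm (h.finv a) hp h1
  have k3 : β (mobT (ρ a) p).1 = β p.1 := by rw [Inv.mobT_of_mem _ hp]; exact h.βinv a _ hp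
  unfold PsiT
  simp only [(k _).1, (k _).2, k1, k2, k3]

theorem Psi_eq (h : World ρ f β φ M e r R) (η τ : ℝ) (p : EE × EE) (t : ℝ) :
    Psi η e τ (fun t => β (φ t p).1) (fun t => Kmat f (φ t p)) t = PsiT f β φ η e τ (φ t p) := by
  have k : ∀ u : EE × EE → ℝ, ∫ s in (-τ)..0, u (φ s (φ t p)) = ∫ s in (t - τ)..t, u (φ s p) := by
    intro u
    simp only [← h.ctx.flow.add]
    rw [intervalIntegral.integral_comp_add_right (fun s => u (φ s p)) t]
    congr 1 <;> ring
  unfold Psi PsiT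
  rw [k (dw f), k (d1 f)]
  rfl

theorem shell_flow (h : World ρ f β φ M e r R) (t : ℝ) {p : EE × EE} (hp : p ∈ shell f) :
    φ t p ∈ shell f := ⟨h.fmem t hp.1, by rw [h.fen]; exact hp.2⟩

theorem shell_mobT (h : World ρ f β φ M e r R) (a : G) {p : EE × EE} (hp : p ∈ shell f) :
    mobT (ρ a) p ∈ shell f :=
  ⟨Inv.mobT_mem (h.u21 a) hp.1, by rw [en_mobT (h.u21 a) (h.finv a)]; exact hp.2⟩

theorem pack [Countable G] (h : World ρ f β φ M e r R) {η C c : ℝ} (hη : 0 ≤ η) (hc : 0 < c)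
    (hcore : ∀ p : EE × EE, p.1 ∈ Bl → en f p = 1 → ∀ T : ℝ, 0 ≤ T →
      (∫ t in (0 : ℝ)..T, Psi η e (6 * r) (fun t => β (φ t p).1) (fun t => Kmat f (φ t p)) t) - C ≤
        2 * LL f φ M 1 p T - LL f φ M 0 p T)
    (hloc : ∀ w : EE, ‖w‖ = 1 → c ≤ ∫ x in Metric.ball (0 : EE) (2 * r),
      PsiT f β φ η e (6 * r) (x, Real.exp (-f x) • L0 x w) * (Real.exp (4 * f x) / Dd x ^ 3)) :
    (∀ᵐ p : EE × EE, p ∈ shell f → ∀ i, ∃ l : ℝ, Tendsto (fun n : ℕ =>
      (LL f φ M i (nrm f p) (n * Real.sqrt (en f p)) + 1) / n) atTop (𝓝 l)) ∧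
    ¬ ∀ᵐ p : EE × EE, p ∈ shell f → ∀ l₁ l₀ : ℝ,
      Tendsto (fun n : ℕ => (LL f φ M 1 (nrm f p) (n * Real.sqrt (en f p)) + 1) / n) atTop (𝓝 l₁) →
      Tendsto (fun n : ℕ => (LL f φ M 0 (nrm f p) (n * Real.sqrt (en f p)) + 1) / n) atTop (𝓝 l₀) →
        2 * l₁ ≤ l₀ := by
  have hf := h.ctx.conf
  have hSm : MeasurableSet (shell f) := Fib.meas_shell hf
  have hSO : shell f ⊆ OO := Fib.shell_sub f
  obtain ⟨δ, hδ, hcov⟩ := lattice_cocpt h.lat
  obtain ⟨-, hKc, hKf⟩ := liou_compact hf δ hδ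
  have hun : ∀ p ∈ shell f, (nrm f p).1 ∈ Bl ∧ en f (nrm f p) = 1 := fun p hp =>
    ⟨hp.1, (en_nrm hp.1 (shell_ne hp)).2⟩
  have hs2 : ∀ p ∈ shell f, 1 ≤ Real.sqrt (en f p) ∧ Real.sqrt (en f p) ≤ 2 := fun p hp =>
    ⟨Real.one_le_sqrt.2 hp.2.1, Real.sqrt_le_iff.2 ⟨by norm_num, by linarith [hp.2.2]⟩⟩
  have hsq : ContinuousOn (fun p => Real.sqrt (en f p)) (shell f) :=
    Real.continuous_sqrt.comp_continuousOn ((Fib.contOn_en hf).mono hSO)
  have hΦ := continuousOn_PsiT h.sm h.βc h.ctx.flow η e (6 * r)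
  have hΨc : ContinuousOn (fun p => Real.sqrt (en f p) * PsiT f β φ η e (6 * r) (nrm f p))
      (shell f) := hsq.mul (hΦ.comp (Fib.contOn_nrm hf) fun p hp => mem_OO.2 hp.1)
  obtain ⟨hint, hpos⟩ := fibre_pos hf _ hΦ (2 * r) c (by linarith [h.r1]) hc hloc
  have hBm : MeasurableSet (shell f ∩ {p : EE × EE | ‖p.1‖ < 2 * r}) :=
    hSm.inter (isOpen_lt (by fun_prop) continuous_const).measurableSet
  have hSc : liou f (shell f) (shell f)ᶜ = 0 := by
    have := (ae_liou_iff hf hSm hSO (fun p => p ∈ shell f)).2 (Eventually.of_forall fun p hp => hp)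
    exact this
  have : SFinite (liou f (shell f)) := by unfold liou; infer_instance
  set C' : ℝ := max (max 19 (2 * (2 + η))) (C + 1) with hC'
  have key := erg_pack (liou f (shell f)) (shell f) hSm hSc (fun a => mobT (ρ a))
    (fun a => mobT_measurePreserving (h.u21 a) (h.u21 a⁻¹) (by rw [← map_mul]; simp) (h.finv a)
      hSm hSO (fun p hp => h.shell_mobT a hp) fun p hp => h.shell_mobT a⁻¹ hp)
    (fun a p hp => h.shell_mobT a hp) (fun p _ => by rw [map_one, Inv.mobT_one])
    (fun a b p hp => by rw [map_mul, Inv.mobT_mul (h.u21 a) (h.u21 b) hp.1])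
    φ (h.ctx.flow.measurable isOpen_OO)
    (flow_measurePreserving h.sm h.ctx.flow hSm hSO fun t p hp => h.shell_flow t hp)
    (fun t p hp => h.shell_flow t hp) (fun p _ => h.ctx.flow.zero p)
    (fun t s p _ => h.ctx.flow.add t s p)
    (fun a t p _ => flow_mobT (h.u21 a) h.sm (h.finv a) h.ctx.flow t p)
    (shell f ∩ {p | δ ≤ Dd p.1}) hKc.measurableSet hKf
    (fun p hp => by
      obtain ⟨a, ha⟩ := hcov p.1 hp.1
      exact ⟨a, h.shell_mobT a hp, by rw [Inv.mobT_of_mem _ hp.1]; exact ha⟩)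
    (fun p hp => by
      refine (lattice_fin h.lat (min δ (Dd p.1)) (lt_min hδ (Dd_pos hp.1))).subset fun a ha => ?_
      refine ⟨p.1, hp.1, min_le_right _ _, (min_le_left _ _).trans ?_⟩
      have := ha.2
      rw [Inv.mobT_of_mem _ hp.1] at this
      exact this)
    C' (fun i n => (shell f).indicator fun p =>
      LL f φ M i (nrm f p) (n * Real.sqrt (en f p)) + 1)
    (fun i n => measurable_indicator_of_continuousOn hSm
      ((h.LL_contOn i (fun p hp => ⟨hp.1, shell_ne hp⟩) (continuousOn_const.mul hsq)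
        fun p _ => mul_nonneg (Nat.cast_nonneg n) (Real.sqrt_nonneg _)).add continuousOn_const))
    (fun i n a p hp => by
      rw [indicator_of_mem (h.shell_mobT a hp), indicator_of_mem hp,
        nrm_mobT (h.u21 a) (h.finv a) hp.1, en_mobT (h.u21 a) (h.finv a),
        h.LL_inv (hun p hp).1 (hun p hp).2])
    (fun i m n p hp => by
      rw [indicator_of_mem (h.shell_flow m hp), indicator_of_mem hp, indicator_of_mem hp,
        flow_nrm h.sm h.ctx.flow m hp.1 (shell_ne hp), h.fen, Nat.cast_add, add_mul,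
        mul_comm (Real.sqrt _) (m : ℝ)]
      have := h.LL_sub (hun p hp).1 (hun p hp).2 i (s := m * Real.sqrt (en f p))
        (t := n * Real.sqrt (en f p)) (by positivity) (by positivity)
      linarith)
    (fun i n p hp => by
      rw [indicator_of_mem hp]
      have b := h.LL_bound (hun p hp).1 (hun p hp).2 i (t := n * Real.sqrt (en f p))
        (by positivity)
      have b1 : (n : ℝ) * Real.sqrt (en f p) ≤ n * 2 :=
        mul_le_mul_of_nonneg_left (hs2 p hp).2 (Nat.cast_nonneg n)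
      have b2 : (19 : ℝ) ≤ C' := (le_max_left _ _).trans (le_max_left _ _)
      have b3 : (0 : ℝ) ≤ n := Nat.cast_nonneg n
      have b4 := abs_add_le (LL f φ M i (nrm f p) (n * Real.sqrt (en f p))) 1
      rw [abs_one] at b4
      nlinarith)
    ((shell f).indicator fun p => Real.sqrt (en f p) * PsiT f β φ η e (6 * r) (nrm f p))
    ((shell f ∩ {p : EE × EE | ‖p.1‖ < 2 * r}).indicator
      fun p => Real.sqrt (en f p) * PsiT f β φ η e (6 * r) (nrm f p))
    (measurable_indicator_of_continuousOn hSm hΨc)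
    (measurable_indicator_of_continuousOn hBm (hΨc.mono inter_subset_left)) hint
    (fun p hp => by
      rw [indicator_of_mem hp, abs_mul, abs_of_nonneg (Real.sqrt_nonneg _)]
      have b := h.PsiT_bound hη (hun p hp).1 (hun p hp).2
      have b1 : (2 + η) * β (nrm f p).1 ≤ 2 + η :=
        mul_le_of_le_one_right (by linarith) (h.β01 _).2
      have b2 : 2 * (2 + η) ≤ C' := (le_max_right _ _).trans (le_max_left _ _)
      exact (mul_le_mul (hs2 p hp).2 (b.trans b1) (abs_nonneg _) (by norm_num)).trans b2)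
    (fun p hp => by
      refine Set.Subsingleton.finite fun a ha b hb => ?_
      have ha' := (mem_of_indicator_ne_zero ha).2
      have hb' := (mem_of_indicator_ne_zero hb).2
      rw [Inv.mobT_of_mem _ hp.1] at ha' hb'
      exact h.mob_inj hp.1 ha' hb')
    (fun p hp => by
      rw [indicator_of_mem hp]
      by_cases hex : ∃ a, ‖mob (ρ a) p.1‖ < 2 * r
      · obtain ⟨a, ha⟩ := hex
        rw [tsum_eq_single a]
        · rw [indicator_of_mem, nrm_mobT (h.u21 a) (h.finv a) hp.1, en_mobT (h.u21 a) (h.finv a),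
            h.PsiT_inv η _ a (hun p hp).1 (hun p hp).2]
          exact ⟨h.shell_mobT a hp, by rw [Inv.mobT_of_mem _ hp.1]; exact ha⟩
        · intro b hb
          refine indicator_of_notMem (fun hb' => hb ?_) _
          have := hb'.2
          rw [Inv.mobT_of_mem _ hp.1] at this
          exact h.mob_inj hp.1 this ha
      · have h0 : β p.1 = 0 := by
          by_contra h0
          exact hex (h.βsupp _ hp.1 h0)
        have b := h.PsiT_bound hη (hun p hp).1 (hun p hp).2
        have b1 : β (nrm f p).1 = 0 := h0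
        rw [b1, mul_zero] at b
        rw [abs_nonpos_iff.1 b, mul_zero]
        refine (tsum_congr fun a => ?_).trans tsum_zero |>.symm
        refine indicator_of_notMem (fun ha => hex ⟨a, ?_⟩) _
        have := ha.2
        rw [Inv.mobT_of_mem _ hp.1] at this
        exact this)
    hpos
    (fun n p hp => by
      rw [indicator_of_mem hp, indicator_of_mem hp]
      have k := hcore _ (hun p hp).1 (hun p hp).2 (n * Real.sqrt (en f p)) (by positivity)
      simp only [h.Psi_eq] at k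
      have k1 : ∫ t in (0 : ℝ)..n, (shell f).indicator
          (fun p => Real.sqrt (en f p) * PsiT f β φ η e (6 * r) (nrm f p)) (φ t p) =
          ∫ t in (0 : ℝ)..(n * Real.sqrt (en f p)), PsiT f β φ η e (6 * r) (φ t (nrm f p)) := by
        have k2 : ∀ t, (shell f).indicator
            (fun p => Real.sqrt (en f p) * PsiT f β φ η e (6 * r) (nrm f p)) (φ t p) =
            Real.sqrt (en f p) * PsiT f β φ η e (6 * r) (φ (Real.sqrt (en f p) * t) (nrm f p)) :=
          fun t => by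
            rw [indicator_of_mem (h.shell_flow t hp), h.fen,
              flow_nrm h.sm h.ctx.flow t hp.1 (shell_ne hp)]
        simp only [k2]
        rw [intervalIntegral.integral_const_mul, ← smul_eq_mul,
          intervalIntegral.smul_integral_comp_mul_left
            (fun t => PsiT f β φ η e (6 * r) (φ t (nrm f p))), mul_zero,
          mul_comm (Real.sqrt _) (n : ℝ)]
      rw [k1]
      have b2 : C + 1 ≤ C' := le_max_right _ _
      linarith)
  rw [ae_liou_iff hf hSm hSO, ae_liou_iff hf hSm hSO] at key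
  refine ⟨key.1.mono fun p hp hp' => ?_, fun hh => key.2 (hh.mono fun p hp hp' => ?_)⟩
  · simpa only [indicator_of_mem hp'] using hp hp'
  · simpa only [indicator_of_mem hp'] using hp hp'

end World

end Pool.Agent.MP_019006_gt
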