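import Pool.Agent.MP_019006_gt.OdeCore1

set_option autoImplicit false

open MeasureTheory Filter Topology Set Matrix

namespace Pool.Agent.MP_019006_gt

namespace OdeC

/-- top diagonal entry of the Riccati deviation -/
noncomputable def aa (Y H : ℝ → M3) (s : ℝ) : ℝ := UU Y H s 0 0 - 2

/-- trace of the lower block of the Riccati deviation -/
noncomputable def gg (Y H : ℝ → M3) (s : ℝ) : ℝ := UU Y H s 1 1 + UU Y H s 2 2 - 2

/-- the indefinite form on the first column -/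
def QQ (Y : ℝ → M3) (s : ℝ) : ℝ := Y s 0 0 ^ 2 - Y s 1 0 ^ 2 - Y s 2 0 ^ 2

lemma point {e τ R : ℝ} {b : ℝ → ℝ} {K Om Y H : ℝ → M3} (hJ : JacSys K Om Y H)
    (hS : SmallPert e τ R b K Om) (he0 : 0 ≤ e) (he : e ≤ 1) (hτ0 : 0 < τ) (hτ : τ ≤ 1 / 100)
    (hR : 2 ≤ R) {t : ℝ} (ht : 0 ≤ t) :
    ∃ a' g' Q' l : ℝ, HasDerivAt (aa Y H) a' t ∧ HasDerivAt (gg Y H) g' t ∧
      HasDerivAt (QQ Y) Q' t ∧
      HasDerivAt (fun s => (Y s).det) ((4 + aa Y H t + gg Y H t) * (Y t).det) t ∧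
      |aa Y H t| ≤ 4 * e * mm b t ∧ |gg Y H t| ≤ 2 * (4 * e * mm b t) ∧
      |a' - (K t 0 0 - 4)| ≤ 40 * e * τ ∧ |g' - (K t 1 1 + K t 2 2 - 2)| ≤ 40 * e * τ ∧
      7 / 2 * QQ Y t ≤ Q' ∧ l * QQ Y t ≤ Q' ∧
      1 / 4 * ((K t 0 0 - 4) - 2 * (K t 1 1 + K t 2 2 - 2)) +
          1 / 8 * (K t 1 1 + K t 2 2 - 2) * gg Y H t - 1 / 16 * (K t 0 0 - 4) * aa Y H t -
          512 * e ^ 2 * τ ^ 2 * mm b t - 15 * e ^ 2 * τ ^ 2 * b t ≤
        l - (4 + aa Y H t + gg Y H t) + 1 / 4 * (a' - 2 * g') + 1 / 8 * gg Y H t * g' -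
          1 / 16 * aa Y H t * a' := by
  have hC := cone_of_small hJ hS he0 he hτ0 hτ hR
  have hd : (Y t).det ≠ 0 := (hC.det_pos t ht).ne'
  have hm0 := mm_nonneg hS.b0 ht
  have hμ0 : 0 ≤ 4 * e * mm b t := by positivity
  have hμ1 := mu_le hS he0 hτ0 hR ht
  have hW := W_bound hd hμ0 (cone_sharp hJ hS he0 he hτ0 hτ hR ht)
  have hU := UU_deriv hJ hd
  have hsym := UU_symm hC hd
  obtain ⟨o1, o2, o3, o4, o5, o6⟩ := om_facts (hJ.Oa t)
  have hY : MD Y ((UU Y H t - Om t) * Y t) t := by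
    rw [Matrix.sub_mul, UU_mul hd]
    exact hJ.dY t
  have g1 := hS.Ob t 1
  have g2 := hS.Ob t 2
  have hb0 := hS.b0 t
  have hb1 := hS.b1 t
  have w00 := hW 0 0
  have w01 := hW 0 1
  have w02 := hW 0 2
  have w11 := hW 1 1
  have w12 := hW 1 2
  have w22 := hW 2 2
  simp only [Matrix.sub_apply, U0, Matrix.diagonal_apply_eq, Matrix.cons_val_zero,
    Matrix.cons_val_one, Matrix.cons_val, ne_eq, Fin.reduceEq, not_false_eq_true,
    Matrix.diagonal_apply_ne, sub_zero] at w00 w01 w02 w11 w12 w22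
  have s10 := hsym 0 1
  have s20 := hsym 0 2
  have s21 := hsym 1 2
  have da : HasDerivAt (aa Y H) _ t := (hU 0 0).sub_const 2
  have dg : HasDerivAt (gg Y H) _ t := ((hU 1 1).add (hU 2 2)).sub_const 2
  have dQ : HasDerivAt (QQ Y) _ t :=
    (((hY 0 0).fun_pow 2).fun_sub ((hY 1 0).fun_pow 2)).fun_sub ((hY 2 0).fun_pow 2)
  have dd := hY.det
  have heτ : e * τ ≤ 1 / 100 := (mul_le_of_le_one_left hτ0.le he).trans hτ
  have heτ0 : 0 ≤ e * τ := by positivity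
  have ho1 : e * τ * b t ≤ e * τ := mul_le_of_le_one_right heτ0 hb1
  have ho0 : 0 ≤ e * τ * b t := by positivity
  obtain ⟨μ, hμ⟩ : ∃ μ, μ = 4 * e * mm b t := ⟨_, rfl⟩
  obtain ⟨o, ho⟩ : ∃ o, o = e * τ * b t := ⟨_, rfl⟩
  rw [← hμ] at w00 w01 w02 w11 w12 w22 hμ0 hμ1
  rw [← ho] at g1 g2 ho1 ho0
  have hμ2 : μ ≤ 2 / 25 := by linarith
  have E := alg_E w00 w01 w02 w11 w12 w22 g1 g2
  have ea : (K t - Om t * UU Y H t - UU Y H t * UU Y H t + UU Y H t * Om t) 0 0 =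
      (K t 0 0 - 4) - 4 * (UU Y H t 0 0 - 2) - ((UU Y H t 0 0 - 2) ^ 2 +
        (UU Y H t 0 1 ^ 2 + UU Y H t 0 2 ^ 2) +
          2 * (Om t 0 1 * UU Y H t 0 1 + Om t 0 2 * UU Y H t 0 2)) := by
    simp only [Matrix.add_apply, Matrix.sub_apply, Matrix.mul_apply, Fin.sum_univ_three,
      o1, o4, o5, s10, s20]
    ring
  have eg : (K t - Om t * UU Y H t - UU Y H t * UU Y H t + UU Y H t * Om t) 1 1 +
      (K t - Om t * UU Y H t - UU Y H t * UU Y H t + UU Y H t * Om t) 2 2 =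
      (K t 1 1 + K t 2 2 - 2) - 2 * ((UU Y H t 1 1 - 1) + (UU Y H t 2 2 - 1)) -
        (((UU Y H t 1 1 - 1) ^ 2 + 2 * UU Y H t 1 2 ^ 2 + (UU Y H t 2 2 - 1) ^ 2) +
          (UU Y H t 0 1 ^ 2 + UU Y H t 0 2 ^ 2) -
            2 * (Om t 0 1 * UU Y H t 0 1 + Om t 0 2 * UU Y H t 0 2)) := by
    simp only [Matrix.add_apply, Matrix.sub_apply, Matrix.mul_apply, Fin.sum_univ_three,
      o2, o3, o4, o5, o6, s10, s20, s21]
    ring
  have M := alg_main w00 w01 w02 w11 w12 w22 g1 g2 ea eg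
  have hQ := alg_Q (y0 := Y t 0 0) (y1 := Y t 1 0) (y2 := Y t 2 0) (w00.trans hμ2)
    (w11.trans hμ2) (w12.trans hμ2) (w22.trans hμ2) (g1.trans (ho1.trans heτ))
    (g2.trans (ho1.trans heτ)) rfl
  have hgg : gg Y H t = (UU Y H t 1 1 - 1) + (UU Y H t 2 2 - 1) := by unfold gg; ring
  have haa : aa Y H t = UU Y H t 0 0 - 2 := rfl
  have hgb : |gg Y H t| ≤ 2 * μ := by
    rw [hgg]; linarith [abs_add_le (UU Y H t 1 1 - 1) (UU Y H t 2 2 - 1)]
  have q1 : μ ^ 2 ≤ 2 / 25 * μ := by rw [pow_two]; exact mul_le_mul_of_nonneg_right hμ2 hμ0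
  have q2 : o * μ ≤ 1 / 100 * μ := mul_le_mul_of_nonneg_right (ho1.trans heτ) hμ0
  refine ⟨_, _, _, 2 * (2 + aa Y H t - 2 * (Om t 0 1 ^ 2 + Om t 0 2 ^ 2)), da, dg,
    dQ.congr_deriv ?_, dd.congr_deriv ?_, w00.trans hμ.le,
    hgb.trans (by rw [hμ]), ?_, ?_, hQ.1, hQ.2, ?_⟩
  · simp only [Matrix.sub_apply, Matrix.mul_apply, Fin.sum_univ_three,
      o1, o2, o3, o4, o5, o6, s10, s20, s21]
    push_cast
    ring
  · simp only [Matrix.sub_apply, o1, o2, o3]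
    unfold aa gg
    ring
  · rw [ea]
    have := abs_le.1 E.2
    have := abs_le.1 w00
    rw [abs_le]
    constructor <;> linarith
  · rw [eg, ← hgg]
    have := abs_le.1 E.1
    have := abs_le.1 hgb
    rw [abs_le]
    constructor <;> linarith
  · rw [← hgg, ← haa] at M
    have r1 : μ ^ 2 ≤ (8 * e * τ) ^ 2 := pow_le_pow_left₀ hμ0 hμ1 2
    have r2 : μ ^ 3 ≤ 256 * e ^ 2 * τ ^ 2 * mm b t := by
      have : μ ≤ 4 * mm b t := by
        rw [hμ]
        exact mul_le_mul_of_nonneg_right (by linarith only [he]) hm0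
      calc μ ^ 3 = μ ^ 2 * μ := by ring
        _ ≤ (8 * e * τ) ^ 2 * (4 * mm b t) := mul_le_mul r1 this hμ0 (by positivity)
        _ = _ := by ring
    have r3 : o * μ ^ 2 ≤ e ^ 2 * τ ^ 2 * b t := by
      have : o ≤ 1 / 100 * b t := by rw [ho]; exact mul_le_mul_of_nonneg_right heτ hb0
      calc o * μ ^ 2 ≤ (1 / 100 * b t) * (8 * e * τ) ^ 2 :=
            mul_le_mul this r1 (by positivity) (by positivity)
        _ = 64 / 100 * (e ^ 2 * τ ^ 2 * b t) := by ring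
        _ ≤ _ := by linarith only [show 0 ≤ e ^ 2 * τ ^ 2 * b t by positivity]
    have r4 : o ^ 2 ≤ e ^ 2 * τ ^ 2 * b t := by
      calc o ^ 2 = o * o := by ring
        _ ≤ (e * τ) * o := mul_le_mul_of_nonneg_right ho1 ho0
        _ = _ := by rw [ho]; ring
    linarith

lemma Q_pos {e τ R : ℝ} {b : ℝ → ℝ} {K Om Y H : ℝ → M3} (hJ : JacSys K Om Y H)
    (hS : SmallPert e τ R b K Om) (he0 : 0 ≤ e) (he : e ≤ 1) (hτ0 : 0 < τ) (hτ : τ ≤ 1 / 100)
    (hR : 2 ≤ R) {T : ℝ} (hT : 0 ≤ T) : 0 < QQ Y T := by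
  have := gron (f := fun t => Real.exp (7 / 2 * t) - QQ Y t) (c := fun _ => 7 / 2)
    continuous_const (by simp [QQ, hJ.Y0]) hT (fun t ht => by
      obtain ⟨a', g', Q', l, -, -, h3, -, -, -, -, -, h9, -⟩ := point hJ hS he0 he hτ0 hτ hR ht.1
      refine ⟨_, ((hasDerivAt_id t).const_mul (7 / 2)).exp.sub h3, ?_⟩
      simp only [id]
      linarith)
  linarith [Real.exp_pos (7 / 2 * T)]

/-- the corrected functional -/
noncomputable def GG (e τ : ℝ) (b : ℝ → ℝ) (Y H : ℝ → M3) (s : ℝ) : ℝ :=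
  Real.log (QQ Y s) - Real.log (Y s).det + 1 / 4 * (aa Y H s - 2 * gg Y H s) +
    1 / 16 * gg Y H s ^ 2 - 1 / 32 * aa Y H s ^ 2 - 512 * e ^ 2 * τ ^ 2 * mm b s

lemma GG_deriv {e τ R : ℝ} {b : ℝ → ℝ} {K Om Y H : ℝ → M3} (hJ : JacSys K Om Y H)
    (hS : SmallPert e τ R b K Om) (he0 : 0 ≤ e) (he : e ≤ 1) (hτ0 : 0 < τ) (hτ : τ ≤ 1 / 100)
    (hR : 2 ≤ R) {t : ℝ} (ht : 0 ≤ t) :
    ∃ d, HasDerivAt (GG e τ b Y H) d t ∧
      1 / 4 * ((K t 0 0 - 4) - 2 * (K t 1 1 + K t 2 2 - 2)) +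
          1 / 8 * (K t 1 1 + K t 2 2 - 2) * gg Y H t - 1 / 16 * (K t 0 0 - 4) * aa Y H t -
          527 * e ^ 2 * τ ^ 2 * b t ≤ d := by
  obtain ⟨a', g', Q', l, h1, h2, h3, h4, -, -, -, -, -, h10, h11⟩ :=
    point hJ hS he0 he hτ0 hτ hR ht
  have hQ := Q_pos hJ hS he0 he hτ0 hτ hR ht
  have hd := (cone_of_small hJ hS he0 he hτ0 hτ hR).det_pos t ht
  have h := (((((h3.log hQ.ne').fun_sub (h4.log hd.ne')).fun_add
    ((h1.fun_sub (h2.const_mul 2)).const_mul (1 / 4))).fun_add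
    ((h2.fun_pow 2).const_mul (1 / 16))).fun_sub ((h1.fun_pow 2).const_mul (1 / 32))).fun_sub
    ((mm_deriv hS.bc t).const_mul (512 * e ^ 2 * τ ^ 2))
  refine ⟨_, h, ?_⟩
  have e1 : l ≤ Q' / QQ Y t := by rwa [le_div_iff₀ hQ]
  rw [mul_div_assoc, div_self hd.ne']
  push_cast
  linarith

lemma K_bounds {e τ R : ℝ} {b : ℝ → ℝ} {K Om : ℝ → M3} (hS : SmallPert e τ R b K Om) (t : ℝ) :
    |K t 0 0 - 4| ≤ e * b t ∧ |K t 1 1 + K t 2 2 - 2| ≤ 2 * (e * b t) := by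
  have h0 := hS.Kb t 0 0
  have h1 := hS.Kb t 1 1
  have h2 := hS.Kb t 2 2
  simp only [Matrix.sub_apply, K0, Matrix.diagonal_apply_eq, Matrix.cons_val_zero,
    Matrix.cons_val_one, Matrix.cons_val] at h0 h1 h2
  refine ⟨h0, ?_⟩
  have := abs_add_le (K t 1 1 - 1) (K t 2 2 - 1)
  rw [show K t 1 1 - 1 + (K t 2 2 - 1) = K t 1 1 + K t 2 2 - 2 by ring] at this
  linarith

end OdeC

open OdeC in
theorem core_ineq (η : ℝ) (hη : 0 < η) : ∃ τ₀ R₀ C : ℝ, 0 < τ₀ ∧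
    ∀ (e τ R : ℝ) (b : ℝ → ℝ) (K Om Y H : ℝ → M3), 0 ≤ e → e ≤ 1 → 0 < τ → τ ≤ τ₀ → R₀ ≤ R →
      JacSys K Om Y H → SmallPert e τ R b K Om → ∀ T : ℝ, 0 ≤ T →
        (∫ t in (0 : ℝ)..T, Psi η e τ b K t) - C ≤
          2 * Real.log (fro (Y T)) - Real.log (Y T).det := by
  refine ⟨min (1 / 100) (η / 1100), max 2 (1 - Real.log (η / 10)), 2, by positivity, ?_⟩
  intro e τ R b K Om Y H he0 he hτ0 hτ' hR' hJ hS T hT
  have hτ : τ ≤ 1 / 100 := hτ'.trans (min_le_left _ _)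
  have hτη : τ ≤ η / 1100 := hτ'.trans (min_le_right _ _)
  have hR : 2 ≤ R := (le_max_left _ _).trans hR'
  have hE : Real.exp (τ - R) ≤ η / 10 := by
    rw [← Real.le_log_iff_exp_le (by positivity)]
    linarith [(le_max_right _ _).trans hR']
  have hKc : ∀ i j, Continuous fun t => K t i j := fun i j =>
    (continuous_apply j).comp ((continuous_apply i).comp hJ.Kc)
  have c1 : Continuous fun t => K t 0 0 - 4 := (hKc 0 0).sub continuous_const
  have cw : Continuous fun t => K t 1 1 + K t 2 2 - 2 :=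
    ((hKc 1 1).add (hKc 2 2)).sub continuous_const
  have hPsi : Continuous (Psi η e τ b K) := by
    have s1 := slide_cont c1 τ
    have sw := slide_cont cw τ
    have hb := hS.bc
    exact ((((continuous_const.mul cw).mul sw).sub ((continuous_const.mul c1).mul s1)).add
      (continuous_const.mul (c1.sub (continuous_const.mul cw)))).sub (continuous_const.mul hb)
  have heτ : e * τ ≤ 1 / 100 := by nlinarith
  have heτ0 : 0 ≤ e * τ := by positivity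
  have hab : ∀ t, 0 ≤ t → |aa Y H t| ≤ 4 * e * mm b t ∧ |gg Y H t| ≤ 2 * (4 * e * mm b t) := by
    intro t ht
    obtain ⟨a', g', Q', l, -, -, -, -, h5, h6, -⟩ := point hJ hS he0 he hτ0 hτ hR ht
    exact ⟨h5, h6⟩
  have hab2 : ∀ t, 0 ≤ t → |aa Y H t| ≤ 2 / 25 ∧ |gg Y H t| ≤ 4 / 25 := by
    intro t ht
    have := hab t ht
    have := mu_le hS he0 hτ0 hR ht
    constructor <;> linarith
  have hdiff : ∀ t, 0 ≤ t → ∃ d, HasDerivAt
      (fun s => GG e τ b Y H s - ∫ x in (0 : ℝ)..s, Psi η e τ b K x) d t ∧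
      1 / 8 * ((K t 1 1 + K t 2 2 - 2) *
          (gg Y H t - ∫ s in (t - τ)..t, (K s 1 1 + K s 2 2 - 2))) -
        1 / 16 * ((K t 0 0 - 4) * (aa Y H t - ∫ s in (t - τ)..t, (K s 0 0 - 4))) +
        (η - 527 * τ) * (e ^ 2 * τ * b t) ≤ d := by
    intro t ht
    obtain ⟨d, h1, h2⟩ := GG_deriv hJ hS he0 he hτ0 hτ hR ht
    refine ⟨_, h1.fun_sub (prim hPsi 0 t), ?_⟩
    unfold Psi
    linarith
  have heb : ∀ t, e * b t ≤ 1 := fun t => by nlinarith [hS.b0 t, hS.b1 t]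
  have hearly : ∀ t, 0 ≤ t → ∃ d, HasDerivAt
      (fun s => GG e τ b Y H s - ∫ x in (0 : ℝ)..s, Psi η e τ b K x) d t ∧ -1 ≤ d := by
    intro t ht
    obtain ⟨d, h1, h2⟩ := hdiff t ht
    refine ⟨d, h1, le_trans ?_ h2⟩
    have k1 : ∀ s, |K s 0 0 - 4| ≤ 1 := fun s => (K_bounds hS s).1.trans (heb s)
    have kw : ∀ s, |K s 1 1 + K s 2 2 - 2| ≤ 2 := fun s => by
      linarith [(K_bounds hS s).2, heb s]
    have i1 := slide_le hτ0.le k1 t
    have iw := slide_le hτ0.le kw t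
    have j1 : |aa Y H t - ∫ s in (t - τ)..t, (K s 0 0 - 4)| ≤ 1 := by
      linarith [abs_sub (aa Y H t) (∫ s in (t - τ)..t, (K s 0 0 - 4)), (hab2 t ht).1]
    have jw : |gg Y H t - ∫ s in (t - τ)..t, (K s 1 1 + K s 2 2 - 2)| ≤ 1 := by
      linarith [abs_sub (gg Y H t) (∫ s in (t - τ)..t, (K s 1 1 + K s 2 2 - 2)), (hab2 t ht).2]
    have m1 := abs_le.1 (abs_mul_le' (k1 t) j1)
    have mw := abs_le.1 (abs_mul_le' (kw t) jw)
    have : 0 ≤ (η - 527 * τ) * (e ^ 2 * τ * b t) := by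
      have := hS.b0 t
      apply mul_nonneg (by linarith) (by positivity)
    linarith
  have hlate : ∀ t, τ ≤ t → ∃ d, HasDerivAt
      (fun s => GG e τ b Y H s - ∫ x in (0 : ℝ)..s, Psi η e τ b K x) d t ∧ 0 ≤ d := by
    intro t ht
    obtain ⟨d, h1, h2⟩ := hdiff t (by linarith)
    refine ⟨d, h1, le_trans ?_ h2⟩
    obtain ⟨k1, kw⟩ := K_bounds hS t
    by_cases hb : b t = 0
    · rw [hb, mul_zero] at k1 kw
      have z1 : K t 0 0 - 4 = 0 := abs_nonpos_iff.1 k1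
      have zw : K t 1 1 + K t 2 2 - 2 = 0 := abs_nonpos_iff.1 (by linarith)
      rw [z1, zw, hb]
      simp
    have hm := mm_before hS hτ0 (by linarith) hR ht hb
    have hb0 := hS.b0 t
    obtain ⟨p1, pw⟩ := hab (t - τ) (by linarith)
    have j1 := cmp (g := aa Y H) c1 (s := t - τ) (t := t) (L := 40 * e * τ) (by linarith)
      (fun x hx => by
        obtain ⟨a', g', Q', l, h1, -, -, -, -, -, h7, -⟩ :=
          point hJ hS he0 he hτ0 hτ hR (t := x) (by linarith [hx.1])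
        exact ⟨a', h1, h7⟩)
    have jw := cmp (g := gg Y H) cw (s := t - τ) (t := t) (L := 40 * e * τ) (by linarith)
      (fun x hx => by
        obtain ⟨a', g', Q', l, -, h2, -, -, -, -, -, h8, -⟩ :=
          point hJ hS he0 he hτ0 hτ hR (t := x) (by linarith [hx.1])
        exact ⟨g', h2, h8⟩)
    rw [sub_sub_cancel] at j1 jw
    have hm2 : 4 * e * mm b (t - τ) ≤ 8 * (e * τ) * (η / 10) := by
      calc 4 * e * mm b (t - τ) ≤ 4 * e * (2 * τ * (η / 10)) := by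
            apply mul_le_mul_of_nonneg_left _ (by positivity)
            exact hm.trans (mul_le_mul_of_nonneg_left hE (by positivity))
        _ = _ := by ring
    have hm3 : 40 * e * τ * τ ≤ 40 * (e * τ) * (η / 1100) := by
      calc 40 * e * τ * τ = 40 * (e * τ) * τ := by ring
        _ ≤ _ := mul_le_mul_of_nonneg_left hτη (by positivity)
    have hx : 0 ≤ e * τ * η := by positivity
    have l1 : |aa Y H t - ∫ s in (t - τ)..t, (K s 0 0 - 4)| ≤ e * τ * η := by linarith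
    have lw : |gg Y H t - ∫ s in (t - τ)..t, (K s 1 1 + K s 2 2 - 2)| ≤ 17 / 10 * (e * τ * η) := by
      linarith
    have m1 := abs_le.1 (abs_mul_le' k1 l1)
    have mw := abs_le.1 (abs_mul_le' kw lw)
    have hy : 0 ≤ e ^ 2 * τ * b t := by positivity
    have hz : η / 2 * (e ^ 2 * τ * b t) ≤ (η - 527 * τ) * (e ^ 2 * τ * b t) :=
      mul_le_mul_of_nonneg_right (by linarith) hy
    have hw : 0 ≤ η * (e ^ 2 * τ * b t) := by positivity
    linarith only [hw, hz, m1.2, mw.1]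
  have hG0 : GG e τ b Y H 0 = 0 := by
    simp [GG, QQ, aa, gg, UU, mm_zero, hJ.Y0, hJ.H0, U0]
    norm_num
  have hJT : -1 ≤ GG e τ b Y H T - ∫ x in (0 : ℝ)..T, Psi η e τ b K x := by
    rcases le_total T τ with h | h
    · have := mono hT (fun t ht => hearly t ht.1)
      simp only [hG0, intervalIntegral.integral_same] at this
      linarith
    · have h1 := mono hτ0.le (fun t ht => hearly t ht.1)
      have h2 := mono h (fun t ht => hlate t ht.1)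
      simp only [hG0, intervalIntegral.integral_same] at h1
      linarith
  have hQ := Q_pos hJ hS he0 he hτ0 hτ hR hT
  have hfro : Real.log (QQ Y T) ≤ 2 * Real.log (fro (Y T)) := by
    have h1 : QQ Y T ≤ ∑ i, ∑ j, Y T i j ^ 2 := by
      simp only [QQ, Fin.sum_univ_three]
      nlinarith [sq_nonneg (Y T 0 1), sq_nonneg (Y T 0 2), sq_nonneg (Y T 1 0), sq_nonneg (Y T 1 1),
        sq_nonneg (Y T 1 2), sq_nonneg (Y T 2 0), sq_nonneg (Y T 2 1), sq_nonneg (Y T 2 2)]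
    unfold fro
    rw [Real.log_sqrt (by linarith)]
    linarith [Real.log_le_log hQ h1]
  obtain ⟨b1, b2⟩ := hab2 T hT
  have b3 : gg Y H T ^ 2 ≤ (4 / 25) ^ 2 := sq_le_sq' (abs_le.1 b2).1 (abs_le.1 b2).2
  have b4 : 0 ≤ 512 * e ^ 2 * τ ^ 2 * mm b T := by have := mm_nonneg hS.b0 hT; positivity
  unfold GG at hJT
  rw [abs_le] at b1 b2
  linarith only [sq_nonneg (aa Y H T), b1.2, b2.1, b3, b4, hJT, hfro]

end Pool.Agent.MP_019006_gt
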