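import Pool.Agent.MP_019006_gt.OdeExp2

set_option autoImplicit false

open MeasureTheory Filter Topology Set Matrix

namespace Pool.Agent.MP_019006_gt

namespace OE

theorem fro_sq (A : M3) : fro A ^ 2 = (A 0 0 ^ 2 + A 1 0 ^ 2 + A 2 0 ^ 2) +
    (A 0 1 ^ 2 + A 1 1 ^ 2 + A 2 1 ^ 2) + (A 0 2 ^ 2 + A 1 2 ^ 2 + A 2 2 ^ 2) := by
  unfold fro
  rw [Real.sq_sqrt (by positivity)]
  simp only [Fin.sum_univ_three]; ring

theorem nsq_nonneg (u : Fin 3 → ℝ) : 0 ≤ nsq u := by unfold nsq; positivity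

theorem cs (a b c x y z : ℝ) :
    (a * x + b * y + c * z) ^ 2 ≤ (a ^ 2 + b ^ 2 + c ^ 2) * (x ^ 2 + y ^ 2 + z ^ 2) := by
  nlinarith [sq_nonneg (a * y - b * x), sq_nonneg (a * z - c * x), sq_nonneg (b * z - c * y)]

theorem nsq_mulVec_le (B : M3) (u : Fin 3 → ℝ) : nsq (B *ᵥ u) ≤ fro B ^ 2 * nsq u := by
  rw [fro_sq]
  simp only [nsq, mv]
  have h0 := cs (B 0 0) (B 0 1) (B 0 2) (u 0) (u 1) (u 2)
  have h1 := cs (B 1 0) (B 1 1) (B 1 2) (u 0) (u 1) (u 2)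
  have h2 := cs (B 2 0) (B 2 1) (B 2 2) (u 0) (u 1) (u 2)
  linarith

theorem cross_le (p0 p1 p2 q0 q1 q2 : ℝ) :
    (p1 * q2 - p2 * q1) ^ 2 + (p2 * q0 - p0 * q2) ^ 2 + (p0 * q1 - p1 * q0) ^ 2 ≤
      (p0 ^ 2 + p1 ^ 2 + p2 ^ 2) * (q0 ^ 2 + q1 ^ 2 + q2 ^ 2) := by
  nlinarith [sq_nonneg (p0 * q0 + p1 * q1 + p2 * q2)]

theorem normal_bd (p0 p1 p2 q0 q1 q2 : ℝ)
    (h : ∀ x y : ℝ, (x * p0 + y * q0) ^ 2 - (x * p1 + y * q1) ^ 2 - (x * p2 + y * q2) ^ 2 ≤ 0) :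
    (p2 * q0 - p0 * q2) ^ 2 + (p0 * q1 - p1 * q0) ^ 2 ≤ (p1 * q2 - p2 * q1) ^ 2 := by
  have h1 := h (-(q1 * (p0 * q1 - p1 * q0) - q2 * (p2 * q0 - p0 * q2)))
    (p1 * (p0 * q1 - p1 * q0) - p2 * (p2 * q0 - p0 * q2))
  have e : (-(q1 * (p0 * q1 - p1 * q0) - q2 * (p2 * q0 - p0 * q2)) * p0 +
      (p1 * (p0 * q1 - p1 * q0) - p2 * (p2 * q0 - p0 * q2)) * q0) ^ 2 -
      (-(q1 * (p0 * q1 - p1 * q0) - q2 * (p2 * q0 - p0 * q2)) * p1 +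
      (p1 * (p0 * q1 - p1 * q0) - p2 * (p2 * q0 - p0 * q2)) * q1) ^ 2 -
      (-(q1 * (p0 * q1 - p1 * q0) - q2 * (p2 * q0 - p0 * q2)) * p2 +
      (p1 * (p0 * q1 - p1 * q0) - p2 * (p2 * q0 - p0 * q2)) * q2) ^ 2 =
      ((p2 * q0 - p0 * q2) ^ 2 + (p0 * q1 - p1 * q0) ^ 2) *
        (((p2 * q0 - p0 * q2) ^ 2 + (p0 * q1 - p1 * q0) ^ 2) - (p1 * q2 - p2 * q1) ^ 2) := by
    ring
  rw [e] at h1
  by_contra hh
  push Not at hh
  have h2 : 0 < (p2 * q0 - p0 * q2) ^ 2 + (p0 * q1 - p1 * q0) ^ 2 :=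
    lt_of_le_of_lt (sq_nonneg _) hh
  have := mul_pos h2 (sub_pos.mpr hh)
  linarith

theorem trans_bd (f0 f1 f2 N0 N1 N2 : ℝ) (hf : f1 ^ 2 + f2 ^ 2 < 1 / 4 * f0 ^ 2)
    (hN : N1 ^ 2 + N2 ^ 2 ≤ N0 ^ 2) :
    f0 ^ 2 * (N0 ^ 2 + N1 ^ 2 + N2 ^ 2) ≤ 8 * (f0 * N0 + f1 * N1 + f2 * N2) ^ 2 := by
  have h1 : (f1 * N1 + f2 * N2) ^ 2 ≤ (f1 ^ 2 + f2 ^ 2) * (N1 ^ 2 + N2 ^ 2) := by
    nlinarith [sq_nonneg (f1 * N2 - f2 * N1)]
  have h2 : (f1 ^ 2 + f2 ^ 2) * (N1 ^ 2 + N2 ^ 2) ≤ (1 / 4 * f0 ^ 2) * N0 ^ 2 :=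
    mul_le_mul hf.le hN (by positivity) (by positivity)
  have h3 : f0 ^ 2 * (N1 ^ 2 + N2 ^ 2) ≤ f0 ^ 2 * N0 ^ 2 :=
    mul_le_mul_of_nonneg_left hN (by positivity)
  have h4 : (f0 * N0) ^ 2 ≤ 4 * (f0 * N0 + (f1 * N1 + f2 * N2)) ^ 2 := by
    nlinarith [sq_nonneg (f0 * N0 + 2 * (f1 * N1 + f2 * N2))]
  nlinarith

theorem inv_bd (f0 f1 f2 p0 p1 p2 q0 q1 q2 a x y : ℝ) (hf : f1 ^ 2 + f2 ^ 2 < 1 / 4 * f0 ^ 2)
    (hE : p0 ^ 2 + p1 ^ 2 + p2 ^ 2 ≤ 15 * f0 ^ 2)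
    (hN : (p2 * q0 - p0 * q2) ^ 2 + (p0 * q1 - p1 * q0) ^ 2 ≤ (p1 * q2 - p2 * q1) ^ 2) :
    ((p1 * q2 - p2 * q1) ^ 2 + (p2 * q0 - p0 * q2) ^ 2 + (p0 * q1 - p1 * q0) ^ 2) *
      (3 * a ^ 2 + 4 * (x ^ 2 + y ^ 2)) ≤
      400 * ((p0 ^ 2 + p1 ^ 2 + p2 ^ 2) + (q0 ^ 2 + q1 ^ 2 + q2 ^ 2)) *
        ((a * f0 + x * p0 + y * q0) ^ 2 + (a * f1 + x * p1 + y * q1) ^ 2 +
          (a * f2 + x * p2 + y * q2) ^ 2) := by
  have f0p : 0 < f0 ^ 2 := by nlinarith [sq_nonneg f1, sq_nonneg f2]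
  have t1 := trans_bd f0 f1 f2 _ _ _ hf hN
  have c1 := cs (a * f0 + x * p0 + y * q0) (a * f1 + x * p1 + y * q1) (a * f2 + x * p2 + y * q2)
    (p1 * q2 - p2 * q1) (p2 * q0 - p0 * q2) (p0 * q1 - p1 * q0)
  have c2 := cs (a * f0 + x * p0 + y * q0) (a * f1 + x * p1 + y * q1) (a * f2 + x * p2 + y * q2)
    (q1 * f2 - q2 * f1) (q2 * f0 - q0 * f2) (q0 * f1 - q1 * f0)
  have c3 := cs (a * f0 + x * p0 + y * q0) (a * f1 + x * p1 + y * q1) (a * f2 + x * p2 + y * q2)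
    (f1 * p2 - f2 * p1) (f2 * p0 - f0 * p2) (f0 * p1 - f1 * p0)
  have d1 := cross_le p0 p1 p2 q0 q1 q2
  have d2 := cross_le q0 q1 q2 f0 f1 f2
  have d3 := cross_le f0 f1 f2 p0 p1 p2
  have e1 : (a * f0 + x * p0 + y * q0) * (p1 * q2 - p2 * q1) +
      (a * f1 + x * p1 + y * q1) * (p2 * q0 - p0 * q2) +
      (a * f2 + x * p2 + y * q2) * (p0 * q1 - p1 * q0) =
      a * (f0 * (p1 * q2 - p2 * q1) + f1 * (p2 * q0 - p0 * q2) + f2 * (p0 * q1 - p1 * q0)) := by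
    ring
  have e2 : (a * f0 + x * p0 + y * q0) * (q1 * f2 - q2 * f1) +
      (a * f1 + x * p1 + y * q1) * (q2 * f0 - q0 * f2) +
      (a * f2 + x * p2 + y * q2) * (q0 * f1 - q1 * f0) =
      x * (f0 * (p1 * q2 - p2 * q1) + f1 * (p2 * q0 - p0 * q2) + f2 * (p0 * q1 - p1 * q0)) := by
    ring
  have e3 : (a * f0 + x * p0 + y * q0) * (f1 * p2 - f2 * p1) +
      (a * f1 + x * p1 + y * q1) * (f2 * p0 - f0 * p2) +
      (a * f2 + x * p2 + y * q2) * (f0 * p1 - f1 * p0) =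
      y * (f0 * (p1 * q2 - p2 * q1) + f1 * (p2 * q0 - p0 * q2) + f2 * (p0 * q1 - p1 * q0)) := by
    ring
  rw [e1, mul_pow] at c1
  rw [e2, mul_pow] at c2
  rw [e3, mul_pow] at c3
  generalize f0 * (p1 * q2 - p2 * q1) + f1 * (p2 * q0 - p0 * q2) + f2 * (p0 * q1 - p1 * q0) = Δ
    at *
  have Z0 : 0 ≤ (a * f0 + x * p0 + y * q0) ^ 2 + (a * f1 + x * p1 + y * q1) ^ 2 +
    (a * f2 + x * p2 + y * q2) ^ 2 := by positivity
  generalize (a * f0 + x * p0 + y * q0) ^ 2 + (a * f1 + x * p1 + y * q1) ^ 2 +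
    (a * f2 + x * p2 + y * q2) ^ 2 = Z at *
  have D0 : 0 ≤ (p1 * q2 - p2 * q1) ^ 2 + (p2 * q0 - p0 * q2) ^ 2 + (p0 * q1 - p1 * q0) ^ 2 := by
    positivity
  clear hN e1 e2 e3
  generalize (p1 * q2 - p2 * q1) ^ 2 + (p2 * q0 - p0 * q2) ^ 2 + (p0 * q1 - p1 * q0) ^ 2 = D at *
  generalize (q1 * f2 - q2 * f1) ^ 2 + (q2 * f0 - q0 * f2) ^ 2 + (q0 * f1 - q1 * f0) ^ 2 = D2 at *
  generalize (f1 * p2 - f2 * p1) ^ 2 + (f2 * p0 - f0 * p2) ^ 2 + (f0 * p1 - f1 * p0) ^ 2 = D3 at *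
  have E0 : 0 ≤ p0 ^ 2 + p1 ^ 2 + p2 ^ 2 := by positivity
  have G0 : 0 ≤ q0 ^ 2 + q1 ^ 2 + q2 ^ 2 := by positivity
  generalize p0 ^ 2 + p1 ^ 2 + p2 ^ 2 = E at *
  generalize q0 ^ 2 + q1 ^ 2 + q2 ^ 2 = G at *
  have hφ : f0 ^ 2 + f1 ^ 2 + f2 ^ 2 ≤ 5 / 4 * f0 ^ 2 := by linarith
  generalize f0 ^ 2 + f1 ^ 2 + f2 ^ 2 = φ at *
  clear hf
  generalize f0 ^ 2 = w at *
  have a0 := sq_nonneg a
  have x0 := sq_nonneg x
  have y0 := sq_nonneg y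
  generalize a ^ 2 = A at *
  generalize x ^ 2 = X at *
  generalize y ^ 2 = V at *
  generalize Δ ^ 2 = S at *
  have g1 : D * (X + V) ≤ 10 * (E + G) * Z := by
    refine le_of_mul_le_mul_left ?_ f0p
    have k1 := mul_le_mul_of_nonneg_right t1 (add_nonneg x0 y0)
    have k2 := mul_le_mul_of_nonneg_left (d2.trans (mul_le_mul_of_nonneg_left hφ G0)) Z0
    have k3 := mul_le_mul_of_nonneg_left (d3.trans (mul_le_mul_of_nonneg_right hφ E0)) Z0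
    nlinarith
  have g2 : D * A ≤ 120 * (E + G) * Z := by
    refine le_of_mul_le_mul_left ?_ f0p
    have k1 := mul_le_mul_of_nonneg_right t1 a0
    have k2 : D ≤ 15 * w * (E + G) := by
      have := mul_le_mul_of_nonneg_right hE G0
      have := mul_nonneg f0p.le E0
      nlinarith
    have k3 := mul_le_mul_of_nonneg_left k2 Z0
    nlinarith
  nlinarith

/-- The vector of the slow plane with coordinates `x`, `y`. -/
def sv (α β x y : ℝ) : Fin 3 → ℝ := ![-(α * x + β * y), x, y]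

theorem mv_sv (A : M3) (α β x y : ℝ) (i : Fin 3) :
    (A *ᵥ sv α β x y) i = x * (A i 1 - α * A i 0) + y * (A i 2 - β * A i 0) := by
  rw [mv]; simp [sv]; ring

def fE (α : ℝ) (A : M3) : ℝ :=
  (A 0 1 - α * A 0 0) ^ 2 + (A 1 1 - α * A 1 0) ^ 2 + (A 2 1 - α * A 2 0) ^ 2

def fG (β : ℝ) (A : M3) : ℝ :=
  (A 0 2 - β * A 0 0) ^ 2 + (A 1 2 - β * A 1 0) ^ 2 + (A 2 2 - β * A 2 0) ^ 2

def fF (α β : ℝ) (A : M3) : ℝ :=
  (A 0 1 - α * A 0 0) * (A 0 2 - β * A 0 0) + (A 1 1 - α * A 1 0) * (A 1 2 - β * A 1 0) +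
    (A 2 1 - α * A 2 0) * (A 2 2 - β * A 2 0)

theorem nsq_sv (A : M3) (α β x y : ℝ) : nsq (A *ᵥ sv α β x y) =
    fE α A * x ^ 2 + 2 * fF α β A * x * y + fG β A * y ^ 2 := by
  simp only [nsq, mv_sv, fE, fF, fG]; ring

theorem lowT (E F G r : ℝ) (E0 : 0 ≤ E) (G0 : 0 ≤ G) (Dp : 0 < E * G - F ^ 2)
    (k : ∀ x y : ℝ, x ^ 2 + y ^ 2 ≤ r * (E * x ^ 2 + 2 * F * x * y + G * y ^ 2)) :
    E + G ≤ 2 * (r * (E * G - F ^ 2)) := by
  have k1 := k G (-F)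
  have k2 := k (-F) E
  have Tp : 0 < E + G := by
    rcases (add_nonneg E0 G0).eq_or_lt with h | h
    · have : E = 0 := by linarith
      rw [this] at Dp
      nlinarith [sq_nonneg F]
    · exact h
  refine le_of_mul_le_mul_left ?_ Tp
  nlinarith [sq_nonneg (E - G), sq_nonneg F]

theorem E_bd (f0 f1 f2 g0 g1 g2 α : ℝ) (hα : α ^ 2 ≤ 1) (hf : f1 ^ 2 + f2 ^ 2 < 1 / 4 * f0 ^ 2)
    (h1 : g0 ^ 2 + g1 ^ 2 + g2 ^ 2 ≤ 6 * f0 ^ 2) :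
    (g0 - α * f0) ^ 2 + (g1 - α * f1) ^ 2 + (g2 - α * f2) ^ 2 ≤ 15 * f0 ^ 2 := by
  have k : α ^ 2 * (f0 ^ 2 + f1 ^ 2 + f2 ^ 2) ≤ 1 * (5 / 4 * f0 ^ 2) :=
    mul_le_mul hα (by linarith) (by positivity) (by norm_num)
  have e : (g0 - α * f0) ^ 2 + (g1 - α * f1) ^ 2 + (g2 - α * f2) ^ 2 +
      ((g0 + α * f0) ^ 2 + (g1 + α * f1) ^ 2 + (g2 + α * f2) ^ 2) =
      2 * (g0 ^ 2 + g1 ^ 2 + g2 ^ 2) + 2 * (α ^ 2 * (f0 ^ 2 + f1 ^ 2 + f2 ^ 2)) := by ring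
  linarith [sq_nonneg (g0 + α * f0), sq_nonneg (g1 + α * f1), sq_nonneg (g2 + α * f2),
    sq_nonneg f0]

theorem split_bd (a x y α β : ℝ) (hα : α ^ 2 ≤ 1) (hβ : β ^ 2 ≤ 1) :
    a ^ 2 + x ^ 2 + y ^ 2 ≤ 3 * (a + α * x + β * y) ^ 2 + 4 * (x ^ 2 + y ^ 2) := by
  have m1 := mul_le_mul_of_nonneg_right hα (sq_nonneg x)
  have m2 := mul_le_mul_of_nonneg_right hβ (sq_nonneg y)
  have e : 3 * (a + α * x + β * y) ^ 2 + 3 * (α ^ 2 * x ^ 2) + 3 * (β ^ 2 * y ^ 2) =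
      a ^ 2 + (a + α * x + β * y + α * x) ^ 2 + (a + α * x + β * y + β * y) ^ 2 +
        (α * x - β * y) ^ 2 := by ring
  linarith [sq_nonneg (a + α * x + β * y + α * x), sq_nonneg (a + α * x + β * y + β * y),
    sq_nonneg (α * x - β * y)]

theorem fixed_time (A : M3) (α β : ℝ) (hα : α ^ 2 ≤ 1) (hβ : β ^ 2 ≤ 1) (hdet : 0 < A.det)
    (hf : A 1 0 ^ 2 + A 2 0 ^ 2 < 1 / 4 * A 0 0 ^ 2)
    (h1 : A 0 1 ^ 2 + A 1 1 ^ 2 + A 2 1 ^ 2 ≤ 6 * A 0 0 ^ 2)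
    (hs : ∀ x y : ℝ, Qk 1 (A *ᵥ sv α β x y) ≤ 0) :
    4 / 5 * (A.det ^ 2 / A 0 0 ^ 2) ≤ fE α A * fG β A - fF α β A ^ 2 ∧
    fE α A * fG β A - fF α β A ^ 2 ≤ 8 * (A.det ^ 2 / A 0 0 ^ 2) ∧
    1 / 1200 * (fro A⁻¹ ^ 2 * (fE α A * fG β A - fF α β A ^ 2)) ≤ fE α A + fG β A ∧
    fE α A + fG β A ≤ 2 * (fro A⁻¹ ^ 2 * (fE α A * fG β A - fF α β A ^ 2)) := by
  have f0p : 0 < A 0 0 ^ 2 := by nlinarith [sq_nonneg (A 1 0), sq_nonneg (A 2 0)]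
  set p0 := A 0 1 - α * A 0 0 with hp0
  set p1 := A 1 1 - α * A 1 0 with hp1
  set p2 := A 2 1 - α * A 2 0 with hp2
  set q0 := A 0 2 - β * A 0 0 with hq0
  set q1 := A 1 2 - β * A 1 0 with hq1
  set q2 := A 2 2 - β * A 2 0 with hq2
  have hN := normal_bd p0 p1 p2 q0 q1 q2 fun x y => by
    have := hs x y
    simp only [Qk, mv_sv, one_mul] at this
    exact this
  have hD : fE α A * fG β A - fF α β A ^ 2 =
      (p1 * q2 - p2 * q1) ^ 2 + (p2 * q0 - p0 * q2) ^ 2 + (p0 * q1 - p1 * q0) ^ 2 := by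
    simp only [fE, fF, fG, hp0, hp1, hp2, hq0, hq1, hq2]; ring
  have hΔ : A.det = A 0 0 * (p1 * q2 - p2 * q1) + A 1 0 * (p2 * q0 - p0 * q2) +
      A 2 0 * (p0 * q1 - p1 * q0) := by
    rw [Matrix.det_fin_three]
    simp only [hp0, hp1, hp2, hq0, hq1, hq2]; ring
  have hEb : p0 ^ 2 + p1 ^ 2 + p2 ^ 2 ≤ 15 * A 0 0 ^ 2 := E_bd _ _ _ _ _ _ α hα hf h1
  have t1 := trans_bd (A 0 0) (A 1 0) (A 2 0) _ _ _ hf hN
  have t2 := cs (A 0 0) (A 1 0) (A 2 0) (p1 * q2 - p2 * q1) (p2 * q0 - p0 * q2) (p0 * q1 - p1 * q0)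
  rw [← hΔ, ← hD] at t1 t2
  have D0 : 0 ≤ fE α A * fG β A - fF α β A ^ 2 := by rw [hD]; positivity
  have hU : IsUnit A.det := isUnit_iff_ne_zero.mpr hdet.ne'
  have hinv : ∀ u : Fin 3 → ℝ, (fE α A * fG β A - fF α β A ^ 2) * nsq u ≤
      400 * (fE α A + fG β A) * nsq (A *ᵥ u) := by
    intro u
    have k := inv_bd (A 0 0) (A 1 0) (A 2 0) p0 p1 p2 q0 q1 q2 (u 0 + α * u 1 + β * u 2) (u 1) (u 2)
      hf hEb hN
    rw [← hD] at k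
    have k2 : nsq u ≤ 3 * (u 0 + α * u 1 + β * u 2) ^ 2 + 4 * (u 1 ^ 2 + u 2 ^ 2) :=
      split_bd (u 0) (u 1) (u 2) α β hα hβ
    refine (mul_le_mul_of_nonneg_left k2 D0).trans (k.trans (le_of_eq ?_))
    simp only [nsq, mv, fE, fG, hp0, hp1, hp2, hq0, hq1, hq2]; ring
  refine ⟨?_, ?_, ?_, ?_⟩
  · rw [← mul_div_assoc, div_le_iff₀ f0p]
    have := mul_le_mul_of_nonneg_right
      (show A 0 0 ^ 2 + A 1 0 ^ 2 + A 2 0 ^ 2 ≤ 5 / 4 * A 0 0 ^ 2 by linarith) D0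
    linarith
  · rw [← mul_div_assoc, le_div_iff₀ f0p]; linarith
  · have k : ∀ v : Fin 3 → ℝ, (fE α A * fG β A - fF α β A ^ 2) * nsq (A⁻¹ *ᵥ v) ≤
        400 * (fE α A + fG β A) * nsq v := by
      intro v
      have := hinv (A⁻¹ *ᵥ v)
      rwa [Matrix.mulVec_mulVec, Matrix.mul_nonsing_inv A hU, Matrix.one_mulVec] at this
    have k0 := k ![1, 0, 0]
    have k1 := k ![0, 1, 0]
    have k2 := k ![0, 0, 1]
    simp only [nsq, mv] at k0 k1 k2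
    simp at k0 k1 k2
    rw [fro_sq]
    linarith
  · have k : ∀ x y : ℝ, x ^ 2 + y ^ 2 ≤
        fro A⁻¹ ^ 2 * (fE α A * x ^ 2 + 2 * fF α β A * x * y + fG β A * y ^ 2) := by
      intro x y
      have := nsq_mulVec_le A⁻¹ (A *ᵥ sv α β x y)
      rw [Matrix.mulVec_mulVec, Matrix.nonsing_inv_mul A hU, Matrix.one_mulVec, nsq_sv] at this
      refine le_trans ?_ this
      simp only [nsq, sv]
      simp
      positivity
    have Dp : 0 < fE α A * fG β A - fF α β A ^ 2 := by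
      rcases D0.eq_or_lt with h | h
      · rw [← h, mul_zero] at t2
        exact absurd t2 (not_le.mpr (pow_pos hdet 2))
      · exact h
    exact lowT _ _ _ _ (by unfold fE; positivity) (by unfold fG; positivity) Dp k

variable {K Om Y H : ℝ → M3}

theorem H_le (hC : Cone K Om Y H) {t : ℝ} (ht : 0 ≤ t) (u : Fin 3 → ℝ) :
    nsq (H t *ᵥ u) ≤ 9 * nsq (Y t *ᵥ u) := by
  have h := hC.cone t ht u
  rw [Matrix.sub_mulVec, ← Matrix.mulVec_mulVec] at h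
  simp only [nsq, Pi.sub_apply, U0, Matrix.mulVec_diagonal] at h ⊢
  simp at h
  nlinarith [sq_nonneg ((H t *ᵥ u) 0 - 4 * (Y t *ᵥ u) 0), sq_nonneg ((H t *ᵥ u) 1 - 2 * (Y t *ᵥ u) 1),
    sq_nonneg ((H t *ᵥ u) 2 - 2 * (Y t *ᵥ u) 2), sq_nonneg ((Y t *ᵥ u) 0),
    sq_nonneg ((Y t *ᵥ u) 1), sq_nonneg ((Y t *ᵥ u) 2)]

theorem nsq_low (hJ : JacSys K Om Y H) (hC : Cone K Om Y H) {t : ℝ} (ht : 0 ≤ t)
    (u : Fin 3 → ℝ) : Real.exp (9 / 5 * t) * nsq u ≤ nsq (Y t *ᵥ u) := by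
  have := (growth hJ hC le_rfl ht u).1
  rwa [hJ.Y0, Matrix.one_mulVec, sub_zero] at this

theorem nsq_mono (hJ : JacSys K Om Y H) (hC : Cone K Om Y H) {s t : ℝ} (hs : 0 ≤ s) (hst : s ≤ t)
    (u : Fin 3 → ℝ) : nsq (Y s *ᵥ u) ≤ nsq (Y t *ᵥ u) := by
  refine le_trans ?_ (growth hJ hC hs hst u).1
  refine le_mul_of_one_le_left (nsq_nonneg _) (Real.one_le_exp ?_)
  nlinarith

theorem to_real (hJ : JacSys K Om Y H) (hC : Cone K Om Y H) {s : ℝ} (hs : 0 < s)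
    (u : Fin 3 → ℝ) (hu : 0 < nsq u) {l : ℝ} (h : Rate (fun n : ℕ => nsq (Y (n * s) *ᵥ u)) l) :
    Tendsto (fun t : ℝ => Real.log (Real.sqrt (nsq (Y t *ᵥ u) + nsq (H t *ᵥ u))) / t)
      atTop (𝓝 (l / 2 / s)) := by
  have hts : Tendsto (fun t : ℝ => t / s) atTop atTop := tendsto_id.atTop_div_const hs
  have hn : Tendsto (fun t : ℝ => ⌊t / s⌋₊) atTop atTop := tendsto_nat_floor_atTop.comp hts
  have h1 : Tendsto (fun t : ℝ => Real.log (nsq (Y (⌊t / s⌋₊ * s) *ᵥ u)) / (⌊t / s⌋₊ : ℝ))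
      atTop (𝓝 l) := h.comp hn
  have h2 : Tendsto (fun t : ℝ => (⌊t / s⌋₊ : ℝ) / (t / s)) atTop (𝓝 1) :=
    tendsto_nat_floor_div_atTop.comp hts
  have h3 : Tendsto (fun t : ℝ => Real.log (nsq (Y (⌊t / s⌋₊ * s) *ᵥ u)) / 2 / t)
      atTop (𝓝 (l / 2 / s)) := by
    have := ((h1.mul h2).div_const 2).div_const s
    rw [mul_one] at this
    refine this.congr' ?_
    filter_upwards [hn.eventually (eventually_gt_atTop 0), eventually_gt_atTop 0] with t ht ht0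
    have : (0 : ℝ) < ⌊t / s⌋₊ := by exact_mod_cast ht
    field_simp
  set C := Real.log (10 * Real.exp (21 / 5 * s)) / 2 with hC'
  have h4 : Tendsto (fun t : ℝ => Real.log (nsq (Y (⌊t / s⌋₊ * s) *ᵥ u)) / 2 / t + C / t)
      atTop (𝓝 (l / 2 / s)) := by
    simpa using h3.add (tendsto_const_nhds.div_atTop tendsto_id (a := C))
  have pos : ∀ t, 0 ≤ t → 0 < nsq (Y t *ᵥ u) := fun t ht =>
    (mul_pos (Real.exp_pos _) hu).trans_le (nsq_low hJ hC ht u)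
  have fl : ∀ t : ℝ, 0 < t → 0 ≤ (⌊t / s⌋₊ : ℝ) * s ∧ (⌊t / s⌋₊ : ℝ) * s ≤ t ∧
      t - (⌊t / s⌋₊ : ℝ) * s ≤ s := by
    intro t ht
    have a1 : (⌊t / s⌋₊ : ℝ) ≤ t / s := Nat.floor_le (by positivity)
    have a2 : t / s < (⌊t / s⌋₊ : ℝ) + 1 := Nat.lt_floor_add_one _
    rw [le_div_iff₀ hs] at a1
    rw [div_lt_iff₀ hs] at a2
    exact ⟨by positivity, a1, by linarith⟩
  refine tendsto_of_tendsto_of_tendsto_of_le_of_le' h3 h4 ?_ ?_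
  · filter_upwards [eventually_gt_atTop 0] with t ht
    obtain ⟨a1, a2, -⟩ := fl t ht
    refine div_le_div_of_nonneg_right ?_ ht.le
    rw [Real.log_sqrt (add_nonneg (nsq_nonneg _) (nsq_nonneg _))]
    refine div_le_div_of_nonneg_right (Real.log_le_log (pos _ a1) ?_) (by norm_num)
    have := nsq_mono hJ hC a1 a2 u
    have := nsq_nonneg (H t *ᵥ u)
    linarith
  · filter_upwards [eventually_gt_atTop 0] with t ht
    obtain ⟨a1, a2, a3⟩ := fl t ht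
    rw [← add_div]
    refine div_le_div_of_nonneg_right ?_ ht.le
    rw [Real.log_sqrt (add_nonneg (nsq_nonneg _) (nsq_nonneg _)), hC', ← add_div,
      ← Real.log_mul (pos _ a1).ne' (by positivity)]
    refine div_le_div_of_nonneg_right (Real.log_le_log
      (add_pos_of_pos_of_nonneg (pos _ ht.le) (nsq_nonneg _)) ?_) (by norm_num)
    have b1 := (growth hJ hC a1 a2 u).2
    have b2 := H_le hC ht.le u
    have b3 : Real.exp (21 / 5 * (t - ⌊t / s⌋₊ * s)) ≤ Real.exp (21 / 5 * s) :=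
      Real.exp_le_exp.mpr (by linarith)
    have b4 := mul_le_mul_of_nonneg_right b3 (pos _ a1).le
    nlinarith

end OE

open OE in
theorem exponents {K Om Y H : ℝ → M3} (hJ : JacSys K Om Y H) (hC : Cone K Om Y H) (s : ℝ)
    (hs : 0 < s) (l₀ l₁ l₂ : ℝ)
    (h0 : Tendsto (fun n : ℕ => Real.log (Y (n * s)).det / n) atTop (𝓝 l₀))
    (h1 : Tendsto (fun n : ℕ => Real.log (fro (Y (n * s))) / n) atTop (𝓝 l₁))
    (h2 : Tendsto (fun n : ℕ => Real.log (fro (Y (n * s))⁻¹) / n) atTop (𝓝 l₂))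
    (hl : l₀ < 2 * l₁) :
    ∃ (u₁ u₂ : Fin 3 → ℝ) (χ₁ χ₂ : ℝ), u₁ ≠ 0 ∧ u₂ ≠ 0 ∧ 0 < χ₂ ∧ 2 * χ₂ < χ₁ ∧
      Tendsto (fun t : ℝ => Real.log (Real.sqrt (nsq (Y t *ᵥ u₁) + nsq (H t *ᵥ u₁))) / t)
        atTop (𝓝 χ₁) ∧
      Tendsto (fun t : ℝ => Real.log (Real.sqrt (nsq (Y t *ᵥ u₂) + nsq (H t *ᵥ u₂))) / t)
        atTop (𝓝 χ₂) := by
  obtain ⟨α, β, hα, hβ, hsl⟩ := slow_plane hJ hC
  have ns : ∀ n : ℕ, 0 ≤ (n : ℝ) * s := fun n => by positivity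
  have r0 : Rate (fun n : ℕ => (Y (n * s)).det ^ 2) (2 * l₀) := Rate.sq h0
  have r1 : Rate (fun n : ℕ => fro (Y (n * s)) ^ 2) (2 * l₁) := Rate.sq h1
  have r2 : Rate (fun n : ℕ => fro (Y (n * s))⁻¹ ^ 2) (2 * l₂) := Rate.sq h2
  have fc := fun n : ℕ => f_cone hJ hC (ns n)
  have c1 := fun n : ℕ => col1 hJ hC (ns n)
  have c2 := fun n : ℕ => col2 hJ hC (ns n)
  have dp := fun n : ℕ => hC.det_pos _ (ns n)
  have f0p : ∀ n : ℕ, 0 < Y (n * s) 0 0 ^ 2 := fun n => by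
    have := f_ne hJ hC (ns n); positivity
  have frop : ∀ n : ℕ, 0 < fro (Y (n * s)) ^ 2 := fun n => by
    rw [fro_sq]; have := f0p n; positivity
  have ft := fun n : ℕ => fixed_time (Y (n * s)) α β hα hβ (dp n) (fc n) (c1 n)
    (fun x y => hsl _ (ns n) x y)
  have rf : Rate (fun n : ℕ => Y (n * s) 0 0 ^ 2) (2 * l₁) := by
    refine r1.comparable frop (c := 1 / 14) (C := 1) (by norm_num) (by norm_num) ?_ ?_
    · intro n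
      rw [fro_sq]
      linarith [fc n, c1 n, c2 n, f0p n]
    · intro n
      rw [fro_sq, one_mul]
      nlinarith [sq_nonneg (Y (n * s) 1 0), sq_nonneg (Y (n * s) 2 0),
        sq_nonneg (Y (n * s) 0 1), sq_nonneg (Y (n * s) 1 1), sq_nonneg (Y (n * s) 2 1),
        sq_nonneg (Y (n * s) 0 2), sq_nonneg (Y (n * s) 1 2), sq_nonneg (Y (n * s) 2 2)]
  have re0 : Rate (fun n : ℕ => nsq (Y (n * s) *ᵥ ![1, 0, 0])) (2 * l₁) := by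
    refine rf.comparable f0p (c := 1) (C := 2) (by norm_num) (by norm_num) ?_ ?_
    · intro n
      simp only [nsq, mv]; simp
      nlinarith [sq_nonneg (Y (n * s) 1 0), sq_nonneg (Y (n * s) 2 0)]
    · intro n
      simp only [nsq, mv]; simp
      linarith [fc n, f0p n]
  have qp : ∀ n : ℕ, 0 < (Y (n * s)).det ^ 2 / Y (n * s) 0 0 ^ 2 := fun n =>
    div_pos (pow_pos (dp n) 2) (f0p n)
  have Dp : ∀ n : ℕ, 0 < fE α (Y (n * s)) * fG β (Y (n * s)) - fF α β (Y (n * s)) ^ 2 := fun n =>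
    lt_of_lt_of_le (by have := qp n; positivity) (ft n).1
  have rD : Rate (fun n : ℕ => fE α (Y (n * s)) * fG β (Y (n * s)) - fF α β (Y (n * s)) ^ 2)
      (2 * l₀ - 2 * l₁) :=
    (r0.div rf (fun n => pow_pos (dp n) 2) f0p).comparable qp (by norm_num) (by norm_num)
      (fun n => (ft n).1) (fun n => (ft n).2.1)
  have Ep : ∀ n : ℕ, 0 < fE α (Y (n * s)) := by
    intro n
    have E0 : 0 ≤ fE α (Y (n * s)) := by unfold fE; positivity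
    rcases E0.eq_or_lt with h | h
    · have := Dp n
      rw [← h] at this
      nlinarith [sq_nonneg (fF α β (Y (n * s)))]
    · exact h
  have ip : ∀ n : ℕ, 0 < fro (Y (n * s))⁻¹ ^ 2 := by
    intro n
    have G0 : 0 ≤ fG β (Y (n * s)) := by unfold fG; positivity
    have k := (ft n).2.2.2
    rcases (sq_nonneg (fro (Y (n * s))⁻¹)).eq_or_lt with h | h
    · rw [← h] at k
      linarith [Ep n]
    · exact h
  have rT : Rate (fun n : ℕ => fE α (Y (n * s)) + fG β (Y (n * s))) (2 * l₂ + (2 * l₀ - 2 * l₁)) :=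
    (r2.mul rD ip Dp).comparable (fun n => mul_pos (ip n) (Dp n)) (by norm_num) (by norm_num)
      (fun n => (ft n).2.2.1) (fun n => (ft n).2.2.2)
  obtain ⟨hle, x, y, hxy, hr⟩ := two_dim (fun n : ℕ => fE α (Y (n * s)))
    (fun n : ℕ => fF α β (Y (n * s))) (fun n : ℕ => fG β (Y (n * s))) Ep Dp
    (fun n x y => by
      rw [← nsq_sv, ← nsq_sv]
      refine nsq_mono hJ hC (ns n) ?_ _
      push_cast; nlinarith)
    (2 * l₂ + (2 * l₀ - 2 * l₁)) (-2 * l₂) rT (by convert rD using 1; ring)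
  simp only [← nsq_sv] at hr
  have u2p : 0 < nsq (sv α β x y) := by
    simp only [nsq, sv]; simp
    nlinarith [sq_nonneg (α * x + β * y)]
  have hpos : 9 / 5 * s ≤ -2 * l₂ := by
    have k := (rate_exp (9 / 5 * s)).mul (rate_const (nsq (sv α β x y)))
      (fun _ => Real.exp_pos _) (fun _ => u2p)
    rw [add_zero] at k
    refine k.le hr (fun n => mul_pos (Real.exp_pos _) u2p) fun n => ?_
    have := nsq_low hJ hC (ns n) (sv α β x y)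
    convert this using 3; ring
  refine ⟨![1, 0, 0], sv α β x y, 2 * l₁ / 2 / s, -2 * l₂ / 2 / s, ?_, ?_, ?_, ?_,
    to_real hJ hC hs _ (by simp [nsq]) re0, to_real hJ hC hs _ u2p hr⟩
  · intro h
    have := congrFun h 0
    simp at this
  · intro h
    rw [h] at u2p
    simp [nsq] at u2p
  · exact div_pos (by linarith) hs
  · rw [← mul_div_assoc]
    exact div_lt_div_of_pos_right (by linarith) hs

end Pool.Agent.MP_019006_gt
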