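import Pool.Agent.MP_019006_gt.Main2
import Pool.Agent.MP_019006_gt.Ergodic
import Pool.Agent.MP_019006_gt.OdeExp
import Pool.Agent.MP_019006_gt.OdeCore
import Pool.Agent.MP_019006_gt.Bump
import Pool.Agent.MP_019006_gt.Flat
import Pool.Agent.MP_019006_gt.Lattice

set_option autoImplicit false

open MeasureTheory Filter Topology Set Matrix

namespace Pool.Agent.MP_019006_gt

/-- Linear growth along the integers. -/
def Grows (u : ℝ → ℝ) : Prop := ∃ k N : ℕ, ∀ n : ℕ, N ≤ n → (n : ℝ) / (k + 1) ≤ u n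

theorem grows_real {u : ℝ → ℝ} {B s c : ℝ} (hs : 0 < s) (hc : 0 < c)
    (hu : ∀ a t, 0 ≤ a → 0 ≤ t → |u (a + t) - u a| ≤ B * (1 + t))
    (h : ∀ᶠ n : ℕ in atTop, c * n ≤ u (n * s)) :
    ∃ c' : ℝ, 0 < c' ∧ ∀ᶠ T : ℝ in atTop, c' * T ≤ u T := by
  obtain ⟨N, hN⟩ := eventually_atTop.1 h
  refine ⟨c / (2 * s), by positivity, ?_⟩
  filter_upwards [eventually_ge_atTop (N * s), eventually_ge_atTop (0 : ℝ),
    eventually_ge_atTop (2 * s * (c + |B| * (1 + s)) / c)] with T h1 h2 h3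
  have hn : N ≤ ⌊T / s⌋₊ := Nat.le_floor ((le_div_iff₀ hs).2 h1)
  have h4 : (⌊T / s⌋₊ : ℝ) ≤ T / s := Nat.floor_le (by positivity)
  have h5 : T / s < ⌊T / s⌋₊ + 1 := Nat.lt_floor_add_one _
  have h6 : (⌊T / s⌋₊ : ℝ) * s ≤ T := (le_div_iff₀ hs).1 h4
  have h7 : T < (⌊T / s⌋₊ + 1) * s := (div_lt_iff₀ hs).1 h5
  have h8 := hu (⌊T / s⌋₊ * s) (T - ⌊T / s⌋₊ * s) (by positivity) (by linarith)
  rw [add_sub_cancel] at h8
  have h9 : B * (1 + (T - ⌊T / s⌋₊ * s)) ≤ |B| * (1 + s) :=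
    mul_le_mul (le_abs_self B) (by linarith) (by linarith) (abs_nonneg B)
  have h10 := hN _ hn
  have h11 := (abs_le.1 h8).1
  have h12 : c + |B| * (1 + s) ≤ c / (2 * s) * T := by
    rw [div_le_iff₀ hc] at h3
    rw [div_mul_eq_mul_div, le_div_iff₀ (by positivity)]
    linarith
  have h13 : c * (T / s) = 2 * (c / (2 * s) * T) := by field_simp
  nlinarith

theorem grows_of_real {u : ℝ → ℝ} {c : ℝ} (hc : 0 < c) (h : ∀ᶠ T : ℝ in atTop, c * T ≤ u T) :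
    Grows u := by
  obtain ⟨k, hk⟩ := exists_nat_one_div_lt hc
  obtain ⟨N, hN⟩ := eventually_atTop.1 (tendsto_natCast_atTop_atTop.eventually h)
  refine ⟨k, N, fun n hn => le_trans ?_ (hN n hn)⟩
  rw [div_eq_mul_one_div, mul_comm]
  exact mul_le_mul_of_nonneg_right hk.le (Nat.cast_nonneg n)

theorem Grows.real {u : ℝ → ℝ} {B : ℝ}
    (hu : ∀ a t, 0 ≤ a → 0 ≤ t → |u (a + t) - u a| ≤ B * (1 + t)) (h : Grows u) :
    ∃ c' : ℝ, 0 < c' ∧ ∀ᶠ T : ℝ in atTop, c' * T ≤ u T := by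
  obtain ⟨k, N, hN⟩ := h
  refine grows_real (s := 1) (c := 1 / (k + 1)) one_pos (by positivity) hu ?_
  filter_upwards [eventually_ge_atTop N] with n hn
  rw [mul_one, one_div_mul_eq_div]
  exact hN n hn

theorem Grows.of_close {u w : ℝ → ℝ} {B : ℝ} (huw : ∀ t, 0 ≤ t → |u t - w t| ≤ B) (h : Grows u) :
    Grows w := by
  obtain ⟨k, N, hN⟩ := h
  obtain ⟨N', hN'⟩ := exists_nat_ge (2 * (k + 1) * B)
  refine ⟨2 * k + 1, max N N', fun n hn => ?_⟩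
  have h1 := hN n ((le_max_left _ _).trans hn)
  have h2 : (N' : ℝ) ≤ n := Nat.cast_le.2 ((le_max_right _ _).trans hn)
  have h3 := (abs_le.1 (huw n (Nat.cast_nonneg n))).2
  have h4 : (n : ℝ) / (k + 1) = 2 * (n / ((2 * k + 1 : ℕ) + 1)) := by
    push_cast; field_simp; ring
  have h5 : B ≤ n / ((2 * k + 1 : ℕ) + 1) := by
    rw [le_div_iff₀ (by positivity)]; push_cast; nlinarith
  linarith

/-- The gap functional. -/
noncomputable def GG (f : EE → ℝ) (φ : Flo) (M : DFlo) (q : EE × EE) (t : ℝ) : ℝ :=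
  2 * LL f φ M 1 q t - LL f φ M 0 q t

/-- The set where the gap functional grows linearly. -/
def Good (f : EE → ℝ) (φ : Flo) (M : DFlo) : Set (EE × EE) :=
  {p | (p.1 ∈ Bl ∧ p.2 ≠ 0) ∧ Grows (GG f φ M (nrm f p))}

theorem tendsto_GG {a b : ℕ → ℝ} {l₁ l₀ : ℝ}
    (h1 : Tendsto (fun n : ℕ => (a n + 1) / n) atTop (𝓝 l₁))
    (h0 : Tendsto (fun n : ℕ => (b n + 1) / n) atTop (𝓝 l₀)) :
    Tendsto (fun n : ℕ => (2 * a n - b n) / n) atTop (𝓝 (2 * l₁ - l₀)) := by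
  have := ((h1.const_mul 2).sub h0).sub tendsto_one_div_atTop_nhds_zero_nat
  rw [sub_zero] at this
  refine this.congr fun n => ?_
  ring

theorem tendsto_drop {a : ℕ → ℝ} {l : ℝ}
    (h1 : Tendsto (fun n : ℕ => (a n + 1) / n) atTop (𝓝 l)) :
    Tendsto (fun n : ℕ => a n / n) atTop (𝓝 l) := by
  have := h1.sub tendsto_one_div_atTop_nhds_zero_nat
  rw [sub_zero] at this
  refine this.congr fun n => ?_
  ring

namespace World

variable {G : Type} [Group G] {ρ : G →* C3} {f β : EE → ℝ} {φ : Flo} {M : DFlo} {e r R : ℝ}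

theorem ne_iff {p : EE × EE} (hp : p.1 ∈ Bl) : p.2 ≠ 0 ↔ 0 < en f p := by
  refine ⟨fun h => (en_nrm hp h).1, fun h h0 => ?_⟩
  have h1 : en f p = 0 := by unfold en; rw [h0]; simp
  linarith

theorem grows_flow (h : World ρ f β φ M e r R) {q : EE × EE} (hq : q.1 ∈ Bl) (h1 : en f q = 1)
    {s : ℝ} (hs : 0 ≤ s) : Grows (GG f φ M (φ s q)) ↔ Grows (GG f φ M q) :=
  ⟨Grows.of_close fun _ ht => h.GG_flow hq h1 hs ht,
    Grows.of_close fun _ ht => by rw [abs_sub_comm]; exact h.GG_flow hq h1 hs ht⟩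

theorem grows_flow' (h : World ρ f β φ M e r R) {q : EE × EE} (hq : q.1 ∈ Bl) (h1 : en f q = 1)
    (s : ℝ) : Grows (GG f φ M (φ s q)) ↔ Grows (GG f φ M q) := by
  rcases le_total 0 s with hs | hs
  · exact h.grows_flow hq h1 hs
  · have := h.grows_flow (h.fmem s hq) (by rw [h.fen, h1]) (neg_nonneg.2 hs)
    rw [← h.ctx.flow.add, neg_add_cancel, h.ctx.flow.zero] at this
    exact this.symm

theorem invSet (h : World ρ f β φ M e r R) : InvSet ρ φ (Good f φ M) where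
  meas := by
    have hW : IsOpen {p : EE × EE | p.1 ∈ Bl ∧ p.2 ≠ 0} :=
      (isOpen_Bl.preimage continuous_fst).inter (isOpen_ne.preimage continuous_snd)
    have hm : ∀ n : ℕ, Measurable ({p : EE × EE | p.1 ∈ Bl ∧ p.2 ≠ 0}.indicator
        fun p => GG f φ M (nrm f p) n) := fun n =>
      measurable_indicator_of_continuousOn hW.measurableSet
        ((continuousOn_const.mul (h.LL_contOn 1 (fun p hp => hp) continuousOn_const
          fun _ _ => Nat.cast_nonneg n)).sub (h.LL_contOn 0 (fun p hp => hp) continuousOn_const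
          fun _ _ => Nat.cast_nonneg n))
    have : Good f φ M = {p : EE × EE | p.1 ∈ Bl ∧ p.2 ≠ 0} ∩ ⋃ k : ℕ, ⋃ N : ℕ, ⋂ n : ℕ,
        ⋂ _ : N ≤ n, {p | (n : ℝ) / (k + 1) ≤ {p : EE × EE | p.1 ∈ Bl ∧ p.2 ≠ 0}.indicator
          (fun p => GG f φ M (nrm f p) n) p} := by
      ext p
      simp only [Good, Grows, mem_ofPred_eq, mem_inter_iff, mem_iUnion, mem_iInter]
      refine and_congr_right fun hp => ?_
      simp only [indicator_of_mem (show p ∈ {p : EE × EE | p.1 ∈ Bl ∧ p.2 ≠ 0} from hp)]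
    rw [this]
    exact hW.measurableSet.inter (MeasurableSet.iUnion fun k => MeasurableSet.iUnion fun N =>
      MeasurableSet.iInter fun n => MeasurableSet.iInter fun _ =>
        measurableSet_le measurable_const (hm n))
  flow := by
    intro t p hp
    have h1 : (φ t p).2 ≠ 0 ↔ p.2 ≠ 0 := by
      rw [ne_iff (f := f) (h.fmem t hp), ne_iff (f := f) hp, h.fen]
    by_cases h0 : p.2 = 0
    · exact ⟨fun a => absurd h0 (h1.1 a.1.2), fun a => absurd h0 a.1.2⟩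
    · have h2 := h.grows_flow' (q := nrm f p) hp (en_nrm hp h0).2 (Real.sqrt (en f p) * t)
      rw [← flow_nrm h.sm h.ctx.flow t hp h0] at h2
      exact ⟨fun a => ⟨⟨hp, h0⟩, h2.1 a.2⟩, fun a => ⟨⟨h.fmem t hp, h1.2 h0⟩, h2.2 a.2⟩⟩
  grp := by
    intro a p hp
    have hq := Inv.mobT_mem (h.u21 a) hp
    have h1 : (mobT (ρ a) p).2 ≠ 0 ↔ p.2 ≠ 0 := by
      rw [ne_iff (f := f) hq, ne_iff (f := f) hp, en_mobT (h.u21 a) (h.finv a)]
    by_cases h0 : p.2 = 0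
    · exact ⟨fun a => absurd h0 (h1.1 a.1.2), fun a => absurd h0 a.1.2⟩
    · have h2 : GG f φ M (nrm f (mobT (ρ a) p)) = GG f φ M (nrm f p) := by
        funext t
        unfold GG
        rw [nrm_mobT (h.u21 a) (h.finv a) hp, h.LL_inv (p := nrm f p) hp (en_nrm hp h0).2,
          h.LL_inv (p := nrm f p) hp (en_nrm hp h0).2]
      exact ⟨fun a => ⟨⟨hp, h0⟩, h2 ▸ a.2⟩, fun a => ⟨⟨hq, h1.2 h0⟩, h2 ▸ a.2⟩⟩
  scale := by
    intro c hc p hp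
    have h2 : nrm f (p.1, c • p.2) = nrm f p := Fib.nrm_smul f p.1 p.2 hc
    have h1 : c • p.2 ≠ 0 ↔ p.2 ≠ 0 := by simp [hc.ne']
    exact ⟨fun a => ⟨⟨hp, h1.1 a.1.2⟩, h2 ▸ a.2⟩, fun a => ⟨⟨hp, h1.2 a.1.2⟩, by
      rw [h2]; exact a.2⟩⟩

theorem good_iff (h : World ρ f β φ M e r R) {p : EE × EE} (hp : p ∈ shell f) {l₁ l₀ : ℝ}
    (h1 : Tendsto (fun n : ℕ => (LL f φ M 1 (nrm f p) (n * Real.sqrt (en f p)) + 1) / n) atTop
      (𝓝 l₁))
    (h0 : Tendsto (fun n : ℕ => (LL f φ M 0 (nrm f p) (n * Real.sqrt (en f p)) + 1) / n) atTop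
      (𝓝 l₀)) : p ∈ Good f φ M ↔ l₀ < 2 * l₁ := by
  have hne := shell_ne hp
  have hs : 0 < Real.sqrt (en f p) := Real.sqrt_pos.2 (en_nrm hp.1 hne).1
  have hT := tendsto_GG h1 h0
  have hu : ∀ a t, 0 ≤ a → 0 ≤ t →
      |GG f φ M (nrm f p) (a + t) - GG f φ M (nrm f p) a| ≤ 30 * (1 + t) := fun a t ha ht =>
    h.GG_time (p := nrm f p) hp.1 (en_nrm hp.1 hne).2 ha ht
  constructor
  · intro hg
    obtain ⟨c, hc, hev⟩ := hg.2.real hu
    have h2 := (tendsto_natCast_atTop_atTop.atTop_mul_const hs).eventually hev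
    have h3 : c * Real.sqrt (en f p) ≤ 2 * l₁ - l₀ := by
      refine ge_of_tendsto hT ?_
      filter_upwards [h2, eventually_gt_atTop 0] with n hn hn0
      rw [le_div_iff₀ (Nat.cast_pos.2 hn0)]
      unfold GG at hn
      linarith
    have := mul_pos hc hs
    linarith
  · intro hl
    refine ⟨⟨hp.1, hne⟩, ?_⟩
    have h2 : ∀ᶠ n : ℕ in atTop, (2 * l₁ - l₀) / 2 * n ≤
        GG f φ M (nrm f p) (n * Real.sqrt (en f p)) := by
      filter_upwards [hT.eventually (lt_mem_nhds (show (2 * l₁ - l₀) / 2 < 2 * l₁ - l₀ by linarith)),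
        eventually_gt_atTop 0] with n hn hn0
      exact ((lt_div_iff₀ (Nat.cast_pos.2 hn0)).1 hn).le
    obtain ⟨c, hc, hev⟩ := grows_real hs (by linarith) hu h2
    exact grows_of_real hc hev

theorem ae_good [Countable G] (h : World ρ f β φ M e r R)
    (h1 : ∀ᵐ p : EE × EE, p ∈ shell f → ∀ i, ∃ l : ℝ, Tendsto (fun n : ℕ =>
      (LL f φ M i (nrm f p) (n * Real.sqrt (en f p)) + 1) / n) atTop (𝓝 l))
    (h2 : ¬ ∀ᵐ p : EE × EE, p ∈ shell f → ∀ l₁ l₀ : ℝ,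
      Tendsto (fun n : ℕ => (LL f φ M 1 (nrm f p) (n * Real.sqrt (en f p)) + 1) / n) atTop (𝓝 l₁) →
      Tendsto (fun n : ℕ => (LL f φ M 0 (nrm f p) (n * Real.sqrt (en f p)) + 1) / n) atTop (𝓝 l₀) →
        2 * l₁ ≤ l₀) : ∀ᵐ p : EE × EE, p.1 ∈ Bl → p ∈ Good f φ M := by
  rcases ergodic_flow h.ctx h.lat h.finv h.invSet with h3 | h3
  · refine absurd (h3.mono fun p hp hs l₁ l₀ a b => ?_) h2
    exact not_lt.1 fun hl => hp hs.1 ((h.good_iff hs a b).2 hl)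
  · exact h3

theorem ae_exp (h : World ρ f β φ M e r R)
    (h1 : ∀ᵐ p : EE × EE, p ∈ shell f → ∀ i, ∃ l : ℝ, Tendsto (fun n : ℕ =>
      (LL f φ M i (nrm f p) (n * Real.sqrt (en f p)) + 1) / n) atTop (𝓝 l))
    (h2 : ∀ᵐ p : EE × EE, p.1 ∈ Bl → p ∈ Good f φ M) :
    ∀ᵐ p : EE × EE, p.1 ∈ Bl → p.2 ≠ 0 → ∃ χ₁ χ₂ : ℝ, 0 < χ₂ ∧ 2 * χ₂ < χ₁ ∧
      IsExponent (gg f) (Gam f) φ (nrm f p) χ₁ ∧ IsExponent (gg f) (Gam f) φ (nrm f p) χ₂ := by
  refine ae_scale h.ctx.conf (fun q => ∃ χ₁ χ₂ : ℝ, 0 < χ₂ ∧ 2 * χ₂ < χ₁ ∧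
      IsExponent (gg f) (Gam f) φ q χ₁ ∧ IsExponent (gg f) (Gam f) φ q χ₂) ?_
  filter_upwards [h1, h2] with p hp hg hs
  obtain ⟨l₀, a₀⟩ := hp hs 0
  obtain ⟨l₁, a₁⟩ := hp hs 1
  obtain ⟨l₂, a₂⟩ := hp hs 2
  have hne := shell_ne hs
  have hq : (nrm f p).1 ∈ Bl := hs.1
  have hq1 := (en_nrm (f := f) hs.1 hne).2
  obtain ⟨u₁, u₂, χ₁, χ₂, b1, b2, b3, b4, b5, b6⟩ := exponents (h.jac hq hq1) (h.cone hq hq1) _
    (Real.sqrt_pos.2 (en_nrm (f := f) hs.1 hne).1) l₀ l₁ l₂ (tendsto_drop a₀) (tendsto_drop a₁)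
    (tendsto_drop a₂) ((h.good_iff hs a₁ a₀).1 (hg hs.1))
  exact ⟨χ₁, χ₂, b3, b4, isExponent_of h.sm h.ctx.flow hq hq1 u₁ b1 χ₁ b5,
    isExponent_of h.sm h.ctx.flow hq hq1 u₂ b2 χ₂ b6⟩

end World

theorem exists_world : ∃ (G : Type) (_ : Group G) (_ : Countable G) (ρ : G →* C3)
    (f β : EE → ℝ) (φ : Flo) (M : DFlo) (e r R : ℝ), World ρ f β φ M e r R ∧
    (∀ᵐ p : EE × EE, p ∈ shell f → ∀ i, ∃ l : ℝ, Tendsto (fun n : ℕ =>
      (LL f φ M i (nrm f p) (n * Real.sqrt (en f p)) + 1) / n) atTop (𝓝 l)) ∧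
    ∀ᵐ p : EE × EE, p.1 ∈ Bl → p ∈ Good f φ M := by
  obtain ⟨F, s₀, hF⟩ := exists_profile
  obtain ⟨C, hC, hbump⟩ := bump_main hF
  obtain ⟨η, hη, hloc⟩ := local_line hF C
  obtain ⟨τ₀, R₀, C₀, hτ₀, hcore⟩ := core_ineq η hη
  have hε : 0 < 1 / (100 * C) := by positivity
  have hCε : C * (1 / (100 * C)) = 1 / 100 := by field_simp
  obtain ⟨r₀, hr₀, hloc⟩ := hloc (1 / (100 * C)) hε
    (by rw [div_le_one (by positivity)]; linarith)
  set r : ℝ := min (min r₀ (τ₀ / 6)) (1 / 600) with hr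
  have hr0 : 0 < r := by positivity
  have hr1 : r ≤ 1 / 600 := min_le_right _ _
  have hr2 : r ≤ r₀ := (min_le_left _ _).trans (min_le_left _ _)
  have hr3 : r ≤ τ₀ / 6 := (min_le_left _ _).trans (min_le_right _ _)
  set R : ℝ := max R₀ 2 with hR
  have hR2 : 2 ≤ R := le_max_right _ _
  obtain ⟨G, iG, iC, ρ, hρ⟩ := exists_lattice (4 * Real.exp (2 * R))
  have hE : 1 ≤ Real.exp (2 * R) := Real.one_le_exp (by linarith)
  obtain ⟨b1, b2, b3, b4, b5, b6, b7, b8⟩ := hbump (1 / (100 * C)) r _ G ρ _ _ hε hCε.le hr0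
    (by linarith) (by linarith) hρ rfl rfl
  obtain ⟨φ, M, hφ⟩ := exists_geoFlow b1
  have hW : World ρ (ext ρ (f0 F (1 / (100 * C)) r)) (ext ρ (b0 r)) φ M (C * (1 / (100 * C))) r R :=
    ⟨⟨b1, hφ⟩, hρ, b2, b3, b4, b5, b7, fun p hp h1 => (b8 p hp h1).1,
      fun p hp h1 => (b8 p hp h1).2, by rw [hCε]; norm_num, by rw [hCε]; norm_num, hr0, hr1, hR2⟩
  have hs₀ := hF.pos
  obtain ⟨k1, k2⟩ := hW.pack (C := C₀) hη.le
    (show 0 < (1 / (100 * C)) ^ 2 * r ^ 5 * s₀ / 2 by positivity)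
    (fun p hp h1 T hT => hcore _ _ _ _ _ _ _ _ hW.e0 hW.e1 (by linarith) (by linarith)
      (le_max_left _ _) (hW.jac hp h1) (hW.small hp h1) T hT)
    (hloc r _ _ φ M hr0 hr2 b1 b6 hφ)
  exact ⟨G, iG, iC, ρ, _, _, φ, M, _, r, R, hW, k1, hW.ae_good k1 k2⟩

end Pool.Agent.MP_019006_gt
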