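import Pool.Agent.MP_019006_gt.OdeTwo3

set_option autoImplicit false

open MeasureTheory Filter Topology Set Matrix

namespace Pool.Agent.MP_019006_gt

namespace OT

open OE

variable {K Om Y H : ℝ → M3}

/-- The data of the splitting into the fast line and the slow plane. -/
structure Split (Y : ℝ → M3) (α β a b : ℝ) : Prop where
  hα : α ^ 2 ≤ 1
  hβ : β ^ 2 ≤ 1
  slow : ∀ t x y : ℝ, Qk 1 (Y t *ᵥ sv α β x y) ≤ 0
  fast : ∀ t : ℝ, 0 ≤ Qk (1 / 5) (Y t *ᵥ ![1, a, b])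

theorem f_one (a b : ℝ) : 1 ≤ nsq ![1, a, b] := by
  simp only [nsq]
  simp
  nlinarith [sq_nonneg a, sq_nonneg b]

theorem f_pos (a b : ℝ) : 0 < nsq ![1, a, b] := one_pos.trans_le (f_one a b)

variable {α β a b : ℝ}

theorem Split.cf (S : Split Y α β a b) (h : TwoSys K Om Y H) (t : ℝ) :
    0 < (Y t *ᵥ ![1, a, b]) 0 ^ 2 ∧
      (Y t *ᵥ ![1, a, b]) 1 ^ 2 + (Y t *ᵥ ![1, a, b]) 2 ^ 2 < 1 / 4 * (Y t *ᵥ ![1, a, b]) 0 ^ 2 ∧
      nsq (Y t *ᵥ ![1, a, b]) ≤ 6 / 5 * (Y t *ᵥ ![1, a, b]) 0 ^ 2 :=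
  cone_facts (nsq_Y_pos h t (f_pos a b)) (S.fast t)

theorem Split.f_le (S : Split Y α β a b) (h : TwoSys K Om Y H) : nsq ![1, a, b] ≤ 6 / 5 := by
  have := (S.cf h 0).2.2
  rw [Y0_vec h] at this
  simpa using this

theorem Split.delta (S : Split Y α β a b) (h : TwoSys K Om Y H) : 1 + α * a + β * b ≠ 0 := by
  intro h0
  have k1 := S.slow 0 a b
  have k2 := (S.cf h 0).2.1
  rw [Y0_vec h] at k1 k2
  have e : α * a + β * b = -1 := by linarith
  simp only [Qk, sv, e] at k1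
  simp at k1 k2
  linarith

theorem Split.D_pos (S : Split Y α β a b) (h : TwoSys K Om Y H) (t : ℝ) :
    0 < fE α (Y t) * fG β (Y t) - fF α β (Y t) ^ 2 := by
  refine lt_of_lt_of_le ?_ (area (Y t) α β a b (S.cf h t).2.1 (S.slow t)).1
  have := S.delta h
  have := (S.cf h t).1
  have := h.det_pos t
  positivity

theorem E_pos (h : TwoSys K Om Y H) (α t : ℝ) : 0 < fE α (Y t) := by
  rw [fE_eq _ α 0]
  exact nsq_Y_pos h t (lt_of_lt_of_le (by norm_num) (nsq_sv_ge α 0 1 0))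

theorem G_pos (h : TwoSys K Om Y H) (β t : ℝ) : 0 < fG β (Y t) := by
  rw [fG_eq _ 0 β]
  exact nsq_Y_pos h t (lt_of_lt_of_le (by norm_num) (nsq_sv_ge 0 β 0 1))

theorem Split.dom_fwd (S : Split Y α β a b) (h : TwoSys K Om Y H) {t : ℝ} (ht : 0 ≤ t)
    (u : Fin 3 → ℝ) : nsq (Y t *ᵥ u) ≤ 54 * (Y t *ᵥ ![1, a, b]) 0 ^ 2 * nsq u := by
  have := dom h (f_pos a b) S.fast ht u
  rw [Y0_vec h, Y0_vec h] at this
  simpa using this

theorem Split.dom_bwd (S : Split Y α β a b) (h : TwoSys K Om Y H) {t : ℝ} (ht : t ≤ 0)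
    (u : Fin 3 → ℝ) : nsq u * (Y t *ᵥ ![1, a, b]) 0 ^ 2 ≤ 54 * nsq (Y t *ᵥ u) := by
  have := dom h (f_pos a b) S.fast ht u
  rw [Y0_vec h, Y0_vec h] at this
  simpa using this

theorem Split.rate_D (S : Split Y α β a b) (h : TwoSys K Om Y H) (T : ℕ → ℝ) {l m : ℝ}
    (r0 : Rate (fun n => (Y (T n)).det ^ 2) l)
    (rf : Rate (fun n => (Y (T n) *ᵥ ![1, a, b]) 0 ^ 2) m) :
    Rate (fun n => fE α (Y (T n)) * fG β (Y (T n)) - fF α β (Y (T n)) ^ 2) (l - m) := by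
  have d := S.delta h
  exact (r0.div rf (fun n => pow_pos (h.det_pos _) 2) fun n => (S.cf h _).1).comparable
    (fun n => div_pos (pow_pos (h.det_pos _) 2) (S.cf h _).1) (by positivity) (by positivity)
    (fun n => (area _ α β a b (S.cf h _).2.1 (S.slow _)).1)
    (fun n => (area _ α β a b (S.cf h _).2.1 (S.slow _)).2.1)

theorem Split.rate_f (S : Split Y α β a b) (h : TwoSys K Om Y H) (T : ℕ → ℝ) {m : ℝ}
    (rf : Rate (fun n => (Y (T n) *ᵥ ![1, a, b]) 0 ^ 2) m) :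
    Rate (fun n => nsq (Y (T n) *ᵥ ![1, a, b])) m :=
  rf.comparable (fun n => (S.cf h _).1) one_pos (by norm_num)
    (fun n => by rw [one_mul]; exact comp_sq_le _ 0) (fun n => (S.cf h _).2.2)

theorem Split.rate_f_fwd (S : Split Y α β a b) (h : TwoSys K Om Y H) (T : ℕ → ℝ)
    (hT : ∀ n, 0 ≤ T n) {m : ℝ} (r : Rate (fun n => fro (Y (T n)) ^ 2) m) :
    Rate (fun n => (Y (T n) *ᵥ ![1, a, b]) 0 ^ 2) m := by
  refine r.comparable (fun n => pow_pos (fro_pos h _) 2) (c := 1 / 162) (C := 6 / 5)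
    (by norm_num) (by norm_num) (fun n => ?_) (fun n => ?_)
  · rw [OdeMul.fro_sq_cols, Fin.sum_univ_three]
    have k0 := S.dom_fwd h (hT n) (Pi.single 0 1)
    have k1 := S.dom_fwd h (hT n) (Pi.single 1 1)
    have k2 := S.dom_fwd h (hT n) (Pi.single 2 1)
    rw [OdeMul.nsq_single] at k0 k1 k2
    linarith
  · have k1 := comp_sq_le (Y (T n) *ᵥ ![1, a, b]) 0
    have k2 := nsq_mulVec_le (Y (T n)) ![1, a, b]
    have k3 := mul_le_mul_of_nonneg_left (S.f_le h) (sq_nonneg (fro (Y (T n))))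
    linarith

theorem Split.rate_f_bwd (S : Split Y α β a b) (h : TwoSys K Om Y H) (T : ℕ → ℝ)
    (hT : ∀ n, T n ≤ 0) {m : ℝ} (r : Rate (fun n => fro (Y (T n))⁻¹ ^ 2) m) :
    Rate (fun n => (Y (T n) *ᵥ ![1, a, b]) 0 ^ 2) (-m) := by
  have p : ∀ n, 0 < fro (Y (T n))⁻¹ ^ 2 := fun n => pow_pos (fro_inv_pos h _) 2
  have r' := (rate_const 1).div r (fun _ => one_pos) p
  rw [zero_sub] at r'
  refine r'.comparable (fun n => div_pos one_pos (p n)) (c := 5 / 6) (C := 162)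
    (by norm_num) (by norm_num) (fun n => ?_) (fun n => ?_)
  · rw [← mul_div_assoc, div_le_iff₀ (p n)]
    have k1 := nsq_mulVec_le (Y (T n))⁻¹ (Y (T n) *ᵥ ![1, a, b])
    rw [inv_mul_vec h] at k1
    have k2 := mul_le_mul_of_nonneg_left (S.cf h (T n)).2.2 (p n).le
    have k3 := f_one a b
    linarith
  · rw [← mul_div_assoc, le_div_iff₀ (p n), OdeMul.fro_sq_cols, Fin.sum_univ_three]
    have k0 := S.dom_bwd h (hT n) ((Y (T n))⁻¹ *ᵥ Pi.single 0 1)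
    have k1 := S.dom_bwd h (hT n) ((Y (T n))⁻¹ *ᵥ Pi.single 1 1)
    have k2 := S.dom_bwd h (hT n) ((Y (T n))⁻¹ *ᵥ Pi.single 2 1)
    rw [mul_inv_vec h, OdeMul.nsq_single] at k0 k1 k2
    linarith

theorem nsq_comb (c x y : ℝ) (u v w : Fin 3 → ℝ) :
    nsq (c • u + (x • v + y • w)) ≤ (c ^ 2 + x ^ 2 + y ^ 2) * (nsq u + nsq v + nsq w) := by
  simp only [nsq, Pi.add_apply, Pi.smul_apply, smul_eq_mul]
  have k0 := cs c x y (u 0) (v 0) (w 0)
  have k1 := cs c x y (u 1) (v 1) (w 1)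
  have k2 := cs c x y (u 2) (v 2) (w 2)
  simp only [add_assoc] at *
  linarith

theorem Split.T_le (S : Split Y α β a b) (t : ℝ) :
    fE α (Y t) + fG β (Y t) ≤ 4 * fro (Y t) ^ 2 := by
  rw [fE_eq _ α β, fG_eq _ α β]
  have k1 := nsq_mulVec_le (Y t) (sv α β 1 0)
  have k2 := nsq_mulVec_le (Y t) (sv α β 0 1)
  have k3 := mul_le_mul_of_nonneg_left (nsq_b1 β S.hα) (sq_nonneg (fro (Y t)))
  have k4 := mul_le_mul_of_nonneg_left (nsq_b2 α S.hβ) (sq_nonneg (fro (Y t)))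
  linarith

theorem Split.rate_T_fwd (S : Split Y α β a b) (h : TwoSys K Om Y H) (T : ℕ → ℝ)
    (hT : ∀ n, 0 ≤ T n) {l m : ℝ} (r : Rate (fun n => fro (Y (T n))⁻¹ ^ 2) l)
    (rD : Rate (fun n => fE α (Y (T n)) * fG β (Y (T n)) - fF α β (Y (T n)) ^ 2) m) :
    Rate (fun n => fE α (Y (T n)) + fG β (Y (T n))) (l + m) := by
  have p : ∀ n, 0 < fro (Y (T n))⁻¹ ^ 2 := fun n => pow_pos (fro_inv_pos h _) 2
  refine (r.mul rD p fun n => S.D_pos h _).comparable (fun n => mul_pos (p n) (S.D_pos h _))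
    (c := 1 / 20000) (C := 2) (by norm_num) (by norm_num) (fun n => ?_) (fun n => ?_)
  · have Dp := S.D_pos h (T n)
    have hE : fE α (Y (T n)) ≤ 135 * (Y (T n) *ᵥ ![1, a, b]) 0 ^ 2 := by
      rw [fE_eq _ α β]
      have k1 := S.dom_fwd h (hT n) (sv α β 1 0)
      have k2 := mul_le_mul_of_nonneg_left (nsq_b1 β S.hα) (S.cf h (T n)).1.le
      have k3 := (S.cf h (T n)).1
      linarith
    have k : ∀ u : Fin 3 → ℝ, (fE α (Y (T n)) * fG β (Y (T n)) - fF α β (Y (T n)) ^ 2) * nsq u ≤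
        6400 * (fE α (Y (T n)) + fG β (Y (T n))) * nsq (Y (T n) *ᵥ u) := by
      intro u
      obtain ⟨c, x, y, rfl⟩ := decomp (S.delta h) u
      have k1 := (area _ α β a b (S.cf h (T n)).2.1 (S.slow _)).2.2 hE c x y
      have k2 : nsq (c • ![1, a, b] + sv α β x y) ≤ 16 * (c ^ 2 / 3 + 4 * (x ^ 2 + y ^ 2)) := by
        rw [sv_eq]
        refine (nsq_comb _ _ _ _ _ _).trans ?_
        have k3 : nsq ![1, a, b] + nsq (sv α β 1 0) + nsq (sv α β 0 1) ≤ 16 / 3 := by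
          linarith [S.f_le h, nsq_b1 β S.hα, nsq_b2 α S.hβ]
        have k4 := mul_le_mul_of_nonneg_left k3
          (show 0 ≤ c ^ 2 + x ^ 2 + y ^ 2 by positivity)
        nlinarith [sq_nonneg x, sq_nonneg y]
      have k5 := mul_le_mul_of_nonneg_left k2 Dp.le
      linarith
    have k0 := k ((Y (T n))⁻¹ *ᵥ Pi.single 0 1)
    have k1 := k ((Y (T n))⁻¹ *ᵥ Pi.single 1 1)
    have k2 := k ((Y (T n))⁻¹ *ᵥ Pi.single 2 1)
    rw [mul_inv_vec h, OdeMul.nsq_single] at k0 k1 k2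
    rw [OdeMul.fro_sq_cols, Fin.sum_univ_three]
    linarith [E_pos h α (T n), G_pos h β (T n)]
  · refine lowT _ _ _ _ (E_pos h α _).le (G_pos h β _).le (S.D_pos h _) fun x y => ?_
    have := nsq_mulVec_le (Y (T n))⁻¹ (Y (T n) *ᵥ sv α β x y)
    rw [inv_mul_vec h, nsq_sv] at this
    exact (nsq_sv_ge α β x y).trans this

theorem Split.rate_T_bwd (S : Split Y α β a b) (h : TwoSys K Om Y H) (T : ℕ → ℝ)
    (hT : ∀ n, T n ≤ 0) {l : ℝ} (r : Rate (fun n => fro (Y (T n)) ^ 2) l) :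
    Rate (fun n => fE α (Y (T n)) + fG β (Y (T n))) l := by
  have k : ∀ u : Fin 3 → ℝ, ∃ C : ℝ, 0 ≤ C ∧ ∀ t, t ≤ 0 →
      nsq (Y t *ᵥ u) ≤ C * (fE α (Y t) + fG β (Y t)) := by
    intro u
    obtain ⟨c, x, y, rfl⟩ := decomp (S.delta h) u
    refine ⟨(c ^ 2 + x ^ 2 + y ^ 2) * 66, by positivity, fun t ht => ?_⟩
    rw [sv_eq, Matrix.mulVec_add, Matrix.mulVec_add, Matrix.mulVec_smul, Matrix.mulVec_smul,
      Matrix.mulVec_smul, mul_assoc]
    refine (nsq_comb _ _ _ _ _ _).trans (mul_le_mul_of_nonneg_left ?_ (by positivity))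
    rw [← fE_eq, ← fG_eq]
    have k1 := S.dom_bwd h ht (sv α β 1 0)
    rw [← fE_eq] at k1
    have k2 := mul_le_mul_of_nonneg_right (nsq_sv_ge α β 1 0) (S.cf h t).1.le
    have k3 := (S.cf h t).2.2
    linarith [E_pos h α t, G_pos h β t]
  obtain ⟨C0, c0, k0⟩ := k (Pi.single 0 1)
  obtain ⟨C1, c1, k1⟩ := k (Pi.single 1 1)
  obtain ⟨C2, c2, k2⟩ := k (Pi.single 2 1)
  have Cp : 0 < C0 + C1 + C2 + 1 := by positivity
  refine r.comparable (fun n => pow_pos (fro_pos h _) 2) (c := (C0 + C1 + C2 + 1)⁻¹) (C := 4)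
    (by positivity) (by norm_num) (fun n => ?_) (fun n => S.T_le _)
  rw [inv_mul_le_iff₀ Cp, OdeMul.fro_sq_cols, Fin.sum_univ_three]
  linarith [k0 _ (hT n), k1 _ (hT n), k2 _ (hT n), E_pos h α (T n), G_pos h β (T n)]

theorem Split.back_two (S : Split Y α β a b) (h : TwoSys K Om Y H) (s : ℝ) (hs : 0 < s) {τ μ : ℝ}
    (rT : Rate (fun n : ℕ => fE α (Y (-(n * s))) + fG β (Y (-(n * s)))) τ)
    (rD : Rate (fun n : ℕ => fE α (Y (-(n * s))) * fG β (Y (-(n * s))) -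
      fF α β (Y (-(n * s))) ^ 2) (τ + μ)) :
    ∃ x y : ℝ, x ^ 2 + y ^ 2 = 1 ∧ Rate (fun n : ℕ => nsq (Y (-(n * s)) *ᵥ sv α β x y)) μ := by
  set e : ℕ → ℝ := fun n => Real.exp (21 / 5 * s * n) with he
  have ep : ∀ n, 0 < e n := fun n => Real.exp_pos _
  have re : Rate e (21 / 5 * s) := rate_exp _
  have eD : ∀ n : ℕ, e n * fE α (Y (-(n * s))) * (e n * fG β (Y (-(n * s)))) -
      (e n * fF α β (Y (-(n * s)))) ^ 2 = e n ^ 2 * (fE α (Y (-(n * s))) * fG β (Y (-(n * s))) -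
        fF α β (Y (-(n * s))) ^ 2) := fun n => by ring
  have eF : ∀ (n : ℕ) (x y : ℝ), e n * fE α (Y (-(n * s))) * x ^ 2 +
      2 * (e n * fF α β (Y (-(n * s)))) * x * y + e n * fG β (Y (-(n * s))) * y ^ 2 =
      e n * nsq (Y (-(n * s)) *ᵥ sv α β x y) := fun n x y => by rw [nsq_sv]; ring
  obtain ⟨-, x, y, hxy, hr⟩ := two_dim (fun n : ℕ => e n * fE α (Y (-(n * s))))
    (fun n : ℕ => e n * fF α β (Y (-(n * s)))) (fun n : ℕ => e n * fG β (Y (-(n * s))))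
    (fun n => mul_pos (ep n) (E_pos h α _))
    (fun n => by rw [eD]; exact mul_pos (pow_pos (ep n) 2) (S.D_pos h _))
    (fun n x y => by
      rw [eF, eF]
      have g := (two_growth h (-(((n + 1 : ℕ) : ℝ) * s)) (-(n * s)) (by push_cast; nlinarith)
        (sv α β x y)).2
      have e1 : e (n + 1) = e n * Real.exp (21 / 5 * (-(n * s) - -(((n + 1 : ℕ) : ℝ) * s))) := by
        rw [he]
        simp only
        rw [← Real.exp_add]
        congr 1
        push_cast; ring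
      rw [e1, mul_assoc]
      exact mul_le_mul_of_nonneg_left g (ep n).le)
    (21 / 5 * s + τ) (21 / 5 * s + μ)
    (by
      simp only [← mul_add]
      exact re.mul rT ep fun n => add_pos (E_pos h α _) (G_pos h β _))
    (by
      simp only [eD]
      convert re.sq.mul rD (fun n => pow_pos (ep n) 2) (fun n => S.D_pos h _) using 1
      ring)
  refine ⟨x, y, hxy, ?_⟩
  simp only [eF] at hr
  have up : 0 < nsq (sv α β x y) := lt_of_lt_of_le (by rw [hxy]; norm_num) (nsq_sv_ge α β x y)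
  have k := hr.div re (fun n => mul_pos (ep n) (nsq_Y_pos h _ up)) ep
  rw [add_sub_cancel_left] at k
  convert k using 2 with n
  have := (ep n).ne'
  field_simp

theorem par {x y x' y' : ℝ} (hxy : x ^ 2 + y ^ 2 = 1) (hω : x * y' - y * x' = 0) (α β : ℝ) :
    sv α β x' y' = (x * x' + y * y') • sv α β x y := by
  have e1 : x' = (x * x' + y * y') * x := by linear_combination (-x') * hxy - y * hω
  have e2 : y' = (x * x' + y * y') * y := by linear_combination (-y') * hxy + x * hω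
  generalize x * x' + y * y' = r at *
  rw [e1, e2]
  funext i
  fin_cases i <;> simp [sv]
  ring

end OT

open OE OT in
theorem two_exponents {K Om Y H : ℝ → M3} (h : TwoSys K Om Y H) (s : ℝ) (hs : 0 < s)
    (l₀ l₁ l₂ : ℝ)
    (h0 : Tendsto (fun n : ℕ => Real.log (Y (n * s)).det / n) atTop (𝓝 l₀))
    (h1 : Tendsto (fun n : ℕ => Real.log (fro (Y (n * s))) / n) atTop (𝓝 l₁))
    (h2 : Tendsto (fun n : ℕ => Real.log (fro (Y (n * s))⁻¹) / n) atTop (𝓝 l₂))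
    (h0' : Tendsto (fun n : ℕ => Real.log (Y (-(n * s))).det / n) atTop (𝓝 (-l₀)))
    (h1' : Tendsto (fun n : ℕ => Real.log (fro (Y (-(n * s)))⁻¹) / n) atTop (𝓝 l₁))
    (h2' : Tendsto (fun n : ℕ => Real.log (fro (Y (-(n * s)))) / n) atTop (𝓝 l₂)) :
    0 < -l₂ / s ∧ -l₂ ≤ l₀ - l₁ + l₂ ∧
    (∃ u : Fin 3 → ℝ, u ≠ 0 ∧
      Tendsto (rate (fun t => Y t *ᵥ u) (fun t => H t *ᵥ u)) (atTop ⊔ atBot) (𝓝 (l₁ / s))) ∧
    ∃ u : Fin 3 → ℝ, u ≠ 0 ∧
      Tendsto (rate (fun t => Y t *ᵥ u) (fun t => H t *ᵥ u)) atTop (𝓝 (-l₂ / s)) ∧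
      (Tendsto (rate (fun t => Y t *ᵥ u) (fun t => H t *ᵥ u)) atBot (𝓝 (-l₂ / s)) ∨
        (-l₂ < l₀ - l₁ + l₂ ∧ Tendsto (rate (fun t => Y t *ᵥ u) (fun t => H t *ᵥ u)) atBot
          (𝓝 ((l₀ - l₁ + l₂) / s)))) ∧
      ∀ (w : Fin 3 → ℝ) (κ C : ℝ), κ < (l₀ - l₁ + l₂) / s →
        (∀ t, 0 ≤ t → nsq (Y t *ᵥ w) ≤ C * Real.exp (2 * κ * t)) → ∃ c : ℝ, w = c • u := by
  obtain ⟨α, β, hα, hβ, hsl⟩ := OT.slow_plane h
  obtain ⟨a, b, hf⟩ := fast_vec h
  have S : Split Y α β a b := ⟨hα, hβ, hsl, hf⟩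
  have ns : ∀ n : ℕ, 0 ≤ (n : ℝ) * s := fun n => by positivity
  have ns' : ∀ n : ℕ, -((n : ℝ) * s) ≤ 0 := fun n => neg_nonpos.mpr (ns n)
  have r0 : Rate (fun n : ℕ => (Y (n * s)).det ^ 2) (2 * l₀) := Rate.sq h0
  have r1 : Rate (fun n : ℕ => fro (Y (n * s)) ^ 2) (2 * l₁) := Rate.sq h1
  have r2 : Rate (fun n : ℕ => fro (Y (n * s))⁻¹ ^ 2) (2 * l₂) := Rate.sq h2
  have r0' : Rate (fun n : ℕ => (Y (-(n * s))).det ^ 2) (2 * -l₀) := Rate.sq h0'
  have r1' : Rate (fun n : ℕ => fro (Y (-(n * s)))⁻¹ ^ 2) (2 * l₁) := Rate.sq h1'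
  have r2' : Rate (fun n : ℕ => fro (Y (-(n * s))) ^ 2) (2 * l₂) := Rate.sq h2'
  have rf := S.rate_f_fwd h (fun n : ℕ => n * s) ns r1
  have rf' := S.rate_f_bwd h (fun n : ℕ => -(n * s)) ns' r1'
  have rD := S.rate_D h (fun n : ℕ => n * s) r0 rf
  have rD' := S.rate_D h (fun n : ℕ => -(n * s)) r0' rf'
  have rT := S.rate_T_fwd h (fun n : ℕ => n * s) ns r2 rD
  have rT' := S.rate_T_bwd h (fun n : ℕ => -(n * s)) ns' r2'
  rw [show 2 * l₂ + (2 * l₀ - 2 * l₁) = 2 * (l₀ - l₁ + l₂) by ring] at rT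
  rw [show 2 * l₀ - 2 * l₁ = 2 * (l₀ - l₁ + l₂) + 2 * -l₂ by ring] at rD
  rw [show 2 * l₂ = -(2 * -l₂) by ring] at rT'
  rw [show 2 * -l₀ - -(2 * l₁) = -(2 * -l₂) + -(2 * (l₀ - l₁ + l₂)) by ring] at rD'
  obtain ⟨hle, x, y, hxy, hr⟩ := two_dim (fun n : ℕ => fE α (Y (n * s)))
    (fun n : ℕ => fF α β (Y (n * s))) (fun n : ℕ => fG β (Y (n * s)))
    (fun n => E_pos h α _) (fun n => S.D_pos h _)
    (fun n x y => by
      rw [← nsq_sv, ← nsq_sv]
      refine OT.nsq_mono h ?_ _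
      push_cast; nlinarith) _ _ rT rD
  have oth : ∀ x' y' : ℝ, x * y' - y * x' ≠ 0 →
      Rate (fun n : ℕ => nsq (Y (n * s) *ᵥ sv α β x' y')) (2 * (l₀ - l₁ + l₂)) := by
    intro x' y' hω
    simp only [nsq_sv]
    exact other _ _ _ (fun n => E_pos h α _) (fun n => S.D_pos h _) _ _ rT rD hr hω
  simp only [← nsq_sv] at hr
  obtain ⟨x₀, y₀, hxy₀, hr₀⟩ := S.back_two h s hs rT' rD'
  have up : 0 < nsq (sv α β x y) := lt_of_lt_of_le (by rw [hxy]; norm_num) (nsq_sv_ge α β x y)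
  have hpos : 9 / 5 * s ≤ 2 * -l₂ := by
    have k := (rate_exp (9 / 5 * s)).mul (rate_const (nsq (sv α β x y)))
      (fun _ => Real.exp_pos _) (fun _ => up)
    rw [add_zero] at k
    refine k.le hr (fun n => mul_pos (Real.exp_pos _) up) fun n => ?_
    have := (two_growth h 0 (n * s) (ns n) (sv α β x y)).1
    rw [Y0_vec h] at this
    convert this using 3; ring
  have l21 : l₀ - l₁ + l₂ ≤ l₁ := by
    have := rT.le (r1.const_mul (fun n => pow_pos (fro_pos h _) 2) (C := 4) (by norm_num))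
      (fun n => add_pos (E_pos h α _) (G_pos h β _)) (fun n => S.T_le _)
    linarith
  refine ⟨div_pos (by linarith) hs, by linarith, ⟨![1, a, b], ?_, ?_⟩, sv α β x y, ?_,
    to_top h hs up hr, ?_, ?_⟩
  · intro h0
    have := congrFun h0 0
    simp at this
  · exact tendsto_sup.mpr ⟨to_top h hs (f_pos a b) (S.rate_f h _ rf),
      to_bot h hs (f_pos a b) (S.rate_f h _ rf')⟩
  · intro h0
    rw [h0] at up
    simp [nsq] at up
  · by_cases hω : x₀ * y - y₀ * x = 0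
    · have hb : Rate (fun n : ℕ => nsq (Y (-(n * s)) *ᵥ sv α β x y)) (-(2 * (l₀ - l₁ + l₂))) := by
        have e : (x₀ * x + y₀ * y) ^ 2 = 1 := by
          have : (x₀ * x + y₀ * y) ^ 2 + (x₀ * y - y₀ * x) ^ 2 =
            (x₀ ^ 2 + y₀ ^ 2) * (x ^ 2 + y ^ 2) := by ring
          rw [hω, hxy, hxy₀] at this
          linarith
        simp only [par hxy₀ hω α β, Matrix.mulVec_smul, nsq_smul, e, one_mul]
        exact hr₀
      rcases (show -l₂ ≤ l₀ - l₁ + l₂ by linarith).eq_or_lt with e | e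
      · left
        rw [← e] at hb
        exact to_bot h hs up hb
      · exact Or.inr ⟨e, to_bot h hs up hb⟩
    · left
      refine to_bot h hs up ?_
      simp only [nsq_sv] at hr₀ ⊢
      exact other _ _ _ (fun n => E_pos h α _) (fun n => S.D_pos h _) _ _ rT' rD' hr₀ hω
  · intro w κ C hκ hw
    rw [lt_div_iff₀ hs] at hκ
    have cmp : ∀ (g : ℕ → ℝ) (l : ℝ), Rate g l → (∀ n, 0 < g n) →
        (∀ n : ℕ, g n ≤ nsq (Y (n * s) *ᵥ w)) → l ≤ 2 * (κ * s) := by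
      intro g l hg g0 gle
      have Cp : 0 < C := by
        have k1 := (g0 0).trans_le ((gle 0).trans (hw _ (ns 0)))
        exact (mul_pos_iff_of_pos_right (Real.exp_pos _)).mp k1
      refine hg.le ((rate_exp (2 * (κ * s))).const_mul (fun _ => Real.exp_pos _) Cp) g0
        fun n => (gle n).trans ((hw _ (ns n)).trans (le_of_eq ?_))
      congr 2; ring
    obtain ⟨c, x', y', rfl⟩ := decomp (S.delta h) w
    have c0 : c = 0 := by
      by_contra hc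
      have c2 : 0 < c ^ 2 / 30 := by positivity
      have := cmp _ _ (rf.const_mul (fun n => (S.cf h _).1) c2)
        (fun n => mul_pos c2 (S.cf h _).1) fun n => by
          have k := trans_low c _ _ (S.cf h (n * s)).2.1 (S.slow (n * s) x' y')
          rw [Matrix.mulVec_add, Matrix.mulVec_smul]
          linarith
      linarith
    rw [c0, zero_smul, zero_add] at cmp ⊢
    by_cases hω : x * y' - y * x' = 0
    · exact ⟨_, par hxy hω α β⟩
    · exfalso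
      have wp : 0 < nsq (sv α β x' y') := by
        refine lt_of_lt_of_le ?_ (nsq_sv_ge α β x' y')
        rcases (add_nonneg (sq_nonneg x') (sq_nonneg y')).eq_or_lt with e | e
        · have a1 : x' = 0 := by nlinarith [sq_nonneg x', sq_nonneg y']
          have a2 : y' = 0 := by nlinarith [sq_nonneg x', sq_nonneg y']
          rw [a1, a2] at hω
          simp at hω
        · exact e
      have := cmp _ _ (oth x' y' hω) (fun n => nsq_Y_pos h _ wp) fun n => le_rfl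
      linarith

end Pool.Agent.MP_019006_gt
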