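import Pool.Agent.MP_019006_gt.Basic2
import Pool.Agent.MP_019006_gt.OdeMul

set_option autoImplicit false

open MeasureTheory Filter Topology Set Matrix

namespace Pool.Agent.MP_019006_gt

namespace Unst

/-- A matrix solution of the Jacobi system. -/
def Sol (K Om Y H : ℝ → M3) : Prop :=
  (∀ t, OdeMul.HD Y (H t - Om t * Y t) t) ∧ ∀ t, OdeMul.HD H (K t * Y t - Om t * H t) t

variable {K Om Y H Y' H' Z G : ℝ → M3}

theorem Sol.shift (h : Sol K Om Y H) (s : ℝ) :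
    Sol (fun t => K (s + t)) (fun t => Om (s + t)) (fun t => Y (s + t)) (fun t => H (s + t)) :=
  ⟨fun t => (h.1 (s + t)).shift, fun t => (h.2 (s + t)).shift⟩

theorem Sol.comb (h : Sol K Om Y H) (h' : Sol K Om Y' H') (B : M3) :
    Sol K Om (fun t => Y t + Y' t * B) (fun t => H t + H' t * B) := by
  refine ⟨fun t i j => ?_, fun t i j => ?_⟩
  · refine ((h.1 t i j).add ((h'.1 t).mul_const B i j)).congr_deriv ?_
    rw [← Matrix.add_apply]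
    exact congrFun (congrFun (by noncomm_ring) i) j
  · refine ((h.2 t i j).add ((h'.2 t).mul_const B i j)).congr_deriv ?_
    rw [← Matrix.add_apply]
    exact congrFun (congrFun (by noncomm_ring) i) j

theorem wr (hK : ∀ t, (K t)ᵀ = K t) (hO : ∀ t, (Om t)ᵀ = -Om t) (h : Sol K Om Y H)
    (h' : Sol K Om Z G) (t : ℝ) :
    (Y t)ᵀ * G t - (H t)ᵀ * Z t = (Y 0)ᵀ * G 0 - (H 0)ᵀ * Z 0 := by
  have d : ∀ r, OdeMul.HD (fun r => (Y r)ᵀ * G r - (H r)ᵀ * Z r) 0 r := fun r => by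
    have k := ((h.1 r).transpose.mul (h'.2 r)).sub ((h.2 r).transpose.mul (h'.1 r))
    convert k using 1
    simp only [Matrix.transpose_sub, Matrix.transpose_mul, hK, hO]
    noncomm_ring
  ext i j
  exact is_const_of_deriv_eq_zero (fun r => (d r i j).differentiableAt)
    (fun r => (d r i j).deriv) t 0

theorem U0_symm : U0ᵀ = U0 := Matrix.diagonal_transpose _

theorem rep (hJ : JacSys K Om Y H) (hD : DirSys K Om Y' H') (h : Sol K Om Z G) (t : ℝ) :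
    Z t = Y t * Z 0 + Y' t * (G 0 - U0 * Z 0) ∧ G t = H t * Z 0 + H' t * (G 0 - U0 * Z 0) := by
  have s1 : Sol K Om Y H := ⟨hJ.dY, hJ.dH⟩
  have s2 : Sol K Om Y' H' := ⟨hD.dY, hD.dH⟩
  have w11 := wr hJ.Ks hJ.Oa s1 s1 t
  have w12 := wr hJ.Ks hJ.Oa s1 s2 t
  have w21 := wr hJ.Ks hJ.Oa s2 s1 t
  have w22 := wr hJ.Ks hJ.Oa s2 s2 t
  have w1 := wr hJ.Ks hJ.Oa s1 h t
  have w2 := wr hJ.Ks hJ.Oa s2 h t
  simp only [hJ.Y0, hJ.H0, hD.Y0, hD.H0, U0_symm, Matrix.transpose_one, Matrix.transpose_zero,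
    Matrix.one_mul, Matrix.mul_one, Matrix.zero_mul, Matrix.mul_zero, sub_self, sub_zero,
    zero_sub] at w11 w12 w21 w22 w1 w2
  have e : fromBlocks (H' t)ᵀ (-(Y' t)ᵀ) (-(H t)ᵀ) (Y t)ᵀ * fromBlocks (Y t) (Y' t) (H t) (H' t) =
      1 := by
    rw [fromBlocks_multiply, ← fromBlocks_one]
    congr 1
    · rw [← neg_neg (1 : M3), ← w21]; noncomm_ring
    · rw [← neg_zero, ← w22]; noncomm_ring
    · rw [← w11]; noncomm_ring
    · rw [← w12]; noncomm_ring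
  have e' := mul_eq_one_comm.1 e
  rw [fromBlocks_multiply, ← fromBlocks_one, fromBlocks_inj] at e'
  obtain ⟨a, b, c, d⟩ := e'
  have w2' : Z 0 = (H' t)ᵀ * Z t - (Y' t)ᵀ * G t := by rw [← neg_neg (Z 0), ← w2, neg_sub]
  rw [← w1, w2']
  constructor
  · calc Z t = 1 * Z t + 0 * G t := by simp
      _ = _ := by rw [← a, ← b]; noncomm_ring
  · calc G t = 0 * Z t + 1 * G t := by simp
      _ = _ := by rw [← c, ← d]; noncomm_ring

theorem ric_symm (hC : Cone K Om Y H) {t : ℝ} (ht : 0 ≤ t) :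
    (H t * (Y t)⁻¹)ᵀ = H t * (Y t)⁻¹ := by
  have u1 : Y t * (Y t)⁻¹ = 1 := Matrix.mul_nonsing_inv _ (Ne.isUnit (hC.det_pos t ht).ne')
  have u2 : (Y t)⁻¹ᵀ * (Y t)ᵀ = 1 := by rw [← Matrix.transpose_mul, u1, Matrix.transpose_one]
  calc (H t * (Y t)⁻¹)ᵀ = (Y t)⁻¹ᵀ * ((H t)ᵀ * Y t) * (Y t)⁻¹ := by
        rw [Matrix.mul_assoc, Matrix.mul_assoc, u1, Matrix.mul_one, Matrix.transpose_mul]
    _ = _ := by rw [← hC.wronski t, ← Matrix.mul_assoc, u2, Matrix.one_mul]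

theorem ric_close {s : ℝ} (hs : 0 ≤ s) (hJ : JacSys K Om Y H) (hC : Cone K Om Y H)
    (hJ' : JacSys (fun t => K (s + t)) (fun t => Om (s + t)) Y' H')
    (hC' : Cone (fun t => K (s + t)) (fun t => Om (s + t)) Y' H') {t : ℝ} (ht : 0 ≤ t)
    (i j : Fin 3) :
    |(H (s + t) * (Y (s + t))⁻¹) i j - (H' t * (Y' t)⁻¹) i j| ≤ Real.exp (-(t / 2)) := by
  have w := wr hJ'.Ks hJ'.Oa ⟨hJ'.dY, hJ'.dH⟩ (Sol.shift ⟨hJ.dY, hJ.dH⟩ s) t
  simp only [hJ'.Y0, hJ'.H0, U0_symm, Matrix.transpose_one, Matrix.one_mul, add_zero] at w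
  have u1 : Y' t * (Y' t)⁻¹ = 1 := Matrix.mul_nonsing_inv _ (Ne.isUnit (hC'.det_pos t ht).ne')
  have u2 : (Y' t)⁻¹ᵀ * (Y' t)ᵀ = 1 := by rw [← Matrix.transpose_mul, u1, Matrix.transpose_one]
  have u3 : Y (s + t) * (Y (s + t))⁻¹ = 1 :=
    Matrix.mul_nonsing_inv _ (Ne.isUnit (hC.det_pos _ (add_nonneg hs ht)).ne')
  have e : H (s + t) * (Y (s + t))⁻¹ - H' t * (Y' t)⁻¹ =
      (Y' t)⁻¹ᵀ * ((H s - U0 * Y s) * (Y (s + t))⁻¹) := by
    rw [← w, ← ric_symm hC' ht, Matrix.transpose_mul, Matrix.sub_mul, Matrix.mul_sub,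
      Matrix.mul_assoc, Matrix.mul_assoc, u3, ← Matrix.mul_assoc, u2, Matrix.one_mul,
      Matrix.mul_one]
  rw [← Matrix.sub_apply, e]
  have h1 := OdeMul.entry_sq_le ((Y' t)⁻¹ᵀ * ((H s - U0 * Y s) * (Y (s + t))⁻¹)) i j
  have h2 := OdeMul.transpose_bound (Y' t)⁻¹ _ (Real.exp_pos _).le
    (fun u => (OdeMul.growth_inv hJ' hC' t ht u).2)
    ((H s - U0 * Y s) *ᵥ ((Y (s + t))⁻¹ *ᵥ Pi.single j 1))
  have h3 := hC.cone s hs ((Y (s + t))⁻¹ *ᵥ Pi.single j 1)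
  have h4 := (growth_vec hJ hC s (s + t) hs (by linarith) ((Y (s + t))⁻¹ *ᵥ Pi.single j 1)).1
  rw [Matrix.mulVec_mulVec _ (Y (s + t)), u3, Matrix.one_mulVec, OdeMul.nsq_single] at h4
  rw [← Matrix.mulVec_mulVec, ← Matrix.mulVec_mulVec] at h1
  have h5 : 1 ≤ Real.exp (9 / 5 * (s + t - s)) := Real.one_le_exp (by linarith)
  have h6 := OdeMul.nsq_nonneg (Y s *ᵥ ((Y (s + t))⁻¹ *ᵥ Pi.single j 1))
  have h7 : nsq ((H s - U0 * Y s) *ᵥ ((Y (s + t))⁻¹ *ᵥ Pi.single j 1)) ≤ 1 / 100 := by nlinarith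
  have h8 := mul_le_mul_of_nonneg_left h7 (Real.exp_pos (-(9 / 5 * t))).le
  have h9 : Real.exp (-(9 / 5 * t)) * (1 / 100) ≤ Real.exp (-(t / 2)) ^ 2 := by
    rw [← Real.exp_nat_mul]
    have := Real.exp_le_exp.2 (show -(9 / 5 * t) ≤ ((2 : ℕ) : ℝ) * -(t / 2) by push_cast; linarith)
    linarith [Real.exp_pos (-(9 / 5 * t))]
  exact abs_le.2 (abs_le_of_sq_le_sq' (by linarith) (Real.exp_pos _).le)

theorem cont_nsq (u : Fin 3 → ℝ) : Continuous fun A : M3 => nsq (A *ᵥ u) := by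
  unfold nsq
  fun_prop

theorem det_ne {A : M3} {c : ℝ} (h : ∀ u, nsq u ≤ c * nsq (A *ᵥ u)) : A.det ≠ 0 := by
  intro h0
  obtain ⟨v, hv, h1⟩ := Matrix.exists_mulVec_eq_zero_iff.2 h0
  have h2 := h v
  rw [h1] at h2
  refine hv ?_
  simp only [nsq, Pi.zero_apply] at h2
  ext i
  fin_cases i <;> simp <;> nlinarith [sq_nonneg (v 0), sq_nonneg (v 1), sq_nonneg (v 2)]

theorem log_close {A E : M3} (hA : 0 < A.det) (hE : ∀ i j, |E i j| ≤ 1 / 18) :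
    |Real.log (fro (A * (1 + E))) - Real.log (fro A)| ≤ 1 ∧
      |Real.log (A * (1 + E)).det - Real.log A.det| ≤ 1 := by
  have d4 := OdeMul.small_det hE
  have d5 : 0 < (1 + E).det := by linarith [d4.1]
  have d6 : ((1 + E)⁻¹).det ≠ 0 := by
    rw [Matrix.det_nonsing_inv, Ring.inverse_eq_inv']
    exact (inv_pos.2 d5).ne'
  have d7 : (A * (1 + E)).det ≠ 0 := by
    rw [Matrix.det_mul]
    positivity
  have f1 : Real.log (fro (1 + E)) ≤ 1 :=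
    OdeMul.log_fro_le_one d5.ne' fun u => (OdeMul.small_one_add hE u).2
  have f2 : Real.log (fro (1 + E)⁻¹) ≤ 1 := by
    refine OdeMul.log_fro_le_one d6 fun u => ?_
    have h := (OdeMul.small_one_add hE ((1 + E)⁻¹ *ᵥ u)).1
    rw [Matrix.mulVec_mulVec, Matrix.mul_nonsing_inv _ (Ne.isUnit d5.ne'), Matrix.one_mulVec] at h
    linarith
  have m : ∀ B C : M3, B.det ≠ 0 → C.det ≠ 0 →
      Real.log (fro (B * C)) ≤ Real.log (fro B) + Real.log (fro C) := fun B C hB hC => by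
    rw [← Real.log_mul (OdeMul.fro_pos hB).ne' (OdeMul.fro_pos hC).ne']
    exact Real.log_le_log (OdeMul.fro_pos (by rw [Matrix.det_mul]; exact mul_ne_zero hB hC))
      (OdeMul.fro_mul_le _ _)
  have m1 := m A (1 + E) hA.ne' d5.ne'
  have m2 := m (A * (1 + E)) (1 + E)⁻¹ d7 d6
  rw [Matrix.mul_assoc, Matrix.mul_nonsing_inv _ (Ne.isUnit d5.ne'), Matrix.mul_one] at m2
  have l1 := Real.log_le_sub_one_of_pos d5
  have l2 := Real.one_sub_inv_le_log_of_pos d5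
  have l3 : ((1 + E).det)⁻¹ ≤ 2 := by
    rw [inv_le_comm₀ d5 (by norm_num)]
    linarith [d4.1]
  rw [Matrix.det_mul, Real.log_mul hA.ne' d5.ne']
  exact ⟨abs_le.2 ⟨by linarith, by linarith⟩, abs_le.2 ⟨by linarith, by linarith [d4.2]⟩⟩

end Unst

end Pool.Agent.MP_019006_gt
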