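import Pool.Agent.MP_019006_gt.Basic3
import Pool.Agent.MP_019006_gt.Distort2
import Pool.Agent.MP_019006_gt.Unstable1

set_option autoImplicit false

open MeasureTheory Filter Topology Set Matrix

namespace Pool.Agent.MP_019006_gt

namespace Unst

variable {G : Type} [Group G] {ρ : G →* C3} {f β : EE → ℝ} {φ : Flo} {M : DFlo} {e r R : ℝ}

theorem cont_YH (h : Ctx f φ M) {ξ : Fin 3 → EE × EE → EE × EE}
    (hξ : ∀ j, ContinuousOn (ξ j) OO) :
    ContinuousOn (fun z : ℝ × (EE × EE) => (fun i j => gg f (φ z.1 z.2).1 (M z.1 z.2 (ξ j z.2)).1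
      (frame (φ z.1 z.2) i) : M3)) (univ ×ˢ OO) ∧
    ContinuousOn (fun z : ℝ × (EE × EE) => (fun i j => gg f (φ z.1 z.2).1
      ((M z.1 z.2 (ξ j z.2)).2 + Gam f (φ z.1 z.2).1 (φ z.1 z.2).2 (M z.1 z.2 (ξ j z.2)).1)
      (frame (φ z.1 z.2) i) : M3)) (univ ×ˢ OO) := by
  have hφ := h.flow
  have hmaps : MapsTo (fun q : ℝ × (EE × EE) => φ q.1 q.2) (univ ×ˢ OO) OO :=
    fun q hq => hφ.mem q.1 q.2 hq.2
  have hm1 : MapsTo (fun q : ℝ × (EE × EE) => (φ q.1 q.2).1) (univ ×ˢ OO) Bl :=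
    fun q hq => mem_OO.1 (hmaps hq)
  have h1 := (contDiffOn_gg h.conf.smooth 0).continuousOn.comp hφ.cont.fst hm1
  have h2 := (contDiffOn_GamL h.conf.smooth 0).continuousOn.comp hφ.cont.fst hm1
  have h3 := fun i => (contDiffOn_frame i 0).continuousOn.comp hφ.cont hmaps
  have h4 := fun j => hφ.Mcont.clm_apply ((hξ j).comp continuous_snd.continuousOn
    fun q hq => hq.2)
  exact ⟨continuousOn_pi.2 fun i => continuousOn_pi.2 fun j =>
      (h1.clm_apply (h4 j).fst).clm_apply (h3 i),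
    continuousOn_pi.2 fun i => continuousOn_pi.2 fun j =>
      (h1.clm_apply ((h4 j).snd.add ((h2.clm_apply hφ.cont.snd).clm_apply (h4 j).fst))).clm_apply
        (h3 i)⟩

theorem cont_H (h : Ctx f φ M) :
    ContinuousOn (fun z : ℝ × (EE × EE) => Hmat f φ M z.2 z.1) (univ ×ˢ OO) := by
  refine (cont_YH h (ξ := fun j p => xi f p (frame p j)) fun j => ?_).2
  have hm : MapsTo (Prod.fst : EE × EE → EE) OO Bl := fun p hp => mem_OO.mp hp
  have h1 := (contDiffOn_gg h.conf.smooth 0).continuousOn.comp continuousOn_fst hm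
  have h2 := (contDiffOn_GamL h.conf.smooth 0).continuousOn.comp continuousOn_fst hm
  have hF := (contDiffOn_frame j 0).continuousOn
  have hI := (contDiffOn_frame 0 0).continuousOn
  exact hF.prodMk ((hF.add (((h1.clm_apply hF).clm_apply hI).smul hI)).sub
    ((h2.clm_apply continuousOn_snd).clm_apply hF))

theorem cont_YD (h : Ctx f φ M) :
    ContinuousOn (fun z : ℝ × (EE × EE) => YD f φ M z.2 z.1) (univ ×ˢ OO) :=
  (cont_YH h (ξ := fun j p => (0, frame p j)) fun j =>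
    continuousOn_const.prodMk (contDiffOn_frame j 0).continuousOn).1

theorem YH_mobT {A : C3} (hA : IsU21 A) (h : Ctx f φ M)
    (hfA : ∀ x ∈ Bl, f (mob A x) = f x) {p : EE × EE} (hp : p.1 ∈ Bl) (h1 : en f p = 1) (t : ℝ) :
    Ymat f φ M (mobT A p) t = (Inv.rot A f (φ t p))ᵀ * Ymat f φ M p t * Inv.rot A f p ∧
    Hmat f φ M (mobT A p) t = (Inv.rot A f (φ t p))ᵀ * Hmat f φ M p t * Inv.rot A f p := by
  have hf := h.conf.smooth
  have hφ := h.flow
  have hq : (φ t p).1 ∈ Bl := mem_OO.1 (hφ.mem t p (mem_OO.2 hp))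
  have hq1 : en f (φ t p) = 1 := by rw [en_flow hf hφ, h1]
  have e1 : (mobT A (φ t p)).1 = mob A (φ t p).1 := by rw [Inv.mobT_of_mem A hq]
  have e0 : ∀ j, xi f (mobT A p) (frame (mobT A p) j) = fderiv ℝ (mobT A) p
      (Inv.rot A f p 0 j • xi f p (frame p 0) + Inv.rot A f p 1 j • xi f p (frame p 1) +
        Inv.rot A f p 2 j • xi f p (frame p 2)) := fun j => by
    rw [Inv.frame_mobT hA hfA hp h1 j, ← Inv.fderiv_mobT_xi hA hf hfA hp]
    simp only [Inv.xi_add, Inv.xi_smul]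
  constructor
  · ext i j
    simp only [Matrix.mul_apply, Matrix.transpose_apply, Fin.sum_univ_three, Ymat]
    rw [e0, Inv.M_mobT hA hf hfA hφ hp, flow_mobT hA hf hfA hφ, (Dstr.conn_mobT hA hf hfA hq _).1,
      Inv.frame_mobT hA hfA hq hq1 i, e1, Inv.gg_mob hA hfA hq]
    simp only [map_add, map_smul, Prod.fst_add, Prod.smul_fst, _root_.add_apply,
      _root_.smul_apply, smul_eq_mul]
    ring
  · ext i j
    simp only [Matrix.mul_apply, Matrix.transpose_apply, Fin.sum_univ_three, Hmat]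
    rw [e0, Inv.M_mobT hA hf hfA hφ hp, flow_mobT hA hf hfA hφ, (Dstr.conn_mobT hA hf hfA hq _).2,
      Inv.frame_mobT hA hfA hq hq1 i, e1, Inv.gg_mob hA hfA hq]
    simp only [map_add, map_smul, Prod.fst_add, Prod.smul_fst, Prod.snd_add, Prod.smul_snd,
      Gam_add_right, Gam_smul_right, _root_.add_apply, _root_.smul_apply, smul_eq_mul]
    ring

/-- The approximate unstable Riccati solution. -/
noncomputable def UT (f : EE → ℝ) (φ : Flo) (M : DFlo) (q : EE × EE) (T : ℝ) : M3 :=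
  Hmat f φ M (φ (-T) q) T * (Ymat f φ M (φ (-T) q) T)⁻¹

theorem umem (h : World ρ f β φ M e r R) {q : EE × EE} (hq : q ∈ unitB f) (t : ℝ) :
    φ t q ∈ unitB f := ⟨h.fmem t hq.1, by rw [h.fen, hq.2]⟩

theorem back (h : World ρ f β φ M e r R) (q : EE × EE) (s t : ℝ) :
    φ s (φ (-(s + t)) q) = φ (-t) q := by
  rw [← h.ctx.flow.add]
  congr 1
  ring

theorem back0 (h : World ρ f β φ M e r R) (q : EE × EE) (s : ℝ) : φ s (φ (-s) q) = q := by
  rw [← h.ctx.flow.add, add_neg_cancel, h.ctx.flow.zero]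

theorem shift (h : World ρ f β φ M e r R) {p : EE × EE} (hp : p ∈ unitB f) (s : ℝ) :
    JacSys (fun t => Kmat f (φ (s + t) p)) (fun t => Omat f (φ (s + t) p)) (Ymat f φ M (φ s p))
      (Hmat f φ M (φ s p)) ∧
    Cone (fun t => Kmat f (φ (s + t) p)) (fun t => Omat f (φ (s + t) p)) (Ymat f φ M (φ s p))
      (Hmat f φ M (φ s p)) ∧
    DirSys (fun t => Kmat f (φ (s + t) p)) (fun t => Omat f (φ (s + t) p)) (YD f φ M (φ s p))
      (HD f φ M (φ s p)) := by
  have hq := umem h hp s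
  have e1 : ∀ u, φ u (φ s p) = φ (s + u) p := fun u => by rw [add_comm, h.ctx.flow.add]
  have hJ := h.jac hq.1 hq.2
  have hC := h.cone hq.1 hq.2
  have hD := dirSys h.ctx hq.1 hq.2
  simp only [e1] at hJ hC hD
  exact ⟨hJ, hC, hD⟩

theorem UT_cauchy (h : World ρ f β φ M e r R) {q : EE × EE} (hq : q ∈ unitB f) {T T' : ℝ}
    (hT : 0 ≤ T) (hT' : T ≤ T') (i j : Fin 3) :
    |UT f φ M q T' i j - UT f φ M q T i j| ≤ Real.exp (-(T / 2)) := by
  obtain ⟨s, rfl⟩ : ∃ s, T' = s + T := ⟨T' - T, by ring⟩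
  have hp := umem h hq (-(s + T))
  obtain ⟨a, b, -⟩ := shift h hp s
  have k := ric_close (by linarith) (h.jac hp.1 hp.2) (h.cone hp.1 hp.2) a b hT i j
  rwa [back h] at k

theorem exp_tend : Tendsto (fun T : ℝ => Real.exp (-(T / 2))) atTop (𝓝 0) :=
  Real.tendsto_exp_neg_atTop_nhds_zero.comp (tendsto_id.atTop_div_const two_pos)

theorem Uu_close (h : World ρ f β φ M e r R) {q : EE × EE} (hq : q ∈ unitB f) {T : ℝ}
    (hT : 0 ≤ T) (i j : Fin 3) : |Uu f φ M q i j - UT f φ M q T i j| ≤ Real.exp (-(T / 2)) := by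
  have c : CauchySeq fun n : ℕ => UT f φ M q n i j :=
    cauchySeq_of_le_tendsto_0' (fun n : ℕ => Real.exp (-((n : ℝ) / 2)))
      (fun n m hnm => by
        rw [dist_comm, Real.dist_eq]
        exact UT_cauchy h hq (Nat.cast_nonneg n) (Nat.cast_le.2 hnm) i j)
      (exp_tend.comp tendsto_natCast_atTop_atTop)
  refine le_of_tendsto (c.tendsto_limUnder.sub_const (UT f φ M q T i j)).abs ?_
  filter_upwards [tendsto_natCast_atTop_atTop.eventually_ge_atTop T] with n hn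
  exact UT_cauchy h hq hT hn i j

theorem UT_tend (h : World ρ f β φ M e r R) {q : EE × EE} (hq : q ∈ unitB f) :
    Tendsto (UT f φ M q) atTop (𝓝 (Uu f φ M q)) := by
  refine tendsto_pi_nhds.2 fun i => tendsto_pi_nhds.2 fun j => ?_
  rw [tendsto_iff_dist_tendsto_zero]
  refine squeeze_zero' (Eventually.of_forall fun _ => dist_nonneg) ?_ exp_tend
  filter_upwards [eventually_ge_atTop 0] with T hT
  rw [dist_comm, Real.dist_eq]
  exact Uu_close h hq hT i j

theorem Uu_cont (h : World ρ f β φ M e r R) : ContinuousOn (Uu f φ M) (unitB f) := by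
  refine continuousOn_pi.2 fun i => continuousOn_pi.2 fun j => ?_
  have u : TendstoUniformlyOn (fun T q => UT f φ M q T i j) (fun q => Uu f φ M q i j) atTop
      (unitB f) := by
    refine Metric.tendstoUniformlyOn_iff.2 fun ε hε => ?_
    filter_upwards [eventually_ge_atTop 0, exp_tend.eventually (gt_mem_nhds hε)] with T hT hT' q hq
    rw [Real.dist_eq]
    exact (Uu_close h hq hT i j).trans_lt hT'
  refine u.continuousOn (Eventually.frequently ?_)
  filter_upwards [eventually_ge_atTop 0] with T hT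
  have c0 : ContinuousOn (fun q : EE × EE => (T, φ (-T) q)) (unitB f) :=
    continuousOn_const.prodMk (h.ctx.flow.cont.comp (continuousOn_const.prodMk continuousOn_id)
      fun q hq => ⟨mem_univ _, mem_OO.2 hq.1⟩)
  have cm : MapsTo (fun q : EE × EE => (T, φ (-T) q)) (unitB f) (univ ×ˢ OO) :=
    fun q hq => ⟨mem_univ _, mem_OO.2 (umem h hq _).1⟩
  have c1 := (continuousOn_Ymat h.sm h.ctx.flow).comp c0 cm
  have c2 := (cont_H h.ctx).comp c0 cm
  have c3 : ContinuousOn (fun q => (Ymat f φ M (φ (-T) q) T)⁻¹) (unitB f) := fun q hq => by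
    have hp := umem h hq (-T)
    refine ContinuousAt.comp_continuousWithinAt (g := Inv.inv) (continuousAt_matrix_inv _ ?_)
      (c1 q hq)
    rw [Ring.inverse_eq_inv']
    exact continuousAt_inv₀ ((h.cone hp.1 hp.2).det_pos T hT).ne'
  exact continuousOn_pi.1 (continuousOn_pi.1 (c2.mul c3) i) j

/-- The approximate unstable Jacobi matrices. -/
noncomputable def YT (f : EE → ℝ) (φ : Flo) (M : DFlo) (q : EE × EE) (t T : ℝ) : M3 :=
  Ymat f φ M q t + YD f φ M q t * (UT f φ M q T - U0)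

noncomputable def HT (f : EE → ℝ) (φ : Flo) (M : DFlo) (q : EE × EE) (t T : ℝ) : M3 :=
  Hmat f φ M q t + HD f φ M q t * (UT f φ M q T - U0)

theorem YH_tend (h : World ρ f β φ M e r R) {q : EE × EE} (hq : q ∈ unitB f) (t : ℝ) :
    Tendsto (YT f φ M q t) atTop (𝓝 (Yu f φ M q t)) ∧
      Tendsto (HT f φ M q t) atTop (𝓝 (Hu f φ M q t)) :=
  ⟨(((UT_tend h hq).sub_const U0).const_mul _).const_add _,
    (((UT_tend h hq).sub_const U0).const_mul _).const_add _⟩

theorem YH_eq (h : World ρ f β φ M e r R) {q : EE × EE} (hq : q ∈ unitB f) (t : ℝ) {T : ℝ}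
    (hT : 0 ≤ T) :
    YT f φ M q t T = Ymat f φ M (φ (-T) q) (T + t) * (Ymat f φ M (φ (-T) q) T)⁻¹ ∧
      HT f φ M q t T = Hmat f φ M (φ (-T) q) (T + t) * (Ymat f φ M (φ (-T) q) T)⁻¹ := by
  have hp := umem h hq (-T)
  obtain ⟨a, -, c⟩ := shift h hp T
  have hJ := h.jac hp.1 hp.2
  obtain ⟨k1, k2⟩ := rep a c (Sol.shift ⟨hJ.dY, hJ.dH⟩ T) t
  have u := Matrix.mul_nonsing_inv _ (Ne.isUnit ((h.cone hp.1 hp.2).det_pos T hT).ne')
  simp only [add_zero, back0 h] at k1 k2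
  rw [k1, k2]
  simp only [YT, HT, UT, Matrix.add_mul, Matrix.mul_assoc, Matrix.sub_mul, u, Matrix.mul_one,
    and_self]

theorem sol_u (h : World ρ f β φ M e r R) {q : EE × EE} (hq : q ∈ unitB f) :
    Sol (fun t => Kmat f (φ t q)) (fun t => Omat f (φ t q)) (Yu f φ M q) (Hu f φ M q) := by
  have hJ := h.jac hq.1 hq.2
  have hD := dirSys h.ctx hq.1 hq.2
  exact Sol.comb ⟨hJ.dY, hJ.dH⟩ ⟨hD.dY, hD.dH⟩ _

theorem Hu_eq (h : World ρ f β φ M e r R) {q : EE × EE} (hq : q ∈ unitB f) (s : ℝ) :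
    Hu f φ M q s = Uu f φ M (φ s q) * Yu f φ M q s := by
  refine tendsto_nhds_unique_of_eventuallyEq (YH_tend h hq s).2
    (((UT_tend h (umem h hq s)).comp (tendsto_atTop_add_const_right _ s tendsto_id)).mul
      (YH_tend h hq s).1) ?_
  filter_upwards [eventually_ge_atTop 0, eventually_ge_atTop (-s)] with T hT hT'
  have hp := umem h hq (-T)
  have e1 : φ (-(T + s)) (φ s q) = φ (-T) q := by
    rw [← h.ctx.flow.add]
    congr 1
    ring
  have u := Matrix.nonsing_inv_mul _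
    (Ne.isUnit ((h.cone hp.1 hp.2).det_pos (T + s) (by linarith)).ne')
  simp only [Function.comp_apply, id]
  rw [(YH_eq h hq s hT).1, (YH_eq h hq s hT).2, UT, e1, Matrix.mul_assoc,
    ← Matrix.mul_assoc _ (Ymat f φ M (φ (-T) q) (T + s)), u, Matrix.one_mul]

end Unst

open Unst

theorem World.twoSys {G : Type} [Group G] {ρ : G →* C3} {f β : EE → ℝ} {φ : Flo} {M : DFlo}
    {e r R : ℝ} (h : World ρ f β φ M e r R) {q : EE × EE} (hq : q ∈ unitB f) :
    TwoSys (fun t => Kmat f (φ t q)) (fun t => Omat f (φ t q)) (Yu f φ M q) (Hu f φ M q) := by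
  have hJ := h.jac hq.1 hq.2
  have hD := dirSys h.ctx hq.1 hq.2
  have hs := sol_u h hq
  have ev : ∀ t : ℝ, ∀ᶠ T in atTop, 0 ≤ T ∧ 0 ≤ T + t := fun t => by
    filter_upwards [eventually_ge_atTop 0, eventually_ge_atTop (-t)] with T h1 h2
    exact ⟨h1, by linarith⟩
  refine ⟨hJ.Kc, hJ.Oc, hJ.Ks, hJ.Oa, hs.1, hs.2, by simp [Yu, hJ.Y0, hD.Y0], fun t => ?_,
    fun t => ?_, fun t u => ?_, (h.cone hq.1 hq.2).Om0⟩
  · refine lt_of_le_of_ne ?_ (det_ne (c := Real.exp (21 / 5 * |t|)) fun u => ?_).symm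
    · refine ge_of_tendsto ((continuous_id.matrix_det.tendsto _).comp (YH_tend h hq t).1) ?_
      filter_upwards [ev t] with T hT
      have hp := umem h hq (-T)
      have d1 := (h.cone hp.1 hp.2).det_pos T hT.1
      have d2 := (h.cone hp.1 hp.2).det_pos _ hT.2
      simp only [Function.comp_apply, id]
      rw [(YH_eq h hq t hT.1).1, Matrix.det_mul, Matrix.det_nonsing_inv, Ring.inverse_eq_inv']
      positivity
    · refine ge_of_tendsto ((((cont_nsq u).tendsto _).comp (YH_tend h hq t).1).const_mul _) ?_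
      filter_upwards [ev t] with T hT
      have hp := umem h hq (-T)
      have g := growth_vec (h.jac hp.1 hp.2) (h.cone hp.1 hp.2)
      have u1 : u = Ymat f φ M (φ (-T) q) T *ᵥ ((Ymat f φ M (φ (-T) q) T)⁻¹ *ᵥ u) := by
        rw [Matrix.mulVec_mulVec, Matrix.mul_nonsing_inv _
          (Ne.isUnit ((h.cone hp.1 hp.2).det_pos T hT.1).ne'), Matrix.one_mulVec]
      simp only [Function.comp_apply]
      rw [(YH_eq h hq t hT.1).1, ← Matrix.mulVec_mulVec]
      generalize (Ymat f φ M (φ (-T) q) T)⁻¹ *ᵥ u = v at u1 ⊢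
      rw [u1]
      rcases le_total 0 t with ht | ht
      · have g1 := (g T (T + t) hT.1 (by linarith) v).1
        have g2 : 1 ≤ Real.exp (9 / 5 * (T + t - T)) := Real.one_le_exp (by linarith)
        have g3 : 1 ≤ Real.exp (21 / 5 * |t|) := Real.one_le_exp (by positivity)
        nlinarith [OdeMul.nsq_nonneg (Ymat f φ M (φ (-T) q) T *ᵥ v),
          OdeMul.nsq_nonneg (Ymat f φ M (φ (-T) q) (T + t) *ᵥ v)]
      · have g1 := (g (T + t) T hT.2 (by linarith) v).2
        rwa [show T - (T + t) = |t| by rw [abs_of_nonpos ht]; ring] at g1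
  · have k := wr hJ.Ks hJ.Oa hs hs t
    have s : (Uu f φ M q)ᵀ = Uu f φ M q := by
      refine tendsto_nhds_unique_of_eventuallyEq
        ((continuous_id.matrix_transpose.tendsto _).comp (UT_tend h hq)) (UT_tend h hq) ?_
      filter_upwards [eventually_ge_atTop 0] with T hT
      have hp := umem h hq (-T)
      exact ric_symm (h.cone hp.1 hp.2) hT
    rw [← sub_eq_zero, k]
    simp [Yu, Hu, hJ.Y0, hD.Y0, hJ.H0, hD.H0, s]
  · refine le_of_tendsto_of_tendsto (((cont_nsq u).tendsto _).comp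
      ((YH_tend h hq t).2.sub ((YH_tend h hq t).1.const_mul U0)))
      ((((cont_nsq u).tendsto _).comp (YH_tend h hq t).1).const_mul _) ?_
    filter_upwards [ev t] with T hT
    have hp := umem h hq (-T)
    simp only [Function.comp_apply]
    rw [(YH_eq h hq t hT.1).1, (YH_eq h hq t hT.1).2, ← Matrix.mul_assoc, ← Matrix.sub_mul,
      ← Matrix.mulVec_mulVec, ← Matrix.mulVec_mulVec]
    exact (h.cone hp.1 hp.2).cone _ hT.2 _

theorem World.Yu_add {G : Type} [Group G] {ρ : G →* C3} {f β : EE → ℝ} {φ : Flo} {M : DFlo}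
    {e r R : ℝ} (h : World ρ f β φ M e r R) {q : EE × EE} (hq : q ∈ unitB f) (s t : ℝ) :
    Yu f φ M q (s + t) = Yu f φ M (φ s q) t * Yu f φ M q s := by
  obtain ⟨a, -, c⟩ := shift h hq s
  have k := (rep a c ((sol_u h hq).shift s) t).1
  simp only [add_zero] at k
  rw [k, Hu_eq h hq, ← Matrix.sub_mul, ← Matrix.mul_assoc, ← Matrix.add_mul]
  rfl

theorem World.Yu_cont {G : Type} [Group G] {ρ : G →* C3} {f β : EE → ℝ} {φ : Flo} {M : DFlo}
    {e r R : ℝ} (h : World ρ f β φ M e r R) :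
    ContinuousOn (fun z : ℝ × (EE × EE) => Yu f φ M z.2 z.1) (univ ×ˢ unitB f) := by
  have hs : univ ×ˢ unitB f ⊆ (univ : Set ℝ) ×ˢ OO := fun z hz => ⟨hz.1, mem_OO.2 hz.2.1⟩
  exact ((continuousOn_Ymat h.sm h.ctx.flow).mono hs).add (((cont_YD h.ctx).mono hs).mul
    (((Uu_cont h).comp continuousOn_snd fun z hz => hz.2).sub continuousOn_const))

theorem World.Yu_mobT {G : Type} [Group G] {ρ : G →* C3} {f β : EE → ℝ} {φ : Flo} {M : DFlo}
    {e r R : ℝ} (h : World ρ f β φ M e r R) {q : EE × EE} (hq : q ∈ unitB f) (a : G) :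
    ∃ S : M3, Sᵀ * S = 1 ∧ ∀ t, ∃ A : M3, Aᵀ * A = 1 ∧
      Yu f φ M (mobT (ρ a) q) t = A * Yu f φ M q t * S := by
  have hA := h.u21 a
  have hfA := h.finv a
  have ro : ∀ p ∈ unitB f, (Inv.rot (ρ a) f p)ᵀ * Inv.rot (ρ a) f p = 1 := fun p hp =>
    Inv.rot_orth hA hfA hp.1 hp.2
  have hq' : mobT (ρ a) q ∈ unitB f := ⟨Inv.mobT_mem hA hq.1, by rw [en_mobT hA hfA, hq.2]⟩
  have e1 : Uu f φ M (mobT (ρ a) q) = (Inv.rot (ρ a) f q)ᵀ * Uu f φ M q * Inv.rot (ρ a) f q := by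
    refine tendsto_nhds_unique (UT_tend h hq')
      ((((UT_tend h hq).const_mul _).mul_const _).congr fun T => ?_)
    have hp := umem h hq (-T)
    obtain ⟨k1, k2⟩ := YH_mobT hA h.ctx hfA hp.1 hp.2 T
    rw [back0 h] at k1 k2
    rw [UT, UT, flow_mobT hA h.sm hfA h.ctx.flow, k1, k2, Dstr.ric_rot (ro q hq) (ro _ hp)]
  have e2 : U0 = (Inv.rot (ρ a) f q)ᵀ * U0 * Inv.rot (ρ a) f q := by
    have k := (YH_mobT hA h.ctx hfA hq.1 hq.2 0).2
    rwa [(h.jac hq.1 hq.2).H0, (h.jac hq'.1 hq'.2).H0, h.ctx.flow.zero] at k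
  have e3 : Uu f φ M (mobT (ρ a) q) - U0 =
      (Inv.rot (ρ a) f q)ᵀ * (Uu f φ M q - U0) * Inv.rot (ρ a) f q := by
    rw [Matrix.mul_sub, Matrix.sub_mul, ← e1, ← e2]
  refine ⟨Inv.rot (ρ a) f q, ro q hq, fun t => ⟨(Inv.rot (ρ a) f (φ t q))ᵀ, ?_, ?_⟩⟩
  · rw [Matrix.transpose_transpose]
    exact mul_eq_one_comm.1 (ro _ (umem h hq t))
  · rw [Yu, Yu, e3, (YH_mobT hA h.ctx hfA hq.1 hq.2 t).1,
      (Dstr.YH_mobT hA h.ctx hfA hq.1 hq.2 t).1, Matrix.mul_add, Matrix.add_mul]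
    simp only [Matrix.mul_assoc]
    rw [← Matrix.mul_assoc (Inv.rot (ρ a) f q) (Inv.rot (ρ a) f q)ᵀ, mul_eq_one_comm.1 (ro q hq),
      Matrix.one_mul]

theorem World.Yu_close {G : Type} [Group G] {ρ : G →* C3} {f β : EE → ℝ} {φ : Flo} {M : DFlo}
    {e r R : ℝ} (h : World ρ f β φ M e r R) {q : EE × EE} (hq : q ∈ unitB f) {t : ℝ}
    (ht : 0 ≤ t) : |Real.log (fro (Yu f φ M q t)) - Real.log (fro (Ymat f φ M q t))| ≤ 1 ∧
      |Real.log (Yu f φ M q t).det - Real.log (Ymat f φ M q t).det| ≤ 1 := by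
  have d := (h.cone hq.1 hq.2).det_pos t ht
  have k := log_close d (E := (Ymat f φ M q t)⁻¹ * Yu f φ M q t - 1) fun i j => by
    refine le_of_tendsto (tendsto_pi_nhds.1 (tendsto_pi_nhds.1
      (((YH_tend h hq t).1.const_mul _).sub_const 1) i) j).abs ?_
    filter_upwards [eventually_ge_atTop 0] with T hT
    have hp := umem h hq (-T)
    obtain ⟨a, b, -⟩ := shift h hp T
    obtain ⟨E, hE, k⟩ := OdeMul.exists_small hT (h.jac hp.1 hp.2) (h.cone hp.1 hp.2) a b t ht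
    rw [back0 h] at k
    rw [(YH_eq h hq t hT).1, k, Matrix.mul_assoc _ _ (Ymat f φ M (φ (-T) q) T)⁻¹,
      Matrix.mul_nonsing_inv _ (Ne.isUnit ((h.cone hp.1 hp.2).det_pos T hT).ne'), Matrix.mul_one,
      ← Matrix.mul_assoc, Matrix.nonsing_inv_mul _ (Ne.isUnit d.ne'), Matrix.one_mul,
      add_sub_cancel_left]
    exact hE i j
  rwa [add_sub_cancel, ← Matrix.mul_assoc, Matrix.mul_nonsing_inv _ (Ne.isUnit d.ne'),
    Matrix.one_mul] at k

end Pool.Agent.MP_019006_gt
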