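import Pool.Agent.MP_019006_gt.Main3
import Pool.Agent.MP_019006_gt.Unstable
import Pool.Agent.MP_019006_gt.ExpGeo
import Pool.Agent.MP_019006_gt.OdeTwo
import Pool.Agent.MP_019006_gt.ErgPack2

set_option autoImplicit false

open MeasureTheory Filter Topology Set Matrix

namespace Pool.Agent.MP_019006_gt

/-- The three logarithmic sizes of the unstable Jacobi matrix. -/
noncomputable def LU (f : EE → ℝ) (φ : Flo) (M : DFlo) (i : Fin 3) (q : EE × EE) (t : ℝ) : ℝ :=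
  ![Real.log (Yu f φ M q t).det, Real.log (fro (Yu f φ M q t)),
    Real.log (fro (Yu f φ M q t)⁻¹)] i

/-- Points with a vector that grows slowly forwards and decays fast backwards. -/
def Bad (f : EE → ℝ) (φ : Flo) (M : DFlo) (κ₁ κ₂ C : ℝ) : Set (EE × EE) :=
  {p | p ∈ shell f ∧ ∃ u : Fin 3 → ℝ, nsq u = 1 ∧ ∀ t : ℝ, 0 ≤ t →
    nsq (Yu f φ M (nrm f p) t *ᵥ u) ≤ C * Real.exp (2 * κ₁ * t) ∧
    nsq (Yu f φ M (nrm f p) (-t) *ᵥ u) ≤ C * Real.exp (-(2 * κ₂ * t))}

theorem abs_det_orth {A : M3} (hA : Aᵀ * A = 1) : |A.det| = 1 := by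
  have := congrArg Matrix.det hA
  rw [det_mul, det_transpose, det_one] at this
  rcases mul_self_eq_one_iff.1 this with h' | h' <;> simp [h']

theorem nsq_orth {A : M3} (hA : Aᵀ * A = 1) (u : Fin 3 → ℝ) : nsq (A *ᵥ u) = nsq u := by
  rw [OdeMul.nsq_eq_dot, OdeMul.nsq_eq_dot, dotProduct_mulVec, ← mulVec_transpose, mulVec_mulVec,
    hA, one_mulVec]

theorem nsq_smul (c : ℝ) (u : Fin 3 → ℝ) : nsq (c • u) = c ^ 2 * nsq u := by
  simp only [nsq, Pi.smul_apply, smul_eq_mul]; ring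

theorem nsq_pos {u : Fin 3 → ℝ} (hu : u ≠ 0) : 0 < nsq u := by
  by_contra h
  apply hu
  have h0 := sq_nonneg (u 0)
  have h1 := sq_nonneg (u 1)
  have h2 := sq_nonneg (u 2)
  unfold nsq at h
  funext i
  fin_cases i
  · exact pow_eq_zero_iff (two_ne_zero) |>.1 (by change u 0 ^ 2 = 0; linarith)
  · exact pow_eq_zero_iff (two_ne_zero) |>.1 (by change u 1 ^ 2 = 0; linarith)
  · exact pow_eq_zero_iff (two_ne_zero) |>.1 (by change u 2 ^ 2 = 0; linarith)

theorem continuous_nsq : Continuous nsq := by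
  unfold nsq; fun_prop

theorem compact_nsq : IsCompact {u : Fin 3 → ℝ | nsq u = 1} := by
  refine (isCompact_Icc (a := fun _ => (-1 : ℝ)) (b := fun _ => 1)).of_isClosed_subset
    (isClosed_eq continuous_nsq continuous_const) fun u hu => ?_
  have h : u 0 ^ 2 + u 1 ^ 2 + u 2 ^ 2 = 1 := hu
  have h0 := sq_nonneg (u 0)
  have h1 := sq_nonneg (u 1)
  have h2 := sq_nonneg (u 2)
  have k : ∀ i, |u i| ≤ 1 := fun i => by
    rw [← sq_le_one_iff_abs_le_one]
    fin_cases i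
    · change u 0 ^ 2 ≤ 1; linarith
    · change u 1 ^ 2 ≤ 1; linarith
    · change u 2 ^ 2 ≤ 1; linarith
  exact ⟨fun i => (abs_le.1 (k i)).1, fun i => (abs_le.1 (k i)).2⟩

/-- A rate bound gives a uniform exponential bound. -/
theorem bound_of_rate {y η : ℝ → Fin 3 → ℝ} (hy : Continuous y) {χ κ : ℝ} (hκ : χ < κ)
    (h : Tendsto (rate y η) atTop (𝓝 χ)) :
    ∃ C : ℝ, ∀ t, 0 ≤ t → nsq (y t) ≤ C * Real.exp (2 * κ * t) := by
  obtain ⟨T, hT⟩ := eventually_atTop.1 (h.eventually (gt_mem_nhds hκ))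
  obtain ⟨B, hB⟩ := (isCompact_Icc (a := 0) (b := max T 1)).bddAbove_image
    (f := fun t => nsq (y t) * Real.exp (-(2 * κ * t)))
    ((continuous_nsq.comp hy).mul (by fun_prop)).continuousOn
  refine ⟨max B 1, fun t ht => ?_⟩
  rcases le_total t (max T 1) with h1 | h1
  · have h2 := hB (mem_image_of_mem _ ⟨ht, h1⟩)
    rw [Real.exp_neg, ← div_eq_mul_inv, div_le_iff₀ (Real.exp_pos _)] at h2
    exact h2.trans (mul_le_mul_of_nonneg_right (le_max_left _ _) (Real.exp_pos _).le)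
  · have h2 := hT t ((le_max_left _ _).trans h1)
    have h3 : 0 < t := lt_of_lt_of_le one_pos ((le_max_right _ _).trans h1)
    unfold rate at h2
    rw [div_lt_iff₀ h3] at h2
    have h4 := OdeMul.nsq_nonneg (y t)
    have h5 := OdeMul.nsq_nonneg (η t)
    have h6 : Real.sqrt (nsq (y t) + nsq (η t)) ≤ Real.exp (κ * t) := by
      rcases (Real.sqrt_nonneg (nsq (y t) + nsq (η t))).eq_or_lt with h7 | h7
      · rw [← h7]; exact (Real.exp_pos _).le
      · exact ((Real.log_lt_iff_lt_exp h7).1 h2).le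
    have h8 := Real.sqrt_le_iff.1 h6
    have h9 : Real.exp (κ * t) ^ 2 = Real.exp (2 * κ * t) := by
      rw [sq, ← Real.exp_add]; congr 1; ring
    have h10 := Real.exp_pos (2 * κ * t)
    have h11 : (1 : ℝ) ≤ max B 1 := le_max_right _ _
    nlinarith [h8.2]

theorem bound_of_rate' {y η : ℝ → Fin 3 → ℝ} (hy : Continuous y) {χ κ : ℝ} (hκ : κ < χ)
    (h : Tendsto (rate y η) atBot (𝓝 χ)) :
    ∃ C : ℝ, ∀ t, 0 ≤ t → nsq (y (-t)) ≤ C * Real.exp (-(2 * κ * t)) := by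
  have h1 : Tendsto (rate (fun t => y (-t)) fun t => η (-t)) atTop (𝓝 (-χ)) := by
    refine (h.comp tendsto_neg_atTop_atBot).neg.congr fun t => ?_
    simp only [rate, Function.comp, div_neg, neg_neg]
  obtain ⟨C, hC⟩ := bound_of_rate (hy.comp continuous_neg) (neg_lt_neg hκ) h1
  refine ⟨C, fun t ht => ?_⟩
  have := hC t ht
  rwa [show 2 * -κ * t = -(2 * κ * t) by ring] at this

namespace World

variable {G : Type} [Group G] {ρ : G →* C3} {f β : EE → ℝ} {φ : Flo} {M : DFlo} {e r R : ℝ}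

theorem unit_flow (h : World ρ f β φ M e r R) (t : ℝ) {q : EE × EE} (hq : q ∈ unitB f) :
    φ t q ∈ unitB f := ⟨h.fmem t hq.1, by rw [h.fen]; exact hq.2⟩

theorem unit_nrm {p : EE × EE} (hp : p ∈ shell f) : nrm f p ∈ unitB f :=
  ⟨hp.1, (en_nrm hp.1 (shell_ne hp)).2⟩

theorem Yu_det (h : World ρ f β φ M e r R) {q : EE × EE} (hq : q ∈ unitB f) (t : ℝ) :
    0 < (Yu f φ M q t).det := (h.twoSys hq).det_pos t

theorem LU_sub (h : World ρ f β φ M e r R) {q : EE × EE} (hq : q ∈ unitB f) (i : Fin 3)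
    (s t : ℝ) : LU f φ M i q (s + t) ≤ LU f φ M i q s + LU f φ M i (φ s q) t := by
  have d1 := h.Yu_det hq s
  have d2 := h.Yu_det (h.unit_flow s hq) t
  have k : ∀ A B : M3, A.det ≠ 0 → B.det ≠ 0 →
      Real.log (fro (A * B)) ≤ Real.log (fro A) + Real.log (fro B) := fun A B hA hB => by
    rw [← Real.log_mul (OdeMul.fro_pos hA).ne' (OdeMul.fro_pos hB).ne']
    exact Real.log_le_log (OdeMul.fro_pos (by rw [det_mul]; exact mul_ne_zero hA hB))
      (OdeMul.fro_mul_le A B)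
  have ki : ∀ A : M3, 0 < A.det → A⁻¹.det ≠ 0 := fun A hA => by
    rw [Matrix.det_nonsing_inv, Ring.inverse_eq_inv']
    exact inv_ne_zero hA.ne'
  fin_cases i
  · change Real.log (Yu f φ M q (s + t)).det ≤
      Real.log (Yu f φ M q s).det + Real.log (Yu f φ M (φ s q) t).det
    rw [h.Yu_add hq, det_mul, Real.log_mul d2.ne' d1.ne', add_comm]
  · change Real.log (fro (Yu f φ M q (s + t))) ≤
      Real.log (fro (Yu f φ M q s)) + Real.log (fro (Yu f φ M (φ s q) t))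
    rw [h.Yu_add hq, add_comm]
    exact k _ _ d2.ne' d1.ne'
  · change Real.log (fro (Yu f φ M q (s + t))⁻¹) ≤
      Real.log (fro (Yu f φ M q s)⁻¹) + Real.log (fro (Yu f φ M (φ s q) t)⁻¹)
    rw [h.Yu_add hq, Matrix.mul_inv_rev]
    exact k _ _ (ki _ d1) (ki _ d2)

theorem LU_bound (h : World ρ f β φ M e r R) {q : EE × EE} (hq : q ∈ unitB f) (i : Fin 3)
    (t : ℝ) : |LU f φ M i q t| ≤ 9 * (1 + |t|) := by
  obtain ⟨a, b, c⟩ := two_bounds (h.twoSys hq) t
  fin_cases i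
  · exact c
  · exact a
  · exact b

theorem LU_inv (h : World ρ f β φ M e r R) {q : EE × EE} (hq : q ∈ unitB f) (a : G) (i : Fin 3)
    (t : ℝ) : LU f φ M i (mobT (ρ a) q) t = LU f φ M i q t := by
  obtain ⟨B, hB, hA⟩ := h.Yu_mobT hq a
  obtain ⟨A, hA, hY⟩ := hA t
  have hA' : A * Aᵀ = 1 := mul_eq_one_comm.1 hA
  have hB' : B * Bᵀ = 1 := mul_eq_one_comm.1 hB
  fin_cases i
  · change Real.log (Yu f φ M (mobT (ρ a) q) t).det = Real.log (Yu f φ M q t).det
    rw [hY, ← Real.log_abs, det_mul, det_mul, abs_mul, abs_mul, abs_det_orth hA, abs_det_orth hB,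
      one_mul, mul_one, Real.log_abs]
  · change Real.log (fro (Yu f φ M (mobT (ρ a) q) t)) = Real.log (fro (Yu f φ M q t))
    rw [hY, fro_rot _ _ _ hA hB]
  · change Real.log (fro (Yu f φ M (mobT (ρ a) q) t)⁻¹) = Real.log (fro (Yu f φ M q t)⁻¹)
    rw [hY, Matrix.mul_inv_rev, Matrix.mul_inv_rev, inv_eq_left_inv hA, inv_eq_left_inv hB,
      ← Matrix.mul_assoc, fro_rot _ _ _ (by rw [transpose_transpose, hB'])
        (by rw [transpose_transpose, hA'])]

theorem Yu_back (h : World ρ f β φ M e r R) {q : EE × EE} (hq : q ∈ unitB f) (t : ℝ) :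
    Yu f φ M (φ (-t) q) t = (Yu f φ M q (-t))⁻¹ := by
  have := h.Yu_add hq (-t) t
  rw [neg_add_cancel, (h.twoSys hq).Y0] at this
  exact (inv_eq_left_inv this.symm).symm

theorem Yu_contOn (h : World ρ f β φ M e r R) {T : EE × EE → ℝ} (hT : ContinuousOn T (shell f)) :
    ContinuousOn (fun p => Yu f φ M (nrm f p) (T p)) (shell f) :=
  ContinuousOn.comp (g := fun z : ℝ × (EE × EE) => Yu f φ M z.2 z.1)
    (f := fun p => (T p, nrm f p)) h.Yu_cont (hT.prodMk (Fib.contOn_nrm h.ctx.conf))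
    fun _ hp => ⟨mem_univ _, unit_nrm hp⟩

theorem LU_contOn (h : World ρ f β φ M e r R) (i : Fin 3) {T : EE × EE → ℝ}
    (hT : ContinuousOn T (shell f)) :
    ContinuousOn (fun p => LU f φ M i (nrm f p) (T p)) (shell f) := by
  obtain ⟨a, b, c⟩ := LL_aux (h.Yu_contOn hT) fun p hp => h.Yu_det (unit_nrm hp) _
  fin_cases i
  · exact a
  · exact b
  · exact c

theorem meas_bad (h : World ρ f β φ M e r R) (κ₁ κ₂ C : ℝ) :
    MeasurableSet (Bad f φ M κ₁ κ₂ C) := by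
  have hSm : MeasurableSet (shell f) := Fib.meas_shell h.ctx.conf
  have : CompactSpace {u : Fin 3 → ℝ | nsq u = 1} := isCompact_iff_compactSpace.1 compact_nsq
  have hY : ∀ t, Continuous fun z : shell f × {u : Fin 3 → ℝ | nsq u = 1} =>
      nsq (Yu f φ M (nrm f z.1) t *ᵥ z.2.1) := fun t => by
    have h1 : Continuous fun p : shell f => Yu f φ M (nrm f p) t :=
      (h.Yu_contOn (T := fun _ => t) continuousOn_const).domRestrict
    exact continuous_nsq.comp ((h1.comp continuous_fst).matrix_mulVec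
      (continuous_subtype_val.comp continuous_snd))
  have hZ : IsClosed {z : shell f × {u : Fin 3 → ℝ | nsq u = 1} | ∀ t : ℝ, 0 ≤ t →
      nsq (Yu f φ M (nrm f z.1) t *ᵥ z.2.1) ≤ C * Real.exp (2 * κ₁ * t) ∧
      nsq (Yu f φ M (nrm f z.1) (-t) *ᵥ z.2.1) ≤ C * Real.exp (-(2 * κ₂ * t))} := by
    simp only [ofPred_forall]
    exact isClosed_iInter fun t => isClosed_iInter fun _ =>
      (isClosed_le (hY t) continuous_const).inter (isClosed_le (hY (-t)) continuous_const)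
  have h2 := (MeasurableEmbedding.subtype_coe hSm).measurableSet_image.2
    (isClosedMap_fst_of_compactSpace _ hZ).measurableSet
  convert h2 using 1
  ext p
  constructor
  · rintro ⟨hp, u, hu, hb⟩
    exact ⟨⟨p, hp⟩, ⟨(⟨p, hp⟩, ⟨u, hu⟩), hb, rfl⟩, rfl⟩
  · rintro ⟨q, ⟨z, hz, rfl⟩, rfl⟩
    exact ⟨z.1.2, z.2.1, z.2.2, hz⟩

theorem bad_mobT (h : World ρ f β φ M e r R) (κ₁ κ₂ C : ℝ) (a : G) {p : EE × EE}
    (hp : p ∈ Bad f φ M κ₁ κ₂ C) : mobT (ρ a) p ∈ Bad f φ M κ₁ κ₂ C := by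
  obtain ⟨hs, u, hu, hb⟩ := hp
  obtain ⟨B, hB, hA⟩ := h.Yu_mobT (unit_nrm hs) a
  have hB' : B * Bᵀ = 1 := mul_eq_one_comm.1 hB
  have k : ∀ t, nsq (Yu f φ M (nrm f (mobT (ρ a) p)) t *ᵥ (Bᵀ *ᵥ u)) =
      nsq (Yu f φ M (nrm f p) t *ᵥ u) := fun t => by
    obtain ⟨A, hA, hY⟩ := hA t
    rw [nrm_mobT (h.u21 a) (h.finv a) hs.1, hY, mulVec_mulVec, Matrix.mul_assoc, hB',
      Matrix.mul_one, ← mulVec_mulVec, nsq_orth hA]
  refine ⟨h.shell_mobT a hs, Bᵀ *ᵥ u, ?_, fun t ht => ?_⟩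
  · rw [nsq_orth (by rw [transpose_transpose, hB']), hu]
  · rw [k, k]; exact hb t ht

theorem pack2 [Countable G] (h : World ρ f β φ M e r R) :
    (∀ᵐ p : EE × EE, p ∈ shell f → ∀ i, ∃ l : ℝ,
      Tendsto (fun n : ℕ => LU f φ M i (nrm f p) (n * Real.sqrt (en f p)) / n) atTop (𝓝 l) ∧
      Tendsto (fun n : ℕ => LU f φ M i (φ (-(n * Real.sqrt (en f p))) (nrm f p))
        (n * Real.sqrt (en f p)) / n) atTop (𝓝 l)) ∧
    ∀ᵐ p : EE × EE, p ∈ shell f → ∀ (κ₁ κ₂ : ℚ) (C : ℕ), p ∈ Bad f φ M κ₁ κ₂ C →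
      ∃ᶠ n : ℕ in atTop, φ n p ∈ Bad f φ M κ₁ κ₂ C := by
  have hf := h.ctx.conf
  have hSm : MeasurableSet (shell f) := Fib.meas_shell hf
  have hSO : shell f ⊆ OO := Fib.shell_sub f
  obtain ⟨δ, hδ, hcov⟩ := lattice_cocpt h.lat
  obtain ⟨-, hKc, hKf⟩ := liou_compact hf δ hδ
  have hs2 : ∀ p ∈ shell f, Real.sqrt (en f p) ≤ 2 := fun p hp =>
    Real.sqrt_le_iff.2 ⟨by norm_num, by linarith [hp.2.2]⟩
  have hsq : ContinuousOn (fun p => Real.sqrt (en f p)) (shell f) :=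
    Real.continuous_sqrt.comp_continuousOn ((Fib.contOn_en hf).mono hSO)
  have hSc : liou f (shell f) (shell f)ᶜ = 0 := by
    have := (ae_liou_iff hf hSm hSO (fun p => p ∈ shell f)).2 (Eventually.of_forall fun p hp => hp)
    exact this
  have : SFinite (liou f (shell f)) := by unfold liou; infer_instance
  obtain ⟨k1, k2⟩ := erg_pack2 (liou f (shell f)) (shell f) hSm hSc (fun a => mobT (ρ a))
    (fun a => mobT_measurePreserving (h.u21 a) (h.u21 a⁻¹) (by rw [← map_mul]; simp) (h.finv a)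
      hSm hSO (fun p hp => h.shell_mobT a hp) fun p hp => h.shell_mobT a⁻¹ hp)
    (fun a p hp => h.shell_mobT a hp) (fun p _ => by rw [map_one, Inv.mobT_one])
    (fun a b p hp => by rw [map_mul, Inv.mobT_mul (h.u21 a) (h.u21 b) hp.1])
    φ (flow_measurePreserving h.sm h.ctx.flow hSm hSO fun t p hp => h.shell_flow t hp)
    (fun t p hp => h.shell_flow t hp) (fun p _ => h.ctx.flow.zero p)
    (fun t s p _ => h.ctx.flow.add t s p)
    (fun a t p _ => flow_mobT (h.u21 a) h.sm (h.finv a) h.ctx.flow t p)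
    (shell f ∩ {p | δ ≤ Dd p.1}) hKc.measurableSet hKf
    (fun p hp => by
      obtain ⟨a, ha⟩ := hcov p.1 hp.1
      exact ⟨a, h.shell_mobT a hp, by rw [Inv.mobT_of_mem _ hp.1]; exact ha⟩)
    (fun p hp => by
      refine (lattice_fin h.lat (min δ (Dd p.1)) (lt_min hδ (Dd_pos hp.1))).subset fun a ha => ?_
      refine ⟨p.1, hp.1, min_le_right _ _, (min_le_left _ _).trans ?_⟩
      have := ha.2
      rw [Inv.mobT_of_mem _ hp.1] at this
      exact this)
  constructor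
  · have key : ∀ i, ∀ᵐ p ∂liou f (shell f), ∃ l : ℝ, _ := fun i => k1 18
      (fun n => (shell f).indicator fun p => LU f φ M i (nrm f p) (n * Real.sqrt (en f p)))
      (fun n => measurable_indicator_of_continuousOn hSm
        (h.LU_contOn i (continuousOn_const.mul hsq)))
      (fun n a p hp => by
        rw [indicator_of_mem (h.shell_mobT a hp), indicator_of_mem hp,
          nrm_mobT (h.u21 a) (h.finv a) hp.1, en_mobT (h.u21 a) (h.finv a),
          h.LU_inv (unit_nrm hp)])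
      (fun m n p hp => by
        rw [indicator_of_mem (h.shell_flow m hp), indicator_of_mem hp, indicator_of_mem hp,
          flow_nrm h.sm h.ctx.flow m hp.1 (shell_ne hp), h.fen, Nat.cast_add, add_mul,
          mul_comm (Real.sqrt _) (m : ℝ)]
        exact h.LU_sub (unit_nrm hp) i _ _)
      (fun n p hp => by
        rw [indicator_of_mem hp]
        have b := h.LU_bound (unit_nrm hp) i (n * Real.sqrt (en f p))
        rw [abs_of_nonneg (a := n * Real.sqrt (en f p)) (by positivity)] at b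
        have b1 : (n : ℝ) * Real.sqrt (en f p) ≤ n * 2 :=
          mul_le_mul_of_nonneg_left (hs2 p hp) (Nat.cast_nonneg n)
        linarith)
    have key2 := ae_all_iff.2 key
    rw [ae_liou_iff hf hSm hSO] at key2
    refine key2.mono fun p hp hp' i => ?_
    obtain ⟨l, a, b⟩ := hp hp' i
    refine ⟨l, by simpa only [indicator_of_mem hp'] using a, b.congr fun n => ?_⟩
    rw [indicator_of_mem (h.shell_flow _ hp'), flow_nrm h.sm h.ctx.flow _ hp'.1 (shell_ne hp'),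
      h.fen, mul_neg, mul_comm (Real.sqrt _) (n : ℝ)]
  · have key : ∀ z : ℚ × ℚ × ℕ, ∀ᵐ p ∂liou f (shell f), p ∈ Bad f φ M z.1 z.2.1 z.2.2 →
        ∃ᶠ n : ℕ in atTop, φ n p ∈ Bad f φ M z.1 z.2.1 z.2.2 := fun z =>
      k2 _ (h.meas_bad _ _ _) fun a p hp => ⟨fun hb => by
        have := h.bad_mobT _ _ _ a⁻¹ hb
        rwa [← Inv.mobT_mul (h.u21 a⁻¹) (h.u21 a) hp.1, ← map_mul, inv_mul_cancel, map_one,
          Inv.mobT_one] at this, h.bad_mobT _ _ _ a⟩
    have key2 := ae_all_iff.2 key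
    rw [ae_liou_iff hf hSm hSO] at key2
    exact key2.mono fun p hp hp' κ₁ κ₂ C => hp hp' (κ₁, κ₂, C)

end World

end Pool.Agent.MP_019006_gt
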