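import Pool.Agent.MP_019006_gt.Main4

set_option autoImplicit false

open MeasureTheory Filter Topology Set Matrix

namespace Pool.Agent.MP_019006_gt

theorem tendsto_close {a b : ℕ → ℝ} {l : ℝ} (hab : ∀ n, |a n - b n| ≤ 1)
    (h : Tendsto (fun n : ℕ => a n / n) atTop (𝓝 l)) :
    Tendsto (fun n : ℕ => (b n + 1) / n) atTop (𝓝 l) := by
  have h1 : Tendsto (fun n : ℕ => (b n + 1 - a n) / n) atTop (𝓝 0) := by
    refine squeeze_zero_norm (a := fun n : ℕ => 2 / n) (fun n => ?_)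
      (tendsto_const_div_atTop_nhds_zero_nat 2)
    rw [Real.norm_eq_abs, abs_div, Nat.abs_cast]
    refine div_le_div_of_nonneg_right ?_ (Nat.cast_nonneg n)
    have := abs_le.1 (hab n)
    rw [abs_le]
    constructor <;> linarith [this.1, this.2]
  have := h.add h1
  rw [add_zero] at this
  refine this.congr fun n => ?_
  ring

namespace World

variable {G : Type} [Group G] {ρ : G →* C3} {f β : EE → ℝ} {φ : Flo} {M : DFlo} {e r R : ℝ}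

theorem Yu_vec_cont (h : World ρ f β φ M e r R) {q : EE × EE} (hq : q ∈ unitB f)
    (u : Fin 3 → ℝ) : Continuous fun t => Yu f φ M q t *ᵥ u :=
  (continuous_matrix fun i j => continuous_iff_continuousAt.2 fun t =>
    ((h.twoSys hq).dY t i j).continuousAt).matrix_mulVec continuous_const

theorem not_bad (h : World ρ f β φ M e r R) {p : EE × EE} (hp : p ∈ shell f)
    (hrec : ∀ (κ₁ κ₂ : ℚ) (C : ℕ), p ∈ Bad f φ M κ₁ κ₂ C →
      ∃ᶠ n : ℕ in atTop, φ n p ∈ Bad f φ M κ₁ κ₂ C)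
    {a b : ℝ} (ha : 0 < a) (hab : a < b) {u : Fin 3 → ℝ} (hu : u ≠ 0)
    (h1 : Tendsto (rate (fun t => Yu f φ M (nrm f p) t *ᵥ u) fun t => Hu f φ M (nrm f p) t *ᵥ u)
      atTop (𝓝 a))
    (h2 : Tendsto (rate (fun t => Yu f φ M (nrm f p) t *ᵥ u) fun t => Hu f φ M (nrm f p) t *ᵥ u)
      atBot (𝓝 b))
    (h3 : ∀ (w : Fin 3 → ℝ) (κ C : ℝ), κ < b →
      (∀ t, 0 ≤ t → nsq (Yu f φ M (nrm f p) t *ᵥ w) ≤ C * Real.exp (2 * κ * t)) →
        ∃ c : ℝ, w = c • u) : False := by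
  have hq := unit_nrm hp
  obtain ⟨κ₁, k1, k2⟩ := exists_rat_btwn hab
  obtain ⟨κ₂, k3, k4⟩ := exists_rat_btwn k2
  obtain ⟨C₁, hC₁⟩ := bound_of_rate (h.Yu_vec_cont hq u) k1 h1
  obtain ⟨C₂, hC₂⟩ := bound_of_rate' (h.Yu_vec_cont hq u) k4 h2
  have hu0 := nsq_pos hu
  obtain ⟨C, hC⟩ := exists_nat_ge (max C₁ C₂ / nsq u)
  have hC' : max C₁ C₂ ≤ C * nsq u := (div_le_iff₀ hu0).1 hC
  have hs : 0 < Real.sqrt (en f p) := Real.sqrt_pos.2 (by linarith [hp.2.1])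
  have hn : ∀ y : Fin 3 → ℝ, nsq ((Real.sqrt (nsq u))⁻¹ • y) = nsq y / nsq u := fun y => by
    rw [nsq_smul, inv_pow, Real.sq_sqrt hu0.le, inv_mul_eq_div]
  have hbad : p ∈ Bad f φ M κ₁ κ₂ C := by
    refine ⟨hp, (Real.sqrt (nsq u))⁻¹ • u, by rw [hn, div_self hu0.ne'], fun t ht => ?_⟩
    rw [mulVec_smul, mulVec_smul, hn, hn, div_le_iff₀ hu0, div_le_iff₀ hu0]
    have e1 := Real.exp_pos (2 * κ₁ * t)
    have e2 := Real.exp_pos (-(2 * κ₂ * t))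
    have b1 := (le_max_left C₁ C₂).trans hC'
    have b2 := (le_max_right C₁ C₂).trans hC'
    exact ⟨(hC₁ t ht).trans (by nlinarith), (hC₂ t ht).trans (by nlinarith)⟩
  have hlim : Tendsto (fun n : ℕ => C * C₁ * Real.exp (-(2 * (κ₂ - κ₁) * Real.sqrt (en f p) * n)))
      atTop (𝓝 (C * C₁ * 0)) :=
    (Real.tendsto_exp_neg_atTop_nhds_zero.comp (tendsto_natCast_atTop_atTop.const_mul_atTop
      (mul_pos (by linarith) hs))).const_mul _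
  rw [mul_zero] at hlim
  obtain ⟨n, ⟨-, u', hu', hb⟩, hn2⟩ := ((hrec κ₁ κ₂ C hbad).and_eventually
    (hlim.eventually (gt_mem_nhds hu0))).exists
  rw [flow_nrm h.sm h.ctx.flow n hp.1 (shell_ne hp)] at hb
  set T : ℝ := Real.sqrt (en f p) * n with hT
  have hT0 : 0 ≤ T := by positivity
  have hd := h.Yu_det hq T
  have hw : ∀ t, Yu f φ M (nrm f p) t *ᵥ ((Yu f φ M (nrm f p) T)⁻¹ *ᵥ u') =
      Yu f φ M (φ T (nrm f p)) (t - T) *ᵥ u' := fun t => by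
    have := h.Yu_add hq T (t - T)
    rw [add_sub_cancel] at this
    rw [this, mulVec_mulVec, Matrix.mul_assoc, Matrix.mul_nonsing_inv _ hd.ne'.isUnit,
      Matrix.mul_one]
  have hκ₁ : (0 : ℝ) < κ₁ := ha.trans k1
  have hC0 : (0 : ℝ) ≤ C := Nat.cast_nonneg C
  obtain ⟨c, hc⟩ := h3 ((Yu f φ M (nrm f p) T)⁻¹ *ᵥ u') κ₁ C k2 fun t ht => by
    rw [hw]
    rcases le_total T t with h4 | h4
    · refine (hb (t - T) (by linarith)).1.trans (mul_le_mul_of_nonneg_left ?_ hC0)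
      exact Real.exp_le_exp.2 (by nlinarith)
    · have := (hb (T - t) (by linarith)).2
      rw [neg_sub] at this
      refine this.trans (mul_le_mul_of_nonneg_left ?_ hC0)
      exact Real.exp_le_exp.2 (by nlinarith)
  have e1 : u' = c • (Yu f φ M (nrm f p) T *ᵥ u) := by
    rw [← mulVec_smul, ← hc, mulVec_mulVec, Matrix.mul_nonsing_inv _ hd.ne'.isUnit, one_mulVec]
  have e2 : 1 ≤ c ^ 2 * (C₁ * Real.exp (2 * κ₁ * T)) := by
    rw [← hu', e1, nsq_smul]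
    exact mul_le_mul_of_nonneg_left (hC₁ T hT0) (sq_nonneg c)
  have e3 : c ^ 2 * nsq u ≤ C * Real.exp (-(2 * κ₂ * T)) := by
    have h4 := hw 0
    rw [(h.twoSys hq).Y0, one_mulVec, hc, zero_sub] at h4
    rw [← nsq_smul, h4]
    exact (hb T hT0).2
  have e4 : Real.exp (-(2 * (κ₂ - κ₁) * Real.sqrt (en f p) * n)) =
      Real.exp (-(2 * κ₂ * T)) * Real.exp (2 * κ₁ * T) := by
    rw [← Real.exp_add]; congr 1; rw [hT]; ring
  rw [e4] at hn2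
  have e5 : 0 ≤ C₁ * Real.exp (2 * κ₁ * T) := (OdeMul.nsq_nonneg _).trans (hC₁ T hT0)
  have e6 := mul_le_mul_of_nonneg_right e3 e5
  nlinarith

theorem pointwise (h : World ρ f β φ M e r R) {p : EE × EE} (hp : p ∈ shell f)
    (hg : p ∈ Good f φ M)
    (hl : ∀ i, ∃ l : ℝ,
      Tendsto (fun n : ℕ => LU f φ M i (nrm f p) (n * Real.sqrt (en f p)) / n) atTop (𝓝 l) ∧
      Tendsto (fun n : ℕ => LU f φ M i (φ (-(n * Real.sqrt (en f p))) (nrm f p))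
        (n * Real.sqrt (en f p)) / n) atTop (𝓝 l))
    (hrec : ∀ (κ₁ κ₂ : ℚ) (C : ℕ), p ∈ Bad f φ M κ₁ κ₂ C →
      ∃ᶠ n : ℕ in atTop, φ n p ∈ Bad f φ M κ₁ κ₂ C) :
    ∃ a b : ℝ, 0 < b ∧ 2 < a / b ∧
      IsExponentAlong (atTop ⊔ atBot) (gg f) (Gam f) φ (nrm f p) a ∧
      IsExponentAlong (atTop ⊔ atBot) (gg f) (Gam f) φ (nrm f p) b ∧
      ∀ χ : ℝ, 0 < χ → IsExponentAlong atTop (gg f) (Gam f) φ (nrm f p) χ → b ≤ χ ∧ χ ≤ a := by
  have hq := unit_nrm hp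
  have hs : 0 < Real.sqrt (en f p) := Real.sqrt_pos.2 (by linarith [hp.2.1])
  obtain ⟨l₀, a₀, b₀⟩ := hl 0
  obtain ⟨l₁, a₁, b₁⟩ := hl 1
  obtain ⟨l₂, a₂, b₂⟩ := hl 2
  have hl01 : l₀ < 2 * l₁ := (h.good_iff hp
    (tendsto_close (fun n => (h.Yu_close hq (mul_nonneg (Nat.cast_nonneg n) hs.le)).1) a₁)
    (tendsto_close (fun n => (h.Yu_close hq (mul_nonneg (Nat.cast_nonneg n) hs.le)).2) a₀)).1 hg
  have c₀ : Tendsto (fun n : ℕ => Real.log (Yu f φ M (nrm f p) (-(n * Real.sqrt (en f p)))).det / n)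
      atTop (𝓝 (-l₀)) := by
    refine b₀.neg.congr fun n => ?_
    change -(Real.log (Yu f φ M _ _).det / _) = _
    rw [h.Yu_back hq, Matrix.det_nonsing_inv, Ring.inverse_eq_inv', Real.log_inv, neg_div, neg_neg]
  have c₁ : Tendsto (fun n : ℕ =>
      Real.log (fro (Yu f φ M (nrm f p) (-(n * Real.sqrt (en f p))))⁻¹) / n) atTop (𝓝 l₁) := by
    refine b₁.congr fun n => ?_
    change Real.log (fro (Yu f φ M _ _)) / _ = _
    rw [h.Yu_back hq]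
  have c₂ : Tendsto (fun n : ℕ =>
      Real.log (fro (Yu f φ M (nrm f p) (-(n * Real.sqrt (en f p))))) / n) atTop (𝓝 l₂) := by
    refine b₂.congr fun n => ?_
    change Real.log (fro (Yu f φ M _ _)⁻¹) / _ = _
    rw [h.Yu_back hq, Matrix.nonsing_inv_nonsing_inv _ (h.Yu_det hq _).ne'.isUnit]
  obtain ⟨d1, d2, ⟨u₁, hu₁, d3⟩, u₂, hu₂, d4, d5, d6⟩ :=
    two_exponents (h.twoSys hq) _ hs l₀ l₁ l₂ a₀ a₁ a₂ c₀ c₁ c₂
  refine ⟨l₁ / Real.sqrt (en f p), -l₂ / Real.sqrt (en f p), d1, ?_,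
    isExponentAlong_of h.ctx hq _ u₁ hu₁ _ d3, isExponentAlong_of h.ctx hq _ u₂ hu₂ _ ?_,
    fun χ hχ hE => ?_⟩
  · rw [lt_div_iff₀ d1, ← mul_div_assoc]
    exact div_lt_div_of_pos_right (by linarith) hs
  · rcases d5 with d5 | ⟨d5, d7⟩
    · exact tendsto_sup.2 ⟨d4, d5⟩
    · exact (h.not_bad hp hrec d1 (div_lt_div_of_pos_right d5 hs) hu₂ d4 d7 d6).elim
  · obtain ⟨a, y, η, e1, e2, e3⟩ := of_isExponentAlong h.ctx hq _ χ hE
    exact two_range (h.twoSys hq) _ hs l₁ l₂ a₁ a₂ a χ hχ y η e1 e2 e3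

theorem ae_two [Countable G] (h : World ρ f β φ M e r R)
    (h2 : ∀ᵐ p : EE × EE, p.1 ∈ Bl → p ∈ Good f φ M) :
    ∀ᵐ p : EE × EE, p.1 ∈ Bl → p.2 ≠ 0 → ∃ a b : ℝ, 0 < b ∧ 2 < a / b ∧
      IsExponentAlong (atTop ⊔ atBot) (gg f) (Gam f) φ (nrm f p) a ∧
      IsExponentAlong (atTop ⊔ atBot) (gg f) (Gam f) φ (nrm f p) b ∧
      ∀ χ : ℝ, 0 < χ → IsExponentAlong atTop (gg f) (Gam f) φ (nrm f p) χ → b ≤ χ ∧ χ ≤ a := by
  refine ae_scale h.ctx.conf (fun q => ∃ a b : ℝ, 0 < b ∧ 2 < a / b ∧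
      IsExponentAlong (atTop ⊔ atBot) (gg f) (Gam f) φ q a ∧
      IsExponentAlong (atTop ⊔ atBot) (gg f) (Gam f) φ q b ∧
      ∀ χ : ℝ, 0 < χ → IsExponentAlong atTop (gg f) (Gam f) φ q χ → b ≤ χ ∧ χ ≤ a) ?_
  obtain ⟨k1, k2⟩ := h.pack2
  filter_upwards [k1, k2, h2] with p a b c hp
  exact h.pointwise hp (c hp.1) (a hp) (b hp)

end World

end Pool.Agent.MP_019006_gt
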