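import Pool.Agent.MP_019006_gt.OdeCone

set_option autoImplicit false

open MeasureTheory Filter Topology Set Matrix

namespace Pool.Agent.MP_019006_gt

namespace OdeC

lemma MD.unique {A B : ℝ → M3} {A' B' : M3} {t : ℝ} (hA : MD A A' t) (hB : MD B B' t)
    (h : ∀ᶠ s in 𝓝 t, A s = B s) : A' = B' := by
  ext i j
  refine (hA i j).unique ((hB i j).congr_of_eventuallyEq ?_)
  filter_upwards [h] with s hs
  rw [hs]

lemma MD.det {Y : ℝ → M3} {A : M3} {t : ℝ} (h : MD Y (A * Y t) t) :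
    HasDerivAt (fun s => (Y s).det) ((A 0 0 + A 1 1 + A 2 2) * (Y t).det) t := by
  simp only [Matrix.det_fin_three]
  have h1 := ((((((((h 0 0).fun_mul (h 1 1)).fun_mul (h 2 2)).fun_sub
    (((h 0 0).fun_mul (h 1 2)).fun_mul (h 2 1))).fun_sub
    (((h 0 1).fun_mul (h 1 0)).fun_mul (h 2 2))).fun_add
    (((h 0 1).fun_mul (h 1 2)).fun_mul (h 2 0))).fun_add
    (((h 0 2).fun_mul (h 1 0)).fun_mul (h 2 1))).fun_sub
    (((h 0 2).fun_mul (h 1 1)).fun_mul (h 2 0)))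
  refine HasDerivAt.congr_deriv h1 ?_
  simp only [Matrix.mul_apply, Fin.sum_univ_three]
  ring

lemma inv_deriv {Y Y' : ℝ → M3} (h : ∀ s, MD Y (Y' s) s) {t : ℝ} (hd : (Y t).det ≠ 0) :
    MD (fun s => (Y s)⁻¹) (-((Y t)⁻¹ * Y' t * (Y t)⁻¹)) t := by
  have hy : ∀ i j, DifferentiableAt ℝ (fun s => Y s i j) t := fun i j => (h t i j).differentiableAt
  have hdet : DifferentiableAt ℝ (fun s => (Y s).det) t := by
    simp only [Matrix.det_fin_three]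
    fun_prop
  have hadj : ∀ i j, DifferentiableAt ℝ (fun s => (Y s).adjugate i j) t := by
    intro i j
    simp only [Matrix.adjugate_fin_three]
    fin_cases i <;> fin_cases j <;> simp <;> fun_prop
  have hV : MD (fun s => (Y s)⁻¹) (Matrix.of fun i j => deriv (fun s => (Y s)⁻¹ i j) t) t := by
    intro i j
    apply DifferentiableAt.hasDerivAt
    simp only [Matrix.inv_def, Ring.inverse_eq_inv', Matrix.smul_apply, smul_eq_mul]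
    exact (hdet.inv hd).mul (hadj i j)
  have hev : ∀ᶠ s in 𝓝 t, (Y s)⁻¹ * Y s = 1 := by
    filter_upwards [hdet.continuousAt.eventually_ne hd] with s hs
    exact Matrix.nonsing_inv_mul _ (Ne.isUnit hs)
  have h1 := (hV.mul (h t)).unique (MD.const 1 t) hev
  have h2 : Y t * (Y t)⁻¹ = 1 := Matrix.mul_nonsing_inv _ (Ne.isUnit hd)
  generalize (Matrix.of fun i j => deriv (fun s => (Y s)⁻¹ i j) t) = V at *
  have h3 : V = -((Y t)⁻¹ * Y' t * (Y t)⁻¹) := by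
    calc V = V * (Y t * (Y t)⁻¹) := by rw [h2, Matrix.mul_one]
      _ = (V * Y t + (Y t)⁻¹ * Y' t) * (Y t)⁻¹ - (Y t)⁻¹ * Y' t * (Y t)⁻¹ := by noncomm_ring
      _ = _ := by rw [h1]; simp
  rwa [h3] at hV

/-- the Riccati matrix -/
noncomputable def UU (Y H : ℝ → M3) (s : ℝ) : M3 := H s * (Y s)⁻¹

lemma UU_mul {Y H : ℝ → M3} {t : ℝ} (hd : (Y t).det ≠ 0) : UU Y H t * Y t = H t := by
  unfold UU
  rw [Matrix.mul_assoc, Matrix.nonsing_inv_mul _ (Ne.isUnit hd), Matrix.mul_one]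

lemma UU_deriv {K Om Y H : ℝ → M3} (hJ : JacSys K Om Y H) {t : ℝ} (hd : (Y t).det ≠ 0) :
    MD (UU Y H) (K t - Om t * UU Y H t - UU Y H t * UU Y H t + UU Y H t * Om t) t := by
  have hH : MD H (K t * Y t - Om t * H t) t := hJ.dH t
  have h1 := hH.mul (inv_deriv (Y' := fun s => H s - Om s * Y s) (fun s => hJ.dY s) hd)
  have h2 : Y t * (Y t)⁻¹ = 1 := Matrix.mul_nonsing_inv _ (Ne.isUnit hd)
  have e : (K t * Y t - Om t * H t) * (Y t)⁻¹ + H t * -((Y t)⁻¹ * (H t - Om t * Y t) * (Y t)⁻¹) =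
      K t - Om t * UU Y H t - UU Y H t * UU Y H t + UU Y H t * Om t := by
    unfold UU
    calc _ = K t * (Y t * (Y t)⁻¹) - Om t * (H t * (Y t)⁻¹) - H t * (Y t)⁻¹ * (H t * (Y t)⁻¹) +
          H t * (Y t)⁻¹ * Om t * (Y t * (Y t)⁻¹) := by noncomm_ring
      _ = _ := by rw [h2]; simp
  rw [e] at h1
  exact h1

lemma UU_symm {K Om Y H : ℝ → M3} (hC : Cone K Om Y H) {t : ℝ} (hd : (Y t).det ≠ 0) (i j : Fin 3) :
    UU Y H t j i = UU Y H t i j := by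
  have h2 : Y t * (Y t)⁻¹ = 1 := Matrix.mul_nonsing_inv _ (Ne.isUnit hd)
  have h3 : ((Y t)⁻¹)ᵀ * (Y t)ᵀ = 1 := by
    rw [← Matrix.transpose_mul, h2, Matrix.transpose_one]
  have h : (UU Y H t)ᵀ = UU Y H t := by
    unfold UU
    rw [Matrix.transpose_mul]
    calc ((Y t)⁻¹)ᵀ * (H t)ᵀ = ((Y t)⁻¹)ᵀ * (H t)ᵀ * (Y t * (Y t)⁻¹) := by rw [h2, Matrix.mul_one]
      _ = ((Y t)⁻¹)ᵀ * ((H t)ᵀ * Y t) * (Y t)⁻¹ := by noncomm_ring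
      _ = ((Y t)⁻¹)ᵀ * (Y t)ᵀ * (H t * (Y t)⁻¹) := by rw [← hC.wronski t]; noncomm_ring
      _ = _ := by rw [h3, Matrix.one_mul]
  exact congrFun (congrFun h i) j

lemma W_bound {Y H : ℝ → M3} {t μ : ℝ} (hd : (Y t).det ≠ 0) (hμ : 0 ≤ μ)
    (h : ∀ u, nsq ((H t - U0 * Y t) *ᵥ u) ≤ μ ^ 2 * nsq (Y t *ᵥ u)) (i j : Fin 3) :
    |(UU Y H t - U0) i j| ≤ μ := by
  have h2 : Y t * (Y t)⁻¹ = 1 := Matrix.mul_nonsing_inv _ (Ne.isUnit hd)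
  have h1 := h ((Y t)⁻¹ *ᵥ Pi.single j 1)
  have e : (H t - U0 * Y t) * (Y t)⁻¹ = UU Y H t - U0 := by
    unfold UU
    rw [Matrix.sub_mul, Matrix.mul_assoc, h2, Matrix.mul_one]
  rw [Matrix.mulVec_mulVec, Matrix.mulVec_mulVec, e, h2, Matrix.one_mulVec,
    Matrix.mulVec_single_one] at h1
  have h3 : nsq (Pi.single j 1) = 1 := by
    fin_cases j <;> simp [nsq]
  rw [h3, mul_one] at h1
  apply abs_le_of_sq_le_sq' _ hμ |> abs_le.2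
  refine le_trans ?_ h1
  generalize UU Y H t - U0 = W
  simp only [nsq, Matrix.col_apply]
  fin_cases i <;> simp <;> nlinarith [sq_nonneg (W 0 j), sq_nonneg (W 1 j), sq_nonneg (W 2 j)]

lemma abs_mul_le' {x y a b : ℝ} (hx : |x| ≤ a) (hy : |y| ≤ b) : |x * y| ≤ a * b := by
  rw [abs_mul]
  exact mul_le_mul hx hy (abs_nonneg _) ((abs_nonneg _).trans hx)

lemma alg_E {a w1 w2 p q r o1 o2 μ o : ℝ} (ha : |a| ≤ μ) (h1 : |w1| ≤ μ) (h2 : |w2| ≤ μ)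
    (hp : |p| ≤ μ) (hq : |q| ≤ μ) (hr : |r| ≤ μ) (g1 : |o1| ≤ o) (g2 : |o2| ≤ o) :
    |(p ^ 2 + 2 * q ^ 2 + r ^ 2) + (w1 ^ 2 + w2 ^ 2) - 2 * (o1 * w1 + o2 * w2)| ≤
        6 * μ ^ 2 + 4 * o * μ ∧
      |a ^ 2 + (w1 ^ 2 + w2 ^ 2) + 2 * (o1 * w1 + o2 * w2)| ≤ 3 * μ ^ 2 + 4 * o * μ := by
  have s : ∀ x : ℝ, |x| ≤ μ → 0 ≤ x ^ 2 ∧ x ^ 2 ≤ μ ^ 2 := fun x hx =>
    ⟨sq_nonneg x, sq_le_sq' (abs_le.1 hx).1 (abs_le.1 hx).2⟩
  have b1 := abs_le.1 (abs_mul_le' g1 h1)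
  have b2 := abs_le.1 (abs_mul_le' g2 h2)
  have := s a ha
  have := s w1 h1
  have := s w2 h2
  have := s p hp
  have := s q hq
  have := s r hr
  constructor <;> rw [abs_le] <;> constructor <;> nlinarith [sq_nonneg μ]

lemma alg_main {a w1 w2 p q r o1 o2 d1 dw μ o : ℝ} (ha : |a| ≤ μ) (h1 : |w1| ≤ μ) (h2 : |w2| ≤ μ)
    (hp : |p| ≤ μ) (hq : |q| ≤ μ) (hr : |r| ≤ μ) (g1 : |o1| ≤ o) (g2 : |o2| ≤ o) {a' g' : ℝ}
    (ea : a' = d1 - 4 * a - (a ^ 2 + (w1 ^ 2 + w2 ^ 2) + 2 * (o1 * w1 + o2 * w2)))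
    (eg : g' = dw - 2 * (p + r) -
      ((p ^ 2 + 2 * q ^ 2 + r ^ 2) + (w1 ^ 2 + w2 ^ 2) - 2 * (o1 * w1 + o2 * w2))) :
    1 / 4 * (d1 - 2 * dw) + 1 / 8 * dw * (p + r) - 1 / 16 * d1 * a -
        (2 * μ ^ 3 + 2 * o * μ ^ 2 + 13 * o ^ 2) ≤
      (a - (p + r) - 4 * (o1 ^ 2 + o2 ^ 2)) + 1 / 4 * (a' - 2 * g') + 1 / 8 * (p + r) * g' -
        1 / 16 * a * a' := by
  obtain ⟨e1, e2⟩ := alg_E ha h1 h2 hp hq hr g1 g2
  have hg : |p + r| ≤ 2 * μ := by linarith [abs_add_le p r]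
  have b1 := abs_le.1 (abs_mul_le' hg e1)
  have b2 := abs_le.1 (abs_mul_le' ha e2)
  have c1 : o1 ^ 2 ≤ o ^ 2 := sq_le_sq' (abs_le.1 g1).1 (abs_le.1 g1).2
  have c2 : o2 ^ 2 ≤ o ^ 2 := sq_le_sq' (abs_le.1 g2).1 (abs_le.1 g2).2
  have hμ : 0 ≤ μ := (abs_nonneg _).trans ha
  have ho : 0 ≤ o := (abs_nonneg _).trans g1
  have p1 : 0 ≤ μ ^ 3 := by positivity
  have p2 : 0 ≤ o * μ ^ 2 := by positivity
  rw [ea, eg]
  nlinarith [sq_nonneg (w1 - 3 * o1), sq_nonneg (w2 - 3 * o2), sq_nonneg (p - r), sq_nonneg q,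
    sq_nonneg o]

lemma alg_Q {a p q r o1 o2 y0 y1 y2 : ℝ} (ha : |a| ≤ 2 / 25)
    (hp : |p| ≤ 2 / 25) (hq : |q| ≤ 2 / 25) (hr : |r| ≤ 2 / 25) (g1 : |o1| ≤ 1 / 100)
    (g2 : |o2| ≤ 1 / 100) {Q' : ℝ}
    (e : Q' = 2 * (2 + a) * y0 ^ 2 - 4 * y0 * (o1 * y1 + o2 * y2) -
      2 * ((1 + p) * y1 ^ 2 + 2 * q * y1 * y2 + (1 + r) * y2 ^ 2)) :
    7 / 2 * (y0 ^ 2 - y1 ^ 2 - y2 ^ 2) ≤ Q' ∧
      2 * (2 + a - 2 * (o1 ^ 2 + o2 ^ 2)) * (y0 ^ 2 - y1 ^ 2 - y2 ^ 2) ≤ Q' := by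
  have c1 : o1 ^ 2 ≤ (1 / 100) ^ 2 := sq_le_sq' (abs_le.1 g1).1 (abs_le.1 g1).2
  have c2 : o2 ^ 2 ≤ (1 / 100) ^ 2 := sq_le_sq' (abs_le.1 g2).1 (abs_le.1 g2).2
  rw [abs_le] at ha hp hq hr
  have s0 := sq_nonneg y0
  have s1 := sq_nonneg y1
  have s2 := sq_nonneg y2
  have k1 : 4 * y0 * (o1 * y1 + o2 * y2) ≤ 4 * (o1 ^ 2 + o2 ^ 2) * y0 ^ 2 + (y1 ^ 2 + y2 ^ 2) := by
    nlinarith [sq_nonneg (2 * o1 * y0 - y1), sq_nonneg (2 * o2 * y0 - y2)]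
  have k2 : 2 * q * y1 * y2 ≤ 2 / 25 * (y1 ^ 2 + y2 ^ 2) := by
    nlinarith [mul_nonneg (sub_nonneg.2 hq.2) (sq_nonneg (y1 + y2)),
      mul_nonneg (sub_nonneg.2 hq.1) (sq_nonneg (y1 - y2))]
  have k3 : p * y1 ^ 2 ≤ 2 / 25 * y1 ^ 2 := mul_le_mul_of_nonneg_right hp.2 s1
  have k4 : r * y2 ^ 2 ≤ 2 / 25 * y2 ^ 2 := mul_le_mul_of_nonneg_right hr.2 s2
  have k5 : -(2 / 25) * y0 ^ 2 ≤ a * y0 ^ 2 := mul_le_mul_of_nonneg_right ha.1 s0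
  have k6 : -(2 / 25) * (y1 ^ 2 + y2 ^ 2) ≤ a * (y1 ^ 2 + y2 ^ 2) :=
    mul_le_mul_of_nonneg_right ha.1 (by positivity)
  have k7 : (o1 ^ 2 + o2 ^ 2) * y0 ^ 2 ≤ 2 * (1 / 100) ^ 2 * y0 ^ 2 :=
    mul_le_mul_of_nonneg_right (by linarith) s0
  have k8 : (o1 ^ 2 + o2 ^ 2) * (y1 ^ 2 + y2 ^ 2) ≤ 2 * (1 / 100) ^ 2 * (y1 ^ 2 + y2 ^ 2) :=
    mul_le_mul_of_nonneg_right (by linarith) (by positivity)
  rw [e]
  constructor <;> nlinarith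

lemma cmp {g δ : ℝ → ℝ} (hδ : Continuous δ) {s t L : ℝ} (hst : s ≤ t)
    (h : ∀ x ∈ Icc s t, ∃ d, HasDerivAt g d x ∧ |d - δ x| ≤ L) :
    |g t - ∫ x in s..t, δ x| ≤ |g s| + L * (t - s) := by
  have h1 := mono (f := fun u => g u - ∫ x in s..u, δ x) (c := -L) hst (fun x hx => by
    obtain ⟨d, a1, a2⟩ := h x hx
    exact ⟨_, a1.sub (prim hδ s x), (abs_le.1 a2).1⟩)
  have h2 := anti (f := fun u => g u - ∫ x in s..u, δ x) (c := L) hst (fun x hx => by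
    obtain ⟨d, a1, a2⟩ := h x hx
    exact ⟨_, a1.sub (prim hδ s x), (abs_le.1 a2).2⟩)
  simp only [intervalIntegral.integral_same, sub_zero] at h1 h2
  rw [abs_le]
  constructor <;> linarith [le_abs_self (g s), neg_abs_le (g s)]

lemma slide_cont {δ : ℝ → ℝ} (hδ : Continuous δ) (τ : ℝ) :
    Continuous fun t => ∫ s in (t - τ)..t, δ s := by
  have hF : Continuous fun t => ∫ s in (0 : ℝ)..t, δ s :=
    continuous_iff_continuousAt.2 fun t => (prim hδ 0 t).continuousAt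
  have : (fun t => ∫ s in (t - τ)..t, δ s) =
      fun t => (∫ s in (0 : ℝ)..t, δ s) - ∫ s in (0 : ℝ)..(t - τ), δ s := by
    ext t
    rw [intervalIntegral.integral_interval_sub_left (hδ.intervalIntegrable _ _)
      (hδ.intervalIntegrable _ _)]
  rw [this]
  exact hF.sub (hF.comp (continuous_id.sub continuous_const))

lemma slide_le {δ : ℝ → ℝ} {τ c : ℝ} (hτ : 0 ≤ τ) (h : ∀ s, |δ s| ≤ c) (t : ℝ) :
    |∫ s in (t - τ)..t, δ s| ≤ c * τ := by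
  have := intervalIntegral.norm_integral_le_of_norm_le_const (a := t - τ) (b := t) (f := δ) (C := c)
    (fun x _ => h x)
  rwa [sub_sub_cancel, abs_of_nonneg hτ] at this

end OdeC

end Pool.Agent.MP_019006_gt
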