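import Pool.Agent.MP_019006_gt.Basic2
import Pool.Agent.MP_019006_gt.OdeMul
import Pool.Agent.MP_019006_gt.OdeCore1

set_option autoImplicit false

open MeasureTheory Filter Topology Set Matrix

namespace Pool.Agent.MP_019006_gt

namespace OdeD

open OdeC (MD mono anti om_facts UU UU_mul inv_deriv)

variable {K Om Y H : ℝ → M3}

lemma om_dot {O : M3} (h : Oᵀ = -O) (u v : Fin 3 → ℝ) :
    u ⬝ᵥ (O *ᵥ v) + v ⬝ᵥ (O *ᵥ u) = 0 := by
  obtain ⟨o1, o2, o3, o4, o5, o6⟩ := om_facts h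
  simp only [dotProduct, Matrix.mulVec, Fin.sum_univ_three, o1, o2, o3, o4, o5, o6]
  ring

lemma sym_dot {S : M3} (h : Sᵀ = S) (u v : Fin 3 → ℝ) : u ⬝ᵥ (S *ᵥ v) = v ⬝ᵥ (S *ᵥ u) := by
  have key : ∀ i j, S j i = S i j := fun i j => congrFun (congrFun h i) j
  simp only [dotProduct, Matrix.mulVec, Fin.sum_univ_three, key 0 1, key 0 2, key 1 2]
  ring

lemma dot_deriv {A B : ℝ → M3} {A' B' : M3} {t : ℝ} (hA : MD A A' t) (hB : MD B B' t)
    (u v : Fin 3 → ℝ) : HasDerivAt (fun s => (A s *ᵥ u) ⬝ᵥ (B s *ᵥ v))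
      ((A' *ᵥ u) ⬝ᵥ (B t *ᵥ v) + (A t *ᵥ u) ⬝ᵥ (B' *ᵥ v)) t := by
  simp only [dotProduct, ← Finset.sum_add_distrib]
  exact HasDerivAt.fun_sum fun k _ => (hA.vec u k).mul (hB.vec v k)

lemma dA (h : DirSys K Om Y H) (w : Fin 3 → ℝ) (t : ℝ) :
    HasDerivAt (fun s => nsq (Y s *ᵥ w)) (2 * ((Y t *ᵥ w) ⬝ᵥ (H t *ᵥ w))) t := by
  have hY : MD Y (H t - Om t * Y t) t := h.dY t
  refine (hY.nsq w).congr_deriv ?_
  rw [Matrix.sub_mulVec, ← Matrix.mulVec_mulVec, dotProduct_sub]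
  have := om_dot (h.Oa t) (Y t *ᵥ w) (Y t *ᵥ w)
  linarith

lemma dB (h : DirSys K Om Y H) (w : Fin 3 → ℝ) (t : ℝ) :
    HasDerivAt (fun s => (Y s *ᵥ w) ⬝ᵥ (H s *ᵥ w))
      (nsq (H t *ᵥ w) + (Y t *ᵥ w) ⬝ᵥ (K t *ᵥ (Y t *ᵥ w))) t := by
  have hY : MD Y (H t - Om t * Y t) t := h.dY t
  have hH : MD H (K t * Y t - Om t * H t) t := h.dH t
  refine (dot_deriv hY hH w w).congr_deriv ?_
  rw [Matrix.sub_mulVec, Matrix.sub_mulVec, ← Matrix.mulVec_mulVec, ← Matrix.mulVec_mulVec,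
    ← Matrix.mulVec_mulVec, dotProduct_sub, sub_dotProduct, OdeMul.nsq_eq_dot,
    dotProduct_comm (Om t *ᵥ (Y t *ᵥ w))]
  have := om_dot (h.Oa t) (Y t *ᵥ w) (H t *ᵥ w)
  linarith

lemma dD (h : DirSys K Om Y H) (w : Fin 3 → ℝ) (t : ℝ) :
    HasDerivAt (fun s => nsq (H s *ᵥ w)) (2 * ((H t *ᵥ w) ⬝ᵥ (K t *ᵥ (Y t *ᵥ w)))) t := by
  have hH : MD H (K t * Y t - Om t * H t) t := h.dH t
  refine (hH.nsq w).congr_deriv ?_
  rw [Matrix.sub_mulVec, ← Matrix.mulVec_mulVec, ← Matrix.mulVec_mulVec, dotProduct_sub]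
  have := om_dot (h.Oa t) (H t *ᵥ w) (H t *ᵥ w)
  linarith

lemma two_dot (u v : Fin 3 → ℝ) (c : ℝ) : 2 * c * (u ⬝ᵥ v) ≤ c ^ 2 * nsq u + nsq v := by
  simp only [nsq, dotProduct, Fin.sum_univ_three]
  nlinarith [sq_nonneg (c * u 0 - v 0), sq_nonneg (c * u 1 - v 1), sq_nonneg (c * u 2 - v 2)]

lemma K_cross (h : DirSys K Om Y H) (t : ℝ) (u v : Fin 3 → ℝ) :
    |2 * (u ⬝ᵥ (K t *ᵥ v))| ≤ 5 * (nsq u + nsq v) := by
  have h1 := (h.pinch t (u - v)).1
  have h2 := (h.pinch t (u + v)).1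
  have h3 := (h.pinch t u).2
  have h4 := (h.pinch t v).2
  have h5 := OdeMul.nsq_nonneg (u - v)
  have h6 := OdeMul.nsq_nonneg (u + v)
  have h7 := sym_dot (h.Ks t) u v
  rw [Matrix.mulVec_sub, dotProduct_sub, sub_dotProduct, sub_dotProduct] at h1
  rw [Matrix.mulVec_add, dotProduct_add, add_dotProduct, add_dotProduct] at h2
  rw [abs_le]
  constructor <;> linarith

/-- a differential inequality `f' ≥ c f` integrates -/
lemma exp_le {f : ℝ → ℝ} {a b c : ℝ} (hab : a ≤ b)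
    (h : ∀ t ∈ Icc a b, ∃ d, HasDerivAt f d t ∧ c * f t ≤ d) :
    Real.exp (c * (b - a)) * f a ≤ f b := by
  have h1 := mono (f := fun t => Real.exp (-c * t) * f t) (c := 0) hab (fun t ht => by
    obtain ⟨d, h1, h2⟩ := h t ht
    have h3 : HasDerivAt (fun r => Real.exp (-c * r)) (Real.exp (-c * t) * (-c)) t := by
      simpa using ((hasDerivAt_id t).const_mul (-c)).exp
    refine ⟨_, h3.mul h1, ?_⟩
    have := Real.exp_pos (-c * t)
    nlinarith)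
  have e : Real.exp (c * (b - a)) = Real.exp (c * b) * Real.exp (-c * a) := by
    rw [← Real.exp_add]; ring_nf
  have e2 : Real.exp (c * b) * Real.exp (-c * b) = 1 := by
    rw [← Real.exp_add]; simp
  have h2 := Real.exp_pos (c * b)
  calc Real.exp (c * (b - a)) * f a = Real.exp (c * b) * (Real.exp (-c * a) * f a) := by
        rw [e]; ring
    _ ≤ Real.exp (c * b) * (Real.exp (-c * b) * f b) :=
        mul_le_mul_of_nonneg_left (by linarith) h2.le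
    _ = f b := by rw [← mul_assoc, e2, one_mul]

lemma le_exp {f : ℝ → ℝ} {a b c : ℝ} (hab : a ≤ b)
    (h : ∀ t ∈ Icc a b, ∃ d, HasDerivAt f d t ∧ d ≤ c * f t) :
    f b ≤ Real.exp (c * (b - a)) * f a := by
  have := exp_le (f := fun t => -f t) (c := c) hab (fun t ht => by
    obtain ⟨d, h1, h2⟩ := h t ht
    exact ⟨-d, h1.neg, by linarith⟩)
  linarith

lemma cone (h : DirSys K Om Y H) (w : Fin 3 → ℝ) {t : ℝ} (ht : 0 ≤ t) :
    9 / 10 * nsq (Y t *ᵥ w) ≤ (Y t *ᵥ w) ⬝ᵥ (H t *ᵥ w) := by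
  have h1 := mono (f := fun s => (Y s *ᵥ w) ⬝ᵥ (H s *ᵥ w) - 9 / 10 * nsq (Y s *ᵥ w)) (c := 0) ht
    (fun s _ => by
      refine ⟨_, (dB h w s).sub ((dA h w s).const_mul (9 / 10)), ?_⟩
      have h2 := (h.pinch s (Y s *ᵥ w)).1
      have h3 := two_dot (Y s *ᵥ w) (H s *ᵥ w) (9 / 10)
      have h4 := OdeMul.nsq_nonneg (Y s *ᵥ w)
      linarith)
  simp only [h.Y0, Matrix.zero_mulVec, zero_dotProduct] at h1
  have : nsq 0 = 0 := by simp [nsq]
  rw [this] at h1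
  linarith

lemma grow (h : DirSys K Om Y H) (w : Fin 3 → ℝ) {s t : ℝ} (hs : 0 ≤ s) (hst : s ≤ t) :
    Real.exp (t - s) * nsq (Y s *ᵥ w) ≤ nsq (Y t *ᵥ w) := by
  have := exp_le (f := fun r => nsq (Y r *ᵥ w)) (c := 1) hst (fun r hr => by
    refine ⟨_, dA h w r, ?_⟩
    have h1 := cone h w (hs.trans hr.1)
    have h2 := OdeMul.nsq_nonneg (Y r *ᵥ w)
    linarith)
  simpa using this

lemma energy (h : DirSys K Om Y H) (w : Fin 3 → ℝ) {t : ℝ} (ht : 0 ≤ t) :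
    Real.exp (-6 * t) * nsq w ≤ nsq (Y t *ᵥ w) + nsq (H t *ᵥ w) ∧
      nsq (Y t *ᵥ w) + nsq (H t *ᵥ w) ≤ Real.exp (6 * t) * nsq w := by
  have hb : ∀ r, |2 * ((Y r *ᵥ w) ⬝ᵥ (H r *ᵥ w)) + 2 * ((H r *ᵥ w) ⬝ᵥ (K r *ᵥ (Y r *ᵥ w)))| ≤
      6 * (nsq (Y r *ᵥ w) + nsq (H r *ᵥ w)) := by
    intro r
    have h1 := abs_le.1 (K_cross h r (H r *ᵥ w) (Y r *ᵥ w))
    have h2 := two_dot (Y r *ᵥ w) (H r *ᵥ w) 1
    have h3 := two_dot (Y r *ᵥ w) (H r *ᵥ w) (-1)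
    rw [abs_le]
    constructor <;> linarith [h1.1, h1.2]
  have h0 : nsq (Y 0 *ᵥ w) + nsq (H 0 *ᵥ w) = nsq w := by
    simp [h.Y0, h.H0, nsq]
  constructor
  · have := exp_le (f := fun r => nsq (Y r *ᵥ w) + nsq (H r *ᵥ w)) (c := -6) ht (fun r _ =>
      ⟨_, (dA h w r).add (dD h w r), by linarith [(abs_le.1 (hb r)).1]⟩)
    simpa [h0] using this
  · have := le_exp (f := fun r => nsq (Y r *ᵥ w) + nsq (H r *ᵥ w)) (c := 6) ht (fun r _ =>
      ⟨_, (dA h w r).add (dD h w r), (abs_le.1 (hb r)).2⟩)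
    simpa [h0] using this

lemma B_low (h : DirSys K Om Y H) (w : Fin 3 → ℝ) {t : ℝ} (ht : 0 ≤ t) :
    9 / 10 * Real.exp (-6 * t) * nsq w * t ≤ (Y t *ᵥ w) ⬝ᵥ (H t *ᵥ w) := by
  have h1 := mono (f := fun s => (Y s *ᵥ w) ⬝ᵥ (H s *ᵥ w))
    (c := 9 / 10 * Real.exp (-6 * t) * nsq w) ht (fun s hs => by
      refine ⟨_, dB h w s, ?_⟩
      have h2 := (h.pinch s (Y s *ᵥ w)).1
      have h3 := (energy h w hs.1).1
      have h4 := OdeMul.nsq_nonneg (H s *ᵥ w)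
      have h5 : Real.exp (-6 * t) ≤ Real.exp (-6 * s) := Real.exp_le_exp.2 (by linarith [hs.2])
      have h6 := mul_le_mul_of_nonneg_right h5 (OdeMul.nsq_nonneg w)
      linarith)
  simpa [h.Y0] using h1

lemma nsq_pos {w : Fin 3 → ℝ} (hw : w ≠ 0) : 0 < nsq w := by
  rcases (OdeMul.nsq_nonneg w).eq_or_lt with h0 | h0
  · exfalso
    apply hw
    unfold nsq at h0
    have h1 : w 0 = 0 := by nlinarith [sq_nonneg (w 0), sq_nonneg (w 1), sq_nonneg (w 2)]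
    have h2 : w 1 = 0 := by nlinarith [sq_nonneg (w 0), sq_nonneg (w 1), sq_nonneg (w 2)]
    have h3 : w 2 = 0 := by nlinarith [sq_nonneg (w 0), sq_nonneg (w 1), sq_nonneg (w 2)]
    ext i
    fin_cases i <;> simp [h1, h2, h3]
  · exact h0

lemma det_pos (h : DirSys K Om Y H) {t : ℝ} (ht : 0 < t) : 0 < (Y t).det := by
  have hYc : Continuous Y := continuous_pi fun i => continuous_pi fun j =>
    continuous_iff_continuousAt.2 fun s => (h.dY s i j).continuousAt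
  have hHc : Continuous H := continuous_pi fun i => continuous_pi fun j =>
    continuous_iff_continuousAt.2 fun s => (h.dH s i j).continuousAt
  set F : ℝ → M3 := fun r => (1 - r) • H (r * t) + r • Y (r * t) with hF
  have hFc : Continuous fun r => (F r).det := by
    apply Continuous.matrix_det
    simp only [hF]
    fun_prop
  have hne : ∀ r ∈ Icc (0 : ℝ) 1, (F r).det ≠ 0 := by
    intro r hr h0
    rcases hr.1.eq_or_lt with h1 | h1
    · simp [hF, ← h1, h.H0] at h0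
    obtain ⟨w, hw, hw0⟩ := Matrix.exists_mulVec_eq_zero_iff.2 h0
    have hrt : 0 < r * t := mul_pos h1 ht
    have h2 := B_low h w hrt.le
    have h3 : 0 < 9 / 10 * Real.exp (-6 * (r * t)) * nsq w * (r * t) := by
      have := nsq_pos hw
      positivity
    have h4 : (Y (r * t) *ᵥ w) ⬝ᵥ (F r *ᵥ w) = 0 := by rw [hw0, dotProduct_zero]
    simp only [hF, Matrix.add_mulVec, Matrix.smul_mulVec, dotProduct_add, dotProduct_smul,
      smul_eq_mul] at h4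
    rw [← OdeMul.nsq_eq_dot] at h4
    have h5 : Y (r * t) *ᵥ w ≠ 0 := by
      intro h6
      rw [h6, zero_dotProduct] at h2
      linarith
    have h6 := mul_pos h1 (nsq_pos h5)
    have h7 := mul_nonneg (sub_nonneg.2 hr.2) (h3.le.trans h2)
    linarith
  have h0 : (F 0).det = 1 := by simp [hF, h.H0]
  have h1 : (F 1).det = (Y t).det := by simp [hF]
  by_contra hneg
  push Not at hneg
  have := intermediate_value_Icc' (zero_le_one' ℝ) hFc.continuousOn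
    (show (0 : ℝ) ∈ Icc (F 1).det (F 0).det from ⟨h1 ▸ hneg, by rw [h0]; norm_num⟩)
  obtain ⟨r, hr, hr0⟩ := this
  exact hne r hr hr0

lemma const_of {W : ℝ → M3} (h : ∀ t, MD W 0 t) (s t : ℝ) : W s = W t := by
  ext i j
  exact is_const_of_deriv_eq_zero (f := fun r => W r i j)
    (fun r => (h r i j).differentiableAt) (fun r => (h r i j).deriv) s t

/-- derivative of a Wronskian of two solutions -/
lemma wr_deriv {Y' H' : ℝ → M3} {t : ℝ} {k o : M3} (hk : kᵀ = k) (ho : oᵀ = -o)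
    (hY : MD Y (H t - o * Y t) t) (hH : MD H (k * Y t - o * H t) t)
    (hY' : MD Y' (H' t - o * Y' t) t) (hH' : MD H' (k * Y' t - o * H' t) t) :
    MD (fun s => (Y s)ᵀ * H' s - (H s)ᵀ * Y' s) 0 t := by
  have h1 := (hY.transpose.mul hH').sub (hH.transpose.mul hY')
  have e : (H t - o * Y t)ᵀ * H' t + (Y t)ᵀ * (k * Y' t - o * H' t) -
      ((k * Y t - o * H t)ᵀ * Y' t + (H t)ᵀ * (H' t - o * Y' t)) = 0 := by
    simp only [Matrix.transpose_sub, Matrix.transpose_mul, hk, ho]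
    noncomm_ring
  rw [e] at h1
  exact h1

lemma wronski (h : DirSys K Om Y H) (t : ℝ) : (Y t)ᵀ * H t = (H t)ᵀ * Y t := by
  have h1 := const_of (W := fun s => (Y s)ᵀ * H s - (H s)ᵀ * Y s)
    (fun s => wr_deriv (h.Ks s) (h.Oa s) (h.dY s) (h.dH s) (h.dY s) (h.dH s)) t 0
  simp only [h.Y0, Matrix.transpose_zero, Matrix.zero_mul, Matrix.mul_zero, sub_zero] at h1
  exact sub_eq_zero.1 h1

lemma one_low (h : DirSys K Om Y H) (w : Fin 3 → ℝ) :
    nsq w ≤ Real.exp 19 * nsq (Y 1 *ᵥ w) := by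
  have h1 := B_low h w zero_le_one
  have h2 := (energy h w zero_le_one).2
  have h3 := OdeMul.cs (Y 1 *ᵥ w) (H 1 *ᵥ w)
  have h4 := OdeMul.nsq_nonneg (Y 1 *ᵥ w)
  have h5 := OdeMul.nsq_nonneg w
  simp only [mul_one] at h1 h2
  set A := nsq (Y 1 *ᵥ w)
  set D := nsq (H 1 *ᵥ w)
  set B := (Y 1 *ᵥ w) ⬝ᵥ (H 1 *ᵥ w)
  set n := nsq w
  set e := Real.exp 6 with he
  have hepos : 0 < e := Real.exp_pos 6
  have e1 : Real.exp (-6) = e⁻¹ := Real.exp_neg 6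
  have e2 : Real.exp 19 = Real.exp 1 * e ^ 3 := by
    rw [he, ← Real.exp_nat_mul, ← Real.exp_add]; norm_num
  have e3 : (2 : ℝ) ≤ Real.exp 1 := by linarith [Real.add_one_le_exp 1]
  rw [e1] at h1
  rcases h5.eq_or_lt with h0 | h0
  · rw [← h0]; positivity
  have h6 : 9 / 10 * n ≤ e * B := by
    have := mul_le_mul_of_nonneg_left h1 hepos.le
    have e4 : e * (9 / 10 * e⁻¹ * n) = 9 / 10 * n := by field_simp
    linarith
  have h7 : (9 / 10 * n) ^ 2 ≤ (e * B) ^ 2 := pow_le_pow_left₀ (by positivity) h6 2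
  have h8 : B ^ 2 ≤ A * (e * n) := h3.trans (mul_le_mul_of_nonneg_left (by linarith) h4)
  have h9 : 81 / 100 * n * n ≤ e ^ 3 * A * n := by
    have := mul_le_mul_of_nonneg_left h8 (sq_nonneg e)
    nlinarith
  have h10 : 81 / 100 * n ≤ e ^ 3 * A := le_of_mul_le_mul_right h9 h0
  have h11 : 0 ≤ e ^ 3 * A := by positivity
  rw [e2]
  nlinarith

lemma U_deriv (h : DirSys K Om Y H) {t : ℝ} (ht : 0 < t) :
    MD (UU Y H) (K t - Om t * UU Y H t - UU Y H t * UU Y H t + UU Y H t * Om t) t := by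
  have hd := (det_pos h ht).ne'
  have hH : MD H (K t * Y t - Om t * H t) t := h.dH t
  have h1 := hH.mul (inv_deriv (Y' := fun s => H s - Om s * Y s) (fun s => h.dY s) hd)
  have h2 : Y t * (Y t)⁻¹ = 1 := Matrix.mul_nonsing_inv _ (Ne.isUnit hd)
  have e : (K t * Y t - Om t * H t) * (Y t)⁻¹ + H t * -((Y t)⁻¹ * (H t - Om t * Y t) * (Y t)⁻¹) =
      K t - Om t * UU Y H t - UU Y H t * UU Y H t + UU Y H t * Om t := by
    unfold UU
    calc _ = K t * (Y t * (Y t)⁻¹) - Om t * (H t * (Y t)⁻¹) - H t * (Y t)⁻¹ * (H t * (Y t)⁻¹) +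
          H t * (Y t)⁻¹ * Om t * (Y t * (Y t)⁻¹) := by noncomm_ring
      _ = _ := by rw [h2]; simp
  rw [e] at h1
  exact h1

lemma U_symm (h : DirSys K Om Y H) {t : ℝ} (ht : 0 < t) : (UU Y H t)ᵀ = UU Y H t := by
  have hd := (det_pos h ht).ne'
  have h2 : Y t * (Y t)⁻¹ = 1 := Matrix.mul_nonsing_inv _ (Ne.isUnit hd)
  have h3 : ((Y t)⁻¹)ᵀ * (Y t)ᵀ = 1 := by
    rw [← Matrix.transpose_mul, h2, Matrix.transpose_one]
  unfold UU
  rw [Matrix.transpose_mul]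
  calc ((Y t)⁻¹)ᵀ * (H t)ᵀ = ((Y t)⁻¹)ᵀ * (H t)ᵀ * (Y t * (Y t)⁻¹) := by rw [h2, Matrix.mul_one]
    _ = ((Y t)⁻¹)ᵀ * ((H t)ᵀ * Y t) * (Y t)⁻¹ := by noncomm_ring
    _ = ((Y t)⁻¹)ᵀ * (Y t)ᵀ * (H t * (Y t)⁻¹) := by rw [← wronski h t]; noncomm_ring
    _ = _ := by rw [h3, Matrix.one_mul]

lemma U_low (h : DirSys K Om Y H) {t : ℝ} (ht : 0 < t) (u : Fin 3 → ℝ) :
    9 / 10 * nsq u ≤ u ⬝ᵥ (UU Y H t *ᵥ u) := by
  have hd := (det_pos h ht).ne'
  have h1 := cone h ((Y t)⁻¹ *ᵥ u) ht.le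
  rw [Matrix.mulVec_mulVec, Matrix.mulVec_mulVec, Matrix.mul_nonsing_inv _ (Ne.isUnit hd),
    Matrix.one_mulVec] at h1
  exact h1

lemma form_single (S : M3) (i : Fin 3) :
    (Pi.single i 1 : Fin 3 → ℝ) ⬝ᵥ (S *ᵥ Pi.single i 1) = S i i := by
  simp

lemma U_diag (h : DirSys K Om Y H) {t : ℝ} (ht : 0 < t) (i : Fin 3) : 9 / 10 ≤ UU Y H t i i := by
  have := U_low h ht (Pi.single i 1)
  rwa [OdeMul.nsq_single, form_single, mul_one] at this

/-- the bound for the trace of the Riccati matrix -/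
noncomputable def cX : ℝ := 6 * Real.exp 3

lemma cX_ge : 1 ≤ cX := by
  unfold cX
  linarith [Real.add_one_le_exp 3]

lemma trace_le (h : DirSys K Om Y H) {t : ℝ} (ht : 1 ≤ t) :
    UU Y H t 0 0 + UU Y H t 1 1 + UU Y H t 2 2 ≤ cX := by
  set x : ℝ → ℝ := fun s => UU Y H s 0 0 + UU Y H s 1 1 + UU Y H s 2 2 with hx
  have hx0 : ∀ s, 0 < s → 27 / 10 ≤ x s := fun s hs => by
    linarith [U_diag h hs 0, U_diag h hs 1, U_diag h hs 2]
  have hd : ∀ s, 0 < s → ∃ d, HasDerivAt x d s ∧ d ≤ 15 - x s ^ 2 / 3 := by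
    intro s hs
    have hU := U_deriv h hs
    refine ⟨_, ((hU 0 0).add (hU 1 1)).add (hU 2 2), ?_⟩
    have k0 := (h.pinch s (Pi.single 0 1)).2
    have k1 := (h.pinch s (Pi.single 1 1)).2
    have k2 := (h.pinch s (Pi.single 2 1)).2
    rw [OdeMul.nsq_single, form_single] at k0 k1 k2
    have key : ∀ i j, UU Y H s j i = UU Y H s i j := fun i j =>
      congrFun (congrFun (U_symm h hs) i) j
    simp only [hx, Matrix.add_apply, Matrix.sub_apply, Matrix.mul_apply, Fin.sum_univ_three,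
      key 0 1, key 0 2, key 1 2]
    obtain ⟨o1, o2, o3, o4, o5, o6⟩ := om_facts (h.Oa s)
    simp only [o1, o2, o3, o4, o5, o6]
    generalize UU Y H s = U
    nlinarith [sq_nonneg (U 0 0 - U 1 1), sq_nonneg (U 0 0 - U 2 2), sq_nonneg (U 1 1 - U 2 2),
      sq_nonneg (U 0 1), sq_nonneg (U 0 2), sq_nonneg (U 1 2)]
  have h1 := mono (f := fun s => Real.exp (6 * s) * (x s)⁻¹) (a := t - 1 / 2) (b := t)
    (c := Real.exp (6 * (t - 1 / 2)) / 3) (by linarith) (fun s hs => by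
      have hs0 : 0 < s := by linarith [hs.1]
      obtain ⟨d, hd1, hd2⟩ := hd s hs0
      have hxs := hx0 s hs0
      have hxp : 0 < x s := by linarith
      have h3 : HasDerivAt (fun r => Real.exp (6 * r)) (Real.exp (6 * s) * 6) s := by
        simpa using ((hasDerivAt_id s).const_mul 6).exp
      refine ⟨_, h3.mul (hd1.inv hxp.ne'), ?_⟩
      have h4 : Real.exp (6 * (t - 1 / 2)) ≤ Real.exp (6 * s) :=
        Real.exp_le_exp.2 (by linarith [hs.1])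
      have h5 : 1 / 3 ≤ 6 * (x s)⁻¹ + -d / x s ^ 2 := by
        have e : 6 * (x s)⁻¹ + -d / x s ^ 2 = (6 * x s - d) / x s ^ 2 := by field_simp; ring
        rw [e, le_div_iff₀ (by positivity)]
        linarith
      have h6 := mul_le_mul_of_nonneg_left h5 (Real.exp_pos (6 * s)).le
      linarith)
  have ht0 : 0 < t := by linarith
  have hxt : 0 < x t := by linarith [hx0 t ht0]
  have h2 : 0 < Real.exp (6 * (t - 1 / 2)) * (x (t - 1 / 2))⁻¹ := by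
    have : 0 < x (t - 1 / 2) := by linarith [hx0 (t - 1 / 2) (by linarith)]
    positivity
  have e : Real.exp (6 * t) = Real.exp (6 * (t - 1 / 2)) * Real.exp 3 := by
    rw [← Real.exp_add]; ring_nf
  have h3 : Real.exp (6 * (t - 1 / 2)) * (1 / 6) ≤
      Real.exp (6 * (t - 1 / 2)) * (Real.exp 3 * (x t)⁻¹) := by
    rw [e] at h1
    linarith
  have h4 := le_of_mul_le_mul_left h3 (Real.exp_pos _)
  rw [← div_eq_mul_inv, le_div_iff₀ hxt] at h4
  show x t ≤ cX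
  unfold cX
  linarith

lemma U_entry (h : DirSys K Om Y H) {t : ℝ} (ht : 1 ≤ t) (i j : Fin 3) : |UU Y H t i j| ≤ cX := by
  have ht0 : 0 < t := by linarith
  have h1 := trace_le h ht
  have h2 := U_low h ht0 (Pi.single i 1 + Pi.single j 1)
  have h3 := U_low h ht0 (Pi.single i 1 - Pi.single j 1)
  have h4 := OdeMul.nsq_nonneg (Pi.single i 1 + Pi.single j 1)
  have h5 := OdeMul.nsq_nonneg (Pi.single i 1 - Pi.single j 1)
  have key : UU Y H t j i = UU Y H t i j := congrFun (congrFun (U_symm h ht0) i) j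
  have hdiag : ∀ k, UU Y H t k k ≤ cX := by
    intro k
    have d0 := U_diag h ht0 0
    have d1 := U_diag h ht0 1
    have d2 := U_diag h ht0 2
    have e0 : UU Y H t 0 0 ≤ cX := by linarith
    have e1 : UU Y H t 1 1 ≤ cX := by linarith
    have e2 : UU Y H t 2 2 ≤ cX := by linarith
    fin_cases k
    exacts [e0, e1, e2]
  simp only [Matrix.mulVec_add, Matrix.mulVec_sub, dotProduct_add, dotProduct_sub, add_dotProduct,
    sub_dotProduct, Matrix.mulVec_single_one, single_dotProduct, one_mul, Matrix.col_apply,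
    key] at h2 h3
  have hi := hdiag i
  have hj := hdiag j
  rw [abs_le]
  constructor <;> linarith

lemma fro_le_of_entry {A : M3} {x : ℝ} (hx : 0 ≤ x) (h : ∀ i j, |A i j| ≤ x) : fro A ≤ 3 * x := by
  refine (sq_le_sq₀ (OdeMul.fro_nonneg _) (by positivity)).1 ?_
  rw [OdeMul.fro_sq]
  have q : ∀ i j, A i j ^ 2 ≤ x ^ 2 := fun i j => sq_le_sq' (abs_le.1 (h i j)).1
    (abs_le.1 (h i j)).2
  simp only [Fin.sum_univ_three]
  linarith [q 0 0, q 0 1, q 0 2, q 1 0, q 1 1, q 1 2, q 2 0, q 2 1, q 2 2]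

lemma entry_le_fro (A : M3) (i j : Fin 3) : |A i j| ≤ fro A := by
  refine abs_le_of_sq_le_sq' ?_ (OdeMul.fro_nonneg A) |> abs_le.2
  rw [OdeMul.fro_sq]
  exact (Finset.single_le_sum (f := fun j => A i j ^ 2) (fun _ _ => sq_nonneg _)
    (Finset.mem_univ j)).trans (Finset.single_le_sum (f := fun i => ∑ j, A i j ^ 2)
      (fun _ _ => Finset.sum_nonneg fun _ _ => sq_nonneg _) (Finset.mem_univ i))

lemma nsq_mulVec_le (A : M3) (u : Fin 3 → ℝ) : nsq (A *ᵥ u) ≤ fro A ^ 2 * nsq u := by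
  rw [OdeMul.fro_sq]
  have h0 := OdeMul.cs (A 0) u
  have h1 := OdeMul.cs (A 1) u
  have h2 := OdeMul.cs (A 2) u
  have e : nsq (A *ᵥ u) = (A 0 ⬝ᵥ u) ^ 2 + (A 1 ⬝ᵥ u) ^ 2 + (A 2 ⬝ᵥ u) ^ 2 := rfl
  have e2 : ∑ i, ∑ j, A i j ^ 2 = nsq (A 0) + nsq (A 1) + nsq (A 2) := by
    simp only [Fin.sum_univ_three, nsq]
  rw [e, e2]
  linarith

lemma H_le (h : DirSys K Om Y H) {t : ℝ} (ht : 1 ≤ t) (w : Fin 3 → ℝ) :
    nsq (H t *ᵥ w) ≤ 9 * cX ^ 2 * nsq (Y t *ᵥ w) := by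
  have hd := (det_pos h (show 0 < t by linarith)).ne'
  rw [← UU_mul (H := H) hd, ← Matrix.mulVec_mulVec]
  refine (nsq_mulVec_le _ _).trans (mul_le_mul_of_nonneg_right ?_ (OdeMul.nsq_nonneg _))
  have h1 := fro_le_of_entry (by linarith [cX_ge]) (U_entry h ht)
  have := pow_le_pow_left₀ (OdeMul.fro_nonneg _) h1 2
  linarith

lemma logdet_deriv (h : DirSys K Om Y H) {t : ℝ} (ht : 0 < t) :
    HasDerivAt (fun s => Real.log (Y s).det)
      (UU Y H t 0 0 + UU Y H t 1 1 + UU Y H t 2 2) t := by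
  have hd := (det_pos h ht).ne'
  have hY : MD Y ((UU Y H t - Om t) * Y t) t := by
    rw [Matrix.sub_mul, UU_mul hd]
    exact h.dY t
  refine (hY.det.log hd).congr_deriv ?_
  obtain ⟨o1, o2, o3, -⟩ := om_facts (h.Oa t)
  simp only [Matrix.sub_apply, o1, o2, o3, sub_zero]
  field_simp

lemma abs_sub_le_of {f : ℝ → ℝ} {a b c : ℝ} (hab : a ≤ b)
    (h : ∀ t ∈ Icc a b, ∃ d, HasDerivAt f d t ∧ |d| ≤ c) : |f b - f a| ≤ c * (b - a) := by
  have h1 := mono (f := f) (c := -c) hab (fun t ht => by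
    obtain ⟨d, h1, h2⟩ := h t ht
    exact ⟨d, h1, (abs_le.1 h2).1⟩)
  have h2 := anti (f := f) (c := c) hab (fun t ht => by
    obtain ⟨d, h1, h2⟩ := h t ht
    exact ⟨d, h1, (abs_le.1 h2).2⟩)
  rw [abs_le]
  constructor <;> linarith

lemma log_det_ge {A : M3} {b : ℝ} (hd : 0 < A.det)
    (h : ∀ u, nsq u ≤ Real.exp b * nsq (A *ᵥ u)) : -(3 / 2 * b + 5) ≤ Real.log A.det := by
  have h1 : A⁻¹.det = A.det⁻¹ := by rw [Matrix.det_nonsing_inv, Ring.inverse_eq_inv']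
  have h2 := OdeMul.log_det_le (A := A⁻¹) (b := b) (by rw [h1]; positivity) (fun u => by
    have := h (A⁻¹ *ᵥ u)
    rwa [Matrix.mulVec_mulVec, Matrix.mul_nonsing_inv _ (Ne.isUnit hd.ne'),
      Matrix.one_mulVec] at this)
  rw [h1, Real.log_inv] at h2
  linarith

end OdeD

end Pool.Agent.MP_019006_gt
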