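import Pool.Agent.MP_019006_gt.JobDefs

set_option autoImplicit false

open MeasureTheory Filter Topology Set Matrix

namespace Pool.Agent.MP_019006_gt

namespace OE

/-- Exponential rate of a positive sequence. -/
def Rate (a : ℕ → ℝ) (l : ℝ) : Prop :=
  Tendsto (fun n : ℕ => Real.log (a n) / n) atTop (𝓝 l)

/-- Upper exponential rate. -/
def URate (a : ℕ → ℝ) (l : ℝ) : Prop :=
  ∀ ε : ℝ, 0 < ε → ∀ᶠ n : ℕ in atTop, a n ≤ Real.exp ((l + ε) * n)

theorem rate_const (C : ℝ) : Rate (fun _ => C) 0 := by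
  unfold Rate
  exact tendsto_const_div_atTop_nhds_zero_nat (Real.log C)

theorem Rate.mul {a b : ℕ → ℝ} {l m : ℝ} (ha : Rate a l) (hb : Rate b m)
    (a0 : ∀ n, 0 < a n) (b0 : ∀ n, 0 < b n) : Rate (fun n => a n * b n) (l + m) := by
  unfold Rate at *
  refine (ha.add hb).congr fun n => ?_
  rw [Real.log_mul (a0 n).ne' (b0 n).ne', add_div]

theorem Rate.div {a b : ℕ → ℝ} {l m : ℝ} (ha : Rate a l) (hb : Rate b m)
    (a0 : ∀ n, 0 < a n) (b0 : ∀ n, 0 < b n) : Rate (fun n => a n / b n) (l - m) := by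
  unfold Rate at *
  refine (ha.sub hb).congr fun n => ?_
  rw [Real.log_div (a0 n).ne' (b0 n).ne', sub_div]

theorem Rate.const_mul {a : ℕ → ℝ} {l : ℝ} (ha : Rate a l) (a0 : ∀ n, 0 < a n) {C : ℝ}
    (hC : 0 < C) : Rate (fun n => C * a n) l := by
  simpa using (rate_const C).mul ha (fun _ => hC) a0

theorem Rate.sq {a : ℕ → ℝ} {l : ℝ} (ha : Rate a l) : Rate (fun n => a n ^ 2) (2 * l) := by
  unfold Rate at *
  refine (ha.const_mul 2).congr fun n => ?_
  rw [Real.log_pow]; push_cast; ring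

theorem Rate.sqrt {a : ℕ → ℝ} {l : ℝ} (ha : Rate a l) (a0 : ∀ n, 0 < a n) :
    Rate (fun n => Real.sqrt (a n)) (l / 2) := by
  unfold Rate at *
  refine (ha.div_const 2).congr fun n => ?_
  rw [Real.log_sqrt (a0 n).le]; ring

theorem Rate.le {a b : ℕ → ℝ} {l m : ℝ} (ha : Rate a l) (hb : Rate b m)
    (a0 : ∀ n, 0 < a n) (h : ∀ n, a n ≤ b n) : l ≤ m := by
  unfold Rate at *
  refine le_of_tendsto_of_tendsto' ha hb fun n => ?_
  exact div_le_div_of_nonneg_right (Real.log_le_log (a0 n) (h n)) (Nat.cast_nonneg n)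

theorem Rate.squeeze {a b c : ℕ → ℝ} {l : ℝ} (ha : Rate a l) (hc : Rate c l)
    (a0 : ∀ n, 0 < a n) (h1 : ∀ n, a n ≤ b n) (h2 : ∀ n, b n ≤ c n) : Rate b l := by
  unfold Rate at *
  refine tendsto_of_tendsto_of_tendsto_of_le_of_le ha hc (fun n => ?_) (fun n => ?_)
  · exact div_le_div_of_nonneg_right (Real.log_le_log (a0 n) (h1 n)) (Nat.cast_nonneg n)
  · exact div_le_div_of_nonneg_right (Real.log_le_log ((a0 n).trans_le (h1 n)) (h2 n))
      (Nat.cast_nonneg n)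

theorem Rate.comparable {a b : ℕ → ℝ} {l : ℝ} (ha : Rate a l) (a0 : ∀ n, 0 < a n)
    {c C : ℝ} (hc : 0 < c) (hC : 0 < C) (h1 : ∀ n, c * a n ≤ b n) (h2 : ∀ n, b n ≤ C * a n) :
    Rate b l :=
  Rate.squeeze (ha.const_mul a0 hc) (ha.const_mul a0 hC) (fun n => mul_pos hc (a0 n)) h1 h2

theorem Rate.shift {a : ℕ → ℝ} {l : ℝ} (ha : Rate a l) : Rate (fun n => a (n + 1)) l := by
  unfold Rate at *
  have h1 : Tendsto (fun n : ℕ => Real.log (a (n + 1)) / ((n + 1 : ℕ) : ℝ)) atTop (𝓝 l) :=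
    ha.comp (tendsto_add_atTop_nat 1)
  have h2 : Tendsto (fun n : ℕ => 1 + (1 : ℝ) / n) atTop (𝓝 (1 + 0)) :=
    tendsto_const_nhds.add (tendsto_const_div_atTop_nhds_zero_nat 1)
  have h3 := h1.mul h2
  simp only [add_zero, mul_one] at h3
  refine h3.congr' ?_
  filter_upwards [eventually_gt_atTop 0] with n hn
  have : (0 : ℝ) < n := by exact_mod_cast hn
  push_cast
  field_simp

theorem rate_exp (l : ℝ) : Rate (fun n : ℕ => Real.exp (l * n)) l := by
  unfold Rate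
  refine tendsto_const_nhds.congr' ?_
  filter_upwards [eventually_gt_atTop 0] with n hn
  have : (0 : ℝ) < n := by exact_mod_cast hn
  rw [Real.log_exp]; field_simp

theorem Rate.urate {a : ℕ → ℝ} {l : ℝ} (ha : Rate a l) : URate a l := by
  intro ε hε
  have h1 : ∀ᶠ n : ℕ in atTop, Real.log (a n) / n < l + ε :=
    ha.eventually (gt_mem_nhds (by linarith))
  filter_upwards [h1, eventually_gt_atTop 0] with n hn hn0
  have : (0 : ℝ) < n := by exact_mod_cast hn0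
  rw [div_lt_iff₀ this] at hn
  calc a n ≤ |a n| := le_abs_self _
    _ ≤ Real.exp (Real.log (a n)) := by
      rcases eq_or_ne (a n) 0 with h | h
      · simp [h]
      · rw [← Real.log_abs, Real.exp_log (abs_pos.mpr h)]
    _ ≤ _ := Real.exp_le_exp.mpr hn.le

theorem ev_const_le (C ε : ℝ) (hε : 0 < ε) : ∀ᶠ n : ℕ in atTop, C ≤ Real.exp (ε * n) := by
  have := (rate_const C).urate ε hε
  simpa using this

theorem URate.mono {a b : ℕ → ℝ} {l : ℝ} (hb : URate b l) (h : ∀ n, a n ≤ b n) : URate a l :=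
  fun ε hε => (hb ε hε).mono fun n hn => (h n).trans hn

theorem URate.add {a b : ℕ → ℝ} {l : ℝ} (ha : URate a l) (hb : URate b l) :
    URate (fun n => a n + b n) l := by
  intro ε hε
  filter_upwards [ha (ε / 2) (by linarith), hb (ε / 2) (by linarith),
    ev_const_le 2 (ε / 2) (by linarith)] with n h1 h2 h3
  have : Real.exp ((l + ε) * n) = Real.exp (ε / 2 * n) * Real.exp ((l + ε / 2) * n) := by
    rw [← Real.exp_add]; congr 1; ring
  rw [this]
  have := Real.exp_pos ((l + ε / 2) * n)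
  nlinarith

theorem URate.mul {a b : ℕ → ℝ} {l m : ℝ} (ha : URate a l) (hb : URate b m)
    (b0 : ∀ n, 0 ≤ b n) : URate (fun n => a n * b n) (l + m) := by
  intro ε hε
  filter_upwards [ha (ε / 2) (by linarith), hb (ε / 2) (by linarith)] with n h1 h2
  have : Real.exp ((l + m + ε) * n) =
      Real.exp ((l + ε / 2) * n) * Real.exp ((m + ε / 2) * n) := by
    rw [← Real.exp_add]; congr 1; ring
  rw [this]
  exact mul_le_mul h1 h2 (b0 n) (Real.exp_pos _).le

theorem rate_of_urate {a b : ℕ → ℝ} {l : ℝ} (ha : Rate a l) (a0 : ∀ n, 0 < a n)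
    (hb : URate b l) (h : ∀ n, a n ≤ b n) : Rate b l := by
  unfold Rate at *
  rw [tendsto_order] at ha ⊢
  refine ⟨fun x hx => ?_, fun x hx => ?_⟩
  · filter_upwards [ha.1 x hx] with n hn
    exact hn.trans_le (div_le_div_of_nonneg_right (Real.log_le_log (a0 n) (h n))
      (Nat.cast_nonneg n))
  · filter_upwards [hb ((x - l) / 2) (by linarith), eventually_gt_atTop 0] with n hn hn0
    have hp : (0 : ℝ) < n := by exact_mod_cast hn0
    have h2 := Real.log_le_log ((a0 n).trans_le (h n)) hn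
    rw [Real.log_exp] at h2
    rw [div_lt_iff₀ hp]
    nlinarith

theorem URate.summable {a : ℕ → ℝ} {l : ℝ} (ha : URate a l) (a0 : ∀ n, 0 ≤ a n) (hl : l < 0) :
    Summable a := by
  have hr : Real.exp (l / 2) < 1 := Real.exp_lt_one_iff.mpr (by linarith)
  have hs : Summable fun n : ℕ => Real.exp (l / 2) ^ n :=
    summable_geometric_of_lt_one (Real.exp_pos _).le hr
  refine Summable.of_norm_bounded_eventually_nat hs ?_
  filter_upwards [ha (-l / 2) (by linarith)] with n hn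
  rw [Real.norm_of_nonneg (a0 n), ← Real.exp_nat_mul]
  convert hn using 2; ring

theorem URate.tail {a : ℕ → ℝ} {l : ℝ} (ha : URate a l) (a0 : ∀ n, 0 ≤ a n) (hl : l < 0) :
    URate (fun n => ∑' k, a (k + n)) l := by
  intro ε hε
  set δ := min (ε / 2) (-l / 2) with hδ
  have δ0 : 0 < δ := lt_min (by linarith) (by linarith)
  have δ1 : δ ≤ ε / 2 := min_le_left _ _
  have δ2 : δ ≤ -l / 2 := min_le_right _ _
  set r := Real.exp (l + δ) with hr
  have r0 : 0 < r := Real.exp_pos _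
  have r1 : r < 1 := Real.exp_lt_one_iff.mpr (by linarith)
  obtain ⟨N, hN⟩ := eventually_atTop.mp (ha δ δ0)
  filter_upwards [eventually_ge_atTop N, ev_const_le (1 - r)⁻¹ (ε / 2) (by linarith)]
    with n hn hC
  have hs : HasSum (fun k : ℕ => r ^ k * r ^ n) ((1 - r)⁻¹ * r ^ n) :=
    (hasSum_geometric_of_lt_one r0.le r1).mul_right _
  have hle : ∀ k, a (k + n) ≤ r ^ k * r ^ n := by
    intro k
    have := hN (k + n) (by omega)
    rw [← pow_add, hr, ← Real.exp_nat_mul]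
    convert this using 2; ring
  have hsa : Summable fun k => a (k + n) :=
    Summable.of_nonneg_of_le (fun k => a0 _) hle hs.summable
  calc ∑' k, a (k + n) ≤ (1 - r)⁻¹ * r ^ n := by
        rw [← hs.tsum_eq]; exact hsa.tsum_le_tsum hle hs.summable
    _ ≤ Real.exp (ε / 2 * n) * r ^ n := mul_le_mul_of_nonneg_right hC (pow_nonneg r0.le _)
    _ ≤ Real.exp ((l + ε) * n) := by
        rw [hr, ← Real.exp_nat_mul, ← Real.exp_add]
        refine Real.exp_le_exp.mpr ?_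
        have : (0 : ℝ) ≤ n := Nat.cast_nonneg n
        nlinarith

/-- A unit near minimiser of a positive binary form. -/
theorem near_min (E F G : ℝ) (hE : 0 < E) (hD : 0 < E * G - F ^ 2) :
    ∃ c : ℝ × ℝ, c.1 ^ 2 + c.2 ^ 2 = 1 ∧
      E * c.1 ^ 2 + 2 * F * c.1 * c.2 + G * c.2 ^ 2 ≤ 2 * ((E * G - F ^ 2) / (E + G)) := by
  have hG : 0 < G := by
    by_contra h
    push Not at h
    nlinarith [sq_nonneg F]
  have key : ∀ x y m : ℝ, 0 < m → E + G ≤ 2 * m → m ^ 2 ≤ x ^ 2 + y ^ 2 →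
      E * x ^ 2 + 2 * F * x * y + G * y ^ 2 = m * (E * G - F ^ 2) →
      ∃ c : ℝ × ℝ, c.1 ^ 2 + c.2 ^ 2 = 1 ∧
      E * c.1 ^ 2 + 2 * F * c.1 * c.2 + G * c.2 ^ 2 ≤ 2 * ((E * G - F ^ 2) / (E + G)) := by
    intro x y m hm h1 h2 h3
    have hp : 0 < x ^ 2 + y ^ 2 := lt_of_lt_of_le (by positivity) h2
    set ρ := Real.sqrt (x ^ 2 + y ^ 2) with hρ
    have ρ0 : 0 < ρ := Real.sqrt_pos.mpr hp
    have ρ2 : ρ ^ 2 = x ^ 2 + y ^ 2 := Real.sq_sqrt hp.le
    refine ⟨(x / ρ, y / ρ), ?_, ?_⟩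
    · simp only [div_pow]; rw [← add_div, ρ2]; exact div_self hp.ne'
    · have : E * (x / ρ) ^ 2 + 2 * F * (x / ρ) * (y / ρ) + G * (y / ρ) ^ 2 =
          (E * x ^ 2 + 2 * F * x * y + G * y ^ 2) / ρ ^ 2 := by field_simp
      simp only
      rw [this, h3, ρ2, ← mul_div_assoc, div_le_div_iff₀ hp (by linarith)]
      have h4 : m * (E + G) ≤ 2 * (x ^ 2 + y ^ 2) := by nlinarith
      nlinarith
  rcases le_total E G with h | h
  · exact key G (-F) G hG (by linarith) (by nlinarith [sq_nonneg F]) (by ring)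
  · exact key (-F) E E hE (by linarith) (by nlinarith [sq_nonneg F]) (by ring)

theorem om_tri (u v w : ℝ × ℝ) (hu : u.1 ^ 2 + u.2 ^ 2 = 1) (hv : v.1 ^ 2 + v.2 ^ 2 = 1)
    (hw : w.1 ^ 2 + w.2 ^ 2 = 1) :
    |u.1 * w.2 - u.2 * w.1| ≤ |u.1 * v.2 - u.2 * v.1| + |v.1 * w.2 - v.2 * w.1| := by
  have h1 : u.1 * w.2 - u.2 * w.1 = (u.1 * v.2 - u.2 * v.1) * (v.1 * w.1 + v.2 * w.2) +
      (v.1 * w.2 - v.2 * w.1) * (u.1 * v.1 + u.2 * v.2) := by
    linear_combination (-(u.1 * w.2 - u.2 * w.1)) * hv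
  have h2 : |v.1 * w.1 + v.2 * w.2| ≤ 1 := by
    rw [← sq_le_one_iff_abs_le_one]
    nlinarith [sq_nonneg (v.1 * w.2 - v.2 * w.1)]
  have h3 : |u.1 * v.1 + u.2 * v.2| ≤ 1 := by
    rw [← sq_le_one_iff_abs_le_one]
    nlinarith [sq_nonneg (u.1 * v.2 - u.2 * v.1)]
  rw [h1]
  refine (abs_add_le _ _).trans ?_
  rw [abs_mul, abs_mul]
  exact add_le_add (mul_le_of_le_one_right (abs_nonneg _) h2)
    (mul_le_of_le_one_right (abs_nonneg _) h3)

theorem form_nonneg (E F G x y : ℝ) (hE : 0 < E) (hD : 0 < E * G - F ^ 2) :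
    0 ≤ E * x ^ 2 + 2 * F * x * y + G * y ^ 2 := by
  have : E * (E * x ^ 2 + 2 * F * x * y + G * y ^ 2) =
      (E * x + F * y) ^ 2 + (E * G - F ^ 2) * y ^ 2 := by ring
  have h2 : 0 ≤ E * (E * x ^ 2 + 2 * F * x * y + G * y ^ 2) := by rw [this]; positivity
  exact (mul_nonneg_iff_of_pos_left hE).mp h2

theorem form_le (E F G x y : ℝ) (hE : 0 < E) (hD : 0 < E * G - F ^ 2) :
    E * x ^ 2 + 2 * F * x * y + G * y ^ 2 ≤ (E + G) * (x ^ 2 + y ^ 2) := by
  have := form_nonneg E F G y (-x) hE hD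
  nlinarith

theorem form_split (E F G : ℝ) (hE : 0 < E) (hD : 0 < E * G - F ^ 2) (u c : ℝ × ℝ)
    (hu : u.1 ^ 2 + u.2 ^ 2 = 1) (hc : c.1 ^ 2 + c.2 ^ 2 = 1) :
    E * c.1 ^ 2 + 2 * F * c.1 * c.2 + G * c.2 ^ 2 ≤
      2 * (E * u.1 ^ 2 + 2 * F * u.1 * u.2 + G * u.2 ^ 2) +
        2 * ((u.1 * c.2 - u.2 * c.1) ^ 2 * (E + G)) := by
  set p := u.1 * c.1 + u.2 * c.2 with hp
  set w := u.1 * c.2 - u.2 * c.1 with hw
  have c1 : c.1 = p * u.1 - w * u.2 := by rw [hp, hw]; linear_combination (-c.1) * hu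
  have c2 : c.2 = p * u.2 + w * u.1 := by rw [hp, hw]; linear_combination (-c.2) * hu
  have p1 : p ^ 2 ≤ 1 := by
    have : p ^ 2 + w ^ 2 = 1 := by
      rw [hp, hw]; linear_combination (c.1 ^ 2 + c.2 ^ 2) * hu + hc
    nlinarith [sq_nonneg w]
  have a1 := form_nonneg E F G (p * u.1 + w * u.2) (p * u.2 - w * u.1) hE hD
  have a2 := form_nonneg E F G u.1 u.2 hE hD
  have a3 := form_le E F G (-u.2) u.1 hE hD
  have a4 : (-u.2) ^ 2 + u.1 ^ 2 = 1 := by linarith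
  rw [a4, mul_one] at a3
  have a5 : E * c.1 ^ 2 + 2 * F * c.1 * c.2 + G * c.2 ^ 2 +
      (E * (p * u.1 + w * u.2) ^ 2 + 2 * F * (p * u.1 + w * u.2) * (p * u.2 - w * u.1) +
        G * (p * u.2 - w * u.1) ^ 2) =
      2 * (p ^ 2 * (E * u.1 ^ 2 + 2 * F * u.1 * u.2 + G * u.2 ^ 2)) +
      2 * (w ^ 2 * (E * (-u.2) ^ 2 + 2 * F * (-u.2) * u.1 + G * u.1 ^ 2)) := by
    rw [c1, c2]; ring
  have a6 := mul_le_mul_of_nonneg_right p1 a2
  have a7 := mul_le_mul_of_nonneg_left a3 (sq_nonneg w)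
  linarith

/-- The two dimensional lemma. -/
theorem two_dim (E F G : ℕ → ℝ) (hE : ∀ n, 0 < E n) (hD : ∀ n, 0 < E n * G n - F n ^ 2)
    (mono : ∀ n x y, E n * x ^ 2 + 2 * F n * x * y + G n * y ^ 2 ≤
      E (n + 1) * x ^ 2 + 2 * F (n + 1) * x * y + G (n + 1) * y ^ 2)
    (τ μ : ℝ) (hT : Rate (fun n => E n + G n) τ)
    (hDr : Rate (fun n => E n * G n - F n ^ 2) (τ + μ)) :
    μ ≤ τ ∧ ∃ x y : ℝ, x ^ 2 + y ^ 2 = 1 ∧
      Rate (fun n => E n * x ^ 2 + 2 * F n * x * y + G n * y ^ 2) μ := by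
  have hG : ∀ n, 0 < G n := by
    intro n
    by_contra h
    push Not at h
    nlinarith [sq_nonneg (F n), hE n, hD n]
  have T0 : ∀ n, 0 < E n + G n := fun n => add_pos (hE n) (hG n)
  have hq : Rate (fun n => (E n * G n - F n ^ 2) / (E n + G n)) μ := by
    simpa using hDr.div hT hD T0
  have q0 : ∀ n, 0 < (E n * G n - F n ^ 2) / (E n + G n) := fun n => div_pos (hD n) (T0 n)
  have low : ∀ x y : ℝ, x ^ 2 + y ^ 2 = 1 → ∀ n, (E n * G n - F n ^ 2) / (E n + G n) ≤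
      E n * x ^ 2 + 2 * F n * x * y + G n * y ^ 2 := by
    intro x y h n
    rw [div_le_iff₀ (T0 n)]
    have : (E n * x ^ 2 + 2 * F n * x * y + G n * y ^ 2) * (E n + G n) =
        (E n * G n - F n ^ 2) * (x ^ 2 + y ^ 2) + (E n * x + F n * y) ^ 2 +
          (F n * x + G n * y) ^ 2 := by ring
    rw [this, h]
    nlinarith [sq_nonneg (E n * x + F n * y), sq_nonneg (F n * x + G n * y)]
  have hμτ : μ ≤ τ := by
    refine hq.le hT q0 fun n => ?_
    have h1 := low 1 0 (by norm_num) n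
    have := hG n
    nlinarith
  refine ⟨hμτ, ?_⟩
  rcases hμτ.eq_or_lt with h | h
  · refine ⟨1, 0, by norm_num, ?_⟩
    refine hq.squeeze (h ▸ hT) q0 (low 1 0 (by norm_num)) fun n => ?_
    have := hG n
    nlinarith
  choose c hc1 hc2 using fun n => near_min (E n) (F n) (G n) (hE n) (hD n)
  set a : ℕ → ℝ := fun n => 2 * Real.sqrt
    ((E (n + 1) * G (n + 1) - F (n + 1) ^ 2) / (E (n + 1) + G (n + 1)) / (E n + G n)) with ha
  have a0 : ∀ n, 0 ≤ a n := fun n => by positivity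
  have ar : Rate a ((μ - τ) / 2) := by
    have h1 := (hq.shift.div hT (fun n => q0 (n + 1)) T0).sqrt
      (fun n => div_pos (q0 (n + 1)) (T0 n))
    exact h1.const_mul (fun n => Real.sqrt_pos.mpr (div_pos (q0 (n + 1)) (T0 n))) two_pos
  have step : ∀ n, |(c n).1 * (c (n + 1)).2 - (c n).2 * (c (n + 1)).1| ≤ a n := by
    intro n
    refine abs_le_of_sq_le_sq ?_ (a0 n)
    rw [ha]
    simp only
    rw [mul_pow, Real.sq_sqrt (div_pos (q0 (n + 1)) (T0 n)).le]
    set q1 := (E (n + 1) * G (n + 1) - F (n + 1) ^ 2) / (E (n + 1) + G (n + 1)) with hq1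
    have b1 := hc2 n
    have b2 := (mono n (c (n + 1)).1 (c (n + 1)).2).trans (hc2 (n + 1))
    rw [← hq1] at b2
    have b3 := form_nonneg (E n) (F n) (G n) (c (n + 1)).1 (c (n + 1)).2 (hE n) (hD n)
    have b4 := mul_le_mul b1 b2 b3 (by have := q0 n; positivity)
    have b5 : ((c n).1 * (c (n + 1)).2 - (c n).2 * (c (n + 1)).1) ^ 2 * (E n * G n - F n ^ 2) ≤
        (E n * (c n).1 ^ 2 + 2 * F n * (c n).1 * (c n).2 + G n * (c n).2 ^ 2) *
        (E n * (c (n + 1)).1 ^ 2 + 2 * F n * (c (n + 1)).1 * (c (n + 1)).2 +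
          G n * (c (n + 1)).2 ^ 2) := by
      nlinarith [sq_nonneg (E n * (c n).1 * (c (n + 1)).1 +
        F n * ((c n).1 * (c (n + 1)).2 + (c n).2 * (c (n + 1)).1) +
        G n * (c n).2 * (c (n + 1)).2)]
    have b6 : 2 * ((E n * G n - F n ^ 2) / (E n + G n)) * (2 * q1) =
        2 ^ 2 * (q1 / (E n + G n)) * (E n * G n - F n ^ 2) := by ring
    exact le_of_mul_le_mul_right (b5.trans (b6 ▸ b4)) (hD n)
  have hneg : (μ - τ) / 2 < 0 := by linarith
  have asum := ar.urate.summable a0 hneg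
  have atail := ar.urate.tail a0 hneg
  set S : ℕ → ℝ := fun n => ∑' k, a (k + n) with hS
  have S0 : ∀ n, 0 ≤ S n := fun n => tsum_nonneg fun k => a0 _
  have chain : ∀ n m, |(c n).1 * (c (n + m)).2 - (c n).2 * (c (n + m)).1| ≤
      ∑ k ∈ Finset.range m, a (k + n) := by
    intro n m
    induction m with
    | zero => simp [mul_comm]
    | succ m ih =>
      rw [Finset.sum_range_succ]
      have h1 := om_tri (c n) (c (n + m)) (c (n + m + 1)) (hc1 _) (hc1 _) (hc1 _)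
      have h2 := step (n + m)
      rw [add_comm m n]
      exact h1.trans (add_le_add ih h2)
  have chain' : ∀ n m, n ≤ m → |(c n).1 * (c m).2 - (c n).2 * (c m).1| ≤ S n := by
    intro n m hnm
    obtain ⟨k, rfl⟩ := Nat.exists_eq_add_of_le hnm
    refine (chain n k).trans ?_
    exact ((summable_nat_add_iff n).mpr asum).sum_le_tsum _ fun k _ => a0 _
  have hcomp : IsCompact (Icc (-1 : ℝ) 1 ×ˢ Icc (-1 : ℝ) 1) := isCompact_Icc.prod isCompact_Icc
  obtain ⟨z, -, φ, hφ, hz⟩ := hcomp.tendsto_subseq (x := c) (fun n => by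
    have := hc1 n
    refine ⟨⟨?_, ?_⟩, ⟨?_, ?_⟩⟩ <;> nlinarith [sq_nonneg (c n).1, sq_nonneg (c n).2])
  have z1 : z.1 ^ 2 + z.2 ^ 2 = 1 := by
    have h1 : Tendsto (fun m => (c (φ m)).1 ^ 2 + (c (φ m)).2 ^ 2) atTop
        (𝓝 (z.1 ^ 2 + z.2 ^ 2)) :=
      ((by fun_prop : Continuous fun w : ℝ × ℝ => w.1 ^ 2 + w.2 ^ 2).tendsto z).comp hz
    simp only [hc1] at h1
    exact (tendsto_nhds_unique tendsto_const_nhds h1).symm
  have z2 : ∀ n, |(c n).1 * z.2 - (c n).2 * z.1| ≤ S n := by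
    intro n
    have h1 : Tendsto (fun m => |(c n).1 * (c (φ m)).2 - (c n).2 * (c (φ m)).1|) atTop
        (𝓝 (|(c n).1 * z.2 - (c n).2 * z.1|)) :=
      ((by fun_prop : Continuous fun w : ℝ × ℝ => |(c n).1 * w.2 - (c n).2 * w.1|).tendsto z).comp
        hz
    refine le_of_tendsto h1 ?_
    filter_upwards [eventually_ge_atTop n] with m hm
    exact chain' n (φ m) (hm.trans (hφ.id_le m))
  refine ⟨z.1, z.2, z1, rate_of_urate hq q0 ?_ (low _ _ z1)⟩
  have u1 : URate (fun n => 4 * ((E n * G n - F n ^ 2) / (E n + G n))) μ :=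
    (hq.const_mul q0 (by norm_num)).urate
  have u2 : URate (fun n => S n * S n * (2 * (E n + G n))) μ := by
    have := (atail.mul atail S0).mul (hT.const_mul T0 two_pos).urate
      (fun n => by have := T0 n; positivity)
    convert this using 1; ring
  refine (u1.add u2).mono fun n => ?_
  have h1 := form_split (E n) (F n) (G n) (hE n) (hD n) (c n) z (hc1 n) z1
  have h2 := hc2 n
  have h3 : ((c n).1 * z.2 - (c n).2 * z.1) ^ 2 ≤ S n ^ 2 := by
    rw [← sq_abs]; exact pow_le_pow_left₀ (abs_nonneg _) (z2 n) 2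
  have h4 := mul_le_mul_of_nonneg_right h3 (T0 n).le
  nlinarith

end OE

end Pool.Agent.MP_019006_gt
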