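import Pool.Agent.MP_019006_gt.OdeExp1

set_option autoImplicit false

open MeasureTheory Filter Topology Set Matrix

namespace Pool.Agent.MP_019006_gt

namespace OE

theorem grow {f : ℝ → ℝ} {c : ℝ}
    (h : ∀ t, ∃ f', HasDerivAt f f' t ∧ (0 ≤ t → c * f t ≤ f')) {s t : ℝ} (hs : 0 ≤ s)
    (hst : s ≤ t) : Real.exp (c * (t - s)) * f s ≤ f t := by
  choose f' hf hc using h
  have hg : ∀ t, HasDerivAt (fun t => Real.exp (-c * t) * f t)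
      (Real.exp (-c * t) * (f' t - c * f t)) t := by
    intro t
    have h1 : HasDerivAt (fun t => Real.exp (-c * t)) (Real.exp (-c * t) * (-c)) t := by
      simpa using ((hasDerivAt_id t).const_mul (-c)).exp
    have h2 := h1.mul (hf t)
    have e : Real.exp (-c * t) * (f' t - c * f t) =
        Real.exp (-c * t) * -c * f t + Real.exp (-c * t) * f' t := by ring
    rw [e]; exact h2
  have hm : MonotoneOn (fun t => Real.exp (-c * t) * f t) (Ici 0) := by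
    refine monotoneOn_of_deriv_nonneg (convex_Ici 0) ?_ ?_ ?_
    · exact fun t _ => (hg t).continuousAt.continuousWithinAt
    · exact fun t _ => (hg t).differentiableAt.differentiableWithinAt
    · intro t ht
      rw [interior_Ici] at ht
      rw [(hg t).deriv]
      exact mul_nonneg (Real.exp_pos _).le (sub_nonneg.mpr (hc t (le_of_lt ht)))
  have h1 := hm (mem_Ici.mpr hs) (mem_Ici.mpr (hs.trans hst)) hst
  simp only at h1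
  have h2 := mul_le_mul_of_nonneg_left h1 (Real.exp_pos (c * t)).le
  rw [← mul_assoc, ← mul_assoc, ← Real.exp_add, ← Real.exp_add] at h2
  have e1 : c * t + -c * s = c * (t - s) := by ring
  have e2 : c * t + -c * t = 0 := by ring
  rw [e1, e2, Real.exp_zero, one_mul] at h2
  exact h2

variable {K Om Y H : ℝ → M3}

theorem deriv_vec (hJ : JacSys K Om Y H) (u : Fin 3 → ℝ) (t : ℝ) (i : Fin 3) :
    HasDerivAt (fun s => (Y s *ᵥ u) i) (((H t - Om t * Y t) *ᵥ u) i) t := by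
  simp only [Matrix.mulVec, dotProduct]
  exact HasDerivAt.fun_sum fun j _ => (hJ.dY t i j).mul_const (u j)

theorem deriv_comp (hJ : JacSys K Om Y H) (hC : Cone K Om Y H) (u : Fin 3 → ℝ) (t : ℝ) :
    ∃ d0 d1 d2 a b w : ℝ, (0 ≤ t → d0 ^ 2 + d1 ^ 2 + d2 ^ 2 ≤
        1 / 100 * ((Y t *ᵥ u) 0 ^ 2 + (Y t *ᵥ u) 1 ^ 2 + (Y t *ᵥ u) 2 ^ 2)) ∧
      |a| ≤ 1 / 100 ∧ |b| ≤ 1 / 100 ∧
      HasDerivAt (fun s => (Y s *ᵥ u) 0)
        (2 * (Y t *ᵥ u) 0 + d0 - (a * (Y t *ᵥ u) 1 + b * (Y t *ᵥ u) 2)) t ∧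
      HasDerivAt (fun s => (Y s *ᵥ u) 1)
        ((Y t *ᵥ u) 1 + d1 - (-a * (Y t *ᵥ u) 0 + w * (Y t *ᵥ u) 2)) t ∧
      HasDerivAt (fun s => (Y s *ᵥ u) 2)
        ((Y t *ᵥ u) 2 + d2 - (-b * (Y t *ᵥ u) 0 - w * (Y t *ᵥ u) 1)) t := by
  have hO : ∀ i j, Om t j i = -Om t i j := fun i j => by
    have := congrFun (congrFun (hJ.Oa t) i) j
    simpa using this
  have o00 : Om t 0 0 = 0 := by have := hO 0 0; linarith
  have o11 : Om t 1 1 = 0 := by have := hO 1 1; linarith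
  have o22 : Om t 2 2 = 0 := by have := hO 2 2; linarith
  have key : (H t - Om t * Y t) *ᵥ u =
      U0 *ᵥ (Y t *ᵥ u) + (H t - U0 * Y t) *ᵥ u - Om t *ᵥ (Y t *ᵥ u) := by
    simp only [Matrix.sub_mulVec, Matrix.mulVec_mulVec]; abel
  have hv : ∀ (y : Fin 3 → ℝ) (i : Fin 3),
      (Om t *ᵥ y) i = Om t i 0 * y 0 + Om t i 1 * y 1 + Om t i 2 * y 2 := by
    intro y i; simp [Matrix.mulVec, dotProduct, Fin.sum_univ_three]
  refine ⟨((H t - U0 * Y t) *ᵥ u) 0, ((H t - U0 * Y t) *ᵥ u) 1, ((H t - U0 * Y t) *ᵥ u) 2,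
    Om t 0 1, Om t 0 2, Om t 1 2, fun ht => hC.cone t ht u, hC.Om0 t 1, hC.Om0 t 2, ?_, ?_, ?_⟩
  · convert deriv_vec hJ u t 0 using 1
    rw [key, Pi.sub_apply, Pi.add_apply, hv, o00]
    simp [U0, Matrix.mulVec_diagonal]
  · convert deriv_vec hJ u t 1 using 1
    rw [key, Pi.sub_apply, Pi.add_apply, hv, o11, hO 0 1]
    simp [U0, Matrix.mulVec_diagonal]
  · convert deriv_vec hJ u t 2 using 1
    rw [key, Pi.sub_apply, Pi.add_apply, hv, o22, hO 0 2, hO 1 2]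
    simp [U0, Matrix.mulVec_diagonal]
    ring

theorem cs3 (y0 y1 y2 d0 d1 d2 : ℝ)
    (h : d0 ^ 2 + d1 ^ 2 + d2 ^ 2 ≤ 1 / 100 * (y0 ^ 2 + y1 ^ 2 + y2 ^ 2)) :
    |2 * (y0 * d0 + y1 * d1 + y2 * d2)| ≤ 1 / 5 * (y0 ^ 2 + y1 ^ 2 + y2 ^ 2) := by
  rw [abs_le]
  constructor
  · nlinarith [sq_nonneg (y0 + 10 * d0), sq_nonneg (y1 + 10 * d1), sq_nonneg (y2 + 10 * d2)]
  · nlinarith [sq_nonneg (y0 - 10 * d0), sq_nonneg (y1 - 10 * d1), sq_nonneg (y2 - 10 * d2)]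

theorem growth (hJ : JacSys K Om Y H) (hC : Cone K Om Y H) {s t : ℝ} (hs : 0 ≤ s) (hst : s ≤ t)
    (u : Fin 3 → ℝ) : Real.exp (9 / 5 * (t - s)) * nsq (Y s *ᵥ u) ≤ nsq (Y t *ᵥ u) ∧
      nsq (Y t *ᵥ u) ≤ Real.exp (21 / 5 * (t - s)) * nsq (Y s *ᵥ u) := by
  constructor
  · refine grow (f := fun t => nsq (Y t *ᵥ u)) (fun t => ?_) hs hst
    obtain ⟨d0, d1, d2, a, b, w, hd, -, -, h0, h1, h2⟩ := deriv_comp hJ hC u t
    refine ⟨_, ((h0.pow 2).add (h1.pow 2)).add (h2.pow 2), fun ht => ?_⟩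
    have := (abs_le.mp (cs3 _ _ _ _ _ _ (hd ht))).1
    simp only [nsq]
    norm_num
    nlinarith [sq_nonneg ((Y t *ᵥ u) 0)]
  · have := grow (f := fun t => -nsq (Y t *ᵥ u)) (c := 21 / 5) (fun t => ?_) hs hst
    · linarith
    obtain ⟨d0, d1, d2, a, b, w, hd, -, -, h0, h1, h2⟩ := deriv_comp hJ hC u t
    refine ⟨_, (((h0.pow 2).add (h1.pow 2)).add (h2.pow 2)).neg, fun ht => ?_⟩
    have := (abs_le.mp (cs3 _ _ _ _ _ _ (hd ht))).2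
    simp only [nsq]
    norm_num
    nlinarith [sq_nonneg ((Y t *ᵥ u) 1), sq_nonneg ((Y t *ᵥ u) 2)]

/-- The cone form. -/
def Qk (k : ℝ) (y : Fin 3 → ℝ) : ℝ := k * y 0 ^ 2 - y 1 ^ 2 - y 2 ^ 2

theorem om_bd (a x y : ℝ) (ha : |a| ≤ 1 / 100) : 2 * (a * x * y) ≤ 1 / 100 * (x ^ 2 + y ^ 2) := by
  obtain ⟨h1, h2⟩ := abs_le.mp ha
  nlinarith [mul_nonneg (sub_nonneg.mpr h2) (sq_nonneg (x + y)),
    mul_nonneg (sub_nonneg.mpr h1) (sq_nonneg (x - y))]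

theorem cone_mono (hJ : JacSys K Om Y H) (hC : Cone K Om Y H) {k : ℝ} (hk : k = 1 ∨ k = 1 / 4)
    {s t : ℝ} (hs : 0 ≤ s) (hst : s ≤ t) (u : Fin 3 → ℝ) :
    Real.exp (3 * (t - s)) * Qk k (Y s *ᵥ u) ≤ Qk k (Y t *ᵥ u) := by
  refine grow (f := fun t => Qk k (Y t *ᵥ u)) (fun t => ?_) hs hst
  obtain ⟨d0, d1, d2, a, b, w, hd, ha, hb, h0, h1, h2⟩ := deriv_comp hJ hC u t
  refine ⟨_, (((h0.pow 2).const_mul k).sub (h1.pow 2)).sub (h2.pow 2), fun ht => ?_⟩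
  have e1 := om_bd a ((Y t *ᵥ u) 0) ((Y t *ᵥ u) 1) ha
  have e2 := om_bd b ((Y t *ᵥ u) 0) ((Y t *ᵥ u) 2) hb
  have hd' := hd ht
  simp only [Qk]
  norm_num
  generalize (Y t *ᵥ u) 0 = y0 at *
  generalize (Y t *ᵥ u) 1 = y1 at *
  generalize (Y t *ᵥ u) 2 = y2 at *
  rcases hk with rfl | rfl
  · nlinarith [sq_nonneg (y0 + 10 * d0), sq_nonneg (y1 - 10 * d1), sq_nonneg (y2 - 10 * d2),
      sq_nonneg y0, sq_nonneg y1, sq_nonneg y2]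
  · nlinarith [sq_nonneg (y0 + 20 * d0), sq_nonneg (y1 - 5 * d1), sq_nonneg (y2 - 5 * d2),
      sq_nonneg y0, sq_nonneg y1, sq_nonneg y2]

theorem cone_nonneg (hJ : JacSys K Om Y H) (hC : Cone K Om Y H) {k : ℝ}
    (hk : k = 1 ∨ k = 1 / 4) {t : ℝ} (ht : 0 ≤ t) (u : Fin 3 → ℝ) (hu : 0 ≤ Qk k u) :
    0 ≤ Qk k (Y t *ᵥ u) := by
  have := cone_mono hJ hC hk le_rfl ht u
  rw [hJ.Y0, Matrix.one_mulVec] at this
  exact (mul_nonneg (Real.exp_pos _).le hu).trans this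

theorem cone_pos (hJ : JacSys K Om Y H) (hC : Cone K Om Y H) {k : ℝ}
    (hk : k = 1 ∨ k = 1 / 4) {s t : ℝ} (hs : 0 ≤ s) (hst : s ≤ t) (u : Fin 3 → ℝ)
    (hu : 0 < Qk k (Y s *ᵥ u)) : 0 < Qk k (Y t *ᵥ u) :=
  (mul_pos (Real.exp_pos _) hu).trans_le (cone_mono hJ hC hk hs hst u)

theorem mv (A : M3) (u : Fin 3 → ℝ) (i : Fin 3) :
    (A *ᵥ u) i = A i 0 * u 0 + A i 1 * u 1 + A i 2 * u 2 := by
  simp [Matrix.mulVec, dotProduct, Fin.sum_univ_three]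

theorem f_cone (hJ : JacSys K Om Y H) (hC : Cone K Om Y H) {t : ℝ} (ht : 0 ≤ t) :
    Y t 1 0 ^ 2 + Y t 2 0 ^ 2 < 1 / 4 * Y t 0 0 ^ 2 := by
  have := cone_pos hJ hC (Or.inr rfl) le_rfl ht ![1, 0, 0]
    (by rw [hJ.Y0, Matrix.one_mulVec]; simp [Qk])
  simp only [Qk, mv] at this
  simp at this
  linarith

theorem f_ne (hJ : JacSys K Om Y H) (hC : Cone K Om Y H) {t : ℝ} (ht : 0 ≤ t) :
    Y t 0 0 ≠ 0 := by
  intro h
  have := f_cone hJ hC ht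
  rw [h] at this
  nlinarith [sq_nonneg (Y t 1 0), sq_nonneg (Y t 2 0)]

theorem col_bd (f0 f1 f2 p0 p1 p2 : ℝ)
    (h : ∀ θ : ℝ, θ ^ 2 < 1 → 0 < (f0 + θ * p0) ^ 2 - (f1 + θ * p1) ^ 2 - (f2 + θ * p2) ^ 2) :
    p0 ^ 2 + p1 ^ 2 + p2 ^ 2 ≤ 6 * f0 ^ 2 := by
  have h1 : p0 ^ 2 ≤ f0 ^ 2 := by
    by_contra hh
    push Not at hh
    have hp : p0 ≠ 0 := by
      rintro rfl
      nlinarith [sq_nonneg f0]
    have hp2 : 0 < p0 ^ 2 := by positivity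
    have := h (-f0 / p0) (by rw [div_pow, div_lt_one hp2]; linarith)
    have e : f0 + -f0 / p0 * p0 = 0 := by field_simp; ring
    rw [e] at this
    nlinarith [sq_nonneg (f1 + -f0 / p0 * p1), sq_nonneg (f2 + -f0 / p0 * p2)]
  have h2 := h (1 / 2) (by norm_num)
  have h3 := h (-1 / 2) (by norm_num)
  nlinarith [sq_nonneg f1, sq_nonneg f2]

theorem col1 (hJ : JacSys K Om Y H) (hC : Cone K Om Y H) {t : ℝ} (ht : 0 ≤ t) :
    Y t 0 1 ^ 2 + Y t 1 1 ^ 2 + Y t 2 1 ^ 2 ≤ 6 * Y t 0 0 ^ 2 := by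
  refine col_bd _ (Y t 1 0) (Y t 2 0) _ _ _ fun θ hθ => ?_
  have := cone_pos hJ hC (Or.inl rfl) le_rfl ht ![1, θ, 0]
    (by rw [hJ.Y0, Matrix.one_mulVec]; simp [Qk]; exact (sq_lt_one_iff_abs_lt_one θ).mp hθ)
  simp only [Qk, mv] at this
  simp at this
  nlinarith

theorem col2 (hJ : JacSys K Om Y H) (hC : Cone K Om Y H) {t : ℝ} (ht : 0 ≤ t) :
    Y t 0 2 ^ 2 + Y t 1 2 ^ 2 + Y t 2 2 ^ 2 ≤ 6 * Y t 0 0 ^ 2 := by
  refine col_bd _ (Y t 1 0) (Y t 2 0) _ _ _ fun θ hθ => ?_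
  have := cone_pos hJ hC (Or.inl rfl) le_rfl ht ![1, 0, θ]
    (by rw [hJ.Y0, Matrix.one_mulVec]; simp [Qk]; exact (sq_lt_one_iff_abs_lt_one θ).mp hθ)
  simp only [Qk, mv] at this
  simp at this
  nlinarith

/-- The slow plane. -/
theorem slow_plane (hJ : JacSys K Om Y H) (hC : Cone K Om Y H) :
    ∃ α β : ℝ, α ^ 2 ≤ 1 ∧ β ^ 2 ≤ 1 ∧ ∀ t, 0 ≤ t → ∀ x y : ℝ,
      Qk 1 (Y t *ᵥ ![-(α * x + β * y), x, y]) ≤ 0 := by
  set c : ℕ → ℝ × ℝ := fun n => (Y n 0 1 / Y n 0 0, Y n 0 2 / Y n 0 0) with hc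
  have key : ∀ n : ℕ, ∀ t : ℝ, 0 ≤ t → t ≤ n → ∀ x y : ℝ,
      Qk 1 (Y t *ᵥ ![-((c n).1 * x + (c n).2 * y), x, y]) ≤ 0 := by
    intro n t ht htn x y
    by_contra h
    push Not at h
    have h1 := cone_pos hJ hC (Or.inl rfl) ht htn _ h
    have h2 : (Y n *ᵥ ![-((c n).1 * x + (c n).2 * y), x, y]) 0 = 0 := by
      have := f_ne hJ hC (Nat.cast_nonneg (α := ℝ) n)
      rw [mv, hc]; simp; field_simp; ring
    unfold Qk at h1
    rw [h2] at h1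
    nlinarith [sq_nonneg ((Y n *ᵥ ![-((c n).1 * x + (c n).2 * y), x, y]) 1),
      sq_nonneg ((Y n *ᵥ ![-((c n).1 * x + (c n).2 * y), x, y]) 2)]
  have b1 : ∀ n, (c n).1 ^ 2 ≤ 1 := by
    intro n
    have := key n 0 le_rfl (Nat.cast_nonneg n) 1 0
    rw [hJ.Y0, Matrix.one_mulVec] at this
    simp [Qk] at this
    nlinarith [abs_le.mp this]
  have b2 : ∀ n, (c n).2 ^ 2 ≤ 1 := by
    intro n
    have := key n 0 le_rfl (Nat.cast_nonneg n) 0 1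
    rw [hJ.Y0, Matrix.one_mulVec] at this
    simp [Qk] at this
    nlinarith [abs_le.mp this]
  have hcomp : IsCompact (Icc (-1 : ℝ) 1 ×ˢ Icc (-1 : ℝ) 1) := isCompact_Icc.prod isCompact_Icc
  obtain ⟨z, hz0, φ, hφ, hz⟩ := hcomp.tendsto_subseq (x := c) (fun n => by
    have h1 := b1 n
    have h2 := b2 n
    refine ⟨⟨?_, ?_⟩, ⟨?_, ?_⟩⟩ <;> nlinarith [sq_nonneg (c n).1, sq_nonneg (c n).2])
  refine ⟨z.1, z.2, by nlinarith [hz0.1.1, hz0.1.2], by nlinarith [hz0.2.1, hz0.2.2],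
    fun t ht x y => ?_⟩
  have hcont : Continuous fun w : ℝ × ℝ => Qk 1 (Y t *ᵥ ![-(w.1 * x + w.2 * y), x, y]) := by
    simp only [Qk, mv]
    simp
    fun_prop
  refine le_of_tendsto ((hcont.tendsto z).comp hz) ?_
  filter_upwards [eventually_ge_atTop ⌈t⌉₊] with m hm
  refine key (φ m) t ht ?_ x y
  exact (Nat.le_ceil t).trans (by exact_mod_cast hm.trans (hφ.id_le m))

end OE

end Pool.Agent.MP_019006_gt
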