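import Pool.Agent.MP_019006_gt.Basic3
import Pool.Agent.MP_019006_gt.OdeExp

set_option autoImplicit false

open MeasureTheory Filter Topology Set Matrix

namespace Pool.Agent.MP_019006_gt

namespace OT

open OE

theorem grow {f : ℝ → ℝ} {c : ℝ} (h : ∀ t, ∃ f', HasDerivAt f f' t ∧ c * f t ≤ f') {s t : ℝ}
    (hst : s ≤ t) : Real.exp (c * (t - s)) * f s ≤ f t := by
  have := OE.grow (f := fun r => f (s + r)) (c := c) (fun r => by
    obtain ⟨f', h1, h2⟩ := h (s + r)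
    exact ⟨f', h1.comp_const_add s r, fun _ => h2⟩) le_rfl (sub_nonneg.mpr hst)
  simpa using this

variable {K Om Y H : ℝ → M3}

theorem deriv_vec (h : TwoSys K Om Y H) (u : Fin 3 → ℝ) (t : ℝ) (i : Fin 3) :
    HasDerivAt (fun s => (Y s *ᵥ u) i) (((H t - Om t * Y t) *ᵥ u) i) t := by
  simp only [Matrix.mulVec, dotProduct]
  exact HasDerivAt.fun_sum fun j _ => (h.dY t i j).mul_const (u j)

theorem deriv_comp (h : TwoSys K Om Y H) (u : Fin 3 → ℝ) (t : ℝ) :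
    ∃ d0 d1 d2 a b w : ℝ, (d0 ^ 2 + d1 ^ 2 + d2 ^ 2 ≤
        1 / 100 * ((Y t *ᵥ u) 0 ^ 2 + (Y t *ᵥ u) 1 ^ 2 + (Y t *ᵥ u) 2 ^ 2)) ∧
      |a| ≤ 1 / 100 ∧ |b| ≤ 1 / 100 ∧
      HasDerivAt (fun s => (Y s *ᵥ u) 0)
        (2 * (Y t *ᵥ u) 0 + d0 - (a * (Y t *ᵥ u) 1 + b * (Y t *ᵥ u) 2)) t ∧
      HasDerivAt (fun s => (Y s *ᵥ u) 1)
        ((Y t *ᵥ u) 1 + d1 - (-a * (Y t *ᵥ u) 0 + w * (Y t *ᵥ u) 2)) t ∧
      HasDerivAt (fun s => (Y s *ᵥ u) 2)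
        ((Y t *ᵥ u) 2 + d2 - (-b * (Y t *ᵥ u) 0 - w * (Y t *ᵥ u) 1)) t := by
  have hO : ∀ i j, Om t j i = -Om t i j := fun i j => by
    have := congrFun (congrFun (h.Oa t) i) j
    simpa using this
  have o00 : Om t 0 0 = 0 := by have := hO 0 0; linarith
  have o11 : Om t 1 1 = 0 := by have := hO 1 1; linarith
  have o22 : Om t 2 2 = 0 := by have := hO 2 2; linarith
  have key : (H t - Om t * Y t) *ᵥ u =
      U0 *ᵥ (Y t *ᵥ u) + (H t - U0 * Y t) *ᵥ u - Om t *ᵥ (Y t *ᵥ u) := by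
    simp only [Matrix.sub_mulVec, Matrix.mulVec_mulVec]; abel
  have hv : ∀ (y : Fin 3 → ℝ) (i : Fin 3),
      (Om t *ᵥ y) i = Om t i 0 * y 0 + Om t i 1 * y 1 + Om t i 2 * y 2 := by
    intro y i; simp [Matrix.mulVec, dotProduct, Fin.sum_univ_three]
  refine ⟨((H t - U0 * Y t) *ᵥ u) 0, ((H t - U0 * Y t) *ᵥ u) 1, ((H t - U0 * Y t) *ᵥ u) 2,
    Om t 0 1, Om t 0 2, Om t 1 2, h.cone t u, h.Om0 t 1, h.Om0 t 2, ?_, ?_, ?_⟩
  · convert deriv_vec h u t 0 using 1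
    rw [key, Pi.sub_apply, Pi.add_apply, hv, o00]
    simp [U0, Matrix.mulVec_diagonal]
  · convert deriv_vec h u t 1 using 1
    rw [key, Pi.sub_apply, Pi.add_apply, hv, o11, hO 0 1]
    simp [U0, Matrix.mulVec_diagonal]
  · convert deriv_vec h u t 2 using 1
    rw [key, Pi.sub_apply, Pi.add_apply, hv, o22, hO 0 2, hO 1 2]
    simp [U0, Matrix.mulVec_diagonal]
    ring

end OT

open OE OT in
theorem two_growth {K Om Y H : ℝ → M3} (h : TwoSys K Om Y H) (s t : ℝ) (hst : s ≤ t)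
    (u : Fin 3 → ℝ) : Real.exp (9 / 5 * (t - s)) * nsq (Y s *ᵥ u) ≤ nsq (Y t *ᵥ u) ∧
      nsq (Y t *ᵥ u) ≤ Real.exp (21 / 5 * (t - s)) * nsq (Y s *ᵥ u) := by
  constructor
  · refine OT.grow (f := fun t => nsq (Y t *ᵥ u)) (fun t => ?_) hst
    obtain ⟨d0, d1, d2, a, b, w, hd, -, -, h0, h1, h2⟩ := OT.deriv_comp h u t
    refine ⟨_, ((h0.pow 2).add (h1.pow 2)).add (h2.pow 2), ?_⟩
    have := (abs_le.mp (cs3 _ _ _ _ _ _ hd)).1
    simp only [nsq]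
    norm_num
    nlinarith [sq_nonneg ((Y t *ᵥ u) 0)]
  · have := OT.grow (f := fun t => -nsq (Y t *ᵥ u)) (c := 21 / 5) (fun t => ?_) hst
    · linarith
    obtain ⟨d0, d1, d2, a, b, w, hd, -, -, h0, h1, h2⟩ := OT.deriv_comp h u t
    refine ⟨_, (((h0.pow 2).add (h1.pow 2)).add (h2.pow 2)).neg, ?_⟩
    have := (abs_le.mp (cs3 _ _ _ _ _ _ hd)).2
    simp only [nsq]
    norm_num
    nlinarith [sq_nonneg ((Y t *ᵥ u) 1), sq_nonneg ((Y t *ᵥ u) 2)]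

namespace OT

open OE

variable {K Om Y H : ℝ → M3}

theorem cone_mono (h : TwoSys K Om Y H) {k : ℝ} (hk : k = 1 ∨ k = 1 / 5)
    {s t : ℝ} (hst : s ≤ t) (u : Fin 3 → ℝ) :
    Real.exp (3 * (t - s)) * Qk k (Y s *ᵥ u) ≤ Qk k (Y t *ᵥ u) := by
  refine OT.grow (f := fun t => Qk k (Y t *ᵥ u)) (fun t => ?_) hst
  obtain ⟨d0, d1, d2, a, b, w, hd, ha, hb, h0, h1, h2⟩ := OT.deriv_comp h u t
  refine ⟨_, (((h0.pow 2).const_mul k).sub (h1.pow 2)).sub (h2.pow 2), ?_⟩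
  have e1 := om_bd a ((Y t *ᵥ u) 0) ((Y t *ᵥ u) 1) ha
  have e2 := om_bd b ((Y t *ᵥ u) 0) ((Y t *ᵥ u) 2) hb
  simp only [Qk]
  norm_num
  generalize (Y t *ᵥ u) 0 = y0 at *
  generalize (Y t *ᵥ u) 1 = y1 at *
  generalize (Y t *ᵥ u) 2 = y2 at *
  rcases hk with rfl | rfl
  · nlinarith [sq_nonneg (y0 + 10 * d0), sq_nonneg (y1 - 10 * d1), sq_nonneg (y2 - 10 * d2),
      sq_nonneg y0, sq_nonneg y1, sq_nonneg y2]
  · nlinarith [sq_nonneg (y0 + 25 * d0), sq_nonneg (y1 - 5 * d1), sq_nonneg (y2 - 5 * d2),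
      sq_nonneg y0, sq_nonneg y1, sq_nonneg y2]

theorem cone_pos (h : TwoSys K Om Y H) {k : ℝ} (hk : k = 1 ∨ k = 1 / 5) {s t : ℝ} (hst : s ≤ t)
    (u : Fin 3 → ℝ) (hu : 0 < Qk k (Y s *ᵥ u)) : 0 < Qk k (Y t *ᵥ u) :=
  (mul_pos (Real.exp_pos _) hu).trans_le (cone_mono h hk hst u)

theorem unit (h : TwoSys K Om Y H) (t : ℝ) : IsUnit (Y t).det :=
  isUnit_iff_ne_zero.mpr (h.det_pos t).ne'

theorem mul_inv_vec (h : TwoSys K Om Y H) (t : ℝ) (v : Fin 3 → ℝ) :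
    Y t *ᵥ ((Y t)⁻¹ *ᵥ v) = v := by
  rw [Matrix.mulVec_mulVec, Matrix.mul_nonsing_inv _ (unit h t), Matrix.one_mulVec]

theorem inv_mul_vec (h : TwoSys K Om Y H) (t : ℝ) (v : Fin 3 → ℝ) :
    (Y t)⁻¹ *ᵥ (Y t *ᵥ v) = v := by
  rw [Matrix.mulVec_mulVec, Matrix.nonsing_inv_mul _ (unit h t), Matrix.one_mulVec]

theorem Y0_vec (h : TwoSys K Om Y H) (v : Fin 3 → ℝ) : Y 0 *ᵥ v = v := by
  rw [h.Y0, Matrix.one_mulVec]

theorem inv_det_pos (h : TwoSys K Om Y H) (t : ℝ) : 0 < ((Y t)⁻¹).det := by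
  rw [Matrix.det_nonsing_inv, Ring.inverse_eq_inv']
  exact inv_pos.2 (h.det_pos t)

theorem fro_pos (h : TwoSys K Om Y H) (t : ℝ) : 0 < fro (Y t) :=
  OdeMul.fro_pos (h.det_pos t).ne'

theorem fro_inv_pos (h : TwoSys K Om Y H) (t : ℝ) : 0 < fro (Y t)⁻¹ :=
  OdeMul.fro_pos (inv_det_pos h t).ne'

theorem both (h : TwoSys K Om Y H) (t : ℝ) (u : Fin 3 → ℝ) :
    Real.exp (-(5 * |t|)) * nsq u ≤ nsq (Y t *ᵥ u) ∧
      nsq (Y t *ᵥ u) ≤ Real.exp (5 * |t|) * nsq u := by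
  have u0 := nsq_nonneg u
  have v0 := nsq_nonneg (Y t *ᵥ u)
  rcases le_total 0 t with ht | ht
  · have g := two_growth h 0 t ht u
    rw [Y0_vec h, sub_zero] at g
    rw [abs_of_nonneg ht]
    constructor
    · refine le_trans (mul_le_mul_of_nonneg_right (Real.exp_le_exp.mpr ?_) u0) g.1
      linarith
    · refine g.2.trans (mul_le_mul_of_nonneg_right (Real.exp_le_exp.mpr ?_) u0)
      linarith
  · have g := two_growth h t 0 ht u
    rw [Y0_vec h, zero_sub] at g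
    rw [abs_of_nonpos ht]
    constructor
    · rw [Real.exp_neg, inv_mul_le_iff₀ (Real.exp_pos _)]
      refine g.2.trans (mul_le_mul_of_nonneg_right (Real.exp_le_exp.mpr ?_) v0)
      linarith
    · have a1 : 1 ≤ Real.exp (9 / 5 * -t) := Real.one_le_exp (by linarith)
      have a2 : 1 ≤ Real.exp (5 * -t) := Real.one_le_exp (by linarith)
      nlinarith [g.1]

theorem both_inv (h : TwoSys K Om Y H) (t : ℝ) (u : Fin 3 → ℝ) :
    Real.exp (-(5 * |t|)) * nsq u ≤ nsq ((Y t)⁻¹ *ᵥ u) ∧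
      nsq ((Y t)⁻¹ *ᵥ u) ≤ Real.exp (5 * |t|) * nsq u := by
  have g := both h t ((Y t)⁻¹ *ᵥ u)
  rw [mul_inv_vec h] at g
  rw [Real.exp_neg, inv_mul_le_iff₀ (Real.exp_pos _)] at g ⊢
  exact ⟨g.2, g.1⟩

theorem H_le (h : TwoSys K Om Y H) (t : ℝ) (u : Fin 3 → ℝ) :
    nsq (H t *ᵥ u) ≤ 9 * nsq (Y t *ᵥ u) := by
  have h := h.cone t u
  rw [Matrix.sub_mulVec, ← Matrix.mulVec_mulVec] at h
  simp only [nsq, Pi.sub_apply, U0, Matrix.mulVec_diagonal] at h ⊢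
  simp at h
  nlinarith [sq_nonneg ((H t *ᵥ u) 0 - 4 * (Y t *ᵥ u) 0), sq_nonneg ((H t *ᵥ u) 1 - 2 * (Y t *ᵥ u) 1),
    sq_nonneg ((H t *ᵥ u) 2 - 2 * (Y t *ᵥ u) 2), sq_nonneg ((Y t *ᵥ u) 0),
    sq_nonneg ((Y t *ᵥ u) 1), sq_nonneg ((Y t *ᵥ u) 2)]

theorem nsq_mono (h : TwoSys K Om Y H) {s t : ℝ} (hst : s ≤ t) (u : Fin 3 → ℝ) :
    nsq (Y s *ᵥ u) ≤ nsq (Y t *ᵥ u) := by
  refine le_trans ?_ (two_growth h s t hst u).1
  refine le_mul_of_one_le_left (nsq_nonneg _) (Real.one_le_exp ?_)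
  nlinarith

theorem nsq_Y_pos (h : TwoSys K Om Y H) (t : ℝ) {u : Fin 3 → ℝ} (hu : 0 < nsq u) :
    0 < nsq (Y t *ᵥ u) :=
  (mul_pos (Real.exp_pos _) hu).trans_le (both h t u).1

theorem interp {s C l : ℝ} (hs : 0 < s) (a : ℕ → ℝ) (g : ℝ → ℝ)
    (hg : ∀ t, 0 < t → |g t - a ⌊t / s⌋₊| ≤ C)
    (ha : Tendsto (fun n : ℕ => a n / n) atTop (𝓝 l)) :
    Tendsto (fun t : ℝ => g t / t) atTop (𝓝 (l / s)) := by
  have hts : Tendsto (fun t : ℝ => t / s) atTop atTop := tendsto_id.atTop_div_const hs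
  have hn : Tendsto (fun t : ℝ => ⌊t / s⌋₊) atTop atTop := tendsto_nat_floor_atTop.comp hts
  have h1 : Tendsto (fun t : ℝ => a ⌊t / s⌋₊ / (⌊t / s⌋₊ : ℝ)) atTop (𝓝 l) := ha.comp hn
  have h2 : Tendsto (fun t : ℝ => (⌊t / s⌋₊ : ℝ) / (t / s)) atTop (𝓝 1) :=
    tendsto_nat_floor_div_atTop.comp hts
  have h3 : Tendsto (fun t : ℝ => a ⌊t / s⌋₊ / t) atTop (𝓝 (l / s)) := by
    have := (h1.mul h2).div_const s
    rw [mul_one] at this
    refine this.congr' ?_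
    filter_upwards [hn.eventually (eventually_gt_atTop 0), eventually_gt_atTop 0] with t ht ht0
    have : (0 : ℝ) < ⌊t / s⌋₊ := by exact_mod_cast ht
    field_simp
  have h0 : Tendsto (fun t : ℝ => C / t) atTop (𝓝 0) := tendsto_const_nhds.div_atTop tendsto_id
  have h4 := h3.add h0
  have h5 := h3.sub h0
  rw [add_zero] at h4
  rw [sub_zero] at h5
  refine tendsto_of_tendsto_of_tendsto_of_le_of_le' h5 h4 ?_ ?_
  · filter_upwards [eventually_gt_atTop 0] with t ht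
    rw [← sub_div]
    refine div_le_div_of_nonneg_right ?_ ht.le
    linarith [(abs_le.mp (hg t ht)).1]
  · filter_upwards [eventually_gt_atTop 0] with t ht
    rw [← add_div]
    refine div_le_div_of_nonneg_right ?_ ht.le
    linarith [(abs_le.mp (hg t ht)).2]

theorem log_near (h : TwoSys K Om Y H) {s : ℝ} {u : Fin 3 → ℝ} (hu : 0 < nsq u) (t r : ℝ)
    (htr : |t - r| ≤ s) :
    |Real.log (Real.sqrt (nsq (Y t *ᵥ u) + nsq (H t *ᵥ u))) - Real.log (nsq (Y r *ᵥ u)) / 2| ≤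
      (Real.log 10 + 21 / 5 * s) / 2 := by
  have pt := nsq_Y_pos h t hu
  have pr := nsq_Y_pos h r hu
  have hH := H_le h t u
  have H0 := nsq_nonneg (H t *ᵥ u)
  have s0 : 0 ≤ s := (abs_nonneg _).trans htr
  have e1 : 1 ≤ Real.exp (21 / 5 * s) := Real.one_le_exp (by linarith)
  have k : nsq (Y t *ᵥ u) ≤ Real.exp (21 / 5 * s) * nsq (Y r *ᵥ u) ∧
      nsq (Y r *ᵥ u) ≤ Real.exp (21 / 5 * s) * nsq (Y t *ᵥ u) := by
    obtain ⟨b1, b2⟩ := abs_le.mp htr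
    rcases le_total t r with hh | hh
    · refine ⟨(nsq_mono h hh u).trans (le_mul_of_one_le_left pr.le e1), ?_⟩
      refine (two_growth h t r hh u).2.trans
        (mul_le_mul_of_nonneg_right (Real.exp_le_exp.mpr ?_) pt.le)
      linarith
    · refine ⟨?_, (nsq_mono h hh u).trans (le_mul_of_one_le_left pt.le e1)⟩
      refine (two_growth h r t hh u).2.trans
        (mul_le_mul_of_nonneg_right (Real.exp_le_exp.mpr ?_) pr.le)
      linarith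
  have l1 := Real.log_le_log pt k.1
  have l2 := Real.log_le_log pr k.2
  rw [Real.log_mul (Real.exp_pos _).ne' pr.ne', Real.log_exp] at l1
  rw [Real.log_mul (Real.exp_pos _).ne' pt.ne', Real.log_exp] at l2
  have l3 : Real.log (nsq (Y t *ᵥ u)) ≤ Real.log (nsq (Y t *ᵥ u) + nsq (H t *ᵥ u)) :=
    Real.log_le_log pt (by linarith)
  have l4 : Real.log (nsq (Y t *ᵥ u) + nsq (H t *ᵥ u)) ≤ Real.log (10 * nsq (Y t *ᵥ u)) :=
    Real.log_le_log (by linarith) (by linarith)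
  rw [Real.log_mul (by norm_num) pt.ne'] at l4
  have l5 : 0 ≤ Real.log 10 := Real.log_nonneg (by norm_num)
  rw [Real.log_sqrt (by linarith), abs_le]
  constructor <;> linarith

theorem floor_near {s : ℝ} (hs : 0 < s) {t : ℝ} (ht : 0 < t) : |t - (⌊t / s⌋₊ : ℝ) * s| ≤ s := by
  have a1 : (⌊t / s⌋₊ : ℝ) ≤ t / s := Nat.floor_le (by positivity)
  have a2 : t / s < (⌊t / s⌋₊ : ℝ) + 1 := Nat.lt_floor_add_one _
  rw [le_div_iff₀ hs] at a1
  rw [div_lt_iff₀ hs] at a2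
  rw [abs_le]
  constructor <;> linarith

theorem to_top (h : TwoSys K Om Y H) {s : ℝ} (hs : 0 < s) {u : Fin 3 → ℝ} (hu : 0 < nsq u)
    {l : ℝ} (hr : Rate (fun n : ℕ => nsq (Y (n * s) *ᵥ u)) (2 * l)) :
    Tendsto (rate (fun t => Y t *ᵥ u) (fun t => H t *ᵥ u)) atTop (𝓝 (l / s)) := by
  refine interp hs (fun n => Real.log (nsq (Y (n * s) *ᵥ u)) / 2) _
    (fun t ht => log_near h hu t _ (floor_near hs ht)) ?_
  have := Tendsto.div_const hr 2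
  rw [show 2 * l / 2 = l by ring] at this
  refine this.congr fun n => ?_
  ring

theorem to_bot (h : TwoSys K Om Y H) {s : ℝ} (hs : 0 < s) {u : Fin 3 → ℝ} (hu : 0 < nsq u)
    {l : ℝ} (hr : Rate (fun n : ℕ => nsq (Y (-(n * s)) *ᵥ u)) (-(2 * l))) :
    Tendsto (rate (fun t => Y t *ᵥ u) (fun t => H t *ᵥ u)) atBot (𝓝 (l / s)) := by
  have k := interp (l := -l) hs (fun n => Real.log (nsq (Y (-(n * s)) *ᵥ u)) / 2)
    (fun t => Real.log (Real.sqrt (nsq (Y (-t) *ᵥ u) + nsq (H (-t) *ᵥ u))))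
    (fun t ht => log_near h hu (-t) _ (by
      rw [← abs_neg]
      convert floor_near hs ht using 2
      ring)) (by
      have := Tendsto.div_const hr 2
      rw [show -(2 * l) / 2 = -l by ring] at this
      refine this.congr fun n => ?_
      ring)
  have k2 := (k.neg).comp tendsto_neg_atBot_atTop
  rw [show -(-l / s) = l / s by ring] at k2
  refine k2.congr fun t => ?_
  simp only [Function.comp, rate, neg_neg]
  ring

end OT

open OT OdeMul in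
theorem two_bounds {K Om Y H : ℝ → M3} (h : TwoSys K Om Y H) (t : ℝ) :
    |Real.log (fro (Y t))| ≤ 9 * (1 + |t|) ∧ |Real.log (fro (Y t)⁻¹)| ≤ 9 * (1 + |t|) ∧
      |Real.log (Y t).det| ≤ 9 * (1 + |t|) := by
  have h1 := log_fro_bound (both h t)
  have h2 := log_fro_bound (both_inv h t)
  have h3 := log_det_le (h.det_pos t) fun u => (both h t u).2
  have h4 := log_det_le (inv_det_pos h t) fun u => (both_inv h t u).2
  rw [Matrix.det_nonsing_inv, Ring.inverse_eq_inv', Real.log_inv] at h4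
  have := abs_nonneg t
  refine ⟨abs_le.2 ⟨?_, ?_⟩, abs_le.2 ⟨?_, ?_⟩, abs_le.2 ⟨?_, ?_⟩⟩ <;>
    linarith [h1.1, h1.2, h2.1, h2.2]

end Pool.Agent.MP_019006_gt
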