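import Pool.Agent.MP_019006_gt.OdeTwo1

set_option autoImplicit false

open MeasureTheory Filter Topology Set Matrix

namespace Pool.Agent.MP_019006_gt

namespace OT

open OE

theorem rate_le_ev {a b : ℕ → ℝ} {l m : ℝ} (ha : Rate a l) (hb : Rate b m)
    (h : ∀ᶠ n in atTop, 0 < a n ∧ a n ≤ b n) : l ≤ m := by
  unfold Rate at *
  refine le_of_tendsto_of_tendsto ha hb ?_
  filter_upwards [h] with n hn
  exact div_le_div_of_nonneg_right (Real.log_le_log hn.1 hn.2) (Nat.cast_nonneg n)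

theorem drift_up {f f' : ℝ → ℝ} {C T t : ℝ} (hC : 0 ≤ C) (hf : ∀ r, HasDerivAt f (f' r) r)
    (hb : ∀ r, T ≤ r → f' r ≤ C * Real.exp (-(9 / 10) * (r - T))) (ht : T ≤ t) :
    f t - f T ≤ 10 / 9 * C := by
  have hg : ∀ r, HasDerivAt (fun r => f r + 10 / 9 * C * Real.exp (-(9 / 10) * (r - T)))
      (f' r - C * Real.exp (-(9 / 10) * (r - T))) r := by
    intro r
    have h1 : HasDerivAt (fun r => Real.exp (-(9 / 10) * (r - T)))
        (Real.exp (-(9 / 10) * (r - T)) * (-(9 / 10))) r := by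
      simpa using (((hasDerivAt_id r).sub_const T).const_mul (-(9 / 10))).exp
    refine ((hf r).add (h1.const_mul (10 / 9 * C))).congr_deriv ?_
    ring
  have hm : AntitoneOn (fun r => f r + 10 / 9 * C * Real.exp (-(9 / 10) * (r - T))) (Ici T) := by
    refine antitoneOn_of_deriv_nonpos (convex_Ici T)
      (fun r _ => (hg r).continuousAt.continuousWithinAt)
      (fun r _ => (hg r).differentiableAt.differentiableWithinAt) fun r hr => ?_
    rw [(hg r).deriv]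
    have := hb r (interior_subset hr)
    linarith
  have h1 := hm (mem_Ici.mpr le_rfl) (mem_Ici.mpr ht) ht
  simp only [sub_self, mul_zero, Real.exp_zero, mul_one] at h1
  have h2 : 0 ≤ 10 / 9 * C * Real.exp (-(9 / 10) * (t - T)) := by positivity
  linarith

theorem drift {f f' : ℝ → ℝ} {c T t : ℝ} (hc : 0 ≤ c) (hf : ∀ r, HasDerivAt f (f' r) r)
    (hb : ∀ r, T ≤ r → f' r ^ 2 ≤ Real.exp (-(9 / 5) * (r - T)) * c) (ht : T ≤ t) :
    (f t - f T) ^ 2 ≤ 4 / 3 * c := by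
  have key : ∀ r, T ≤ r → |f' r| ≤ Real.sqrt c * Real.exp (-(9 / 10) * (r - T)) := by
    intro r hr
    refine abs_le_of_sq_le_sq ?_ (by positivity)
    have e : ((2 : ℕ) : ℝ) * (-(9 / 10) * (r - T)) = -(9 / 5) * (r - T) := by push_cast; ring
    rw [mul_pow, Real.sq_sqrt hc, ← Real.exp_nat_mul, mul_comm, e]
    exact hb r hr
  have h1 := drift_up (Real.sqrt_nonneg c) hf (fun r hr => (abs_le.mp (key r hr)).2) ht
  have h2 := drift_up (f := fun r => -f r) (f' := fun r => -f' r) (Real.sqrt_nonneg c)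
    (fun r => (hf r).neg) (fun r hr => by linarith [(abs_le.mp (key r hr)).1]) ht
  have h3 : |f t - f T| ≤ 10 / 9 * Real.sqrt c := abs_le.mpr ⟨by linarith, h1⟩
  have h4 := pow_le_pow_left₀ (abs_nonneg _) h3 2
  rw [sq_abs, mul_pow, Real.sq_sqrt hc] at h4
  linarith

theorem vec_deriv {F : ℝ → M3} {F' : M3} {y : ℝ → Fin 3 → ℝ} {y' : Fin 3 → ℝ} {t : ℝ}
    (hF : OdeMul.HD F F' t) (hy : ∀ i, HasDerivAt (fun s => y s i) (y' i) t) (i : Fin 3) :
    HasDerivAt (fun s => (F s *ᵥ y s) i) ((F' *ᵥ y t + F t *ᵥ y') i) t := by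
  simp only [Matrix.mulVec, dotProduct, Pi.add_apply, ← Finset.sum_add_distrib]
  exact HasDerivAt.fun_sum fun k _ => (hF i k).mul (hy k)

theorem nsq_add_le (u v : Fin 3 → ℝ) : nsq (u + v) ≤ 2 * nsq u + 2 * nsq v := by
  simp only [nsq, Pi.add_apply]
  nlinarith [sq_nonneg (u 0 - v 0), sq_nonneg (u 1 - v 1), sq_nonneg (u 2 - v 2)]

theorem comp_sq_le (u : Fin 3 → ℝ) (i : Fin 3) : u i ^ 2 ≤ nsq u := by
  have h0 := sq_nonneg (u 0)
  have h1 := sq_nonneg (u 1)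
  have h2 := sq_nonneg (u 2)
  fin_cases i <;> simp [nsq] <;> linarith

variable {K Om Y H : ℝ → M3}

theorem back_le (h : TwoSys K Om Y H) {T t : ℝ} (ht : T ≤ t) (v : Fin 3 → ℝ) :
    nsq (Y T *ᵥ ((Y t)⁻¹ *ᵥ v)) ≤ Real.exp (-(9 / 5) * (t - T)) * nsq v := by
  have g := (two_growth h T t ht ((Y t)⁻¹ *ᵥ v)).1
  rw [mul_inv_vec h] at g
  rw [neg_mul, Real.exp_neg, le_inv_mul_iff₀ (Real.exp_pos _)]
  exact g

theorem invT_le (h : TwoSys K Om Y H) {t : ℝ} (ht : 0 ≤ t) (c : Fin 3 → ℝ) :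
    nsq (((Y t)⁻¹)ᵀ *ᵥ c) ≤ nsq c := by
  have := OdeMul.transpose_bound (Y t)⁻¹ 1 zero_le_one (fun u => by
    have g := nsq_mono h ht ((Y t)⁻¹ *ᵥ u)
    rwa [mul_inv_vec h, Y0_vec h, ← one_mul (nsq u)] at g) c
  rwa [one_mul] at this

theorem sym_U (h : TwoSys K Om Y H) (t : ℝ) : ((Y t)⁻¹)ᵀ * (H t)ᵀ = H t * (Y t)⁻¹ := by
  have u1 : Y t * (Y t)⁻¹ = 1 := Matrix.mul_nonsing_inv _ (unit h t)
  have u2 : ((Y t)⁻¹)ᵀ * (Y t)ᵀ = 1 := by rw [← Matrix.transpose_mul, u1, Matrix.transpose_one]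
  calc ((Y t)⁻¹)ᵀ * (H t)ᵀ = ((Y t)⁻¹)ᵀ * ((H t)ᵀ * Y t) * (Y t)⁻¹ := by
        rw [Matrix.mul_assoc, Matrix.mul_assoc, u1, Matrix.mul_one]
    _ = H t * (Y t)⁻¹ := by
        rw [← h.wronski t, ← Matrix.mul_assoc, u2, Matrix.one_mul]

theorem conserved (h : TwoSys K Om Y H) {y η : ℝ → Fin 3 → ℝ}
    (hy : ∀ t i, HasDerivAt (fun s => y s i) ((η t - Om t *ᵥ y t) i) t)
    (hη : ∀ t i, HasDerivAt (fun s => η s i) ((K t *ᵥ y t - Om t *ᵥ η t) i) t) :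
    ∃ c : Fin 3 → ℝ, ∀ t, η t = H t *ᵥ ((Y t)⁻¹ *ᵥ y t) + ((Y t)⁻¹)ᵀ *ᵥ c := by
  have hd : ∀ t i, HasDerivAt (fun s => ((Y s)ᵀ *ᵥ η s - (H s)ᵀ *ᵥ y s) i) 0 t := by
    intro t i
    have h1 := vec_deriv (OdeMul.HD.transpose (F := Y) (h.dY t)) (hη t) i
    have h2 := vec_deriv (OdeMul.HD.transpose (F := H) (h.dH t)) (hy t) i
    refine (h1.sub h2).congr_deriv ?_
    rw [← Pi.sub_apply]
    have : (H t - Om t * Y t)ᵀ *ᵥ η t + (Y t)ᵀ *ᵥ (K t *ᵥ y t - Om t *ᵥ η t) -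
        ((K t * Y t - Om t * H t)ᵀ *ᵥ y t + (H t)ᵀ *ᵥ (η t - Om t *ᵥ y t)) = 0 := by
      simp only [Matrix.transpose_sub, Matrix.transpose_mul, h.Ks t, h.Oa t, Matrix.sub_mulVec,
        Matrix.mulVec_sub, Matrix.mulVec_mulVec, Matrix.mul_neg, Matrix.neg_mulVec]
      abel
    rw [this]; rfl
  refine ⟨(Y 0)ᵀ *ᵥ η 0 - (H 0)ᵀ *ᵥ y 0, fun t => ?_⟩
  have e : (Y 0)ᵀ *ᵥ η 0 - (H 0)ᵀ *ᵥ y 0 = (Y t)ᵀ *ᵥ η t - (H t)ᵀ *ᵥ y t := by
    funext i
    exact is_const_of_deriv_eq_zero (f := fun s => ((Y s)ᵀ *ᵥ η s - (H s)ᵀ *ᵥ y s) i)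
      (fun s => (hd s i).differentiableAt) (fun s => (hd s i).deriv) 0 t
  have u2 : ((Y t)⁻¹)ᵀ * (Y t)ᵀ = 1 := by
    rw [← Matrix.transpose_mul, Matrix.mul_nonsing_inv _ (unit h t), Matrix.transpose_one]
  rw [e, Matrix.mulVec_sub, Matrix.mulVec_mulVec, Matrix.mulVec_mulVec, Matrix.mulVec_mulVec, u2,
    sym_U h, Matrix.one_mulVec]
  abel

theorem pull_close (h : TwoSys K Om Y H) {y η : ℝ → Fin 3 → ℝ} {c : Fin 3 → ℝ}
    (hy : ∀ t i, HasDerivAt (fun s => y s i) ((η t - Om t *ᵥ y t) i) t)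
    (hc : ∀ t, η t = H t *ᵥ ((Y t)⁻¹ *ᵥ y t) + ((Y t)⁻¹)ᵀ *ᵥ c) {T t : ℝ} (hT : 0 ≤ T)
    (ht : T ≤ t) : nsq (Y T *ᵥ ((Y t)⁻¹ *ᵥ y t) - y T) ≤ 4 * nsq c := by
  have hd : ∀ r i, HasDerivAt (fun s => (Y T *ᵥ ((Y s)⁻¹ *ᵥ y s)) i)
      ((Y T *ᵥ ((Y r)⁻¹ *ᵥ (((Y r)⁻¹)ᵀ *ᵥ c))) i) r := by
    intro r i
    have h1 := vec_deriv (OdeMul.HD.inv (F := Y) (h.dY r) (h.det_pos r).ne') (hy r)
    have h2 := vec_deriv (OdeMul.HD.const (Y T) r) h1 i
    have u1 : Y r * (Y r)⁻¹ = 1 := Matrix.mul_nonsing_inv _ (unit h r)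
    have e : -((Y r)⁻¹ * (H r - Om r * Y r) * (Y r)⁻¹) *ᵥ y r + (Y r)⁻¹ *ᵥ (η r - Om r *ᵥ y r) =
        (Y r)⁻¹ *ᵥ (((Y r)⁻¹)ᵀ *ᵥ c) := by
      rw [hc r]
      simp only [Matrix.neg_mulVec, Matrix.mul_sub, Matrix.sub_mul, Matrix.sub_mulVec,
        Matrix.mulVec_sub, Matrix.mulVec_add, Matrix.mulVec_mulVec, Matrix.mul_assoc, u1,
        Matrix.mul_one]
      abel
    rwa [Matrix.zero_mulVec, zero_add, e] at h2
  have k : ∀ i, ((Y T *ᵥ ((Y t)⁻¹ *ᵥ y t)) i - y T i) ^ 2 ≤ 4 / 3 * nsq c := by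
    intro i
    have := drift (nsq_nonneg c) (fun r => hd r i) (fun r hr => by
      refine (comp_sq_le _ i).trans ((back_le h hr _).trans ?_)
      exact mul_le_mul_of_nonneg_left (invT_le h (hT.trans hr) c) (Real.exp_pos _).le) ht
    rwa [mul_inv_vec h] at this
  simp only [nsq, Pi.sub_apply] at k ⊢
  linarith [k 0, k 1, k 2]

end OT

open OE OT in
theorem two_range {K Om Y H : ℝ → M3} (h : TwoSys K Om Y H) (s : ℝ) (hs : 0 < s) (l₁ l₂ : ℝ)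
    (h1 : Tendsto (fun n : ℕ => Real.log (fro (Y (n * s))) / n) atTop (𝓝 l₁))
    (h2 : Tendsto (fun n : ℕ => Real.log (fro (Y (n * s))⁻¹) / n) atTop (𝓝 l₂))
    (a χ : ℝ) (hχ : 0 < χ) (y η : ℝ → Fin 3 → ℝ)
    (hy : ∀ t i, HasDerivAt (fun s => y s i) ((η t - Om t *ᵥ y t) i) t)
    (hη : ∀ t i, HasDerivAt (fun s => η s i) ((K t *ᵥ y t - Om t *ᵥ η t) i) t)
    (hT : Tendsto (fun t : ℝ => Real.log (Real.sqrt (a ^ 2 + nsq (y t) + nsq (η t))) / t) atTop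
      (𝓝 χ)) : -l₂ / s ≤ χ ∧ χ ≤ l₁ / s := by
  obtain ⟨c, hc⟩ := conserved h hy hη
  have ns : ∀ n : ℕ, 0 ≤ (n : ℝ) * s := fun n => by positivity
  have r1 : Rate (fun n : ℕ => fro (Y (n * s)) ^ 2) (2 * l₁) := Rate.sq h1
  have r2 : Rate (fun n : ℕ => fro (Y (n * s))⁻¹ ^ 2) (2 * l₂) := Rate.sq h2
  have N0 : ∀ t, 0 ≤ a ^ 2 + nsq (y t) + nsq (η t) := fun t =>
    add_nonneg (add_nonneg (sq_nonneg a) (nsq_nonneg _)) (nsq_nonneg _)
  have rN : Rate (fun n : ℕ => a ^ 2 + nsq (y (n * s)) + nsq (η (n * s))) (2 * (χ * s)) := by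
    have k := ((hT.comp ((tendsto_natCast_atTop_atTop (R := ℝ)).atTop_mul_const hs)).mul_const
      s).const_mul 2
    refine k.congr fun n => ?_
    simp only [Function.comp]
    rw [Real.log_sqrt (N0 _)]
    rcases eq_or_ne (n : ℝ) 0 with h0 | h0
    · simp [h0]
    · field_simp
  have χs : 0 < 2 * (χ * s) := by positivity
  have Np : ∀ᶠ n : ℕ in atTop, 0 < a ^ 2 + nsq (y (n * s)) + nsq (η (n * s)) := by
    filter_upwards [rN.eventually (lt_mem_nhds χs)] with n hn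
    rcases (N0 (n * s)).eq_or_lt with h0 | h0
    · rw [← h0] at hn
      simp at hn
    · exact h0
  have c0 := nsq_nonneg c
  have hηle : ∀ t, 0 ≤ t → nsq (η t) ≤ 18 * nsq (y t) + 2 * nsq c := by
    intro t ht
    have b1 := H_le h t ((Y t)⁻¹ *ᵥ y t)
    rw [mul_inv_vec h] at b1
    have b2 := invT_le h ht c
    have b3 := nsq_add_le (H t *ᵥ ((Y t)⁻¹ *ᵥ y t)) (((Y t)⁻¹)ᵀ *ᵥ c)
    rw [← hc t] at b3
    linarith
  constructor
  · obtain ⟨T, hT0, hTy⟩ : ∃ T, 0 ≤ T ∧ 8 * nsq c + 2 < nsq (y T) := by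
      by_contra hh
      push Not at hh
      have := rate_le_ev rN (rate_const (a ^ 2 + 19 * (8 * nsq c + 2) + 2 * nsq c)) (by
        filter_upwards [Np] with n hn
        refine ⟨hn, ?_⟩
        linarith [hh _ (ns n), hηle _ (ns n)])
      linarith
    have fT := fro_pos h T
    have k := (rate_const (1 / fro (Y T) ^ 2)).div r2 (fun _ => by positivity)
      (fun n => by have := fro_inv_pos h (n * s); positivity)
    have k2 := rate_le_ev k rN (by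
      filter_upwards [((tendsto_natCast_atTop_atTop (R := ℝ)).atTop_mul_const hs).eventually
        (eventually_ge_atTop T)] with n hn
      have fi := fro_inv_pos h (n * s)
      refine ⟨by positivity, ?_⟩
      have b1 := pull_close h hy hc hT0 hn
      set w := Y T *ᵥ ((Y (n * s))⁻¹ *ᵥ y (n * s)) with hw
      have b2 : nsq (y T) ≤ 2 * nsq w + 2 * nsq (w - y T) := by
        simp only [nsq, Pi.sub_apply]
        nlinarith [sq_nonneg (2 * w 0 - y T 0), sq_nonneg (2 * w 1 - y T 1),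
          sq_nonneg (2 * w 2 - y T 2)]
      have b3 : nsq w ≤ fro (Y T) ^ 2 * (fro (Y (n * s))⁻¹ ^ 2 * nsq (y (n * s))) :=
        (nsq_mulVec_le _ _).trans (mul_le_mul_of_nonneg_left (nsq_mulVec_le _ _) (sq_nonneg _))
      have b4 : 1 / fro (Y T) ^ 2 / fro (Y (n * s))⁻¹ ^ 2 ≤ nsq (y (n * s)) := by
        rw [div_le_iff₀ (by positivity), div_le_iff₀ (by positivity)]
        linarith
      linarith [sq_nonneg a, nsq_nonneg (η (n * s))])
    rw [div_le_iff₀ hs]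
    linarith
  · have k := r1.const_mul (fun n => by have := fro_pos h (n * s); positivity)
      (C := a ^ 2 + 19 * (2 * nsq (y 0) + 8 * nsq c) + 2 * nsq c + 1)
      (by have := nsq_nonneg (y 0); positivity)
    have k2 := rate_le_ev rN k (by
      filter_upwards [Np] with n hn
      refine ⟨hn, ?_⟩
      have b1 := pull_close h hy hc le_rfl (ns n)
      rw [Y0_vec h] at b1
      set z := (Y (n * s))⁻¹ *ᵥ y (n * s) with hz
      have b2 : nsq z ≤ 2 * nsq (y 0) + 2 * nsq (z - y 0) := by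
        have := nsq_add_le (y 0) (z - y 0)
        rwa [add_sub_cancel] at this
      have b3 := nsq_mulVec_le (Y (n * s)) z
      rw [hz, mul_inv_vec h, ← hz] at b3
      have b4 : 1 ≤ fro (Y (n * s)) ^ 2 := by
        have e1 := nsq_mulVec_le (Y (n * s)) (Pi.single 0 1)
        have e2 := nsq_mono h (ns n) (Pi.single 0 1)
        rw [Y0_vec h] at e2
        rw [OdeMul.nsq_single] at e1 e2
        linarith
      have b5 := hηle _ (ns n)
      have b6 : nsq (y (n * s)) ≤ fro (Y (n * s)) ^ 2 * (2 * nsq (y 0) + 8 * nsq c) :=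
        b3.trans (mul_le_mul_of_nonneg_left (by linarith) (sq_nonneg _))
      have b7 : a ^ 2 + 2 * nsq c + 1 ≤ (a ^ 2 + 2 * nsq c + 1) * fro (Y (n * s)) ^ 2 :=
        le_mul_of_one_le_right (by positivity) b4
      linarith)
    rw [le_div_iff₀ hs]
    linarith

end Pool.Agent.MP_019006_gt
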