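import Pool.Agent.MP_019006_gt.OdeTwo2

set_option autoImplicit false

open MeasureTheory Filter Topology Set Matrix

namespace Pool.Agent.MP_019006_gt

namespace OT

open OE

variable {K Om Y H : ℝ → M3}

theorem f_ne (h : TwoSys K Om Y H) {t : ℝ} (ht : 0 ≤ t) : Y t 0 0 ≠ 0 := by
  intro h0
  have := cone_pos h (Or.inl rfl) ht ![1, 0, 0] (by rw [Y0_vec h]; simp [Qk])
  simp only [Qk, mv] at this
  simp [h0] at this
  nlinarith [sq_nonneg (Y t 1 0), sq_nonneg (Y t 2 0)]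

/-- The slow plane, for all times. -/
theorem slow_plane (h : TwoSys K Om Y H) :
    ∃ α β : ℝ, α ^ 2 ≤ 1 ∧ β ^ 2 ≤ 1 ∧ ∀ t x y : ℝ, Qk 1 (Y t *ᵥ sv α β x y) ≤ 0 := by
  unfold sv
  set c : ℕ → ℝ × ℝ := fun n => (Y n 0 1 / Y n 0 0, Y n 0 2 / Y n 0 0) with hc
  have key : ∀ n : ℕ, ∀ t : ℝ, t ≤ n → ∀ x y : ℝ,
      Qk 1 (Y t *ᵥ ![-((c n).1 * x + (c n).2 * y), x, y]) ≤ 0 := by
    intro n t htn x y
    by_contra hh
    push Not at hh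
    have h1 := cone_pos h (Or.inl rfl) htn _ hh
    have h2 : (Y n *ᵥ ![-((c n).1 * x + (c n).2 * y), x, y]) 0 = 0 := by
      have := f_ne h (Nat.cast_nonneg (α := ℝ) n)
      rw [mv, hc]; simp; field_simp; ring
    unfold Qk at h1
    rw [h2] at h1
    nlinarith [sq_nonneg ((Y n *ᵥ ![-((c n).1 * x + (c n).2 * y), x, y]) 1),
      sq_nonneg ((Y n *ᵥ ![-((c n).1 * x + (c n).2 * y), x, y]) 2)]
  have b1 : ∀ n, (c n).1 ^ 2 ≤ 1 := by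
    intro n
    have := key n 0 (Nat.cast_nonneg n) 1 0
    rw [Y0_vec h] at this
    simp [Qk] at this
    nlinarith [abs_le.mp this]
  have b2 : ∀ n, (c n).2 ^ 2 ≤ 1 := by
    intro n
    have := key n 0 (Nat.cast_nonneg n) 0 1
    rw [Y0_vec h] at this
    simp [Qk] at this
    nlinarith [abs_le.mp this]
  have hcomp : IsCompact (Icc (-1 : ℝ) 1 ×ˢ Icc (-1 : ℝ) 1) := isCompact_Icc.prod isCompact_Icc
  obtain ⟨z, hz0, φ, hφ, hz⟩ := hcomp.tendsto_subseq (x := c) (fun n => by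
    have h1 := b1 n
    have h2 := b2 n
    refine ⟨⟨?_, ?_⟩, ⟨?_, ?_⟩⟩ <;> nlinarith [sq_nonneg (c n).1, sq_nonneg (c n).2])
  refine ⟨z.1, z.2, by nlinarith [hz0.1.1, hz0.1.2], by nlinarith [hz0.2.1, hz0.2.2],
    fun t x y => ?_⟩
  have hcont : Continuous fun w : ℝ × ℝ => Qk 1 (Y t *ᵥ ![-(w.1 * x + w.2 * y), x, y]) := by
    simp only [Qk, mv]
    simp
    fun_prop
  refine le_of_tendsto ((hcont.tendsto z).comp hz) ?_
  filter_upwards [eventually_ge_atTop ⌈t⌉₊] with m hm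
  refine key (φ m) t ?_ x y
  exact (Nat.le_ceil t).trans (by exact_mod_cast hm.trans (hφ.id_le m))

theorem Qk_smul (k r : ℝ) (v : Fin 3 → ℝ) : Qk k (r • v) = r ^ 2 * Qk k v := by
  simp only [Qk, Pi.smul_apply, smul_eq_mul]; ring

theorem nsq_smul (r : ℝ) (v : Fin 3 → ℝ) : nsq (r • v) = r ^ 2 * nsq v := by
  simp only [nsq, Pi.smul_apply, smul_eq_mul]; ring

/-- The fast vector. -/
theorem fast_vec (h : TwoSys K Om Y H) :
    ∃ a b : ℝ, ∀ t : ℝ, 0 ≤ Qk (1 / 5) (Y t *ᵥ ![1, a, b]) := by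
  set g : ℕ → Fin 3 → ℝ := fun n => (Y (-(n : ℝ)))⁻¹ *ᵥ ![1, 0, 0] with hg
  have key0 : ∀ n : ℕ, ∀ t : ℝ, -(n : ℝ) ≤ t → 0 < Qk (1 / 5) (Y t *ᵥ g n) := by
    intro n t ht
    refine cone_pos h (Or.inr rfl) ht _ ?_
    rw [hg]
    simp only [mul_inv_vec h]
    simp [Qk]
  have g0 : ∀ n, g n 0 ≠ 0 := by
    intro n h0
    have := key0 n 0 (by simp)
    rw [Y0_vec h] at this
    simp only [Qk, h0] at this
    nlinarith [sq_nonneg (g n 1), sq_nonneg (g n 2)]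
  set c : ℕ → ℝ × ℝ := fun n => (g n 1 / g n 0, g n 2 / g n 0) with hc
  have key : ∀ n : ℕ, ∀ t : ℝ, -(n : ℝ) ≤ t → 0 ≤ Qk (1 / 5) (Y t *ᵥ ![1, (c n).1, (c n).2]) := by
    intro n t ht
    have e : ![1, (c n).1, (c n).2] = (g n 0)⁻¹ • g n := by
      have := g0 n
      funext i
      fin_cases i <;> simp [hc] <;> field_simp
    rw [e, Matrix.mulVec_smul, Qk_smul]
    exact mul_nonneg (sq_nonneg _) (key0 n t ht).le
  have hcomp : IsCompact (Icc (-1 : ℝ) 1 ×ˢ Icc (-1 : ℝ) 1) := isCompact_Icc.prod isCompact_Icc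
  obtain ⟨z, -, φ, hφ, hz⟩ := hcomp.tendsto_subseq (x := c) (fun n => by
    have h1 := key n 0 (by simp)
    rw [Y0_vec h] at h1
    simp only [Qk] at h1
    simp at h1
    refine ⟨⟨?_, ?_⟩, ⟨?_, ?_⟩⟩ <;> nlinarith [sq_nonneg (c n).1, sq_nonneg (c n).2])
  refine ⟨z.1, z.2, fun t => ?_⟩
  have hcont : Continuous fun w : ℝ × ℝ => Qk (1 / 5) (Y t *ᵥ ![1, w.1, w.2]) := by
    simp only [Qk, mv]
    simp
    fun_prop
  refine ge_of_tendsto ((hcont.tendsto z).comp hz) ?_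
  filter_upwards [eventually_ge_atTop ⌈-t⌉₊] with m hm
  refine key (φ m) t ?_
  have : -t ≤ (φ m : ℝ) := (Nat.le_ceil (-t)).trans (by exact_mod_cast hm.trans (hφ.id_le m))
  linarith

theorem cone_facts {v : Fin 3 → ℝ} (hv : 0 < nsq v) (hq : 0 ≤ Qk (1 / 5) v) :
    0 < v 0 ^ 2 ∧ v 1 ^ 2 + v 2 ^ 2 < 1 / 4 * v 0 ^ 2 ∧ nsq v ≤ 6 / 5 * v 0 ^ 2 := by
  simp only [Qk, nsq] at *
  refine ⟨by linarith, by linarith, by linarith⟩

theorem pert_cone (f0 f1 f2 v0 v1 v2 θ : ℝ) (h0 : 0 < f0 ^ 2)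
    (hf : f1 ^ 2 + f2 ^ 2 ≤ 1 / 5 * f0 ^ 2) (hv : 9 * (v0 ^ 2 + v1 ^ 2 + v2 ^ 2) ≤ f0 ^ 2)
    (hθ : θ ^ 2 < 1) : 0 < (f0 + θ * v0) ^ 2 - (f1 + θ * v1) ^ 2 - (f2 + θ * v2) ^ 2 := by
  have k : (θ * v0) ^ 2 + (θ * v1) ^ 2 + (θ * v2) ^ 2 ≤ 1 / 9 * f0 ^ 2 := by
    have : θ ^ 2 * (v0 ^ 2 + v1 ^ 2 + v2 ^ 2) ≤ 1 * (v0 ^ 2 + v1 ^ 2 + v2 ^ 2) :=
      mul_le_mul_of_nonneg_right hθ.le (by positivity)
    linarith
  generalize θ * v0 = w0 at *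
  generalize θ * v1 = w1 at *
  generalize θ * v2 = w2 at *
  nlinarith [sq_nonneg (f0 + 4 * w0), sq_nonneg (f1 - 2 * w1), sq_nonneg (f2 - 2 * w2),
    sq_nonneg w0, sq_nonneg w1, sq_nonneg w2]

/-- Domination of every vector by the fast one. -/
theorem dom (h : TwoSys K Om Y H) {f : Fin 3 → ℝ} (hf0 : 0 < nsq f)
    (hf : ∀ t, 0 ≤ Qk (1 / 5) (Y t *ᵥ f)) {a b : ℝ} (hab : a ≤ b) (u : Fin 3 → ℝ) :
    nsq (Y b *ᵥ u) * (Y a *ᵥ f) 0 ^ 2 ≤ 54 * (Y b *ᵥ f) 0 ^ 2 * nsq (Y a *ᵥ u) := by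
  obtain ⟨a0, -, -⟩ := cone_facts (nsq_Y_pos h a hf0) (hf a)
  rcases (nsq_nonneg u).eq_or_lt with hu | hu
  · have : u = 0 := by
      funext i
      have := comp_sq_le u i
      rw [← hu] at this
      exact pow_eq_zero_iff (two_ne_zero) |>.mp (le_antisymm this (sq_nonneg _))
    rw [this]
    simp [nsq]
  have pa := nsq_Y_pos h a hu
  set r := Real.sqrt ((Y a *ᵥ f) 0 ^ 2 / (9 * nsq (Y a *ᵥ u))) with hr
  have r2 : r ^ 2 = (Y a *ᵥ f) 0 ^ 2 / (9 * nsq (Y a *ᵥ u)) := Real.sq_sqrt (by positivity)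
  have k := col_bd ((Y b *ᵥ f) 0) ((Y b *ᵥ f) 1) ((Y b *ᵥ f) 2) ((Y b *ᵥ (r • u)) 0)
    ((Y b *ᵥ (r • u)) 1) ((Y b *ᵥ (r • u)) 2) fun θ hθ => by
      have k1 : 0 < Qk 1 (Y a *ᵥ (f + θ • r • u)) := by
        have k2 := hf a
        have k3 : 9 * nsq (Y a *ᵥ (r • u)) ≤ (Y a *ᵥ f) 0 ^ 2 := by
          rw [Matrix.mulVec_smul, nsq_smul, r2]
          field_simp
          exact le_rfl
        rw [Matrix.mulVec_add, Matrix.mulVec_smul]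
        simp only [Qk, Pi.add_apply, Pi.smul_apply, smul_eq_mul, one_mul, nsq] at k2 k3 ⊢
        exact pert_cone _ _ _ _ _ _ θ a0 (by linarith) k3 hθ
      have k4 := cone_pos h (Or.inl rfl) hab _ k1
      rw [Matrix.mulVec_add, Matrix.mulVec_smul] at k4
      simpa only [Qk, Pi.add_apply, Pi.smul_apply, smul_eq_mul, one_mul] using k4
  have k5 : nsq (Y b *ᵥ (r • u)) ≤ 6 * (Y b *ᵥ f) 0 ^ 2 := k
  rw [Matrix.mulVec_smul, nsq_smul, r2, div_mul_eq_mul_div, div_le_iff₀ (by positivity)] at k5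
  linarith

theorem sv_eq (α β x y : ℝ) : sv α β x y = x • sv α β 1 0 + y • sv α β 0 1 := by
  funext i
  fin_cases i <;> simp [sv] <;> ring

theorem fE_eq (A : M3) (α β : ℝ) : fE α A = nsq (A *ᵥ sv α β 1 0) := by
  rw [nsq_sv]; ring

theorem fG_eq (A : M3) (α β : ℝ) : fG β A = nsq (A *ᵥ sv α β 0 1) := by
  rw [nsq_sv]; ring

theorem nsq_sv_ge (α β x y : ℝ) : x ^ 2 + y ^ 2 ≤ nsq (sv α β x y) := by
  simp only [nsq, sv]
  simp
  positivity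

theorem nsq_b1 {α : ℝ} (β : ℝ) (hα : α ^ 2 ≤ 1) : nsq (sv α β 1 0) ≤ 2 := by
  simp only [nsq, sv]
  simp
  linarith

theorem nsq_b2 (α : ℝ) {β : ℝ} (hβ : β ^ 2 ≤ 1) : nsq (sv α β 0 1) ≤ 2 := by
  simp only [nsq, sv]
  simp
  linarith

/-- Decomposition along the fast vector and the slow plane. -/
theorem decomp {α β a b : ℝ} (hΔ : 1 + α * a + β * b ≠ 0) (u : Fin 3 → ℝ) :
    ∃ c x y : ℝ, u = c • ![1, a, b] + sv α β x y := by
  refine ⟨(u 0 + α * u 1 + β * u 2) / (1 + α * a + β * b),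
    u 1 - (u 0 + α * u 1 + β * u 2) / (1 + α * a + β * b) * a,
    u 2 - (u 0 + α * u 1 + β * u 2) / (1 + α * a + β * b) * b, ?_⟩
  funext i
  fin_cases i
  · simp [sv]; field_simp; ring
  · simp [sv]
  · simp [sv]

theorem trans_low (c : ℝ) (φ p : Fin 3 → ℝ) (hφ : φ 1 ^ 2 + φ 2 ^ 2 < 1 / 4 * φ 0 ^ 2)
    (hp : Qk 1 p ≤ 0) : c ^ 2 * φ 0 ^ 2 ≤ 30 * nsq (c • φ + p) := by
  simp only [Qk, nsq, Pi.add_apply, Pi.smul_apply, smul_eq_mul, one_mul] at *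
  have k : (c * φ 1) ^ 2 + (c * φ 2) ^ 2 ≤ 1 / 4 * (c * φ 0) ^ 2 := by
    have := mul_le_mul_of_nonneg_left hφ.le (sq_nonneg c)
    linarith
  rw [← mul_pow]
  generalize c * φ 0 = g0 at *
  generalize c * φ 1 = g1 at *
  generalize c * φ 2 = g2 at *
  obtain ⟨v0, hv0⟩ : ∃ v, v = g0 + p 0 := ⟨_, rfl⟩
  obtain ⟨v1, hv1⟩ : ∃ v, v = g1 + p 1 := ⟨_, rfl⟩
  obtain ⟨v2, hv2⟩ : ∃ v, v = g2 + p 2 := ⟨_, rfl⟩
  have e0 : p 0 = v0 - g0 := by linarith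
  have e1 : p 1 = v1 - g1 := by linarith
  have e2 : p 2 = v2 - g2 := by linarith
  rw [← hv0, ← hv1, ← hv2]
  rw [e0, e1, e2] at hp
  nlinarith [sq_nonneg (g0 - 4 * v0), sq_nonneg (g1 + v1), sq_nonneg (g2 + v2), sq_nonneg v0,
    sq_nonneg v1, sq_nonneg v2]

/-- Comparison of the area on the slow plane with the determinant. -/
theorem area (A : M3) (α β a b : ℝ)
    (hf : (A *ᵥ ![1, a, b]) 1 ^ 2 + (A *ᵥ ![1, a, b]) 2 ^ 2 < 1 / 4 * (A *ᵥ ![1, a, b]) 0 ^ 2)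
    (hs : ∀ x y : ℝ, Qk 1 (A *ᵥ sv α β x y) ≤ 0) :
    4 / 5 * (1 + α * a + β * b) ^ 2 * (A.det ^ 2 / (A *ᵥ ![1, a, b]) 0 ^ 2) ≤
      fE α A * fG β A - fF α β A ^ 2 ∧
    fE α A * fG β A - fF α β A ^ 2 ≤
      8 * (1 + α * a + β * b) ^ 2 * (A.det ^ 2 / (A *ᵥ ![1, a, b]) 0 ^ 2) ∧
    (fE α A ≤ 135 * (A *ᵥ ![1, a, b]) 0 ^ 2 → ∀ c x y : ℝ,
      (fE α A * fG β A - fF α β A ^ 2) * (c ^ 2 / 3 + 4 * (x ^ 2 + y ^ 2)) ≤
        400 * (fE α A + fG β A) * nsq (A *ᵥ (c • ![1, a, b] + sv α β x y))) := by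
  have hΔ0 : A.det * (1 + α * a + β * b) =
      (A *ᵥ ![1, a, b]) 0 * ((A 1 1 - α * A 1 0) * (A 2 2 - β * A 2 0) -
        (A 2 1 - α * A 2 0) * (A 1 2 - β * A 1 0)) +
      (A *ᵥ ![1, a, b]) 1 * ((A 2 1 - α * A 2 0) * (A 0 2 - β * A 0 0) -
        (A 0 1 - α * A 0 0) * (A 2 2 - β * A 2 0)) +
      (A *ᵥ ![1, a, b]) 2 * ((A 0 1 - α * A 0 0) * (A 1 2 - β * A 1 0) -
        (A 1 1 - α * A 1 0) * (A 0 2 - β * A 0 0)) := by
    rw [Matrix.det_fin_three]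
    simp only [mv]
    simp
    ring
  have hv : ∀ c x y : ℝ, ∀ i, (A *ᵥ (c • ![1, a, b] + sv α β x y)) i =
      c / 3 * (3 * (A *ᵥ ![1, a, b]) i) + x * (A i 1 - α * A i 0) + y * (A i 2 - β * A i 0) := by
    intro c x y i
    rw [Matrix.mulVec_add, Matrix.mulVec_smul, Pi.add_apply, mv_sv, Pi.smul_apply, smul_eq_mul]
    ring
  generalize A *ᵥ ![1, a, b] = φ at *
  have f0p : 0 < φ 0 ^ 2 := by nlinarith [sq_nonneg (φ 1), sq_nonneg (φ 2)]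
  set p0 := A 0 1 - α * A 0 0 with hp0
  set p1 := A 1 1 - α * A 1 0 with hp1
  set p2 := A 2 1 - α * A 2 0 with hp2
  set q0 := A 0 2 - β * A 0 0 with hq0
  set q1 := A 1 2 - β * A 1 0 with hq1
  set q2 := A 2 2 - β * A 2 0 with hq2
  have hN := normal_bd p0 p1 p2 q0 q1 q2 fun x y => by
    have := hs x y
    simp only [Qk, mv_sv, one_mul] at this
    exact this
  have hD : fE α A * fG β A - fF α β A ^ 2 =
      (p1 * q2 - p2 * q1) ^ 2 + (p2 * q0 - p0 * q2) ^ 2 + (p0 * q1 - p1 * q0) ^ 2 := by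
    simp only [fE, fF, fG, hp0, hp1, hp2, hq0, hq1, hq2]; ring
  have t1 := trans_bd (φ 0) (φ 1) (φ 2) _ _ _ hf hN
  have t2 := cs (φ 0) (φ 1) (φ 2) (p1 * q2 - p2 * q1) (p2 * q0 - p0 * q2) (p0 * q1 - p1 * q0)
  rw [← hΔ0, ← hD] at t1 t2
  have D0 : 0 ≤ fE α A * fG β A - fF α β A ^ 2 := by rw [hD]; positivity
  refine ⟨?_, ?_, fun hE c x y => ?_⟩
  · rw [← mul_div_assoc, div_le_iff₀ f0p]
    have := mul_le_mul_of_nonneg_right
      (show φ 0 ^ 2 + φ 1 ^ 2 + φ 2 ^ 2 ≤ 5 / 4 * φ 0 ^ 2 by linarith) D0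
    linarith
  · rw [← mul_div_assoc, le_div_iff₀ f0p]; linarith
  · have k := inv_bd (3 * φ 0) (3 * φ 1) (3 * φ 2) p0 p1 p2 q0 q1 q2 (c / 3) x y
      (by linarith) (by unfold fE at hE; linarith) hN
    rw [← hD] at k
    have e1 : 3 * (c / 3) ^ 2 = c ^ 2 / 3 := by ring
    rw [e1] at k
    refine k.trans (le_of_eq ?_)
    simp only [nsq, hv, fE, fG, hp0, hp1, hp2, hq0, hq1, hq2]

/-- A vector not parallel to the slow one has the fast rate. -/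
theorem other (E F G : ℕ → ℝ) (hE : ∀ n, 0 < E n) (hD : ∀ n, 0 < E n * G n - F n ^ 2)
    (τ μ : ℝ) (hT : Rate (fun n => E n + G n) τ)
    (hDr : Rate (fun n => E n * G n - F n ^ 2) (τ + μ)) {x y x' y' : ℝ}
    (hr : Rate (fun n => E n * x ^ 2 + 2 * F n * x * y + G n * y ^ 2) μ)
    (hω : x * y' - y * x' ≠ 0) :
    Rate (fun n => E n * x' ^ 2 + 2 * F n * x' * y' + G n * y' ^ 2) τ := by
  have ω2 : 0 < (x * y' - y * x') ^ 2 := by positivity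
  have key : ∀ n, (x * y' - y * x') ^ 2 * (E n * G n - F n ^ 2) ≤
      (E n * x ^ 2 + 2 * F n * x * y + G n * y ^ 2) *
        (E n * x' ^ 2 + 2 * F n * x' * y' + G n * y' ^ 2) := fun n => by
    nlinarith [sq_nonneg (E n * x * x' + F n * (x * y' + y * x') + G n * y * y')]
  have p1 : ∀ n, 0 < E n * x ^ 2 + 2 * F n * x * y + G n * y ^ 2 := by
    intro n
    rcases (form_nonneg (E n) (F n) (G n) x y (hE n) (hD n)).eq_or_lt with h0 | h0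
    · have := key n
      rw [← h0, zero_mul] at this
      exact absurd this (not_le.mpr (mul_pos ω2 (hD n)))
    · exact h0
  have T0 : ∀ n, 0 < E n + G n := by
    intro n
    have : 0 < G n := by
      by_contra h
      push Not at h
      nlinarith [sq_nonneg (F n), hE n, hD n]
    linarith [hE n]
  have xy : 0 < x' ^ 2 + y' ^ 2 := by
    rcases (add_nonneg (sq_nonneg x') (sq_nonneg y')).eq_or_lt with h0 | h0
    · have a1 : x' = 0 := by nlinarith [sq_nonneg x', sq_nonneg y']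
      have a2 : y' = 0 := by nlinarith [sq_nonneg x', sq_nonneg y']
      rw [a1, a2] at hω
      simp at hω
    · exact h0
  have r1 := (hDr.div hr hD p1).const_mul (fun n => div_pos (hD n) (p1 n)) ω2
  rw [add_sub_cancel_right] at r1
  refine r1.squeeze (hT.const_mul T0 xy) (fun n => mul_pos ω2 (div_pos (hD n) (p1 n)))
    (fun n => ?_) (fun n => ?_)
  · rw [← mul_div_assoc, div_le_iff₀ (p1 n)]
    linarith [key n]
  · linarith [form_le (E n) (F n) (G n) x' y' (hE n) (hD n)]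

end OT

end Pool.Agent.MP_019006_gt
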